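import Pool.Agent.Lib_MP_644907_full.Grp1

/-!
# Piece BJ1: many group elements with prescribed directions in one shell
-/

set_option autoImplicit false

namespace Pool.Agent.DD

open MeasureTheory Filter Topology Metric

variable {Γ : Type} [Group Γ] [MulAction Γ ℂ]

/-- directions: cover the circle by `m` balls of radius `ε / 2` with centers on the circle; for `n` large every `γ 0` and `γ⁻¹ 0` (norm close to 1) is within `ε` of a centre; pigeonhole over the `m²` pairs of centres. The centres can be taken in `Lim Γ` (orbit points with norm close to 1 are close to `Lim Γ`, compactness). -/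
theorem direct (h : Fuchs Γ) (hL : (Lim Γ).Infinite) (ε : ℝ) (hε : 0 < ε) : ∃ (F : Finset ℂ) (n₀ : ℕ), 0 < F.card ∧ (∀ u ∈ F, u ∈ Lim Γ) ∧ ∀ (n : ℕ) (S : Finset Γ), n₀ ≤ n →
    (∀ γ ∈ S, (1 / 2 : ℝ) ^ (n + 1) < 1 - ‖γ • (0 : ℂ)‖ ^ 2 ∧ 1 - ‖γ • (0 : ℂ)‖ ^ 2 ≤ (1 / 2) ^ n) →
    ∃ u ∈ F, ∃ v ∈ F, ∃ S' ⊆ S, (S.card : ℝ) / F.card ^ 2 ≤ S'.card ∧ ∀ γ ∈ S', ‖γ • (0 : ℂ) - u‖ < ε ∧ ‖γ⁻¹ • (0 : ℂ) - v‖ < ε := by
  classical
  set K : Set ℂ := closure (Set.range fun γ : Γ => γ • (0 : ℂ)) with hK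
  have hKb : K ⊆ closedBall (0 : ℂ) 1 := by
    refine closure_minimal ?_ isClosed_closedBall
    rintro _ ⟨γ, rfl⟩
    rw [mem_closedBall_zero_iff]
    exact (h.norm0 γ).le
  have hKc : IsCompact K := (isCompact_closedBall (0 : ℂ) 1).of_isClosed_subset isClosed_closure hKb
  have hLc : IsCompact (Lim Γ) := hKc.inter_right isClosed_sphere
  obtain ⟨T, hTL, hTf, hTc⟩ := hLc.finite_cover_balls hε
  set F : Finset ℂ := hTf.toFinset with hF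
  have hFm : ∀ u, u ∈ F ↔ u ∈ T := fun u => by rw [hF, Set.Finite.mem_toFinset]
  have hFne : F.Nonempty := by
    obtain ⟨x, hx⟩ := hL.nonempty
    have := hTc hx
    rw [Set.mem_iUnion₂] at this
    obtain ⟨u, hu, -⟩ := this
    exact ⟨u, (hFm u).2 hu⟩
  -- orbit points with norm close to 1
  set V : Set ℂ := ⋃ x ∈ T, ball x ε with hV
  have hVo : IsOpen V := isOpen_biUnion fun _ _ => isOpen_ball
  have hr : ∃ r : ℝ, 0 ≤ r ∧ r < 1 ∧ ∀ z ∈ K, r < ‖z‖ → z ∈ V := by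
    rcases (K \ V).eq_empty_or_nonempty with he | hne
    · refine ⟨0, le_rfl, one_pos, fun z hz _ => ?_⟩
      by_contra hc
      have : z ∈ K \ V := ⟨hz, hc⟩
      rw [he] at this
      exact this
    · obtain ⟨z₀, hz₀, hmax⟩ := (hKc.diff hVo).exists_isMaxOn hne continuous_norm.continuousOn
      refine ⟨‖z₀‖, norm_nonneg _, ?_, fun z hz hzr => ?_⟩
      · refine lt_of_le_of_ne (mem_closedBall_zero_iff.1 (hKb hz₀.1)) fun h1 => ?_
        exact hz₀.2 (hTc ⟨hz₀.1, mem_sphere_zero_iff_norm.2 h1⟩)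
      · by_contra hc
        exact absurd (hmax ⟨hz, hc⟩) (not_le.2 hzr)
  obtain ⟨r, hr0, hr1, hr⟩ := hr
  obtain ⟨n₀, hn₀⟩ := exists_pow_lt_of_lt_one (show (0 : ℝ) < 1 - r ^ 2 by nlinarith only [hr0, hr1]) (show (1 / 2 : ℝ) < 1 by norm_num)
  refine ⟨F, n₀, hFne.card_pos, fun u hu => hTL ((hFm u).1 hu), fun n S hn hS => ?_⟩
  have hnorm : ∀ γ ∈ S, r < ‖γ • (0 : ℂ)‖ := by
    intro γ hγ
    have h1 := (hS γ hγ).2
    have h2 : (1 / 2 : ℝ) ^ n ≤ (1 / 2) ^ n₀ := pow_le_pow_of_le_one (by norm_num) (by norm_num) hn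
    have h3 : r ^ 2 < ‖γ • (0 : ℂ)‖ ^ 2 := by linarith only [h1, h2, hn₀]
    exact lt_of_pow_lt_pow_left₀ 2 (norm_nonneg _) h3
  have hdir : ∀ γ : Γ, r < ‖γ • (0 : ℂ)‖ → ∃ u ∈ F, ‖γ • (0 : ℂ) - u‖ < ε := by
    intro γ hγ
    have h1 : γ • (0 : ℂ) ∈ V := hr _ (subset_closure ⟨γ, rfl⟩) hγ
    rw [hV, Set.mem_iUnion₂] at h1
    obtain ⟨u, hu, hu2⟩ := h1
    exact ⟨u, (hFm u).2 hu, by rw [← dist_eq_norm]; exact hu2⟩
  obtain ⟨x₀, hx₀⟩ := hFne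
  have hdir' : ∀ γ : Γ, ∃ u ∈ F, r < ‖γ • (0 : ℂ)‖ → ‖γ • (0 : ℂ) - u‖ < ε := by
    intro γ
    by_cases hγ : r < ‖γ • (0 : ℂ)‖
    · obtain ⟨u, hu, hu2⟩ := hdir γ hγ
      exact ⟨u, hu, fun _ => hu2⟩
    · exact ⟨x₀, hx₀, fun h' => absurd h' hγ⟩
  choose c hcF hc using hdir'
  have hcard : 0 < ((F ×ˢ F).card : ℝ) := by
    rw [Finset.card_product]
    have : 0 < F.card := Finset.card_pos.2 ⟨x₀, hx₀⟩
    exact_mod_cast Nat.mul_pos this this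
  obtain ⟨⟨u, v⟩, huv, hle⟩ := Finset.exists_le_card_fiber_of_nsmul_le_card_of_maps_to (s := S) (t := F ×ˢ F)
    (f := fun γ => (c γ, c γ⁻¹)) (b := (S.card : ℝ) / F.card ^ 2)
    (fun γ _ => Finset.mem_product.2 ⟨hcF γ, hcF γ⁻¹⟩) ⟨(x₀, x₀), Finset.mem_product.2 ⟨hx₀, hx₀⟩⟩
    (by
      rw [nsmul_eq_mul]
      have h1 : ((F ×ˢ F).card : ℝ) = (F.card : ℝ) ^ 2 := by
        rw [Finset.card_product]
        push_cast
        ring
      rw [h1] at hcard ⊢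
      rw [mul_div_cancel₀ _ hcard.ne'])
  rw [Finset.mem_product] at huv
  refine ⟨u, huv.1, v, huv.2, S.filter fun γ => (c γ, c γ⁻¹) = (u, v), Finset.filter_subset _ _, hle, ?_⟩
  intro γ hγ
  rw [Finset.mem_filter, Prod.mk.injEq] at hγ
  obtain ⟨hγS, h1, h2⟩ := hγ
  have h3 := hnorm γ hγS
  refine ⟨?_, ?_⟩
  · rw [← h1]
    exact hc γ h3
  · rw [← h2]
    exact hc γ⁻¹ (by rw [h.norm_inv]; exact h3)

end Pool.Agent.DD
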