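import Pool.Agent.Lib_MP_644907_full.Crit1

/-!
# Piece BJ1A: many group elements with prescribed directions in one shell
-/

set_option autoImplicit false

namespace Pool.Agent.DD

open MeasureTheory Filter Topology Metric

variable {Γ : Type} [Group Γ] [MulAction Γ ℂ]

private theorem bj1a_half_rpow (n : ℕ) (t : ℝ) : ((1 / 2 : ℝ) ^ n) ^ t = (2 : ℝ) ^ (-(n * t)) := by
  rw [one_div, inv_pow, Real.inv_rpow (by positivity), ← Real.rpow_natCast 2 n, ← Real.rpow_mul (by norm_num),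
    Real.rpow_neg (by norm_num)]

private theorem bj1a_bound (t x : ℝ) (n : ℕ) (h1 : (1 / 2 : ℝ) ^ (n + 1) < x) (h2 : x ≤ (1 / 2) ^ n) :
    x ^ t ≤ max 1 ((2 : ℝ) ^ (-t)) * (2 : ℝ) ^ (-(n * t)) := by
  have hx : 0 < x := lt_trans (by positivity) h1
  rcases le_total 0 t with ht | ht
  · calc x ^ t ≤ ((1 / 2 : ℝ) ^ n) ^ t := Real.rpow_le_rpow hx.le h2 ht
      _ = 1 * (2 : ℝ) ^ (-(n * t)) := by rw [bj1a_half_rpow, one_mul]
      _ ≤ _ := by gcongr; exact le_max_left _ _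
  · calc x ^ t ≤ ((1 / 2 : ℝ) ^ (n + 1)) ^ t := Real.rpow_le_rpow_of_nonpos (by positivity) h1.le ht
      _ = (2 : ℝ) ^ (-t) * (2 : ℝ) ^ (-(n * t)) := by
          rw [bj1a_half_rpow, ← Real.rpow_add (by norm_num)]; congr 1; push_cast; ring
      _ ≤ _ := by gcongr; exact le_max_right _ _

/-- If for some `M` all shells `{γ | δ_n / 2 < 1 - |γ 0|² ≤ δ_n}`, `δ_n = 2^(-n)`, `n ≥ n₀`, had at most `M δ_n^(-t')` elements then the series of exponent `t > t'` would converge. -/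
theorem big_shell (h : Fuchs Γ) (t t' : ℝ) (htt : t' < t) (hc : ¬ Conv Γ t) (M : ℝ) (n₀ : ℕ) : ∃ (n : ℕ) (S : Finset Γ), n₀ ≤ n ∧
    (∀ γ ∈ S, (1 / 2 : ℝ) ^ (n + 1) < 1 - ‖γ • (0 : ℂ)‖ ^ 2 ∧ 1 - ‖γ • (0 : ℂ)‖ ^ 2 ≤ (1 / 2) ^ n) ∧ M * (2 : ℝ) ^ (n * t') ≤ S.card := by
  classical
  by_contra hcon
  push Not at hcon
  apply hc
  have hM : 0 < M := by
    have := hcon n₀ ∅ le_rfl (by simp)
    simp only [Finset.card_empty, Nat.cast_zero] at this
    exact pos_of_mul_pos_left this (by positivity)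
  have hu : ∀ γ : Γ, 0 < 1 - ‖γ • (0 : ℂ)‖ ^ 2 := fun γ => by
    have h1 := h.norm0 γ
    have h2 := norm_nonneg (γ • (0 : ℂ))
    nlinarith
  have hu1 : ∀ γ : Γ, 1 - ‖γ • (0 : ℂ)‖ ^ 2 ≤ 1 := fun γ => by
    have := sq_nonneg ‖γ • (0 : ℂ)‖
    linarith
  choose ℓ hℓ1 hℓ2 using fun γ : Γ =>
    exists_nat_pow_near_of_lt_one (hu γ) (hu1 γ) (by norm_num : (0 : ℝ) < 1 / 2) (by norm_num)
  set C : ℝ := max 1 ((2 : ℝ) ^ (-t)) with hC
  have hC0 : 0 < C := lt_of_lt_of_le one_pos (le_max_left _ _)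
  have hlow : {γ : Γ | ℓ γ < n₀}.Finite := by
    have hr : √(1 - (1 / 2 : ℝ) ^ n₀) < 1 := by
      rw [Real.sqrt_lt' one_pos]
      have : (0 : ℝ) < (1 / 2) ^ n₀ := by positivity
      linarith
    refine (h.disc _ hr).subset fun γ hγ => ?_
    apply Real.le_sqrt_of_sq_le
    have h1 := hℓ1 γ
    have h2 : (1 / 2 : ℝ) ^ n₀ ≤ (1 / 2) ^ (ℓ γ + 1) :=
      pow_le_pow_of_le_one (by norm_num) (by norm_num) (Nat.succ_le_of_lt hγ)
    linarith
  set q : ℝ := (2 : ℝ) ^ (t' - t) with hq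
  have hq0 : 0 < q := by positivity
  have hq1 : q < 1 := Real.rpow_lt_one_of_one_lt_of_neg (by norm_num) (by linarith)
  have hgs : Summable fun n : ℕ => M * C * q ^ n := (summable_geometric_of_lt_one hq0.le hq1).mul_left _
  have hf0 : ∀ γ : Γ, 0 ≤ (1 - ‖γ • (0 : ℂ)‖ ^ 2) ^ t := fun γ => Real.rpow_nonneg (hu γ).le _
  refine summable_of_sum_le (c := (∑ γ ∈ hlow.toFinset, (1 - ‖γ • (0 : ℂ)‖ ^ 2) ^ t) + ∑' n : ℕ, M * C * q ^ n)
    hf0 fun u => ?_
  rw [← Finset.sum_filter_add_sum_filter_not u (fun γ => ℓ γ < n₀)]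
  refine add_le_add ?_ ?_
  · refine Finset.sum_le_sum_of_subset_of_nonneg (fun γ hγ => ?_) fun γ _ _ => hf0 γ
    simp only [Finset.mem_filter] at hγ
    simpa using hγ.2
  · set v := u.filter fun γ => ¬ ℓ γ < n₀ with hv
    rw [← Finset.sum_fiberwise_of_maps_to (s := v) (t := v.image ℓ) (g := ℓ)
      (fun x hx => Finset.mem_image_of_mem _ hx)]
    refine le_trans (Finset.sum_le_sum (g := fun n => M * C * q ^ n) fun n hn => ?_)
      (hgs.sum_le_tsum _ fun n _ => by positivity)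
    obtain ⟨γ₀, hγ₀, rfl⟩ := Finset.mem_image.1 hn
    have hn0 : n₀ ≤ ℓ γ₀ := by
      rw [hv, Finset.mem_filter] at hγ₀
      exact not_lt.1 hγ₀.2
    set n := ℓ γ₀
    have hcard := hcon n (v.filter fun x => ℓ x = n) hn0 (fun γ hγ => by
      have h2 := (Finset.mem_filter.1 hγ).2
      rw [← h2]
      exact ⟨hℓ1 γ, hℓ2 γ⟩)
    calc ∑ x ∈ v.filter (fun x => ℓ x = n), (1 - ‖x • (0 : ℂ)‖ ^ 2) ^ t
        ≤ ∑ x ∈ v.filter (fun x => ℓ x = n), C * (2 : ℝ) ^ (-(n * t)) := by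
          refine Finset.sum_le_sum fun x hx => ?_
          have h2 := (Finset.mem_filter.1 hx).2
          rw [← h2]
          exact bj1a_bound t _ _ (hℓ1 x) (hℓ2 x)
      _ = (v.filter (fun x => ℓ x = n)).card * (C * (2 : ℝ) ^ (-(n * t))) := by
          rw [Finset.sum_const, nsmul_eq_mul]
      _ ≤ (M * (2 : ℝ) ^ (n * t')) * (C * (2 : ℝ) ^ (-(n * t))) := by
          have : (0 : ℝ) ≤ C * (2 : ℝ) ^ (-(n * t)) := by positivity
          exact mul_le_mul_of_nonneg_right hcard.le this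
      _ = M * C * ((2 : ℝ) ^ (n * t') * (2 : ℝ) ^ (-(n * t))) := by ring
      _ = M * C * q ^ n := by
          rw [← Real.rpow_add (by norm_num), hq, ← Real.rpow_mul_natCast (by norm_num)]
          congr 2
          ring

end Pool.Agent.DD
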