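import Pool.Agent.Lib_MP_644907_full.Count0

/-!
# Piece BJ1B: many group elements with prescribed directions in one shell
-/

set_option autoImplicit false

namespace Pool.Agent.DD

open MeasureTheory Filter Topology Metric

variable {Γ : Type} [Group Γ] [MulAction Γ ℂ]

private theorem bj1b_qd (A : ℝ) (hA : 0 < A) (n : ℕ) (z w : ℂ)
    (hz1 : (1 / 2 : ℝ) ^ (n + 1) < 1 - ‖z‖ ^ 2) (hz2 : 1 - ‖z‖ ^ 2 ≤ (1 / 2) ^ n)
    (hw1 : (1 / 2 : ℝ) ^ (n + 1) < 1 - ‖w‖ ^ 2)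
    (hzw : ‖z - w‖ < A * (1 / 2) ^ n) : qd z w ≤ 4 * (A + 1) ^ 2 := by
  have hp : (0 : ℝ) < (1 / 2) ^ n := by positivity
  have hp1 : (1 / 2 : ℝ) ^ (n + 1) = (1 / 2) ^ n / 2 := by rw [pow_succ]; ring
  set δ : ℝ := (1 / 2) ^ n
  rw [hp1] at hz1 hw1
  have hz : ‖z‖ ≤ 1 := by
    have := norm_nonneg z
    by_contra hcon
    push Not at hcon
    nlinarith
  have e1 : ‖1 - starRingEnd ℂ z * w‖ ≤ (A + 1) * δ := by
    have : 1 - starRingEnd ℂ z * w = ((1 - ‖z‖ ^ 2 : ℝ) : ℂ) + starRingEnd ℂ z * (z - w) := by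
      have h2 : starRingEnd ℂ z * z = ((‖z‖ ^ 2 : ℝ) : ℂ) := by
        rw [mul_comm, Complex.mul_conj, Complex.normSq_eq_norm_sq]
      push_cast at h2 ⊢
      rw [mul_sub, h2]; ring
    rw [this]
    refine le_trans (norm_add_le _ _) ?_
    rw [Complex.norm_real, norm_mul, RCLike.norm_conj, Real.norm_eq_abs, abs_of_nonneg (by linarith)]
    have := mul_le_mul hz hzw.le (norm_nonneg _) zero_le_one
    nlinarith
  rw [qd, div_le_iff₀ (mul_pos (by linarith) (by linarith))]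
  have e2 : ‖1 - starRingEnd ℂ z * w‖ ^ 2 ≤ ((A + 1) * δ) ^ 2 :=
    pow_le_pow_left₀ (norm_nonneg _) e1 2
  have e3 : (δ / 2) * (δ / 2) ≤ (1 - ‖z‖ ^ 2) * (1 - ‖w‖ ^ 2) :=
    mul_le_mul hz1.le hw1.le (by positivity) (by linarith)
  calc ‖1 - starRingEnd ℂ z * w‖ ^ 2 ≤ ((A + 1) * δ) ^ 2 := e2
    _ = 4 * (A + 1) ^ 2 * ((δ / 2) * (δ / 2)) := by ring
    _ ≤ _ := by gcongr

/-- separated subset: `γ ∈ S` conflicts with the `γ'` with `|γ 0 - γ' 0| < A 2^(-n)`; in the shell `qd (γ 0) (γ' 0) ≤ (A + 1)² 4`, so at most `N` (independent of `n`, `count_loc`) elements conflict with a given one; a maximal subset without conflicts has at least `#S / N` elements -/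
theorem separate (h : Fuchs Γ) (A : ℝ) (hA : 0 < A) : ∃ N : ℕ, 0 < N ∧ ∀ (n : ℕ) (S : Finset Γ),
    (∀ γ ∈ S, (1 / 2 : ℝ) ^ (n + 1) < 1 - ‖γ • (0 : ℂ)‖ ^ 2 ∧ 1 - ‖γ • (0 : ℂ)‖ ^ 2 ≤ (1 / 2) ^ n) →
    ∃ S' ⊆ S, (S.card : ℝ) / N ≤ S'.card ∧ ∀ γ ∈ S', ∀ γ' ∈ S', γ ≠ γ' → A * (1 / 2) ^ n ≤ ‖γ • (0 : ℂ) - γ' • (0 : ℂ)‖ := by
  classical
  obtain ⟨N, hN⟩ := count_loc h (4 * (A + 1) ^ 2)
  refine ⟨N + 1, Nat.succ_pos _, fun n S hS => ?_⟩
  set P := S.powerset.filter fun T => ∀ γ ∈ T, ∀ γ' ∈ T, γ ≠ γ' → A * (1 / 2) ^ n ≤ ‖γ • (0 : ℂ) - γ' • (0 : ℂ)‖ with hP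
  obtain ⟨S', hS'P, hmax⟩ := Finset.exists_max_image P Finset.card ⟨∅, by simp [hP]⟩
  rw [hP, Finset.mem_filter, Finset.mem_powerset] at hS'P
  refine ⟨S', hS'P.1, ?_, hS'P.2⟩
  have hcov : S ⊆ S'.biUnion fun γ' => S.filter fun γ => ‖γ' • (0 : ℂ) - γ • (0 : ℂ)‖ < A * (1 / 2) ^ n := by
    intro γ hγ
    rw [Finset.mem_biUnion]
    by_contra hcon
    push Not at hcon
    have hsep : ∀ γ' ∈ S', A * (1 / 2) ^ n ≤ ‖γ' • (0 : ℂ) - γ • (0 : ℂ)‖ := by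
      intro γ' hγ'
      have := hcon γ' hγ'
      rw [Finset.mem_filter] at this
      push Not at this
      exact this hγ
    have hγS' : γ ∉ S' := by
      intro hmem
      have := hsep γ hmem
      rw [sub_self, norm_zero] at this
      have : 0 < A * (1 / 2 : ℝ) ^ n := by positivity
      linarith
    have hins : insert γ S' ∈ P := by
      rw [hP, Finset.mem_filter, Finset.mem_powerset]
      refine ⟨Finset.insert_subset hγ hS'P.1, ?_⟩
      intro a ha b hb hab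
      rcases Finset.mem_insert.1 ha with rfl | ha'
      · rcases Finset.mem_insert.1 hb with rfl | hb'
        · exact absurd rfl hab
        · rw [norm_sub_rev]; exact hsep b hb'
      · rcases Finset.mem_insert.1 hb with rfl | hb'
        · exact hsep a ha'
        · exact hS'P.2 a ha' b hb' hab
    have := hmax _ hins
    rw [Finset.card_insert_of_notMem hγS'] at this
    omega
  have hcard : S.card ≤ S'.card * (N + 1) := by
    refine le_trans (Finset.card_le_card hcov) (Finset.card_biUnion_le_card_mul _ _ _ fun γ' hγ' => ?_)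
    have hγ'S := hS'P.1 hγ'
    refine le_trans (hN (γ' • (0 : ℂ)) _ (h.norm0 γ') fun γ hγ => ?_) (Nat.le_succ _)
    obtain ⟨h1, h2⟩ := Finset.mem_filter.1 hγ
    exact bj1b_qd A hA n _ _ (hS _ hγ'S).1 (hS _ hγ'S).2 (hS _ h1).1 h2
  rw [div_le_iff₀ (by positivity)]
  exact_mod_cast hcard

end Pool.Agent.DD
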