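import Pool.Agent.Lib_MP_644907_full.Pairs

/-!
# Piece BJ2A: contractions of a piece of the limit set made from a group element with prescribed directions
-/

set_option autoImplicit false

namespace Pool.Agent.DD

open MeasureTheory Filter Topology Metric

variable {Γ : Type} [Group Γ] [MulAction Γ ℂ]

/-- a lower bound for `1 - |α γ β 0|²` -/
private theorem bj_one_sub (h : Fuchs Γ) (α γ β : Γ) :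
    (1 - ‖α • (0 : ℂ)‖ ^ 2) * (1 - ‖β • (0 : ℂ)‖ ^ 2) * (1 - ‖γ • (0 : ℂ)‖ ^ 2) ≤ 16 * (1 - ‖(α * γ * β) • (0 : ℂ)‖ ^ 2) := by
  have hβ : ‖β • (0 : ℂ)‖ < 1 := h.norm0 β
  have hα : ‖α • (0 : ℂ)‖ < 1 := h.norm0 α
  have hγ : ‖γ • (0 : ℂ)‖ < 1 := h.norm0 γ
  have hα' : ‖α⁻¹ • (0 : ℂ)‖ < 1 := h.norm0 α⁻¹
  have hβ2 : 0 < 1 - ‖β • (0 : ℂ)‖ ^ 2 := by nlinarith [norm_nonneg (β • (0 : ℂ))]
  have hα2 : 0 < 1 - ‖α • (0 : ℂ)‖ ^ 2 := by nlinarith [norm_nonneg (α • (0 : ℂ))]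
  -- the point `γ β 0`
  have hw : ‖γ • β • (0 : ℂ)‖ < 1 := h.norm_lt γ hβ
  have h1 := one_sub_le hγ hw
  have h2 : qd (γ • (0 : ℂ)) (γ • β • (0 : ℂ)) = (1 - ‖β • (0 : ℂ)‖ ^ 2)⁻¹ := by
    rw [h.qd_smul γ (by simp) hβ, qd_zero]
  rw [h2] at h1
  have h3 : (1 - ‖β • (0 : ℂ)‖ ^ 2) * (1 - ‖γ • (0 : ℂ)‖ ^ 2) ≤ 4 * (1 - ‖γ • β • (0 : ℂ)‖ ^ 2) := by
    have := mul_le_mul_of_nonneg_left h1 hβ2.le
    calc (1 - ‖β • (0 : ℂ)‖ ^ 2) * (1 - ‖γ • (0 : ℂ)‖ ^ 2)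
        ≤ (1 - ‖β • (0 : ℂ)‖ ^ 2) * (4 * (1 - ‖β • (0 : ℂ)‖ ^ 2)⁻¹ * (1 - ‖γ • β • (0 : ℂ)‖ ^ 2)) := this
      _ = 4 * (1 - ‖γ • β • (0 : ℂ)‖ ^ 2) * ((1 - ‖β • (0 : ℂ)‖ ^ 2) * (1 - ‖β • (0 : ℂ)‖ ^ 2)⁻¹) := by ring
      _ = 4 * (1 - ‖γ • β • (0 : ℂ)‖ ^ 2) := by rw [mul_inv_cancel₀ hβ2.ne', mul_one]
  -- the point `α γ β 0`
  have h4 := h.one_sub_smul α hw.le
  have h5 : ‖1 - starRingEnd ℂ (α⁻¹ • (0 : ℂ)) * (γ • β • (0 : ℂ))‖ ≤ 2 := by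
    calc ‖1 - starRingEnd ℂ (α⁻¹ • (0 : ℂ)) * (γ • β • (0 : ℂ))‖
        ≤ ‖(1 : ℂ)‖ + ‖starRingEnd ℂ (α⁻¹ • (0 : ℂ)) * (γ • β • (0 : ℂ))‖ := norm_sub_le _ _
      _ ≤ 1 + 1 := by
          rw [norm_one, norm_mul, Complex.norm_conj]
          have := mul_le_mul hα'.le hw.le (norm_nonneg _) zero_le_one
          linarith
      _ = 2 := by norm_num
  have h6 : ‖1 - starRingEnd ℂ (α⁻¹ • (0 : ℂ)) * (γ • β • (0 : ℂ))‖ ^ 2 ≤ 4 := by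
    nlinarith [norm_nonneg (1 - starRingEnd ℂ (α⁻¹ • (0 : ℂ)) * (γ • β • (0 : ℂ)))]
  have h7 : ‖α • γ • β • (0 : ℂ)‖ < 1 := h.norm_lt α hw
  have h8 : 0 < 1 - ‖α • γ • β • (0 : ℂ)‖ ^ 2 := by nlinarith [norm_nonneg (α • γ • β • (0 : ℂ))]
  have h9 : (1 - ‖α • (0 : ℂ)‖ ^ 2) * (1 - ‖γ • β • (0 : ℂ)‖ ^ 2) ≤ 4 * (1 - ‖α • γ • β • (0 : ℂ)‖ ^ 2) := by
    rw [← h4]
    nlinarith
  have h10 : (α * γ * β) • (0 : ℂ) = α • γ • β • (0 : ℂ) := by rw [mul_smul, mul_smul]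
  rw [h10]
  have h11 := mul_le_mul_of_nonneg_left h3 hα2.le
  nlinarith

/-- Choose three points of `Lim Γ` and `ε` such that their mutual distances are `> 10 ε` (so for every point `p` there is a point of `Lim Γ` at distance `> 4 ε` of `p`), `ε < 1/4`, `j₀ ∈ Lim Γ` arbitrary. Given `u, v`:
`α` with `α (ball u (3 ε)) ⊆ ball j₀ ε` (closed disk points): take `b₂ ∈ Lim Γ` with `|b₂ - u| > 4 ε` and `dynamics` with `(a, b) := (j₀, b₂)` and `ε`; `β`: take `a₃ ∈ Lim Γ`, `|a₃ - v| > 4 ε`, `b₃ ∈ Lim Γ`, `|b₃ - j₀| > 3 ε`, `dynamics` with `(a₃, b₃)` and `ε`: the points of `X` (at distance `≥ ε` from `b₃`) go into `ball a₃ ε`.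
For `γ` as in the statement, `z, w ∈ X`: `|β z - γ⁻¹ 0| ≥ ε`, `|0 - γ⁻¹ 0| ≥ ε` for `n` large, so `|γ β z - γ 0| ≤ 2 · 2^(-n) / ε` (`Fuchs.contract`), so `γ β z ∈ ball u (2 ε)` for `n` large and `α γ β z ∈ ball j₀ ε ∩ Lim Γ` (`Fuchs.lim_inv`).
Expansion: for `g = α γ β`, `|g z - g w|² = pk (g⁻¹ 0) z * pk (g⁻¹ 0) w * |z - w|²` (`Fuchs.two_pt`) and `pk (g⁻¹ 0) z ≥ (1 - |g⁻¹ 0|²) / 4 = (1 - |g 0|²) / 4` (`le_pk`, `Fuchs.norm_inv`), and `1 - |α γ β 0|² ≥ c (1 - |γ 0|²)`: `one_sub_le`, `qd (γ 0) (γ β 0) = qd 0 (β 0)`, and `1 - |α w|² ≥ c (1 - |w|²)`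
(`Fuchs.one_sub_smul`, `|1 - conj a w| ≤ 2`). -/
theorem bj_maps (h : Fuchs Γ) (hL : (Lim Γ).Infinite) : ∃ (j₀ : ℂ) (ε : ℝ), j₀ ∈ Lim Γ ∧ 0 < ε ∧ ∀ u ∈ Lim Γ, ∀ v ∈ Lim Γ,
    ∃ (α β : Γ) (c A : ℝ) (n₁ : ℕ), 0 < c ∧ 0 < A ∧ ∀ (n : ℕ) (γ : Γ), n₁ ≤ n → (1 / 2 : ℝ) ^ (n + 1) < 1 - ‖γ • (0 : ℂ)‖ ^ 2 → 1 - ‖γ • (0 : ℂ)‖ ^ 2 ≤ (1 / 2) ^ n →
      ‖γ • (0 : ℂ) - u‖ < ε → ‖γ⁻¹ • (0 : ℂ) - v‖ < ε →
      (∀ z ∈ Lim Γ ∩ closedBall j₀ ε, (α * γ * β) • z ∈ Lim Γ ∩ closedBall j₀ ε) ∧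
      (∀ z ∈ Lim Γ ∩ closedBall j₀ ε, ‖(γ * β) • z - γ • (0 : ℂ)‖ ≤ A * (1 / 2) ^ n) ∧
      (∀ z ∈ Lim Γ ∩ closedBall j₀ ε, ∀ w ∈ Lim Γ ∩ closedBall j₀ ε, c * (1 / 2) ^ n * ‖z - w‖ ≤ ‖(α * γ * β) • z - (α * γ * β) • w‖) := by
  obtain ⟨p, hp, q, hq, hpq⟩ := hL.nontrivial
  have hd : 0 < ‖p - q‖ := norm_pos_iff.mpr (sub_ne_zero.mpr hpq)
  obtain ⟨ε, hε0, hε1, hε2⟩ : ∃ ε : ℝ, 0 < ε ∧ 10 * ε ≤ ‖p - q‖ ∧ ε ≤ 1 / 4 :=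
    ⟨min (‖p - q‖ / 10) (1 / 4), by positivity, by linarith [min_le_left (‖p - q‖ / 10) (1 / 4)], min_le_right _ _⟩
  -- far points
  have far : ∀ x : ℂ, ∃ b ∈ Lim Γ, 4 * ε < ‖b - x‖ := by
    intro x
    by_contra hcon
    push Not at hcon
    have h1 := hcon p hp
    have h2 := hcon q hq
    have h3 : ‖p - q‖ ≤ ‖p - x‖ + ‖q - x‖ := by
      have := norm_sub_le (p - x) (q - x)
      rwa [sub_sub_sub_cancel_right] at this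
    linarith
  refine ⟨p, ε, hp, hε0, ?_⟩
  intro u hu v hv
  obtain ⟨b₂, hb₂, hb₂u⟩ := far u
  obtain ⟨a₃, ha₃, ha₃v⟩ := far v
  obtain ⟨b₃, hb₃, hb₃p⟩ := far p
  obtain ⟨α, -, -, hα, -⟩ := dynamics h hL p b₂ hp hb₂ ε hε0
  obtain ⟨β, -, -, hβ, -⟩ := dynamics h hL a₃ b₃ ha₃ hb₃ ε hε0
  have hα0 : 0 < 1 - ‖α • (0 : ℂ)‖ ^ 2 := by nlinarith [norm_nonneg (α • (0 : ℂ)), h.norm0 α]
  have hβ0 : 0 < 1 - ‖β • (0 : ℂ)‖ ^ 2 := by nlinarith [norm_nonneg (β • (0 : ℂ)), h.norm0 β]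
  obtain ⟨n₂, hn₂⟩ := exists_pow_lt_of_lt_one (show 0 < ε ^ 2 by positivity) (show (1 / 2 : ℝ) < 1 by norm_num)
  refine ⟨α, β, (1 - ‖α • (0 : ℂ)‖ ^ 2) * (1 - ‖β • (0 : ℂ)‖ ^ 2) / 128, 2 / ε, max 2 n₂, by positivity, by positivity, ?_⟩
  intro n γ hn hlo hhi hγu hγv
  have hn2 : 2 ≤ n := le_trans (le_max_left _ _) hn
  have hnn : n₂ ≤ n := le_trans (le_max_right _ _) hn
  have hpn : 0 < (1 / 2 : ℝ) ^ n := by positivity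
  have hpow4 : (1 / 2 : ℝ) ^ n ≤ 1 / 4 := by
    calc (1 / 2 : ℝ) ^ n ≤ (1 / 2) ^ 2 := pow_le_pow_of_le_one (by norm_num) (by norm_num) hn2
      _ = 1 / 4 := by norm_num
  have hpowε : (1 / 2 : ℝ) ^ n ≤ ε ^ 2 := le_trans (pow_le_pow_of_le_one (by norm_num) (by norm_num) hnn) hn₂.le
  have hγ0 : 1 / 2 ≤ ‖γ • (0 : ℂ)‖ := by
    by_contra hcon
    push Not at hcon
    nlinarith [norm_nonneg (γ • (0 : ℂ))]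
  have hγi : ‖γ⁻¹ • (0 : ℂ)‖ = ‖γ • (0 : ℂ)‖ := h.norm_inv γ
  have hnorm : ∀ z ∈ Lim Γ ∩ closedBall p ε, ‖z‖ = 1 := by
    intro z hz
    have := hz.1.2
    simpa using this
  -- the points `β z`
  have hβz : ∀ z ∈ Lim Γ ∩ closedBall p ε, ‖β • z - a₃‖ < ε := by
    intro z hz
    apply hβ z (hnorm z hz).le
    have h1 : ‖z - p‖ ≤ ε := by
      have := hz.2
      rwa [mem_closedBall, dist_eq_norm] at this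
    have h2 : ‖b₃ - p‖ ≤ ‖z - b₃‖ + ‖z - p‖ := by
      have := norm_sub_le (z - p) (z - b₃)
      rw [sub_sub_sub_cancel_left] at this
      linarith
    linarith
  have key : ∀ z ∈ Lim Γ ∩ closedBall p ε, ‖(γ * β) • z - γ • (0 : ℂ)‖ ≤ 2 / ε * (1 / 2) ^ n := by
    intro z hz
    have h1 : ε ≤ ‖β • z - γ⁻¹ • (0 : ℂ)‖ := by
      have e1 := hβz z hz
      have e2 : ‖a₃ - v‖ ≤ ‖β • z - a₃‖ + ‖β • z - γ⁻¹ • (0 : ℂ)‖ + ‖γ⁻¹ • (0 : ℂ) - v‖ := by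
        have : a₃ - v = -(β • z - a₃) + (β • z - γ⁻¹ • (0 : ℂ)) + (γ⁻¹ • (0 : ℂ) - v) := by ring
        calc ‖a₃ - v‖ = ‖-(β • z - a₃) + (β • z - γ⁻¹ • (0 : ℂ)) + (γ⁻¹ • (0 : ℂ) - v)‖ := by rw [← this]
          _ ≤ ‖-(β • z - a₃)‖ + ‖β • z - γ⁻¹ • (0 : ℂ)‖ + ‖γ⁻¹ • (0 : ℂ) - v‖ := norm_add₃_le
          _ = _ := by rw [norm_neg]
      linarith
    have h2 : ε ≤ ‖(0 : ℂ) - γ⁻¹ • (0 : ℂ)‖ := by
      rw [zero_sub, norm_neg, hγi]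
      linarith
    have h3 := h.contract γ (h.norm_le β (hnorm z hz).le) (by simp) hε0 h1 h2
    rw [mul_smul]
    calc ‖γ • β • z - γ • (0 : ℂ)‖ ≤ 2 * (1 - ‖γ • (0 : ℂ)‖ ^ 2) / ε := h3
      _ ≤ 2 * (1 / 2) ^ n / ε := by gcongr
      _ = 2 / ε * (1 / 2) ^ n := by ring
  refine ⟨?_, key, ?_⟩
  · intro z hz
    have h1 : ‖(γ * β) • z - u‖ ≤ 3 * ε := by
      have e1 := key z hz
      have e2 : 2 / ε * (1 / 2) ^ n ≤ 2 * ε := by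
        calc 2 / ε * (1 / 2) ^ n ≤ 2 / ε * ε ^ 2 := by gcongr
          _ = 2 * ε := by field_simp
      have e3 : ‖(γ * β) • z - u‖ ≤ ‖(γ * β) • z - γ • (0 : ℂ)‖ + ‖γ • (0 : ℂ) - u‖ := norm_sub_le_norm_sub_add_norm_sub _ _ _
      linarith
    have h2 : ε ≤ ‖(γ * β) • z - b₂‖ := by
      have e3 : ‖b₂ - u‖ ≤ ‖(γ * β) • z - b₂‖ + ‖(γ * β) • z - u‖ := by
        have := norm_sub_le ((γ * β) • z - u) ((γ * β) • z - b₂)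
        rw [sub_sub_sub_cancel_left] at this
        linarith
      linarith
    have h3 := hα ((γ * β) • z) (h.norm_le _ (hnorm z hz).le) h2
    constructor
    · exact (h.lim_inv _).2 hz.1
    · rw [mem_closedBall, dist_eq_norm, mul_assoc, mul_smul]
      exact h3.le
  · intro z hz w hw
    have hg0 : ‖(α * γ * β)⁻¹ • (0 : ℂ)‖ < 1 := h.norm0 _
    have e1 := le_pk hg0 (hnorm z hz)
    have e2 := le_pk hg0 (hnorm w hw)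
    have e3 := h.two_pt (α * γ * β) (hnorm z hz) (hnorm w hw)
    have e4 := bj_one_sub h α γ β
    rw [h.norm_inv] at e1 e2
    set P : ℝ := (1 - ‖α • (0 : ℂ)‖ ^ 2) * (1 - ‖β • (0 : ℂ)‖ ^ 2) with hP
    have hPpos : 0 < P := mul_pos hα0 hβ0
    have e5 : P / 128 * (1 / 2) ^ n ≤ (1 - ‖(α * γ * β) • (0 : ℂ)‖ ^ 2) / 4 := by
      have f1 : P * (1 / 2) ^ (n + 1) ≤ 16 * (1 - ‖(α * γ * β) • (0 : ℂ)‖ ^ 2) :=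
        le_trans (mul_le_mul_of_nonneg_left hlo.le hPpos.le) e4
      rw [pow_succ] at f1
      linarith
    have e6 : 0 < P / 128 * (1 / 2) ^ n := by positivity
    have e7 : (P / 128 * (1 / 2) ^ n) ^ 2 * ‖z - w‖ ^ 2 ≤ ‖(α * γ * β) • z - (α * γ * β) • w‖ ^ 2 := by
      rw [e3]
      apply mul_le_mul_of_nonneg_right _ (by positivity)
      rw [sq]
      exact mul_le_mul (le_trans e5 e1) (le_trans e5 e2) e6.le (le_trans (le_trans e6.le e5) e1)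
    rw [← mul_pow] at e7
    exact (pow_le_pow_iff_left₀ (by positivity) (norm_nonneg _) two_ne_zero).1 e7

end Pool.Agent.DD
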