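import Mathlib

/-!
# Piece IFS: lower bound for the dimension of self similar sets
-/

set_option autoImplicit false

namespace Pool.Agent.DD

open Filter Topology Metric

/-- compositions along a word -/
def ifsF {N : ℕ} (f : Fin N → ℂ → ℂ) (a : ℕ → Fin N) : ℕ → ℂ → ℂ
  | 0 => id
  | k + 1 => ifsF f a k ∘ f (a k)

theorem ifsF_congr {N : ℕ} (f : Fin N → ℂ → ℂ) (a b : ℕ → Fin N) (k : ℕ) (h : ∀ j < k, a j = b j) :
    ifsF f a k = ifsF f b k := by
  induction k with
  | zero => rfl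
  | succ k ih =>
    show ifsF f a k ∘ f (a k) = ifsF f b k ∘ f (b k)
    rw [ih fun j hj => h j (Nat.lt_succ_of_lt hj), h k (Nat.lt_succ_self k)]

/-- For `x` in the limit set `K = ⋂_k ⋃_{|w| = k} f_w (X)` the digits `i_1 i_2 ...` are determined (`f_w X`, `|w| = k`, are pairwise disjoint by injectivity (`expand`) and `disj`). `π x = ∑_k i_k N^(-k) ∈ [0, 1]`. `π` maps `K` onto `[0, 1]`: for every digit sequence the compact sets `f_{i_1} ... f_{i_k} X` are decreasing and nonempty. Let `g₀ > 0` be the minimal distance between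
`f_i X` and `f_j X`, `i ≠ j` (compact, disjoint). If `x ≠ y ∈ K` have the same first `k` digits and different `(k+1)`st digits then `|x - y| ≥ r^k g₀` (`expand` `k` times) and `|π x - π y| ≤ N^(-k) ≤ r^(k t) ≤ (|x - y| / g₀)^t`. So `π` is Hölder with exponent `t` on `K`, `1 = dimH [0, 1] ≤ dimH K / t` (`HolderOnWith.dimH_image_le`). -/
theorem ifs_dim (X : Set ℂ) (hX : IsCompact X) (hne : X.Nonempty) (N : ℕ) (hN : 2 ≤ N) (f : Fin N → ℂ → ℂ) (hc : ∀ i, ContinuousOn (f i) X)
    (hm : ∀ i, Set.MapsTo (f i) X X) (disj : ∀ i j, i ≠ j → Disjoint (f i '' X) (f j '' X)) (r t : ℝ) (hr : 0 < r) (hr1 : r < 1) (ht : 0 < t)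
    (expand : ∀ i, ∀ z ∈ X, ∀ w ∈ X, r * ‖z - w‖ ≤ ‖f i z - f i w‖) (hrt : 1 ≤ N * r ^ t) : ENNReal.ofReal t ≤ dimH X := by
  classical
  have hN0 : 0 < N := by omega
  have : NeZero N := ⟨hN0.ne'⟩
  have hmaps : ∀ (a : ℕ → Fin N) (k : ℕ), Set.MapsTo (ifsF f a k) X X := by
    intro a k
    induction k with
    | zero => exact Set.mapsTo_id _
    | succ k ih => exact ih.comp (hm (a k))
  have hcont : ∀ (a : ℕ → Fin N) (k : ℕ), ContinuousOn (ifsF f a k) X := by
    intro a k
    induction k with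
    | zero => exact continuousOn_id
    | succ k ih => exact ih.comp (hc (a k)) (hm (a k))
  have hexp : ∀ (a : ℕ → Fin N) (k : ℕ), ∀ z ∈ X, ∀ w ∈ X, r ^ k * ‖z - w‖ ≤ ‖ifsF f a k z - ifsF f a k w‖ := by
    intro a k
    induction k with
    | zero => intro z _ w _; simp [ifsF]
    | succ k ih =>
      intro z hz w hw
      calc r ^ (k + 1) * ‖z - w‖ = r ^ k * (r * ‖z - w‖) := by ring
        _ ≤ r ^ k * ‖f (a k) z - f (a k) w‖ := mul_le_mul_of_nonneg_left (expand _ z hz w hw) (by positivity)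
        _ ≤ _ := ih _ (hm _ hz) _ (hm _ hw)
  -- the gap
  obtain ⟨g, hg, hgap⟩ : ∃ g : ℝ, 0 < g ∧ ∀ i j, i ≠ j → ∀ z ∈ X, ∀ w ∈ X, g ≤ ‖f i z - f j w‖ := by
    have h1 : ∀ p : Fin N × Fin N, ∃ δ : ℝ, 0 < δ ∧ (p.1 ≠ p.2 → ∀ z ∈ X, ∀ w ∈ X, δ ≤ ‖f p.1 z - f p.2 w‖) := by
      rintro ⟨i, j⟩
      by_cases hij : i = j
      · exact ⟨1, one_pos, fun h => absurd hij h⟩
      · obtain ⟨δ, hδ, hd⟩ := (disj i j hij).exists_thickenings (hX.image_of_continuousOn (hc i))
          (hX.image_of_continuousOn (hc j)).isClosed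
        refine ⟨δ, hδ, fun _ z hz w hw => ?_⟩
        by_contra hcon
        push Not at hcon
        have m1 : f i z ∈ thickening δ (f i '' X) := self_subset_thickening hδ _ ⟨z, hz, rfl⟩
        have m2 : f i z ∈ thickening δ (f j '' X) := by
          rw [mem_thickening_iff]
          exact ⟨f j w, ⟨w, hw, rfl⟩, by rw [dist_eq_norm]; exact hcon⟩
        exact Set.disjoint_left.1 hd m1 m2
    choose δ hδ hδ' using h1
    have : Nonempty (Fin N × Fin N) := ⟨(⟨0, hN0⟩, ⟨0, hN0⟩)⟩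
    obtain ⟨p, hp⟩ := Finite.exists_min δ
    exact ⟨δ p, hδ p, fun i j hij z hz w hw => (hp (i, j)).trans (hδ' (i, j) hij z hz w hw)⟩
  -- the points of the attractor
  have hpt : ∀ a : ℕ → Fin N, ∃ x : ℂ, ∀ k, x ∈ ifsF f a k '' X := by
    intro a
    have h1 := IsCompact.nonempty_iInter_of_sequence_nonempty_isCompact_isClosed (fun k => ifsF f a k '' X)
      (fun k => by
        rintro _ ⟨z, hz, rfl⟩
        exact ⟨f (a k) z, hm _ hz, rfl⟩)
      (fun k => hne.image _) (hX.image_of_continuousOn (hcont a 0))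
      (fun k => (hX.image_of_continuousOn (hcont a k)).isClosed)
    obtain ⟨x, hx⟩ := h1
    exact ⟨x, fun k => Set.mem_iInter.1 hx k⟩
  choose x hx using hpt
  have hfar : ∀ (a b : ℕ → Fin N) (k : ℕ), (∀ j < k, a j = b j) → a k ≠ b k → r ^ k * g ≤ ‖x a - x b‖ := by
    intro a b k hj hk
    obtain ⟨z, hz, hza⟩ := hx a (k + 1)
    obtain ⟨w, hw, hwb⟩ := hx b (k + 1)
    have e1 : x a = ifsF f a k (f (a k) z) := hza.symm
    have e2 : x b = ifsF f a k (f (b k) w) := by
      rw [ifsF_congr f a b k hj]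
      exact hwb.symm
    rw [e1, e2]
    calc r ^ k * g ≤ r ^ k * ‖f (a k) z - f (b k) w‖ := mul_le_mul_of_nonneg_left (hgap _ _ hk z hz w hw) (by positivity)
      _ ≤ _ := hexp a k _ (hm _ hz) _ (hm _ hw)
  have hfirst : ∀ a b : ℕ → Fin N, a ≠ b → ∃ k, (∀ j < k, a j = b j) ∧ a k ≠ b k := by
    intro a b hab
    have h1 : ∃ k, a k ≠ b k := Function.ne_iff.1 hab
    refine ⟨Nat.find h1, fun j hj => ?_, Nat.find_spec h1⟩
    have := Nat.find_min h1 hj
    push Not at this
    exact this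
  have hinj : Function.Injective x := by
    intro a b hab
    by_contra hne'
    obtain ⟨k, h1, h2⟩ := hfirst a b hne'
    have h3 := hfar a b k h1 h2
    rw [hab, sub_self, norm_zero] at h3
    have : 0 < r ^ k * g := by positivity
    linarith
  -- the coding map
  set π : ℂ → ℝ := fun z => Real.ofDigits (Function.invFun x z) with hπ
  have hπx : ∀ a, π (x a) = Real.ofDigits a := by
    intro a
    rw [hπ]
    simp only [Function.leftInverse_invFun hinj a]
  have hrt' : (1 : ℝ) / N ≤ r ^ t := by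
    rw [div_le_iff₀ (by exact_mod_cast hN0)]
    linarith [mul_comm (N : ℝ) (r ^ t)]
  have hhold : ∀ a b : ℕ → Fin N, |Real.ofDigits a - Real.ofDigits b| ≤ (1 / g) ^ t * ‖x a - x b‖ ^ t := by
    intro a b
    by_cases hab : a = b
    · subst hab
      simp only [sub_self, abs_zero, norm_zero]
      positivity
    · obtain ⟨k, h1, h2⟩ := hfirst a b hab
      have h3 := hfar a b k h1 h2
      have h4 : |Real.ofDigits a - Real.ofDigits b| ≤ ((N : ℝ)⁻¹) ^ k := by
        have := Real.abs_ofDigits_sub_ofDigits_le (x := a) (y := b) (n := k) (fun i hi => h1 i hi)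
        simpa [inv_pow] using this
      calc |Real.ofDigits a - Real.ofDigits b| ≤ ((N : ℝ)⁻¹) ^ k := h4
        _ ≤ (r ^ t) ^ k := by
            gcongr
            rw [← one_div]
            exact hrt'
        _ = (1 / g) ^ t * (r ^ k * g) ^ t := by
            rw [← Real.mul_rpow (by positivity) (by positivity), ← Real.rpow_natCast, ← Real.rpow_mul hr.le,
              mul_comm t, Real.rpow_mul hr.le, Real.rpow_natCast]
            congr 1
            field_simp
        _ ≤ (1 / g) ^ t * ‖x a - x b‖ ^ t := by gcongr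
  have hH : HolderOnWith (Real.toNNReal ((1 / g) ^ t)) (Real.toNNReal t) π (Set.range x) := by
    rintro _ ⟨a, rfl⟩ _ ⟨b, rfl⟩
    rw [hπx, hπx, edist_dist, edist_dist, Real.dist_eq, dist_eq_norm]
    rw [Real.coe_toNNReal _ ht.le, ENNReal.ofReal_rpow_of_nonneg (norm_nonneg _) ht.le]
    have h5 : ((Real.toNNReal ((1 / g) ^ t) : NNReal) : ENNReal) = ENNReal.ofReal ((1 / g) ^ t) := rfl
    rw [h5, ← ENNReal.ofReal_mul (by positivity)]
    exact ENNReal.ofReal_le_ofReal (hhold a b)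
  have hdim := hH.dimH_image_le (Real.toNNReal_pos.2 ht)
  have himg : Set.Ico (0 : ℝ) 1 ⊆ π '' Set.range x := by
    intro y hy
    refine ⟨x (Real.digits y N), ⟨_, rfl⟩, ?_⟩
    rw [hπx]
    exact Real.ofDigits_digits (by omega) hy
  have hone : (1 : ENNReal) ≤ dimH (π '' Set.range x) := by
    refine le_trans ?_ (dimH_mono himg)
    have h6 : (interior (Set.Ico (0 : ℝ) 1)).Nonempty := by
      rw [interior_Ico]
      exact ⟨1 / 2, by norm_num, by norm_num⟩
    rw [Real.dimH_of_nonempty_interior h6]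
    simp
  have hsub : Set.range x ⊆ X := by
    rintro _ ⟨a, rfl⟩
    obtain ⟨z, hz, hza⟩ := hx a 0
    rw [← hza]
    exact hz
  have h7 : (1 : ENNReal) ≤ dimH (Set.range x) / (Real.toNNReal t : NNReal) := hone.trans hdim
  have h8 : (Real.toNNReal t : ENNReal) ≠ 0 := by
    rw [ENNReal.coe_ne_zero]
    exact (Real.toNNReal_pos.2 ht).ne'
  have h9 : ENNReal.ofReal t ≤ dimH (Set.range x) := by
    rw [ENNReal.le_div_iff_mul_le (Or.inl h8) (Or.inl ENNReal.coe_ne_top), one_mul] at h7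
    exact h7
  exact h9.trans (dimH_mono hsub)

end Pool.Agent.DD
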