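import Pool.Agent.Lib_MP_644907_full.BJ1
import Pool.Agent.Lib_MP_644907_full.BJ1a
import Pool.Agent.Lib_MP_644907_full.BJ1b
import Pool.Agent.Lib_MP_644907_full.BJ2a
import Pool.Agent.Lib_MP_644907_full.Ifs

/-!
# Piece BJ2: the dimension of the limit set is at least the critical exponent
-/

set_option autoImplicit false

namespace Pool.Agent.DD

open MeasureTheory Filter Topology Metric

variable {Γ : Type} [Group Γ] [MulAction Γ ℂ]

/-- `j₀, ε` from `bj_maps`, `X = Lim Γ ∩ closedBall j₀ ε` (compact, contains `j₀`), `F, n₀` from `direct` for `ε`; for the finitely many pairs `(u, v) ∈ F²` let `α, β, c, A, n₁` be from `bj_maps` and take `c₀` = the smallest `c`, `A₀` = the largest `A`, `n₂` = the largest `n₁`. `N` from `separate` for `3 A₀`. For a large `M` let `n ≥ n₀, n₂` and `S` be from `big_shell`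
(with `t, t'`), `S'` from `direct`, `S''` from `separate` (apply it to `S'`): `#S'' ≥ M 2^(n t') / (N (#F)²)`. The maps `f_γ = α γ β •`, `γ ∈ S''`, map `X` to itself, are continuous on `X`, expand by at least `r = c₀ 2^(-n)` (`r < 1` for `n` large: take `n₀` larger), and their images are disjoint: `α γ β z = α γ' β z'` gives `γ β z = γ' β z'`,
so `|γ 0 - γ' 0| ≤ 2 A₀ 2^(-n) < 3 A₀ 2^(-n)`. `M` such that `M c₀^t' ≥ N (#F)²` and `#S'' ≥ 2`: then `#S'' r^t' ≥ 1`; `ifs_dim` (index the maps by `Fin #S''`) and `dimH_mono`. -/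
theorem bj (h : Fuchs Γ) (hL : (Lim Γ).Infinite) (t t' : ℝ) (ht : 0 < t') (htt : t' < t) (hc : ¬ Conv Γ t) : ENNReal.ofReal t' ≤ dimH (Lim Γ) := by
  classical
  obtain ⟨j₀, ε, hj, hε, hmaps⟩ := bj_maps h hL
  obtain ⟨F, n₀, hFc, hFL, hdir⟩ := direct h hL ε hε
  choose! α β c A n₁ hc0 hA0 hprop using hmaps
  have hFne : (F ×ˢ F).Nonempty := by
    obtain ⟨u, hu⟩ := Finset.card_pos.1 hFc
    exact ⟨(u, u), Finset.mk_mem_product hu hu⟩
  obtain ⟨c₀, hc₀, hc₀'⟩ : ∃ c₀ : ℝ, 0 < c₀ ∧ ∀ u ∈ F, ∀ v ∈ F, c₀ ≤ c u v := by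
    obtain ⟨p, hp, hmin⟩ := Finset.exists_min_image (F ×ˢ F) (fun p => c p.1 p.2) hFne
    rw [Finset.mem_product] at hp
    exact ⟨c p.1 p.2, hc0 _ (hFL _ hp.1) _ (hFL _ hp.2), fun u hu v hv => hmin (u, v) (Finset.mk_mem_product hu hv)⟩
  obtain ⟨A₀, hA₀, hA₀'⟩ : ∃ A₀ : ℝ, 0 < A₀ ∧ ∀ u ∈ F, ∀ v ∈ F, A u v ≤ A₀ := by
    obtain ⟨p, hp, hmax⟩ := Finset.exists_max_image (F ×ˢ F) (fun p => A p.1 p.2) hFne
    rw [Finset.mem_product] at hp
    exact ⟨A p.1 p.2, hA0 _ (hFL _ hp.1) _ (hFL _ hp.2), fun u hu v hv => hmax (u, v) (Finset.mk_mem_product hu hv)⟩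
  obtain ⟨n₂, hn₂⟩ : ∃ n₂ : ℕ, ∀ u ∈ F, ∀ v ∈ F, n₁ u v ≤ n₂ := by
    obtain ⟨p, hp, hmax⟩ := Finset.exists_max_image (F ×ˢ F) (fun p => n₁ p.1 p.2) hFne
    exact ⟨n₁ p.1 p.2, fun u hu v hv => hmax (u, v) (Finset.mk_mem_product hu hv)⟩
  obtain ⟨n₃, hn₃⟩ : ∃ n₃ : ℕ, (1 / 2 : ℝ) ^ n₃ < 1 / c₀ := exists_pow_lt_of_lt_one (by positivity) (by norm_num)
  obtain ⟨N, hN, hsep⟩ := separate h (3 * A₀) (by positivity)
  have hNr : (0 : ℝ) < N := by exact_mod_cast hN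
  have hFr : (0 : ℝ) < F.card := by exact_mod_cast hFc
  set K : ℝ := N * (F.card : ℝ) ^ 2 with hK
  have hK0 : 0 < K := by positivity
  obtain ⟨n, S, hn, hS, hcard⟩ := big_shell h t t' htt hc (K / c₀ ^ t' + 2 * K) (max n₀ (max n₂ n₃))
  obtain ⟨u, hu, v, hv, S', hS'S, hS'card, hS'dir⟩ := hdir n S ((le_max_left _ _).trans hn) hS
  obtain ⟨S'', hS''S', hS''card, hS''sep⟩ := hsep n S' (fun γ hγ => hS γ (hS'S hγ))
  have hn2 : n₂ ≤ n := ((le_max_left _ _).trans (le_max_right _ _)).trans hn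
  have hn3 : n₃ ≤ n := ((le_max_right _ _).trans (le_max_right _ _)).trans hn
  have hpow : (0 : ℝ) < (1 / 2) ^ n := by positivity
  -- the number of maps
  have hbig : (K / c₀ ^ t' + 2 * K) * (2 : ℝ) ^ (n * t') / K ≤ S''.card := by
    calc (K / c₀ ^ t' + 2 * K) * (2 : ℝ) ^ (n * t') / K ≤ (S.card : ℝ) / K := by gcongr
      _ = (S.card : ℝ) / F.card ^ 2 / N := by rw [hK]; field_simp
      _ ≤ (S'.card : ℝ) / N := by gcongr
      _ ≤ S''.card := hS''card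
  have hone : (1 : ℝ) ≤ (2 : ℝ) ^ (n * t') := Real.one_le_rpow (by norm_num) (by positivity)
  have hc₀t : 0 < c₀ ^ t' := Real.rpow_pos_of_pos hc₀ _
  have hexp : (K / c₀ ^ t' + 2 * K) * (2 : ℝ) ^ (n * t') / K = (1 / c₀ ^ t' + 2) * (2 : ℝ) ^ (n * t') := by
    field_simp
  rw [hexp] at hbig
  have htwo : 2 ≤ S''.card := by
    have h1 : (2 : ℝ) ≤ S''.card := by
      refine le_trans ?_ hbig
      have h2 : 0 ≤ 1 / c₀ ^ t' := by positivity
      nlinarith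
    exact_mod_cast h1
  have hr1 : c₀ * (1 / 2) ^ n < 1 := by
    have h1 : (1 / 2 : ℝ) ^ n ≤ (1 / 2) ^ n₃ := pow_le_pow_of_le_one (by norm_num) (by norm_num) hn3
    have h2 : (1 / 2 : ℝ) ^ n < 1 / c₀ := lt_of_le_of_lt h1 hn₃
    rw [lt_div_iff₀ hc₀] at h2
    linarith
  have hrt : 1 ≤ (S''.card : ℝ) * (c₀ * (1 / 2) ^ n) ^ t' := by
    have h1 : (c₀ * (1 / 2) ^ n) ^ t' = c₀ ^ t' / (2 : ℝ) ^ (n * t') := by
      rw [Real.mul_rpow hc₀.le (by positivity), one_div, inv_pow, Real.inv_rpow (by positivity), ← Real.rpow_natCast,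
        ← Real.rpow_mul (by norm_num)]
      rfl
    rw [h1]
    have h2 : 0 < (2 : ℝ) ^ (n * t') := by positivity
    calc (1 : ℝ) = (1 / c₀ ^ t') * (2 : ℝ) ^ (n * t') * (c₀ ^ t' / (2 : ℝ) ^ (n * t')) := by field_simp
      _ ≤ ((1 / c₀ ^ t' + 2) * (2 : ℝ) ^ (n * t')) * (c₀ ^ t' / (2 : ℝ) ^ (n * t')) := by
          gcongr
          linarith
      _ ≤ _ := by gcongr
  -- the maps
  have hkey : ∀ γ ∈ S'',
      (∀ z ∈ Lim Γ ∩ closedBall j₀ ε, (α u v * γ * β u v) • z ∈ Lim Γ ∩ closedBall j₀ ε) ∧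
      (∀ z ∈ Lim Γ ∩ closedBall j₀ ε, ‖(γ * β u v) • z - γ • (0 : ℂ)‖ ≤ A u v * (1 / 2) ^ n) ∧
      (∀ z ∈ Lim Γ ∩ closedBall j₀ ε, ∀ w ∈ Lim Γ ∩ closedBall j₀ ε,
        c u v * (1 / 2) ^ n * ‖z - w‖ ≤ ‖(α u v * γ * β u v) • z - (α u v * γ * β u v) • w‖) := by
    intro γ hγ
    have h1 := hS γ (hS'S (hS''S' hγ))
    have h2 := hS'dir γ (hS''S' hγ)
    exact hprop u (hFL u hu) v (hFL v hv) n γ ((hn₂ u hu v hv).trans hn2) h1.1 h1.2 h2.1 h2.2
  have hXc : IsCompact (Lim Γ ∩ closedBall j₀ ε) := (isCompact_closedBall j₀ ε).inter_left Fuchs.lim_closed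
  have hXne : (Lim Γ ∩ closedBall j₀ ε).Nonempty := ⟨j₀, hj, mem_closedBall_self hε.le⟩
  have hXs : Lim Γ ∩ closedBall j₀ ε ⊆ closedBall 0 1 := fun z hz => sphere_subset_closedBall hz.1.2
  set en : Fin S''.card ≃ S'' := S''.equivFin.symm with hen
  have hdim := ifs_dim (Lim Γ ∩ closedBall j₀ ε) hXc hXne S''.card htwo
    (fun i z => (α u v * (en i : Γ) * β u v) • z)
    (fun i => (h.contOn _).mono hXs)
    (fun i z hz => (hkey _ (en i).2).1 z hz)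
    (by
      intro i j hij
      rw [Set.disjoint_left]
      rintro _ ⟨z, hz, rfl⟩ ⟨w, hw, hzw⟩
      have hne : (en i : Γ) ≠ (en j : Γ) := fun h1 => hij (en.injective (Subtype.ext h1))
      have h1 : (α u v * (en j : Γ) * β u v) • w = (α u v * (en i : Γ) * β u v) • z := hzw
      rw [mul_assoc, mul_assoc, mul_smul (α u v), mul_smul (α u v)] at h1
      have h2 := smul_left_cancel _ h1
      have h3 := (hkey _ (en i).2).2.1 z hz
      have h4 := (hkey _ (en j).2).2.1 w hw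
      rw [h2] at h4
      have h5 := hS''sep _ (en i).2 _ (en j).2 hne
      have h6 : ‖(en i : Γ) • (0 : ℂ) - (en j : Γ) • (0 : ℂ)‖ ≤
          ‖((en i : Γ) * β u v) • z - (en i : Γ) • (0 : ℂ)‖ + ‖((en i : Γ) * β u v) • z - (en j : Γ) • (0 : ℂ)‖ := by
        calc ‖(en i : Γ) • (0 : ℂ) - (en j : Γ) • (0 : ℂ)‖
            = ‖(((en i : Γ) * β u v) • z - (en j : Γ) • (0 : ℂ)) - (((en i : Γ) * β u v) • z - (en i : Γ) • (0 : ℂ))‖ := by
              congr 1; ring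
          _ ≤ ‖((en i : Γ) * β u v) • z - (en j : Γ) • (0 : ℂ)‖ + ‖((en i : Γ) * β u v) • z - (en i : Γ) • (0 : ℂ)‖ := norm_sub_le _ _
          _ = _ := add_comm _ _
      have h7 : A u v * (1 / 2 : ℝ) ^ n ≤ A₀ * (1 / 2) ^ n := mul_le_mul_of_nonneg_right (hA₀' u hu v hv) hpow.le
      have h8 : 0 < A₀ * (1 / 2 : ℝ) ^ n := by positivity
      nlinarith)
    (c₀ * (1 / 2) ^ n) t' (by positivity) hr1 ht
    (by
      intro i z hz w hw
      refine le_trans ?_ ((hkey _ (en i).2).2.2 z hz w hw)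
      have := hc₀' u hu v hv
      gcongr)
    hrt
  exact hdim.trans (dimH_mono Set.inter_subset_left)

end Pool.Agent.DD
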