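import Pool.Agent.Lib_MP_644907_full.Lam0

/-!
# Piece BAS: dyadic arcs containing a point
-/

set_option autoImplicit false

namespace Pool.Agent.DD

open MeasureTheory Filter Topology Metric

/-- an angle of `ξ`: `e (ang ξ) = ξ` on the circle -/
noncomputable def ang (ξ : ℂ) : ℝ := Complex.arg ξ / (2 * Real.pi)

/-- left end of the dyadic arc of level `l` of the grid `σ` which contains `ξ` -/
noncomputable def bas (σ : ℝ) (l : ℕ) (ξ : ℂ) : ℝ := σ + ⌊2 ^ l * Int.fract (ang ξ - σ)⌋ * (1 / 2) ^ l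

/-- the arc of level `l` of the grid `σ` which contains `ξ` -/
noncomputable def dya (σ : ℝ) (l : ℕ) (ξ : ℂ) : Set ℂ := arc (bas σ l ξ) (bas σ l ξ + (1 / 2) ^ l)

theorem e_ang (ξ : ℂ) (hξ : ‖ξ‖ = 1) : e (ang ξ) = ξ := by
  have h := Complex.norm_mul_exp_arg_mul_I ξ
  rw [hξ] at h
  have hpi : (Real.pi : ℂ) ≠ 0 := by exact_mod_cast Real.pi_ne_zero
  have h2 : (2 * Real.pi * (ang ξ : ℝ) * Complex.I : ℂ) = Complex.arg ξ * Complex.I := by
    unfold ang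
    push_cast
    field_simp
  unfold e
  rw [h2]
  simpa using h

theorem meas_bas (σ : ℝ) (l : ℕ) : Measurable (bas σ l) := by
  have h1 : Measurable (fun ξ : ℂ => (2 : ℝ) ^ l * Int.fract (ang ξ - σ)) := by
    refine Measurable.const_mul (Measurable.fract ?_) _
    exact ((Complex.measurable_arg.div_const _).sub_const _)
  have h2 : Measurable (fun ξ : ℂ => ((⌊(2 : ℝ) ^ l * Int.fract (ang ξ - σ)⌋ : ℤ) : ℝ)) :=
    (measurable_from_top (f := fun n : ℤ => (n : ℝ))).comp h1.floor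
  exact (h2.mul_const _).const_add _

private theorem bas_two (l : ℕ) : (2 : ℝ) ^ l * (1 / 2) ^ l = 1 := by
  rw [← mul_pow]; norm_num

private theorem bas_floor (σ : ℝ) (l : ℕ) (ξ : ℂ) :
    0 ≤ ⌊(2 : ℝ) ^ l * Int.fract (ang ξ - σ)⌋ ∧ ⌊(2 : ℝ) ^ l * Int.fract (ang ξ - σ)⌋ < 2 ^ l := by
  have h0 := Int.fract_nonneg (ang ξ - σ)
  have h1 := Int.fract_lt_one (ang ξ - σ)
  have h2 : (0 : ℝ) < 2 ^ l := by positivity
  constructor
  · exact Int.floor_nonneg.2 (mul_nonneg h2.le h0)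
  · rw [Int.floor_lt]
    push_cast
    calc (2 : ℝ) ^ l * Int.fract (ang ξ - σ) < 2 ^ l * 1 := mul_lt_mul_of_pos_left h1 h2
      _ = 2 ^ l := mul_one _

theorem bas_mem (σ : ℝ) (l : ℕ) (ξ : ℂ) : ∃ j : ℕ, j < 2 ^ l ∧ bas σ l ξ = σ + j * (1 / 2) ^ l := by
  obtain ⟨h1, h2⟩ := bas_floor σ l ξ
  obtain ⟨j, hj⟩ := Int.eq_ofNat_of_zero_le h1
  refine ⟨j, ?_, ?_⟩
  · rw [hj] at h2
    exact_mod_cast h2
  · unfold bas
    rw [hj]
    simp

/-- the canonical lift and its position in the arc -/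
theorem bas_pos (σ : ℝ) (l : ℕ) (ξ : ℂ) (hξ : ‖ξ‖ = 1) :
    e (σ + Int.fract (ang ξ - σ)) = ξ ∧ σ + Int.fract (ang ξ - σ) =
      bas σ l ξ + Int.fract (2 ^ l * (ang ξ - σ)) * (1 / 2) ^ l := by
  constructor
  · have h1 : σ + Int.fract (ang ξ - σ) = ang ξ + ((-⌊ang ξ - σ⌋ : ℤ) : ℝ) := by
      have := Int.self_sub_floor (ang ξ - σ)
      push_cast
      linarith
    rw [h1, e_add_int, e_ang ξ hξ]
  · have h2 : Int.fract ((2 : ℝ) ^ l * (ang ξ - σ)) =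
        Int.fract ((2 : ℝ) ^ l * Int.fract (ang ξ - σ)) := by
      have h3 : (2 : ℝ) ^ l * (ang ξ - σ) =
          2 ^ l * Int.fract (ang ξ - σ) + ((2 ^ l * ⌊ang ξ - σ⌋ : ℤ) : ℝ) := by
        have := Int.self_sub_floor (ang ξ - σ)
        rw [← this]
        push_cast
        ring
      rw [h3, Int.fract_add_intCast]
    have h4 := Int.floor_add_fract ((2 : ℝ) ^ l * Int.fract (ang ξ - σ))
    have h5 := bas_two l
    rw [h2]
    unfold bas
    rw [add_assoc, ← add_mul, h4]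
    linear_combination (-Int.fract (ang ξ - σ)) * h5

/-- there is a lift `t` of `ξ` in `[bas, bas + 2^(-l))` -/
theorem exists_lift (σ : ℝ) (l : ℕ) (ξ : ℂ) (hξ : ‖ξ‖ = 1) : ∃ t : ℝ, e t = ξ ∧ bas σ l ξ ≤ t ∧ t < bas σ l ξ + (1 / 2) ^ l := by
  obtain ⟨h1, h2⟩ := bas_pos σ l ξ hξ
  have h3 := Int.fract_nonneg ((2 : ℝ) ^ l * (ang ξ - σ))
  have h4 := Int.fract_lt_one ((2 : ℝ) ^ l * (ang ξ - σ))
  have h5 : (0 : ℝ) < (1 / 2) ^ l := by positivity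
  refine ⟨_, h1, ?_, ?_⟩
  · rw [h2]
    have := mul_nonneg h3 h5.le
    linarith
  · rw [h2]
    have := mul_lt_mul_of_pos_right h4 h5
    linarith

theorem mem_dya (σ : ℝ) (l : ℕ) (ξ : ℂ) (hξ : ‖ξ‖ = 1) : ξ ∈ dya σ l ξ := by
  obtain ⟨t, h1, h2, h3⟩ := exists_lift σ l ξ hξ
  exact ⟨t, ⟨h2, h3⟩, h1⟩

/-- the base is constant on the arcs -/
theorem bas_eq (σ : ℝ) (l j : ℕ) (hj : j < 2 ^ l) (ξ : ℂ) (hξ : ξ ∈ arc (σ + j * (1 / 2) ^ l) (σ + (j + 1) * (1 / 2) ^ l)) : bas σ l ξ = σ + j * (1 / 2) ^ l := by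
  obtain ⟨t, ⟨ht1, ht2⟩, ht⟩ := hξ
  have hn : ‖ξ‖ = 1 := by rw [← ht]; exact norm_e t
  have h5 : (0 : ℝ) < (1 / 2) ^ l := by positivity
  have h2 := bas_two l
  have h2p : (0 : ℝ) < 2 ^ l := by positivity
  have hj' : ((j : ℝ) + 1) ≤ 2 ^ l := by exact_mod_cast hj
  have hj2 : ((j : ℝ) + 1) * (1 / 2) ^ l ≤ 1 :=
    (mul_le_mul_of_nonneg_right hj' h5.le).trans h2.le
  have hj3 : 0 ≤ (j : ℝ) * (1 / 2) ^ l := by positivity
  have hs := (bas_pos σ l ξ hn).1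
  have hst : σ + Int.fract (ang ξ - σ) = t := by
    refine e_inj (a := σ) ⟨?_, ?_⟩ ⟨?_, ?_⟩ (hs.trans ht.symm)
    · linarith [Int.fract_nonneg (ang ξ - σ)]
    · linarith [Int.fract_lt_one (ang ξ - σ)]
    · linarith
    · linarith
  have hf : ⌊(2 : ℝ) ^ l * Int.fract (ang ξ - σ)⌋ = (j : ℤ) := by
    rw [Int.floor_eq_iff]
    have hfr : Int.fract (ang ξ - σ) = t - σ := by linarith
    rw [hfr]
    constructor
    · have h6 : (j : ℝ) * (1 / 2) ^ l ≤ t - σ := by linarith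
      have h7 := mul_le_mul_of_nonneg_left h6 h2p.le
      have h8 : (2 : ℝ) ^ l * ((j : ℝ) * (1 / 2) ^ l) = j := by linear_combination (j : ℝ) * h2
      rw [h8] at h7
      exact_mod_cast h7
    · have h6 : t - σ < ((j : ℝ) + 1) * (1 / 2) ^ l := by linarith
      have h7 := mul_lt_mul_of_pos_left h6 h2p
      have h8 : (2 : ℝ) ^ l * (((j : ℝ) + 1) * (1 / 2) ^ l) = j + 1 := by
        linear_combination ((j : ℝ) + 1) * h2
      rw [h8] at h7
      exact_mod_cast h7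
  unfold bas
  rw [hf]
  simp

/-- nested: on an arc of level `l + q` the base of level `l` is constant; the arc of level `l + q` is one of the `2^q` subarcs of the arc of level `l` -/
theorem bas_nested (σ : ℝ) (l q : ℕ) (ξ : ℂ) : ∃ i : ℕ, i < 2 ^ q ∧ bas σ (l + q) ξ = bas σ l ξ + i * (1 / 2) ^ (l + q) := by
  obtain ⟨f, hf⟩ : ∃ f : ℝ, f = Int.fract (ang ξ - σ) := ⟨_, rfl⟩
  obtain ⟨A, hA⟩ : ∃ A : ℤ, A = ⌊(2 : ℝ) ^ l * f⌋ := ⟨_, rfl⟩
  obtain ⟨B, hB⟩ : ∃ B : ℤ, B = ⌊(2 : ℝ) ^ (l + q) * f⌋ := ⟨_, rfl⟩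
  have hA1 : (A : ℝ) ≤ 2 ^ l * f := by rw [hA]; exact Int.floor_le _
  have hA2 : (2 : ℝ) ^ l * f < A + 1 := by rw [hA]; exact Int.lt_floor_add_one _
  have hq : (0 : ℝ) < 2 ^ q := by positivity
  have h1 : 2 ^ q * A ≤ B := by
    rw [hB, Int.le_floor]
    push_cast
    have := mul_le_mul_of_nonneg_left hA1 hq.le
    rw [pow_add]
    linarith
  have h2 : B < 2 ^ q * (A + 1) := by
    rw [hB, Int.floor_lt]
    push_cast
    have := mul_lt_mul_of_pos_left hA2 hq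
    rw [pow_add]
    linarith
  obtain ⟨i, hi⟩ := Int.eq_ofNat_of_zero_le (a := B - 2 ^ q * A) (by linarith)
  refine ⟨i, ?_, ?_⟩
  · have h3 : B - 2 ^ q * A < 2 ^ q := by linarith
    rw [hi] at h3
    exact_mod_cast h3
  · have h4 : (i : ℝ) = B - 2 ^ q * A := by
      have : ((B - 2 ^ q * A : ℤ) : ℝ) = ((i : ℤ) : ℝ) := by rw [hi]
      push_cast at this
      exact this.symm
    have h5 := bas_two q
    unfold bas
    rw [← hf, ← hA, ← hB, h4, pow_add (1 / 2 : ℝ) l q]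
    linear_combination ((A : ℝ) * (1 / 2) ^ l) * h5

/-- two points in the same arc of level `l + q` are in the same arc of level `l` -/
theorem bas_congr (σ : ℝ) (l q : ℕ) (ξ η : ℂ) (hξ : ‖ξ‖ = 1) (hη : ‖η‖ = 1) (h : bas σ (l + q) ξ = bas σ (l + q) η) : bas σ l ξ = bas σ l η := by
  obtain ⟨j, hj, hj'⟩ := bas_mem σ l ξ
  obtain ⟨k, hk, hk'⟩ := bas_mem σ l η
  obtain ⟨i, hi, hi'⟩ := bas_nested σ l q ξ
  obtain ⟨m, hm, hm'⟩ := bas_nested σ l q η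
  have h5 := bas_two q
  have h6 := bas_two l
  have e1 : ((j * 2 ^ q + i : ℕ) : ℝ) = ((k * 2 ^ q + m : ℕ) : ℝ) := by
    have h7 : (j : ℝ) * (1 / 2) ^ l + i * (1 / 2) ^ (l + q) =
        k * (1 / 2) ^ l + m * (1 / 2) ^ (l + q) := by
      rw [hi', hm', hj', hk'] at h
      linarith
    rw [pow_add] at h7
    push_cast
    have h8 := congrArg (fun x => 2 ^ l * 2 ^ q * x) h7
    simp only [mul_add] at h8
    have a1 : (2 : ℝ) ^ l * 2 ^ q * ((j : ℝ) * (1 / 2) ^ l) = j * 2 ^ q := by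
      linear_combination ((j : ℝ) * 2 ^ q) * h6
    have a2 : (2 : ℝ) ^ l * 2 ^ q * ((k : ℝ) * (1 / 2) ^ l) = k * 2 ^ q := by
      linear_combination ((k : ℝ) * 2 ^ q) * h6
    have a3 : (2 : ℝ) ^ l * 2 ^ q * ((i : ℝ) * ((1 / 2) ^ l * (1 / 2) ^ q)) = i := by
      linear_combination ((i : ℝ) * 2 ^ q * (1 / 2) ^ q) * h6 + (i : ℝ) * h5
    have a4 : (2 : ℝ) ^ l * 2 ^ q * ((m : ℝ) * ((1 / 2) ^ l * (1 / 2) ^ q)) = m := by
      linear_combination ((m : ℝ) * 2 ^ q * (1 / 2) ^ q) * h6 + (m : ℝ) * h5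
    rw [a1, a2, a3, a4] at h8
    exact h8
  have e2 : j * 2 ^ q + i = k * 2 ^ q + m := by exact_mod_cast e1
  have hq : 0 < 2 ^ q := by positivity
  have e3 : j = k := by
    have h1 : (j * 2 ^ q + i) / 2 ^ q = j := by
      rw [mul_comm, Nat.mul_add_div hq, Nat.div_eq_of_lt hi, add_zero]
    have h2 : (k * 2 ^ q + m) / 2 ^ q = k := by
      rw [mul_comm, Nat.mul_add_div hq, Nat.div_eq_of_lt hm, add_zero]
    rw [← h1, ← h2, e2]
  rw [hj', hk', e3]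

private theorem bas_mod3 (l : ℕ) : ∃ k : ℕ, 2 ^ l = 3 * k + 1 ∨ 2 ^ l = 3 * k + 2 := by
  induction l with
  | zero => exact ⟨0, Or.inl rfl⟩
  | succ l ih =>
    obtain ⟨k, hk | hk⟩ := ih
    · exact ⟨2 * k, Or.inr (by rw [pow_succ, hk]; ring)⟩
    · exact ⟨2 * k + 1, Or.inl (by rw [pow_succ, hk]; ring)⟩

/-- one of the two grids `0`, `1/3` has `ξ` in the middle part of its arc: `2^l / 3` is `1/3` or `2/3` mod 1, so the ends of the two grids are at distance `≥ (1/3) 2^(-l)` from each other -/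
theorem middle (l : ℕ) (ξ : ℂ) (hξ : ‖ξ‖ = 1) : ∃ σ : ℝ, (σ = 0 ∨ σ = 1 / 3) ∧ ∃ t : ℝ, e t = ξ ∧
    bas σ l ξ + (1 / 6) * (1 / 2) ^ l ≤ t ∧ t ≤ bas σ l ξ + (5 / 6) * (1 / 2) ^ l := by
  have h5 : (0 : ℝ) < (1 / 2) ^ l := by positivity
  have key : ∀ σ : ℝ, 1 / 6 ≤ Int.fract ((2 : ℝ) ^ l * (ang ξ - σ)) →
      Int.fract ((2 : ℝ) ^ l * (ang ξ - σ)) ≤ 5 / 6 → ∃ t : ℝ, e t = ξ ∧
      bas σ l ξ + (1 / 6) * (1 / 2) ^ l ≤ t ∧ t ≤ bas σ l ξ + (5 / 6) * (1 / 2) ^ l := by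
    intro σ h1 h2
    obtain ⟨g1, g2⟩ := bas_pos σ l ξ hξ
    refine ⟨_, g1, ?_, ?_⟩
    · rw [g2]
      have := mul_le_mul_of_nonneg_right h1 h5.le
      linarith
    · rw [g2]
      have := mul_le_mul_of_nonneg_right h2 h5.le
      linarith
  obtain ⟨x, hx⟩ : ∃ x : ℝ, x = 2 ^ l * ang ξ := ⟨_, rfl⟩
  have hx0 : (2 : ℝ) ^ l * (ang ξ - 0) = x := by rw [hx, sub_zero]
  by_cases hmid : 1 / 6 ≤ Int.fract x ∧ Int.fract x ≤ 5 / 6
  · refine ⟨0, Or.inl rfl, key 0 ?_ ?_⟩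
    · rw [hx0]; exact hmid.1
    · rw [hx0]; exact hmid.2
  · refine ⟨1 / 3, Or.inr rfl, ?_⟩
    have p0 := Int.fract_nonneg x
    have p1 := Int.fract_lt_one x
    have pf := Int.self_sub_floor x
    obtain ⟨k, hk⟩ := bas_mod3 l
    have hout : Int.fract x < 1 / 6 ∨ 5 / 6 < Int.fract x := by
      by_contra hcon
      push Not at hcon
      exact hmid hcon
    have main : ∃ b : ℝ, Int.fract ((2 : ℝ) ^ l * (ang ξ - 1 / 3)) = b ∧ 1 / 6 ≤ b ∧ b ≤ 5 / 6 := by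
      rcases hk with hk | hk
      · have hk' : (2 : ℝ) ^ l = 3 * k + 1 := by exact_mod_cast hk
        have hy : (2 : ℝ) ^ l * (ang ξ - 1 / 3) = x - k - 1 / 3 := by
          rw [mul_sub, ← hx, hk']; ring
        rw [hy]
        rcases hout with ho | ho
        · refine ⟨Int.fract x + 2 / 3, Int.fract_eq_iff.2 ⟨by linarith, by linarith,
            ⌊x⌋ - k - 1, ?_⟩, by linarith, by linarith⟩
          push_cast
          linarith
        · refine ⟨Int.fract x - 1 / 3, Int.fract_eq_iff.2 ⟨by linarith, by linarith,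
            ⌊x⌋ - k, ?_⟩, by linarith, by linarith⟩
          push_cast
          linarith
      · have hk' : (2 : ℝ) ^ l = 3 * k + 2 := by exact_mod_cast hk
        have hy : (2 : ℝ) ^ l * (ang ξ - 1 / 3) = x - k - 2 / 3 := by
          rw [mul_sub, ← hx, hk']; ring
        rw [hy]
        rcases hout with ho | ho
        · refine ⟨Int.fract x + 1 / 3, Int.fract_eq_iff.2 ⟨by linarith, by linarith,
            ⌊x⌋ - k - 1, ?_⟩, by linarith, by linarith⟩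
          push_cast
          linarith
        · refine ⟨Int.fract x - 2 / 3, Int.fract_eq_iff.2 ⟨by linarith, by linarith,
            ⌊x⌋ - k, ?_⟩, by linarith, by linarith⟩
          push_cast
          linarith
    obtain ⟨b, hb, hb1, hb2⟩ := main
    exact key (1 / 3) (hb ▸ hb1) (hb ▸ hb2)

/-- diameter of an arc: `dist_e_le` -/
theorem diam_arc (a : ℝ) (l : ℕ) : Metric.ediam (arc a (a + (1 / 2) ^ l)) ≤ ENNReal.ofReal (7 * (1 / 2) ^ l) := by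
  refine Metric.ediam_le ?_
  rintro x ⟨s, hs, rfl⟩ y ⟨t, ht, rfl⟩
  rw [edist_dist, dist_eq_norm]
  refine ENNReal.ofReal_le_ofReal ((dist_e_le s t).trans ?_)
  have h5 : (0 : ℝ) < (1 / 2) ^ l := by positivity
  have h1 : |s - t| ≤ (1 / 2) ^ l := by
    rw [abs_le]
    constructor
    · linarith [hs.1, ht.2]
    · linarith [hs.2, ht.1]
  have h2 : 2 * Real.pi ≤ 7 := by linarith [Real.pi_lt_d2]
  calc 2 * Real.pi * |s - t| ≤ 7 * |s - t| := mul_le_mul_of_nonneg_right h2 (abs_nonneg _)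
    _ ≤ 7 * (1 / 2) ^ l := mul_le_mul_of_nonneg_left h1 (by norm_num)

end Pool.Agent.DD
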