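import Pool.Agent.Lib_MP_644907.IsoA

/-!
# MP_644907_pr: dimension drop for all finitely supported walks. Definitions

`Γ` is a discrete group of isometries of the unit disk; it acts on `ℂ` (the elements act as the
identity outside the closed disk).
-/

set_option autoImplicit false

namespace Pool.Agent.DD

open MeasureTheory Filter Topology Metric

/-- `cosh² (d (z, w) / 2)` for `z, w` in the disk -/
noncomputable def qd (z w : ℂ) : ℝ :=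
  ‖1 - starRingEnd ℂ z * w‖ ^ 2 / ((1 - ‖z‖ ^ 2) * (1 - ‖w‖ ^ 2))

/-- the Poisson kernel -/
noncomputable def pk (z ξ : ℂ) : ℝ := (1 - ‖z‖ ^ 2) / ‖ξ - z‖ ^ 2

/-- a discrete group of isometries of the disk -/
structure Fuchs (Γ : Type) [Group Γ] [MulAction Γ ℂ] : Prop where
  iso : ∀ γ : Γ, DimDrop.IsoD (fun z : ℂ => γ • z)
  out : ∀ (γ : Γ) (z : ℂ), 1 < ‖z‖ → γ • z = z
  faith : ∀ γ : Γ, (∀ z : ℂ, ‖z‖ < 1 → γ • z = z) → γ = 1
  disc : ∀ r : ℝ, r < 1 → {γ : Γ | ‖γ • (0 : ℂ)‖ ≤ r}.Finite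

/-- the limit set -/
def Lim (Γ : Type) [Group Γ] [MulAction Γ ℂ] : Set ℂ :=
  closure (Set.range fun γ : Γ => γ • (0 : ℂ)) ∩ sphere (0 : ℂ) 1

/-- cocompact groups -/
def Cocpt (Γ : Type) [Group Γ] [MulAction Γ ℂ] : Prop :=
  ∃ R : ℝ, R < 1 ∧ ∀ z : ℂ, ‖z‖ < 1 → ∃ γ : Γ, ‖γ • z‖ ≤ R

/-- a finitely supported probability measure on `Γ` (indexed) -/
structure PreWalk (Γ : Type) [Group Γ] (ι : Type) [Fintype ι] where
  p : ι → ℝ
  g : ι → Γ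
  pos : ∀ i, 0 < p i
  sum : ∑ i, p i = 1

/-- ... whose support generates `Γ` as a semigroup -/
structure Walk (Γ : Type) [Group Γ] (ι : Type) [Fintype ι] extends PreWalk Γ ι where
  gen : ∀ γ : Γ, γ ∈ Subsemigroup.closure (Set.range g)

variable {Γ : Type} [Group Γ] [MulAction Γ ℂ] {ι : Type} [Fintype ι]

/-- the averaging operator -/
noncomputable def avg (W : PreWalk Γ ι) (u : Γ → ℝ) (x : Γ) : ℝ := ∑ i, W.p i * u (x * W.g i)

/-- stationary probability measures on the circle -/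
structure Stat (W : PreWalk Γ ι) (ν : Measure ℂ) : Prop where
  prob : IsProbabilityMeasure ν
  supp : ν (sphere (0 : ℂ) 1)ᶜ = 0
  stat : ∀ A : Set ℂ, MeasurableSet A →
    ν A = ∑ i, ENNReal.ofReal (W.p i) * ν ((fun z : ℂ => W.g i • z) ⁻¹' A)

/-- `ν_x (A)`, `ν_x = x_* ν` -/
noncomputable def hm (ν : Measure ℂ) (x : Γ) (A : Set ℂ) : ℝ := ν.real ((fun z : ℂ => x • z) ⁻¹' A)

/-- `∫ f dν_x` -/
noncomputable def U (ν : Measure ℂ) (f : ℂ → ℝ) (x : Γ) : ℝ := ∫ z, f (x • z) ∂ν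

open Classical in
/-- probability to hit `K` within `n` steps, at the point `z ∈ K` -/
noncomputable def hitn (W : PreWalk Γ ι) (K : Set Γ) (z : Γ) : ℕ → Γ → ℝ
  | 0 => fun x => if x = z then 1 else 0
  | n + 1 => fun x => if x ∈ K then (if x = z then 1 else 0) else avg W (hitn W K z n) x

/-- probability to hit `K` for the first time at `z ∈ K`, starting at `x` -/
noncomputable def hit (W : PreWalk Γ ι) (K : Set Γ) (z x : Γ) : ℝ := ⨆ n, hitn W K z n x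

/-- `e t = exp (2 π i t)` -/
noncomputable def e (t : ℝ) : ℂ := Complex.exp (2 * Real.pi * t * Complex.I)

/-- the arc `{e t | a ≤ t < b}` -/
def arc (a b : ℝ) : Set ℂ := e '' Set.Ico a b

/-- normalised Lebesgue measure on the circle -/
noncomputable def lam : Measure ℂ := Measure.map e (volume.restrict (Set.Ico 0 1))

/-- conformal measures of dimension `s`: `m (x⁻¹ A) = ∫_A P(x 0, ξ)^s dm(ξ)` -/
structure Conf (Γ : Type) [Group Γ] [MulAction Γ ℂ] (m : Measure ℂ) (s : ℝ) : Prop where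
  fin : IsFiniteMeasure m
  ne : m ≠ 0
  supp : m (Lim Γ)ᶜ = 0
  pos : 0 < s
  conf : ∀ (x : Γ) (A : Set ℂ), MeasurableSet A →
    m ((fun z : ℂ => x • z) ⁻¹' A) = ∫⁻ ξ in A, ENNReal.ofReal (pk (x • (0 : ℂ)) ξ ^ s) ∂m

/-- the tangent situation: there are `x n ∈ Γ`, `x n 0 → ζ`, `|ζ| = 1`, such that near a point `b ≠ ζ` of
the limit set suitable multiples of `ν_{x n}` converge to `|ξ - ζ|^(-2 s) dm(ξ)` -/
def Tangent (Γ : Type) [Group Γ] [MulAction Γ ℂ] (ν m : Measure ℂ) (s : ℝ) : Prop :=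
  ∃ (b ζ : ℂ) (r : ℝ) (x : ℕ → Γ) (c : ℕ → ℝ), b ∈ Lim Γ ∧ ‖ζ‖ = 1 ∧ 0 < r ∧ 2 * r < ‖ζ - b‖ ∧
    (∀ n, 0 < c n) ∧ Tendsto (fun n => x n • (0 : ℂ)) atTop (𝓝 ζ) ∧
    ∀ f : ℂ → ℝ, ContinuousOn f (sphere 0 1) → (∀ z : ℂ, ‖z‖ = 1 → r ≤ ‖z - b‖ → f z = 0) →
      Tendsto (fun n => c n * U ν f (x n)) atTop (𝓝 (∫ ξ, f ξ * (‖ξ - ζ‖ ^ 2) ^ (-s) ∂m))

/-- `z` (on the circle) is the centre of a horoball without orbit points, or not in the limit set -/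
def Horo (Γ : Type) [Group Γ] [MulAction Γ ℂ] (z : ℂ) : Prop :=
  ∃ κ : ℝ, 0 < κ ∧ ∀ γ : Γ, κ * (1 - ‖γ • (0 : ℂ)‖ ^ 2) ≤ ‖γ • (0 : ℂ) - z‖ ^ 2

/-- a gate: the disk `ball β t`, both end points `Horo`, and a point `b₀` of the limit set in the smaller disk `ball β t'` -/
structure GateD (Γ : Type) [Group Γ] [MulAction Γ ℂ] (β b₀ : ℂ) (t t' : ℝ) : Prop where
  hβ : ‖β‖ = 1
  pos : 0 < t'
  lt : t' < t
  le_one : t ≤ 1
  mem : b₀ ∈ Lim Γ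
  near : ‖b₀ - β‖ < t'
  horo : ∀ z : ℂ, ‖z‖ = 1 → ‖z - β‖ = t → Horo Γ z

/-- the arc `arc θ (θ + 2^(-k))` is good: it has a point `e t` of the limit set in its middle part
and there is an orbit point at bounded distance of the point `(1 - 2^(-k)) e t` -/
def GoodArc (Γ : Type) [Group Γ] [MulAction Γ ℂ] (D θ : ℝ) (k : ℕ) : Prop :=
  ∃ (t : ℝ) (γ : Γ), θ + (1 / 6) * (1 / 2) ^ k ≤ t ∧ t ≤ θ + (5 / 6) * (1 / 2) ^ k ∧ e t ∈ Lim Γ ∧
    qd (γ • (0 : ℂ)) ((1 - (1 / 2) ^ k : ℝ) * e t) ≤ D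

/-- Hellinger affinity of `μ` and `m` on the `2^q` subarcs of `arc θ (θ + 2^(-k))` -/
noncomputable def aff (μ m : Measure ℂ) (θ : ℝ) (k q : ℕ) : ℝ :=
  ∑ j ∈ Finset.range (2 ^ q), √(μ.real (arc (θ + j * (1 / 2) ^ (k + q)) (θ + (j + 1) * (1 / 2) ^ (k + q))) *
    m.real (arc (θ + j * (1 / 2) ^ (k + q)) (θ + (j + 1) * (1 / 2) ^ (k + q))))

/-- uniform Hellinger gap on the good arcs -/
def Gap (Γ : Type) [Group Γ] [MulAction Γ ℂ] (ν m : Measure ℂ) (D : ℝ) : Prop :=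
  ∃ (q : ℕ) (ε : ℝ), 0 < q ∧ 0 < ε ∧ ε < 1 ∧ ∀ (θ : ℝ) (k : ℕ), GoodArc Γ D θ k →
    aff ν m θ k q ≤ (1 - ε) * aff ν m θ k 0

open Classical in
/-- `k` step transition probabilities from `x` to `y` -/
noncomputable def pn (W : PreWalk Γ ι) (y : Γ) : ℕ → Γ → ℝ
  | 0 => fun x => if x = y then 1 else 0
  | k + 1 => avg W (pn W y k)

/-- exponential decay of the transition probabilities -/
def Decay (W : PreWalk Γ ι) (C ρ : ℝ) : Prop := 0 < C ∧ 0 < ρ ∧ ρ < 1 ∧ ∀ (k : ℕ) (x y : Γ), pn W y k x ≤ C * ρ ^ k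

/-- orientation preserving elements -/
def Pres (γ : Γ) : Prop := ∃ α β : ℂ, ‖α‖ ^ 2 - ‖β‖ ^ 2 = 1 ∧
  ∀ z : ℂ, ‖z‖ ≤ 1 → γ • z = (α * z + β) / (starRingEnd ℂ β * z + starRingEnd ℂ α)

end Pool.Agent.DD
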