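import Mathlib

/-!
# Piece CHAIN2: chains which reach the boundary quickly stay close to the radius most of the time
-/

set_option autoImplicit false

namespace Pool.Agent.DD

open Classical in
private theorem ch2_key (n k j : ℕ) (a : ℕ → ℝ) (m : ℕ → Prop) (B τ : ℝ) (hB : 1 ≤ B) (hτ : 0 < τ) (hτ1 : τ ≤ 1 / 2) (h0 : a 0 = 0) (hk : (k : ℝ) ≤ a n)
    (h1 : ∀ i < n, a (i + 1) - a i ≤ B) (h2 : ∀ i < n, ¬ m i → a (i + 1) - a i ≤ τ)
    (hj1 : 1 ≤ j) (hjk : j < k) (hbad : ∀ i ≤ n, m i → B + 1 < |a i - j|) :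
    1 / τ - 2 ≤ (((Finset.range (n + 1)).filter (fun i : ℕ => (j : ℝ) ≤ a i ∧ a i < j + 1)).card : ℝ) := by
  have hj0 : (0 : ℝ) < j := by exact_mod_cast hj1
  have hjk' : (j : ℝ) + 1 ≤ k := by exact_mod_cast hjk
  set i₁ := Nat.findGreatest (fun i => a i < j) n with hi
  have hi1 : a i₁ < j := by
    have := @Nat.findGreatest_spec 0 (fun i => a i < j) _ n (Nat.zero_le n) (by rw [h0]; exact hj0)
    exact this
  have hin : i₁ ≤ n := Nat.findGreatest_le n
  have hgt : ∀ i, i₁ < i → i ≤ n → (j : ℝ) ≤ a i := by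
    intro i hlt hle
    have := Nat.findGreatest_is_greatest hlt hle
    exact not_lt.1 this
  have hin' : i₁ < n := by
    rcases lt_or_eq_of_le hin with h | h
    · exact h
    · rw [h] at hi1
      linarith
  have hstep : ∀ t : ℕ, ((t : ℝ) + 1) * τ ≤ 1 → i₁ + 1 + t ≤ n ∧ a (i₁ + 1 + t) < j + ((t : ℝ) + 1) * τ := by
    intro t
    induction t with
    | zero =>
      intro _
      refine ⟨by omega, ?_⟩
      have hge := hgt (i₁ + 1) (by omega) (by omega)
      have hB1 := h1 i₁ hin'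
      have hnm : ¬ m i₁ := by
        intro hm
        have h3 := hbad i₁ hin hm
        rw [abs_of_neg (by linarith)] at h3
        linarith
      have h4 := h2 i₁ hin' hnm
      simp only [add_zero, Nat.cast_zero, zero_add, one_mul]
      linarith
    | succ t ih =>
      intro ht
      push_cast at ht ⊢
      have ht' : ((t : ℝ) + 1) * τ ≤ 1 := by nlinarith
      obtain ⟨ih1, ih2⟩ := ih ht'
      have hge := hgt (i₁ + 1 + t) (by omega) ih1
      have hlt : i₁ + 1 + t < n := by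
        rcases lt_or_eq_of_le ih1 with h | h
        · exact h
        · rw [h] at ih2
          linarith
      have hnm : ¬ m (i₁ + 1 + t) := by
        intro hm
        have h3 := hbad _ ih1 hm
        rw [abs_of_nonneg (by linarith)] at h3
        linarith
      have h4 := h2 _ hlt hnm
      refine ⟨by omega, ?_⟩
      have h5 : i₁ + 1 + (t + 1) = i₁ + 1 + t + 1 := by ring
      rw [h5]
      linarith
  have hcard : ⌊1 / τ⌋₊ ≤ ((Finset.range (n + 1)).filter (fun i : ℕ => (j : ℝ) ≤ a i ∧ a i < j + 1)).card := by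
    have h3 : ((Finset.range ⌊1 / τ⌋₊).image (fun t => i₁ + 1 + t)).card = ⌊1 / τ⌋₊ := by
      rw [Finset.card_image_of_injective _ (fun x y hxy => by simpa using hxy), Finset.card_range]
    rw [← h3]
    refine Finset.card_le_card ?_
    intro i hi'
    rw [Finset.mem_image] at hi'
    obtain ⟨t, ht, rfl⟩ := hi'
    rw [Finset.mem_range] at ht
    have ht1 : ((t : ℝ) + 1) * τ ≤ 1 := by
      have h4 : ((t + 1 : ℕ) : ℝ) ≤ 1 / τ := by
        have h5 : ((t + 1 : ℕ) : ℝ) ≤ (⌊1 / τ⌋₊ : ℝ) := by exact_mod_cast ht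
        exact h5.trans (Nat.floor_le (by positivity))
      rw [le_div_iff₀ hτ] at h4
      push_cast at h4
      exact h4
    obtain ⟨h6, h7⟩ := hstep t ht1
    rw [Finset.mem_filter, Finset.mem_range]
    exact ⟨by omega, hgt _ (by omega) h6, by linarith⟩
  have h8 : (⌊1 / τ⌋₊ : ℝ) ≤ (((Finset.range (n + 1)).filter (fun i : ℕ => (j : ℝ) ≤ a i ∧ a i < j + 1)).card : ℝ) := by
    exact_mod_cast hcard
  have h9 : 1 / τ < ⌊1 / τ⌋₊ + 1 := Nat.lt_floor_add_one _
  linarith

open Classical in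
/-- Abstract chain lemma. Real numbers `a_0 = 0`, ..., `a_n ≥ k`, `a_{i+1} - a_i ≤ B` always, and `a_{i+1} - a_i ≤ τ` if `i` is not marked (`m i`). Call `j < k` good if there is a marked `i` with `|a_i - j| ≤ B + 1`. If `j ≥ 1` is not good then at least `⌊1/τ⌋ - 1 =: M` indices `i ≤ n` have `a_i ∈ [j, j + 1)`:
let `i₁` be the last index with `a_i < j`; `a_{i₁} ≥ j - B`, so `i₁` is not marked and `a_{i₁ + 1} < j + τ`; from there on all `a_i ≥ j`, and as long as they are `< j + 1` the steps are `≤ τ`, and finally `j + 1 ≤ k ≤ a_n` is reached. So `M · #bad ≤ n + 1`. -/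
theorem chain_abs (n k : ℕ) (a : ℕ → ℝ) (m : ℕ → Prop) (B τ : ℝ) (hB : 1 ≤ B) (hτ : 0 < τ) (hτ1 : τ ≤ 1 / 2) (h0 : a 0 = 0) (hk : (k : ℝ) ≤ a n)
    (h1 : ∀ i < n, a (i + 1) - a i ≤ B) (h2 : ∀ i < n, ¬ m i → a (i + 1) - a i ≤ τ) :
    (1 / τ - 2) * ((k : ℝ) - 1 - (((Finset.range k).filter (fun j : ℕ => ∃ i ≤ n, m i ∧ |a i - j| ≤ B + 1)).card : ℝ)) ≤ n + 1 := by
  set G := (Finset.range k).filter (fun j : ℕ => ∃ i ≤ n, m i ∧ |a i - j| ≤ B + 1) with hG
  set bad := ((Finset.range k).filter (fun j : ℕ => ¬ ∃ i ≤ n, m i ∧ |a i - j| ≤ B + 1)).erase 0 with hb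
  set S : ℕ → Finset ℕ := fun j => (Finset.range (n + 1)).filter (fun i : ℕ => (j : ℝ) ≤ a i ∧ a i < j + 1) with hS
  have hτ2 : 0 ≤ 1 / τ - 2 := by
    rw [sub_nonneg, le_div_iff₀ hτ]
    linarith
  have hcount : (k : ℝ) - 1 - G.card ≤ bad.card := by
    have h3 : G.card + ((Finset.range k).filter (fun j : ℕ => ¬ ∃ i ≤ n, m i ∧ |a i - j| ≤ B + 1)).card = k := by
      rw [hG, Finset.card_filter_add_card_filter_not, Finset.card_range]
    have h4 : ((Finset.range k).filter (fun j : ℕ => ¬ ∃ i ≤ n, m i ∧ |a i - j| ≤ B + 1)).card ≤ bad.card + 1 := by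
      have : ((Finset.range k).filter (fun j : ℕ => ¬ ∃ i ≤ n, m i ∧ |a i - j| ≤ B + 1)).card - 1 ≤ bad.card :=
        Finset.pred_card_le_card_erase
      omega
    have h5 : (k : ℝ) ≤ G.card + (bad.card + 1) := by
      have : k ≤ G.card + (bad.card + 1) := by omega
      exact_mod_cast this
    linarith
  have hdis : ∀ x ∈ bad, ∀ y ∈ bad, x ≠ y → Disjoint (S x) (S y) := by
    intro x _ y _ hxy
    rw [Finset.disjoint_left]
    intro i hx hy
    rw [hS, Finset.mem_filter] at hx hy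
    obtain ⟨-, hx1, hx2⟩ := hx
    obtain ⟨-, hy1, hy2⟩ := hy
    rcases lt_or_gt_of_ne hxy with h | h
    · have : (x : ℝ) + 1 ≤ y := by exact_mod_cast h
      linarith
    · have : (y : ℝ) + 1 ≤ x := by exact_mod_cast h
      linarith
  have hsum : ∑ j ∈ bad, (S j).card ≤ n + 1 := by
    rw [← Finset.card_biUnion hdis]
    have h3 : bad.biUnion S ⊆ Finset.range (n + 1) := by
      rw [Finset.biUnion_subset]
      intro j _
      exact Finset.filter_subset _ _
    exact (Finset.card_le_card h3).trans (by rw [Finset.card_range])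
  have hlow : ∀ j ∈ bad, 1 / τ - 2 ≤ ((S j).card : ℝ) := by
    intro j hj
    rw [hb, Finset.mem_erase, Finset.mem_filter, Finset.mem_range] at hj
    obtain ⟨hj0, hjk, hjb⟩ := hj
    refine ch2_key n k j a m B τ hB hτ hτ1 h0 hk h1 h2 (Nat.one_le_iff_ne_zero.2 hj0) hjk ?_
    intro i hi hm
    by_contra hcon
    exact hjb ⟨i, hi, hm, not_lt.1 hcon⟩
  calc (1 / τ - 2) * ((k : ℝ) - 1 - G.card) ≤ (1 / τ - 2) * bad.card := by gcongr
    _ = ∑ j ∈ bad, (1 / τ - 2) := by rw [Finset.sum_const, nsmul_eq_mul]; ring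
    _ ≤ ∑ j ∈ bad, ((S j).card : ℝ) := Finset.sum_le_sum hlow
    _ = ((∑ j ∈ bad, (S j).card : ℕ) : ℝ) := by push_cast; rfl
    _ ≤ n + 1 := by exact_mod_cast hsum

end Pool.Agent.DD
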