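import Pool.Agent.Lib_MP_644907_full.Chain1
import Pool.Agent.Lib_MP_644907_full.Chain2

/-!
# Piece CHAIN: chains which reach the boundary quickly stay close to the radius most of the time
-/

set_option autoImplicit false

namespace Pool.Agent.DD

private theorem chn_bound (η : ℂ) (v R σ : ℝ) (hσ : 0 < σ) (hv : 0 < v) (hη : 0 < ‖η‖)
    (hm : σ * ‖η‖ ≤ η.re) (h1 : ‖η‖ ≤ R * v) (h2 : v ≤ R * ‖η‖) :
    ‖η + starRingEnd ℂ (v : ℂ)‖ ^ 2 / (4 * η.re * v) ≤ (2 * R + 2) / (4 * σ) := by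
  have hre : 0 < η.re := lt_of_lt_of_le (by positivity) hm
  have h3 : ‖η + starRingEnd ℂ (v : ℂ)‖ ≤ ‖η‖ + v := by
    refine (norm_add_le _ _).trans ?_
    rw [RCLike.norm_conj, Complex.norm_real, Real.norm_eq_abs, abs_of_pos hv]
  rw [div_le_div_iff₀ (by positivity) (by positivity)]
  have h4 : ‖η + starRingEnd ℂ (v : ℂ)‖ ^ 2 ≤ (‖η‖ + v) ^ 2 := by gcongr
  have h5 : (‖η‖ + v) ^ 2 ≤ (2 * R + 2) * (‖η‖ * v) := by
    nlinarith [mul_le_mul_of_nonneg_right h1 hη.le, mul_le_mul_of_nonneg_right h2 hv.le]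
  have hR : 0 ≤ 2 * R + 2 := by
    by_contra hcon
    push Not at hcon
    nlinarith [mul_pos hη hv, sq_nonneg (‖η‖ + v)]
  calc ‖η + starRingEnd ℂ (v : ℂ)‖ ^ 2 * (4 * σ) ≤ ((2 * R + 2) * (‖η‖ * v)) * (4 * σ) := by
        gcongr
        exact h4.trans h5
    _ = (2 * R + 2) * (4 * (σ * ‖η‖) * v) := by ring
    _ ≤ (2 * R + 2) * (4 * η.re * v) := by gcongr

private theorem chn_pow (j : ℕ) : ((1 : ℝ) / 2) ^ j = (2 : ℝ) ^ (-(j : ℝ)) := by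
  rw [Real.rpow_neg (by norm_num), Real.rpow_natCast, one_div, inv_pow]

open Classical in
/-- Put `η_i` = half plane coordinate of `y_i`, `a_i = - log₂ |η_i|` (`η_0 = 1`, `|η_n| ≤ 2^(-k)` as `|ξ + y_n| ≥ 1`), `B = log₂ (1 + 4 Q) + 1` (`|η_i| ≤ (1 + 4 Q) |η_{i+1}|` by `half_step`), `m i` is `Re η_i ≥ σ₀ |η_i|`, `τ = - log₂ (1 - 4 Q σ₀)` where `σ₀` is so small that `1/τ - 2 ≥ 4 K + 4`. By `chain_abs` the number of
good `j` is at least `k - 1 - (K k + 1) / (4 K + 4) ≥ k / 2 - 2`. If `j` is good: `Re η_i ≥ σ₀ |η_i|`, `2^(-j - B - 1) ≤ |η_i| ≤ 2^(-j + B + 1)` and the point `(1 - 2^(-j)) ξ` has the coordinate `η' = 2^(-j) / (2 - 2^(-j)) ∈ [2^(-j-1), 2^(-j)]`, so `qd ≤ (|η_i| + η')² / (4 σ₀ |η_i| η') ≤ D` (`qd_half`). -/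
theorem chain (Q K : ℝ) (hQ : 1 ≤ Q) (hK : 0 < K) : ∃ D : ℝ, ∀ (ξ : ℂ) (n k : ℕ) (y : ℕ → ℂ), ‖ξ‖ = 1 → (∀ j, ‖y j‖ < 1) → y 0 = 0 →
    (∀ j < n, qd (y j) (y (j + 1)) ≤ Q) → ‖y n - ξ‖ ≤ (1 / 2) ^ k → (n : ℝ) ≤ K * k →
    (k : ℝ) / 2 - 2 ≤ (((Finset.range k).filter (fun j : ℕ => ∃ i ≤ n, qd (y i) ((1 - (1 / 2) ^ j : ℝ) * ξ) ≤ D)).card : ℝ) := by
  obtain ⟨τ, hτdef⟩ : ∃ τ : ℝ, τ = 1 / (4 * K + 6) := ⟨_, rfl⟩
  have hτ : 0 < τ := by rw [hτdef]; positivity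
  have hτ1 : τ ≤ 1 / 2 := by
    rw [hτdef]
    exact one_div_le_one_div_of_le (by norm_num) (by linarith)
  have hτ2 : 1 / τ - 2 = 4 * K + 4 := by
    rw [hτdef, one_div_one_div]; ring
  obtain ⟨s, hsdef⟩ : ∃ s : ℝ, s = 1 - (2 : ℝ) ^ (-τ) := ⟨_, rfl⟩
  have hs : 0 < s := by
    rw [hsdef, sub_pos]
    exact Real.rpow_lt_one_of_one_lt_of_neg (by norm_num) (by linarith)
  have h1s : 1 - s = (2 : ℝ) ^ (-τ) := by rw [hsdef]; ring
  obtain ⟨σ, hσdef⟩ : ∃ σ : ℝ, σ = s / (4 * Q) := ⟨_, rfl⟩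
  have hQ0 : 0 < Q := by linarith
  have hσ : 0 < σ := by rw [hσdef]; positivity
  have hσ1 : 4 * Q * σ = s := by rw [hσdef]; field_simp
  obtain ⟨B, hBdef⟩ : ∃ B : ℝ, B = Real.logb 2 (1 + 4 * Q) + 1 := ⟨_, rfl⟩
  have hlog : 0 ≤ Real.logb 2 (1 + 4 * Q) := Real.logb_nonneg (by norm_num) (by linarith)
  have hB : 1 ≤ B := by rw [hBdef]; linarith
  refine ⟨(2 * (2 : ℝ) ^ (B + 2) + 2) / (4 * σ), ?_⟩
  intro ξ n k y hξ hy hy0 hst hn hnk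
  obtain ⟨η, hη⟩ : ∃ η : ℕ → ℂ, ∀ i, η i = (ξ - y i) / (ξ + y i) := ⟨_, fun i => rfl⟩
  have hre : ∀ i, 0 < (η i).re := by
    intro i
    rw [hη]
    exact (qd_half ξ (y i) (y i) hξ (hy i) (hy i)).1
  have hpos : ∀ i, 0 < ‖η i‖ := fun i => lt_of_lt_of_le (hre i) (Complex.re_le_norm _)
  have hqd : ∀ i j, qd (y i) (y j) = ‖η i + starRingEnd ℂ (η j)‖ ^ 2 / (4 * (η i).re * (η j).re) := by
    intro i j
    rw [hη, hη]
    exact (qd_half ξ (y i) (y j) hξ (hy i) (hy j)).2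
  have hstep : ∀ i < n, ‖η i - η (i + 1)‖ ≤ 4 * Q * (η i).re ∧ ‖η i - η (i + 1)‖ ≤ 4 * Q * (η (i + 1)).re := by
    intro i hi
    refine half_step _ _ Q hQ (hre i) (hre (i + 1)) ?_
    have h3 := hst i hi
    have h4 := hre i
    have h5 := hre (i + 1)
    rw [hqd, div_le_iff₀ (by positivity)] at h3
    exact h3
  have hne : ∀ z : ℂ, ‖z‖ < 1 → ξ + z ≠ 0 := by
    intro z hz h
    have h1 : ξ = -z := eq_neg_of_add_eq_zero_left h
    rw [h1, norm_neg] at hξ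
    linarith
  -- the chain lemma
  have h0 : -Real.logb 2 ‖η 0‖ = 0 := by
    have hξ0 : ξ ≠ 0 := by
      intro h
      rw [h, norm_zero] at hξ
      exact absurd hξ (by norm_num)
    rw [hη, hy0, sub_zero, add_zero, div_self hξ0]
    simp
  have hk : (k : ℝ) ≤ -Real.logb 2 ‖η n‖ := by
    have hle1 : ((1 : ℝ) / 2) ^ k ≤ 1 := pow_le_one₀ (by norm_num) (by norm_num)
    have h3 : 1 ≤ ‖ξ + y n‖ := by
      have h4 : ‖(2 : ℂ) * ξ‖ = 2 := by rw [norm_mul, hξ]; norm_num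
      have h5 : (2 : ℂ) * ξ = (ξ + y n) - (y n - ξ) := by ring
      have h6 := norm_sub_le (ξ + y n) (y n - ξ)
      rw [← h5, h4] at h6
      linarith
    have h4 : ‖η n‖ ≤ (1 / 2) ^ k := by
      rw [hη, norm_div, norm_sub_rev]
      exact (div_le_self (norm_nonneg _) h3).trans hn
    rw [chn_pow, ← Real.logb_le_iff_le_rpow (by norm_num) (hpos n)] at h4
    linarith
  have hstepB : ∀ i < n, -Real.logb 2 ‖η (i + 1)‖ - -Real.logb 2 ‖η i‖ ≤ B := by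
    intro i hi
    have h3 := (hstep i hi).2
    have h4 : ‖η i‖ ≤ (1 + 4 * Q) * ‖η (i + 1)‖ := by
      have h5 : ‖η i‖ ≤ ‖η i - η (i + 1)‖ + ‖η (i + 1)‖ := by
        have := norm_add_le (η i - η (i + 1)) (η (i + 1))
        rwa [sub_add_cancel] at this
      have h6 : 4 * Q * (η (i + 1)).re ≤ 4 * Q * ‖η (i + 1)‖ := by
        have := Complex.re_le_norm (η (i + 1))
        gcongr
      linarith
    have h5 : Real.logb 2 ‖η i‖ ≤ Real.logb 2 (1 + 4 * Q) + Real.logb 2 ‖η (i + 1)‖ := by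
      rw [← Real.logb_mul (by linarith) (hpos _).ne']
      exact Real.logb_le_logb_of_le (by norm_num) (hpos i) h4
    rw [hBdef]
    linarith
  have hstepT : ∀ i < n, ¬ (σ * ‖η i‖ ≤ (η i).re) → -Real.logb 2 ‖η (i + 1)‖ - -Real.logb 2 ‖η i‖ ≤ τ := by
    intro i hi hm
    push Not at hm
    have h3 := (hstep i hi).1
    have h4 : (1 - s) * ‖η i‖ ≤ ‖η (i + 1)‖ := by
      have h5 : ‖η i‖ ≤ ‖η i - η (i + 1)‖ + ‖η (i + 1)‖ := by
        have := norm_add_le (η i - η (i + 1)) (η (i + 1))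
        rwa [sub_add_cancel] at this
      have h6 : 4 * Q * (η i).re ≤ 4 * Q * (σ * ‖η i‖) := by gcongr
      have h7 : 4 * Q * (σ * ‖η i‖) = s * ‖η i‖ := by rw [← hσ1]; ring
      linarith
    have h5 : -τ + Real.logb 2 ‖η i‖ ≤ Real.logb 2 ‖η (i + 1)‖ := by
      rw [h1s] at h4
      have h6 : Real.logb 2 ((2 : ℝ) ^ (-τ) * ‖η i‖) = -τ + Real.logb 2 ‖η i‖ := by
        rw [Real.logb_mul (by positivity) (hpos i).ne', Real.logb_rpow (by norm_num) (by norm_num)]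
      rw [← h6]
      exact Real.logb_le_logb_of_le (by norm_num) (mul_pos (by positivity) (hpos i)) h4
    linarith
  have hch := chain_abs n k (fun i => -Real.logb 2 ‖η i‖) (fun i => σ * ‖η i‖ ≤ (η i).re) B τ hB hτ hτ1 h0 hk hstepB hstepT
  -- good levels
  have hsub : (Finset.range k).filter (fun j : ℕ => ∃ i ≤ n, σ * ‖η i‖ ≤ (η i).re ∧ |-Real.logb 2 ‖η i‖ - j| ≤ B + 1) ⊆
      (Finset.range k).filter (fun j : ℕ => ∃ i ≤ n, qd (y i) ((1 - (1 / 2) ^ j : ℝ) * ξ) ≤ (2 * (2 : ℝ) ^ (B + 2) + 2) / (4 * σ)) := by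
    intro j hj
    rw [Finset.mem_filter] at hj ⊢
    obtain ⟨hj1, i, hi, hm, ha⟩ := hj
    refine ⟨hj1, i, hi, ?_⟩
    have hδ0 : 0 < ((1 : ℝ) / 2) ^ j := by positivity
    have hδ1 : ((1 : ℝ) / 2) ^ j ≤ 1 := pow_le_one₀ (by norm_num) (by norm_num)
    obtain ⟨δ, hδ⟩ : ∃ δ : ℝ, δ = (1 / 2) ^ j := ⟨_, rfl⟩
    rw [← hδ] at hδ0 hδ1 ⊢
    have hwn : ‖((1 - δ : ℝ) : ℂ) * ξ‖ < 1 := by
      rw [norm_mul, hξ, mul_one, Complex.norm_real, Real.norm_eq_abs, abs_of_nonneg (by linarith)]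
      linarith
    have hq := (qd_half ξ (y i) (((1 - δ : ℝ) : ℂ) * ξ) hξ (hy i) hwn).2
    have hw0 : ξ + ((1 - δ : ℝ) : ℂ) * ξ ≠ 0 := hne _ hwn
    have h2δ : 0 < 2 - δ := by linarith
    have hcoord : (ξ - ((1 - δ : ℝ) : ℂ) * ξ) / (ξ + ((1 - δ : ℝ) : ℂ) * ξ) = ((δ / (2 - δ) : ℝ) : ℂ) := by
      have h3 : (2 - (δ : ℂ)) ≠ 0 := by
        have : ((2 - δ : ℝ) : ℂ) ≠ 0 := by exact_mod_cast h2δ.ne'
        simpa using this
      rw [div_eq_iff hw0]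
      push_cast
      field_simp
      ring
    rw [hcoord, ← hη i, Complex.ofReal_re] at hq
    rw [hq]
    have hv0 : 0 < δ / (2 - δ) := by positivity
    have hv1 : δ / (2 - δ) ≤ δ := by
      rw [div_le_iff₀ h2δ]
      nlinarith
    have hv2 : δ ≤ 2 * (δ / (2 - δ)) := by
      rw [← mul_div_assoc, le_div_iff₀ h2δ]
      nlinarith
    rw [abs_le] at ha
    have hBB : (2 : ℝ) ^ (B + 2) = 2 * (2 : ℝ) ^ (B + 1) := by
      rw [show B + 2 = B + 1 + 1 by ring, Real.rpow_add_one (by norm_num)]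
      ring
    have hup : ‖η i‖ ≤ (2 : ℝ) ^ (B + 1) * δ := by
      have h3 : Real.logb 2 ‖η i‖ ≤ (B + 1) + -(j : ℝ) := by linarith [ha.1]
      rw [Real.logb_le_iff_le_rpow (by norm_num) (hpos i), Real.rpow_add (by norm_num), ← chn_pow, ← hδ] at h3
      exact h3
    have hlo : δ ≤ (2 : ℝ) ^ (B + 1) * ‖η i‖ := by
      have h3 : -(j : ℝ) + -(B + 1) ≤ Real.logb 2 ‖η i‖ := by linarith [ha.2]
      rw [Real.le_logb_iff_rpow_le (by norm_num) (hpos i), Real.rpow_add (by norm_num), ← chn_pow, ← hδ,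
        Real.rpow_neg (by norm_num), ← div_eq_mul_inv, div_le_iff₀ (by positivity)] at h3
      linarith
    have hP : 0 < (2 : ℝ) ^ (B + 1) := by positivity
    refine chn_bound (η i) (δ / (2 - δ)) _ σ hσ hv0 (hpos i) hm ?_ ?_
    · rw [hBB]
      calc ‖η i‖ ≤ (2 : ℝ) ^ (B + 1) * δ := hup
        _ ≤ (2 : ℝ) ^ (B + 1) * (2 * (δ / (2 - δ))) := by gcongr
        _ = 2 * (2 : ℝ) ^ (B + 1) * (δ / (2 - δ)) := by ring
    · rw [hBB]
      have h3 : (2 : ℝ) ^ (B + 1) * ‖η i‖ ≤ 2 * (2 : ℝ) ^ (B + 1) * ‖η i‖ := by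
        have := mul_pos hP (hpos i)
        linarith
      linarith
  have hcard := Finset.card_le_card hsub
  have hcard' : (((Finset.range k).filter (fun j : ℕ => ∃ i ≤ n, σ * ‖η i‖ ≤ (η i).re ∧ |-Real.logb 2 ‖η i‖ - j| ≤ B + 1)).card : ℝ) ≤
      (((Finset.range k).filter (fun j : ℕ => ∃ i ≤ n, qd (y i) ((1 - (1 / 2) ^ j : ℝ) * ξ) ≤ (2 * (2 : ℝ) ^ (B + 2) + 2) / (4 * σ))).card : ℝ) := by
    exact_mod_cast hcard
  refine le_trans ?_ hcard'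
  rw [hτ2] at hch
  obtain ⟨g, hg⟩ : ∃ g : ℝ, g = (((Finset.range k).filter (fun j : ℕ => ∃ i ≤ n, σ * ‖η i‖ ≤ (η i).re ∧ |-Real.logb 2 ‖η i‖ - j| ≤ B + 1)).card : ℝ) := ⟨_, rfl⟩
  rw [← hg] at hch ⊢
  have hk0 : (0 : ℝ) ≤ k := Nat.cast_nonneg k
  by_contra hcon
  push Not at hcon
  have h7 : (4 * K + 4) * ((k : ℝ) / 2 + 1) < (4 * K + 4) * ((k : ℝ) - 1 - g) := by
    apply mul_lt_mul_of_pos_left _ (by linarith)
    linarith
  nlinarith [mul_nonneg hK.le hk0]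

end Pool.Agent.DD
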