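import Pool.Agent.Lib_MP_644907_full.GeoA

/-!
# Piece CHAIN1: chains which reach the boundary quickly stay close to the radius most of the time
-/

set_option autoImplicit false

namespace Pool.Agent.DD

private theorem ch_ne (ξ z : ℂ) (hξ : ‖ξ‖ = 1) (hz : ‖z‖ < 1) : ξ + z ≠ 0 := by
  intro h
  have h1 : ξ = -z := eq_neg_of_add_eq_zero_left h
  rw [h1, norm_neg] at hξ
  linarith

private theorem ch_re (ξ z : ℂ) (hξ : ‖ξ‖ = 1) (hz : ‖z‖ < 1) :
    ((ξ - z) / (ξ + z)).re = (1 - ‖z‖ ^ 2) / ‖ξ + z‖ ^ 2 := by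
  have h0 := ch_ne ξ z hξ hz
  have h1 : Complex.normSq ξ = 1 := by rw [Complex.normSq_eq_norm_sq, hξ]; norm_num
  rw [Complex.div_re, ← Complex.normSq_eq_norm_sq, ← Complex.normSq_eq_norm_sq, ← add_div, ← h1]
  congr 1
  rw [Complex.normSq_apply, Complex.normSq_apply]
  simp only [Complex.sub_re, Complex.sub_im, Complex.add_re, Complex.add_im]
  ring

/-- half plane coordinate `η = (ξ - z) / (ξ + z)`: `Re η = (1 - |z|²) / |ξ + z|² > 0`, `qd z z' = |η + conj η'|² / (4 Re η Re η')` -/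
theorem qd_half (ξ z w : ℂ) (hξ : ‖ξ‖ = 1) (hz : ‖z‖ < 1) (hw : ‖w‖ < 1) :
    0 < ((ξ - z) / (ξ + z)).re ∧
    qd z w = ‖(ξ - z) / (ξ + z) + starRingEnd ℂ ((ξ - w) / (ξ + w))‖ ^ 2 / (4 * ((ξ - z) / (ξ + z)).re * ((ξ - w) / (ξ + w)).re) := by
  have hz0 := ch_ne ξ z hξ hz
  have hw0 := ch_ne ξ w hξ hw
  have hz1 : 0 < ‖ξ + z‖ := norm_pos_iff.2 hz0
  have hw1 : 0 < ‖ξ + w‖ := norm_pos_iff.2 hw0
  have hz2 : 0 < 1 - ‖z‖ ^ 2 := by nlinarith [norm_nonneg z]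
  have hw2 : 0 < 1 - ‖w‖ ^ 2 := by nlinarith [norm_nonneg w]
  have hre := ch_re ξ z hξ hz
  have hre' := ch_re ξ w hξ hw
  refine ⟨by rw [hre]; positivity, ?_⟩
  have hone : ξ * starRingEnd ℂ ξ = 1 := by
    rw [Complex.mul_conj, Complex.normSq_eq_norm_sq, hξ]; norm_num
  have hwc : starRingEnd ℂ (ξ + w) ≠ 0 := by
    rw [Ne, map_eq_zero]; exact hw0
  have hwc' : starRingEnd ℂ ξ + starRingEnd ℂ w ≠ 0 := by
    rw [← map_add]; exact hwc
  have hsum : (ξ - z) / (ξ + z) + starRingEnd ℂ ((ξ - w) / (ξ + w)) =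
      2 * (1 - z * starRingEnd ℂ w) / ((ξ + z) * starRingEnd ℂ (ξ + w)) := by
    rw [map_div₀, map_add, map_sub, div_add_div _ _ hz0 hwc']
    congr 1
    linear_combination 2 * hone
  rw [hsum, hre, hre', norm_div, norm_mul, norm_mul, RCLike.norm_conj]
  have hn : ‖1 - z * starRingEnd ℂ w‖ = ‖1 - starRingEnd ℂ z * w‖ := by
    rw [← RCLike.norm_conj (1 - z * starRingEnd ℂ w)]
    congr 1
    simp
  rw [hn]
  have h2 : ‖(2 : ℂ)‖ = 2 := by norm_num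
  rw [h2]
  unfold qd
  field_simp
  norm_num

/-- steps in the half plane: `Re η' ≤ 4 Q Re η` (from `|η + conj η'| ≥ Re η + Re η'`) and `|η - η'|² = |η + conj η'|² - 4 Re η Re η' ≤ 4 Q Re η Re η'`, so `|η - η'| ≤ 4 Q Re η` -/
theorem half_step (η η' : ℂ) (Q : ℝ) (hQ : 1 ≤ Q) (h1 : 0 < η.re) (h2 : 0 < η'.re)
    (h : ‖η + starRingEnd ℂ η'‖ ^ 2 ≤ Q * (4 * η.re * η'.re)) : ‖η - η'‖ ≤ 4 * Q * η.re ∧ ‖η - η'‖ ≤ 4 * Q * η'.re := by
  rw [← Complex.normSq_eq_norm_sq, Complex.normSq_apply] at h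
  simp only [Complex.add_re, Complex.add_im, Complex.conj_re, Complex.conj_im] at h
  have hd : ‖η - η'‖ ^ 2 = (η.re - η'.re) * (η.re - η'.re) + (η.im - η'.im) * (η.im - η'.im) := by
    rw [← Complex.normSq_eq_norm_sq, Complex.normSq_apply]
    simp only [Complex.sub_re, Complex.sub_im]
  have hle : ‖η - η'‖ ^ 2 ≤ 4 * Q * (η.re * η'.re) := by
    rw [hd]
    nlinarith [mul_pos h1 h2]
  have hq : 0 < Q := by linarith
  have ha : η'.re ≤ 4 * Q * η.re := by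
    by_contra hcon
    push Not at hcon
    have h3 : 4 * Q * η.re * η'.re < η'.re * η'.re := mul_lt_mul_of_pos_right hcon h2
    nlinarith [mul_pos h1 h2, mul_self_nonneg (η.im + -η'.im), mul_self_nonneg η.re]
  have hb : η.re ≤ 4 * Q * η'.re := by
    by_contra hcon
    push Not at hcon
    have h3 : 4 * Q * η'.re * η.re < η.re * η.re := mul_lt_mul_of_pos_right hcon h1
    nlinarith [mul_pos h1 h2, mul_self_nonneg (η.im + -η'.im), mul_self_nonneg η'.re]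
  constructor
  · refine le_of_sq_le_sq ?_ (by positivity)
    calc ‖η - η'‖ ^ 2 ≤ 4 * Q * (η.re * η'.re) := hle
      _ ≤ 4 * Q * (η.re * (4 * Q * η.re)) := by gcongr
      _ = (4 * Q * η.re) ^ 2 := by ring
  · refine le_of_sq_le_sq ?_ (by positivity)
    calc ‖η - η'‖ ^ 2 ≤ 4 * Q * (η.re * η'.re) := hle
      _ ≤ 4 * Q * ((4 * Q * η'.re) * η'.re) := by gcongr
      _ = (4 * Q * η'.re) ^ 2 := by ring

end Pool.Agent.DD
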