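import Pool.Agent.Lib_MP_644907_full.Grp1

/-!
# Piece MEAS1: stationary measures, elementary properties
-/

set_option autoImplicit false

namespace Pool.Agent.DD

open MeasureTheory Filter Topology Metric

variable {Γ : Type} [Group Γ] [MulAction Γ ℂ] {ι : Type} [Fintype ι] {ν : Measure ℂ}

/-- `ν ((x •)⁻¹ A) = ∑ p_i ν ((x g_i •)⁻¹ A)` (`Stat.stat` for the measurable set `(x •)⁻¹ A`, `Fuchs.meas`) -/
theorem hm_avg (h : Fuchs Γ) (W : PreWalk Γ ι) (hν : Stat W ν) (x : Γ) (A : Set ℂ) (hA : MeasurableSet A) :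
    hm ν x A = ∑ i, W.p i * hm ν (x * W.g i) A := by
  have := hν.prob
  unfold hm
  rw [measureReal_def, hν.stat _ (h.meas x hA), ENNReal.toReal_sum (fun i _ =>
    ENNReal.mul_ne_top ENNReal.ofReal_ne_top (measure_ne_top _ _))]
  refine Finset.sum_congr rfl fun i _ => ?_
  rw [ENNReal.toReal_mul, ENNReal.toReal_ofReal (W.pos i).le, measureReal_def]
  congr 3
  ext z
  simp only [Set.mem_preimage, mul_smul]

/-- bounded measurable (on the circle) functions: `∫ f dν = ∑ p_i ∫ f (g_i z) dν`, as `ν = ∑ ofReal p_i • ν.map (g_i •)`. Here `f` is measurable and bounded. -/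
theorem U_avg (h : Fuchs Γ) (W : PreWalk Γ ι) (hν : Stat W ν) (x : Γ) (f : ℂ → ℝ) (hf : Measurable f) (C : ℝ) (hC : ∀ z, |f z| ≤ C) :
    U ν f x = avg W (U ν f) x := by
  have := hν.prob
  have hνeq : ν = ∑ i, ENNReal.ofReal (W.p i) • ν.map (fun z : ℂ => W.g i • z) := by
    ext A hA
    rw [hν.stat A hA, Measure.finsetSum_apply]
    refine Finset.sum_congr rfl fun i _ => ?_
    rw [Measure.smul_apply, Measure.map_apply (h.meas (W.g i)) hA, smul_eq_mul]
  have hF : Measurable (fun z : ℂ => f (x • z)) := hf.comp (h.meas x)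
  unfold avg U
  conv_lhs => rw [hνeq]
  rw [integral_finsetSum_measure]
  · refine Finset.sum_congr rfl fun i _ => ?_
    rw [integral_smul_measure, ENNReal.toReal_ofReal (W.pos i).le, smul_eq_mul,
      integral_map (h.meas (W.g i)).aemeasurable hF.aestronglyMeasurable]
    simp only [mul_smul]
  · intro i _
    refine Integrable.smul_measure ?_ ENNReal.ofReal_ne_top
    have : IsFiniteMeasure (ν.map (fun z : ℂ => W.g i • z)) := Measure.isFiniteMeasure_map ν _
    refine Integrable.of_bound hF.aestronglyMeasurable C (Eventually.of_forall fun z => ?_)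
    rw [Real.norm_eq_abs]
    exact hC _

theorem hm_nonneg (ν : Measure ℂ) (x : Γ) (A : Set ℂ) : 0 ≤ hm ν x A := measureReal_nonneg

theorem hm_le_one (W : PreWalk Γ ι) (hν : Stat W ν) (x : Γ) (A : Set ℂ) : hm ν x A ≤ 1 := by
  have := hν.prob
  exact measureReal_le_one

theorem hm_mono (W : PreWalk Γ ι) (hν : Stat W ν) (x : Γ) {A B : Set ℂ} (hAB : A ⊆ B) : hm ν x A ≤ hm ν x B := by
  have := hν.prob
  exact measureReal_mono (Set.preimage_mono hAB)

theorem hm_add_compl (h : Fuchs Γ) (W : PreWalk Γ ι) (hν : Stat W ν) (x : Γ) (A : Set ℂ) (hA : MeasurableSet A) :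
    hm ν x A + hm ν x Aᶜ = 1 := by
  have := hν.prob
  unfold hm
  rw [Set.preimage_compl]
  exact probReal_add_probReal_compl (h.meas x hA)

/-- only the part of `A` on the circle matters -/
theorem hm_inter_sphere (h : Fuchs Γ) (W : PreWalk Γ ι) (hν : Stat W ν) (x : Γ) (A : Set ℂ) :
    hm ν x A = hm ν x (A ∩ sphere 0 1) := by
  unfold hm
  have h1 : (fun z : ℂ => x • z) ⁻¹' (A ∩ sphere 0 1) = ((fun z : ℂ => x • z) ⁻¹' A) ∩ sphere 0 1 := by
    ext z
    simp only [Set.mem_preimage, Set.mem_inter_iff, mem_sphere_zero_iff_norm, h.smul_mem_sphere]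
  rw [h1, measureReal_def, measureReal_def, measure_inter_conull hν.supp]

/-- two functions which agree on the circle have the same integrals -/
theorem U_congr (h : Fuchs Γ) (W : PreWalk Γ ι) (hν : Stat W ν) (x : Γ) (f g : ℂ → ℝ) (hfg : ∀ z, ‖z‖ = 1 → f z = g z) :
    U ν f x = U ν g x := by
  unfold U
  refine integral_congr_ae ?_
  have h1 : ∀ᵐ z ∂ν, z ∈ sphere (0 : ℂ) 1 := hν.supp
  filter_upwards [h1] with z hz
  rw [mem_sphere_zero_iff_norm] at hz
  exact hfg _ (h.norm_eq x hz)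

theorem meas1_ind (h : Fuchs Γ) (ν : Measure ℂ) (x : Γ) (A : Set ℂ) (hA : MeasurableSet A) (M : ℝ) :
    ∫ z, ((fun z : ℂ => x • z) ⁻¹' A).indicator (fun _ => M) z ∂ν = M * hm ν x A := by
  rw [integral_indicator_const _ (h.meas x hA), smul_eq_mul, mul_comm]
  rfl

/-- `f` measurable with `|f| ≤ M 1_A` on the circle -/
theorem U_le_hm (h : Fuchs Γ) (W : PreWalk Γ ι) (hν : Stat W ν) (x : Γ) (f : ℂ → ℝ) (hf : Measurable f) (A : Set ℂ) (hA : MeasurableSet A)
    (M : ℝ) (hM : 0 ≤ M) (h1 : ∀ z, ‖z‖ = 1 → z ∈ A → f z ≤ M) (h2 : ∀ z, ‖z‖ = 1 → z ∉ A → f z ≤ 0) : U ν f x ≤ M * hm ν x A := by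
  have := hν.prob
  by_cases hi : Integrable (fun z => f (x • z)) ν
  · rw [← meas1_ind h ν x A hA M]
    unfold U
    refine integral_mono_ae hi ((integrable_const M).indicator (h.meas x hA)) ?_
    have h3 : ∀ᵐ z ∂ν, z ∈ sphere (0 : ℂ) 1 := hν.supp
    filter_upwards [h3] with z hz
    rw [mem_sphere_zero_iff_norm] at hz
    have h4 := h.norm_eq x hz
    by_cases h5 : x • z ∈ A
    · rw [Set.indicator_of_mem (show z ∈ (fun z : ℂ => x • z) ⁻¹' A from h5)]
      exact h1 _ h4 h5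
    · rw [Set.indicator_of_notMem (show z ∉ (fun z : ℂ => x • z) ⁻¹' A from h5)]
      exact h2 _ h4 h5
  · unfold U
    rw [integral_undef hi]
    exact mul_nonneg hM (hm_nonneg ν x A)

/-- `f` measurable bounded, `f ≥ 1` on `A`, `f ≥ 0` -/
theorem hm_le_U (h : Fuchs Γ) (W : PreWalk Γ ι) (hν : Stat W ν) (x : Γ) (f : ℂ → ℝ) (hf : Measurable f) (C : ℝ) (hC : ∀ z, |f z| ≤ C)
    (A : Set ℂ) (hA : MeasurableSet A) (h1 : ∀ z, ‖z‖ = 1 → z ∈ A → 1 ≤ f z) (h2 : ∀ z, ‖z‖ = 1 → 0 ≤ f z) : hm ν x A ≤ U ν f x := by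
  have := hν.prob
  have hi : Integrable (fun z => f (x • z)) ν := by
    refine Integrable.of_bound (hf.comp (h.meas x)).aestronglyMeasurable C (Eventually.of_forall fun z => ?_)
    rw [Real.norm_eq_abs]
    exact hC _
  rw [← one_mul (hm ν x A), ← meas1_ind h ν x A hA 1]
  unfold U
  refine integral_mono_ae ((integrable_const (1 : ℝ)).indicator (h.meas x hA)) hi ?_
  have h3 : ∀ᵐ z ∂ν, z ∈ sphere (0 : ℂ) 1 := hν.supp
  filter_upwards [h3] with z hz
  rw [mem_sphere_zero_iff_norm] at hz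
  have h4 := h.norm_eq x hz
  by_cases h5 : x • z ∈ A
  · rw [Set.indicator_of_mem (show z ∈ (fun z : ℂ => x • z) ⁻¹' A from h5)]
    exact h1 _ h4 h5
  · rw [Set.indicator_of_notMem (show z ∉ (fun z : ℂ => x • z) ⁻¹' A from h5)]
    exact h2 _ h4

end Pool.Agent.DD
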