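import Pool.Agent.Lib_MP_644907_full.Minimal
import Pool.Agent.Lib_MP_644907_full.Meas1

/-!
# Piece CONFL: conformal measures, elementary properties
-/

set_option autoImplicit false

namespace Pool.Agent.DD

open MeasureTheory Filter Topology Metric

variable {Γ : Type} [Group Γ] [MulAction Γ ℂ] {m : Measure ℂ} {s : ℝ}

private theorem confl_meas (z : ℂ) (s : ℝ) : Measurable fun ξ : ℂ => ENNReal.ofReal (pk z ξ ^ s) := by
  unfold pk
  fun_prop

private theorem confl_map (h : Fuchs Γ) (hcf : Conf Γ m s) (x : Γ) :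
    m.map (fun z : ℂ => x • z) = m.withDensity fun ξ : ℂ => ENNReal.ofReal (pk (x • (0 : ℂ)) ξ ^ s) := by
  refine Measure.ext fun A hA => ?_
  rw [Measure.map_apply (h.meas x) hA, withDensity_apply _ hA]
  exact hcf.conf x A hA

/-- the image of `m` under `x •` has the density `pk (x 0)^s` (`Conf.conf`; `lintegral_map`, `lintegral_withDensity_eq_lintegral_mul`) -/
theorem conf_lint (h : Fuchs Γ) (hcf : Conf Γ m s) (x : Γ) (F : ℂ → ENNReal) (hF : Measurable F) :
    ∫⁻ z, F (x • z) ∂m = ∫⁻ ξ, F ξ * ENNReal.ofReal (pk (x • (0 : ℂ)) ξ ^ s) ∂m := by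
  rw [← lintegral_map (f := F) hF (h.meas x), confl_map h hcf x, lintegral_withDensity_eq_lintegral_mul m (confl_meas _ s) hF]
  refine lintegral_congr fun ξ => ?_
  rw [Pi.mul_apply, mul_comm]

private theorem confl_sph (hcf : Conf Γ m s) : m (sphere (0 : ℂ) 1)ᶜ = 0 :=
  measure_mono_null (Set.compl_subset_compl.2 (Set.inter_subset_right)) hcf.supp

/-- for functions continuous on the circle (bounded there; `m` is carried by the circle) -/
theorem conf_int (h : Fuchs Γ) (hcf : Conf Γ m s) (x : Γ) (f : ℂ → ℝ) (hf : ContinuousOn f (sphere 0 1)) :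
    ∫ z, f (x • z) ∂m = ∫ ξ, f ξ * pk (x • (0 : ℂ)) ξ ^ s ∂m := by
  have hz : (m.map (fun z : ℂ => x • z)) (sphere (0 : ℂ) 1)ᶜ = 0 := by
    rw [Measure.map_apply (h.meas x) isClosed_sphere.measurableSet.compl]
    refine measure_mono_null ?_ (confl_sph hcf)
    intro z hz
    rw [Set.mem_compl_iff, mem_sphere_zero_iff_norm]
    intro h1
    apply hz
    rw [mem_sphere_zero_iff_norm]
    exact h.norm_eq x h1
  have hae : ∀ᵐ z ∂(m.map (fun z : ℂ => x • z)), z ∈ sphere (0 : ℂ) 1 := hz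
  have hm : AEStronglyMeasurable f (m.map (fun z : ℂ => x • z)) := by
    have h1 := hf.aestronglyMeasurable (μ := m.map (fun z : ℂ => x • z)) isClosed_sphere.measurableSet
    rwa [Measure.restrict_eq_self_of_ae_mem hae] at h1
  rw [← integral_map (φ := fun z : ℂ => x • z) (h.meas x).aemeasurable hm, confl_map h hcf x,
    integral_withDensity_eq_integral_toReal_smul (confl_meas _ s) (Filter.Eventually.of_forall fun ξ => ENNReal.ofReal_lt_top)]
  refine integral_congr_ae (Filter.Eventually.of_forall fun ξ => ?_)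
  change (ENNReal.ofReal (pk (x • (0 : ℂ)) ξ ^ s)).toReal • f ξ = f ξ * pk (x • (0 : ℂ)) ξ ^ s
  have hpk : 0 ≤ pk (x • (0 : ℂ)) ξ := by
    unfold pk
    have := h.norm0 x
    have h2 : 0 ≤ 1 - ‖x • (0 : ℂ)‖ ^ 2 := by nlinarith [norm_nonneg (x • (0 : ℂ))]
    positivity
  rw [ENNReal.toReal_ofReal (Real.rpow_nonneg hpk s), smul_eq_mul, mul_comm]

/-- if `m (U) = 0` for an open set `U` which meets the limit set then (by `Conf.conf`) `m {z | x z ∈ U} = 0` for all `x`; these countably many sets cover the limit set (`orbit_dense`: every `c ∈ Lim Γ` has `x c ∈ U` for some `x`), so `m = 0`, contradiction -/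
theorem conf_pos (h : Fuchs Γ) (hL : (Lim Γ).Infinite) (hcf : Conf Γ m s) (U : Set ℂ) (hU : IsOpen U) (hUL : (U ∩ Lim Γ).Nonempty) : 0 < m U := by
  by_contra hc
  have hc0 : m U = 0 := nonpos_iff_eq_zero.1 (not_lt.1 hc)
  obtain ⟨a, haU, haL⟩ := hUL
  obtain ⟨ε, hε, hball⟩ := Metric.isOpen_iff.1 hU a haU
  have := h.countable
  have h1 : ∀ x : Γ, m ((fun z : ℂ => x • z) ⁻¹' U) = 0 := by
    intro x
    rw [hcf.conf x U hU.measurableSet]
    exact setLIntegral_measure_zero _ _ hc0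
  have h2 : Lim Γ ⊆ ⋃ x : Γ, (fun z : ℂ => x • z) ⁻¹' U := by
    intro c hcL
    obtain ⟨γ, hγ⟩ := orbit_dense h hL a c haL (mem_sphere_zero_iff_norm.1 hcL.2) ε hε
    refine Set.mem_iUnion.2 ⟨γ, hball ?_⟩
    rw [mem_ball, dist_eq_norm]
    exact hγ
  have h3 : m (Lim Γ) = 0 := measure_mono_null h2 (measure_iUnion_null h1)
  apply hcf.ne
  rw [← Measure.measure_univ_eq_zero, ← Set.union_compl_self (Lim Γ)]
  exact measure_union_null h3 hcf.supp

private theorem confl_compact : IsCompact (Lim Γ) :=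
  (isCompact_sphere (0 : ℂ) 1).of_isClosed_subset Fuchs.lim_closed Set.inter_subset_right

/-- compactness of the limit set and `conf_pos`: finitely many balls `ball b_i (ρ/2)` cover the limit set -/
theorem conf_lower (h : Fuchs Γ) (hL : (Lim Γ).Infinite) (hcf : Conf Γ m s) (ρ : ℝ) (hρ : 0 < ρ) : ∃ c : ℝ, 0 < c ∧ ∀ b ∈ Lim Γ, c ≤ m.real (ball b ρ) := by
  have := hcf.fin
  obtain ⟨t, htL, htf, hcov⟩ := (confl_compact (Γ := Γ)).finite_cover_balls (e := ρ / 2) (by positivity)
  obtain ⟨a, ha⟩ := hL.nonempty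
  have htne : t.Nonempty := by
    obtain ⟨i, hi, _⟩ := Set.mem_iUnion₂.1 (hcov ha)
    exact ⟨i, hi⟩
  obtain ⟨b₀, hb₀, hmin⟩ := Set.exists_min_image t (fun b => m.real (ball b (ρ / 2))) htf htne
  refine ⟨m.real (ball b₀ (ρ / 2)), ?_, fun b hb => ?_⟩
  · refine ENNReal.toReal_pos (ne_of_gt ?_) (measure_ne_top m _)
    exact conf_pos h hL hcf _ isOpen_ball ⟨b₀, mem_ball_self (by positivity), htL hb₀⟩
  · obtain ⟨i, hi, hbi⟩ := Set.mem_iUnion₂.1 (hcov hb)
    refine (hmin i hi).trans (measureReal_mono (ball_subset_ball' ?_) (measure_ne_top m _))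
    rw [mem_ball, dist_comm] at hbi
    linarith

/-- The same positivity for stationary measures: `ν (U) = 0`, then `hm ν (g_i) U = 0` for all `i` (`hm_avg` at `x = 1`), hence `hm ν x U = 0` for all `x ∈ Γ` (semigroup generation: the set of `x` with `hm ν x U = 0` is stable under right multiplication by `g_i`), and the sets `{z | x z ∈ U}` cover the limit set, but `ν (Lim Γ)ᶜ = 0`. -/
theorem stat_pos {ι : Type} [Fintype ι] {ν : Measure ℂ} (h : Fuchs Γ) (hL : (Lim Γ).Infinite) (W : Walk Γ ι) (hν : Stat W.toPreWalk ν) (hνL : ν (Lim Γ)ᶜ = 0)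
    (U : Set ℂ) (hU : IsOpen U) (hUL : (U ∩ Lim Γ).Nonempty) (x : Γ) : 0 < hm ν x U := by
  have := hν.prob
  by_contra hc
  have hc0 : hm ν x U = 0 := le_antisymm (not_lt.1 hc) (hm_nonneg ν x U)
  have hstep : ∀ y : Γ, hm ν y U = 0 → ∀ i, hm ν (y * W.g i) U = 0 := by
    intro y hy i
    have h1 := hm_avg h W.toPreWalk hν y U hU.measurableSet
    rw [hy] at h1
    have h2 := (Finset.sum_eq_zero_iff_of_nonneg (fun i _ => mul_nonneg (W.pos i).le (hm_nonneg ν (y * W.g i) U))).1 h1.symm i (Finset.mem_univ i)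
    rcases mul_eq_zero.1 h2 with h3 | h3
    · exact absurd h3 (W.pos i).ne'
    · exact h3
  have hgen : ∀ γ : Γ, ∀ y : Γ, hm ν y U = 0 → hm ν (y * γ) U = 0 := by
    intro γ
    induction W.gen γ using Subsemigroup.closure_induction with
    | mem z hz =>
      obtain ⟨i, rfl⟩ := hz
      exact fun y hy => hstep y hy i
    | mul z w _ _ hz hw =>
      intro y hy
      rw [← mul_assoc]
      exact hw _ (hz y hy)
  have hall : ∀ y : Γ, hm ν y U = 0 := by
    intro y
    have := hgen (x⁻¹ * y) x hc0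
    rwa [mul_inv_cancel_left] at this
  obtain ⟨a, haU, haL⟩ := hUL
  obtain ⟨ε, hε, hball⟩ := Metric.isOpen_iff.1 hU a haU
  have := h.countable
  have h1 : ∀ y : Γ, ν ((fun z : ℂ => y • z) ⁻¹' U) = 0 := by
    intro y
    exact (measureReal_eq_zero_iff (measure_ne_top ν _)).1 (hall y)
  have h2 : Lim Γ ⊆ ⋃ y : Γ, (fun z : ℂ => y • z) ⁻¹' U := by
    intro c hcL
    obtain ⟨γ, hγ⟩ := orbit_dense h hL a c haL (mem_sphere_zero_iff_norm.1 hcL.2) ε hε
    refine Set.mem_iUnion.2 ⟨γ, hball ?_⟩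
    rw [mem_ball, dist_eq_norm]
    exact hγ
  have h3 : ν (Lim Γ) = 0 := measure_mono_null h2 (measure_iUnion_null h1)
  have h4 : ν Set.univ = 0 := by
    rw [← Set.union_compl_self (Lim Γ)]
    exact measure_union_null h3 hνL
  rw [measure_univ] at h4
  exact one_ne_zero h4

end Pool.Agent.DD
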