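import Pool.Agent.Lib_MP_644907_full.Count0

/-!
# Piece COUNT: counting orbit points
-/

set_option autoImplicit false

namespace Pool.Agent.DD

open MeasureTheory Filter Topology Metric

variable {Γ : Type} [Group Γ] [MulAction Γ ℂ]

/-- sum over the dyadic shells `2^(-j-1) ≤ 1 - |γ 0|² ≤ 2^(-j)`, `2^(-j) ≥ η` -/
theorem count_ball (h : Fuchs Γ) : ∃ C : ℝ, 0 < C ∧ ∀ (η : ℝ) (S : Finset Γ), 0 < η → η ≤ 1 →
    (∀ γ ∈ S, η ≤ 1 - ‖γ • (0 : ℂ)‖ ^ 2) → (S.card : ℝ) ≤ C / η := by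
  classical
  obtain ⟨C, hC, hsh⟩ := count_shell h
  refine ⟨2 * C, by positivity, fun η S hη hη1 hS => ?_⟩
  obtain ⟨n, hn1, hn2⟩ := exists_nat_pow_near_of_lt_one hη hη1
    (by norm_num : (0 : ℝ) < 1 / 2) (by norm_num)
  have hsub : S ⊆ (Finset.range (n + 1)).biUnion (fun j => S.filter (fun γ =>
      (1 / 2 : ℝ) ^ j / 2 ≤ 1 - ‖γ • (0 : ℂ)‖ ^ 2 ∧ 1 - ‖γ • (0 : ℂ)‖ ^ 2 ≤ (1 / 2 : ℝ) ^ j)) := by
    intro γ hγ
    have hv := hS γ hγ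
    have hv0 : 0 < 1 - ‖γ • (0 : ℂ)‖ ^ 2 := hη.trans_le hv
    have hv1 : 1 - ‖γ • (0 : ℂ)‖ ^ 2 ≤ 1 := by
      have := sq_nonneg ‖γ • (0 : ℂ)‖
      linarith
    obtain ⟨j, hj1, hj2⟩ := exists_nat_pow_near_of_lt_one hv0 hv1
      (by norm_num : (0 : ℝ) < 1 / 2) (by norm_num)
    have hjn : j ≤ n := by
      by_contra hjn
      rw [not_le] at hjn
      have h1 : (1 / 2 : ℝ) ^ j ≤ (1 / 2) ^ (n + 1) :=
        pow_le_pow_of_le_one (by norm_num) (by norm_num) hjn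
      linarith
    refine Finset.mem_biUnion.mpr ⟨j, Finset.mem_range.mpr (by omega),
      Finset.mem_filter.mpr ⟨hγ, ?_, hj2⟩⟩
    rw [pow_succ] at hj1
    linarith
  have h1 : (S.card : ℝ) ≤ ∑ j ∈ Finset.range (n + 1), C * 2 ^ j := by
    have h2 := (Finset.card_le_card hsub).trans Finset.card_biUnion_le
    have h3 : (S.card : ℝ) ≤ ∑ j ∈ Finset.range (n + 1), ((S.filter (fun γ =>
      (1 / 2 : ℝ) ^ j / 2 ≤ 1 - ‖γ • (0 : ℂ)‖ ^ 2 ∧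
        1 - ‖γ • (0 : ℂ)‖ ^ 2 ≤ (1 / 2 : ℝ) ^ j)).card : ℝ) := by exact_mod_cast h2
    refine h3.trans (Finset.sum_le_sum fun j _ => ?_)
    have h4 := hsh ((1 / 2) ^ j) (S.filter (fun γ =>
      (1 / 2 : ℝ) ^ j / 2 ≤ 1 - ‖γ • (0 : ℂ)‖ ^ 2 ∧ 1 - ‖γ • (0 : ℂ)‖ ^ 2 ≤ (1 / 2 : ℝ) ^ j))
      (by positivity) (pow_le_one₀ (by norm_num) (by norm_num))
      (fun γ hγ => (Finset.mem_filter.mp hγ).2)
    refine h4.trans (le_of_eq ?_)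
    rw [one_div, inv_pow, div_inv_eq_mul]
  have h5 : ∑ j ∈ Finset.range (n + 1), C * (2 : ℝ) ^ j ≤ 2 * C * 2 ^ n := by
    rw [← Finset.mul_sum, geom_sum_eq (by norm_num)]
    have h6 : (0 : ℝ) < 2 ^ n := by positivity
    rw [pow_succ]
    have h7 : (2 ^ n * 2 - 1 : ℝ) / (2 - 1) = 2 ^ n * 2 - 1 := by norm_num
    rw [h7]
    nlinarith
  have h8 : (2 : ℝ) ^ n ≤ 1 / η := by
    rw [le_div_iff₀ hη]
    calc (2 : ℝ) ^ n * η ≤ 2 ^ n * (1 / 2) ^ n := by gcongr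
      _ = 1 := by rw [← mul_pow]; norm_num
  calc (S.card : ℝ) ≤ 2 * C * 2 ^ n := h1.trans h5
    _ ≤ 2 * C * (1 / η) := by gcongr
    _ = 2 * C / η := by ring

end Pool.Agent.DD
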