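import Pool.Agent.Lib_MP_644907_full.Lam0

/-!
# Piece LAM1: normalised Lebesgue measure on the circle
-/

set_option autoImplicit false

namespace Pool.Agent.DD

open MeasureTheory Filter Topology Metric

instance lam_prob : IsProbabilityMeasure lam := by
  have h : IsProbabilityMeasure (volume.restrict (Set.Ico (0:ℝ) 1)) :=
    ⟨by rw [Measure.restrict_apply_univ]; simp⟩
  unfold lam
  exact Measure.isProbabilityMeasure_map cont_e.measurable.aemeasurable

private theorem lam1_apply (A : Set ℂ) (hA : MeasurableSet A) :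
    lam A = volume (e ⁻¹' A ∩ Set.Ico 0 1) := by
  unfold lam
  rw [Measure.map_apply cont_e.measurable hA, Measure.restrict_apply (cont_e.measurable hA)]

private theorem lam1_mem (a : ℂ) (t u s : ℝ) (k : ℤ) (hu : e u = a)
    (hs : |s + k - u| < t / (2 * Real.pi)) : e s ∈ ball a t := by
  have hpi : 0 < 2 * Real.pi := by positivity
  rw [mem_ball, Complex.dist_eq, ← hu, ← e_add_int s k]
  have h1 := dist_e_le (s + k) u
  have h2 : 2 * Real.pi * |s + k - u| < t := by
    rw [lt_div_iff₀ hpi] at hs
    linarith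
  linarith

private theorem lam1_two (S : Set ℝ) (a b c d : ℝ) (hab : a ≤ b) (hbc : b ≤ c) (hcd : c ≤ d)
    (h1 : Set.Ioo a b ⊆ S) (h2 : Set.Ioo c d ⊆ S) :
    ENNReal.ofReal ((b - a) + (d - c)) ≤ volume S := by
  have hd : Disjoint (Set.Ioo a b) (Set.Ioo c d) := by
    rw [Set.disjoint_left]
    intro x hx hx'
    exact absurd (hx.2.trans_le hbc) (not_lt.2 hx'.1.le)
  calc ENNReal.ofReal ((b - a) + (d - c)) = ENNReal.ofReal (b - a) + ENNReal.ofReal (d - c) :=
        ENNReal.ofReal_add (by linarith) (by linarith)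
    _ = volume (Set.Ioo a b) + volume (Set.Ioo c d) := by rw [Real.volume_Ioo, Real.volume_Ioo]
    _ = volume (Set.Ioo a b ∪ Set.Ioo c d) := (measure_union hd measurableSet_Ioo).symm
    _ ≤ volume S := measure_mono (Set.union_subset h1 h2)

/-- `|s - u| < t / (2 π)` implies `|e s - e u| < t` (`dist_e_le`) -/
theorem le_lam_ball (a : ℂ) (ha : ‖a‖ = 1) (t : ℝ) (ht : 0 < t) (ht1 : t ≤ 1) : t / 4 ≤ lam.real (ball a t) := by
  obtain ⟨u, hu, hue⟩ := exists_e a ha 0
  rw [zero_add] at hu
  have hpi : 0 < 2 * Real.pi := by positivity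
  set δ : ℝ := t / (2 * Real.pi) with hδ
  have hδ0 : 0 < δ := div_pos ht hpi
  have hδ2 : t / 4 ≤ 2 * δ := by
    have h : δ * (2 * Real.pi) = t := div_mul_cancel₀ _ hpi.ne'
    nlinarith [Real.pi_lt_four]
  have hδ1 : 2 * δ ≤ 1 := by
    have h : δ * (2 * Real.pi) = t := div_mul_cancel₀ _ hpi.ne'
    nlinarith [Real.pi_gt_three]
  have key : ENNReal.ofReal (2 * δ) ≤ volume (e ⁻¹' (ball a t) ∩ Set.Ico 0 1) := by
    by_cases c1 : u < δ
    · have := lam1_two (e ⁻¹' (ball a t) ∩ Set.Ico 0 1) 0 (u + δ) (1 + u - δ) 1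
        (by linarith [hu.1]) (by linarith) (by linarith)
        (fun s hs => ⟨lam1_mem a t u s 0 hue (by
            rw [Int.cast_zero, add_zero, ← hδ, abs_lt]
            constructor <;> linarith [hs.1, hs.2]), hs.1.le, by linarith [hs.2]⟩)
        (fun s hs => ⟨lam1_mem a t u s (-1) hue (by
            rw [← hδ, abs_lt]; push_cast
            constructor <;> linarith [hs.1, hs.2, hu.1]), by linarith [hs.1, hu.1], hs.2⟩)
      have e2 : (u + δ - 0) + (1 - (1 + u - δ)) = 2 * δ := by ring
      rwa [e2] at this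
    · by_cases c2 : 1 < u + δ
      · have := lam1_two (e ⁻¹' (ball a t) ∩ Set.Ico 0 1) 0 (u + δ - 1) (u - δ) 1
          (by linarith) (by linarith) (by linarith [hu.2])
          (fun s hs => ⟨lam1_mem a t u s 1 hue (by
              rw [← hδ, abs_lt]; push_cast
              constructor <;> linarith [hs.1, hs.2, hu.2]), hs.1.le, by linarith [hs.2, hu.2]⟩)
          (fun s hs => ⟨lam1_mem a t u s 0 hue (by
              rw [Int.cast_zero, add_zero, ← hδ, abs_lt]
              constructor <;> linarith [hs.1, hs.2]), by linarith [hs.1], hs.2⟩)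
        have e2 : (u + δ - 1 - 0) + (1 - (u - δ)) = 2 * δ := by ring
        rwa [e2] at this
      · have := lam1_two (e ⁻¹' (ball a t) ∩ Set.Ico 0 1) (u - δ) u u (u + δ)
          (by linarith) le_rfl (by linarith)
          (fun s hs => ⟨lam1_mem a t u s 0 hue (by
              rw [Int.cast_zero, add_zero, ← hδ, abs_lt]
              constructor <;> linarith [hs.1, hs.2]), by linarith [hs.1], by linarith [hs.2, hu.2]⟩)
          (fun s hs => ⟨lam1_mem a t u s 0 hue (by
              rw [Int.cast_zero, add_zero, ← hδ, abs_lt]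
              constructor <;> linarith [hs.1, hs.2]), by linarith [hs.1, hu.1], by linarith [hs.2]⟩)
        have e2 : (u - (u - δ)) + (u + δ - u) = 2 * δ := by ring
        rwa [e2] at this
  have h3 : t / 4 ≤ 2 * δ := hδ2
  have h4 : ENNReal.ofReal (t / 4) ≤ lam (ball a t) := by
    rw [lam1_apply _ measurableSet_ball]
    exact (ENNReal.ofReal_le_ofReal h3).trans key
  rw [Measure.real, ← ENNReal.ofReal_le_iff_le_toReal (measure_ne_top _ _)]
  exact h4

end Pool.Agent.DD
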