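import Pool.Agent.Lib_MP_644907_full.Grp1
import Pool.Agent.Lib_MP_644907_full.Lam1

/-!
# Piece COUNT0: counting orbit points
-/

set_option autoImplicit false

namespace Pool.Agent.DD

open MeasureTheory Filter Topology Metric

variable {Γ : Type} [Group Γ] [MulAction Γ ℂ]

/-- if `γ₁` is one of them, the others are `γ₁ γ'` with `qd 0 (γ' 0) = qd (γ₁ 0) (γ 0) ≤ 4 Q²` -/
theorem count_loc (h : Fuchs Γ) (Q : ℝ) : ∃ N : ℕ, ∀ (z : ℂ) (S : Finset Γ), ‖z‖ < 1 → (∀ γ ∈ S, qd z (γ • (0 : ℂ)) ≤ Q) → S.card ≤ N := by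
  classical
  have h00 : ‖(0 : ℂ)‖ < 1 := by
    rw [norm_zero]
    exact zero_lt_one
  have hfin := h.finite_qd h00 h00 (4 * Q * Q)
  refine ⟨hfin.toFinset.card, fun z S hz hS => ?_⟩
  rcases S.eq_empty_or_nonempty with rfl | ⟨γ₁, h1⟩
  · simp
  · refine Finset.card_le_card_of_injOn (fun γ => γ₁⁻¹ * γ) ?_ ?_
    · intro γ hγ
      rw [Finset.mem_coe] at hγ
      rw [Finset.mem_coe, Set.Finite.mem_toFinset, Set.mem_ofPred_eq]
      have e1 : qd 0 ((γ₁⁻¹ * γ) • (0 : ℂ)) = qd (γ₁ • (0 : ℂ)) (γ • (0 : ℂ)) := by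
        rw [← h.qd_smul γ₁⁻¹ (h.norm0 γ₁) (h.norm0 γ), inv_smul_smul, mul_smul]
      rw [e1]
      have q1 := hS γ₁ h1
      have q2 := hS γ hγ
      have q3 := one_le_qd hz (h.norm0 γ₁)
      have q4 := one_le_qd hz (h.norm0 γ)
      refine (qd_tri (h.norm0 γ₁) hz (h.norm0 γ)).trans ?_
      rw [qd_comm _ z]
      refine mul_le_mul (mul_le_mul_of_nonneg_left q1 (by norm_num)) q2 (by linarith) ?_
      linarith
    · intro a _ b _ hab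
      exact mul_left_cancel hab

theorem count_near {z : ℂ} (hz : ‖z‖ < 1) : ∃ ξ : ℂ, ‖ξ‖ = 1 ∧ ‖z - ξ‖ ≤ 1 - ‖z‖ ^ 2 := by
  by_cases h0 : z = 0
  · refine ⟨1, norm_one, ?_⟩
    rw [h0]
    simp
  · have h1 : 0 < ‖z‖ := norm_pos_iff.2 h0
    refine ⟨(‖z‖ : ℂ)⁻¹ * z, ?_, ?_⟩
    · rw [norm_mul, norm_inv, Complex.norm_real, norm_norm]
      exact inv_mul_cancel₀ h1.ne'
    · have e : z - (‖z‖ : ℂ)⁻¹ * z = ((1 - ‖z‖⁻¹ : ℝ) : ℂ) * z := by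
        push_cast
        ring
      rw [e, norm_mul, Complex.norm_real, Real.norm_eq_abs]
      have h2 : 1 ≤ ‖z‖⁻¹ := (one_le_inv₀ h1).2 hz.le
      rw [abs_of_nonpos (by linarith)]
      have h3 : ‖z‖⁻¹ * ‖z‖ = 1 := inv_mul_cancel₀ h1.ne'
      nlinarith

/-- one shell: the disks `ball (γ 0) (4 δ)` contain `ball (γ 0 / |γ 0|) δ'`... : for `γ` with `δ / 2 ≤ 1 - |γ 0|² ≤ δ` let `S_γ` = the points of the circle at distance `≤ 2 δ` of `γ 0`; `lam S_γ ≥ δ / 8` (contains the ball of radius `min (δ) 1` about the nearest point of the circle, `le_lam_ball`; if `γ 0 = 0` trivially).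
A point of the circle lies in at most `N` of the sets `S_γ`: if `ξ ∈ S_γ ∩ S_γ'` then `|γ 0 - γ' 0| ≤ 4 δ`, `qd (γ 0) (γ' 0) ≤ (4 δ + δ)² / (δ/2)² = 100` (`|1 - conj z w| ≤ |z - w| + (1 - |z|²)`), so use `count_loc` (with `z = γ 0`). Hence `∑_γ lam S_γ ≤ N`, the number of elements of the shell is `≤ 8 N / δ`. -/
theorem count_shell (h : Fuchs Γ) : ∃ C : ℝ, 0 < C ∧ ∀ (δ : ℝ) (S : Finset Γ), 0 < δ → δ ≤ 1 →
    (∀ γ ∈ S, δ / 2 ≤ 1 - ‖γ • (0 : ℂ)‖ ^ 2 ∧ 1 - ‖γ • (0 : ℂ)‖ ^ 2 ≤ δ) → (S.card : ℝ) ≤ C / δ := by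
  classical
  obtain ⟨N, hN⟩ := count_loc h 100
  refine ⟨4 * N + 1, by positivity, fun δ S hδ hδ1 hS => ?_⟩
  have hpt : ∀ γ : Γ, ∃ ξ : ℂ, ‖ξ‖ = 1 ∧ ‖γ • (0 : ℂ) - ξ‖ ≤ 1 - ‖γ • (0 : ℂ)‖ ^ 2 := fun γ =>
    count_near (h.norm0 γ)
  choose ξ hξ1 hξ2 using hpt
  have hlam : ∀ γ ∈ S, δ / 4 ≤ lam.real (ball (ξ γ) δ) := fun γ _ => le_lam_ball _ (hξ1 γ) δ hδ hδ1
  have hcount : ∀ w : ℂ, (S.filter (fun γ => w ∈ ball (ξ γ) δ)).card ≤ N := by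
    intro w
    rcases (S.filter (fun γ => w ∈ ball (ξ γ) δ)).eq_empty_or_nonempty with h0 | ⟨γ₁, h1⟩
    · rw [h0]
      simp
    · refine hN (γ₁ • (0 : ℂ)) _ (h.norm0 γ₁) fun γ hγ => ?_
      rw [Finset.mem_filter, mem_ball, dist_eq_norm] at h1 hγ
      have a1 := hS γ₁ h1.1
      have a2 := hS γ hγ.1
      have b1 := hξ2 γ₁
      have b2 := hξ2 γ
      have hd : ‖γ₁ • (0 : ℂ) - γ • (0 : ℂ)‖ ≤ 4 * δ := by
        have e : γ₁ • (0 : ℂ) - γ • (0 : ℂ) = (γ₁ • (0 : ℂ) - ξ γ₁) - (w - ξ γ₁) + (w - ξ γ) - (γ • (0 : ℂ) - ξ γ) := by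
          ring
        rw [e]
        refine (norm_sub_le _ _).trans ?_
        have c1 := norm_add_le ((γ₁ • (0 : ℂ) - ξ γ₁) - (w - ξ γ₁)) (w - ξ γ)
        have c2 := norm_sub_le (γ₁ • (0 : ℂ) - ξ γ₁) (w - ξ γ₁)
        linarith [h1.2, hγ.2, a1.2, a2.2]
      have hds := dist_sq (γ₁ • (0 : ℂ)) (γ • (0 : ℂ))
      unfold qd
      have p1 : 0 < 1 - ‖γ₁ • (0 : ℂ)‖ ^ 2 := by linarith [a1.1]
      have p2 : 0 < 1 - ‖γ • (0 : ℂ)‖ ^ 2 := by linarith [a2.1]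
      rw [div_le_iff₀ (mul_pos p1 p2)]
      have m1 : (δ / 2) * (δ / 2) ≤ (1 - ‖γ₁ • (0 : ℂ)‖ ^ 2) * (1 - ‖γ • (0 : ℂ)‖ ^ 2) :=
        mul_le_mul a1.1 a2.1 (by positivity) p1.le
      have m2 : ‖γ₁ • (0 : ℂ) - γ • (0 : ℂ)‖ ^ 2 ≤ (4 * δ) ^ 2 := pow_le_pow_left₀ (norm_nonneg _) hd 2
      have m3 := mul_pos p1 p2
      linarith only [hds, m1, m2, m3]
  have hint : ∀ γ ∈ S, Integrable ((ball (ξ γ) δ).indicator (fun _ => (1 : ℝ))) lam := fun γ _ =>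
    (integrable_const 1).indicator measurableSet_ball
  have hsum : ∑ γ ∈ S, lam.real (ball (ξ γ) δ) ≤ N := by
    have e1 : ∑ γ ∈ S, lam.real (ball (ξ γ) δ) =
        ∫ w, ∑ γ ∈ S, (ball (ξ γ) δ).indicator (fun _ => (1 : ℝ)) w ∂lam := by
      rw [integral_finsetSum _ hint]
      refine Finset.sum_congr rfl fun γ _ => ?_
      rw [integral_indicator_const _ measurableSet_ball, smul_eq_mul, mul_one]
    rw [e1]
    have e2 : ∫ _w : ℂ, (N : ℝ) ∂lam = N := by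
      rw [integral_const, probReal_univ, one_smul]
    rw [← e2]
    refine integral_mono (integrable_finsetSum _ hint) (integrable_const _) fun w => ?_
    have e3 : ∑ γ ∈ S, (ball (ξ γ) δ).indicator (fun _ => (1 : ℝ)) w =
        ((S.filter (fun γ => w ∈ ball (ξ γ) δ)).card : ℝ) := by
      rw [Finset.card_filter, Nat.cast_sum]
      refine Finset.sum_congr rfl fun γ _ => ?_
      rw [Set.indicator_apply]
      split_ifs <;> simp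
    show ∑ γ ∈ S, (ball (ξ γ) δ).indicator (fun _ => (1 : ℝ)) w ≤ (N : ℝ)
    rw [e3]
    exact_mod_cast hcount w
  have hlow : (S.card : ℝ) * (δ / 4) ≤ ∑ γ ∈ S, lam.real (ball (ξ γ) δ) := by
    rw [← nsmul_eq_mul]
    exact Finset.card_nsmul_le_sum _ _ _ hlam
  rw [le_div_iff₀ hδ]
  linarith

end Pool.Agent.DD
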