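import Pool.Agent.Lib_MP_644907_full.Grp1

/-!
# Piece ENTR: where a path can enter a disk `{|z - b| < t}`
-/

set_option autoImplicit false

namespace Pool.Agent.DD

open MeasureTheory Filter Topology Metric

variable {Γ : Type} [Group Γ] [MulAction Γ ℂ] {ι : Type} [Fintype ι]

/-- `a, a' = b e^{± i φ}` with `2 cos φ = 2 - t²` (the two points of the circle at distance `t` of `b`), so `a + a' = (2 - t²) b`, `a a' = b²`. With `w = z conj b`: `(z - a) (z - a') = b² (w² - (2 - t²) w + 1)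
= b² (w (w + conj w - (2 - t²)) + 1 - |w|²)` and `w + conj w = 2 Re w = |w|² + 1 - |z - b|²`. -/
theorem entr_geo (b : ℂ) (hb : ‖b‖ = 1) (t : ℝ) (ht : 0 < t) (ht1 : t ≤ 1) : ∃ a a' : ℂ, ‖a‖ = 1 ∧ ‖a'‖ = 1 ∧ a ≠ a' ∧
    ‖a - b‖ = t ∧ ‖a' - b‖ = t ∧
    (∀ z : ℂ, ‖z‖ = 1 → ‖z - b‖ = t → z = a ∨ z = a') ∧
    ∀ z : ℂ, ‖z‖ ≤ 1 → ‖z - a‖ * ‖z - a'‖ ≤ 2 * (1 - ‖z‖ ^ 2) + |t ^ 2 - ‖z - b‖ ^ 2| := by
  set c : ℝ := 1 - t ^ 2 / 2 with hc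
  have ht2 : t ^ 2 ≤ 1 := by nlinarith
  have ht3 : 0 < t ^ 2 := by positivity
  have hc2 : c ^ 2 < 1 := by
    have h1 : 0 < c := by linarith
    have h2 : c < 1 := by linarith
    nlinarith
  set s : ℝ := √(1 - c ^ 2) with hs
  have hs0 : 0 < s := Real.sqrt_pos.2 (by linarith)
  have hs2 : s ^ 2 = 1 - c ^ 2 := Real.sq_sqrt (by linarith)
  set u : ℂ := ⟨c, s⟩ with hu
  set v : ℂ := ⟨c, -s⟩ with hv
  have nsq : ∀ w : ℂ, ‖w‖ ^ 2 = w.re ^ 2 + w.im ^ 2 := by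
    intro w
    rw [Complex.sq_norm, Complex.normSq_apply]
    ring
  have hb0 : b ≠ 0 := by
    rw [← norm_pos_iff, hb]
    exact one_pos
  have hu1 : ‖u‖ = 1 := by
    have h1 : ‖u‖ ^ 2 = 1 := by
      rw [nsq, hu]
      simp only
      linarith
    exact (sq_eq_sq₀ (norm_nonneg _) zero_le_one).1 (by rw [h1, one_pow])
  have hv1 : ‖v‖ = 1 := by
    have h1 : ‖v‖ ^ 2 = 1 := by
      rw [nsq, hv]
      simp only
      nlinarith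
    exact (sq_eq_sq₀ (norm_nonneg _) zero_le_one).1 (by rw [h1, one_pow])
  have hut : ‖u - 1‖ = t := by
    have h1 : ‖u - 1‖ ^ 2 = t ^ 2 := by
      rw [nsq, hu]
      simp only [Complex.sub_re, Complex.sub_im, Complex.one_re, Complex.one_im]
      nlinarith
    exact (sq_eq_sq₀ (norm_nonneg _) ht.le).1 h1
  have hvt : ‖v - 1‖ = t := by
    have h1 : ‖v - 1‖ ^ 2 = t ^ 2 := by
      rw [nsq, hv]
      simp only [Complex.sub_re, Complex.sub_im, Complex.one_re, Complex.one_im]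
      nlinarith
    exact (sq_eq_sq₀ (norm_nonneg _) ht.le).1 h1
  have hmain : ∀ z : ℂ, ‖z‖ ≤ 1 →
      ‖z - b * u‖ * ‖z - b * v‖ ≤ 2 * (1 - ‖z‖ ^ 2) + |t ^ 2 - ‖z - b‖ ^ 2| := by
    intro z hz
    obtain ⟨w, rfl⟩ : ∃ w, z = b * w := ⟨b⁻¹ * z, by rw [mul_inv_cancel_left₀ hb0]⟩
    have e1 : b * w - b * u = b * (w - u) := by ring
    have e2 : b * w - b * v = b * (w - v) := by ring
    have e3 : b * w - b = b * (w - 1) := by ring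
    rw [e1, e2, e3]
    rw [norm_mul, hb, one_mul] at hz
    simp only [norm_mul, hb, one_mul]
    have hw2 : ‖w‖ ^ 2 ≤ 1 := by nlinarith [norm_nonneg w]
    have k1 : (w - u) * (w - v) = w * ((2 * w.re - 2 * c : ℝ) : ℂ) + ((1 - ‖w‖ ^ 2 : ℝ) : ℂ) := by
      apply Complex.ext
      · simp only [Complex.mul_re, Complex.sub_re, Complex.sub_im, Complex.add_re,
          Complex.ofReal_re, Complex.ofReal_im]
        rw [nsq w, hu, hv]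
        simp only
        nlinarith
      · simp only [Complex.mul_im, Complex.sub_re, Complex.sub_im, Complex.add_im,
          Complex.ofReal_re, Complex.ofReal_im]
        rw [hu, hv]
        simp only
        ring
    have k2 : 2 * w.re - 2 * c = -(1 - ‖w‖ ^ 2) + (t ^ 2 - ‖w - 1‖ ^ 2) := by
      rw [nsq w, nsq (w - 1), hc]
      simp only [Complex.sub_re, Complex.sub_im, Complex.one_re, Complex.one_im]
      ring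
    rw [← norm_mul, k1]
    refine (norm_add_le _ _).trans ?_
    rw [norm_mul, Complex.norm_real, Complex.norm_real, Real.norm_eq_abs, Real.norm_eq_abs,
      abs_of_nonneg (show (0 : ℝ) ≤ 1 - ‖w‖ ^ 2 by linarith)]
    have k3 : |2 * w.re - 2 * c| ≤ (1 - ‖w‖ ^ 2) + |t ^ 2 - ‖w - 1‖ ^ 2| := by
      rw [k2]
      refine (abs_add_le _ _).trans ?_
      rw [abs_neg, abs_of_nonneg (show (0 : ℝ) ≤ 1 - ‖w‖ ^ 2 by linarith)]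
    have k4 : ‖w‖ * |2 * w.re - 2 * c| ≤ |2 * w.re - 2 * c| :=
      mul_le_of_le_one_left (abs_nonneg _) hz
    linarith
  refine ⟨b * u, b * v, by rw [norm_mul, hb, hu1, one_mul], by rw [norm_mul, hb, hv1, one_mul], ?_,
    ?_, ?_, ?_, hmain⟩
  · intro h
    have h1 : u = v := mul_left_cancel₀ hb0 h
    have h2 : s = -s := by
      have := congrArg Complex.im h1
      rw [hu, hv] at this
      exact this
    linarith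
  · have e1 : b * u - b = b * (u - 1) := by ring
    rw [e1, norm_mul, hb, one_mul, hut]
  · have e1 : b * v - b = b * (v - 1) := by ring
    rw [e1, norm_mul, hb, one_mul, hvt]
  · intro z hz hzb
    have h1 := hmain z hz.le
    rw [hz, hzb] at h1
    have h2 : ‖z - b * u‖ * ‖z - b * v‖ = 0 := by
      refine le_antisymm ?_ (by positivity)
      simpa using h1
    rcases mul_eq_zero.1 h2 with h3 | h3
    · left
      rwa [norm_eq_zero, sub_eq_zero] at h3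
    · right
      rwa [norm_eq_zero, sub_eq_zero] at h3

/-- one step of the walk: `|x 0 - (x g_i) 0| ≤ C (1 - |(x g_i) 0|²)` and `≤ C (1 - |x 0|²)`, and `1 - |x 0|²`, `1 - |(x g_i) 0|²` are comparable: `dist_le_qd'`, `one_sub_le`, `qd (x 0) (x g_i 0) = qd 0 (g_i 0) ≤ C'` -/
theorem step_bound (h : Fuchs Γ) (W : PreWalk Γ ι) : ∃ C : ℝ, 1 ≤ C ∧ ∀ (x : Γ) (i : ι),
    ‖x • (0 : ℂ) - (x * W.g i) • (0 : ℂ)‖ ≤ C * (1 - ‖(x * W.g i) • (0 : ℂ)‖ ^ 2) ∧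
    ‖x • (0 : ℂ) - (x * W.g i) • (0 : ℂ)‖ ≤ C * (1 - ‖x • (0 : ℂ)‖ ^ 2) ∧
    1 - ‖x • (0 : ℂ)‖ ^ 2 ≤ C * (1 - ‖(x * W.g i) • (0 : ℂ)‖ ^ 2) ∧
    1 - ‖(x * W.g i) • (0 : ℂ)‖ ^ 2 ≤ C * (1 - ‖x • (0 : ℂ)‖ ^ 2) ∧
    qd (x • (0 : ℂ)) ((x * W.g i) • (0 : ℂ)) ≤ C := by
  have hpos : ∀ γ : Γ, 0 < 1 - ‖γ • (0 : ℂ)‖ ^ 2 := by
    intro γ
    have h1 := h.norm0 γ
    nlinarith [norm_nonneg (γ • (0 : ℂ))]
  set K : ℝ := 1 + ∑ i, (1 - ‖W.g i • (0 : ℂ)‖ ^ 2)⁻¹ with hK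
  have hnn : ∀ i, 0 ≤ (1 - ‖W.g i • (0 : ℂ)‖ ^ 2)⁻¹ := fun i => (inv_pos.2 (hpos _)).le
  have hK1 : 1 ≤ K := by
    have : 0 ≤ ∑ i, (1 - ‖W.g i • (0 : ℂ)‖ ^ 2)⁻¹ := Finset.sum_nonneg fun i _ => hnn i
    linarith
  have hq : ∀ (x : Γ) (i : ι), qd (x • (0 : ℂ)) ((x * W.g i) • (0 : ℂ)) ≤ K := by
    intro x i
    rw [mul_smul, h.qd_smul x (by simp) (h.norm0 _), qd_zero]
    have : (1 - ‖W.g i • (0 : ℂ)‖ ^ 2)⁻¹ ≤ ∑ i, (1 - ‖W.g i • (0 : ℂ)‖ ^ 2)⁻¹ :=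
      Finset.single_le_sum (f := fun i => (1 - ‖W.g i • (0 : ℂ)‖ ^ 2)⁻¹) (fun i _ => hnn i)
        (Finset.mem_univ i)
    linarith
  refine ⟨4 * K, by linarith, fun x i => ?_⟩
  have h0 := hq x i
  have p1 := hpos x
  have p2 := hpos (x * W.g i)
  have n1 := h.norm0 x
  have n2 := h.norm0 (x * W.g i)
  have q1 := dist_le_qd' n1 n2
  have q2 := dist_le_qd' n2 n1
  have q3 := one_sub_le n1 n2
  have q4 := one_sub_le n2 n1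
  rw [qd_comm] at q2 q4
  rw [norm_sub_rev] at q2
  have m1 : qd (x • (0 : ℂ)) ((x * W.g i) • (0 : ℂ)) * (1 - ‖(x * W.g i) • (0 : ℂ)‖ ^ 2) ≤
      K * (1 - ‖(x * W.g i) • (0 : ℂ)‖ ^ 2) := mul_le_mul_of_nonneg_right h0 p2.le
  have m2 : qd (x • (0 : ℂ)) ((x * W.g i) • (0 : ℂ)) * (1 - ‖x • (0 : ℂ)‖ ^ 2) ≤
      K * (1 - ‖x • (0 : ℂ)‖ ^ 2) := mul_le_mul_of_nonneg_right h0 p1.le
  have m3 : 0 ≤ K * (1 - ‖(x * W.g i) • (0 : ℂ)‖ ^ 2) := by positivity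
  have m4 : 0 ≤ K * (1 - ‖x • (0 : ℂ)‖ ^ 2) := by positivity
  refine ⟨?_, ?_, ?_, ?_, ?_⟩
  · linarith
  · linarith
  · linarith
  · linarith
  · linarith

/-- Let `z = (y g_i) 0`, `z' = y 0`, `|z - b| < t ≤ |z' - b|`, so `0 ≤ t - |z - b| ≤ |z - z'| ≤ C (1 - |z|²)` (`step_bound`), `|t² - |z - b|²| ≤ 2 C (1 - |z|²)` (`t + |z - b| ≤ 2`); with `entr_geo` `|z - a| |z - a'| ≤ (2 + 2 C) (1 - |z|²)`. -/
theorem entr (h : Fuchs Γ) (W : PreWalk Γ ι) : ∃ C : ℝ, 0 < C ∧ ∀ (b : ℂ) (t : ℝ), ‖b‖ = 1 → 0 < t → t ≤ 1 →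
    ∃ a a' : ℂ, ‖a‖ = 1 ∧ ‖a'‖ = 1 ∧ a ≠ a' ∧ ‖a - b‖ = t ∧ ‖a' - b‖ = t ∧
      (∀ z : ℂ, ‖z‖ = 1 → ‖z - b‖ = t → z = a ∨ z = a') ∧
      ∀ (y : Γ) (i : ι), t ≤ ‖y • (0 : ℂ) - b‖ → ‖(y * W.g i) • (0 : ℂ) - b‖ < t →
        ‖(y * W.g i) • (0 : ℂ) - a‖ * ‖(y * W.g i) • (0 : ℂ) - a'‖ ≤ C * (1 - ‖(y * W.g i) • (0 : ℂ)‖ ^ 2) := by
  obtain ⟨C, hC1, hC⟩ := step_bound h W
  refine ⟨2 + 2 * C, by linarith, fun b t hb ht ht1 => ?_⟩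
  obtain ⟨a, a', h1, h2, h3, h4, h5, h6, h7⟩ := entr_geo b hb t ht ht1
  refine ⟨a, a', h1, h2, h3, h4, h5, h6, fun y i hy hz => ?_⟩
  set z := (y * W.g i) • (0 : ℂ) with hzdef
  have n2 : ‖z‖ < 1 := h.norm0 _
  have hp : 0 < 1 - ‖z‖ ^ 2 := by nlinarith [norm_nonneg z]
  have k1 := (hC y i).1
  rw [← hzdef] at k1
  have k2 : ‖y • (0 : ℂ) - b‖ ≤ ‖y • (0 : ℂ) - z‖ + ‖z - b‖ := norm_sub_le_norm_sub_add_norm_sub _ _ _
  have k3 : t - ‖z - b‖ ≤ C * (1 - ‖z‖ ^ 2) := by linarith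
  have k4 : |t ^ 2 - ‖z - b‖ ^ 2| ≤ 2 * (C * (1 - ‖z‖ ^ 2)) := by
    have e1 : t ^ 2 - ‖z - b‖ ^ 2 = (t - ‖z - b‖) * (t + ‖z - b‖) := by ring
    have e2 : 0 ≤ t - ‖z - b‖ := by linarith
    have e3 : 0 ≤ t + ‖z - b‖ := by positivity
    rw [e1, abs_of_nonneg (mul_nonneg e2 e3)]
    calc (t - ‖z - b‖) * (t + ‖z - b‖) ≤ (C * (1 - ‖z‖ ^ 2)) * 2 :=
          mul_le_mul k3 (by linarith) e3 (by positivity)
      _ = 2 * (C * (1 - ‖z‖ ^ 2)) := by ring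
  have k5 := h7 z n2.le
  calc ‖z - a‖ * ‖z - a'‖ ≤ 2 * (1 - ‖z‖ ^ 2) + |t ^ 2 - ‖z - b‖ ^ 2| := k5
    _ ≤ (2 + 2 * C) * (1 - ‖z‖ ^ 2) := by linarith

end Pool.Agent.DD
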