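import Pool.Agent.Lib_MP_644907_full.Spec1a

/-!
# Piece SPEC1: contraction of the `ℓ²` norm
-/

set_option autoImplicit false

namespace Pool.Agent.DD

open MeasureTheory Filter Topology Metric

variable {Γ : Type} [Group Γ] [MulAction Γ ℂ] {ι : Type} [Fintype ι]

private theorem spec1_cvx (p x : ι → ℝ) (hp : ∀ i, 0 < p i) (hs : ∑ i, p i = 1) (i j : ι) :
    (∑ k, p k * x k) ^ 2 + p i * p j * (x i - x j) ^ 2 ≤ ∑ k, p k * x k ^ 2 := by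
  classical
  obtain ⟨μ, hμ⟩ : ∃ μ : ℝ, μ = ∑ k, p k * x k := ⟨_, rfl⟩
  rw [← hμ]
  have e : ∑ k, p k * x k ^ 2 = μ ^ 2 + ∑ k, p k * (x k - μ) ^ 2 := by
    have e1 : ∑ k, p k * (x k - μ) ^ 2 = ∑ k, p k * x k ^ 2 - 2 * μ * ∑ k, p k * x k + μ ^ 2 * ∑ k, p k := by
      have e2 : ∀ k, p k * (x k - μ) ^ 2 = p k * x k ^ 2 - 2 * μ * (p k * x k) + μ ^ 2 * p k := fun k => by ring
      rw [Finset.sum_congr rfl fun k _ => e2 k, Finset.sum_add_distrib, Finset.sum_sub_distrib, Finset.mul_sum, Finset.mul_sum]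
    rw [e1, hs, ← hμ]
    ring
  rw [e]
  have h0 : ∀ k ∈ (Finset.univ : Finset ι), 0 ≤ p k * (x k - μ) ^ 2 := fun k _ => mul_nonneg (hp k).le (sq_nonneg _)
  by_cases hij : i = j
  · subst hij
    have := Finset.sum_nonneg h0
    rw [sub_self]
    linarith
  · have h1 : p i * (x i - μ) ^ 2 + p j * (x j - μ) ^ 2 ≤ ∑ k, p k * (x k - μ) ^ 2 := by
      calc p i * (x i - μ) ^ 2 + p j * (x j - μ) ^ 2 = ∑ k ∈ {i, j}, p k * (x k - μ) ^ 2 := by rw [Finset.sum_pair hij]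
        _ ≤ ∑ k, p k * (x k - μ) ^ 2 := Finset.sum_le_sum_of_subset_of_nonneg (Finset.subset_univ _) (fun k hk _ => h0 k hk)
    have h2 : p i + p j ≤ 1 := by
      rw [← hs]
      calc p i + p j = ∑ k ∈ {i, j}, p k := by rw [Finset.sum_pair hij]
        _ ≤ ∑ k, p k := Finset.sum_le_sum_of_subset_of_nonneg (Finset.subset_univ _) (fun k _ _ => (hp k).le)
    have pi0 := hp i
    have pj0 := hp j
    have h3 : p i * p j * (x i - x j) ^ 2 ≤ p i * (x i - μ) ^ 2 + p j * (x j - μ) ^ 2 := by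
      have h4 : 0 ≤ p i * (1 - p j - p i) * (x i - μ) ^ 2 := mul_nonneg (mul_nonneg pi0.le (by linarith)) (sq_nonneg _)
      have h5 : 0 ≤ p j * (1 - p i - p j) * (x j - μ) ^ 2 := mul_nonneg (mul_nonneg pj0.le (by linarith)) (sq_nonneg _)
      nlinarith [sq_nonneg (p i * (x i - μ) + p j * (x j - μ))]
    linarith

/-- `v_i y = a (y g_i⁻¹)` all have the norm of `a`; `‖∑ p_i v_i‖² = ‖a‖² - (1/2) ∑_{i,j} p_i p_j ‖v_i - v_j‖² ≤ ‖a‖² - p_{i₀} p_{i₁} ‖v_{i₀} - v_{i₁}‖²` (and the same with `i₂`), and `l2_move` for `k_l = (g i_l)⁻¹` -/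
theorem l2_step (h : Fuchs Γ) (W : PreWalk Γ ι) (i₀ i₁ i₂ : ι) (h0 : W.g i₀ = 1) (A₁ B₁ A₂ B₂ : Set ℂ)
    (hd : Disjoint A₁ B₁ ∧ Disjoint A₁ A₂ ∧ Disjoint A₁ B₂ ∧ Disjoint B₁ A₂ ∧ Disjoint B₁ B₂ ∧ Disjoint A₂ B₂)
    (h1 : ∀ z : ℂ, ‖z‖ ≤ 1 → z ∉ B₁ → (W.g i₁)⁻¹ • z ∈ A₁) (h2 : ∀ z : ℂ, ‖z‖ ≤ 1 → z ∉ B₂ → (W.g i₂)⁻¹ • z ∈ A₂) :
    ∃ ρ : ℝ, 0 < ρ ∧ ρ < 1 ∧ ∀ a : Γ → ℝ, (∀ x, 0 ≤ a x) → (Function.support a).Finite →
      ∑' y, (∑ i, W.p i * a (y * (W.g i)⁻¹)) ^ 2 ≤ ρ ^ 2 * ∑' y, a y ^ 2 := by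
  classical
  have hp1 : ∀ i, W.p i ≤ 1 := by
    intro i
    rw [← W.sum]
    exact Finset.single_le_sum (fun k _ => (W.pos k).le) (Finset.mem_univ i)
  set c : ℝ := min (W.p i₀ * W.p i₁) (W.p i₀ * W.p i₂) with hc
  have hc0 : 0 < c := lt_min (mul_pos (W.pos _) (W.pos _)) (mul_pos (W.pos _) (W.pos _))
  have hc1 : c ≤ 1 := (min_le_left _ _).trans (mul_le_one₀ (hp1 _) (W.pos _).le (hp1 _))
  have hr : 0 < 1 - c / 16 := by linarith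
  refine ⟨√(1 - c / 16), Real.sqrt_pos.2 hr, ?_, ?_⟩
  · rw [Real.sqrt_lt' one_pos]
    linarith
  intro a ha hfin
  rw [Real.sq_sqrt hr.le]
  -- a common finite support
  have hSf : (⋃ i : ι, {y : Γ | a (y * (W.g i)⁻¹) ≠ 0}).Finite := by
    refine Set.finite_iUnion fun i => ?_
    exact hfin.preimage (mul_left_injective _).injOn
  set S : Finset Γ := hSf.toFinset with hS
  have hv : ∀ i, ∀ y ∉ S, a (y * (W.g i)⁻¹) = 0 := by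
    intro i y hy
    by_contra hne
    apply hy
    rw [hS, Set.Finite.mem_toFinset]
    exact Set.mem_iUnion.2 ⟨i, hne⟩
  have ha0 : ∀ y, a (y * (W.g i₀)⁻¹) = a y := by
    intro y
    rw [h0, inv_one, mul_one]
  have hN : ∀ i, ∑ y ∈ S, a (y * (W.g i)⁻¹) ^ 2 = ∑' y, a y ^ 2 := by
    intro i
    rw [← (Equiv.mulRight (W.g i)⁻¹).tsum_eq (fun y => a y ^ 2)]
    refine (tsum_eq_sum fun y hy => ?_).symm
    change a (y * (W.g i)⁻¹) ^ 2 = 0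
    rw [hv i y hy, zero_pow two_ne_zero]
  have hD : ∀ j, ∑' y, (a (y * (W.g j)⁻¹) - a y) ^ 2 = ∑ y ∈ S, (a (y * (W.g i₀)⁻¹) - a (y * (W.g j)⁻¹)) ^ 2 := by
    intro j
    rw [tsum_eq_sum (s := S) ?_]
    · refine Finset.sum_congr rfl fun y _ => ?_
      rw [ha0]
      ring
    · intro y hy
      rw [hv j y hy, ← ha0 y, hv i₀ y hy, sub_zero, zero_pow two_ne_zero]
  have hA : ∑' y, (∑ i, W.p i * a (y * (W.g i)⁻¹)) ^ 2 = ∑ y ∈ S, (∑ i, W.p i * a (y * (W.g i)⁻¹)) ^ 2 := by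
    refine tsum_eq_sum fun y hy => ?_
    have : ∑ i, W.p i * a (y * (W.g i)⁻¹) = 0 := Finset.sum_eq_zero fun i _ => by rw [hv i y hy, mul_zero]
    rw [this, zero_pow two_ne_zero]
  have hmain : ∀ j, ∑ y ∈ S, (∑ i, W.p i * a (y * (W.g i)⁻¹)) ^ 2 +
      W.p i₀ * W.p j * ∑ y ∈ S, (a (y * (W.g i₀)⁻¹) - a (y * (W.g j)⁻¹)) ^ 2 ≤ ∑' y, a y ^ 2 := by
    intro j
    calc ∑ y ∈ S, (∑ i, W.p i * a (y * (W.g i)⁻¹)) ^ 2 +
        W.p i₀ * W.p j * ∑ y ∈ S, (a (y * (W.g i₀)⁻¹) - a (y * (W.g j)⁻¹)) ^ 2 =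
        ∑ y ∈ S, ((∑ i, W.p i * a (y * (W.g i)⁻¹)) ^ 2 + W.p i₀ * W.p j * (a (y * (W.g i₀)⁻¹) - a (y * (W.g j)⁻¹)) ^ 2) := by
          rw [Finset.sum_add_distrib, Finset.mul_sum]
      _ ≤ ∑ y ∈ S, ∑ i, W.p i * a (y * (W.g i)⁻¹) ^ 2 :=
          Finset.sum_le_sum fun y _ => spec1_cvx W.p (fun i => a (y * (W.g i)⁻¹)) W.pos W.sum i₀ j
      _ = ∑ i, W.p i * ∑ y ∈ S, a (y * (W.g i)⁻¹) ^ 2 := by
          rw [Finset.sum_comm]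
          exact Finset.sum_congr rfl fun i _ => (Finset.mul_sum _ _ _).symm
      _ = ∑ i, W.p i * ∑' y, a y ^ 2 := Finset.sum_congr rfl fun i _ => by rw [hN i]
      _ = ∑' y, a y ^ 2 := by rw [← Finset.sum_mul, W.sum, one_mul]
  have hNn : 0 ≤ ∑' y, a y ^ 2 := tsum_nonneg fun y => sq_nonneg _
  have hfinal : ∀ j, c ≤ W.p i₀ * W.p j → (∑' y, a y ^ 2) / 16 ≤ ∑' y, (a (y * (W.g j)⁻¹) - a y) ^ 2 →
      ∑' y, (∑ i, W.p i * a (y * (W.g i)⁻¹)) ^ 2 ≤ (1 - c / 16) * ∑' y, a y ^ 2 := by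
    intro j hcj hj
    have hm := hmain j
    rw [← hA, ← hD j] at hm
    have h3 : c * ((∑' y, a y ^ 2) / 16) ≤ W.p i₀ * W.p j * ∑' y, (a (y * (W.g j)⁻¹) - a y) ^ 2 :=
      mul_le_mul hcj hj (by positivity) (mul_nonneg (W.pos _).le (W.pos _).le)
    linarith
  rcases l2_move h (W.g i₁)⁻¹ (W.g i₂)⁻¹ A₁ B₁ A₂ B₂ hd h1 h2 a ha hfin with h3 | h3
  · exact hfinal i₁ (min_le_left _ _) h3
  · exact hfinal i₂ (min_le_right _ _) h3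

end Pool.Agent.DD
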