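import Pool.Agent.Lib_MP_644907_full.Words
import Pool.Agent.Lib_MP_644907_full.Meas1

/-!
# Piece SPEC2A: a walk with the same stationary measure and exponentially decaying transition probabilities
-/

set_option autoImplicit false

namespace Pool.Agent.DD

open MeasureTheory Filter Topology Metric

variable {Γ : Type} [Group Γ] [MulAction Γ ℂ] {ι : Type} [Fintype ι] {ν : Measure ℂ}

/-- stationarity for the walks of `k` steps: `ν A = ∑_w wp w · ν ((wg w •)⁻¹ A)` (induction on `k`) -/
theorem stat_words (h : Fuchs Γ) (W : PreWalk Γ ι) (hν : Stat W ν) (k : ℕ) (A : Set ℂ) (hA : MeasurableSet A) :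
    ν A = ∑ w : Fin k → ι, ENNReal.ofReal (wp W w) * ν ((fun z : ℂ => wg W w • z) ⁻¹' A) := by
  induction k generalizing A with
  | zero =>
    rw [Fintype.sum_unique]
    have e1 : wp W (default : Fin 0 → ι) = 1 := by simp [wp]
    have e2 : wg W (default : Fin 0 → ι) = 1 := by simp [wg]
    rw [e1, e2]
    simp
  | succ k ih =>
    rw [← Equiv.sum_comp (Fin.consEquiv fun _ : Fin (k + 1) => ι), Fintype.sum_prod_type, hν.stat A hA]
    refine Finset.sum_congr rfl fun i _ => ?_
    rw [ih _ (h.meas (W.g i) hA), Finset.mul_sum]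
    refine Finset.sum_congr rfl fun w _ => ?_
    have e1 : wp W ((Fin.consEquiv fun _ : Fin (k + 1) => ι) (i, w)) = W.p i * wp W w := by
      simp [wp, Fin.prod_univ_succ, Fin.consEquiv]
    have e2 : wg W ((Fin.consEquiv fun _ : Fin (k + 1) => ι) (i, w)) = W.g i * wg W w := by
      simp [wg, List.ofFn_succ, Fin.consEquiv]
    rw [e1, e2, ENNReal.ofReal_mul (W.pos i).le, mul_assoc]
    congr 3
    ext z
    simp [mul_smul]

end Pool.Agent.DD
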