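import Pool.Agent.Lib_MP_644907_full.Words

/-!
# Piece SPEC2B: contraction of the `ℓ²` norm implies decay of the transition probabilities
-/

set_option autoImplicit false

namespace Pool.Agent.DD

open MeasureTheory Filter Topology Metric

variable {Γ : Type} [Group Γ] {ι : Type} [Fintype ι]

theorem spec2b_pn_succ (W : PreWalk Γ ι) (y : Γ) (k : ℕ) (x : Γ) :
    pn W y (k + 1) x = ∑ i, W.p i * pn W y k (x * W.g i) := rfl

theorem spec2b_pn_last (W : PreWalk Γ ι) (k : ℕ) : ∀ x y : Γ,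
    pn W y (k + 1) x = ∑ i, W.p i * pn W (y * (W.g i)⁻¹) k x := by
  induction k with
  | zero =>
    intro x y
    rw [spec2b_pn_succ]
    refine Finset.sum_congr rfl fun i _ => ?_
    simp only [pn]
    by_cases h : x * W.g i = y
    · rw [if_pos h, if_pos (eq_mul_inv_of_mul_eq h)]
    · rw [if_neg h, if_neg fun h' => h (by rw [h', inv_mul_cancel_right])]
  | succ k ih =>
    intro x y
    rw [spec2b_pn_succ]
    calc ∑ i, W.p i * pn W y (k + 1) (x * W.g i)
        = ∑ i, ∑ j, W.p i * (W.p j * pn W (y * (W.g j)⁻¹) k (x * W.g i)) := by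
          refine Finset.sum_congr rfl fun i _ => ?_
          rw [ih, Finset.mul_sum]
      _ = ∑ j, ∑ i, W.p i * (W.p j * pn W (y * (W.g j)⁻¹) k (x * W.g i)) := Finset.sum_comm
      _ = ∑ j, W.p j * pn W (y * (W.g j)⁻¹) (k + 1) x := by
          refine Finset.sum_congr rfl fun j _ => ?_
          rw [spec2b_pn_succ, Finset.mul_sum]
          refine Finset.sum_congr rfl fun i _ => ?_
          ring

theorem spec2b_pn_nonneg (W : PreWalk Γ ι) (k : ℕ) : ∀ x y : Γ, 0 ≤ pn W y k x := by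
  induction k with
  | zero =>
    intro x y
    simp only [pn]
    split_ifs
    · exact zero_le_one
    · exact le_rfl
  | succ k ih =>
    intro x y
    rw [spec2b_pn_succ]
    exact Finset.sum_nonneg fun i _ => mul_nonneg (W.pos i).le (ih _ _)

theorem spec2b_pn_trans (W : PreWalk Γ ι) (a y : Γ) (k : ℕ) : ∀ x : Γ, pn W y k (a * x) = pn W (a⁻¹ * y) k x := by
  induction k with
  | zero =>
    intro x
    simp only [pn]
    by_cases h : a * x = y
    · rw [if_pos h, if_pos (by rw [← h, inv_mul_cancel_left])]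
    · rw [if_neg h, if_neg fun h' => h (by rw [h', mul_inv_cancel_left])]
  | succ k ih =>
    intro x
    rw [spec2b_pn_succ, spec2b_pn_succ]
    refine Finset.sum_congr rfl fun i _ => ?_
    rw [mul_assoc, ih]

theorem spec2b_pn_finite (W : PreWalk Γ ι) (x : Γ) (k : ℕ) : (Function.support fun y : Γ => pn W y k x).Finite := by
  induction k with
  | zero =>
    refine (Set.finite_singleton x).subset fun y hy => ?_
    rw [Function.mem_support] at hy
    simp only [pn] at hy
    by_contra hne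
    exact hy (if_neg fun h => hne (by rw [Set.mem_singleton_iff, h]))
  | succ k ih =>
    refine (Set.finite_iUnion fun i : ι => ih.image fun y => y * W.g i).subset fun y hy => ?_
    rw [Function.mem_support, spec2b_pn_last] at hy
    obtain ⟨i, _, hi⟩ := Finset.exists_ne_zero_of_sum_ne_zero hy
    refine Set.mem_iUnion.2 ⟨i, y * (W.g i)⁻¹, ?_, by simp⟩
    exact right_ne_zero_of_mul hi

/-- `b_k y = pn W y k 1` is nonnegative, finitely supported (`pn_eq`) and satisfies `b_{k+1} y = ∑ p_i b_k (y g_i⁻¹)` (from `pn_eq`: split off the last letter), `b_0 = δ_1`. So `∑ b_k² ≤ ρ^(2k)`, `b_k y ≤ ρ^k`, and `pn W y k x = pn W (x⁻¹ y) k 1`. -/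
theorem decay_of_contr (W : PreWalk Γ ι) (ρ : ℝ) (h0 : 0 < ρ) (h1 : ρ < 1)
    (hc : ∀ a : Γ → ℝ, (∀ x, 0 ≤ a x) → (Function.support a).Finite →
      ∑' y, (∑ i, W.p i * a (y * (W.g i)⁻¹)) ^ 2 ≤ ρ ^ 2 * ∑' y, a y ^ 2) : Decay W 1 ρ := by
  refine ⟨one_pos, h0, h1, ?_⟩
  have hs : ∀ k : ℕ, ∑' y : Γ, pn W y k 1 ^ 2 ≤ ρ ^ (2 * k) := by
    intro k
    induction k with
    | zero =>
      rw [tsum_eq_single (1 : Γ) fun y hy => by
        simp only [pn]
        rw [if_neg (fun h => hy h.symm)]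
        norm_num]
      simp only [pn]
      rw [if_pos trivial]
      norm_num
    | succ k ih =>
      have h := hc (fun y => pn W y k 1) (fun y => spec2b_pn_nonneg W k 1 y) (spec2b_pn_finite W 1 k)
      calc ∑' y : Γ, pn W y (k + 1) 1 ^ 2 = ∑' y : Γ, (∑ i, W.p i * pn W (y * (W.g i)⁻¹) k 1) ^ 2 := by
            refine tsum_congr fun y => ?_
            rw [spec2b_pn_last]
        _ ≤ ρ ^ 2 * ∑' y, pn W y k 1 ^ 2 := h
        _ ≤ ρ ^ 2 * ρ ^ (2 * k) := mul_le_mul_of_nonneg_left ih (sq_nonneg ρ)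
        _ = ρ ^ (2 * (k + 1)) := by ring
  have hb : ∀ (k : ℕ) (y : Γ), pn W y k 1 ≤ ρ ^ k := by
    intro k y
    have hsum : Summable fun y : Γ => pn W y k 1 ^ 2 := by
      refine summable_of_hasFiniteSupport ?_
      refine (spec2b_pn_finite W 1 k).subset fun z hz => ?_
      rw [Function.mem_support] at hz ⊢
      intro h
      exact hz (by rw [h]; norm_num)
    have h2 : pn W y k 1 ^ 2 ≤ (ρ ^ k) ^ 2 := by
      calc pn W y k 1 ^ 2 ≤ ∑' z : Γ, pn W z k 1 ^ 2 := hsum.le_tsum y fun z _ => sq_nonneg _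
        _ ≤ ρ ^ (2 * k) := hs k
        _ = (ρ ^ k) ^ 2 := by rw [← pow_mul, mul_comm]
    exact le_of_sq_le_sq h2 (pow_pos h0 k).le
  intro k x y
  have h := spec2b_pn_trans W x y k 1
  rw [mul_one] at h
  rw [h, one_mul]
  exact hb k _

end Pool.Agent.DD
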