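import Pool.Agent.Lib_MP_644907_full.Ping
import Pool.Agent.Lib_MP_644907_full.Spec1
import Pool.Agent.Lib_MP_644907_full.Spec2a
import Pool.Agent.Lib_MP_644907_full.Spec2b

/-!
# Piece SPEC2: a walk with the same stationary measure and exponentially decaying transition probabilities
-/

set_option autoImplicit false

namespace Pool.Agent.DD

open MeasureTheory Filter Topology Metric

variable {Γ : Type} [Group Γ] [MulAction Γ ℂ] {ι : Type} [Fintype ι] {ν : Measure ℂ}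

/-- weights of the mixture -/
private noncomputable def spec2P (W : PreWalk Γ ι) (n₁ n₂ : ℕ) : Unit ⊕ ((Fin n₁ → ι) ⊕ (Fin n₂ → ι)) → ℝ :=
  Sum.elim (fun _ => 1 / 3) (Sum.elim (fun w => 1 / 3 * wp W w) (fun w => 1 / 3 * wp W w))

/-- elements of the mixture -/
private def spec2G (W : PreWalk Γ ι) (n₁ n₂ : ℕ) : Unit ⊕ ((Fin n₁ → ι) ⊕ (Fin n₂ → ι)) → Γ :=
  Sum.elim (fun _ => 1) (Sum.elim (fun w => wg W w) (fun w => wg W w))

private theorem spec2_pos (W : PreWalk Γ ι) (n₁ n₂ : ℕ) (j) : 0 < spec2P W n₁ n₂ j := by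
  rcases j with j | j | j
  · show (0 : ℝ) < 1 / 3
    norm_num
  · show (0 : ℝ) < 1 / 3 * wp W j
    exact mul_pos (by norm_num) (wp_pos W j)
  · show (0 : ℝ) < 1 / 3 * wp W j
    exact mul_pos (by norm_num) (wp_pos W j)

private theorem spec2_sum (W : PreWalk Γ ι) (n₁ n₂ : ℕ) : ∑ j, spec2P W n₁ n₂ j = 1 := by
  rw [Fintype.sum_sum_type, Fintype.sum_sum_type]
  have e1 : ∑ a : Unit, spec2P W n₁ n₂ (Sum.inl a) = 1 / 3 := by
    simp [spec2P]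
  have e2 : ∑ a : Fin n₁ → ι, spec2P W n₁ n₂ (Sum.inr (Sum.inl a)) = 1 / 3 := by
    simp only [spec2P, Sum.elim_inr, Sum.elim_inl]
    rw [← Finset.mul_sum, sum_wp, mul_one]
  have e3 : ∑ a : Fin n₂ → ι, spec2P W n₁ n₂ (Sum.inr (Sum.inr a)) = 1 / 3 := by
    simp only [spec2P, Sum.elim_inr]
    rw [← Finset.mul_sum, sum_wp, mul_one]
  rw [e1, e2, e3]
  norm_num

private theorem spec2_stat (h : Fuchs Γ) (W : PreWalk Γ ι) (hν : Stat W ν) (n₁ n₂ : ℕ) (A : Set ℂ) (hA : MeasurableSet A) :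
    ν A = ∑ j, ENNReal.ofReal (spec2P W n₁ n₂ j) * ν ((fun z : ℂ => spec2G W n₁ n₂ j • z) ⁻¹' A) := by
  rw [Fintype.sum_sum_type, Fintype.sum_sum_type]
  have e1 : ∑ a : Unit, ENNReal.ofReal (spec2P W n₁ n₂ (Sum.inl a)) * ν ((fun z : ℂ => spec2G W n₁ n₂ (Sum.inl a) • z) ⁻¹' A) =
      ENNReal.ofReal (1 / 3) * ν A := by
    simp [spec2P, spec2G]
  have e2 : ∑ a : Fin n₁ → ι, ENNReal.ofReal (spec2P W n₁ n₂ (Sum.inr (Sum.inl a))) *
      ν ((fun z : ℂ => spec2G W n₁ n₂ (Sum.inr (Sum.inl a)) • z) ⁻¹' A) = ENNReal.ofReal (1 / 3) * ν A := by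
    simp only [spec2P, spec2G, Sum.elim_inr, Sum.elim_inl]
    rw [stat_words h W hν n₁ A hA, Finset.mul_sum]
    refine Finset.sum_congr rfl fun w _ => ?_
    rw [ENNReal.ofReal_mul (by norm_num), mul_assoc]
  have e3 : ∑ a : Fin n₂ → ι, ENNReal.ofReal (spec2P W n₁ n₂ (Sum.inr (Sum.inr a))) *
      ν ((fun z : ℂ => spec2G W n₁ n₂ (Sum.inr (Sum.inr a)) • z) ⁻¹' A) = ENNReal.ofReal (1 / 3) * ν A := by
    simp only [spec2P, spec2G, Sum.elim_inr]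
    rw [stat_words h W hν n₂ A hA, Finset.mul_sum]
    refine Finset.sum_congr rfl fun w _ => ?_
    rw [ENNReal.ofReal_mul (by norm_num), mul_assoc]
  rw [e1, e2, e3, ← add_mul, ← add_mul, ← ENNReal.ofReal_add (by norm_num) (by norm_num),
    ← ENNReal.ofReal_add (by norm_num) (by norm_num)]
  norm_num

/-- Let `k₁, k₂` be the elements of `ping`, `k_l⁻¹ = wg w_l` with words `w_l` of length `n_l` (`exists_word`). `W'` = mixture `(1/3) (δ_1 + μ^{* n_1} + μ^{* n_2})`, indexed by `Unit ⊕ (Fin n_1 → ι) ⊕ (Fin n_2 → ι)` (transported to `Fin n` by `Fintype.equivFin`); `ν` is stationary for it (`stat_words`).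
`l2_step` with the indices of `1`, `w_1`, `w_2`, and `decay_of_contr`. -/
theorem exists_decay (h : Fuchs Γ) (hL : (Lim Γ).Infinite) (W : Walk Γ ι) (hν : Stat W.toPreWalk ν) :
    ∃ (n : ℕ) (W' : PreWalk Γ (Fin n)) (C ρ : ℝ), Stat W' ν ∧ Decay W' C ρ := by
  classical
  obtain ⟨k₁, k₂, A₁, B₁, A₂, B₂, d1, d2, d3, d4, d5, d6, hk₁, hk₂⟩ := ping h hL
  obtain ⟨n₁, w₁, hw₁⟩ := exists_word W k₁⁻¹
  obtain ⟨n₂, w₂, hw₂⟩ := exists_word W k₂⁻¹
  set J := Unit ⊕ ((Fin n₁ → ι) ⊕ (Fin n₂ → ι)) with hJ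
  have ε : J ≃ Fin (Fintype.card J) := Fintype.equivFin J
  set W' : PreWalk Γ (Fin (Fintype.card J)) :=
    { p := fun i => spec2P W.toPreWalk n₁ n₂ (ε.symm i)
      g := fun i => spec2G W.toPreWalk n₁ n₂ (ε.symm i)
      pos := fun i => spec2_pos W.toPreWalk n₁ n₂ (ε.symm i)
      sum := by
        rw [Equiv.sum_comp ε.symm (fun j => spec2P W.toPreWalk n₁ n₂ j)]
        exact spec2_sum W.toPreWalk n₁ n₂ } with hW'
  have hstat : Stat W' ν := by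
    refine ⟨hν.prob, hν.supp, fun A hA => ?_⟩
    rw [spec2_stat h W.toPreWalk hν n₁ n₂ A hA]
    exact (Equiv.sum_comp ε.symm (fun j => ENNReal.ofReal (spec2P W.toPreWalk n₁ n₂ j) *
      ν ((fun z : ℂ => spec2G W.toPreWalk n₁ n₂ j • z) ⁻¹' A))).symm
  have g0 : W'.g (ε (Sum.inl ())) = 1 := by
    show spec2G W.toPreWalk n₁ n₂ (ε.symm (ε (Sum.inl ()))) = 1
    rw [Equiv.symm_apply_apply]
    rfl
  have g1 : W'.g (ε (Sum.inr (Sum.inl w₁))) = k₁⁻¹ := by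
    show spec2G W.toPreWalk n₁ n₂ (ε.symm (ε (Sum.inr (Sum.inl w₁)))) = k₁⁻¹
    rw [Equiv.symm_apply_apply, ← hw₁]
    rfl
  have g2 : W'.g (ε (Sum.inr (Sum.inr w₂))) = k₂⁻¹ := by
    show spec2G W.toPreWalk n₁ n₂ (ε.symm (ε (Sum.inr (Sum.inr w₂)))) = k₂⁻¹
    rw [Equiv.symm_apply_apply, ← hw₂]
    rfl
  obtain ⟨ρ, hρ0, hρ1, hc⟩ := l2_step h W' (ε (Sum.inl ())) (ε (Sum.inr (Sum.inl w₁))) (ε (Sum.inr (Sum.inr w₂)))
    g0 A₁ B₁ A₂ B₂ ⟨d1, d2, d3, d4, d5, d6⟩ (by rw [g1, inv_inv]; exact hk₁) (by rw [g2, inv_inv]; exact hk₂)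
  exact ⟨_, W', 1, ρ, hstat, decay_of_contr W' ρ hρ0 hρ1 hc⟩

end Pool.Agent.DD
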