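import Pool.Agent.Lib_MP_644907_full.Crit1
import Pool.Agent.Lib_MP_644907_full.Spec2
import Pool.Agent.Lib_MP_644907_full.Entr

/-!
# Piece CRIT: the critical exponent
-/

set_option autoImplicit false

namespace Pool.Agent.DD

open MeasureTheory Filter Topology Metric

variable {Γ : Type} [Group Γ] [MulAction Γ ℂ] {ι : Type} [Fintype ι] {ν : Measure ℂ}

private theorem crit_pos (h : Fuchs Γ) (γ : Γ) : 0 < 1 - ‖γ • (0 : ℂ)‖ ^ 2 := by
  have h1 := h.norm0 γ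
  have h0 := norm_nonneg (γ • (0 : ℂ))
  nlinarith only [h1, h0]

private theorem crit_path (h : Fuchs Γ) (W : PreWalk Γ ι) (C : ℝ) (hC : 1 ≤ C)
    (hs : ∀ (x : Γ) (i : ι), 1 - ‖x • (0 : ℂ)‖ ^ 2 ≤ C * (1 - ‖(x * W.g i) • (0 : ℂ)‖ ^ 2)) (k : ℕ) (w : Fin k → ι) :
    (1 / C) ^ k ≤ 1 - ‖wg W w • (0 : ℂ)‖ ^ 2 := by
  obtain ⟨y, hy0, hyk, hy⟩ := exists_path W k w 1
  rw [one_mul] at hyk
  rw [← hyk]
  have hC0 : 0 < C := by linarith
  have key : ∀ j ≤ k, (1 / C) ^ j ≤ 1 - ‖y j • (0 : ℂ)‖ ^ 2 := by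
    intro j
    induction j with
    | zero =>
      intro _
      rw [hy0, one_smul, norm_zero]
      norm_num
    | succ j ih =>
      intro hj
      obtain ⟨i, hi⟩ := hy j (by omega)
      have h1 := ih (by omega)
      have h2 := hs (y j) i
      rw [← hi] at h2
      have h3 : (1 / C) ^ (j + 1) * C = (1 / C) ^ j := by
        rw [pow_succ, mul_assoc, one_div_mul_cancel hC0.ne', mul_one]
      have h4 : (1 / C) ^ (j + 1) * C ≤ (1 - ‖y (j + 1) • (0 : ℂ)‖ ^ 2) * C := by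
        rw [h3]
        linarith only [h1, h2]
      exact le_of_mul_le_mul_right h4 hC0
  exact key k le_rfl

/-- exponential growth: `W', C, ρ` from `exists_decay`. The endpoints `y = wg w` of the words of length `k` satisfy `1 - |y 0|² ≥ c^k` (`step_bound`, `c = 1 / C₁`, by induction over the path, `exists_path`), each has probability `≤ C ρ^k` (`pn_eq`, `Decay`) and the probabilities sum up to 1 (`sum_wp`), so there are at least `ρ^(-k) / C` of them. So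
`∑_γ (1 - |γ 0|²)^t ≥ c^(k t) ρ^(-k) / C → ∞` for `k → ∞` if `t > 0` is so small that `c^t > ρ`. -/
theorem exists_not_conv (h : Fuchs Γ) (hL : (Lim Γ).Infinite) (W : Walk Γ ι) (hν : Stat W.toPreWalk ν) : ∃ t : ℝ, 0 < t ∧ ¬ Conv Γ t := by
  classical
  obtain ⟨n, W', C, ρ, -, hd⟩ := exists_decay h hL W hν
  obtain ⟨hC, hρ0, hρ1, -⟩ := id hd
  obtain ⟨C₁, hC₁, hs⟩ := step_bound h W'
  have hC₁0 : 0 < C₁ := by linarith
  set c : ℝ := 1 / C₁ with hc
  have hc0 : 0 < c := one_div_pos.2 hC₁0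
  have hcont : Tendsto (fun t : ℝ => c ^ t) (𝓝 0) (𝓝 1) := by
    have h1 := (Real.continuousAt_const_rpow (a := c) (b := 0) hc0.ne').tendsto
    rwa [Real.rpow_zero] at h1
  have hev : ∀ᶠ t : ℝ in 𝓝 0, ρ < c ^ t := hcont.eventually (lt_mem_nhds hρ1)
  obtain ⟨t, ht, ht0⟩ : ∃ t : ℝ, ρ < c ^ t ∧ 0 < t := by
    have h2 : ∀ᶠ t : ℝ in 𝓝[>] 0, ρ < c ^ t := hev.filter_mono nhdsWithin_le_nhds
    exact (h2.and self_mem_nhdsWithin).exists
  refine ⟨t, ht0, fun hconv => ?_⟩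
  unfold Conv at hconv
  set T : ℝ := ∑' γ : Γ, (1 - ‖γ • (0 : ℂ)‖ ^ 2) ^ t with hT
  have hbound : ∀ k : ℕ, (c ^ t / ρ) ^ k ≤ C * T := by
    intro k
    set S : Finset Γ := Finset.univ.image fun w : Fin k → Fin n => wg W' w with hS
    have h1 := tail_finset W' C ρ hd k S
    have h2 : ∑ w : Fin k → Fin n, (if wg W' w ∈ S then wp W' w else 0) = 1 := by
      rw [← sum_wp W' k]
      refine Finset.sum_congr rfl fun w _ => ?_
      rw [if_pos (Finset.mem_image_of_mem _ (Finset.mem_univ w))]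
    rw [h2] at h1
    have h3 : (S.card : ℝ) * (c ^ t) ^ k ≤ T := by
      have h4 : ∑ γ ∈ S, (1 - ‖γ • (0 : ℂ)‖ ^ 2) ^ t ≤ T :=
        hconv.sum_le_tsum S fun γ _ => Real.rpow_nonneg (crit_pos h γ).le t
      refine le_trans ?_ h4
      rw [← nsmul_eq_mul]
      refine Finset.card_nsmul_le_sum _ _ _ fun γ hγ => ?_
      rw [hS, Finset.mem_image] at hγ
      obtain ⟨w, -, rfl⟩ := hγ
      have h5 := crit_path h W' C₁ hC₁ (fun x i => (hs x i).2.2.1) k w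
      rw [← Real.rpow_natCast (c ^ t) k, ← Real.rpow_mul hc0.le, mul_comm, Real.rpow_mul hc0.le, Real.rpow_natCast]
      exact Real.rpow_le_rpow (pow_nonneg hc0.le k) h5 ht0.le
    have h6 : (0 : ℝ) < (c ^ t) ^ k := pow_pos (Real.rpow_pos_of_pos hc0 t) k
    have h7 : (0 : ℝ) < ρ ^ k := pow_pos hρ0 k
    rw [div_pow, div_le_iff₀ h7]
    calc (c ^ t) ^ k = 1 * (c ^ t) ^ k := (one_mul _).symm
      _ ≤ (S.card * (C * ρ ^ k)) * (c ^ t) ^ k := mul_le_mul_of_nonneg_right h1 h6.le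
      _ = (S.card * (c ^ t) ^ k) * (C * ρ ^ k) := by ring
      _ ≤ T * (C * ρ ^ k) := mul_le_mul_of_nonneg_right h3 (mul_pos hC h7).le
      _ = C * T * ρ ^ k := by ring
  have hgt : 1 < c ^ t / ρ := by rwa [one_lt_div hρ0]
  obtain ⟨k, hk⟩ := pow_unbounded_of_one_lt (C * T) hgt
  exact absurd (hbound k) (not_le.2 hk)

/-- `δ = sSup {t | ¬ Conv Γ t}` -/
theorem exists_crit (h : Fuchs Γ) (hL : (Lim Γ).Infinite) (W : Walk Γ ι) (hν : Stat W.toPreWalk ν) : ∃ δ : ℝ, 0 < δ ∧ (∀ t < δ, ¬ Conv Γ t) ∧ (∀ t > δ, Conv Γ t) := by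
  obtain ⟨t₀, ht₀, hn⟩ := exists_not_conv h hL W hν
  have hbdd : BddAbove {t : ℝ | ¬ Conv Γ t} := by
    refine ⟨2, fun t ht => ?_⟩
    by_contra hc
    exact ht (conv_mono h 2 t (not_le.1 hc).le (conv_two h))
  refine ⟨sSup {t : ℝ | ¬ Conv Γ t}, lt_of_lt_of_le ht₀ (le_csSup hbdd hn), fun t ht hconv => ?_, fun t ht => ?_⟩
  · obtain ⟨t', ht', htt'⟩ := exists_lt_of_lt_csSup ⟨t₀, hn⟩ ht
    exact ht' (conv_mono h t t' htt'.le hconv)
  · by_contra hc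
    exact absurd (le_csSup hbdd hc) (not_le.2 ht)

end Pool.Agent.DD
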