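import Pool.Agent.Lib_MP_644907_full.Count

/-!
# Piece CRIT1: the critical exponent
-/

set_option autoImplicit false

namespace Pool.Agent.DD

open MeasureTheory Filter Topology Metric

variable {Γ : Type} [Group Γ] [MulAction Γ ℂ] {ι : Type} [Fintype ι] {ν : Measure ℂ}

/-- the Poincare series of exponent `t` converges -/
def Conv (Γ : Type) [Group Γ] [MulAction Γ ℂ] (t : ℝ) : Prop := Summable (fun γ : Γ => (1 - ‖γ • (0 : ℂ)‖ ^ 2) ^ t)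

theorem crit1_pos (h : Fuchs Γ) (γ : Γ) : 0 < 1 - ‖γ • (0 : ℂ)‖ ^ 2 := by
  have h1 := h.norm0 γ
  have h2 := norm_nonneg (γ • (0 : ℂ))
  nlinarith only [h1, h2]

theorem crit1_le (γ : Γ) : 1 - ‖γ • (0 : ℂ)‖ ^ 2 ≤ 1 := by
  have h2 := sq_nonneg ‖γ • (0 : ℂ)‖
  linarith only [h2]

/-- the terms are in `(0, 1]` -/
theorem conv_mono (h : Fuchs Γ) (t t' : ℝ) (htt : t ≤ t') (hc : Conv Γ t) : Conv Γ t' := by
  refine Summable.of_nonneg_of_le (fun γ => ?_) (fun γ => ?_) hc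
  · exact Real.rpow_nonneg (crit1_pos h γ).le _
  · exact Real.rpow_le_rpow_of_exponent_ge (crit1_pos h γ) (crit1_le γ) htt

/-- dyadic shells and `count_ball`: `∑_j C 2^(j+1) 2^(-2 j)` for the exponent 2 -/
theorem conv_two (h : Fuchs Γ) : Conv Γ 2 := by
  classical
  obtain ⟨C, hC, hcnt⟩ := count_ball h
  have hj : ∀ γ : Γ, ∃ j : ℕ, (1 / 2 : ℝ) ^ (j + 1) < 1 - ‖γ • (0 : ℂ)‖ ^ 2 ∧
      1 - ‖γ • (0 : ℂ)‖ ^ 2 ≤ (1 / 2 : ℝ) ^ j := fun γ =>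
    exists_nat_pow_near_of_lt_one (crit1_pos h γ) (crit1_le γ) (by norm_num) (by norm_num)
  choose jj hj1 hj2 using hj
  refine summable_of_sum_le (c := 2 * C * 2) (fun γ => Real.rpow_nonneg (crit1_pos h γ).le _) fun u => ?_
  have e1 : ∑ γ ∈ u, (1 - ‖γ • (0 : ℂ)‖ ^ 2) ^ (2 : ℝ) =
      ∑ j ∈ Finset.range (u.sup jj + 1), ∑ γ ∈ u with jj γ = j, (1 - ‖γ • (0 : ℂ)‖ ^ 2) ^ (2 : ℝ) := by
    refine (Finset.sum_fiberwise_of_maps_to (fun γ hγ => ?_) _).symm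
    rw [Finset.mem_range]
    exact Nat.lt_succ_of_le (Finset.le_sup hγ)
  rw [e1]
  have e2 : ∀ j ∈ Finset.range (u.sup jj + 1),
      ∑ γ ∈ u with jj γ = j, (1 - ‖γ • (0 : ℂ)‖ ^ 2) ^ (2 : ℝ) ≤ 2 * C * (1 / 2 : ℝ) ^ j := by
    intro j _
    have hp : (0 : ℝ) < (1 / 2) ^ j := by positivity
    have hp1 : (1 / 2 : ℝ) ^ j ≤ 1 := pow_le_one₀ (by norm_num) (by norm_num)
    have e3 : ∑ γ ∈ u with jj γ = j, (1 - ‖γ • (0 : ℂ)‖ ^ 2) ^ (2 : ℝ) ≤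
        ∑ γ ∈ u with jj γ = j, ((1 / 2 : ℝ) ^ j) ^ 2 := by
      refine Finset.sum_le_sum fun γ hγ => ?_
      obtain ⟨-, hγ2⟩ := Finset.mem_filter.1 hγ
      rw [Real.rpow_two]
      have := hj2 γ
      rw [hγ2] at this
      exact pow_le_pow_left₀ (crit1_pos h γ).le this 2
    have e4 : ((u.filter fun γ => jj γ = j).card : ℝ) ≤ C / (1 / 2 : ℝ) ^ (j + 1) := by
      refine hcnt _ _ (by positivity) (pow_le_one₀ (by norm_num) (by norm_num)) fun γ hγ => ?_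
      obtain ⟨-, hγ2⟩ := Finset.mem_filter.1 hγ
      have := hj1 γ
      rw [hγ2] at this
      exact this.le
    refine e3.trans ?_
    rw [Finset.sum_const, nsmul_eq_mul]
    calc ((u.filter fun γ => jj γ = j).card : ℝ) * ((1 / 2 : ℝ) ^ j) ^ 2 ≤
        C / (1 / 2 : ℝ) ^ (j + 1) * ((1 / 2 : ℝ) ^ j) ^ 2 := mul_le_mul_of_nonneg_right e4 (by positivity)
      _ = 2 * C * (1 / 2 : ℝ) ^ j := by
          rw [pow_succ]
          field_simp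
  refine (Finset.sum_le_sum e2).trans ?_
  rw [← Finset.mul_sum]
  exact mul_le_mul_of_nonneg_left (sum_geometric_two_le _) (by positivity)

end Pool.Agent.DD
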