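import Pool.Agent.Lib_MP_644907_full.Bas

/-!
# Piece DIME: dimension of the set of points in heavy dyadic arcs
-/

set_option autoImplicit false

namespace Pool.Agent.DD

open MeasureTheory Filter Topology Metric

/-- the points of the circle which lie in infinitely many arcs of the grid `σ` with `ν ≥ 2^(-t l)` -/
def Heavy (ν : Measure ℂ) (σ t : ℝ) : Set ℂ :=
  {ξ | ‖ξ‖ = 1 ∧ ∃ᶠ l : ℕ in atTop, ((1 / 2 : ℝ) ^ l) ^ t ≤ ν.real (dya σ l ξ)}

namespace DimEAux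

/-- the heavy arcs of one level -/
def HL (ν : Measure ℂ) (σ t : ℝ) (l : ℕ) : Set ℂ :=
  {ξ : ℂ | ((1 / 2 : ℝ) ^ l) ^ t ≤ ν.real (dya σ l ξ)}

lemma meas_HL (ν : Measure ℂ) (σ t : ℝ) (l : ℕ) : MeasurableSet (HL ν σ t l) := by
  classical
  have h1 : HL ν σ t l = ⋃ j ∈ (Finset.range (2 ^ l)).filter (fun j : ℕ => ((1 / 2 : ℝ) ^ l) ^ t ≤
      ν.real (arc (σ + j * (1 / 2) ^ l) (σ + j * (1 / 2) ^ l + (1 / 2) ^ l))),
      bas σ l ⁻¹' {σ + j * (1 / 2) ^ l} := by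
    ext ξ
    simp only [Set.mem_iUnion, Set.mem_preimage, Set.mem_singleton_iff, Finset.mem_filter,
      Finset.mem_range, exists_prop]
    constructor
    · intro h
      obtain ⟨j, hj, hb⟩ := bas_mem σ l ξ
      refine ⟨j, ⟨hj, ?_⟩, hb⟩
      have h2 : ((1 / 2 : ℝ) ^ l) ^ t ≤ ν.real (dya σ l ξ) := h
      unfold dya at h2
      rw [hb] at h2
      exact h2
    · rintro ⟨j, ⟨hj, h⟩, hb⟩
      change ((1 / 2 : ℝ) ^ l) ^ t ≤ ν.real (dya σ l ξ)
      unfold dya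
      rw [hb]
      exact h
  rw [h1]
  exact Finset.measurableSet_biUnion _ (fun j _ => meas_bas σ l (measurableSet_singleton _))

/-- the arc number `j` of level `l` if it is heavy and not contained in a heavy arc of a level
between `n` and `l` -/
def BB (ν : Measure ℂ) (σ t : ℝ) (n : ℕ) (p : ℕ × ℕ) : Set ℂ :=
  {ξ : ℂ | n ≤ p.1 ∧ ‖ξ‖ = 1 ∧ bas σ p.1 ξ = σ + p.2 * (1 / 2) ^ p.1 ∧ ξ ∈ HL ν σ t p.1 ∧
    ∀ l', n ≤ l' → l' < p.1 → ξ ∉ HL ν σ t l'}

lemma meas_BB (ν : Measure ℂ) (σ t : ℝ) (n : ℕ) (p : ℕ × ℕ) : MeasurableSet (BB ν σ t n p) := by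
  have h1 : BB ν σ t n p = {ξ : ℂ | n ≤ p.1} ∩ ({ξ : ℂ | ‖ξ‖ = 1} ∩
      (bas σ p.1 ⁻¹' {σ + p.2 * (1 / 2) ^ p.1} ∩ (HL ν σ t p.1 ∩
        ⋂ l' : ℕ, {ξ : ℂ | n ≤ l' → l' < p.1 → ξ ∉ HL ν σ t l'}))) := by
    ext ξ
    simp only [BB, Set.mem_setOf_eq, Set.mem_inter_iff, Set.mem_preimage, Set.mem_singleton_iff,
      Set.mem_iInter]
  rw [h1]
  refine (MeasurableSet.const _).inter ((measurableSet_eq_fun measurable_norm
    measurable_const).inter ((meas_bas σ p.1 (measurableSet_singleton _)).inter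
      ((meas_HL ν σ t p.1).inter (MeasurableSet.iInter fun l' => ?_))))
  by_cases h2 : n ≤ l' ∧ l' < p.1
  · have h3 : {ξ : ℂ | n ≤ l' → l' < p.1 → ξ ∉ HL ν σ t l'} = (HL ν σ t l')ᶜ := by
      ext ξ
      simp only [Set.mem_setOf_eq, Set.mem_compl_iff]
      exact ⟨fun h => h h2.1 h2.2, fun h _ _ => h⟩
    rw [h3]
    exact (meas_HL ν σ t l').compl
  · have h3 : {ξ : ℂ | n ≤ l' → l' < p.1 → ξ ∉ HL ν σ t l'} = Set.univ := by
      ext ξ
      simp only [Set.mem_setOf_eq, Set.mem_univ, iff_true]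
      exact fun a b => absurd ⟨a, b⟩ h2
    rw [h3]
    exact MeasurableSet.univ

lemma norm_e (s : ℝ) : ‖e s‖ = 1 := by
  unfold e
  rw [show (2 * (Real.pi : ℂ) * (s : ℂ) * Complex.I) = ((2 * Real.pi * s : ℝ) : ℂ) * Complex.I by
    push_cast; ring]
  exact Complex.norm_exp_ofReal_mul_I _

/-- points of the same arc -/
lemma same_arc (σ : ℝ) (l : ℕ) (ξ η : ℂ) (hη : η ∈ dya σ l ξ) :
    ‖η‖ = 1 ∧ bas σ l η = bas σ l ξ := by
  obtain ⟨j, hj, hb⟩ := bas_mem σ l ξ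
  have h1 := hη
  unfold dya at h1
  rw [hb] at h1
  constructor
  · obtain ⟨s, -, rfl⟩ := h1
    exact norm_e s
  · rw [hb]
    apply bas_eq σ l j hj η
    have h2 : σ + (j : ℝ) * (1 / 2) ^ l + (1 / 2) ^ l = σ + ((j : ℝ) + 1) * (1 / 2) ^ l := by ring
    rw [h2] at h1
    exact h1

lemma BB_sub (ν : Measure ℂ) (σ t : ℝ) (n : ℕ) (p : ℕ × ℕ) (ξ : ℂ) (h : ξ ∈ BB ν σ t n p) :
    BB ν σ t n p ⊆ dya σ p.1 ξ := by
  intro η hη
  have h1 := mem_dya σ p.1 η hη.2.1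
  have h2 : dya σ p.1 η = dya σ p.1 ξ := by
    unfold dya
    rw [hη.2.2.1, h.2.2.1]
  rw [h2] at h1
  exact h1

lemma sub_BB (ν : Measure ℂ) (σ t : ℝ) (n : ℕ) (p : ℕ × ℕ) (ξ : ℂ) (h : ξ ∈ BB ν σ t n p) :
    dya σ p.1 ξ ⊆ BB ν σ t n p := by
  intro η hη
  obtain ⟨h1, h2⟩ := same_arc σ p.1 ξ η hη
  have key : ∀ l', l' ≤ p.1 → dya σ l' η = dya σ l' ξ := by
    intro l' hl'
    have h3 : bas σ l' η = bas σ l' ξ := by
      apply bas_congr σ l' (p.1 - l') η ξ h1 h.2.1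
      rw [Nat.add_sub_cancel' hl']
      exact h2
    unfold dya
    rw [h3]
  refine ⟨h.1, h1, by rw [h2]; exact h.2.2.1, ?_, ?_⟩
  · have h4 := h.2.2.2.1
    unfold HL at h4 ⊢
    rw [Set.mem_setOf_eq] at h4 ⊢
    rw [key _ le_rfl]
    exact h4
  · intro l' hn hl' h5
    apply h.2.2.2.2 l' hn hl'
    unfold HL at h5 ⊢
    rw [Set.mem_setOf_eq] at h5 ⊢
    rw [key l' hl'.le] at h5
    exact h5

lemma disj_BB (ν : Measure ℂ) (σ t : ℝ) (n : ℕ) :
    Pairwise (Function.onFun Disjoint (BB ν σ t n)) := by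
  intro p q hpq
  change Disjoint (BB ν σ t n p) (BB ν σ t n q)
  rw [Set.disjoint_left]
  intro ξ hp hq
  apply hpq
  rcases lt_trichotomy p.1 q.1 with h | h | h
  · exact absurd hp.2.2.2.1 (hq.2.2.2.2 p.1 hp.1 h)
  · have h1 := hp.2.2.1
    have h2 := hq.2.2.1
    rw [← h, h1] at h2
    have h3 : (p.2 : ℝ) * (1 / 2) ^ p.1 = (q.2 : ℝ) * (1 / 2) ^ p.1 := by linarith
    have h4 : (p.2 : ℝ) = q.2 := mul_right_cancel₀ (by positivity) h3
    exact Prod.ext h (Nat.cast_injective h4)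
  · exact absurd hq.2.2.2.1 (hp.2.2.2.2 q.1 hq.1 h)

lemma diam_BB (ν : Measure ℂ) [IsFiniteMeasure ν] (σ t : ℝ) (ht : 0 < t) (n : ℕ) (p : ℕ × ℕ) :
    Metric.ediam (BB ν σ t n p) ^ t ≤ ENNReal.ofReal (7 ^ t) * ν (BB ν σ t n p) := by
  rcases Set.eq_empty_or_nonempty (BB ν σ t n p) with h | ⟨ξ, hξ⟩
  · rw [h, Metric.ediam_empty, ENNReal.zero_rpow_of_pos ht]
    exact bot_le
  · have h1 : Metric.ediam (BB ν σ t n p) ≤ ENNReal.ofReal (7 * (1 / 2) ^ p.1) :=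
      (Metric.ediam_mono (BB_sub ν σ t n p ξ hξ)).trans (diam_arc _ _)
    have h2 : ((1 / 2 : ℝ) ^ p.1) ^ t ≤ ν.real (dya σ p.1 ξ) := hξ.2.2.2.1
    calc Metric.ediam (BB ν σ t n p) ^ t ≤ ENNReal.ofReal (7 * (1 / 2) ^ p.1) ^ t :=
          ENNReal.rpow_le_rpow h1 ht.le
      _ = ENNReal.ofReal ((7 * (1 / 2) ^ p.1) ^ t) :=
          ENNReal.ofReal_rpow_of_nonneg (by positivity) ht.le
      _ = ENNReal.ofReal (7 ^ t * ((1 / 2 : ℝ) ^ p.1) ^ t) := by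
          rw [Real.mul_rpow (by norm_num) (by positivity)]
      _ ≤ ENNReal.ofReal (7 ^ t * ν.real (dya σ p.1 ξ)) :=
          ENNReal.ofReal_le_ofReal (mul_le_mul_of_nonneg_left h2 (by positivity))
      _ = ENNReal.ofReal (7 ^ t) * ν (dya σ p.1 ξ) := by
          rw [ENNReal.ofReal_mul (by positivity), measureReal_def,
            ENNReal.ofReal_toReal (measure_ne_top ν _)]
      _ ≤ ENNReal.ofReal (7 ^ t) * ν (BB ν σ t n p) := by
          gcongr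
          exact sub_BB ν σ t n p ξ hξ

end DimEAux

open DimEAux

/-- `dya σ l ·` takes finitely many values; `{ξ on the circle | bas σ l ξ = β}` is measurable (`meas_bas`) -/
theorem meas_heavy (ν : Measure ℂ) (σ t : ℝ) : MeasurableSet (Heavy ν σ t) := by
  have h1 : Heavy ν σ t = {ξ : ℂ | ‖ξ‖ = 1} ∩ ⋂ n : ℕ, ⋃ l : ℕ, ⋃ _ : n ≤ l, HL ν σ t l := by
    ext ξ
    simp only [Heavy, Set.mem_setOf_eq, Set.mem_inter_iff, Set.mem_iInter, Set.mem_iUnion,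
      frequently_atTop, exists_prop]
    rfl
  rw [h1]
  exact (measurableSet_eq_fun measurable_norm measurable_const).inter
    (MeasurableSet.iInter fun n => MeasurableSet.iUnion fun l => MeasurableSet.iUnion fun _ =>
      meas_HL ν σ t l)

/-- For every `l₀`: every `ξ` of the set lies in an arc `dya σ l ξ`, `l ≥ l₀`, with `2^(-l t) ≤ ν (arc)`; take the one with minimal `l`. These arcs (a countable family, indexed by `(l, j)`, `j < 2^l`) are pairwise disjoint (`bas_nested`: dyadic arcs are nested or disjoint), so `∑ diam^t ≤ 7^t ∑ (2^(-l))^t ≤ 7^t ∑ ν (arc) ≤ 7^t ν univ` (`diam_arc`).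
So the Hausdorff measure `μH[t]` of the set is finite (`MeasureTheory.Measure.hausdorffMeasure_le_liminf_tsum`), and `dimH ≤ t` (`dimH_le_of_hausdorffMeasure_ne_top`). -/
theorem dimH_heavy (ν : Measure ℂ) [IsFiniteMeasure ν] (σ t : ℝ) (ht : 0 < t) : dimH (Heavy ν σ t) ≤ ENNReal.ofReal t := by
  classical
  have hr : Tendsto (fun n : ℕ => ENNReal.ofReal (7 * (1 / 2) ^ n)) atTop (𝓝 0) := by
    have h1 : Tendsto (fun n : ℕ => 7 * (1 / 2 : ℝ) ^ n) atTop (𝓝 (7 * 0)) :=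
      (tendsto_pow_atTop_nhds_zero_of_lt_one (by norm_num) (by norm_num)).const_mul 7
    have h2 := ENNReal.tendsto_ofReal h1
    rwa [mul_zero, ENNReal.ofReal_zero] at h2
  have hμ : μH[t] (Heavy ν σ t) ≤ liminf (fun n : ℕ => ∑' p : ℕ × ℕ,
      Metric.ediam (BB ν σ t n p) ^ t) atTop := by
    apply MeasureTheory.Measure.hausdorffMeasure_le_liminf_tsum t (Heavy ν σ t)
      (fun n : ℕ => ENNReal.ofReal (7 * (1 / 2) ^ n)) hr (fun n p => BB ν σ t n p)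
    · refine Eventually.of_forall fun n p => ?_
      rcases Set.eq_empty_or_nonempty (BB ν σ t n p) with h | ⟨ξ, hξ⟩
      · rw [h, Metric.ediam_empty]
        exact bot_le
      · refine (Metric.ediam_mono (BB_sub ν σ t n p ξ hξ)).trans ((diam_arc _ _).trans ?_)
        apply ENNReal.ofReal_le_ofReal
        have h3 : (1 / 2 : ℝ) ^ p.1 ≤ (1 / 2) ^ n :=
          pow_le_pow_of_le_one (by norm_num) (by norm_num) hξ.1
        linarith
    · refine Eventually.of_forall fun n ξ hξ => ?_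
      obtain ⟨h1, h2⟩ := hξ
      rw [frequently_atTop] at h2
      have h3 : ∃ l, n ≤ l ∧ ξ ∈ HL ν σ t l := by
        obtain ⟨l, hl, h⟩ := h2 n
        exact ⟨l, hl, h⟩
      have h4 := Nat.find_spec h3
      obtain ⟨j, -, hb⟩ := bas_mem σ (Nat.find h3) ξ
      rw [Set.mem_iUnion]
      refine ⟨(Nat.find h3, j), h4.1, h1, hb, h4.2, ?_⟩
      intro l' hn hl' h5
      exact Nat.find_min h3 hl' ⟨hn, h5⟩
  have hbound : ∀ n : ℕ, ∑' p : ℕ × ℕ, Metric.ediam (BB ν σ t n p) ^ t ≤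
      ENNReal.ofReal (7 ^ t) * ν Set.univ := by
    intro n
    calc ∑' p : ℕ × ℕ, Metric.ediam (BB ν σ t n p) ^ t
        ≤ ∑' p : ℕ × ℕ, ENNReal.ofReal (7 ^ t) * ν (BB ν σ t n p) :=
          ENNReal.tsum_le_tsum (diam_BB ν σ t ht n)
      _ = ENNReal.ofReal (7 ^ t) * ∑' p : ℕ × ℕ, ν (BB ν σ t n p) := ENNReal.tsum_mul_left
      _ ≤ ENNReal.ofReal (7 ^ t) * ν Set.univ := by
          gcongr
          exact (tsum_meas_le_meas_iUnion_of_disjoint ν (meas_BB ν σ t n)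
            (disj_BB ν σ t n)).trans (measure_mono (Set.subset_univ _))
  have hle : μH[t] (Heavy ν σ t) ≤ ENNReal.ofReal (7 ^ t) * ν Set.univ := by
    refine hμ.trans ?_
    refine (liminf_le_liminf (Eventually.of_forall hbound)).trans (le_of_eq ?_)
    exact liminf_const _
  have hne : μH[t] (Heavy ν σ t) ≠ ⊤ :=
    ne_top_of_le_ne_top (ENNReal.mul_ne_top ENNReal.ofReal_ne_top (measure_ne_top ν _)) hle
  have h5 : dimH (Heavy ν σ t) ≤ ((Real.toNNReal t : NNReal) : ENNReal) := by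
    apply dimH_le_of_hausdorffMeasure_ne_top
    rw [Real.coe_toNNReal t ht.le]
    exact hne
  exact h5

end Pool.Agent.DD
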