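import Pool.Agent.Lib_MP_644907_full.GoodG1
import Pool.Agent.Lib_MP_644907_full.ConfL

/-!
# Piece GOODG: geometry of good arcs
-/

set_option autoImplicit false

namespace Pool.Agent.DD

open MeasureTheory Filter Topology Metric

variable {Γ : Type} [Group Γ] [MulAction Γ ℂ] {m : Measure ℂ} {s : ℝ}

/-- Let `x = γ⁻¹`, `I = arc θ (θ + 2^(-k))`, `J = x I`; `m I = m {z | x z ∈ J} = ∫_J pk (x 0)^s dm` (`Conf.conf`; `J` is measurable as preimage of `I` under `γ`, intersected with the circle), `pk (x 0) ξ = (1 - |x 0|²) / |ξ - x 0|²` with `ρ ≤ |ξ - x 0| ≤ 2` on `J`, `J ⊇ ball (x e t) (4 ρ) ∩ circle`, `conf_lower`. -/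
theorem mass_good (h : Fuchs Γ) (hL : (Lim Γ).Infinite) (hcf : Conf Γ m s) (D : ℝ) : ∃ c C : ℝ, 0 < c ∧ 0 < C ∧ ∀ (θ : ℝ) (k : ℕ), GoodArc Γ D θ k →
    c * ((1 / 2 : ℝ) ^ k) ^ s ≤ m.real (arc θ (θ + (1 / 2) ^ k)) ∧ m.real (arc θ (θ + (1 / 2) ^ k)) ≤ C * ((1 / 2 : ℝ) ^ k) ^ s := by
  have hfinm : IsFiniteMeasure m := hcf.fin
  obtain ⟨ρ, C, hρ, hC, hgeo⟩ := good_geo h D
  obtain ⟨c0, hc0, hlow⟩ := conf_lower h hL hcf (4 * ρ) (by positivity)
  have hC0 : 0 < C := by linarith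
  have hs0 : 0 < s := hcf.pos
  have hms : m (sphere (0 : ℂ) 1)ᶜ = 0 := measure_mono_null
    (Set.compl_subset_compl.mpr fun z hz => hz.2) hcf.supp
  refine ⟨(1 / (4 * C)) ^ s * c0, (C / ρ ^ 2) ^ s * (m.real Set.univ + 1), by positivity,
    by positivity, fun θ k hg => ?_⟩
  obtain ⟨t, γ, ht1, ht2, htL, hq⟩ := hg
  obtain ⟨g1, g2, g3, g4, g5, g6⟩ := hgeo θ t k γ ht1 ht2 hq
  have hδ0 : (0 : ℝ) < (1 / 2) ^ k := by positivity
  have hδ1 : ((1 : ℝ) / 2) ^ k ≤ 1 := pow_le_one₀ (by norm_num) (by norm_num)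
  set δ : ℝ := (1 / 2) ^ k with hδ
  set I : Set ℂ := arc θ (θ + δ) with hI
  have hImeas : MeasurableSet I := meas_arc _ _ (by linarith)
  set J : Set ℂ := (fun z : ℂ => γ • z) ⁻¹' I with hJ
  have hJmeas : MeasurableSet J := h.meas γ hImeas
  have hIJ : (fun z : ℂ => γ⁻¹ • z) ⁻¹' J = I := by
    ext z
    show γ • (γ⁻¹ • z) ∈ I ↔ z ∈ I
    rw [smul_inv_smul]
  have hconf := hcf.conf γ⁻¹ J hJmeas
  rw [hIJ] at hconf
  have hInorm : ∀ η ∈ I, ‖η‖ = 1 := by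
    rintro _ ⟨u, _, rfl⟩
    exact norm_e u
  have hJp : ∀ ξ ∈ J, ‖ξ‖ = 1 ∧ ρ ≤ ‖ξ - γ⁻¹ • (0 : ℂ)‖ := by
    intro ξ hξ
    have h1 : γ • ξ ∈ I := hξ
    have h2 := g4 _ h1
    rw [inv_smul_smul] at h2
    exact ⟨h.smul_mem_sphere γ |>.mp (hInorm _ h1), h2⟩
  have hv : 1 - ‖γ⁻¹ • (0 : ℂ)‖ ^ 2 = 1 - ‖γ • (0 : ℂ)‖ ^ 2 := by rw [h.norm_inv]
  have hx1 : ‖γ⁻¹ • (0 : ℂ)‖ < 1 := h.norm0 _
  have hv0 : 0 < 1 - ‖γ⁻¹ • (0 : ℂ)‖ ^ 2 := by
    have := norm_nonneg (γ⁻¹ • (0 : ℂ))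
    nlinarith
  rw [← hv] at g1 g2
  set v : ℝ := 1 - ‖γ⁻¹ • (0 : ℂ)‖ ^ 2 with hvdef
  have hpk1 : ∀ ξ ∈ J, pk (γ⁻¹ • (0 : ℂ)) ξ ≤ C * δ / ρ ^ 2 := by
    intro ξ hξ
    have h1 := pk_le (ξ := ξ) hx1 hρ (hJp ξ hξ).2
    refine h1.trans ?_
    gcongr
  have hpk2 : ∀ ξ ∈ J, δ / (4 * C) ≤ pk (γ⁻¹ • (0 : ℂ)) ξ := by
    intro ξ hξ
    have h1 := le_pk hx1 (hJp ξ hξ).1
    refine le_trans ?_ h1
    rw [div_le_div_iff₀ (by positivity) (by norm_num)]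
    have : δ ≤ C * v := g1
    nlinarith
  constructor
  · -- lower bound
    have h1 : ENNReal.ofReal ((δ / (4 * C)) ^ s) * m J ≤ m I := by
      rw [hconf, ← MeasureTheory.setLIntegral_const]
      refine setLIntegral_mono' hJmeas fun ξ hξ => ?_
      exact ENNReal.ofReal_le_ofReal
        (Real.rpow_le_rpow (by positivity) (hpk2 ξ hξ) hs0.le)
    have h2 : m (ball (γ⁻¹ • e t) (4 * ρ)) ≤ m J := by
      have h3 : ball (γ⁻¹ • e t) (4 * ρ) ⊆ J ∪ (sphere (0 : ℂ) 1)ᶜ := by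
        intro ξ hξ
        by_cases hξ1 : ξ ∈ sphere (0 : ℂ) 1
        · left
          have hξn : ‖ξ‖ = 1 := mem_sphere_zero_iff_norm.mp hξ1
          by_contra hn
          have h4 : γ • ξ ∉ I := hn
          have h5 := g5 (γ • ξ) ((h.smul_mem_sphere γ).mpr hξn) h4
          rw [inv_smul_smul] at h5
          rw [mem_ball, dist_eq_norm] at hξ
          linarith
        · right
          exact hξ1
      calc m (ball (γ⁻¹ • e t) (4 * ρ)) ≤ m (J ∪ (sphere (0 : ℂ) 1)ᶜ) := measure_mono h3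
        _ ≤ m J + m (sphere (0 : ℂ) 1)ᶜ := measure_union_le _ _
        _ = m J := by rw [hms, add_zero]
    have h3 : c0 ≤ m.real J := by
      refine (hlow (γ⁻¹ • e t) ((h.lim_inv γ⁻¹).mpr htL)).trans ?_
      exact ENNReal.toReal_mono (measure_ne_top _ _) h2
    have h4 : (δ / (4 * C)) ^ s * m.real J ≤ m.real I := by
      have h5 := ENNReal.toReal_mono (measure_ne_top _ _) h1
      rw [ENNReal.toReal_mul, ENNReal.toReal_ofReal (by positivity)] at h5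
      exact h5
    have h5 : (1 / (4 * C)) ^ s * c0 * δ ^ s = (δ / (4 * C)) ^ s * c0 := by
      rw [div_eq_mul_one_div δ, Real.mul_rpow hδ0.le (by positivity)]
      ring
    rw [h5]
    refine le_trans ?_ h4
    exact mul_le_mul_of_nonneg_left h3 (by positivity)
  · have h1 : m I ≤ ENNReal.ofReal ((C * δ / ρ ^ 2) ^ s) * m J := by
      rw [hconf, ← MeasureTheory.setLIntegral_const]
      refine setLIntegral_mono' hJmeas fun ξ hξ => ?_
      exact ENNReal.ofReal_le_ofReal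
        (Real.rpow_le_rpow (pk_pos hx1 (hJp ξ hξ).1).le (hpk1 ξ hξ) hs0.le)
    have h2 : m.real I ≤ (C * δ / ρ ^ 2) ^ s * m.real J := by
      have h5 := ENNReal.toReal_mono
        (ENNReal.mul_ne_top ENNReal.ofReal_ne_top (measure_ne_top _ _)) h1
      rw [ENNReal.toReal_mul, ENNReal.toReal_ofReal (by positivity)] at h5
      exact h5
    have h3 : m.real J ≤ m.real Set.univ + 1 := by
      have := measureReal_mono (μ := m) (Set.subset_univ J)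
      linarith
    have h5 : (C / ρ ^ 2) ^ s * (m.real Set.univ + 1) * δ ^ s =
        (C * δ / ρ ^ 2) ^ s * (m.real Set.univ + 1) := by
      rw [mul_div_right_comm, Real.mul_rpow (by positivity) hδ0.le]
      ring
    rw [h5]
    exact h2.trans (mul_le_mul_of_nonneg_left h3 (by positivity))

/-- good arcs are charged by `ν`: they contain a neighbourhood in the circle of a point of the limit set (`arc_far`, `stat_pos`) -/
theorem stat_good {ι : Type} [Fintype ι] {ν : Measure ℂ} (h : Fuchs Γ) (hL : (Lim Γ).Infinite) (W : Walk Γ ι) (hν : Stat W.toPreWalk ν) (hνL : ν (Lim Γ)ᶜ = 0)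
    (D θ : ℝ) (k : ℕ) (hg : GoodArc Γ D θ k) : 0 < ν.real (arc θ (θ + (1 / 2) ^ k)) := by
  have hprob := hν.prob
  obtain ⟨t, γ, ht1, ht2, htL, hq⟩ := hg
  have hδ0 : (0 : ℝ) < (1 / 2) ^ k := by positivity
  have h1 := stat_pos h hL W hν hνL (ball (e t) ((2 / 3) * (1 / 2) ^ k)) isOpen_ball
    ⟨e t, mem_ball_self (by positivity), htL⟩ 1
  have h2 : hm ν (1 : Γ) (ball (e t) ((2 / 3) * (1 / 2) ^ k)) =
      ν.real (ball (e t) ((2 / 3) * (1 / 2) ^ k)) := by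
    have h4 : (fun z : ℂ => (1 : Γ) • z) = id := funext fun z => one_smul Γ z
    unfold hm
    rw [h4, Set.preimage_id]
  rw [h2] at h1
  refine h1.trans_le ?_
  have h3 : ball (e t) ((2 / 3) * (1 / 2) ^ k) ⊆
      arc θ (θ + (1 / 2) ^ k) ∪ (sphere (0 : ℂ) 1)ᶜ := by
    intro η hη
    by_cases hη1 : η ∈ sphere (0 : ℂ) 1
    · left
      by_contra hn
      have h5 := arc_far θ t k ht1 ht2 η (mem_sphere_zero_iff_norm.mp hη1) hn
      rw [mem_ball, dist_eq_norm] at hη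
      linarith
    · right
      exact hη1
  refine ENNReal.toReal_mono (measure_ne_top _ _) ?_
  calc ν (ball (e t) ((2 / 3) * (1 / 2) ^ k)) ≤
      ν (arc θ (θ + (1 / 2) ^ k) ∪ (sphere (0 : ℂ) 1)ᶜ) := measure_mono h3
    _ ≤ ν (arc θ (θ + (1 / 2) ^ k)) + ν (sphere (0 : ℂ) 1)ᶜ := measure_union_le _ _
    _ = ν (arc θ (θ + (1 / 2) ^ k)) := by rw [hν.supp, add_zero]

end Pool.Agent.DD
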