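import Pool.Agent.Lib_MP_644907_full.Base

/-!
# Piece MAXP: maximum principle
-/

set_option autoImplicit false

namespace Pool.Agent.DD

open Filter Topology

variable {Γ : Type} [Group Γ] [Infinite Γ] {ι : Type} [Fintype ι]

/-- Suppose `w x₁ > 0` with `x₁ ∉ K`. Let `w' = w` off `K` and `w' = min (w) 0`... (we only look at points off `K`): the set `{x ∉ K | w x₁ / 2 < w x}` is finite and nonempty, let `x₀` be a maximum point of `w` on it;
so `w x ≤ w x₀` for all `x ∉ K` and `w x₀ > 0`. For `x ∉ K` with `w x = w x₀`: each `x g_i` is either off `K` with `w ≤ w x₀`, or in `K` with `w (x g_i) ≤ 0 < w x₀` (`hK` with `y = x`); as `w x ≤ avg w x` and all `p_i > 0`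
sum up to 1, all `x g_i` are off `K` with `w (x g_i) = w x₀`. So the set `{x ∉ K | w x = w x₀}` is invariant under right multiplication with the `g_i`, hence with all `γ ∈ Γ` (`Walk.gen`), it is all of the infinite group,
but it is contained in the finite set. -/
theorem max_principle (W : Walk Γ ι) (K : Set Γ) (w : Γ → ℝ)
    (hK : ∀ x ∈ K, (∃ y, y ∉ K ∧ ∃ i, x = y * W.g i) → w x ≤ 0) (hsub : ∀ x, x ∉ K → w x ≤ avg W.toPreWalk w x)
    (hinf : ∀ ε : ℝ, 0 < ε → {x | x ∉ K ∧ ε < w x}.Finite) (x : Γ) (hx : x ∉ K) : w x ≤ 0 := by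
  by_contra hcon
  rw [not_le] at hcon
  have hfin : {y | y ∉ K ∧ w x / 2 < w y}.Finite := hinf (w x / 2) (by linarith)
  have hxS : x ∈ {y | y ∉ K ∧ w x / 2 < w y} := ⟨hx, by linarith⟩
  obtain ⟨x₀, hx₀, hmax⟩ := Set.exists_max_image _ w hfin ⟨x, hxS⟩
  have hxx : w x ≤ w x₀ := hmax x hxS
  have hle : ∀ y, y ∉ K → w y ≤ w x₀ := by
    intro y hy
    by_cases h : w x / 2 < w y
    · exact hmax y ⟨hy, h⟩
    · rw [not_lt] at h
      linarith
  have hstep : ∀ y, y ∉ K → w y = w x₀ → ∀ i, y * W.g i ∉ K ∧ w (y * W.g i) = w x₀ := by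
    intro y hy hyw
    have h1 : ∀ j, w (y * W.g j) ≤ w x₀ := by
      intro j
      by_cases hj : y * W.g j ∈ K
      · have := hK _ hj ⟨y, hy, j, rfl⟩
        linarith
      · exact hle _ hj
    intro i
    have h2 : w (y * W.g i) = w x₀ := by
      by_contra hne
      have h3 : w (y * W.g i) < w x₀ := lt_of_le_of_ne (h1 i) hne
      have h4 : avg W.toPreWalk w y < ∑ j, W.p j * w x₀ := by
        unfold avg
        apply Finset.sum_lt_sum
        · intro j _
          exact mul_le_mul_of_nonneg_left (h1 j) (W.pos j).le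
        · exact ⟨i, Finset.mem_univ _, mul_lt_mul_of_pos_left h3 (W.pos i)⟩
      rw [← Finset.sum_mul, W.sum, one_mul] at h4
      have h5 := hsub y hy
      linarith
    refine ⟨fun hiK => ?_, h2⟩
    have := hK _ hiK ⟨y, hy, i, rfl⟩
    linarith
  have hall : ∀ γ : Γ, ∀ y, y ∉ K → w y = w x₀ → y * γ ∉ K ∧ w (y * γ) = w x₀ := by
    intro γ
    refine Subsemigroup.closure_induction (p := fun γ _ => ∀ y, y ∉ K → w y = w x₀ → y * γ ∉ K ∧ w (y * γ) = w x₀)
      ?_ ?_ (W.gen γ)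
    · rintro _ ⟨i, rfl⟩ y hy hyw
      exact hstep y hy hyw i
    · intro a b _ _ ha hb y hy hyw
      obtain ⟨h1, h2⟩ := ha y hy hyw
      have h3 := hb (y * a) h1 h2
      rwa [mul_assoc] at h3
  have huniv : (Set.univ : Set Γ) ⊆ {y | y ∉ K ∧ w x / 2 < w y} := by
    intro z _
    obtain ⟨h1, h2⟩ := hall (x₀⁻¹ * z) x₀ hx₀.1 rfl
    rw [mul_inv_cancel_left] at h1 h2
    refine ⟨h1, ?_⟩
    rw [h2]
    linarith
  exact Set.infinite_univ (hfin.subset huniv)

end Pool.Agent.DD
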