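import Pool.Agent.Lib_MP_644907_full.NoAtom
import Pool.Agent.Lib_MP_644907_full.MaxP

/-!
# Piece LIMFULL: stationary measures are carried by the limit set
-/

set_option autoImplicit false

namespace Pool.Agent.DD

open MeasureTheory Filter Topology Metric

variable {Γ : Type} [Group Γ] [MulAction Γ ℂ] {ι : Type} [Fintype ι] {ν : Measure ℂ}

/-- the orbit accumulates only at the limit set: for a compact subset `K` of the circle disjoint from the limit set there are `ρ > 0`, `η > 0` with `|ξ - x 0| ≥ ρ` for all `ξ ∈ K` and all `x` with `1 - |x 0|² < η` -/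
theorem orbit_far (h : Fuchs Γ) (K : Set ℂ) (hK : IsCompact K) (hKs : K ⊆ sphere 0 1) (hd : Disjoint K (Lim Γ)) :
    ∃ ρ η : ℝ, 0 < ρ ∧ 0 < η ∧ ∀ x : Γ, 1 - ‖x • (0 : ℂ)‖ ^ 2 < η → ∀ ξ ∈ K, ρ ≤ ‖ξ - x • (0 : ℂ)‖ := by
  have _ := h
  set O : Set ℂ := closure (Set.range fun γ : Γ => γ • (0 : ℂ)) with hO
  have hOc : IsClosed O := isClosed_closure
  have hmem : ∀ x : Γ, x • (0 : ℂ) ∈ O := fun x => subset_closure ⟨x, rfl⟩
  have hOne : O.Nonempty := ⟨_, hmem 1⟩
  rcases K.eq_empty_or_nonempty with he | hne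
  · refine ⟨1, 1, one_pos, one_pos, ?_⟩
    intro x _ ξ hξ
    rw [he] at hξ
    exact hξ.elim
  · obtain ⟨z, hz, hmin⟩ := hK.exists_isMinOn hne (continuous_infDist_pt O).continuousOn
    have hzO : z ∉ O := by
      intro hzO
      exact Set.disjoint_left.1 hd hz ⟨hzO, hKs hz⟩
    refine ⟨infDist z O, 1, (hOc.notMem_iff_infDist_pos hOne).1 hzO, one_pos, ?_⟩
    intro x _ ξ hξ
    have h1 : infDist z O ≤ infDist ξ O := hmin hξ
    have h2 : infDist ξ O ≤ dist ξ (x • (0 : ℂ)) := infDist_le_dist_of_mem (hmem x)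
    rw [dist_eq_norm] at h2
    exact h1.trans h2

/-- compact sets of the circle off the limit set have measure zero -/
theorem lim_full_compact (h : Fuchs Γ) (hL : (Lim Γ).Infinite) (W : Walk Γ ι) (hν : Stat W.toPreWalk ν)
    (K : Set ℂ) (hK : IsCompact K) (hKs : K ⊆ sphere 0 1) (hd : Disjoint K (Lim Γ)) : ν K = 0 := by
  haveI := hν.prob
  haveI : Infinite Γ := h.infinite hL.nonempty
  obtain ⟨ρ, η, hρ, hη, hfar⟩ := orbit_far h K hK hKs hd
  have hinf : ∀ ε : ℝ, 0 < ε → {x : Γ | x ∉ (∅ : Set Γ) ∧ ε < hm ν x K}.Finite := by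
    intro ε hε
    obtain ⟨δ, hδ, hsm⟩ := far_small h hL W hν ε hε
    apply (h.finite_one_sub (min (δ * ρ) η) (lt_min (mul_pos hδ hρ) hη)).subset
    rintro x ⟨-, hx⟩
    show min (δ * ρ) η ≤ 1 - ‖x • (0 : ℂ)‖ ^ 2
    by_contra hcon
    push Not at hcon
    have h1 : 1 - ‖x • (0 : ℂ)‖ ^ 2 ≤ δ * ρ := hcon.le.trans (min_le_left _ _)
    have h2 : 1 - ‖x • (0 : ℂ)‖ ^ 2 < η := hcon.trans_le (min_le_right _ _)
    have h3 := hsm x K ρ hρ h1 (fun ξ hξ _ => hfar x h2 ξ hξ)
    linarith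
  have h0 := max_principle W ∅ (fun x => hm ν x K) (fun x hx => hx.elim)
    (fun x _ => (hm_avg h W.toPreWalk hν x K hK.measurableSet).le) hinf 1 (by simp)
  have h1 : hm ν (1 : Γ) K = ν.real K := by
    unfold hm
    simp
  rw [h1] at h0
  have h2 : ν.real K = 0 := le_antisymm h0 measureReal_nonneg
  exact (measureReal_eq_zero_iff (measure_ne_top ν K)).1 h2

/-- Let `K` be a compact subset of the circle minus the limit set, `u = hm ν · K`, nonnegative, harmonic (`hm_avg`), and `u → 0` at infinity (`orbit_far`, `far_small`), so `u = 0` by `max_principle` with `K = ∅`. So `ν K = u 1 = 0`. The open set `circle \ Lim Γ` is a countable union of such `K` (and `ν` is carried by the circle). -/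
theorem lim_full (h : Fuchs Γ) (hL : (Lim Γ).Infinite) (W : Walk Γ ι) (hν : Stat W.toPreWalk ν) : ν (Lim Γ)ᶜ = 0 := by
  set O : Set ℂ := closure (Set.range fun γ : Γ => γ • (0 : ℂ)) with hO
  have hOc : IsClosed O := isClosed_closure
  have hOne : O.Nonempty := ⟨_, subset_closure ⟨1, rfl⟩⟩
  have hsub : (Lim Γ)ᶜ ⊆ (sphere (0 : ℂ) 1)ᶜ ∪ ⋃ n : ℕ, (sphere (0 : ℂ) 1 ∩ {z | 1 / ((n : ℝ) + 1) ≤ infDist z O}) := by
    intro z hz
    by_cases hzs : z ∈ sphere (0 : ℂ) 1
    · right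
      have hzO : z ∉ O := fun hzO => hz ⟨hzO, hzs⟩
      have hpos : 0 < infDist z O := (hOc.notMem_iff_infDist_pos hOne).1 hzO
      obtain ⟨n, hn⟩ := exists_nat_one_div_lt hpos
      exact Set.mem_iUnion.2 ⟨n, hzs, hn.le⟩
    · left
      exact hzs
  refine measure_mono_null hsub (measure_union_null hν.supp (measure_iUnion_null fun n => ?_))
  apply lim_full_compact h hL W hν
  · exact (isCompact_sphere (0 : ℂ) 1).inter_right (isClosed_le continuous_const (continuous_infDist_pt O))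
  · exact Set.inter_subset_left
  · rw [Set.disjoint_left]
    rintro z ⟨-, hz⟩ ⟨hzO, -⟩
    have h1 : infDist z O = 0 := infDist_zero_of_mem hzO
    have h2 : 1 / ((n : ℝ) + 1) ≤ infDist z O := hz
    rw [h1] at h2
    have h3 : 0 < 1 / ((n : ℝ) + 1) := by positivity
    linarith

end Pool.Agent.DD
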