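import Pool.Agent.Lib_MP_644907_full.ConfL
import Pool.Agent.Lib_MP_644907_full.LimFull

/-!
# Piece TANG2A: moving the pole to the circle
-/

set_option autoImplicit false

namespace Pool.Agent.DD

open MeasureTheory Filter Topology Metric

variable {Γ : Type} [Group Γ] [MulAction Γ ℂ] {ι : Type} [Fintype ι] {ν m : Measure ℂ} {s : ℝ}

/-- the bump function -/
noncomputable def tbump (b : ℂ) (r : ℝ) (z : ℂ) : ℝ := max 0 (min 1 (2 - 2 * ‖z - b‖ / r))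

theorem tbump_cont (b : ℂ) (r : ℝ) : Continuous (tbump b r) := by
  unfold tbump
  fun_prop

theorem tbump_nonneg (b : ℂ) (r : ℝ) (z : ℂ) : 0 ≤ tbump b r z := le_max_left _ _

theorem tbump_le (b : ℂ) (r : ℝ) (z : ℂ) : tbump b r z ≤ 1 := max_le zero_le_one (min_le_left _ _)

theorem tbump_zero {b : ℂ} {r : ℝ} (hr : 0 < r) {z : ℂ} (hz : r ≤ ‖z - b‖) : tbump b r z = 0 := by
  unfold tbump
  apply max_eq_left
  refine (min_le_right _ _).trans ?_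
  have h1 : 2 ≤ 2 * ‖z - b‖ / r := by
    rw [le_div_iff₀ hr]
    linarith
  linarith

theorem tbump_one {b : ℂ} {r : ℝ} (hr : 0 < r) {z : ℂ} (hz : z ∈ ball b (r / 2)) : tbump b r z = 1 := by
  rw [mem_ball, dist_eq_norm] at hz
  unfold tbump
  have h1 : 2 * ‖z - b‖ / r ≤ 1 := by
    rw [div_le_iff₀ hr]
    linarith
  rw [min_eq_left (by linarith), max_eq_right zero_le_one]

/-- the limit integral is positive -/
theorem tbump_int_pos (h : Fuchs Γ) (hL : (Lim Γ).Infinite) (hcf : Conf Γ m s) (b ζ : ℂ) (r : ℝ)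
    (hb : b ∈ Lim Γ) (hζ : ‖ζ‖ < 1) (hr : 0 < r) : 0 < ∫ ξ, tbump b r ξ * (‖ξ - ζ‖ ^ 2) ^ (-s) ∂m := by
  have hfin := hcf.fin
  have hae : ∀ᵐ ξ ∂m, ξ ∈ Lim Γ := by
    rw [ae_iff]
    exact hcf.supp
  have hmeas : Measurable (fun ξ : ℂ => tbump b r ξ * (‖ξ - ζ‖ ^ 2) ^ (-s)) := by
    apply (tbump_cont b r).measurable.mul
    exact (Measurable.pow_const (by fun_prop) (-s))
  have hlow : ∀ ξ : ℂ, ‖ξ‖ = 1 → 1 - ‖ζ‖ ≤ ‖ξ - ζ‖ := by
    intro ξ hξ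
    have h1 := norm_sub_norm_le ξ ζ
    rw [hξ] at h1
    exact h1
  have hpos : 0 < 1 - ‖ζ‖ := by linarith
  have hint : Integrable (fun ξ : ℂ => tbump b r ξ * (‖ξ - ζ‖ ^ 2) ^ (-s)) m := by
    refine Integrable.of_bound hmeas.aestronglyMeasurable (((1 - ‖ζ‖) ^ 2) ^ (-s)) ?_
    filter_upwards [hae] with ξ hξ
    have hξ1 : ‖ξ‖ = 1 := by simpa using hξ.2
    have h2 : 0 ≤ (‖ξ - ζ‖ ^ 2) ^ (-s) := Real.rpow_nonneg (sq_nonneg _) _
    rw [norm_mul, Real.norm_of_nonneg (tbump_nonneg b r ξ), Real.norm_of_nonneg h2]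
    have h3 : (‖ξ - ζ‖ ^ 2) ^ (-s) ≤ ((1 - ‖ζ‖) ^ 2) ^ (-s) := by
      apply Real.rpow_le_rpow_of_nonpos (by positivity)
      · exact pow_le_pow_left₀ hpos.le (hlow ξ hξ1) 2
      · linarith [hcf.pos]
    calc tbump b r ξ * (‖ξ - ζ‖ ^ 2) ^ (-s) ≤ 1 * ((1 - ‖ζ‖) ^ 2) ^ (-s) :=
          mul_le_mul (tbump_le b r ξ) h3 h2 zero_le_one
      _ = _ := one_mul _
  rw [integral_pos_iff_support_of_nonneg (fun ξ => mul_nonneg (tbump_nonneg b r ξ)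
    (Real.rpow_nonneg (sq_nonneg _) _)) hint]
  have h4 : 0 < m (ball b (r / 2)) :=
    conf_pos h hL hcf _ isOpen_ball ⟨b, mem_ball_self (by linarith), hb⟩
  have h5 : m (ball b (r / 2)) ≤ m (Function.support (fun ξ : ℂ => tbump b r ξ * (‖ξ - ζ‖ ^ 2) ^ (-s))) := by
    apply measure_mono_ae
    filter_upwards [hae] with ξ hξ hball
    have hξ1 : ‖ξ‖ = 1 := by simpa using hξ.2
    show tbump b r ξ * (‖ξ - ζ‖ ^ 2) ^ (-s) ≠ 0
    rw [tbump_one hr hball, one_mul]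
    have h6 := hlow ξ hξ1
    have h7 : 0 < ‖ξ - ζ‖ := by linarith
    exact (Real.rpow_pos_of_pos (by positivity) _).ne'
  exact h4.trans_le h5

/-- If `|ζ| < 1` in `tangent0` then the `x n` lie in a finite set (`Fuchs.disc`), so `x n = x` for infinitely many `n`, `x 0 = ζ`, and `c n` converges along them to some `c₀ > 0` (take `f ≥ 0` with `U ν f x > 0`; the limit `∫ f |ξ - ζ|^(-2 s) dm` is positive, `conf_pos`): -/
theorem tangent_const (h : Fuchs Γ) (hL : (Lim Γ).Infinite) (W : Walk Γ ι) (hν : Stat W.toPreWalk ν) (hcf : Conf Γ m s) (b ζ : ℂ) (r : ℝ) (x : ℕ → Γ) (c : ℕ → ℝ)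
    (hb : b ∈ Lim Γ) (hζ : ‖ζ‖ < 1) (hr : 0 < r) (hc : ∀ n, 0 < c n) (hx : Tendsto (fun n => x n • (0 : ℂ)) atTop (𝓝 ζ))
    (hf : ∀ f : ℂ → ℝ, ContinuousOn f (sphere 0 1) → (∀ z : ℂ, ‖z‖ = 1 → r ≤ ‖z - b‖ → f z = 0) →
        Tendsto (fun n => c n * U ν f (x n)) atTop (𝓝 (∫ ξ, f ξ * (‖ξ - ζ‖ ^ 2) ^ (-s) ∂m))) :
    ∃ (y : Γ) (c₀ : ℝ), 0 < c₀ ∧ ∀ f : ℂ → ℝ, ContinuousOn f (sphere 0 1) → (∀ z : ℂ, ‖z‖ = 1 → r ≤ ‖z - b‖ → f z = 0) →
        c₀ * U ν f y = ∫ ξ, f ξ * pk (y • (0 : ℂ)) ξ ^ s ∂m := by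
  have _ := hc
  set r0 : ℝ := (1 + ‖ζ‖) / 2 with hr0
  have hr01 : r0 < 1 := by linarith
  have hr0ζ : ‖ζ‖ < r0 := by linarith
  have hev : ∀ᶠ n in atTop, x n ∈ {γ : Γ | ‖γ • (0 : ℂ)‖ ≤ r0} := by
    have h1 := hx.norm.eventually (gt_mem_nhds hr0ζ)
    filter_upwards [h1] with n hn
    exact le_of_lt hn
  have hfreq : ∃ y : Γ, ∃ᶠ n in atTop, x n = y := by
    by_contra hcon
    push Not at hcon
    have h2 : ∀ y ∈ (h.disc r0 hr01).toFinset, ∀ᶠ n in atTop, x n ≠ y := by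
      intro y _
      exact hcon y
    rw [← Finset.eventually_all] at h2
    obtain ⟨n, hn1, hn2⟩ := (h2.and hev).exists
    exact hn1 (x n) ((h.disc r0 hr01).mem_toFinset.2 hn2) rfl
  obtain ⟨y, hy⟩ := hfreq
  obtain ⟨φ, hφ, hφy⟩ := extraction_of_frequently_atTop hy
  have hyζ : y • (0 : ℂ) = ζ := by
    have h1 := hx.comp hφ.tendsto_atTop
    have h2 : (fun n => x n • (0 : ℂ)) ∘ φ = fun _ => y • (0 : ℂ) := by
      funext n
      simp only [Function.comp, hφy]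
    rw [h2] at h1
    exact tendsto_nhds_unique tendsto_const_nhds h1
  have hlim : ∀ f : ℂ → ℝ, ContinuousOn f (sphere 0 1) → (∀ z : ℂ, ‖z‖ = 1 → r ≤ ‖z - b‖ → f z = 0) →
      Tendsto (fun n => c (φ n) * U ν f y) atTop (𝓝 (∫ ξ, f ξ * (‖ξ - ζ‖ ^ 2) ^ (-s) ∂m)) := by
    intro f hf1 hf2
    have h1 := (hf f hf1 hf2).comp hφ.tendsto_atTop
    have h2 : (fun n => c n * U ν f (x n)) ∘ φ = fun n => c (φ n) * U ν f y := by
      funext n
      simp only [Function.comp, hφy]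
    rw [h2] at h1
    exact h1
  -- the constant
  have hI := tbump_int_pos h hL hcf b ζ r hb hζ hr
  have hUpos : 0 < U ν (tbump b r) y := by
    have h1 := stat_pos h hL W hν (lim_full h hL W hν) (ball b (r / 2)) isOpen_ball
      ⟨b, mem_ball_self (by linarith), hb⟩ y
    refine h1.trans_le (hm_le_U h W.toPreWalk hν y (tbump b r) (tbump_cont b r).measurable 1 ?_ _
      measurableSet_ball ?_ ?_)
    · intro z
      rw [abs_of_nonneg (tbump_nonneg b r z)]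
      exact tbump_le b r z
    · intro z _ hz
      exact (tbump_one hr hz).ge
    · intro z _
      exact tbump_nonneg b r z
  set I : ℝ := ∫ ξ, tbump b r ξ * (‖ξ - ζ‖ ^ 2) ^ (-s) ∂m with hIdef
  have hcl : Tendsto (fun n => c (φ n)) atTop (𝓝 (I / U ν (tbump b r) y)) := by
    have h1 := (hlim (tbump b r) (tbump_cont b r).continuousOn
      (fun z _ hz => tbump_zero hr hz)).div_const (U ν (tbump b r) y)
    refine h1.congr (fun n => ?_)
    field_simp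
  set c1 : ℝ := I / U ν (tbump b r) y with hc1
  have hc1p : 0 < c1 := div_pos hI hUpos
  have h1ζ : 0 < 1 - ‖ζ‖ ^ 2 := by nlinarith [norm_nonneg ζ]
  refine ⟨y, (1 - ‖ζ‖ ^ 2) ^ s * c1, mul_pos (Real.rpow_pos_of_pos h1ζ s) hc1p, ?_⟩
  intro f hf1 hf2
  have h2 : c1 * U ν f y = ∫ ξ, f ξ * (‖ξ - ζ‖ ^ 2) ^ (-s) ∂m :=
    tendsto_nhds_unique (hcl.mul_const _) (hlim f hf1 hf2)
  rw [mul_assoc, h2, ← integral_const_mul, hyζ]
  congr 1
  funext ξ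
  unfold pk
  rw [Real.div_rpow h1ζ.le (sq_nonneg _), Real.rpow_neg (sq_nonneg _)]
  ring

end Pool.Agent.DD
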