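import Pool.Agent.Lib_MP_644907_full.NoFin2

/-!
# Piece PAIRS: pairs `(γ 0, γ⁻¹ 0)` are dense in the square of the limit set
-/

set_option autoImplicit false

namespace Pool.Agent.DD

open MeasureTheory Filter Topology Metric

variable {Γ : Type} [Group Γ] [MulAction Γ ℂ]

/-- elements with `g n • 0 → a` move points away from `lim (g n)⁻¹ • 0` to `a` -/
theorem pairs_aux (h : Fuchs Γ) (g : ℕ → Γ) (z : ℕ → ℂ) (a c z' : ℂ) (hz : ∀ n, ‖z n‖ ≤ 1)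
    (hzt : Tendsto z atTop (𝓝 z')) (hc : Tendsto (fun n => (g n)⁻¹ • (0 : ℂ)) atTop (𝓝 c))
    (hc1 : ‖c‖ = 1) (hne : z' ≠ c) (ha : Tendsto (fun n => g n • (0 : ℂ)) atTop (𝓝 a))
    (ha1 : ‖a‖ = 1) : Tendsto (fun n => g n • z n) atTop (𝓝 a) := by
  have hd : 0 < ‖z' - c‖ := norm_pos_iff.2 (sub_ne_zero.2 hne)
  obtain ⟨ρ, hρ⟩ : ∃ ρ : ℝ, ρ = min (‖z' - c‖ / 2) (1 / 2) := ⟨_, rfl⟩
  have hρ0 : 0 < ρ := by
    rw [hρ]
    exact lt_min (by linarith) (by norm_num)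
  have hρ1 : ρ < ‖z' - c‖ := by
    rw [hρ]
    exact (min_le_left _ _).trans_lt (by linarith)
  have hρ2 : ρ < 1 := by
    rw [hρ]
    exact (min_le_right _ _).trans_lt (by norm_num)
  have e1 : ∀ᶠ n in atTop, ρ ≤ ‖z n - (g n)⁻¹ • (0 : ℂ)‖ :=
    ((hzt.sub hc).norm.eventually (lt_mem_nhds hρ1)).mono fun n hn => hn.le
  have e2 : ∀ᶠ n in atTop, ρ ≤ ‖(0 : ℂ) - (g n)⁻¹ • (0 : ℂ)‖ := by
    have t : Tendsto (fun n => ‖(0 : ℂ) - (g n)⁻¹ • (0 : ℂ)‖) atTop (𝓝 ‖(0 : ℂ) - c‖) :=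
      (hc.const_sub 0).norm
    rw [zero_sub, norm_neg, hc1] at t
    exact (t.eventually (lt_mem_nhds hρ2)).mono fun n hn => hn.le
  have e3 : Tendsto (fun n => 2 * (1 - ‖g n • (0 : ℂ)‖ ^ 2) / ρ) atTop (𝓝 0) := by
    have t := (((ha.norm.pow 2).const_sub 1).const_mul 2).div_const ρ
    rw [ha1] at t
    have e : (2 : ℝ) * (1 - 1 ^ 2) / ρ = 0 := by norm_num
    rwa [e] at t
  have e4 : Tendsto (fun n => g n • z n - g n • (0 : ℂ)) atTop (𝓝 0) := by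
    rw [tendsto_zero_iff_norm_tendsto_zero]
    refine squeeze_zero' (Eventually.of_forall fun n => norm_nonneg _) ?_ e3
    filter_upwards [e1, e2] with n h1 h2
    exact h.contract (g n) (hz n) (by simp) hρ0 h1 h2
  have := e4.add ha
  simpa using this

/-- Choose `α_n, β_n ∈ Γ` with `α_n 0 → a`, `β_n⁻¹ 0 → b` (`exists_near`; take the inverse for `β_n`). The points `α_n⁻¹ 0` and `β_n 0` lie in the compact closed disk and their norms tend to 1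
(`Fuchs.norm_inv`); pass to a subsequence with `α_n⁻¹ 0 → a'`, `β_n 0 → b'`, `|a'| = |b'| = 1`. The orbit of `b'` is infinite (`no_fin` for the orbit of `b'`), so there is `k ∈ Γ` with `k b' ≠ a'`.
Put `γ = α_n k β_n`. `γ 0 = α_n (k β_n 0)` where `k β_n 0 → k b' ≠ a' = lim α_n⁻¹ 0`, so by `Fuchs.contract` (for `α_n` and the points `k β_n 0` and `0`) `|γ 0 - α_n 0| → 0`. Similarly
`γ⁻¹ 0 = β_n⁻¹ (k⁻¹ α_n⁻¹ 0)`, `k⁻¹ α_n⁻¹ 0 → k⁻¹ a' ≠ b' = lim β_n 0`. Take `n` large. -/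
theorem pairs (h : Fuchs Γ) (hL : (Lim Γ).Infinite) (a b : ℂ) (ha : a ∈ Lim Γ) (hb : b ∈ Lim Γ) (ε : ℝ) (hε : 0 < ε) :
    ∃ γ : Γ, ‖γ • (0 : ℂ) - a‖ < ε ∧ ‖γ⁻¹ • (0 : ℂ) - b‖ < ε := by
  have ha1 : ‖a‖ = 1 := by simpa using ha.2
  have hb1 : ‖b‖ = 1 := by simpa using hb.2
  have hsa : ∀ n : ℕ, ∃ γ : Γ, ‖γ • (0 : ℂ) - a‖ < 1 / ((n : ℝ) + 1) := fun n =>
    Fuchs.exists_near a ha _ (by positivity)
  have hsb : ∀ n : ℕ, ∃ γ : Γ, ‖γ • (0 : ℂ) - b‖ < 1 / ((n : ℝ) + 1) := fun n =>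
    Fuchs.exists_near b hb _ (by positivity)
  choose x hx using hsa
  choose y hy using hsb
  have hxt : Tendsto (fun n => x n • (0 : ℂ)) atTop (𝓝 a) := by
    rw [tendsto_iff_norm_sub_tendsto_zero]
    exact squeeze_zero (fun n => norm_nonneg _) (fun n => (hx n).le)
      tendsto_one_div_add_atTop_nhds_zero_nat
  have hyt : Tendsto (fun n => y n • (0 : ℂ)) atTop (𝓝 b) := by
    rw [tendsto_iff_norm_sub_tendsto_zero]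
    exact squeeze_zero (fun n => norm_nonneg _) (fun n => (hy n).le)
      tendsto_one_div_add_atTop_nhds_zero_nat
  -- a convergent subsequence of the inverses
  have hcomp : IsCompact (closedBall (0 : ℂ) 1 ×ˢ closedBall (0 : ℂ) 1) :=
    (isCompact_closedBall _ _).prod (isCompact_closedBall _ _)
  obtain ⟨⟨a', b'⟩, -, φ, hφ, hlim⟩ := hcomp.tendsto_subseq
    (x := fun n => ((x n)⁻¹ • (0 : ℂ), (y n)⁻¹ • (0 : ℂ))) (fun n => by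
      refine ⟨?_, ?_⟩
      · simpa using (h.norm0 (x n)⁻¹).le
      · simpa using (h.norm0 (y n)⁻¹).le)
  have hxt' := hxt.comp hφ.tendsto_atTop
  have hyt' := hyt.comp hφ.tendsto_atTop
  have ha't : Tendsto (fun n => (x (φ n))⁻¹ • (0 : ℂ)) atTop (𝓝 a') :=
    (continuous_fst.tendsto _).comp hlim
  have hb't : Tendsto (fun n => (y (φ n))⁻¹ • (0 : ℂ)) atTop (𝓝 b') :=
    (continuous_snd.tendsto _).comp hlim
  have ha'1 : ‖a'‖ = 1 := by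
    have t1 := ha't.norm
    have t2 : Tendsto (fun n => ‖(x (φ n))⁻¹ • (0 : ℂ)‖) atTop (𝓝 ‖a‖) := by
      have : (fun n => ‖(x (φ n))⁻¹ • (0 : ℂ)‖) = fun n => ‖x (φ n) • (0 : ℂ)‖ := by
        funext n
        exact h.norm_inv _
      rw [this]
      exact hxt'.norm
    rw [← ha1]
    exact tendsto_nhds_unique t1 t2
  have hb'1 : ‖b'‖ = 1 := by
    have t1 := hb't.norm
    have t2 : Tendsto (fun n => ‖(y (φ n))⁻¹ • (0 : ℂ)‖) atTop (𝓝 ‖b‖) := by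
      have : (fun n => ‖(y (φ n))⁻¹ • (0 : ℂ)‖) = fun n => ‖y (φ n) • (0 : ℂ)‖ := by
        funext n
        exact h.norm_inv _
      rw [this]
      exact hyt'.norm
    rw [← hb1]
    exact tendsto_nhds_unique t1 t2
  -- the connecting element
  obtain ⟨k, hk⟩ : ∃ k : Γ, k • b' ≠ a' := by
    by_contra hcon
    push Not at hcon
    have e0 : b' = a' := by
      have := hcon 1
      rwa [one_smul] at this
    refine no_fin h hL {b'} (Set.finite_singleton b') (Set.singleton_nonempty b') ?_ ?_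
    · rw [Set.singleton_subset_iff]
      simpa using hb'1
    · intro γ z hz
      rw [Set.mem_singleton_iff] at hz ⊢
      rw [hz, hcon γ, e0]
  have hk' : k⁻¹ • a' ≠ b' := by
    intro e
    apply hk
    rw [← e, smul_inv_smul]
  have hcont : ∀ (γ : Γ) (u : ℕ → ℂ) (v : ℂ), ‖v‖ = 1 → (∀ n, ‖u n‖ ≤ 1) →
      Tendsto u atTop (𝓝 v) → Tendsto (fun n => γ • u n) atTop (𝓝 (γ • v)) := by
    intro γ u v hv hu hut
    have hc := h.contOn γ v (by simp [hv])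
    have h2 : Tendsto u atTop (𝓝[closedBall 0 1] v) :=
      tendsto_nhdsWithin_iff.2 ⟨hut, Eventually.of_forall fun n => by simpa using hu n⟩
    exact hc.tendsto.comp h2
  -- the two limits
  have l1 : Tendsto (fun n => x (φ n) • (k • ((y (φ n))⁻¹ • (0 : ℂ)))) atTop (𝓝 a) :=
    pairs_aux h (fun n => x (φ n)) (fun n => k • ((y (φ n))⁻¹ • (0 : ℂ))) a a' (k • b')
      (fun n => h.norm_le k (h.norm0 _).le)
      (hcont k _ b' hb'1 (fun n => (h.norm0 _).le) hb't) ha't ha'1 hk hxt' ha1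
  have l2 : Tendsto (fun n => y (φ n) • (k⁻¹ • ((x (φ n))⁻¹ • (0 : ℂ)))) atTop (𝓝 b) :=
    pairs_aux h (fun n => y (φ n)) (fun n => k⁻¹ • ((x (φ n))⁻¹ • (0 : ℂ))) b b' (k⁻¹ • a')
      (fun n => h.norm_le k⁻¹ (h.norm0 _).le)
      (hcont k⁻¹ _ a' ha'1 (fun n => (h.norm0 _).le) ha't) hb't hb'1 hk' hyt' hb1
  obtain ⟨n, h1, h2⟩ := ((Metric.tendsto_nhds.1 l1 ε hε).and (Metric.tendsto_nhds.1 l2 ε hε)).exists
  refine ⟨x (φ n) * k * (y (φ n))⁻¹, ?_, ?_⟩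
  · rw [dist_eq_norm] at h1
    rw [mul_assoc, mul_smul, mul_smul]
    exact h1
  · rw [dist_eq_norm] at h2
    rw [mul_inv_rev, mul_inv_rev, inv_inv, mul_smul, mul_smul]
    exact h2

/-- the image of the complement of a small disk -/
theorem pairs_dyn (h : Fuchs Γ) {a b : ℂ} (ha1 : ‖a‖ = 1) (hb1 : ‖b‖ = 1) {ε ρ δ : ℝ}
    (hρ : 0 < ρ) (hρ1 : ρ ≤ ε / 2) (hρ2 : ρ ≤ 1 / 2) (hδ1 : δ ≤ ε / 2) (hδ2 : δ ≤ 1 / 2)
    (hδ3 : δ ≤ ρ * ε / 8) {γ : Γ} (h1 : ‖γ • (0 : ℂ) - a‖ < δ) (h2 : ‖γ⁻¹ • (0 : ℂ) - b‖ < δ)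
    {z : ℂ} (hz : ‖z‖ ≤ 1) (hzb : ε ≤ ‖z - b‖) : ‖γ • z - a‖ < ε := by
  have e1 : ρ ≤ ‖z - γ⁻¹ • (0 : ℂ)‖ := by
    have t : ‖z - b‖ ≤ ‖z - γ⁻¹ • (0 : ℂ)‖ + ‖γ⁻¹ • (0 : ℂ) - b‖ := by
      calc ‖z - b‖ = ‖(z - γ⁻¹ • (0 : ℂ)) + (γ⁻¹ • (0 : ℂ) - b)‖ := by congr 1; ring
        _ ≤ _ := norm_add_le _ _
    linarith
  have e2 : ρ ≤ ‖(0 : ℂ) - γ⁻¹ • (0 : ℂ)‖ := by
    have t : ‖b‖ ≤ ‖(0 : ℂ) - γ⁻¹ • (0 : ℂ)‖ + ‖γ⁻¹ • (0 : ℂ) - b‖ := by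
      calc ‖b‖ = ‖((0 : ℂ) - γ⁻¹ • (0 : ℂ)) + (γ⁻¹ • (0 : ℂ) - b)‖ := by
            rw [← norm_neg b]
            congr 1
            ring
        _ ≤ _ := norm_add_le _ _
    linarith
  have e3 := h.contract γ hz (by simp : ‖(0 : ℂ)‖ ≤ 1) hρ e1 e2
  have e4 : 1 - ‖γ • (0 : ℂ)‖ ^ 2 ≤ 2 * ‖γ • (0 : ℂ) - a‖ := one_sub_le_dist ha1 (h.norm0 γ).le
  have e5 : 2 * (1 - ‖γ • (0 : ℂ)‖ ^ 2) / ρ ≤ ε / 2 := by
    rw [div_le_iff₀ hρ]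
    linarith
  have e6 : ‖γ • z - a‖ ≤ ‖γ • z - γ • (0 : ℂ)‖ + ‖γ • (0 : ℂ) - a‖ := by
    calc ‖γ • z - a‖ = ‖(γ • z - γ • (0 : ℂ)) + (γ • (0 : ℂ) - a)‖ := by congr 1; ring
      _ ≤ _ := norm_add_le _ _
  linarith

/-- the elements of `pairs` map the complement of a small disk at `b` into a small disk at `a`: take `pairs` for a small `δ`; a point `z` of the closed disk with `|z - b| ≥ ε`
has `|z - γ⁻¹ 0| ≥ ε / 2`, `|0 - γ⁻¹ 0| ≥ 1/2`, so `|γ z - γ 0| ≤ 2 (1 - |γ 0|²) / min (ε/2) (1/2) ≤ 4 δ / min (ε/2) (1/2)` (`Fuchs.contract`, `one_sub_le_dist`).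
The second statement is the first one for `γ⁻¹`. -/
theorem dynamics (h : Fuchs Γ) (hL : (Lim Γ).Infinite) (a b : ℂ) (ha : a ∈ Lim Γ) (hb : b ∈ Lim Γ) (ε : ℝ) (hε : 0 < ε) :
    ∃ γ : Γ, ‖γ • (0 : ℂ) - a‖ < ε ∧ ‖γ⁻¹ • (0 : ℂ) - b‖ < ε ∧
      (∀ z : ℂ, ‖z‖ ≤ 1 → ε ≤ ‖z - b‖ → ‖γ • z - a‖ < ε) ∧
      (∀ z : ℂ, ‖z‖ ≤ 1 → ε ≤ ‖z - a‖ → ‖γ⁻¹ • z - b‖ < ε) := by
  have ha1 : ‖a‖ = 1 := by simpa using ha.2
  have hb1 : ‖b‖ = 1 := by simpa using hb.2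
  obtain ⟨ρ, hρ⟩ : ∃ ρ : ℝ, ρ = min (ε / 2) (1 / 2) := ⟨_, rfl⟩
  have hρ0 : 0 < ρ := by
    rw [hρ]
    exact lt_min (by linarith) (by norm_num)
  have hρ1 : ρ ≤ ε / 2 := by
    rw [hρ]
    exact min_le_left _ _
  have hρ2 : ρ ≤ 1 / 2 := by
    rw [hρ]
    exact min_le_right _ _
  obtain ⟨δ, hδ⟩ : ∃ δ : ℝ, δ = min ρ (ρ * ε / 8) := ⟨_, rfl⟩
  have hδ0 : 0 < δ := by
    rw [hδ]
    exact lt_min hρ0 (by positivity)
  have hδρ : δ ≤ ρ := by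
    rw [hδ]
    exact min_le_left _ _
  have hδ3 : δ ≤ ρ * ε / 8 := by
    rw [hδ]
    exact min_le_right _ _
  obtain ⟨γ, h1, h2⟩ := pairs h hL a b ha hb δ hδ0
  refine ⟨γ, by linarith, by linarith, ?_, ?_⟩
  · intro z hz hzb
    exact pairs_dyn h ha1 hb1 hρ0 hρ1 hρ2 (hδρ.trans hρ1) (hδρ.trans hρ2) hδ3 h1 h2 hz hzb
  · intro z hz hza
    exact pairs_dyn h hb1 ha1 hρ0 hρ1 hρ2 (hδρ.trans hρ1) (hδρ.trans hρ2) hδ3 h2
      (by rw [inv_inv]; exact h1) hz hza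

end Pool.Agent.DD
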