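import Pool.Agent.Lib_MP_644907_full.ConfL
import Pool.Agent.Lib_MP_644907_full.Pairs

/-!
# Piece TANG2B: moving the pole to the circle
-/

set_option autoImplicit false

namespace Pool.Agent.DD

open MeasureTheory Filter Topology Metric

variable {Γ : Type} [Group Γ] [MulAction Γ ℂ] {ι : Type} [Fintype ι] {ν m : Measure ℂ} {s : ℝ}

/-- Take `b₂ ∈ Lim Γ`, `b₂ ≠ b`, `r₂ = min r |b₂ - b| / 4`, and `γ_k` from `dynamics` with `a := b₂`, `b := b`, `ε = r₂ / (k + 1)`: `γ_k 0 → b₂`, `γ_k⁻¹ 0 → b`, `|γ_k z - b₂| < ε` if `|z - b| ≥ ε`. `y_k = γ_k y`, `y_k 0 → b₂` (`y 0` is in the open disk, `|y 0 - b| > 0`). For `f` supported in `ball b r₂` the function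
`f ∘ γ_k` is supported in `ball b ε ⊆ ball b r` (if `|z - b| ≥ ε` then `γ_k z` is near `b₂`), so `c₀ U ν f (y_k) = c₀ U ν (f ∘ γ_k) y = ∫ f (γ_k ξ) pk (y 0) ξ^s dm = ∫ f η pk (y 0) (γ_k⁻¹ η)^s pk (γ_k 0) η^s dm = ∫ f η pk (y_k 0) η^s dm` (`conf_int`; `Fuchs.pk_smul` for `γ_k⁻¹`),
`pk (y_k 0) η = (1 - |y_k 0|²) / |η - y_k 0|²`. So with `c_k = c₀ / (1 - |y_k 0|²)^s`: `c_k U ν f (y_k) = ∫ f |η - y_k 0|^(-2 s) dm → ∫ f |η - b₂|^(-2 s) dm`. -/
theorem tangent_move (h : Fuchs Γ) (hL : (Lim Γ).Infinite) (W : Walk Γ ι) (hν : Stat W.toPreWalk ν) (hcf : Conf Γ m s) (b : ℂ) (r : ℝ) (y : Γ) (c₀ : ℝ)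
    (hb : b ∈ Lim Γ) (hr : 0 < r) (hc : 0 < c₀)
    (hf : ∀ f : ℂ → ℝ, ContinuousOn f (sphere 0 1) → (∀ z : ℂ, ‖z‖ = 1 → r ≤ ‖z - b‖ → f z = 0) →
        c₀ * U ν f y = ∫ ξ, f ξ * pk (y • (0 : ℂ)) ξ ^ s ∂m) : Tangent Γ ν m s := by
  have hmfin := hcf.fin
  have hLs : Lim Γ ⊆ sphere (0 : ℂ) 1 := fun z hz => hz.2
  have hms : m (sphere (0 : ℂ) 1)ᶜ = 0 :=
    measure_mono_null (Set.compl_subset_compl.2 hLs) hcf.supp
  have hae : ∀ᵐ z ∂m, z ∈ sphere (0 : ℂ) 1 := by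
    rw [ae_iff]
    exact hms
  have hmr : m.restrict (sphere (0 : ℂ) 1) = m := Measure.restrict_eq_self_of_ae_mem hae
  have hb1 : ‖b‖ = 1 := by simpa using hb.2
  -- the point `b₂`
  obtain ⟨b₂, hb₂, hne⟩ : ∃ b₂ ∈ Lim Γ, b₂ ≠ b := by
    by_contra hcon
    push Not at hcon
    exact hL ((Set.finite_singleton b).subset fun z hz => hcon z hz)
  have hb₂1 : ‖b₂‖ = 1 := by simpa using hb₂.2
  have hdist : 0 < ‖b₂ - b‖ := norm_pos_iff.2 (sub_ne_zero.2 hne)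
  obtain ⟨r₂, hr₂⟩ : ∃ r₂ : ℝ, r₂ = min r ‖b₂ - b‖ / 4 := ⟨_, rfl⟩
  have hr₂pos : 0 < r₂ := by
    rw [hr₂]
    have := lt_min hr hdist
    linarith
  have hr₂r : 4 * r₂ ≤ r := by
    rw [hr₂]
    have := min_le_left r ‖b₂ - b‖
    linarith
  have hr₂d : 4 * r₂ ≤ ‖b₂ - b‖ := by
    rw [hr₂]
    have := min_le_right r ‖b₂ - b‖
    linarith
  -- the elements `γ k`
  have hεpos : ∀ k : ℕ, 0 < r₂ / ((k : ℝ) + 1) := fun k => by positivity
  have hεle : ∀ k : ℕ, r₂ / ((k : ℝ) + 1) ≤ r₂ := fun k =>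
    div_le_self hr₂pos.le (by linarith [(Nat.cast_nonneg k : (0 : ℝ) ≤ k)])
  have hεlim : Tendsto (fun k : ℕ => r₂ / ((k : ℝ) + 1)) atTop (𝓝 0) := by
    have := tendsto_one_div_add_atTop_nhds_zero_nat (𝕜 := ℝ)
    have h2 := this.const_mul r₂
    rw [mul_zero] at h2
    refine h2.congr (fun k => ?_)
    ring
  have hdyn : ∀ k : ℕ, ∃ γ : Γ, ∀ z : ℂ, ‖z‖ ≤ 1 → r₂ / ((k : ℝ) + 1) ≤ ‖z - b‖ →
      ‖γ • z - b₂‖ < r₂ / ((k : ℝ) + 1) := by
    intro k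
    obtain ⟨γ, -, -, h3, -⟩ := dynamics h hL b₂ b hb₂ hb (r₂ / ((k : ℝ) + 1)) (hεpos k)
    exact ⟨γ, h3⟩
  choose γ hγ using hdyn
  -- the points `y_k 0`
  have hy0 : ‖y • (0 : ℂ)‖ < 1 := h.norm0 y
  have hyb : 0 < ‖y • (0 : ℂ) - b‖ := by
    rw [norm_pos_iff, sub_ne_zero]
    rintro e
    rw [e] at hy0
    linarith
  have hylim : Tendsto (fun k => (γ k * y) • (0 : ℂ)) atTop (𝓝 b₂) := by
    rw [tendsto_iff_norm_sub_tendsto_zero]
    refine squeeze_zero' (Eventually.of_forall fun _ => norm_nonneg _) ?_ hεlim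
    filter_upwards [hεlim.eventually (gt_mem_nhds hyb)] with k hk
    rw [mul_smul]
    exact (hγ k _ hy0.le hk.le).le
  have hyk : ∀ k, ‖(γ k * y) • (0 : ℂ)‖ < 1 := fun k => h.norm0 _
  have hyk2 : ∀ k, 0 < 1 - ‖(γ k * y) • (0 : ℂ)‖ ^ 2 := fun k => geoA_pos (hyk k)
  refine ⟨b, b₂, r₂, fun k => γ k * y, fun k => c₀ / (1 - ‖(γ k * y) • (0 : ℂ)‖ ^ 2) ^ s, hb, hb₂1,
    hr₂pos, by linarith, fun k => div_pos hc (Real.rpow_pos_of_pos (hyk2 k) s), hylim, ?_⟩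
  intro f hfc hfs
  -- the value of `U` at `y_k`
  have hval : ∀ k, c₀ / (1 - ‖(γ k * y) • (0 : ℂ)‖ ^ 2) ^ s * U ν f (γ k * y) =
      ∫ η, f η * (‖η - (γ k * y) • (0 : ℂ)‖ ^ 2) ^ (-s) ∂m := by
    intro k
    have e1 : U ν f (γ k * y) = U ν (fun z => f (γ k • z)) y := by
      simp only [U, mul_smul]
    have hcont : ContinuousOn (fun z : ℂ => f (γ k • z)) (sphere 0 1) := by
      refine hfc.comp ((h.contOn (γ k)).mono sphere_subset_closedBall) fun z hz => ?_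
      rw [mem_sphere_zero_iff_norm] at hz ⊢
      exact h.norm_eq _ hz
    have hsupp : ∀ z : ℂ, ‖z‖ = 1 → r ≤ ‖z - b‖ → f (γ k • z) = 0 := by
      intro z hz hzr
      have h1 := hγ k z hz.le (by linarith [hεle k])
      apply hfs _ (h.norm_eq _ hz)
      have h2 : ‖b₂ - b‖ ≤ ‖γ k • z - b₂‖ + ‖γ k • z - b‖ := by
        calc ‖b₂ - b‖ = ‖(γ k • z - b) - (γ k • z - b₂)‖ := by congr 1; ring
          _ ≤ ‖γ k • z - b‖ + ‖γ k • z - b₂‖ := norm_sub_le _ _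
          _ = _ := add_comm _ _
      have h3 := hεle k
      linarith
    have e2 := hf _ hcont hsupp
    -- change of variables
    have hpc : ∀ w : ℂ, ‖w‖ < 1 → ContinuousOn (fun η : ℂ => pk w η ^ s) (sphere 0 1) := by
      intro w hw
      have hne0 : ∀ η ∈ sphere (0 : ℂ) 1, ‖η - w‖ ^ 2 ≠ 0 := by
        intro η hη h0
        rw [mem_sphere_zero_iff_norm] at hη
        rw [sq_eq_zero_iff, norm_eq_zero, sub_eq_zero] at h0
        rw [h0] at hη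
        linarith
      refine ContinuousOn.rpow_const ?_ fun η hη => .inl ?_
      · unfold pk
        exact ContinuousOn.div continuousOn_const (by fun_prop) hne0
      · rw [mem_sphere_zero_iff_norm] at hη
        exact (pk_pos hw hη).ne'
    have hgc : ContinuousOn (fun η : ℂ => f η * pk (y • (0 : ℂ)) ((γ k)⁻¹ • η) ^ s)
        (sphere 0 1) := by
      refine hfc.mul ?_
      refine (hpc _ hy0).comp ((h.contOn (γ k)⁻¹).mono sphere_subset_closedBall) fun z hz => ?_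
      rw [mem_sphere_zero_iff_norm] at hz ⊢
      exact h.norm_eq _ hz
    have e3 := conf_int h hcf (γ k) _ hgc
    simp only [inv_smul_smul] at e3
    have e4 : ∫ η, f η * pk (y • (0 : ℂ)) ((γ k)⁻¹ • η) ^ s * pk (γ k • (0 : ℂ)) η ^ s ∂m =
        ∫ η, (1 - ‖(γ k * y) • (0 : ℂ)‖ ^ 2) ^ s *
          (f η * (‖η - (γ k * y) • (0 : ℂ)‖ ^ 2) ^ (-s)) ∂m := by
      refine integral_congr_ae ?_
      filter_upwards [hae] with η hη
      rw [mem_sphere_zero_iff_norm] at hη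
      have h1 := h.pk_smul (γ k)⁻¹ (z := (γ k * y) • (0 : ℂ)) (ξ := η) (hyk k) hη
      rw [inv_inv, mul_smul, inv_smul_smul] at h1
      have hη1 : ‖(γ k)⁻¹ • η‖ = 1 := h.norm_eq _ hη
      have h2 : 0 ≤ pk (y • (0 : ℂ)) ((γ k)⁻¹ • η) := (pk_pos hy0 hη1).le
      have h3 : 0 ≤ pk (γ k • (0 : ℂ)) η := (pk_pos (h.norm0 _) hη).le
      rw [mul_assoc, ← Real.mul_rpow h2 h3, h1, mul_smul]
      have h4 : ‖η - γ k • y • (0 : ℂ)‖ ^ 2 ≠ 0 := by
        intro h0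
        rw [sq_eq_zero_iff, norm_eq_zero, sub_eq_zero] at h0
        have := h.norm_lt (γ k) hy0
        rw [← h0] at this
        linarith
      have h5 : 0 < ‖η - γ k • y • (0 : ℂ)‖ ^ 2 := lt_of_le_of_ne (sq_nonneg _) (Ne.symm h4)
      have h6 : 0 ≤ 1 - ‖γ k • y • (0 : ℂ)‖ ^ 2 := by
        have := hyk2 k
        rw [mul_smul] at this
        exact this.le
      unfold pk
      rw [Real.div_rpow h6 h5.le, Real.rpow_neg h5.le, div_eq_mul_inv]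
      ring
    rw [e4, integral_const_mul] at e3
    rw [e1, div_mul_eq_mul_div, e2, e3,
      mul_div_cancel_left₀ _ (Real.rpow_pos_of_pos (hyk2 k) s).ne']
  simp only [hval]
  -- the limit
  obtain ⟨C, hC⟩ : ∃ C : ℝ, ∀ z ∈ sphere (0 : ℂ) 1, ‖f z‖ ≤ C :=
    (isCompact_sphere (0 : ℂ) 1).exists_bound_of_continuousOn hfc
  have hC0 : 0 ≤ C := (norm_nonneg _).trans (hC b (by simpa using hb1))
  refine tendsto_integral_filter_of_dominated_convergence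
    (fun _ => C * ((2 * r₂) ^ 2) ^ (-s)) ?_ ?_ (integrable_const _) ?_
  · refine Eventually.of_forall fun k => ?_
    rw [← hmr]
    refine ContinuousOn.aestronglyMeasurable ?_ isClosed_sphere.measurableSet
    refine hfc.mul (ContinuousOn.rpow_const (by fun_prop) fun η hη => .inl ?_)
    rw [mem_sphere_zero_iff_norm] at hη
    intro h0
    rw [sq_eq_zero_iff, norm_eq_zero, sub_eq_zero] at h0
    have := hyk k
    rw [← h0] at this
    linarith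
  · have hev : ∀ᶠ k in atTop, ‖(γ k * y) • (0 : ℂ) - b₂‖ < r₂ := by
      have := (tendsto_iff_norm_sub_tendsto_zero.1 hylim).eventually (gt_mem_nhds hr₂pos)
      exact this
    filter_upwards [hev] with k hk
    filter_upwards [hae] with η hη
    have hη1 : ‖η‖ = 1 := by simpa using hη
    rw [norm_mul]
    by_cases hηb : r₂ ≤ ‖η - b‖
    · rw [hfs η hη1 hηb, norm_zero, zero_mul]
      exact mul_nonneg hC0 (Real.rpow_nonneg (sq_nonneg _) _)
    · push Not at hηb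
      have h1 : 2 * r₂ ≤ ‖η - (γ k * y) • (0 : ℂ)‖ := by
        have h2 : ‖b₂ - b‖ ≤ ‖η - b‖ + ‖η - (γ k * y) • (0 : ℂ)‖ +
            ‖(γ k * y) • (0 : ℂ) - b₂‖ := by
          calc ‖b₂ - b‖ = ‖(η - b) - (η - (γ k * y) • (0 : ℂ)) - ((γ k * y) • (0 : ℂ) - b₂)‖ := by
                congr 1; ring
            _ ≤ ‖(η - b) - (η - (γ k * y) • (0 : ℂ))‖ + ‖(γ k * y) • (0 : ℂ) - b₂‖ :=
                norm_sub_le _ _
            _ ≤ _ := by
                have := norm_sub_le (η - b) (η - (γ k * y) • (0 : ℂ))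
                linarith
        linarith
      have h3 : (2 * r₂) ^ 2 ≤ ‖η - (γ k * y) • (0 : ℂ)‖ ^ 2 :=
        pow_le_pow_left₀ (by linarith) h1 2
      have h4 : (‖η - (γ k * y) • (0 : ℂ)‖ ^ 2) ^ (-s) ≤ ((2 * r₂) ^ 2) ^ (-s) :=
        Real.rpow_le_rpow_of_nonpos (by positivity) h3 (by linarith [hcf.pos])
      rw [Real.norm_of_nonneg (Real.rpow_nonneg (sq_nonneg _) _)]
      exact mul_le_mul (hC η hη) h4 (Real.rpow_nonneg (sq_nonneg _) _) hC0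
  · filter_upwards [hae] with η hη
    have hη1 : ‖η‖ = 1 := by simpa using hη
    by_cases hηb : r₂ ≤ ‖η - b‖
    · simp only [hfs η hη1 hηb, zero_mul]
      exact tendsto_const_nhds
    · push Not at hηb
      refine Tendsto.const_mul _ ?_
      have h1 : Tendsto (fun k => ‖η - (γ k * y) • (0 : ℂ)‖ ^ 2) atTop (𝓝 (‖η - b₂‖ ^ 2)) :=
        (tendsto_const_nhds.sub hylim).norm.pow 2
      refine h1.rpow_const (.inl ?_)
      intro h0
      rw [sq_eq_zero_iff, norm_eq_zero, sub_eq_zero] at h0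
      rw [h0] at hηb
      linarith

end Pool.Agent.DD
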