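import Pool.Agent.Lib_MP_644907_full.Tang1
import Pool.Agent.Lib_MP_644907_full.Tang2a
import Pool.Agent.Lib_MP_644907_full.Tang2b

/-!
# Piece TANG2: moving the pole to the circle
-/

set_option autoImplicit false

namespace Pool.Agent.DD

open MeasureTheory Filter Topology Metric

variable {Γ : Type} [Group Γ] [MulAction Γ ℂ] {ι : Type} [Fintype ι] {ν m : Measure ℂ} {s : ℝ}

/-- `tangent0`, and if the pole is inside, `tangent_const`, `tangent_move` -/
theorem gap_of_not_tangent (h : Fuchs Γ) (hL : (Lim Γ).Infinite) (W : Walk Γ ι) (hν : Stat W.toPreWalk ν) (hcf : Conf Γ m s)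
    (hT : ¬ Tangent Γ ν m s) (D : ℝ) : Gap Γ ν m D := by
  by_contra hg
  obtain ⟨b, ζ, r, x, c, h1, h2, h3, h4, h5, h6, h7⟩ := tangent0 h hL W hν hcf D hg
  rcases h2.lt_or_eq with h2 | h2
  · obtain ⟨y, c₀, hc, hy⟩ := tangent_const h hL W hν hcf b ζ r x c h1 h2 h3 h5 h6 h7
    exact hT (tangent_move h hL W hν hcf b r y c₀ h1 h3 hc hy)
  · exact hT ⟨b, ζ, r, x, c, h1, h2, h3, h4, h5, h6, h7⟩

end Pool.Agent.DD
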