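import Pool.Agent.Lib_MP_644907_full.FreqB
import Pool.Agent.Lib_MP_644907_full.DimE
import Pool.Agent.Lib_MP_644907_full.Tang2
import Pool.Agent.Lib_MP_644907_full.GoodG

/-!
# Piece DROP: no tangent situation implies dimension drop
-/

set_option autoImplicit false

namespace Pool.Agent.DD

open MeasureTheory Filter Topology Metric

variable {Γ : Type} [Group Γ] [MulAction Γ ℂ] {ι : Type} [Fintype ι] {ν m : Measure ℂ} {s : ℝ}

/-- Let `D` be from `freq_ae`, `q, ε` from the gap, `a = - log (1 - ε) > 0`, `η = a / 8`, and `t ∈ (0, s)` close to `s` with `q (s - t) log 2 < a / 16`... For a.e. `ξ` there are `σ, r` and infinitely many `k` with `GoodArc`, `NGood ≥ k/8 - 1` and (by `hell_ae` for the finitely many `(σ, r)`)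
`m (dya) ≤ e^(η k) (1 - ε)^(k/4 - 2) ν (dya) = (1 - ε)^(-2) e^(- a k / 8) ν (dya)`; with `l = r + q k`, `mass_good`: `ν (dya) ≥ c' e^(a k / 8) (2^(-l))^s ≥ (2^(-l))^t` for `k` large as `(2^(-l))^(t - s) = 2^(l (s - t)) ≤ 2^(q (k + 1) (s - t))`. So a.e. `ξ ∈ Heavy ν 0 t ∪ Heavy ν (1/3) t`. -/
theorem ae_heavy (h : Fuchs Γ) (hL : (Lim Γ).Infinite) (W : Walk Γ ι) (hν : Stat W.toPreWalk ν) (hcf : Conf Γ m s)
    (hg : ∀ D : ℝ, Gap Γ ν m D) : ∃ t : ℝ, 0 < t ∧ t < s ∧ ∀ᵐ ξ ∂ν, ξ ∈ Heavy ν 0 t ∪ Heavy ν (1 / 3) t := by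
  have := hν.prob
  have := hcf.fin
  obtain ⟨D, hD⟩ := freq_ae h hL W hν
  obtain ⟨q, ε, hq, hε, hε1, hgap⟩ := hg D
  obtain ⟨c, C, hc, hC, hmass⟩ := mass_good h hL hcf D
  have hs := hcf.pos
  have h1ε : 0 < 1 - ε := by linarith
  obtain ⟨a, ha⟩ : ∃ a, a = -Real.log (1 - ε) := ⟨_, rfl⟩
  have ha0 : 0 < a := by
    have := Real.log_neg h1ε (by linarith)
    rw [ha]; linarith
  have hlog2 : 0 < Real.log 2 := Real.log_pos (by norm_num)
  have hq' : (0 : ℝ) < q := by exact_mod_cast hq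
  obtain ⟨d, hd⟩ : ∃ d, d = min (s / 2) (a / (16 * q * Real.log 2)) := ⟨_, rfl⟩
  have hd0 : 0 < d := by rw [hd]; exact lt_min (by positivity) (by positivity)
  have hds : d ≤ s / 2 := by rw [hd]; exact min_le_left _ _
  have hda : d * (16 * q * Real.log 2) ≤ a := by
    have : d ≤ a / (16 * q * Real.log 2) := by rw [hd]; exact min_le_right _ _
    rwa [le_div_iff₀ (by positivity)] at this
  refine ⟨s - d, by linarith, by linarith, ?_⟩
  have H : ∀ σ : ℝ, ∀ᵐ ξ ∂ν, ∀ r : ℕ, ∀ᶠ k : ℕ in atTop, m.real (dya σ (r + q * k) ξ) ≤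
      Real.exp (a / 8 * k) * (1 - ε) ^ (2 * NGood Γ D σ r q k ξ) * ν.real (dya σ (r + q * k) ξ) := fun σ =>
    ae_all_iff.2 fun r => hell_ae hν.supp D σ ε (a / 8) r q hq hε hε1 (by positivity) hgap
  filter_upwards [hD q hq, H 0, H (1 / 3)] with ξ h1 h2 h3
  obtain ⟨hn, σ, hσ, r, hr, hfr⟩ := h1
  have h4 : ∀ᶠ k : ℕ in atTop, m.real (dya σ (r + q * k) ξ) ≤
      Real.exp (a / 8 * k) * (1 - ε) ^ (2 * NGood Γ D σ r q k ξ) * ν.real (dya σ (r + q * k) ξ) := by
    rcases hσ with rfl | rfl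
    · exact h2 r
    · exact h3 r
  have h5 : ∀ᶠ k : ℕ in atTop, Real.exp (2 * a + a / 16) / c ≤ Real.exp (a / 16 * k) := by
    have h6 : Tendsto (fun k : ℕ => Real.exp (a / 16 * k)) atTop atTop :=
      Real.tendsto_exp_atTop.comp (tendsto_natCast_atTop_atTop.const_mul_atTop (by positivity))
    exact h6.eventually_ge_atTop _
  have h6 : ∃ᶠ k : ℕ in atTop, ((1 / 2 : ℝ) ^ (r + q * k)) ^ (s - d) ≤ ν.real (dya σ (r + q * k) ξ) := by
    refine (hfr.and_eventually (h4.and h5)).mono ?_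
    rintro k ⟨⟨hgd, hN⟩, hm, hk⟩
    have hx : (0 : ℝ) < (1 / 2 : ℝ) ^ (r + q * k) := by positivity
    have hV : 0 ≤ ν.real (dya σ (r + q * k) ξ) := measureReal_nonneg
    have h7 : c * ((1 / 2 : ℝ) ^ (r + q * k)) ^ s ≤ m.real (dya σ (r + q * k) ξ) := (hmass _ _ hgd).1
    have h8 : (1 - ε) ^ (2 * NGood Γ D σ r q k ξ) ≤ Real.exp (2 * a - a * k / 4) := by
      have e1 : (1 - ε) ^ (2 * NGood Γ D σ r q k ξ) = Real.exp (-a * (2 * NGood Γ D σ r q k ξ)) := by
        rw [← Real.rpow_natCast, Real.rpow_def_of_pos h1ε, ha]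
        push_cast
        ring_nf
      rw [e1, Real.exp_le_exp]
      have := mul_le_mul_of_nonneg_left hN ha0.le
      linarith
    have h9 : c * ((1 / 2 : ℝ) ^ (r + q * k)) ^ s ≤ Real.exp (2 * a - a * k / 8) * ν.real (dya σ (r + q * k) ξ) := by
      refine h7.trans (hm.trans ?_)
      apply mul_le_mul_of_nonneg_right _ hV
      calc Real.exp (a / 8 * k) * (1 - ε) ^ (2 * NGood Γ D σ r q k ξ)
          ≤ Real.exp (a / 8 * k) * Real.exp (2 * a - a * k / 4) :=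
            mul_le_mul_of_nonneg_left h8 (Real.exp_pos _).le
        _ = Real.exp (2 * a - a * k / 8) := by
            rw [← Real.exp_add]
            congr 1
            ring
    have h10 : ((1 / 2 : ℝ) ^ (r + q * k)) ^ (-d) ≤ Real.exp (a / 16 * k + a / 16) := by
      have e1 : ((1 / 2 : ℝ) ^ (r + q * k)) ^ (-d) = Real.exp (((r : ℝ) + q * k) * (d * Real.log 2)) := by
        rw [Real.rpow_def_of_pos hx, Real.log_pow, one_div, Real.log_inv]
        push_cast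
        ring_nf
      rw [e1, Real.exp_le_exp]
      have h11 : (r : ℝ) + q * k ≤ q * (k + 1) := by
        have : (r : ℝ) ≤ q := by exact_mod_cast hr.le
        linarith
      calc ((r : ℝ) + q * k) * (d * Real.log 2) ≤ q * (k + 1) * (d * Real.log 2) :=
            mul_le_mul_of_nonneg_right h11 (by positivity)
        _ = (k + 1) / 16 * (d * (16 * q * Real.log 2)) := by ring
        _ ≤ (k + 1) / 16 * a := mul_le_mul_of_nonneg_left hda (by positivity)
        _ = a / 16 * k + a / 16 := by ring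
    have h11 : ((1 / 2 : ℝ) ^ (r + q * k)) ^ (s - d) = ((1 / 2 : ℝ) ^ (r + q * k)) ^ s * ((1 / 2 : ℝ) ^ (r + q * k)) ^ (-d) := by
      rw [← Real.rpow_add hx, sub_eq_add_neg]
    have h12 : 0 < ((1 / 2 : ℝ) ^ (r + q * k)) ^ s := Real.rpow_pos_of_pos hx _
    have h13 : c * ((1 / 2 : ℝ) ^ (r + q * k)) ^ (s - d) ≤ c * ν.real (dya σ (r + q * k) ξ) := by
      rw [h11]
      calc c * (((1 / 2 : ℝ) ^ (r + q * k)) ^ s * ((1 / 2 : ℝ) ^ (r + q * k)) ^ (-d))
          = (c * ((1 / 2 : ℝ) ^ (r + q * k)) ^ s) * ((1 / 2 : ℝ) ^ (r + q * k)) ^ (-d) := by ring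
        _ ≤ (Real.exp (2 * a - a * k / 8) * ν.real (dya σ (r + q * k) ξ)) * Real.exp (a / 16 * k + a / 16) :=
            mul_le_mul h9 h10 (Real.rpow_pos_of_pos hx _).le (mul_nonneg (Real.exp_pos _).le hV)
        _ = (Real.exp (2 * a - a * k / 8) * Real.exp (a / 16 * k + a / 16)) * ν.real (dya σ (r + q * k) ξ) := by ring
        _ = (Real.exp (2 * a + a / 16) * Real.exp (-(a / 16 * k))) * ν.real (dya σ (r + q * k) ξ) := by
            rw [← Real.exp_add, ← Real.exp_add]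
            congr 2
            ring
        _ ≤ c * ν.real (dya σ (r + q * k) ξ) := by
            apply mul_le_mul_of_nonneg_right _ hV
            rw [div_le_iff₀ hc] at hk
            calc Real.exp (2 * a + a / 16) * Real.exp (-(a / 16 * k)) ≤ (Real.exp (a / 16 * k) * c) * Real.exp (-(a / 16 * k)) :=
                  mul_le_mul_of_nonneg_right hk (Real.exp_pos _).le
              _ = c * (Real.exp (a / 16 * k) * Real.exp (-(a / 16 * k))) := by ring
              _ = c := by rw [← Real.exp_add, add_neg_cancel, Real.exp_zero, mul_one]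
    exact le_of_mul_le_mul_left h13 hc
  have h7 : Tendsto (fun k : ℕ => r + q * k) atTop atTop := by
    refine tendsto_atTop_mono (fun k => ?_) tendsto_id
    calc k ≤ q * k := Nat.le_mul_of_pos_left k hq
      _ ≤ r + q * k := Nat.le_add_left _ _
  have h8 := h7.frequently (p := fun l : ℕ => ((1 / 2 : ℝ) ^ l) ^ (s - d) ≤ ν.real (dya σ l ξ)) h6
  rcases hσ with rfl | rfl
  · exact Or.inl ⟨hn, h8⟩
  · exact Or.inr ⟨hn, h8⟩

theorem drop (h : Fuchs Γ) (hL : (Lim Γ).Infinite) (W : Walk Γ ι) (hν : Stat W.toPreWalk ν) (hcf : Conf Γ m s)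
    (hs : ENNReal.ofReal s ≤ dimH (Lim Γ)) (hT : ¬ Tangent Γ ν m s) :
    ∃ E : Set ℂ, MeasurableSet E ∧ ν Eᶜ = 0 ∧ dimH E < dimH (Lim Γ) := by
  obtain ⟨t, ht, hts, hae⟩ := ae_heavy h hL W hν hcf (fun D => gap_of_not_tangent h hL W hν hcf hT D)
  have := hν.prob
  refine ⟨Heavy ν 0 t ∪ Heavy ν (1 / 3) t, (meas_heavy _ _ _).union (meas_heavy _ _ _), ?_, ?_⟩
  · exact hae
  · refine lt_of_le_of_lt ?_ (lt_of_lt_of_le ((ENNReal.ofReal_lt_ofReal_iff (ht.trans hts)).2 hts) hs)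
    rw [dimH_union]
    exact max_le (dimH_heavy ν 0 t ht) (dimH_heavy ν (1 / 3) t ht)

end Pool.Agent.DD
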