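import Pool.Agent.Lib_MP_644907_full.Base

/-!
# Piece HIT: hitting probabilities
-/

set_option autoImplicit false

namespace Pool.Agent.DD

open Filter Topology

variable {Γ : Type} [Group Γ] {ι : Type} [Fintype ι]

theorem hit_avg_nonneg (W : PreWalk Γ ι) {u : Γ → ℝ} (hu : ∀ x, 0 ≤ u x) (x : Γ) : 0 ≤ avg W u x :=
  Finset.sum_nonneg fun i _ => mul_nonneg (W.pos i).le (hu _)

theorem hit_avg_mono (W : PreWalk Γ ι) {u v : Γ → ℝ} (huv : ∀ x, u x ≤ v x) (x : Γ) : avg W u x ≤ avg W v x :=
  Finset.sum_le_sum fun i _ => mul_le_mul_of_nonneg_left (huv _) (W.pos i).le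

theorem hit_avg_one (W : PreWalk Γ ι) (x : Γ) : avg W (fun _ => 1) x = 1 := by
  unfold avg
  simp only [mul_one]
  exact W.sum

/-- induction on `n` -/
theorem hitn_nonneg (W : PreWalk Γ ι) (K : Set Γ) (z : Γ) (n : ℕ) (x : Γ) : 0 ≤ hitn W K z n x := by
  classical
  induction n generalizing x with
  | zero =>
    simp only [hitn]
    split_ifs
    · exact zero_le_one
    · exact le_rfl
  | succ n ih =>
    simp only [hitn]
    split_ifs
    · exact zero_le_one
    · exact le_rfl
    · exact hit_avg_nonneg W ih x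

/-- induction on `n` -/
theorem hitn_le_one (W : PreWalk Γ ι) (K : Set Γ) (z : Γ) (n : ℕ) (x : Γ) : hitn W K z n x ≤ 1 := by
  classical
  induction n generalizing x with
  | zero =>
    simp only [hitn]
    split_ifs
    · exact le_rfl
    · exact zero_le_one
  | succ n ih =>
    simp only [hitn]
    split_ifs
    · exact le_rfl
    · exact zero_le_one
    · exact (hit_avg_mono W ih x).trans (hit_avg_one W x).le

theorem hit_succ (W : PreWalk Γ ι) (K : Set Γ) (z : Γ) (n : ℕ) (x : Γ) (hx : x ∉ K) :
    hitn W K z (n + 1) x = avg W (hitn W K z n) x := by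
  classical
  show (if x ∈ K then (if x = z then (1 : ℝ) else 0) else avg W (hitn W K z n) x) = _
  exact if_neg hx

/-- induction on `n` (for `x ∉ K`, `hitn 0 x = 0` because `z ∈ K`) -/
theorem hitn_mono (W : PreWalk Γ ι) (K : Set Γ) (z : Γ) (hz : z ∈ K) (x : Γ) : Monotone (fun n => hitn W K z n x) := by
  classical
  have key : ∀ (n : ℕ) (x : Γ), hitn W K z n x ≤ hitn W K z (n + 1) x := by
    intro n
    induction n with
    | zero =>
      intro x
      by_cases hx : x ∈ K
      · simp only [hitn, hx, if_true]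
        exact le_rfl
      · have hxz : x ≠ z := fun h => hx (h ▸ hz)
        have h1 : hitn W K z 0 x = 0 := by
          simp only [hitn]
          rw [if_neg hxz]
        rw [h1]
        exact hitn_nonneg W K z _ x
    | succ n ih =>
      intro x
      by_cases hx : x ∈ K
      · simp only [hitn, hx, if_true]
        exact le_rfl
      · rw [hit_succ W K z n x hx, hit_succ W K z (n + 1) x hx]
        exact hit_avg_mono W ih x
  exact monotone_nat_of_le_succ fun n => key n x

theorem hit_bdd (W : PreWalk Γ ι) (K : Set Γ) (z : Γ) (x : Γ) : BddAbove (Set.range fun n => hitn W K z n x) := by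
  refine ⟨1, ?_⟩
  rintro y ⟨n, rfl⟩
  exact hitn_le_one W K z n x

/-- monotone bounded sequences converge -/
theorem hit_tendsto (W : PreWalk Γ ι) (K : Set Γ) (z : Γ) (hz : z ∈ K) (x : Γ) :
    Tendsto (fun n => hitn W K z n x) atTop (𝓝 (hit W K z x)) :=
  tendsto_atTop_ciSup (hitn_mono W K z hz x) (hit_bdd W K z x)

theorem hit_nonneg (W : PreWalk Γ ι) (K : Set Γ) (z : Γ) (hz : z ∈ K) (x : Γ) : 0 ≤ hit W K z x :=
  ge_of_tendsto' (hit_tendsto W K z hz x) fun n => hitn_nonneg W K z n x

theorem hit_le_one (W : PreWalk Γ ι) (K : Set Γ) (z : Γ) (hz : z ∈ K) (x : Γ) : hit W K z x ≤ 1 :=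
  le_of_tendsto' (hit_tendsto W K z hz x) fun n => hitn_le_one W K z n x

theorem hit_self (W : PreWalk Γ ι) (K : Set Γ) (z : Γ) (hz : z ∈ K) : hit W K z z = 1 := by
  classical
  unfold hit
  have h : ∀ n, hitn W K z n z = 1 := by
    intro n
    cases n with
    | zero => simp only [hitn, if_true]
    | succ n => simp only [hitn, hz, if_true]
  simp only [h, ciSup_const]

theorem hit_mem (W : PreWalk Γ ι) (K : Set Γ) (z : Γ) (hz : z ∈ K) (x : Γ) (hx : x ∈ K) (hne : x ≠ z) : hit W K z x = 0 := by
  classical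
  unfold hit
  have h : ∀ n, hitn W K z n x = 0 := by
    intro n
    cases n with
    | zero => simp only [hitn, hne, if_false]
    | succ n => simp only [hitn, hx, hne, if_true, if_false]
  simp only [h, ciSup_const]

theorem hit_avg_tendsto (W : PreWalk Γ ι) {u : ℕ → Γ → ℝ} {v : Γ → ℝ} (h : ∀ x, Tendsto (fun n => u n x) atTop (𝓝 (v x)))
    (x : Γ) : Tendsto (fun n => avg W (u n) x) atTop (𝓝 (avg W v x)) :=
  tendsto_finsetSum _ fun _ _ => (h _).const_mul _

/-- limit of the recursion -/
theorem hit_avg (W : PreWalk Γ ι) (K : Set Γ) (z : Γ) (hz : z ∈ K) (x : Γ) (hx : x ∉ K) : hit W K z x = avg W (hit W K z) x := by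
  classical
  have h1 := (hit_tendsto W K z hz x).comp (tendsto_add_atTop_nat 1)
  have h2 := hit_avg_tendsto W (fun x => hit_tendsto W K z hz x) x
  refine tendsto_nhds_unique h1 (h2.congr fun n => ?_)
  exact (hit_succ W K z n x hx).symm

/-- minimality: by induction `hitn W K z n x * s z ≤ s x` -/
theorem hit_mul_le (W : PreWalk Γ ι) (K : Set Γ) (z : Γ) (hz : z ∈ K) (s : Γ → ℝ) (h0 : ∀ x, 0 ≤ s x)
    (hs : ∀ x, x ∉ K → avg W s x ≤ s x) (x : Γ) : hit W K z x * s z ≤ s x := by
  classical
  have hb : ∀ x, (if x = z then (1 : ℝ) else 0) * s z ≤ s x := by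
    intro x
    by_cases hx : x = z
    · rw [if_pos hx, one_mul, hx]
    · rw [if_neg hx, zero_mul]
      exact h0 x
  have key : ∀ (n : ℕ) (x : Γ), hitn W K z n x * s z ≤ s x := by
    intro n
    induction n with
    | zero =>
      intro x
      simp only [hitn]
      exact hb x
    | succ n ih =>
      intro x
      by_cases hx : x ∈ K
      · simp only [hitn, hx, if_true]
        exact hb x
      · rw [hit_succ W K z n x hx]
        refine le_trans ?_ (hs x hx)
        unfold avg
        rw [Finset.sum_mul]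
        refine Finset.sum_le_sum fun i _ => ?_
        rw [mul_assoc]
        exact mul_le_mul_of_nonneg_left (ih _) (W.pos i).le
  exact le_of_tendsto' ((hit_tendsto W K z hz x).mul_const (s z)) fun n => key n x

end Pool.Agent.DD
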