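import Pool.Agent.Lib_MP_644907_full.MaxP
import Pool.Agent.Lib_MP_644907_full.Hit

/-!
# Piece FE: first entrance inequality
-/

set_option autoImplicit false

namespace Pool.Agent.DD

open Filter Topology

variable {Γ : Type} [Group Γ] [Infinite Γ] {ι : Type} [Fintype ι]

omit [Infinite Γ] in
private theorem fe_avg_sub (W : PreWalk Γ ι) (u v : Γ → ℝ) (x : Γ) :
    avg W (fun x => u x - v x) x = avg W u x - avg W v x := by
  unfold avg
  rw [← Finset.sum_sub_distrib]
  exact Finset.sum_congr rfl fun i _ => mul_sub _ _ _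

omit [Infinite Γ] in
private theorem fe_avg_sum (W : PreWalk Γ ι) (K : Set Γ) (E : Finset Γ) (c : Γ → ℝ) (x : Γ) :
    avg W (fun x => ∑ z ∈ E, hit W K z x * c z) x = ∑ z ∈ E, avg W (hit W K z) x * c z := by
  unfold avg
  calc ∑ i, W.p i * ∑ z ∈ E, hit W K z (x * W.g i) * c z
      = ∑ i, ∑ z ∈ E, W.p i * hit W K z (x * W.g i) * c z := by
        refine Finset.sum_congr rfl fun i _ => ?_
        rw [Finset.mul_sum]
        exact Finset.sum_congr rfl fun z _ => by ring
    _ = ∑ z ∈ E, ∑ i, W.p i * hit W K z (x * W.g i) * c z := Finset.sum_comm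
    _ = ∑ z ∈ E, (∑ i, W.p i * hit W K z (x * W.g i)) * c z :=
        Finset.sum_congr rfl fun z _ => (Finset.sum_mul _ _ _).symm

omit [Infinite Γ] in
/-- value of the sum at a point of `K` -/
private theorem fe_mem (W : PreWalk Γ ι) (K : Set Γ) (E : Finset Γ) (hE : ∀ z ∈ E, z ∈ K) (c : Γ → ℝ) (x : Γ) (hx : x ∈ K) :
    (x ∈ E → ∑ z ∈ E, hit W K z x * c z = c x) ∧ (x ∉ E → ∑ z ∈ E, hit W K z x * c z = 0) := by
  constructor
  · intro hxE
    rw [Finset.sum_eq_single x]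
    · rw [hit_self W K x hx, one_mul]
    · intro z hz hne
      rw [hit_mem W K z (hE z hz) x hx (Ne.symm hne), zero_mul]
    · exact fun hn => absurd hxE hn
  · intro hxE
    refine Finset.sum_eq_zero fun z hz => ?_
    rw [hit_mem W K z (hE z hz) x hx (fun h => hxE (h ▸ hz)), zero_mul]

omit [Infinite Γ] in
private theorem fe_harm (W : PreWalk Γ ι) (K : Set Γ) (E : Finset Γ) (hE : ∀ z ∈ E, z ∈ K) (c : Γ → ℝ) (x : Γ) (hx : x ∉ K) :
    avg W (fun x => ∑ z ∈ E, hit W K z x * c z) x = ∑ z ∈ E, hit W K z x * c z := by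
  rw [fe_avg_sum]
  refine Finset.sum_congr rfl fun z hz => ?_
  rw [← hit_avg W K z (hE z hz) x hx]

/-- `max_principle` for `w = u - ∑_{z ∈ E} hit W K z · u z - v`: off `K` it is subharmonic, `w ≤ u`; at entrance points `x ∈ K`: if `x ∈ E` then `∑_z hit W K z x * u z = u x` (`hit_self`, `hit_mem`), otherwise the sum is `0` and `u x ≤ v x`. -/
theorem fe_le (W : Walk Γ ι) (K : Set Γ) (E : Finset Γ) (hE : ∀ z ∈ E, z ∈ K) (u v : Γ → ℝ) (hu0 : ∀ x, 0 ≤ u x) (hv0 : ∀ x, 0 ≤ v x)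
    (hu : ∀ x, x ∉ K → u x ≤ avg W.toPreWalk u x) (hv : ∀ x, x ∉ K → avg W.toPreWalk v x ≤ v x)
    (hinf : ∀ ε : ℝ, 0 < ε → {x | x ∉ K ∧ ε < u x}.Finite)
    (hK : ∀ x ∈ K, x ∉ E → (∃ y, y ∉ K ∧ ∃ i, x = y * W.g i) → u x ≤ v x) (x : Γ) (hx : x ∉ K) :
    u x ≤ ∑ z ∈ E, hit W.toPreWalk K z x * u z + v x := by
  have hS0 : ∀ x, 0 ≤ ∑ z ∈ E, hit W.toPreWalk K z x * u z := fun x =>
    Finset.sum_nonneg fun z hz => mul_nonneg (hit_nonneg _ K z (hE z hz) x) (hu0 z)
  have key := max_principle W K (fun x => u x - (∑ z ∈ E, hit W.toPreWalk K z x * u z + v x)) ?_ ?_ ?_ x hx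
  · linarith
  · intro y hy hen
    have h1 := fe_mem W.toPreWalk K E hE u y hy
    by_cases hyE : y ∈ E
    · have := h1.1 hyE
      have := hv0 y
      show u y - (∑ z ∈ E, hit W.toPreWalk K z y * u z + v y) ≤ 0
      linarith
    · have := h1.2 hyE
      have := hK y hy hyE hen
      show u y - (∑ z ∈ E, hit W.toPreWalk K z y * u z + v y) ≤ 0
      linarith
  · intro y hy
    have e : (fun x => u x - (∑ z ∈ E, hit W.toPreWalk K z x * u z + v x)) =
        fun x => (fun x => u x - v x) x - (fun x => ∑ z ∈ E, hit W.toPreWalk K z x * u z) x := by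
      funext x
      show u x - (∑ z ∈ E, hit W.toPreWalk K z x * u z + v x) = u x - v x - ∑ z ∈ E, hit W.toPreWalk K z x * u z
      ring
    rw [e, fe_avg_sub W.toPreWalk (fun x => u x - v x) (fun x => ∑ z ∈ E, hit W.toPreWalk K z x * u z) y,
      fe_avg_sub, fe_harm W.toPreWalk K E hE u y hy]
    have h1 := hu y hy
    have h2 := hv y hy
    show u y - (∑ z ∈ E, hit W.toPreWalk K z y * u z + v y) ≤
      avg W.toPreWalk u y - avg W.toPreWalk v y - ∑ z ∈ E, hit W.toPreWalk K z y * u z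
    linarith
  · intro ε hε
    refine (hinf ε hε).subset ?_
    rintro y ⟨hy, hw⟩
    refine ⟨hy, ?_⟩
    have h1 := hS0 y
    have h2 := hv0 y
    have h3 : ε < u y - (∑ z ∈ E, hit W.toPreWalk K z y * u z + v y) := hw
    linarith

/-- the same with equality when there are only finitely many entrance points: apply `max_principle` to `± (u - ∑_{z ∈ E} hit W K z · u z)` (`0 ≤ ∑_{z ∈ E} hit W K z x * u z ≤ #E * u x`... for the lower bound use that
`w = ∑_{z ∈ E} hit W K z · u z - u` satisfies `hinf`: `w ≤ ∑_{z ∈ E} hit W K z · u z ≤ #E · u` by `hit_mul_le`, which tends to 0 off `K`). -/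
theorem fe_eq (W : Walk Γ ι) (K : Set Γ) (E : Finset Γ) (hE : ∀ z ∈ E, z ∈ K) (u : Γ → ℝ) (hu0 : ∀ x, 0 ≤ u x)
    (hu : ∀ x, u x = avg W.toPreWalk u x)
    (hinf : ∀ ε : ℝ, 0 < ε → {x | x ∉ K ∧ ε < u x}.Finite)
    (hK : ∀ x ∈ K, (∃ y, y ∉ K ∧ ∃ i, x = y * W.g i) → x ∈ E) (x : Γ) (hx : x ∉ K) :
    u x = ∑ z ∈ E, hit W.toPreWalk K z x * u z := by
  apply le_antisymm
  · have h1 := fe_le W K E hE u (fun _ => 0) hu0 (fun _ => le_rfl) (fun x _ => (hu x).le)
      (fun x _ => by unfold avg; simp) hinf (fun x hx hxE hen => absurd (hK x hx hen) hxE) x hx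
    simpa using h1
  · have hSle : ∀ x, ∑ z ∈ E, hit W.toPreWalk K z x * u z ≤ E.card * u x := by
      intro x
      calc ∑ z ∈ E, hit W.toPreWalk K z x * u z ≤ ∑ _z ∈ E, u x :=
            Finset.sum_le_sum fun z hz => hit_mul_le W.toPreWalk K z (hE z hz) u hu0 (fun x _ => (hu x).ge) x
        _ = E.card * u x := by rw [Finset.sum_const, nsmul_eq_mul]
    have key := max_principle W K (fun x => (fun x => ∑ z ∈ E, hit W.toPreWalk K z x * u z) x - u x) ?_ ?_ ?_ x hx
    · have : (∑ z ∈ E, hit W.toPreWalk K z x * u z) - u x ≤ 0 := key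
      linarith
    · intro y hy hen
      have h1 := (fe_mem W.toPreWalk K E hE u y hy).1 (hK y hy hen)
      show (∑ z ∈ E, hit W.toPreWalk K z y * u z) - u y ≤ 0
      linarith
    · intro y hy
      rw [fe_avg_sub W.toPreWalk (fun x => ∑ z ∈ E, hit W.toPreWalk K z x * u z) u y, fe_harm W.toPreWalk K E hE u y hy, ← hu y]
    · intro ε hε
      refine (hinf (ε / (E.card + 1)) (by positivity)).subset ?_
      rintro y ⟨hy, hw⟩
      refine ⟨hy, ?_⟩
      have h1 := hSle y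
      have h2 := hu0 y
      have h3 : ε < (∑ z ∈ E, hit W.toPreWalk K z y * u z) - u y := hw
      rw [div_lt_iff₀ (by positivity)]
      calc ε < E.card * u y := by linarith
        _ ≤ u y * (E.card + 1) := by linarith

end Pool.Agent.DD
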