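import Pool.Agent.Lib_MP_644907_full.LinIndR

/-!
# Piece LININD: linear independence of the functions `|ξ - ζ_j|^(-2 s)` near a point
-/

set_option autoImplicit false

namespace Pool.Agent.DD

open Filter Topology Metric

/-- a Moebius map from the real line to the circle -/
noncomputable def LININD_c (κ : ℂ) (x : ℝ) : ℂ := κ * ((x - Complex.I) / (x + Complex.I))

theorem LININD_ne (x : ℝ) : (x : ℂ) + Complex.I ≠ 0 := by
  intro h
  have h1 := congrArg Complex.im h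
  simp at h1

theorem LININD_norm (x : ℝ) : ‖(x : ℂ) + Complex.I‖ ^ 2 = 1 + x ^ 2 := by
  rw [← Complex.normSq_eq_norm_sq, Complex.normSq_apply]
  simp
  ring

theorem LININD_dist {κ : ℂ} (hκ : ‖κ‖ = 1) (x y : ℝ) :
    ‖LININD_c κ x - LININD_c κ y‖ ^ 2 = 4 * (x - y) ^ 2 / ((1 + x ^ 2) * (1 + y ^ 2)) := by
  have hx := LININD_ne x
  have hy := LININD_ne y
  have e1 : LININD_c κ x - LININD_c κ y =
      κ * (2 * Complex.I * ((x - y : ℝ) : ℂ)) / ((x + Complex.I) * (y + Complex.I)) := by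
    unfold LININD_c
    push_cast
    field_simp
    ring
  rw [e1, norm_div, norm_mul, norm_mul, norm_mul, norm_mul, hκ, Complex.norm_I, div_pow, mul_pow,
    mul_pow, mul_pow, mul_pow, LININD_norm, LININD_norm, Complex.norm_real, Real.norm_eq_abs,
    sq_abs]
  norm_num

theorem LININD_exists {κ ξ : ℂ} (hκ : ‖κ‖ = 1) (hξ : ‖ξ‖ = 1) (hne : ξ ≠ κ) :
    ∃ x : ℝ, LININD_c κ x = ξ := by
  have hκ0 : κ ≠ 0 := by
    rintro rfl
    simp at hκ
  set w : ℂ := ξ / κ with hw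
  have hw1 : ‖w‖ = 1 := by rw [hw, norm_div, hκ, hξ, div_one]
  have hw0 : w ≠ 0 := by
    intro h0
    rw [h0] at hw1
    simp at hw1
  have hwne : w ≠ 1 := by
    intro h
    rw [hw, div_eq_one_iff_eq hκ0] at h
    exact hne h
  have h1w : (1 : ℂ) - w ≠ 0 := sub_ne_zero.mpr hwne.symm
  set z : ℂ := Complex.I * (1 + w) / (1 - w) with hz
  have hconj : starRingEnd ℂ w = w⁻¹ := by
    rw [Complex.inv_def, Complex.normSq_eq_norm_sq, hw1]
    simp
  have hzr : starRingEnd ℂ z = z := by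
    rw [hz, map_div₀, map_mul, map_add, map_sub, map_one, hconj, Complex.conj_I]
    have h2 : (1 : ℂ) - w⁻¹ ≠ 0 := by
      intro h
      apply h1w
      have h3 : w⁻¹ = 1 := (sub_eq_zero.mp h).symm
      rw [inv_eq_one] at h3
      rw [h3, sub_self]
    rw [div_eq_div_iff h2 h1w]
    field_simp
    ring
  obtain ⟨x, hx⟩ := Complex.conj_eq_iff_real.mp hzr
  refine ⟨x, ?_⟩
  unfold LININD_c
  rw [← hx]
  have h4 : z - Complex.I = 2 * Complex.I * w / (1 - w) := by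
    rw [hz]
    field_simp
    ring
  have h5 : z + Complex.I = 2 * Complex.I / (1 - w) := by
    rw [hz]
    field_simp
    ring
  have h6 : (2 : ℂ) * Complex.I ≠ 0 := mul_ne_zero two_ne_zero Complex.I_ne_zero
  rw [h4, h5]
  have h7 : 2 * Complex.I * w / (1 - w) / (2 * Complex.I / (1 - w)) = w := by
    field_simp
  rw [h7, hw, mul_div_cancel₀ _ hκ0]

theorem LININD_pick (T : Finset ℂ) : ∃ κ : ℂ, ‖κ‖ = 1 ∧ κ ∉ T := by
  have hinf : (sphere (0 : ℂ) 1).Infinite := by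
    have h1 : (Set.range (LININD_c 1)).Infinite := by
      refine Set.infinite_range_of_injective fun x y hxy => ?_
      have h2 := LININD_dist (κ := 1) norm_one x y
      rw [hxy, sub_self, norm_zero] at h2
      have h3 : (0 : ℝ) < (1 + x ^ 2) * (1 + y ^ 2) := by positivity
      have h4 : 4 * (x - y) ^ 2 = 0 := by
        have h5 := h2.symm
        rw [div_eq_iff h3.ne'] at h5
        simpa using h5
      have h6 : (x - y) ^ 2 = 0 := by linarith
      exact sub_eq_zero.mp (pow_eq_zero_iff (two_ne_zero) |>.mp h6)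
    refine h1.mono ?_
    rintro _ ⟨x, rfl⟩
    rw [mem_sphere_zero_iff_norm, LININD_c, one_mul, norm_div]
    have h2 : ‖(x : ℂ) - Complex.I‖ = ‖(x : ℂ) + Complex.I‖ := by
      rw [← Complex.norm_conj]
      congr 1
      rw [map_sub, Complex.conj_ofReal, Complex.conj_I, sub_neg_eq_add]
    rw [h2, div_self (norm_ne_zero_iff.mpr (LININD_ne x))]
  obtain ⟨κ, hκ, hκ'⟩ := hinf.exists_notMem_finset T
  exact ⟨κ, mem_sphere_zero_iff_norm.mp hκ, hκ'⟩

/-- circle version, by the Cayley transform: choose `κ` on the circle different from `b` and all `ζ_j`, write `ξ = κ (x - i) / (x + i)`... (a Moebius map from the real line to the circle minus `κ`); `|ξ - ζ_j|² = 4 (x - x_j)² / ((1 + x²) (1 + x_j²))`; so the relation becomes `∑ α_j (1 + x_j²)^s ((x - x_j)²)^(-s) = 0` -/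
theorem lin_ind (s : ℝ) (hs : 0 < s) (N : ℕ) (ζ : Fin N → ℂ) (hζ : ∀ j, ‖ζ j‖ = 1) (hinj : Function.Injective ζ) (S : Set ℂ) (hS : ∀ z ∈ S, ‖z‖ = 1)
    (b : ℂ) (hb : ‖b‖ = 1) (hbζ : ∀ j, ζ j ≠ b) (hacc : ∀ ε : ℝ, 0 < ε → (S ∩ ball b ε).Infinite) (α : Fin N → ℝ)
    (h : ∀ ξ ∈ S, ∑ j, α j * (‖ξ - ζ j‖ ^ 2) ^ (-s) = 0) : ∀ j, α j = 0 := by
  classical
  obtain ⟨κ, hκ, hκT⟩ := LININD_pick (insert b (Finset.univ.image ζ))
  rw [Finset.mem_insert, not_or] at hκT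
  have hζκ : ∀ j, ζ j ≠ κ := fun j e => hκT.2 (Finset.mem_image.mpr ⟨j, Finset.mem_univ j, e⟩)
  choose x hx using fun j => LININD_exists hκ (hζ j) (hζκ j)
  obtain ⟨x₀, hx₀⟩ := LININD_exists hκ hb (Ne.symm hκT.1)
  have hxinj : Function.Injective x := fun i j hij => hinj (by rw [← hx i, ← hx j, hij])
  have hx0 : x₀ ∉ Finset.univ.image x := by
    intro hm
    obtain ⟨j, _, hj⟩ := Finset.mem_image.mp hm
    exact hbζ j (by rw [← hx j, hj, hx₀])
  set β : ℝ → ℝ := Function.extend x (fun j => α j * (1 + x j ^ 2) ^ s) 0 with hβ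
  have hβx : ∀ j, β (x j) = α j * (1 + x j ^ 2) ^ s := fun j => hxinj.extend_apply _ _ _
  have key : ∀ y : ℝ, LININD_c κ y ∈ S →
      ∑ u ∈ Finset.univ.image x, β u * ((y - u) ^ 2) ^ (-s) = 0 := by
    intro y hy
    rw [Finset.sum_image (fun i _ j _ e => hxinj e)]
    have h1 := h _ hy
    have h2 : ∀ j, α j * (‖LININD_c κ y - ζ j‖ ^ 2) ^ (-s) =
        (4 / (1 + y ^ 2)) ^ (-s) * (β (x j) * ((y - x j) ^ 2) ^ (-s)) := by
      intro j
      rw [← hx j, LININD_dist hκ, hβx]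
      have e1 : 4 * (y - x j) ^ 2 / ((1 + y ^ 2) * (1 + x j ^ 2)) =
          (4 / (1 + y ^ 2)) * ((y - x j) ^ 2 * (1 + x j ^ 2)⁻¹) := by
        have : (0 : ℝ) < 1 + y ^ 2 := by positivity
        have : (0 : ℝ) < 1 + x j ^ 2 := by positivity
        field_simp
      rw [e1, Real.mul_rpow (by positivity) (by positivity),
        Real.mul_rpow (by positivity) (by positivity), Real.inv_rpow (by positivity),
        Real.rpow_neg (by positivity : (0 : ℝ) ≤ 1 + x j ^ 2), inv_inv]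
      ring
    rw [Finset.sum_congr rfl fun j _ => h2 j, ← Finset.mul_sum] at h1
    have h3 : (4 / (1 + y ^ 2) : ℝ) ^ (-s) ≠ 0 := (Real.rpow_pos_of_pos (by positivity) _).ne'
    exact (mul_eq_zero.mp h1).resolve_left h3
  have hfr : ∃ᶠ y in 𝓝[≠] x₀, ∑ u ∈ Finset.univ.image x, β u * ((y - u) ^ 2) ^ (-s) = 0 := by
    rw [Filter.frequently_iff]
    intro U hU
    obtain ⟨ε, hε, hεU⟩ := Metric.mem_nhdsWithin_iff.mp hU
    have hd : (0 : ℝ) < (1 + 2 * x₀ ^ 2 + 2 * ε ^ 2) * (1 + x₀ ^ 2) := by positivity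
    set ρ : ℝ := √(4 * ε ^ 2 / ((1 + 2 * x₀ ^ 2 + 2 * ε ^ 2) * (1 + x₀ ^ 2))) with hρ
    have hρ2 : ρ ^ 2 = 4 * ε ^ 2 / ((1 + 2 * x₀ ^ 2 + 2 * ε ^ 2) * (1 + x₀ ^ 2)) :=
      Real.sq_sqrt (by positivity)
    have hρ0 : 0 < ρ := Real.sqrt_pos.mpr (by positivity)
    obtain ⟨ξ, hξ, hξ'⟩ := (hacc ρ hρ0).exists_notMem_finset {b, κ}
    rw [Finset.mem_insert, Finset.mem_singleton, not_or] at hξ'
    obtain ⟨y, hy⟩ := LININD_exists hκ (hS ξ hξ.1) hξ'.2
    refine ⟨y, hεU ⟨?_, ?_⟩, key y (by rw [hy]; exact hξ.1)⟩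
    · rw [mem_ball, Real.dist_eq]
      by_contra hle
      rw [not_lt] at hle
      have h1 : ‖ξ - b‖ ^ 2 < ρ ^ 2 := by
        have h2 := hξ.2
        rw [mem_ball, dist_eq_norm] at h2
        exact pow_lt_pow_left₀ h2 (norm_nonneg _) two_ne_zero
      rw [← hy, ← hx₀, LININD_dist hκ, hρ2] at h1
      have h3 : ε ^ 2 ≤ (y - x₀) ^ 2 := by
        rw [← sq_abs (y - x₀)]
        exact pow_le_pow_left₀ hε.le hle 2
      have h4 : (0 : ℝ) < (1 + y ^ 2) * (1 + x₀ ^ 2) := by positivity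
      rw [div_lt_div_iff₀ h4 hd] at h1
      have h5 : (1 + y ^ 2) ≤ 1 + 2 * x₀ ^ 2 + 2 * (y - x₀) ^ 2 := by nlinarith [sq_nonneg (y - 2 * x₀)]
      have h6 : 4 * ε ^ 2 * ((1 + y ^ 2) * (1 + x₀ ^ 2)) ≤
          4 * (y - x₀) ^ 2 * ((1 + 2 * x₀ ^ 2 + 2 * ε ^ 2) * (1 + x₀ ^ 2)) := by
        have h7 : ε ^ 2 * (1 + y ^ 2) ≤ (y - x₀) ^ 2 * (1 + 2 * x₀ ^ 2 + 2 * ε ^ 2) := by
          have h8 : ε ^ 2 * (1 + y ^ 2) ≤ ε ^ 2 * (1 + 2 * x₀ ^ 2 + 2 * (y - x₀) ^ 2) :=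
            mul_le_mul_of_nonneg_left h5 (sq_nonneg ε)
          have h9 : ε ^ 2 * (1 + 2 * x₀ ^ 2) ≤ (y - x₀) ^ 2 * (1 + 2 * x₀ ^ 2) :=
            mul_le_mul_of_nonneg_right h3 (by positivity)
          linarith
        have h10 := mul_le_mul_of_nonneg_right h7 (by positivity : (0 : ℝ) ≤ 4 * (1 + x₀ ^ 2))
        linarith
      linarith
    · intro e1
      rw [Set.mem_singleton_iff] at e1
      exact hξ'.1 (by rw [← hy, e1, hx₀])
  have hfin := lin_ind_real s hs _ β x₀ hx0 hfr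
  intro j
  have h1 := hfin (x j) (Finset.mem_image.mpr ⟨j, Finset.mem_univ j, rfl⟩)
  rw [hβx] at h1
  have h2 : (1 + x j ^ 2 : ℝ) ^ s ≠ 0 := (Real.rpow_pos_of_pos (by positivity) _).ne'
  exact (mul_eq_zero.mp h1).resolve_right h2

end Pool.Agent.DD
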