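import Pool.Agent.Lib_MP_644907_full.Minimal1

/-!
# Piece MINIMAL2: minimality of the action on the limit set
-/

set_option autoImplicit false

namespace Pool.Agent.DD

open MeasureTheory Filter Topology Metric

variable {Γ : Type} [Group Γ] [MulAction Γ ℂ]

/-- the accumulation points of the compact infinite set `Lim Γ` form a closed invariant nonempty set (`minimal`); invariance: `γ` is a homeomorphism of the circle preserving `Lim Γ` -/
theorem perfect (h : Fuchs Γ) (hL : (Lim Γ).Infinite) (a : ℂ) (ha : a ∈ Lim Γ) (ε : ℝ) (hε : 0 < ε) :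
    (Lim Γ ∩ ball a ε).Infinite := by
  have key : Lim Γ ⊆ {z : ℂ | ∀ r : ℝ, 0 < r → (Lim Γ ∩ ball z r).Infinite} := by
    have hsub : ∀ z : ℂ, (∀ r : ℝ, 0 < r → (Lim Γ ∩ ball z r).Infinite) → z ∈ Lim Γ := by
      intro z hz
      have h1 : z ∈ closure (Lim Γ) := by
        rw [Metric.mem_closure_iff]
        intro r hr
        obtain ⟨w, hw1, hw2⟩ := (hz r hr).nonempty
        exact ⟨w, hw1, by rw [dist_comm]; exact hw2⟩
      rwa [(Fuchs.lim_closed (Γ := Γ)).closure_eq] at h1
    refine minimal h hL _ ?_ ?_ ?_ ?_
    · rw [← isOpen_compl_iff, Metric.isOpen_iff]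
      intro z hz
      simp only [Set.mem_compl_iff, Set.mem_setOf_eq, not_forall] at hz
      obtain ⟨r, hr, hfin⟩ := hz
      refine ⟨r / 2, by positivity, fun w hw hcon => ?_⟩
      have h1 := hcon (r / 2) (by positivity)
      apply hfin
      refine h1.mono (Set.inter_subset_inter_right _ ?_)
      apply Metric.ball_subset_ball'
      have h2 : dist w z < r / 2 := hw
      linarith
    · by_contra hcon
      rw [Set.not_nonempty_iff_eq_empty] at hcon
      apply hL
      have hcomp : IsCompact (Lim Γ) :=
        (isCompact_sphere (0 : ℂ) 1).of_isClosed_subset (Fuchs.lim_closed (Γ := Γ)) Set.inter_subset_right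
      have h1 : (Lim Γ ∩ Lim Γ).Finite := by
        refine hcomp.induction_on (p := fun s => (Lim Γ ∩ s).Finite) (by simp) ?_ ?_ ?_
        · intro s t hst ht
          exact ht.subset (Set.inter_subset_inter_right _ hst)
        · intro s t hs ht
          rw [Set.inter_union_distrib_left]
          exact hs.union ht
        · intro z _
          have hz : z ∉ {z : ℂ | ∀ r : ℝ, 0 < r → (Lim Γ ∩ ball z r).Infinite} := by
            rw [hcon]
            exact Set.notMem_empty z
          simp only [Set.mem_setOf_eq, not_forall] at hz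
          obtain ⟨r, hr, hfin⟩ := hz
          exact ⟨ball z r, mem_nhdsWithin_of_mem_nhds (Metric.ball_mem_nhds z hr), Set.not_infinite.1 hfin⟩
      rwa [Set.inter_self] at h1
    · intro z hz
      exact (hsub z hz).2
    · intro γ z hz r hr
      have hzL := hsub z hz
      have hz1 : z ∈ closedBall (0 : ℂ) 1 := sphere_subset_closedBall hzL.2
      have hcont := h.contOn γ z hz1
      obtain ⟨δ, hδ, hd⟩ := Metric.continuousWithinAt_iff.1 hcont r hr
      have h1 := hz δ hδ
      have h2 : ((fun w : ℂ => γ • w) '' (Lim Γ ∩ ball z δ)).Infinite :=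
        h1.image ((MulAction.injective γ).injOn)
      refine h2.mono ?_
      rintro _ ⟨w, ⟨hw1, hw2⟩, rfl⟩
      refine ⟨(h.lim_inv γ).2 hw1, ?_⟩
      exact hd (sphere_subset_closedBall hw1.2) hw2
  exact key ha ε hε

end Pool.Agent.DD
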