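import Pool.Agent.Lib_MP_644907_full.Gate
import Pool.Agent.Lib_MP_644907_full.ConfL
import Pool.Agent.Lib_MP_644907_full.Pairs

/-!
# Piece NTG2: moving the pole
-/

set_option autoImplicit false

namespace Pool.Agent.DD

open MeasureTheory Filter Topology Metric

variable {Γ : Type} [Group Γ] [MulAction Γ ℂ] {ι : Type} [Fintype ι] {ν m : Measure ℂ} {s : ℝ}

/-- the pointwise formula for the kernel -/
theorem ntg2_ker (h : Fuchs Γ) (γ : Γ) (s : ℝ) {z ζ : ℂ} (hz : ‖z‖ = 1) (hζ : ‖ζ‖ = 1) :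
    (‖z - ζ‖ ^ 2) ^ (-s) =
      pk (γ⁻¹ • (0 : ℂ)) ζ ^ s * ((‖γ • z - γ • ζ‖ ^ 2) ^ (-s) * pk (γ • (0 : ℂ)) (γ • z) ^ (-s)) := by
  have h0 : ‖(0 : ℂ)‖ < 1 := by simp
  have hp1 : 0 < pk (γ⁻¹ • (0 : ℂ)) ζ := pk_pos (h.norm0 _) hζ
  have hp2 : 0 < pk (γ⁻¹ • (0 : ℂ)) z := pk_pos (h.norm0 _) hz
  have hp3 : 0 < pk (γ • (0 : ℂ)) (γ • z) := pk_pos (h.norm0 _) (h.norm_eq γ hz)
  have e1 := h.two_pt γ hz hζ
  have e2 := h.pk_smul γ h0 hz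
  rw [pk_zero hz] at e2
  have e3 : pk (γ • (0 : ℂ)) (γ • z) = (pk (γ⁻¹ • (0 : ℂ)) z)⁻¹ := eq_inv_of_mul_eq_one_left e2
  rw [e1, e3, Real.mul_rpow (mul_pos hp2 hp1).le (sq_nonneg _), Real.mul_rpow hp2.le hp1.le,
    Real.inv_rpow hp2.le, Real.rpow_neg hp2.le s, Real.rpow_neg hp1.le s, inv_inv]
  have h4 : pk (γ⁻¹ • (0 : ℂ)) ζ ^ s ≠ 0 := (Real.rpow_pos_of_pos hp1 s).ne'
  have h5 : pk (γ⁻¹ • (0 : ℂ)) z ^ s ≠ 0 := (Real.rpow_pos_of_pos hp2 s).ne'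
  field_simp

theorem ntg2_meas (ζ : ℂ) (s : ℝ) : Measurable fun z : ℂ => (‖z - ζ‖ ^ 2) ^ (-s) := by
  fun_prop

theorem ntg2_meas_pk (x : ℂ) (s : ℝ) : Measurable fun z : ℂ => pk x z ^ s := by
  unfold pk
  fun_prop

/-- transformation of the integral of the kernel -/
theorem ntg2_int (h : Fuchs Γ) (hcf : Conf Γ m s) (γ : Γ) {ζ : ℂ} (hζ : ‖ζ‖ = 1) (A : Set ℂ) (hA : MeasurableSet A) :
    ∫ ξ in (fun z : ℂ => γ • z) ⁻¹' A ∩ sphere 0 1, (‖ξ - ζ‖ ^ 2) ^ (-s) ∂m =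
      pk (γ⁻¹ • (0 : ℂ)) ζ ^ s * ∫ ξ in A, (‖ξ - γ • ζ‖ ^ 2) ^ (-s) ∂m := by
  have hγ := h.meas γ
  have hA' : MeasurableSet ((fun z : ℂ => γ • z) ⁻¹' A) := hγ hA
  have hS : MeasurableSet (sphere (0 : ℂ) 1) := isClosed_sphere.measurableSet
  have hC : 0 < pk (γ⁻¹ • (0 : ℂ)) ζ ^ s := Real.rpow_pos_of_pos (pk_pos (h.norm0 _) hζ) s
  have hsup : ∀ᵐ z ∂m, ‖z‖ = 1 := by
    have h1 : ∀ᵐ z ∂m, z ∈ Lim Γ := hcf.supp
    filter_upwards [h1] with z hz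
    simpa using hz.2
  have hind : Measurable (A.indicator fun η : ℂ => ENNReal.ofReal (pk (γ⁻¹ • (0 : ℂ)) ζ ^ s *
      ((‖η - γ • ζ‖ ^ 2) ^ (-s) * pk (γ • (0 : ℂ)) η ^ (-s)))) := by
    refine Measurable.indicator ?_ hA
    exact (((ntg2_meas (γ • ζ) s).mul (ntg2_meas_pk (γ • (0 : ℂ)) (-s))).const_mul _).ennreal_ofReal
  have key := conf_lint h hcf γ _ hind
  rw [integral_eq_lintegral_of_nonneg_ae (Eventually.of_forall fun z => Real.rpow_nonneg (sq_nonneg _) _)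
      (ntg2_meas ζ s).aestronglyMeasurable,
    integral_eq_lintegral_of_nonneg_ae (Eventually.of_forall fun z => Real.rpow_nonneg (sq_nonneg _) _)
      (ntg2_meas (γ • ζ) s).aestronglyMeasurable]
  have e1 : ∫⁻ a in (fun z : ℂ => γ • z) ⁻¹' A ∩ sphere 0 1, ENNReal.ofReal ((‖a - ζ‖ ^ 2) ^ (-s)) ∂m =
      ∫⁻ z, (A.indicator fun η : ℂ => ENNReal.ofReal (pk (γ⁻¹ • (0 : ℂ)) ζ ^ s *
      ((‖η - γ • ζ‖ ^ 2) ^ (-s) * pk (γ • (0 : ℂ)) η ^ (-s)))) (γ • z) ∂m := by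
    rw [← lintegral_indicator (hA'.inter hS)]
    refine lintegral_congr_ae ?_
    filter_upwards [hsup] with z hz
    by_cases hzA : γ • z ∈ A
    · rw [Set.indicator_of_mem (show z ∈ (fun z : ℂ => γ • z) ⁻¹' A ∩ sphere 0 1 from
        ⟨hzA, by simpa using hz⟩), Set.indicator_of_mem hzA, ntg2_ker h γ s hz hζ]
    · rw [Set.indicator_of_notMem (show z ∉ (fun z : ℂ => γ • z) ⁻¹' A ∩ sphere 0 1 from
        fun hh => hzA hh.1), Set.indicator_of_notMem hzA]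
  have e2 : ∫⁻ ξ, (A.indicator fun η : ℂ => ENNReal.ofReal (pk (γ⁻¹ • (0 : ℂ)) ζ ^ s *
      ((‖η - γ • ζ‖ ^ 2) ^ (-s) * pk (γ • (0 : ℂ)) η ^ (-s)))) ξ * ENNReal.ofReal (pk (γ • (0 : ℂ)) ξ ^ s) ∂m =
      ENNReal.ofReal (pk (γ⁻¹ • (0 : ℂ)) ζ ^ s) * ∫⁻ ξ in A, ENNReal.ofReal ((‖ξ - γ • ζ‖ ^ 2) ^ (-s)) ∂m := by
    rw [← lintegral_const_mul _ (ntg2_meas (γ • ζ) s).ennreal_ofReal, ← lintegral_indicator hA]
    refine lintegral_congr_ae ?_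
    filter_upwards [hsup] with ξ hξ
    by_cases hξA : ξ ∈ A
    · have hp : 0 < pk (γ • (0 : ℂ)) ξ := pk_pos (h.norm0 _) hξ
      rw [Set.indicator_of_mem hξA, Set.indicator_of_mem hξA, ← ENNReal.ofReal_mul' (Real.rpow_nonneg hp.le _),
        ← ENNReal.ofReal_mul hC.le]
      congr 1
      have h5 : pk (γ • (0 : ℂ)) ξ ^ (-s) * pk (γ • (0 : ℂ)) ξ ^ s = 1 := by
        rw [← Real.rpow_add hp, neg_add_cancel, Real.rpow_zero]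
      calc _ = pk (γ⁻¹ • (0 : ℂ)) ζ ^ s * (‖ξ - γ • ζ‖ ^ 2) ^ (-s) *
            (pk (γ • (0 : ℂ)) ξ ^ (-s) * pk (γ • (0 : ℂ)) ξ ^ s) := by ring
        _ = _ := by rw [h5, mul_one]
    · rw [Set.indicator_of_notMem hξA, Set.indicator_of_notMem hξA, zero_mul]
  rw [e1, key, e2, ENNReal.toReal_mul, ENNReal.toReal_ofReal hC.le]

/-- the finitely many smallness conditions -/
theorem ntg2_eps (h : Fuchs Γ) (b₀ : ℂ) (hb : ‖b₀‖ = 1) (E : Finset Γ) (c : ℝ) (hc : 0 < c) :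
    ∃ ε : ℝ, 0 < ε ∧ ε ≤ c ∧ ∀ y ∈ E, ε ≤ ‖y • (0 : ℂ) - b₀‖ := by
  classical
  induction E using Finset.induction_on with
  | empty => exact ⟨c, hc, le_rfl, fun y hy => absurd hy (Finset.notMem_empty y)⟩
  | insert y E _ ih =>
    obtain ⟨ε, h1, h2, h3⟩ := ih
    have h4 : 0 < ‖y • (0 : ℂ) - b₀‖ := by
      rw [norm_pos_iff, sub_ne_zero]
      intro he
      have := h.norm0 y
      rw [he, hb] at this
      exact lt_irrefl _ this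
    refine ⟨min ε ‖y • (0 : ℂ) - b₀‖, lt_min h1 h4, (min_le_left _ _).trans h2, fun z hz => ?_⟩
    rcases Finset.mem_insert.1 hz with rfl | hz
    · exact min_le_right _ _
    · exact (min_le_left _ _).trans (h3 z hz)

/-- Let `0 < ε' ≤ ε` be small (`ball a₁ ε'` disjoint from `closedBall β t`, `ball b₀ ε' ⊆ ball β t'`, `ε' ≤ |y 0 - b₀|` for all `y ∈ E` (their points are in the open disk), `ε' ≤ |ζ - b₀|`) and `γ` from `dynamics` with `a := a₁`, `b := b₀`: `|γ z - a₁| < ε'` for all `z` in the closed disk with `|z - b₀| ≥ ε'`. Then `ζ' = γ ζ ∈ ball a₁ ε'`,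
`γ y 0 ∈ ball a₁ ε'` for `y ∈ E`, so `|γ y 0 - β| ≥ t`, and for `A ⊆ ball β t'` the set `A' = {z on the circle | γ z ∈ A}` is contained in `ball b₀ ε' ⊆ ball β t'`. Apply `hmeas` to `A'`: the right side is `∑ w y hm ν y A'`, and `hm ν y A' = ν {ξ | γ y ξ ∈ A} = hm ν (γ y) A` (as `A'` differs from `(γ •)⁻¹ A` only off the circle, `hm_inter_sphere`), and
`hm ν (γ y) A = ∑_{y' ∈ E} hit K y' (γ y) hm ν y' A` by `hrel`. The left side is `∫ 1_A (γ z) (|z - ζ|²)^(-s) dm(z)` and `|γ z - γ ζ|² = pk (γ⁻¹ 0) z * pk (γ⁻¹ 0) ζ * |z - ζ|²` (`Fuchs.two_pt`), `pk (γ 0) (γ z) * pk (γ⁻¹ 0) z = pk 0 z = 1` (`Fuchs.pk_smul` with `z = 0`, `pk_zero`), so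
`(|z - ζ|²)^(-s) = (|γ z - ζ'|²)^(-s) (pk (γ⁻¹ 0) ζ)^s (pk (γ 0) (γ z))^(-s)`; the image of `m` under `γ` has density `pk (γ 0) η^s` (`conf_lint`), so the left side is `(pk (γ⁻¹ 0) ζ)^s ∫_A (|η - ζ'|²)^(-s) dm(η)`. Divide by `(pk (γ⁻¹ 0) ζ)^s > 0`. -/
theorem gate_move (h : Fuchs Γ) (hL : (Lim Γ).Infinite) (W : Walk Γ ι) (hν : Stat W.toPreWalk ν) (hcf : Conf Γ m s)
    (β b₀ ζ : ℂ) (t t' : ℝ) (E : Finset Γ) (w : Γ → ℝ) (hG : GateD Γ β b₀ t t') (hζ : ‖ζ‖ = 1) (hζb : t < ‖ζ - β‖) (hE : ∀ y ∈ E, ‖y • (0 : ℂ) - β‖ < t)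
    (hrel : ∀ (x : Γ) (A : Set ℂ), t ≤ ‖x • (0 : ℂ) - β‖ → MeasurableSet A → A ⊆ ball β t' →
        hm ν x A = ∑ y ∈ E, hit W.toPreWalk {x : Γ | ‖x • (0 : ℂ) - β‖ < t} y x * hm ν y A)
    (hmeas : ∀ A : Set ℂ, MeasurableSet A → A ⊆ ball β t' → ∫ ξ in A, (‖ξ - ζ‖ ^ 2) ^ (-s) ∂m = ∑ y ∈ E, w y * hm ν y A)
    (a₁ : ℂ) (ha : a₁ ∈ Lim Γ) (hab : t < ‖a₁ - β‖) (ε : ℝ) (hε : 0 < ε) :
    ∃ (ζ' : ℂ) (w' : Γ → ℝ), ‖ζ'‖ = 1 ∧ ‖ζ' - a₁‖ < ε ∧ t < ‖ζ' - β‖ ∧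
      ∀ A : Set ℂ, MeasurableSet A → A ⊆ ball β t' → ∫ ξ in A, (‖ξ - ζ'‖ ^ 2) ^ (-s) ∂m = ∑ y ∈ E, w' y * hm ν y A := by
  have hb1 : ‖b₀‖ = 1 := by simpa using hG.mem.2
  have hnear := hG.near
  have htt := hG.lt
  have hζb0 : 0 < ‖ζ - b₀‖ := by
    have e : ‖ζ - β‖ ≤ ‖ζ - b₀‖ + ‖b₀ - β‖ := by
      have := norm_add_le (ζ - b₀) (b₀ - β)
      rwa [sub_add_sub_cancel] at this
    linarith
  obtain ⟨ε', hε', hε1, hε2⟩ := ntg2_eps h b₀ hb1 E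
    (min (min ε ‖ζ - b₀‖) (min (‖a₁ - β‖ - t) (t' - ‖b₀ - β‖)))
    (lt_min (lt_min hε hζb0) (lt_min (by linarith) (by linarith)))
  have i1 : ε' ≤ ε := hε1.trans ((min_le_left _ _).trans (min_le_left _ _))
  have i2 : ε' ≤ ‖ζ - b₀‖ := hε1.trans ((min_le_left _ _).trans (min_le_right _ _))
  have i3 : ε' ≤ ‖a₁ - β‖ - t := hε1.trans ((min_le_right _ _).trans (min_le_left _ _))
  have i4 : ε' ≤ t' - ‖b₀ - β‖ := hε1.trans ((min_le_right _ _).trans (min_le_right _ _))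
  obtain ⟨γ, -, -, hγ, -⟩ := dynamics h hL a₁ b₀ ha hG.mem ε' hε'
  have hfar : ∀ u : ℂ, ‖u - a₁‖ < ε' → t < ‖u - β‖ := by
    intro u hu
    have e : ‖a₁ - β‖ ≤ ‖u - a₁‖ + ‖u - β‖ := by
      have := norm_add_le (a₁ - u) (u - β)
      rwa [sub_add_sub_cancel, norm_sub_rev a₁ u] at this
    linarith
  have hζ' := hγ ζ hζ.le i2
  have hC : 0 < pk (γ⁻¹ • (0 : ℂ)) ζ ^ s := Real.rpow_pos_of_pos (pk_pos (h.norm0 _) hζ) s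
  refine ⟨γ • ζ, fun y' => (pk (γ⁻¹ • (0 : ℂ)) ζ ^ s)⁻¹ *
    ∑ y ∈ E, w y * hit W.toPreWalk {x : Γ | ‖x • (0 : ℂ) - β‖ < t} y' (γ * y),
    h.norm_eq γ hζ, hζ'.trans_le i1, hfar _ hζ', ?_⟩
  intro A hA hAs
  have hA' : MeasurableSet ((fun z : ℂ => γ • z) ⁻¹' A ∩ sphere 0 1) :=
    (h.meas γ hA).inter isClosed_sphere.measurableSet
  have hA's : (fun z : ℂ => γ • z) ⁻¹' A ∩ sphere 0 1 ⊆ ball β t' := by
    rintro z ⟨hz1, hz2⟩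
    have hz3 : ‖z‖ = 1 := by simpa using hz2
    have hz4 : ‖γ • z - β‖ < t' := by
      have := hAs hz1
      rwa [mem_ball_iff_norm] at this
    have hz5 : ‖z - b₀‖ < ε' := by
      by_contra hcon
      have := hfar _ (hγ z hz3.le (not_lt.1 hcon))
      linarith
    rw [mem_ball_iff_norm]
    have e : ‖z - β‖ ≤ ‖z - b₀‖ + ‖b₀ - β‖ := by
      have := norm_add_le (z - b₀) (b₀ - β)
      rwa [sub_add_sub_cancel] at this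
    linarith
  have k1 := hmeas _ hA' hA's
  rw [ntg2_int h hcf γ hζ A hA] at k1
  have k2 : ∀ y ∈ E, hm ν y ((fun z : ℂ => γ • z) ⁻¹' A ∩ sphere 0 1) =
      ∑ y' ∈ E, hit W.toPreWalk {x : Γ | ‖x • (0 : ℂ) - β‖ < t} y' (γ * y) * hm ν y' A := by
    intro y hy
    rw [← hm_inter_sphere h W.toPreWalk hν y]
    have e1 : hm ν y ((fun z : ℂ => γ • z) ⁻¹' A) = hm ν (γ * y) A := by
      unfold hm
      congr 1
      ext z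
      simp only [Set.mem_preimage, mul_smul]
    rw [e1]
    refine hrel (γ * y) A ?_ hA hAs
    rw [mul_smul]
    exact (hfar _ (hγ _ (h.norm0 y).le (hε2 y hy))).le
  rw [Finset.sum_congr rfl fun y hy => by rw [k2 y hy]] at k1
  have k3 : ∫ ξ in A, (‖ξ - γ • ζ‖ ^ 2) ^ (-s) ∂m = (pk (γ⁻¹ • (0 : ℂ)) ζ ^ s)⁻¹ *
      ∑ y ∈ E, w y * ∑ y' ∈ E, hit W.toPreWalk {x : Γ | ‖x • (0 : ℂ) - β‖ < t} y' (γ * y) * hm ν y' A := by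
    rw [← k1, inv_mul_cancel_left₀ hC.ne']
  rw [k3, Finset.mul_sum]
  simp only [Finset.mul_sum, Finset.sum_mul]
  rw [Finset.sum_comm]
  refine Finset.sum_congr rfl fun y' _ => Finset.sum_congr rfl fun y _ => ?_
  ring

end Pool.Agent.DD
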