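import Pool.Agent.Lib_MP_644907_full.NTg1
import Pool.Agent.Lib_MP_644907_full.NTg2
import Pool.Agent.Lib_MP_644907_full.LinInd
import Pool.Agent.Lib_MP_644907_full.Minimal2

/-!
# Piece NTG: no tangent situation for groups which are not cocompact
-/

set_option autoImplicit false

namespace Pool.Agent.DD

open MeasureTheory Filter Topology Metric

variable {Γ : Type} [Group Γ] [MulAction Γ ℂ] {ι : Type} [Fintype ι] {ν m : Measure ℂ} {s : ℝ}

private theorem ntg_sep {N : ℕ} (a : Fin N → ℂ) (ha : Function.Injective a) :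
    ∃ ε : ℝ, 0 < ε ∧ ∀ i j, i ≠ j → 2 * ε ≤ ‖a i - a j‖ := by
  have h1 : ∀ᶠ ε : ℝ in 𝓝[>] 0, ∀ p : Fin N × Fin N, p.1 ≠ p.2 → 2 * ε ≤ ‖a p.1 - a p.2‖ := by
    rw [Filter.eventually_all]
    intro p
    by_cases hp : p.1 = p.2
    · exact Filter.Eventually.of_forall fun ε hne => absurd hp hne
    · have hpos : 0 < ‖a p.1 - a p.2‖ / 2 := by
        have : 0 < ‖a p.1 - a p.2‖ := norm_pos_iff.2 (sub_ne_zero.2 fun hc => hp (ha hc))
        linarith
      filter_upwards [Ioo_mem_nhdsGT hpos] with ε hε _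
      linarith [hε.2]
  obtain ⟨ε, hε, hε0⟩ := (h1.and self_mem_nhdsWithin).exists
  exact ⟨ε, hε0, fun i j hij => hε (i, j) hij⟩

private theorem ntg_pow_le {ζ β ξ : ℂ} {t t' s : ℝ} (hs : 0 < s) (htt : t' < t) (hζ : t < ‖ζ - β‖) (hξ : ξ ∈ ball β t') :
    t - t' ≤ ‖ξ - ζ‖ ∧ (‖ξ - ζ‖ ^ 2) ^ (-s) ≤ ((t - t') ^ 2) ^ (-s) := by
  rw [mem_ball, dist_eq_norm] at hξ
  have h1 : ‖ζ - β‖ ≤ ‖ξ - β‖ + ‖ξ - ζ‖ := by
    have h2 : ζ - β = (ξ - β) - (ξ - ζ) := by ring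
    rw [h2]
    exact norm_sub_le _ _
  have h3 : t - t' ≤ ‖ξ - ζ‖ := by linarith
  have h4 : 0 < t - t' := by linarith
  refine ⟨h3, Real.rpow_le_rpow_of_nonpos (by positivity) ?_ (by linarith)⟩
  exact pow_le_pow_left₀ h4.le h3 2

/-- `gate_meas`; `Lim Γ \ closedBall β t` is infinite (`perfect` at `ζ ∈ Lim Γ`, `t < |ζ - β|`); take `N = #E + 1` distinct points `a_j` of it and `gate_move` with `ε` smaller than half of all mutual distances of the `a_j` : distinct poles `ζ_j`, and coefficients `w_j`. The `N` vectors `(w_j y)_{y ∈ E}` are linearly dependent: `∑ α_j w_j = 0` on `E`, `α ≠ 0`. So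
`∫_A ∑ α_j (|ξ - ζ_j|²)^(-s) dm = 0` for all measurable `A ⊆ ball β t'`, so the function `φ = ∑ α_j (|ξ - ζ_j|²)^(-s)`, continuous on `ball β t'` (the `ζ_j` are outside), vanishes at all points of `Lim Γ ∩ ball β t'` (`vanish_on`; the terms are integrable, being bounded on `ball β t'`), a set in which `b₀` is an accumulation point (`perfect`).
`lin_ind` (with `b := b₀`) gives `α = 0`, contradiction. -/
theorem no_tangent_gaps (h : Fuchs Γ) (hL : (Lim Γ).Infinite) (hc : ¬ Cocpt Γ) (W : Walk Γ ι) (hν : Stat W.toPreWalk ν) (hcf : Conf Γ m s)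
    (hT : Tangent Γ ν m s) : False := by
  obtain ⟨β, b₀, ζ, t, t', E, w, hG, hζL, hζt, hE, hrel, hmeas⟩ := gate_meas h hL hc W hν hcf hT
  have hnorm : ∀ z ∈ Lim Γ, ‖z‖ = 1 := fun z hz => mem_sphere_zero_iff_norm.1 hz.2
  have hmf := hcf.fin
  have hs := hcf.pos
  have hb₀ := hnorm b₀ hG.mem
  -- the points a_j
  have hS : (Lim Γ ∩ ball ζ (‖ζ - β‖ - t)).Infinite := perfect h hL ζ hζL _ (by linarith)
  obtain ⟨F, hF, hFc⟩ := hS.exists_subset_card_eq (E.card + 1)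
  have hcard : Fintype.card {z // z ∈ F} = E.card + 1 := by rw [Fintype.card_coe, hFc]
  let eqv : Fin (E.card + 1) ≃ {z // z ∈ F} := (Fintype.equivFinOfCardEq hcard).symm
  have hainj : Function.Injective (fun j => (eqv j : ℂ)) := Subtype.val_injective.comp eqv.injective
  have haL : ∀ j, (eqv j : ℂ) ∈ Lim Γ := fun j => (hF (eqv j).2).1
  have haβ : ∀ j, t < ‖(eqv j : ℂ) - β‖ := by
    intro j
    have h1 := (hF (eqv j).2).2
    rw [mem_ball, dist_eq_norm] at h1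
    have h2 : ‖ζ - β‖ ≤ ‖(eqv j : ℂ) - β‖ + ‖(eqv j : ℂ) - ζ‖ := by
      have h3 : ζ - β = ((eqv j : ℂ) - β) - ((eqv j : ℂ) - ζ) := by ring
      rw [h3]
      exact norm_sub_le _ _
    linarith
  obtain ⟨ε, hε, hsep⟩ := ntg_sep (fun j => (eqv j : ℂ)) hainj
  have hmove : ∀ j, ∃ (ζ' : ℂ) (w' : Γ → ℝ), ‖ζ'‖ = 1 ∧ ‖ζ' - (eqv j : ℂ)‖ < ε ∧ t < ‖ζ' - β‖ ∧
      ∀ A : Set ℂ, MeasurableSet A → A ⊆ ball β t' → ∫ ξ in A, (‖ξ - ζ'‖ ^ 2) ^ (-s) ∂m = ∑ y ∈ E, w' y * hm ν y A :=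
    fun j => gate_move h hL W hν hcf β b₀ ζ t t' E w hG (hnorm ζ hζL) hζt hE hrel hmeas (eqv j) (haL j) (haβ j) ε hε
  choose ζ' w' hζ1 hζ2 hζ3 hζ4 using hmove
  have hinj : Function.Injective ζ' := by
    intro i j hij
    by_contra hne
    have h1 := hsep i j hne
    have h2 := hζ2 i
    have h3 := hζ2 j
    rw [hij] at h2
    have h4 : ‖(eqv i : ℂ) - (eqv j : ℂ)‖ ≤ ‖ζ' j - (eqv j : ℂ)‖ + ‖ζ' j - (eqv i : ℂ)‖ := by
      have h5 : (eqv i : ℂ) - (eqv j : ℂ) = (ζ' j - (eqv j : ℂ)) - (ζ' j - (eqv i : ℂ)) := by ring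
      rw [h5]
      exact norm_sub_le _ _
    have h6 : 2 * ε ≤ ‖(eqv i : ℂ) - (eqv j : ℂ)‖ := h1
    linarith
  -- linear dependence
  have hdep : ¬ LinearIndependent ℝ (fun (j : Fin (E.card + 1)) (y : {y // y ∈ E}) => w' j y) := by
    intro hli
    have h1 := hli.fintype_card_le_finrank
    rw [Fintype.card_fin, Module.finrank_fintype_fun_eq_card, Fintype.card_coe] at h1
    omega
  rw [Fintype.not_linearIndependent_iff] at hdep
  obtain ⟨α, hα, i₀, hi₀⟩ := hdep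
  have hα' : ∀ y ∈ E, ∑ j, α j * w' j y = 0 := by
    intro y hy
    have h1 := congrFun hα ⟨y, hy⟩
    rw [Finset.sum_apply] at h1
    simpa [Pi.smul_apply, smul_eq_mul] using h1
  -- continuity and integrability
  have hmble : ∀ j, Measurable (fun ξ : ℂ => (‖ξ - ζ' j‖ ^ 2) ^ (-s)) := fun j =>
    ((continuous_id.sub continuous_const).norm.pow 2).measurable.pow_const (-s)
  have hint : ∀ j, ∀ A : Set ℂ, MeasurableSet A → A ⊆ ball β t' → IntegrableOn (fun ξ : ℂ => (‖ξ - ζ' j‖ ^ 2) ^ (-s)) A m := by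
    intro j A hA hAs
    refine Measure.integrableOn_of_bounded (M := ((t - t') ^ 2) ^ (-s)) (measure_ne_top m A) (hmble j).aestronglyMeasurable ?_
    filter_upwards [ae_restrict_mem hA] with ξ hξ
    rw [Real.norm_eq_abs, abs_of_nonneg (by positivity)]
    exact (ntg_pow_le hs hG.lt (hζ3 j) (hAs hξ)).2
  have hcont : ContinuousOn (fun ξ : ℂ => ∑ j, α j * (‖ξ - ζ' j‖ ^ 2) ^ (-s)) (ball β t') := by
    refine continuousOn_finsetSum _ fun j _ => continuousOn_const.mul ?_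
    refine ContinuousOn.rpow_const ((continuous_id.sub continuous_const).norm.pow 2).continuousOn ?_
    intro ξ hξ
    left
    have h1 := (ntg_pow_le hs hG.lt (hζ3 j) hξ).1
    have h2 : 0 < ‖ξ - ζ' j‖ := by linarith [hG.lt]
    exact (pow_pos h2 2).ne'
  have hzero : ∀ A : Set ℂ, MeasurableSet A → A ⊆ ball β t' → ∫ ξ in A, (∑ j, α j * (‖ξ - ζ' j‖ ^ 2) ^ (-s)) ∂m = 0 := by
    intro A hA hAs
    rw [integral_finsetSum _ fun j _ => (hint j A hA hAs).const_mul (α j)]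
    have h1 : ∀ j, ∫ ξ in A, α j * (‖ξ - ζ' j‖ ^ 2) ^ (-s) ∂m = ∑ y ∈ E, α j * w' j y * hm ν y A := by
      intro j
      rw [integral_const_mul, hζ4 j A hA hAs, Finset.mul_sum]
      exact Finset.sum_congr rfl fun y _ => by ring
    rw [Finset.sum_congr rfl fun j _ => h1 j, Finset.sum_comm]
    refine Finset.sum_eq_zero fun y hy => ?_
    rw [← Finset.sum_mul, hα' y hy, zero_mul]
  have hvan := vanish_on h hL hcf β t' (fun ξ : ℂ => ∑ j, α j * (‖ξ - ζ' j‖ ^ 2) ^ (-s)) hcont hzero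
  refine hi₀ (lin_ind s hs (E.card + 1) ζ' hζ1 hinj (Lim Γ ∩ ball β t') (fun z hz => hnorm z hz.1) b₀ hb₀ ?_ ?_ α ?_ i₀)
  · intro j hj
    have h1 := hζ3 j
    rw [hj] at h1
    linarith [hG.near, hG.lt]
  · intro r hr
    have h1 : 0 < min r (t' - ‖b₀ - β‖) := lt_min hr (by linarith [hG.near])
    refine (perfect h hL b₀ hG.mem _ h1).mono ?_
    rintro z ⟨hz1, hz2⟩
    rw [mem_ball] at hz2
    have h2 : dist z b₀ < r := lt_of_lt_of_le hz2 (min_le_left _ _)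
    have h3 : dist z b₀ < t' - ‖b₀ - β‖ := lt_of_lt_of_le hz2 (min_le_right _ _)
    refine ⟨⟨hz1, ?_⟩, h2⟩
    rw [mem_ball]
    have h4 := dist_triangle z b₀ β
    rw [dist_eq_norm b₀ β] at h4
    linarith
  · rintro ξ ⟨hξ1, hξ2⟩
    exact hvan ξ hξ1 hξ2

end Pool.Agent.DD
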