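import Mathlib

/-!
# Piece PSM3: weak compactness of probability measures on the closed disk
-/

set_option autoImplicit false

namespace Pool.Agent.DD

open MeasureTheory Filter Topology Metric

/-- `ProbabilityMeasure (closedBall (0:ℂ) 1)` is compact and metrizable (`Mathlib/MeasureTheory/Measure/Prokhorov.lean`, `LevyProkhorovMetric`), transport by the inclusion `closedBall 0 1 → ℂ` (`Measure.comap`, `Measure.map Subtype.val`) -/
theorem weak_compact (μ : ℕ → Measure ℂ) (h1 : ∀ j, IsProbabilityMeasure (μ j)) (h2 : ∀ j, μ j (closedBall (0 : ℂ) 1)ᶜ = 0) :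
    ∃ (m : Measure ℂ) (φ : ℕ → ℕ), IsProbabilityMeasure m ∧ m (closedBall (0 : ℂ) 1)ᶜ = 0 ∧ StrictMono φ ∧
      ∀ f : ℂ → ℝ, ContinuousOn f (closedBall 0 1) → Tendsto (fun j => ∫ z, f z ∂(μ (φ j))) atTop (𝓝 (∫ z, f z ∂m)) := by
  have hK : MeasurableSet (closedBall (0 : ℂ) 1) := isClosed_closedBall.measurableSet
  have hE : MeasurableEmbedding (Subtype.val : closedBall (0 : ℂ) 1 → ℂ) := MeasurableEmbedding.subtype_coe hK
  have : CompactSpace (closedBall (0 : ℂ) 1) := isCompact_iff_compactSpace.1 (isCompact_closedBall _ _)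
  have hmap : ∀ j, ((μ j).comap (Subtype.val : closedBall (0 : ℂ) 1 → ℂ)).map Subtype.val = μ j := fun j => by
    rw [map_comap_subtype_coe hK, Measure.restrict_eq_self_of_ae_mem]
    rw [ae_iff]
    exact h2 j
  have hP : ∀ j, IsProbabilityMeasure ((μ j).comap (Subtype.val : closedBall (0 : ℂ) 1 → ℂ)) := fun j => by
    constructor
    have h3 := congrArg (fun ν : Measure ℂ => ν Set.univ) (hmap j)
    rw [Measure.map_apply measurable_subtype_coe MeasurableSet.univ, Set.preimage_univ] at h3
    rw [h3]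
    exact (h1 j).measure_univ
  let P : ℕ → ProbabilityMeasure (closedBall (0 : ℂ) 1) := fun j => ⟨(μ j).comap Subtype.val, hP j⟩
  obtain ⟨a, φ, hφ, ha⟩ := CompactSpace.tendsto_subseq P
  refine ⟨(a : Measure (closedBall (0 : ℂ) 1)).map Subtype.val, φ, ?_, ?_, hφ, ?_⟩
  · exact Measure.isProbabilityMeasure_map measurable_subtype_coe.aemeasurable
  · rw [Measure.map_apply measurable_subtype_coe hK.compl]
    have : (Subtype.val : closedBall (0 : ℂ) 1 → ℂ) ⁻¹' (closedBall (0 : ℂ) 1)ᶜ = ∅ := by
      ext x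
      simp only [Set.mem_preimage, Set.mem_compl_iff, Set.mem_empty_iff_false, iff_false, not_not]
      exact x.2
    rw [this, measure_empty]
  · intro f hf
    have h4 := (ProbabilityMeasure.tendsto_iff_forall_integral_tendsto.1 ha)
      (BoundedContinuousFunction.mkOfCompact ⟨(closedBall (0 : ℂ) 1).domRestrict f, continuousOn_iff_continuous_domRestrict.1 hf⟩)
    have h5 : ∀ j, ∫ z, f z ∂(μ j) = ∫ k : closedBall (0 : ℂ) 1, f k ∂(P j : Measure (closedBall (0 : ℂ) 1)) := fun j => by
      conv_lhs => rw [← hmap j]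
      rw [hE.integral_map]
      rfl
    rw [hE.integral_map]
    simp only [h5]
    exact h4

end Pool.Agent.DD
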