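import Pool.Agent.Lib_MP_644907_full.PSm2
import Pool.Agent.Lib_MP_644907_full.PSm3

/-!
# Piece PSM: the Patterson-Sullivan measure
-/

set_option autoImplicit false

namespace Pool.Agent.DD

open MeasureTheory Filter Topology Metric

variable {Γ : Type} [Group Γ] [MulAction Γ ℂ]

theorem psm_term_pos (h : Fuchs Γ) (γ : Γ) : 0 < 1 - ‖γ • (0 : ℂ)‖ ^ 2 := geoA_pos (h.norm0 γ)

theorem psm_mem_trunc (h : Fuchs Γ) (N : ℝ) (γ : Γ) : γ ∈ trunc h N ↔ Real.exp (-N) ≤ 1 - ‖γ • (0 : ℂ)‖ ^ 2 := by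
  simp [trunc]

theorem psm_trunc_neg (h : Fuchs Γ) (N : ℝ) (hN : N < 0) : trunc h N = ∅ := by
  rw [Finset.eq_empty_iff_forall_notMem]
  intro γ hγ
  rw [psm_mem_trunc] at hγ
  have h1 : 1 < Real.exp (-N) := Real.one_lt_exp_iff.2 (by linarith)
  nlinarith [sq_nonneg ‖γ • (0 : ℂ)‖]

theorem psm_mono (h : Fuchs Γ) (t N N' : ℝ) (hN : N ≤ N') : psum h t N ≤ psum h t N' := by
  unfold psum
  refine Finset.sum_le_sum_of_subset_of_nonneg (fun γ hγ => ?_) (fun γ _ _ => Real.rpow_nonneg (psm_term_pos h γ).le _)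
  rw [psm_mem_trunc] at hγ ⊢
  exact le_trans (Real.exp_le_exp.2 (by linarith)) hγ

theorem psm_orb_null (h : Fuchs Γ) (t N : ℝ) (S : Set ℂ) (hS : MeasurableSet S) (hO : ∀ γ : Γ, γ • (0 : ℂ) ∈ S) :
    orb h t N Sᶜ = 0 := by
  simp only [orb, Measure.coe_finsetSum, Finset.sum_apply, Measure.smul_apply, smul_eq_mul]
  refine Finset.sum_eq_zero fun γ _ => ?_
  rw [Measure.dirac_apply' _ hS.compl]
  simp [hO γ]

theorem psm_rpow (B κ t δ : ℝ) (hB : 1 ≤ B) (h1 : B⁻¹ ≤ κ) (h2 : κ ≤ B) (ht : 0 ≤ t) (htδ : t ≤ δ) (hδ : δ ≤ 2) :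
    |κ ^ t - κ ^ δ| ≤ B ^ (2 : ℝ) * (B ^ (δ - t) - 1) := by
  have hB0 : 0 < B := by linarith
  have hκ : 0 < κ := lt_of_lt_of_le (inv_pos.2 hB0) h1
  have h3 : κ ^ δ = κ ^ t * κ ^ (δ - t) := by rw [← Real.rpow_add hκ]; ring_nf
  have h4 : κ ^ t ≤ B ^ (2 : ℝ) := by
    refine le_trans (Real.rpow_le_rpow hκ.le h2 ht) ?_
    exact Real.rpow_le_rpow_of_exponent_le hB (by linarith)
  have h5 : κ ^ (δ - t) ≤ B ^ (δ - t) := Real.rpow_le_rpow hκ.le h2 (by linarith)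
  have h6 : (B ^ (δ - t))⁻¹ ≤ κ ^ (δ - t) := by
    rw [← Real.inv_rpow hB0.le]
    exact Real.rpow_le_rpow (inv_pos.2 hB0).le h1 (by linarith)
  have h7 : 1 ≤ B ^ (δ - t) := Real.one_le_rpow hB (by linarith)
  have h8 : |1 - κ ^ (δ - t)| ≤ B ^ (δ - t) - 1 := by
    rw [abs_le]
    constructor
    · linarith
    · have h9 : 2 - B ^ (δ - t) ≤ (B ^ (δ - t))⁻¹ := by
        rw [← one_div, le_div_iff₀ (by linarith)]
        nlinarith [sq_nonneg (B ^ (δ - t) - 1)]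
      linarith
  rw [h3, show κ ^ t - κ ^ t * κ ^ (δ - t) = κ ^ t * (1 - κ ^ (δ - t)) by ring, abs_mul, abs_of_nonneg (Real.rpow_nonneg hκ.le t)]
  exact mul_le_mul h4 h8 (abs_nonneg _) (Real.rpow_nonneg hB0.le _)

/-- the conformal factor of `x⁻¹` -/
noncomputable def psmK (x : Γ) (z : ℂ) : ℝ := (1 - ‖x • (0 : ℂ)‖ ^ 2) / ‖1 - starRingEnd ℂ (x • (0 : ℂ)) * z‖ ^ 2

theorem psm_den (a z : ℂ) (hz : ‖z‖ ≤ 1) : 1 - ‖a‖ ≤ ‖1 - starRingEnd ℂ a * z‖ := by
  have h1 : ‖(1 : ℂ)‖ - ‖starRingEnd ℂ a * z‖ ≤ ‖1 - starRingEnd ℂ a * z‖ := norm_sub_norm_le _ _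
  rw [norm_one, norm_mul, RCLike.norm_conj] at h1
  nlinarith [norm_nonneg a, norm_nonneg z]

theorem psm_den' (a z : ℂ) (ha : ‖a‖ ≤ 1) (hz : ‖z‖ ≤ 1) : ‖1 - starRingEnd ℂ a * z‖ ≤ 2 := by
  have h1 : ‖1 - starRingEnd ℂ a * z‖ ≤ ‖(1 : ℂ)‖ + ‖starRingEnd ℂ a * z‖ := norm_sub_le _ _
  rw [norm_one, norm_mul, RCLike.norm_conj] at h1
  nlinarith [norm_nonneg a, norm_nonneg z]

theorem psmK_bound (h : Fuchs Γ) (x : Γ) : ∃ B : ℝ, 1 ≤ B ∧ ∀ z : ℂ, ‖z‖ ≤ 1 → B⁻¹ ≤ psmK x z ∧ psmK x z ≤ B := by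
  set a := x • (0 : ℂ) with ha
  have ha1 : ‖a‖ < 1 := h.norm0 x
  have h0 : 0 < 1 - ‖a‖ := by linarith
  have h1 : 0 < 1 - ‖a‖ ^ 2 := psm_term_pos h x
  refine ⟨max 1 (max (4 / (1 - ‖a‖ ^ 2)) ((1 - ‖a‖ ^ 2) / (1 - ‖a‖) ^ 2)), le_max_left _ _, fun z hz => ⟨?_, ?_⟩⟩
  · have h2 : (max 1 (max (4 / (1 - ‖a‖ ^ 2)) ((1 - ‖a‖ ^ 2) / (1 - ‖a‖) ^ 2)))⁻¹ ≤ (4 / (1 - ‖a‖ ^ 2))⁻¹ :=
      inv_anti₀ (by positivity) (le_trans (le_max_left _ _) (le_max_right _ _))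
    refine le_trans h2 ?_
    rw [inv_div, psmK, ← ha]
    have h3 := psm_den' a z ha1.le hz
    have h4 := psm_den a z hz
    have h5 : ‖1 - starRingEnd ℂ a * z‖ ^ 2 ≤ 4 := by nlinarith
    have h6 : 0 < ‖1 - starRingEnd ℂ a * z‖ := by linarith
    gcongr
  · refine le_trans ?_ (le_trans (le_max_right _ _) (le_max_right _ _))
    rw [psmK, ← ha]
    have h4 := psm_den a z hz
    gcongr

theorem psmK_cont (h : Fuchs Γ) (x : Γ) : ContinuousOn (psmK x) (closedBall 0 1) := by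
  unfold psmK
  refine ContinuousOn.div continuousOn_const (by fun_prop) fun z hz => ?_
  have h4 := psm_den (x • (0 : ℂ)) z (by simpa using hz)
  have h5 := h.norm0 x
  have : 0 < ‖1 - starRingEnd ℂ (x • (0 : ℂ)) * z‖ := by linarith
  positivity

theorem psm_seq (h : Fuchs Γ) (δ : ℝ) (hδ : 0 < δ) (h1 : ∀ t < δ, ¬ Conv Γ t) (h2 : ∀ t > δ, Conv Γ t) :
    ∃ t N : ℕ → ℝ, ∀ j : ℕ, 0 < t j ∧ t j < δ ∧ δ - 1 / ((j : ℝ) + 1) < t j ∧ (j : ℝ) + 1 ≤ N j ∧
      (j : ℝ) + 1 ≤ psum h (t j) (N j) ∧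
      (psum h (t j) (N j + ((j : ℝ) + 1)) - psum h (t j) (N j - ((j : ℝ) + 1))) / psum h (t j) (N j) ≤ 1 / ((j : ℝ) + 1) := by
  have h3 : ∀ j : ℕ, ∃ t N : ℝ, 0 < t ∧ t < δ ∧ δ - 1 / ((j : ℝ) + 1) < t ∧ (j : ℝ) + 1 ≤ N ∧
      (j : ℝ) + 1 ≤ psum h t N ∧
      (psum h t (N + ((j : ℝ) + 1)) - psum h t (N - ((j : ℝ) + 1))) / psum h t N ≤ 1 / ((j : ℝ) + 1) := by
    intro j
    have hj : (0 : ℝ) < (j : ℝ) + 1 := by positivity
    obtain ⟨t, N, ht, ht1, ht2, hM, hW⟩ := window h δ hδ h1 h2 (1 / ((j : ℝ) + 1)) ((j : ℝ) + 1) ((j : ℝ) + 1) (by positivity) hj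
    have h4 : psum h t (N - ((j : ℝ) + 1)) ≤ psum h t N := psm_mono h t _ _ (by linarith)
    refine ⟨t, N, ht, ht2, ht1, ?_, by linarith, ?_⟩
    · by_contra hN
      have h5 : trunc h (N - ((j : ℝ) + 1)) = ∅ := psm_trunc_neg h _ (by linarith)
      have h6 : psum h t (N - ((j : ℝ) + 1)) = 0 := by rw [psum, h5, Finset.sum_empty]
      linarith
    · rw [div_le_iff₀ (by linarith)]
      have h7 : 1 / ((j : ℝ) + 1) * psum h t (N - ((j : ℝ) + 1)) ≤ 1 / ((j : ℝ) + 1) * psum h t N :=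
        mul_le_mul_of_nonneg_left h4 (by positivity)
      linarith
  choose t N h4 using h3
  exact ⟨t, N, h4⟩

/-- a nonnegative continuous bounded function with integral `0` vanishes almost everywhere -/
theorem psm_ae (m : Measure ℂ) (hm : IsFiniteMeasure m) (f : ℂ → ℝ) (hf : Continuous f) (M : ℝ) (h0 : ∀ z, 0 ≤ f z) (hM : ∀ z, f z ≤ M)
    (hi : ∫ z, f z ∂m = 0) (S : Set ℂ) (hS : ∀ z ∈ S, 0 < f z) : m S = 0 := by
  have hI : Integrable f m := by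
    refine Integrable.of_bound hf.aestronglyMeasurable M (ae_of_all _ fun z => ?_)
    rw [Real.norm_of_nonneg (h0 z)]
    exact hM z
  have h1 := (integral_eq_zero_iff_of_nonneg h0 hI).1 hi
  have h2 : m {z | ¬ f z = 0} = 0 := h1
  refine measure_mono_null (fun z hz => ?_) h2
  exact (hS z hz).ne'

theorem psm_supp (h : Fuchs Γ) (t N : ℕ → ℝ) (hN : ∀ j, 0 ≤ N j) (ht : ∀ j, 0 < t j) (hp : ∀ j : ℕ, (j : ℝ) + 1 ≤ psum h (t j) (N j))
    (m : Measure ℂ) (φ : ℕ → ℕ) (hm : IsProbabilityMeasure m) (hm1 : m (closedBall (0 : ℂ) 1)ᶜ = 0) (hφ : StrictMono φ)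
    (hT : ∀ f : ℂ → ℝ, ContinuousOn f (closedBall 0 1) →
      Tendsto (fun j => ∫ z, f z ∂(orb h (t (φ j)) (N (φ j)))) atTop (𝓝 (∫ z, f z ∂m))) : m (Lim Γ)ᶜ = 0 := by
  have hA : m (closure (Set.range fun γ : Γ => γ • (0 : ℂ)))ᶜ = 0 := by
    set O := Set.range fun γ : Γ => γ • (0 : ℂ) with hO
    have hOn : O.Nonempty := ⟨_, ⟨1, rfl⟩⟩
    have hc : Continuous fun z : ℂ => min 1 (infDist z O) := continuous_const.min (continuous_infDist_pt O)
    have hi : ∫ z, min 1 (infDist z O) ∂m = 0 := by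
      refine tendsto_nhds_unique (hT _ hc.continuousOn) ?_
      have h0 : ∀ j, ∫ z, min 1 (infDist z O) ∂(orb h (t (φ j)) (N (φ j))) = 0 := fun j => by
        rw [orb_int h _ _ (hN _)]
        rw [Finset.sum_eq_zero, zero_div]
        intro γ _
        have : infDist (γ • (0 : ℂ)) O = 0 := infDist_zero_of_mem ⟨γ, rfl⟩
        rw [this]; simp
      simp only [h0]
      exact tendsto_const_nhds
    refine psm_ae m inferInstance _ hc 1 (fun z => le_min zero_le_one infDist_nonneg) (fun z => min_le_left _ _) hi _ fun z hz => ?_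
    refine lt_min zero_lt_one ?_
    rcases (infDist_nonneg : 0 ≤ infDist z O).lt_or_eq with h5 | h5
    · exact h5
    · exact absurd ((mem_closure_iff_infDist_zero hOn).2 h5.symm) hz
  have hB : ∀ r : ℝ, r < 1 → m (ball (0 : ℂ) r) = 0 := by
    intro r hr
    have hc : Continuous fun z : ℂ => max 0 (r - ‖z‖) := continuous_const.max (continuous_const.sub continuous_norm)
    have hb : ∀ z : ℂ, max 0 (r - ‖z‖) ≤ 1 := fun z => max_le zero_le_one (by linarith [norm_nonneg z])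
    have hi : ∫ z, max 0 (r - ‖z‖) ∂m = 0 := by
      refine tendsto_nhds_unique (hT _ hc.continuousOn) ?_
      have hfin := h.disc r hr
      have hle : ∀ j, |∫ z, max 0 (r - ‖z‖) ∂(orb h (t (φ j)) (N (φ j)))| ≤ (hfin.toFinset.card : ℝ) * (1 / ((φ j : ℝ) + 1)) := fun j => by
        have hpj := hp (φ j)
        have hp0 : (0 : ℝ) < (φ j : ℝ) + 1 := by positivity
        rw [orb_int h _ _ (hN _), abs_of_nonneg (by
          refine div_nonneg (Finset.sum_nonneg fun γ _ => mul_nonneg (Real.rpow_nonneg (psm_term_pos h γ).le _) (le_max_left _ _)) (by linarith)),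
          div_le_iff₀ (by linarith)]
        have h6 : ∑ γ ∈ trunc h (N (φ j)), (1 - ‖γ • (0 : ℂ)‖ ^ 2) ^ (t (φ j)) * max 0 (r - ‖γ • (0 : ℂ)‖) ≤ (hfin.toFinset.card : ℝ) := by
          classical
          calc ∑ γ ∈ trunc h (N (φ j)), (1 - ‖γ • (0 : ℂ)‖ ^ 2) ^ (t (φ j)) * max 0 (r - ‖γ • (0 : ℂ)‖)
              ≤ ∑ γ ∈ trunc h (N (φ j)), if γ ∈ hfin.toFinset then (1 : ℝ) else 0 := by
                refine Finset.sum_le_sum fun γ _ => ?_
                split_ifs with h7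
                · have h8 : (1 - ‖γ • (0 : ℂ)‖ ^ 2) ^ (t (φ j)) ≤ 1 :=
                    Real.rpow_le_one (psm_term_pos h γ).le (by nlinarith [sq_nonneg ‖γ • (0 : ℂ)‖]) (ht _).le
                  exact mul_le_one₀ h8 (le_max_left _ _) (hb _)
                · have h9 : r < ‖γ • (0 : ℂ)‖ := by simpa using h7
                  rw [max_eq_left (by linarith), mul_zero]
            _ = (((trunc h (N (φ j))).filter (· ∈ hfin.toFinset)).card : ℝ) := by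
                rw [Finset.sum_ite, Finset.sum_const_zero, add_zero, Finset.sum_const, nsmul_eq_mul, mul_one]
            _ ≤ (hfin.toFinset.card : ℝ) := by
                exact_mod_cast Finset.card_le_card fun γ hγ => (Finset.mem_filter.1 hγ).2
        have h10 : (hfin.toFinset.card : ℝ) * (1 / ((φ j : ℝ) + 1)) * ((φ j : ℝ) + 1) = hfin.toFinset.card := by
          field_simp
        have h11 : (hfin.toFinset.card : ℝ) * (1 / ((φ j : ℝ) + 1)) * ((φ j : ℝ) + 1) ≤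
            (hfin.toFinset.card : ℝ) * (1 / ((φ j : ℝ) + 1)) * psum h (t (φ j)) (N (φ j)) :=
          mul_le_mul_of_nonneg_left hpj (by positivity)
        linarith
      refine squeeze_zero_norm hle ?_
      have h12 : Tendsto (fun j : ℕ => (hfin.toFinset.card : ℝ) * (1 / ((φ j : ℝ) + 1))) atTop (𝓝 ((hfin.toFinset.card : ℝ) * 0)) :=
        (tendsto_one_div_add_atTop_nhds_zero_nat.comp hφ.tendsto_atTop).const_mul _
      rwa [mul_zero] at h12
    refine psm_ae m inferInstance _ hc 1 (fun z => le_max_left _ _) hb hi _ fun z hz => ?_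
    have : ‖z‖ < r := by simpa using hz
    exact lt_max_of_lt_right (by linarith)
  have hC : m (ball (0 : ℂ) 1) = 0 := by
    have h13 : ball (0 : ℂ) 1 ⊆ ⋃ n : ℕ, ball (0 : ℂ) (1 - 1 / ((n : ℝ) + 1)) := by
      intro z hz
      have hz1 : ‖z‖ < 1 := by simpa using hz
      obtain ⟨n, hn⟩ := exists_nat_one_div_lt (show (0 : ℝ) < 1 - ‖z‖ by linarith)
      refine Set.mem_iUnion.2 ⟨n, ?_⟩
      rw [mem_ball_zero_iff]; linarith
    refine measure_mono_null h13 (measure_iUnion_null fun n => hB _ ?_)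
    have : (0 : ℝ) < 1 / ((n : ℝ) + 1) := by positivity
    linarith
  refine measure_mono_null (t := (closure (Set.range fun γ : Γ => γ • (0 : ℂ)))ᶜ ∪ (ball (0 : ℂ) 1 ∪ (closedBall (0 : ℂ) 1)ᶜ)) ?_
    (measure_union_null hA (measure_union_null hC hm1))
  intro z hz
  by_cases hz1 : z ∈ closure (Set.range fun γ : Γ => γ • (0 : ℂ))
  · right
    rcases lt_trichotomy ‖z‖ 1 with h5 | h5 | h5
    · left; simpa using h5
    · exact absurd ⟨hz1, by simpa using h5⟩ hz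
    · right; simpa using h5
  · left; exact hz1

theorem psm_conf_int (h : Fuchs Γ) (δ : ℝ) (hδ2 : δ ≤ 2) (t N : ℕ → ℝ)
    (hs : ∀ j : ℕ, 0 < t j ∧ t j < δ ∧ δ - 1 / ((j : ℝ) + 1) < t j ∧ (j : ℝ) + 1 ≤ N j ∧
      (j : ℝ) + 1 ≤ psum h (t j) (N j) ∧
      (psum h (t j) (N j + ((j : ℝ) + 1)) - psum h (t j) (N j - ((j : ℝ) + 1))) / psum h (t j) (N j) ≤ 1 / ((j : ℝ) + 1))
    (m : Measure ℂ) (φ : ℕ → ℕ) (hφ : StrictMono φ)
    (hT : ∀ f : ℂ → ℝ, ContinuousOn f (closedBall 0 1) →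
      Tendsto (fun j => ∫ z, f z ∂(orb h (t (φ j)) (N (φ j)))) atTop (𝓝 (∫ z, f z ∂m)))
    (x : Γ) (f : ℂ → ℝ) (hf : Continuous f) (M : ℝ) (hM : ∀ z, |f z| ≤ M) :
    ∫ z, f (x • z) ∂m = ∫ z, f z * psmK x z ^ δ ∂m := by
  have hM0 : 0 ≤ M := le_trans (abs_nonneg _) (hM 0)
  have hN0 : ∀ j, 0 ≤ N j := fun j => le_trans (by positivity) (hs j).2.2.2.1
  obtain ⟨L₀, C, hL₀, hC, hconf⟩ := orb_conf h x
  obtain ⟨B, hB1, hB⟩ := psmK_bound h x
  have hφt := hφ.tendsto_atTop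
  have hz0 : Tendsto (fun j : ℕ => 1 / ((φ j : ℝ) + 1)) atTop (𝓝 0) :=
    tendsto_one_div_add_atTop_nhds_zero_nat.comp hφt
  have hδ0 : 0 < δ := lt_trans (hs 0).1 (hs 0).2.1
  have ht1 : Tendsto (fun j => ∫ z, f (x • z) ∂(orb h (t (φ j)) (N (φ j)))) atTop (𝓝 (∫ z, f (x • z) ∂m)) := by
    refine hT (fun z => f (x • z)) (hf.comp_continuousOn (h.contOn x))
  have ht2 : Tendsto (fun j => ∫ z, f z * psmK x z ^ δ ∂(orb h (t (φ j)) (N (φ j)))) atTop (𝓝 (∫ z, f z * psmK x z ^ δ ∂m)) := by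
    refine hT _ (hf.continuousOn.mul ((psmK_cont h x).rpow_const fun z _ => Or.inr hδ0.le))
  have ht3 : Tendsto (fun j => ∫ z, f (x • z) ∂(orb h (t (φ j)) (N (φ j))) -
      ∫ z, f z * psmK x z ^ (t (φ j)) ∂(orb h (t (φ j)) (N (φ j)))) atTop (𝓝 0) := by
    refine squeeze_zero_norm' (a := fun j => C * M * (1 / ((φ j : ℝ) + 1))) ?_ ?_
    · obtain ⟨n₀, hn₀⟩ := exists_nat_ge L₀
      filter_upwards [hφt.eventually_ge_atTop n₀] with j hj
      obtain ⟨a1, a2, a3, a4, a5, a6⟩ := hs (φ j)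
      have hj' : (n₀ : ℝ) ≤ (φ j : ℝ) := by exact_mod_cast hj
      have h1 := hconf (t (φ j)) (N (φ j)) ((φ j : ℝ) + 1) M f a1 (by linarith) (by linarith) a4 (fun z _ => hM z)
      refine le_trans h1 ?_
      exact mul_le_mul_of_nonneg_left a6 (by positivity)
    · have := hz0.const_mul (C * M)
      rwa [mul_zero] at this
  have ht4 : Tendsto (fun j => ∫ z, f z * psmK x z ^ (t (φ j)) ∂(orb h (t (φ j)) (N (φ j))) -
      ∫ z, f z * psmK x z ^ δ ∂(orb h (t (φ j)) (N (φ j)))) atTop (𝓝 0) := by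
    refine squeeze_zero_norm (a := fun j => M * (B ^ (2 : ℝ) * (B ^ (δ - t (φ j)) - 1))) (fun j => ?_) ?_
    · obtain ⟨a1, a2, a3, a4, a5, a6⟩ := hs (φ j)
      have hp0 : 0 < psum h (t (φ j)) (N (φ j)) := lt_of_lt_of_le (by positivity) a5
      rw [orb_int h _ _ (hN0 _), orb_int h _ _ (hN0 _), ← sub_div, ← Finset.sum_sub_distrib, Real.norm_eq_abs, abs_div, abs_of_pos hp0,
        div_le_iff₀ hp0]
      refine le_trans (Finset.abs_sum_le_sum_abs _ _) ?_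
      rw [psum, Finset.mul_sum]
      refine Finset.sum_le_sum fun γ _ => ?_
      have h2 := h.norm0 γ
      have h3 := hB (γ • (0 : ℂ)) h2.le
      have h4 := psm_rpow B (psmK x (γ • (0 : ℂ))) (t (φ j)) δ hB1 h3.1 h3.2 a1.le a2.le hδ2
      have h5 : 0 ≤ (1 - ‖γ • (0 : ℂ)‖ ^ 2) ^ (t (φ j)) := Real.rpow_nonneg (psm_term_pos h γ).le _
      rw [show (1 - ‖γ • (0 : ℂ)‖ ^ 2) ^ t (φ j) * (f (γ • (0 : ℂ)) * psmK x (γ • (0 : ℂ)) ^ t (φ j)) -
          (1 - ‖γ • (0 : ℂ)‖ ^ 2) ^ t (φ j) * (f (γ • (0 : ℂ)) * psmK x (γ • (0 : ℂ)) ^ δ) =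
          (1 - ‖γ • (0 : ℂ)‖ ^ 2) ^ t (φ j) * (f (γ • (0 : ℂ)) * (psmK x (γ • (0 : ℂ)) ^ t (φ j) - psmK x (γ • (0 : ℂ)) ^ δ)) by ring,
        abs_mul, abs_of_nonneg h5, abs_mul, mul_comm (M * _)]
      refine mul_le_mul_of_nonneg_left ?_ h5
      exact mul_le_mul (hM _) h4 (abs_nonneg _) hM0
    · have h6 : Tendsto (fun j => δ - t (φ j)) atTop (𝓝 0) := by
        refine squeeze_zero (fun j => ?_) (fun j => ?_) hz0
        · have := (hs (φ j)).2.1; linarith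
        · have := (hs (φ j)).2.2.1; linarith
      have h7 : Tendsto (fun j => B ^ (δ - t (φ j))) atTop (𝓝 (B ^ (0 : ℝ))) :=
        (Real.continuousAt_const_rpow (by linarith)).tendsto.comp h6
      have h8 : Tendsto (fun j => M * (B ^ (2 : ℝ) * (B ^ (δ - t (φ j)) - 1))) atTop (𝓝 (M * (B ^ (2 : ℝ) * (B ^ (0 : ℝ) - 1)))) :=
        ((h7.sub_const 1).const_mul _).const_mul _
      rwa [Real.rpow_zero, sub_self, mul_zero, mul_zero] at h8
  have ht5 := (ht3.add ht4).add ht2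
  rw [zero_add, zero_add] at ht5
  refine tendsto_nhds_unique ht1 (ht5.congr fun j => ?_)
  ring

/-- Take `t_j, N_j` from `window` for `ε = 1/(j+1)`, `L = j + 1`, `M = j + 1` (so `N_j - L_j ≥ 0` because `psum h t N' = 0` for `N' < 0`, as `1 - |γ 0|² ≤ 1`), `m_j = orb h t_j N_j`: probability measures on the closed disk (`orb_prob`). `weak_compact`: a subsequence converges weakly to a probability measure `m` on the closed disk.
`m` is carried by `Lim Γ`: the closure of the orbit is closed and carries all `m_j`; and for `r < 1` `m_j (closedBall 0 r) ≤ #{γ | |γ 0| ≤ r} / psum → 0` since each term is `≤ 1`; so `m (ball 0 r) = 0` (test functions). `orb_conf` and `t_j → δ`: `∫ f (x z) dm = ∫ f z κ(z)^δ dm` for all continuous `f`, `κ z = (1 - |x 0|²) / |1 - conj (x 0) z|²`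
(`f (x z)` is continuous on the closed disk; `κ^{t_j} → κ^δ` uniformly on the closed disk; the error is `≤ C M ((1 + ε_j) - 1)` as `psum (N - L) ≤ psum N`); on the circle `κ z = pk (x 0) z` (`norm_one_sub_sphere`). Equality of measures (`ext_of_forall_integral_eq_of_IsFiniteMeasure`) gives `Conf.conf`. -/
theorem exists_conf (h : Fuchs Γ) (δ : ℝ) (hδ : 0 < δ) (h1 : ∀ t < δ, ¬ Conv Γ t) (h2 : ∀ t > δ, Conv Γ t) : ∃ m : Measure ℂ, Conf Γ m δ := by
  have hδ2 : δ ≤ 2 := by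
    by_contra hc
    exact h1 2 (by linarith) (conv_two h)
  obtain ⟨t, N, hs⟩ := psm_seq h δ hδ h1 h2
  have hN0 : ∀ j, 0 ≤ N j := fun j => le_trans (by positivity) (hs j).2.2.2.1
  have hcb : MeasurableSet (closedBall (0 : ℂ) 1) := isClosed_closedBall.measurableSet
  obtain ⟨m, φ, hm, hm1, hφ, hT⟩ := weak_compact (fun j => orb h (t j) (N j)) (fun j => orb_prob h _ _ (hN0 j))
    (fun j => psm_orb_null h _ _ _ hcb fun γ => by simpa using (h.norm0 γ).le)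
  have hsupp : m (Lim Γ)ᶜ = 0 := psm_supp h t N hN0 (fun j => (hs j).1) (fun j => (hs j).2.2.2.2.1) m φ hm hm1 hφ hT
  have hsph : ∀ᵐ z ∂m, ‖z‖ = 1 := by
    rw [ae_iff]
    refine measure_mono_null (fun z hz => ?_) hsupp
    intro hz1
    exact hz (by simpa using hz1.2)
  refine ⟨m, inferInstance, IsProbabilityMeasure.ne_zero m, hsupp, hδ, fun x A hA => ?_⟩
  have hpos := psm_term_pos h x
  have hpk : ∀ z : ℂ, ‖z‖ = 1 → psmK x z = pk (x • (0 : ℂ)) z := fun z hz => by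
    rw [psmK, pk, norm_one_sub_sphere hz]
  have hmeas : Measurable fun ξ : ℂ => pk (x • (0 : ℂ)) ξ ^ δ := by
    unfold pk
    fun_prop
  have hfin : IsFiniteMeasure (m.withDensity fun ξ => ENNReal.ofReal (pk (x • (0 : ℂ)) ξ ^ δ)) := by
    refine isFiniteMeasure_withDensity (ne_of_lt ?_)
    calc ∫⁻ ξ, ENNReal.ofReal (pk (x • (0 : ℂ)) ξ ^ δ) ∂m ≤ ∫⁻ _ξ, ENNReal.ofReal ((4 / (1 - ‖x • (0 : ℂ)‖ ^ 2)) ^ δ) ∂m := by
          refine lintegral_mono_ae ?_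
          filter_upwards [hsph] with ξ hξ
          refine ENNReal.ofReal_le_ofReal (Real.rpow_le_rpow (pk_pos (h.norm0 x) hξ).le (pk_le' (h.norm0 x) hξ) hδ.le)
      _ < ⊤ := by
          rw [lintegral_const, measure_univ, mul_one]
          exact ENNReal.ofReal_lt_top
  have heq : m.map (fun z : ℂ => x • z) = m.withDensity fun ξ => ENNReal.ofReal (pk (x • (0 : ℂ)) ξ ^ δ) := by
    refine ext_of_forall_integral_eq_of_IsFiniteMeasure fun f => ?_
    rw [integral_map (h.meas x).aemeasurable f.continuous.aestronglyMeasurable]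
    rw [psm_conf_int h δ hδ2 t N hs m φ hφ hT x f f.continuous ‖f‖ (fun z => f.norm_coe_le_norm z)]
    rw [integral_withDensity_eq_integral_toReal_smul₀ hmeas.ennreal_ofReal.aemeasurable (ae_of_all _ fun _ => ENNReal.ofReal_lt_top)]
    refine integral_congr_ae ?_
    filter_upwards [hsph] with ξ hξ
    simp only [smul_eq_mul]
    rw [ENNReal.toReal_ofReal (Real.rpow_nonneg (pk_pos (h.norm0 x) hξ).le _), hpk ξ hξ, mul_comm]
  rw [← Measure.map_apply (h.meas x) hA, heq, withDensity_apply _ hA]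

end Pool.Agent.DD
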