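import Pool.Agent.Lib_MP_644907_full.BJ2
import Pool.Agent.Lib_MP_644907_full.PSm
import Pool.Agent.Lib_MP_644907_full.Crit

/-!
# Piece PSD: conformal measures of dimension at most the dimension of the limit set
-/

set_option autoImplicit false

namespace Pool.Agent.DD

open MeasureTheory Filter Topology Metric

variable {Γ : Type} [Group Γ] [MulAction Γ ℂ] {ι : Type} [Fintype ι] {ν : Measure ℂ}

theorem exists_ps (h : Fuchs Γ) (hL : (Lim Γ).Infinite) (W : Walk Γ ι) (hν : Stat W.toPreWalk ν) :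
    ∃ (m : Measure ℂ) (s : ℝ), Conf Γ m s ∧ ENNReal.ofReal s ≤ dimH (Lim Γ) := by
  obtain ⟨δ, hδ, h1, h2⟩ := exists_crit h hL W hν
  obtain ⟨m, hm⟩ := exists_conf h δ hδ h1 h2
  refine ⟨m, δ, hm, ?_⟩
  refine le_of_forall_lt fun c hc => ?_
  have hc' : c ≠ ⊤ := ne_top_of_lt hc
  obtain ⟨c, rfl⟩ : ∃ c' : NNReal, c = c' := ⟨c.toNNReal, (ENNReal.coe_toNNReal hc').symm⟩
  have hcδ : (c : ℝ) < δ := by
    rw [ENNReal.ofReal, ENNReal.coe_lt_coe] at hc
    have := NNReal.coe_lt_coe.2 hc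
    rwa [Real.coe_toNNReal _ hδ.le] at this
  have h3 := bj h hL (((c : ℝ) + 3 * δ) / 4) (((c : ℝ) + δ) / 2) (by positivity) (by linarith) (h1 _ (by linarith))
  refine lt_of_lt_of_le ?_ h3
  rw [ENNReal.ofReal, ENNReal.coe_lt_coe, ← NNReal.coe_lt_coe, Real.coe_toNNReal _ (by positivity)]
  linarith

end Pool.Agent.DD
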