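import Pool.Agent.Lib_MP_644907_full.GroupT
import Pool.Agent.Lib_MP_644907_full.Drop
import Pool.Agent.Lib_MP_644907_full.NTg
import Pool.Agent.Lib_MP_644907_full.PSd
import Pool.Agent.Lib_MP_644907_h.COCF

/-!
# Assembly
-/

set_option autoImplicit false

namespace Pool.Agent.DD

open MeasureTheory Filter Topology Metric

/-- dimension drop for groups which are not cocompact -/
theorem group_drop {Γ : Type} [Group Γ] [MulAction Γ ℂ] {ι : Type} [Fintype ι] {ν : Measure ℂ} (h : Fuchs Γ) (hL : (Lim Γ).Infinite)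
    (hc : ¬ Cocpt Γ) (W : Walk Γ ι) (hν : Stat W.toPreWalk ν) : ∃ E : Set ℂ, MeasurableSet E ∧ ν Eᶜ = 0 ∧ dimH E < dimH (Lim Γ) := by
  obtain ⟨m, s, hcf, hs⟩ := exists_ps h hL W hν
  exact drop h hL W hν hcf hs fun hT => no_tangent_gaps h hL hc W hν hcf hT

theorem main :
  ∀ (n : ℕ) (p : Fin n → ℝ) (g : Fin n → ℂ → ℂ),
    (∀ i, 0 < p i) → ∑ i, p i = 1 →
    (∀ i, ∃ u a : ℂ, ‖u‖ = 1 ∧ ‖a‖ < 1 ∧
      (g i = (fun z : ℂ => u * (z - a) / (1 - starRingEnd ℂ a * z)) ∨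
       g i = (fun z : ℂ => u * (starRingEnd ℂ z - a) / (1 - starRingEnd ℂ a * starRingEnd ℂ z)))) →
    ∀ S : Set (ℂ → ℂ),
      S = ⋂₀ {T : Set (ℂ → ℂ) | Set.range g ⊆ T ∧ ∀ f ∈ T, ∀ h ∈ T, f ∘ h ∈ T} →
      (∀ f ∈ S, ∃ h ∈ S, ∀ z : ℂ, ‖z‖ ≤ 1 → h (f z) = z) →
      (∀ r : ℝ, r < 1 →
        ((fun f : ℂ → ℂ => (Metric.closedBall (0:ℂ) 1).restrict f) ''
          {f : ℂ → ℂ | f ∈ S ∧ ‖f 0‖ ≤ r}).Finite) →
      (closure ((fun f : ℂ → ℂ => f 0) '' S) ∩ Metric.sphere (0:ℂ) 1).Infinite →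
      ∀ ν : MeasureTheory.Measure ℂ, MeasureTheory.IsProbabilityMeasure ν →
        ν (Metric.sphere (0:ℂ) 1)ᶜ = 0 →
        (∀ A : Set ℂ, MeasurableSet A →
          ν A = ∑ i, ENNReal.ofReal (p i) * ν (g i ⁻¹' A)) →
        ∃ E : Set ℂ, MeasurableSet E ∧ ν Eᶜ = 0 ∧
          dimH E < dimH (closure ((fun f : ℂ → ℂ => f 0) '' S) ∩ Metric.sphere (0:ℂ) 1) := by
  intro n p g hp hp1 hg S hS hinv hdisc hinf ν hν hνs hstat
  by_cases hcoc : ∃ r : ℝ, r < 1 ∧ ∀ z : ℂ, ‖z‖ < 1 → ∃ f ∈ S, ‖f z‖ ≤ r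
  · exact DimDropH.cocompact_case p g hp hp1 hg S hS hinv hdisc hcoc ν hν hνs hstat
  · obtain ⟨Γ, i1, i2, W, hF, hst, hLim, hco⟩ := exists_group n p g hp hp1 hg S hS hinv hdisc ν hν hνs hstat
    rw [← hLim] at hinf ⊢
    exact group_drop hF hinf (fun hc => hcoc (hco hc)) W hst

end Pool.Agent.DD
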