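import Pool.Agent.Lib_MP_644907_full.NoAtom1

/-!
# Piece NOATOM: stationary measures have no atoms and are carried by the limit set
-/

set_option autoImplicit false

namespace Pool.Agent.DD

open MeasureTheory Filter Topology Metric

variable {Γ : Type} [Group Γ] [MulAction Γ ℂ] {ι : Type} [Fintype ι] {ν : Measure ℂ}

/-- compactness of the circle and no atoms: otherwise there are measurable sets `A_n` of diameter `≤ 1/n` with `ν A_n > ε`, contained in closed balls `closedBall a_n (1/n)`, `a_n` on the circle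
(`A_n` meets the circle); for a limit point `a` of `a_n` all `closedBall a δ` have measure `≥ ε`, so `ν {a} ≥ ε` (continuity from above). -/
theorem modulus (h : Fuchs Γ) (hL : (Lim Γ).Infinite) (W : Walk Γ ι) (hν : Stat W.toPreWalk ν) (ε : ℝ) (hε : 0 < ε) :
    ∃ δ : ℝ, 0 < δ ∧ ∀ A : Set ℂ, (∀ z ∈ A, ∀ w ∈ A, ‖z‖ = 1 → ‖w‖ = 1 → ‖z - w‖ ≤ δ) → ν.real A ≤ ε := by
  have hprob := hν.prob
  have hU : ∀ a : ℂ, ∃ V : Set ℂ, IsOpen V ∧ a ∈ V ∧ ν V < ENNReal.ofReal ε := by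
    intro a
    have h0 : ν {a} < ENNReal.ofReal ε := by
      rw [no_atom h hL W hν a]
      exact ENNReal.ofReal_pos.2 hε
    obtain ⟨V, hV1, hV2, hV3⟩ := Set.exists_isOpen_lt_of_lt {a} _ h0
    exact ⟨V, hV2, hV1 rfl, hV3⟩
  choose V hVo hVm hVν using hU
  obtain ⟨δ, hδ, hδ'⟩ := lebesgue_number_lemma_of_metric (isCompact_sphere (0 : ℂ) 1) hVo
    (fun x _ => Set.mem_iUnion.2 ⟨x, hVm x⟩)
  refine ⟨δ / 2, by positivity, fun A hA => ?_⟩
  have h1 : ν A ≤ ν (A ∩ sphere 0 1) := by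
    calc ν A ≤ ν ((A ∩ sphere 0 1) ∪ (sphere (0 : ℂ) 1)ᶜ) := by
          apply measure_mono
          intro z hz
          by_cases h2 : z ∈ sphere (0 : ℂ) 1
          · exact Or.inl ⟨hz, h2⟩
          · exact Or.inr h2
      _ ≤ ν (A ∩ sphere 0 1) + ν (sphere (0 : ℂ) 1)ᶜ := measure_union_le _ _
      _ = ν (A ∩ sphere 0 1) := by rw [hν.supp, add_zero]
  have h2 : ν A ≤ ENNReal.ofReal ε := by
    refine h1.trans ?_
    rcases (A ∩ sphere 0 1).eq_empty_or_nonempty with h3 | ⟨a, ha, ha'⟩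
    · rw [h3, measure_empty]
      exact zero_le
    · obtain ⟨i, hi⟩ := hδ' a ha'
      refine le_trans (measure_mono ?_) (hVν i).le
      rintro z ⟨hz, hz'⟩
      apply hi
      rw [mem_ball_iff_norm]
      have h4 := hA z hz a ha (by simpa using hz') (by simpa using ha')
      linarith
  exact ENNReal.toReal_le_of_le_ofReal hε.le h2

/-- `hm ν x A = ν.real B` with `B = (x •)⁻¹ A`. For `z, w ∈ B` on the circle, `z = x⁻¹ ξ`, `w = x⁻¹ η` with `ξ, η ∈ A` on the circle, `|ξ - x 0| ≥ ρ`, `|η - x 0| ≥ ρ`, so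
`|z - w| ≤ 2 (1 - |x 0|²) / ρ` (`Fuchs.contract` for `γ = x⁻¹`, `γ⁻¹ = x`, `Fuchs.norm_inv`). Use `modulus`. -/
theorem far_small (h : Fuchs Γ) (hL : (Lim Γ).Infinite) (W : Walk Γ ι) (hν : Stat W.toPreWalk ν) (ε : ℝ) (hε : 0 < ε) :
    ∃ δ : ℝ, 0 < δ ∧ ∀ (x : Γ) (A : Set ℂ) (ρ : ℝ), 0 < ρ → 1 - ‖x • (0 : ℂ)‖ ^ 2 ≤ δ * ρ →
      (∀ ξ ∈ A, ‖ξ‖ = 1 → ρ ≤ ‖ξ - x • (0 : ℂ)‖) → hm ν x A ≤ ε := by
  obtain ⟨δ, hδ, hδ'⟩ := modulus h hL W hν ε hε
  refine ⟨δ / 2, by positivity, fun x A ρ hρ hx hA => ?_⟩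
  apply hδ'
  intro z hz w hw hz1 hw1
  have h1 : ‖x • z‖ = 1 := h.norm_eq x hz1
  have h2 : ‖x • w‖ = 1 := h.norm_eq x hw1
  have h3 := hA _ hz h1
  have h4 := hA _ hw h2
  have h5 := h.contract x⁻¹ (z := x • z) (w := x • w) h1.le h2.le hρ (by rw [inv_inv]; exact h3)
    (by rw [inv_inv]; exact h4)
  rw [inv_smul_smul, inv_smul_smul, h.norm_inv] at h5
  refine h5.trans ?_
  rw [div_le_iff₀ hρ]
  linarith

/-- `far_small` with `A` = complement of the ball `ball b (C t)`, `ρ = (C - 1) t`, `1 - |x 0|² ≤ 2 |x 0 - b| ≤ 2 t` (`one_sub_le_dist`) -/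
theorem near_big (h : Fuchs Γ) (hL : (Lim Γ).Infinite) (W : Walk Γ ι) (hν : Stat W.toPreWalk ν) (ε : ℝ) (hε : 0 < ε) :
    ∃ C : ℝ, 1 ≤ C ∧ ∀ (x : Γ) (b : ℂ) (t : ℝ), ‖b‖ = 1 → 0 < t → ‖x • (0 : ℂ) - b‖ ≤ t →
      1 - ε ≤ hm ν x (ball b (C * t)) := by
  obtain ⟨δ, hδ, hδ'⟩ := far_small h hL W hν ε hε
  have hC : 0 < 2 / δ := by positivity
  refine ⟨1 + 2 / δ, by linarith, fun x b t hb ht hx => ?_⟩
  have h1 := hm_add_compl h W.toPreWalk hν x (ball b ((1 + 2 / δ) * t)) measurableSet_ball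
  have h2 : hm ν x (ball b ((1 + 2 / δ) * t))ᶜ ≤ ε := by
    apply hδ' x _ (2 / δ * t) (mul_pos hC ht)
    · have h3 := one_sub_le_dist hb (h.norm0 x).le
      have h4 : δ * (2 / δ * t) = 2 * t := by
        field_simp
      rw [h4]
      linarith
    · intro ξ hξ _
      have h3 : (1 + 2 / δ) * t ≤ ‖ξ - b‖ := by
        by_contra h4
        exact hξ (mem_ball_iff_norm.2 (not_le.1 h4))
      have h4 : ‖ξ - b‖ ≤ ‖ξ - x • (0 : ℂ)‖ + ‖x • (0 : ℂ) - b‖ := norm_sub_le_norm_sub_add_norm_sub _ _ _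
      linarith
  linarith

end Pool.Agent.DD
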