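import Pool.Agent.Lib_MP_644907_full.Freq1
import Pool.Agent.Lib_MP_644907_full.Spec2
import Pool.Agent.Lib_MP_644907_full.Chain
import Pool.Agent.Lib_MP_644907_full.NoAtom
import Pool.Agent.Lib_MP_644907_full.Entr

/-!
# Piece FREQ: almost every point has many good levels
-/

set_option autoImplicit false

namespace Pool.Agent.DD

open MeasureTheory Filter Topology Metric

variable {Γ : Type} [Group Γ] [MulAction Γ ℂ] {ι : Type} [Fintype ι] {ν : Measure ℂ}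

open Classical in
/-- few good levels -/
private def freqB (Γ : Type) [Group Γ] [MulAction Γ ℂ] (D : ℝ) (k : ℕ) : Set ℂ :=
  {ξ | ‖ξ‖ = 1 ∧ (((Finset.range k).filter (fun j : ℕ => GoodLvl Γ D ξ j)).card : ℝ) < (k : ℝ) / 4}

open Classical in
private theorem freq_measB (h : Fuchs Γ) (D : ℝ) (k : ℕ) : MeasurableSet (freqB Γ D k) := by
  have e : freqB Γ D k = sphere (0 : ℂ) 1 ∩ {ξ : ℂ | ∑ j ∈ Finset.range k,
      ({ξ : ℂ | ‖ξ‖ = 1 ∧ GoodLvl Γ D ξ j}).indicator (fun _ => (1 : ℝ)) ξ < (k : ℝ) / 4} := by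
    ext ξ
    simp only [freqB, Set.mem_ofPred_eq, Set.mem_inter_iff, mem_sphere_zero_iff_norm]
    refine and_congr_right fun hξ => ?_
    have e1 : ∑ j ∈ Finset.range k, ({ξ : ℂ | ‖ξ‖ = 1 ∧ GoodLvl Γ D ξ j}).indicator (fun _ => (1 : ℝ)) ξ =
        (((Finset.range k).filter (fun j : ℕ => GoodLvl Γ D ξ j)).card : ℝ) := by
      rw [Finset.card_filter, Nat.cast_sum]
      refine Finset.sum_congr rfl fun j _ => ?_
      by_cases hj : GoodLvl Γ D ξ j
      · rw [Set.indicator_of_mem (show ξ ∈ {ξ : ℂ | ‖ξ‖ = 1 ∧ GoodLvl Γ D ξ j} from ⟨hξ, hj⟩), if_pos hj, Nat.cast_one]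
      · rw [Set.indicator_of_notMem (fun hh => hj hh.2), if_neg hj, Nat.cast_zero]
    rw [e1]
  rw [e]
  refine isClosed_sphere.measurableSet.inter (measurableSet_lt ?_ measurable_const)
  exact Finset.measurable_fun_sum _ fun j _ => measurable_const.indicator (meas_goodLvl h D j)

open Classical in
/-- a word whose end point is close to `ξ` gives many good levels -/
private theorem freq_word (h : Fuchs Γ) {n' : ℕ} (W' : PreWalk Γ (Fin n')) (Q : ℝ)
    (hQ : ∀ (x : Γ) (i : Fin n'), qd (x • (0 : ℂ)) ((x * W'.g i) • (0 : ℂ)) ≤ Q) (K : ℕ) (D : ℝ)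
    (hD : ∀ (ξ : ℂ) (n k : ℕ) (y : ℕ → ℂ), ‖ξ‖ = 1 → (∀ j, ‖y j‖ < 1) → y 0 = 0 →
      (∀ j < n, qd (y j) (y (j + 1)) ≤ Q) → ‖y n - ξ‖ ≤ (1 / 2) ^ k → (n : ℝ) ≤ (K : ℝ) * k →
      (k : ℝ) / 2 - 2 ≤ (((Finset.range k).filter (fun j : ℕ => ∃ i ≤ n, qd (y i) ((1 - (1 / 2) ^ j : ℝ) * ξ) ≤ D)).card : ℝ))
    (k : ℕ) (hk : 8 ≤ k) (w : Fin (K * k) → Fin n') (ξ : ℂ) (hξ : ξ ∈ freqB Γ D k) :
    (1 / 2) ^ k ≤ ‖ξ - wg W' w • (0 : ℂ)‖ := by
  by_contra hcon
  push Not at hcon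
  obtain ⟨hξ1, hξ2⟩ := hξ
  obtain ⟨y, hy0, hyn, hys⟩ := exists_path W' (K * k) w 1
  have h1 := hD ξ (K * k) k (fun j => y j • (0 : ℂ)) hξ1 (fun j => h.norm0 (y j)) (by rw [hy0, one_smul])
    (fun j hj => by
      obtain ⟨i, hi⟩ := hys j hj
      show qd (y j • (0 : ℂ)) (y (j + 1) • (0 : ℂ)) ≤ Q
      rw [hi]
      exact hQ (y j) i)
    (by
      show ‖y (K * k) • (0 : ℂ) - ξ‖ ≤ (1 / 2) ^ k
      rw [hyn, one_mul, norm_sub_rev]
      exact hcon.le)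
    (by push_cast; exact le_rfl)
  have h2 : (((Finset.range k).filter (fun j : ℕ => ∃ i ≤ K * k, qd (y i • (0 : ℂ)) ((1 - (1 / 2) ^ j : ℝ) * ξ) ≤ D)).card : ℝ) ≤
      (((Finset.range k).filter (fun j : ℕ => GoodLvl Γ D ξ j)).card : ℝ) := by
    norm_cast
    refine Finset.card_le_card fun j hj => ?_
    rw [Finset.mem_filter] at hj ⊢
    obtain ⟨hj1, i, -, hi⟩ := hj
    exact ⟨hj1, y i, hi⟩
  have h3 : (8 : ℝ) ≤ k := by exact_mod_cast hk
  linarith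

open Classical in
/-- Let `W', C, ρ` be as in `exists_decay`, `K ∈ ℕ` with `8 ρ^K ≤ 1/2`, `n = K k`, `Q` a bound for `qd 0 (g_i 0)` (`step_bound`), `D` from `chain` for `Q`, `K`, and `B_k = {ξ on the circle | fewer than k / 4 good levels j < k}` (measurable). `ν B_k = ∑_w wp w · hm ν (wg w) B_k` (`word_avg` for `hm ν · B_k`, words of length `n`).
The words with `1 - |wg w 0|² ≥ 2^(-3k)` contribute at most `C' 8^k ρ^(K k) ≤ C' 2^(-k)` (`tail_prob`). For the others: if `|ξ - wg w 0| ≤ 2^(-k)` then `chain` for the path of `w` (`exists_path`) shows that `ξ` has at least `k/2 - 2 ≥ k/4` good levels (`k ≥ 8`), so `ξ ∉ B_k`; hence `hm ν (wg w) B_k ≤ ε` for `k ≥ k(ε)` by `far_small` with `ρ = 2^(-k)`.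
So `ν B_k → 0`. The set of `ξ` with only finitely many `k` with `k / 4 ≤ #good` is contained in `⋃_k₀ ⋂_{k ≥ k₀} B_k`, a null set. -/
theorem freq (h : Fuchs Γ) (hL : (Lim Γ).Infinite) (W : Walk Γ ι) (hν : Stat W.toPreWalk ν) :
    ∃ D : ℝ, ∀ᵐ ξ ∂ν, ‖ξ‖ = 1 ∧ ∃ᶠ k : ℕ in atTop, (k : ℝ) / 4 ≤ (((Finset.range k).filter (fun j : ℕ => GoodLvl Γ D ξ j)).card : ℝ) := by
  obtain ⟨n', W', C, ρ, hst, hdec⟩ := exists_decay h hL W hν
  have hρ0 : 0 < ρ := hdec.2.1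
  have hρ1 : ρ < 1 := hdec.2.2.1
  obtain ⟨K, hK⟩ := exists_pow_lt_of_lt_one (show (0 : ℝ) < 1 / 16 by norm_num) hρ1
  have hK0 : K ≠ 0 := by
    rintro rfl
    norm_num at hK
  have hKpos : (0 : ℝ) < K := by exact_mod_cast Nat.pos_of_ne_zero hK0
  obtain ⟨Q, hQ1, hQ⟩ := step_bound h W'
  obtain ⟨D, hD⟩ := chain Q K hQ1 hKpos
  obtain ⟨C', hC'0, htail⟩ := tail_prob h W' C ρ hdec
  have := hν.prob
  refine ⟨D, ?_⟩
  have hmB : ∀ k, MeasurableSet (freqB Γ D k) := freq_measB h D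
  -- the measure of the bad sets tends to zero
  have hlim : ∀ ε : ℝ, 0 < ε → ∀ᶠ k : ℕ in atTop, ν.real (freqB Γ D k) ≤ 2 * ε := by
    intro ε hε
    obtain ⟨δ, hδ, hfar⟩ := far_small h hL W hν ε hε
    have t1 : Tendsto (fun k : ℕ => C' * (1 / 2 : ℝ) ^ k) atTop (𝓝 0) := by
      have := (tendsto_pow_atTop_nhds_zero_of_lt_one (by norm_num : (0 : ℝ) ≤ 1 / 2) (by norm_num)).const_mul C'
      simpa using this
    have t2 : Tendsto (fun k : ℕ => (1 / 4 : ℝ) ^ k) atTop (𝓝 0) :=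
      tendsto_pow_atTop_nhds_zero_of_lt_one (by norm_num) (by norm_num)
    filter_upwards [t1.eventually (gt_mem_nhds hε), t2.eventually (gt_mem_nhds hδ), eventually_ge_atTop 8] with k hk1 hk2 hk8
    have hu : ∀ x, hm ν x (freqB Γ D k) = avg W' (fun x => hm ν x (freqB Γ D k)) x := fun x =>
      hm_avg h W' hst x _ (hmB k)
    have h1 := word_avg W' (fun x => hm ν x (freqB Γ D k)) hu (K * k) 1
    have h0 : hm ν (1 : Γ) (freqB Γ D k) = ν.real (freqB Γ D k) := by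
      unfold hm
      congr 1
      ext z
      simp
    have hη : (0 : ℝ) < (1 / 8) ^ k := by positivity
    have h2 := htail (K * k) ((1 / 8) ^ k) hη (pow_le_one₀ (by norm_num) (by norm_num))
    have h3 : C' / (1 / 8) ^ k * ρ ^ (K * k) ≤ C' * (1 / 2) ^ k := by
      rw [div_mul_eq_mul_div, div_le_iff₀ hη, mul_assoc, ← mul_pow, pow_mul]
      refine mul_le_mul_of_nonneg_left ?_ hC'0.le
      exact pow_le_pow_left₀ (pow_nonneg hρ0.le _) (by linarith) k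
    have h4 : ∀ w : Fin (K * k) → Fin n', wp W' w * hm ν (1 * wg W' w) (freqB Γ D k) ≤
        (if (1 / 8) ^ k ≤ 1 - ‖wg W' w • (0 : ℂ)‖ ^ 2 then wp W' w else 0) + ε * wp W' w := by
      intro w
      have hwp := (wp_pos W' w).le
      rw [one_mul]
      by_cases hc : (1 / 8) ^ k ≤ 1 - ‖wg W' w • (0 : ℂ)‖ ^ 2
      · rw [if_pos hc]
        have h5 := hm_le_one W' hst (wg W' w) (freqB Γ D k)
        have h6 : wp W' w * hm ν (wg W' w) (freqB Γ D k) ≤ wp W' w * 1 := mul_le_mul_of_nonneg_left h5 hwp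
        have h7 : 0 ≤ ε * wp W' w := mul_nonneg hε.le hwp
        linarith
      · rw [if_neg hc, zero_add, mul_comm]
        refine mul_le_mul_of_nonneg_right ?_ hwp
        refine hfar (wg W' w) _ ((1 / 2) ^ k) (by positivity) ?_ ?_
        · have h5 : (1 / 8 : ℝ) ^ k = (1 / 4) ^ k * (1 / 2) ^ k := by
            rw [← mul_pow]
            norm_num
          have h6 : (1 / 4 : ℝ) ^ k * (1 / 2) ^ k ≤ δ * (1 / 2) ^ k :=
            mul_le_mul_of_nonneg_right hk2.le (by positivity)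
          linarith [not_le.1 hc]
        · intro ξ hξ _
          exact freq_word h W' Q (fun x i => (hQ x i).2.2.2.2) K D hD k hk8 w ξ hξ
    have h5 : ∑ w : Fin (K * k) → Fin n', ε * wp W' w = ε := by
      rw [← Finset.mul_sum, sum_wp, mul_one]
    have h6 := Finset.sum_le_sum fun w (_ : w ∈ (Finset.univ : Finset (Fin (K * k) → Fin n'))) => h4 w
    rw [Finset.sum_add_distrib, h5] at h6
    have h7 : ν.real (freqB Γ D k) ≤ C' * (1 / 2) ^ k + ε := by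
      rw [← h0]
      calc hm ν (1 : Γ) (freqB Γ D k) = ∑ w : Fin (K * k) → Fin n', wp W' w * hm ν (1 * wg W' w) (freqB Γ D k) := h1
        _ ≤ _ := h6
        _ ≤ C' * (1 / 2) ^ k + ε := by
          have : (∑ w : Fin (K * k) → Fin n', if (1 / 8) ^ k ≤ 1 - ‖wg W' w • (0 : ℂ)‖ ^ 2 then wp W' w else 0) ≤ C' * (1 / 2) ^ k :=
            le_trans h2 h3
          linarith
    linarith
  -- the exceptional set is a null set
  have hnull : ∀ k₀ : ℕ, ν (⋂ k ≥ k₀, freqB Γ D k) = 0 := by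
    intro k₀
    have h1 : ν.real (⋂ k ≥ k₀, freqB Γ D k) ≤ 0 := by
      refine le_of_forall_pos_le_add fun ε hε => ?_
      obtain ⟨k, hk, hk2⟩ := ((hlim (ε / 2) (by positivity)).and (eventually_ge_atTop k₀)).exists
      have h2 : ν.real (⋂ k ≥ k₀, freqB Γ D k) ≤ ν.real (freqB Γ D k) :=
        measureReal_mono (Set.iInter₂_subset k hk2)
      linarith
    have h2 : ν.real (⋂ k ≥ k₀, freqB Γ D k) = 0 := le_antisymm h1 measureReal_nonneg
    exact (measureReal_eq_zero_iff (measure_ne_top _ _)).1 h2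
  have hsub : ν ((sphere (0 : ℂ) 1)ᶜ ∪ ⋃ k₀ : ℕ, ⋂ k ≥ k₀, freqB Γ D k) = 0 :=
    measure_union_null hν.supp (measure_iUnion_null hnull)
  refine measure_mono_null (fun ξ hξ => ?_) hsub
  by_contra hcon
  rw [Set.mem_union, not_or] at hcon
  obtain ⟨hc1, hc2⟩ := hcon
  have hξ1 : ‖ξ‖ = 1 := by simpa using hc1
  apply hξ
  refine ⟨hξ1, ?_⟩
  rw [frequently_atTop]
  intro k₀
  by_contra hcc
  push Not at hcc
  apply hc2
  rw [Set.mem_iUnion]
  refine ⟨k₀, ?_⟩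
  rw [Set.mem_iInter₂]
  intro k hk
  exact ⟨hξ1, hcc k hk⟩

end Pool.Agent.DD
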