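import Pool.Agent.Lib_MP_644907_full.Words
import Pool.Agent.Lib_MP_644907_full.Count

/-!
# Piece FREQ1: almost every point has many good levels
-/

set_option autoImplicit false

namespace Pool.Agent.DD

open MeasureTheory Filter Topology Metric

variable {Γ : Type} [Group Γ] [MulAction Γ ℂ] {ι : Type} [Fintype ι] {ν : Measure ℂ}

/-- level `j` is good for `ξ` -/
def GoodLvl (Γ : Type) [Group Γ] [MulAction Γ ℂ] (D : ℝ) (ξ : ℂ) (j : ℕ) : Prop :=
  ∃ γ : Γ, qd (γ • (0 : ℂ)) ((1 - (1 / 2) ^ j : ℝ) * ξ) ≤ D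

/-- countable union of closed sets (in the variable `ξ`; `qd` is continuous on the closed set where the second argument lies in the open disk, i.e. on the circle; intersect with the circle) -/
theorem meas_goodLvl (h : Fuchs Γ) (D : ℝ) (j : ℕ) : MeasurableSet {ξ : ℂ | ‖ξ‖ = 1 ∧ GoodLvl Γ D ξ j} := by
  have hc : Countable Γ := h.countable
  have e1 : {ξ : ℂ | ‖ξ‖ = 1 ∧ GoodLvl Γ D ξ j} =
      {ξ : ℂ | ‖ξ‖ = 1} ∩ ⋃ γ : Γ, {ξ : ℂ | qd (γ • (0 : ℂ)) ((1 - (1 / 2) ^ j : ℝ) * ξ) ≤ D} := by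
    ext ξ
    simp only [Set.mem_ofPred_eq, Set.mem_inter_iff, Set.mem_iUnion, GoodLvl]
  rw [e1]
  refine (measurableSet_eq_fun (by fun_prop) (by fun_prop)).inter (MeasurableSet.iUnion fun γ => ?_)
  refine measurableSet_le ?_ measurable_const
  unfold qd
  fun_prop

/-- the probability to be in a compact part of the disk after `k` steps: `count_ball`, `tail_finset` -/
theorem tail_prob (h : Fuchs Γ) (W : PreWalk Γ ι) (C ρ : ℝ) (hd : Decay W C ρ) : ∃ C' : ℝ, 0 < C' ∧ ∀ (k : ℕ) (η : ℝ), 0 < η → η ≤ 1 →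
    (open Classical in ∑ w : Fin k → ι, (if η ≤ 1 - ‖wg W w • (0 : ℂ)‖ ^ 2 then wp W w else 0)) ≤ C' / η * ρ ^ k := by
  classical
  obtain ⟨C0, hC0, hcount⟩ := count_ball h
  refine ⟨C0 * C, mul_pos hC0 hd.1, fun k η hη hη1 => ?_⟩
  set S : Finset Γ := (Finset.univ.image fun w : Fin k → ι => wg W w).filter
    (fun γ => η ≤ 1 - ‖γ • (0 : ℂ)‖ ^ 2) with hS
  have h1 : ∀ w : Fin k → ι, (if η ≤ 1 - ‖wg W w • (0 : ℂ)‖ ^ 2 then wp W w else 0) =
      if wg W w ∈ S then wp W w else 0 := by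
    intro w
    have : wg W w ∈ S ↔ η ≤ 1 - ‖wg W w • (0 : ℂ)‖ ^ 2 := by
      rw [hS, Finset.mem_filter]
      exact ⟨fun h => h.2, fun h => ⟨Finset.mem_image_of_mem _ (Finset.mem_univ w), h⟩⟩
    simp only [this]
  have h2 : (S.card : ℝ) ≤ C0 / η := hcount η S hη hη1 fun γ hγ => by
    rw [hS, Finset.mem_filter] at hγ
    exact hγ.2
  have h3 := tail_finset W C ρ hd k S
  calc (∑ w : Fin k → ι, (if η ≤ 1 - ‖wg W w • (0 : ℂ)‖ ^ 2 then wp W w else 0))
      = ∑ w : Fin k → ι, (if wg W w ∈ S then wp W w else 0) := by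
        refine Finset.sum_congr rfl fun w _ => ?_
        exact h1 w
    _ ≤ S.card * (C * ρ ^ k) := by
        refine le_trans (le_of_eq ?_) h3
        refine Finset.sum_congr rfl fun w _ => ?_
        split_ifs <;> rfl
    _ ≤ C0 / η * (C * ρ ^ k) := by
        have := hd.1
        have := hd.2.1
        exact mul_le_mul_of_nonneg_right h2 (by positivity)
    _ = C0 * C / η * ρ ^ k := by ring

end Pool.Agent.DD
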