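import Pool.Agent.Lib_MP_644907_full.HellA
import Pool.Agent.Lib_MP_644907_full.Freq
import Pool.Agent.Lib_MP_644907_full.LimFull

/-!
# Piece FREQB: frequency of good arcs
-/

set_option autoImplicit false

namespace Pool.Agent.DD

open MeasureTheory Filter Topology Metric

variable {Γ : Type} [Group Γ] [MulAction Γ ℂ] {ι : Type} [Fintype ι] {ν : Measure ℂ}

/-- a good level has a good arc in one of the two grids -/
theorem freqB_arc (D : ℝ) (ξ : ℂ) (hξ : ξ ∈ Lim Γ) (l : ℕ) (hl : GoodLvl Γ D ξ l) :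
    GoodArc Γ D (bas 0 l ξ) l ∨ GoodArc Γ D (bas (1 / 3) l ξ) l := by
  have h1 : ‖ξ‖ = 1 := by simpa using hξ.2
  obtain ⟨σ, hσ, t, ht, h2, h3⟩ := middle l ξ h1
  obtain ⟨γ, hγ⟩ := hl
  have hg : GoodArc Γ D (bas σ l ξ) l := ⟨t, γ, h2, h3, by rw [ht]; exact hξ, by rw [ht]; exact hγ⟩
  rcases hσ with rfl | rfl
  · exact Or.inl hg
  · exact Or.inr hg

open Classical in
/-- Deterministic part. Let `ξ ∈ Lim Γ` with infinitely many `L` such that at least `L / 4` levels `l < L` are good for `ξ`. For a good level `l` one of the arcs `dya 0 l ξ`, `dya (1/3) l ξ` is good (`middle`). Pigeonhole over `σ ∈ {0, 1/3}` and the residue `r` of `l` mod `q`: for infinitely many `L` the same `(σ, r)` has at least `L / (8 q)` levels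
`l = r + q i < L` with `GoodArc (bas σ l ξ) l`. Let `k` be the largest such `i`; then `NGood k + 1 ≥ L / (8 q)` and `L > q k`, so `NGood k ≥ k / 8 - 1`; and `k ≥ L / (8 q) - 1 → ∞`. -/
theorem freq_det (D : ℝ) (q : ℕ) (hq : 0 < q) (ξ : ℂ) (hξ : ξ ∈ Lim Γ)
    (hf : ∃ᶠ L : ℕ in atTop, (L : ℝ) / 4 ≤ (((Finset.range L).filter (fun j : ℕ => GoodLvl Γ D ξ j)).card : ℝ)) :
    ∃ σ : ℝ, (σ = 0 ∨ σ = 1 / 3) ∧ ∃ r < q, ∃ᶠ k : ℕ in atTop, GoodArc Γ D (bas σ (r + q * k) ξ) (r + q * k) ∧ (k : ℝ) / 8 - 1 ≤ NGood Γ D σ r q k ξ := by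
  by_contra hcon
  push Not at hcon
  have hev : ∀ σ : ℝ, (σ = 0 ∨ σ = 1 / 3) → ∀ᶠ k : ℕ in atTop, ∀ r ∈ Finset.range q,
      ¬ (GoodArc Γ D (bas σ (r + q * k) ξ) (r + q * k) ∧ (k : ℝ) / 8 - 1 ≤ NGood Γ D σ r q k ξ) := by
    intro σ hσ
    rw [Filter.eventually_all_finset]
    intro r hr
    filter_upwards [hcon σ hσ r (Finset.mem_range.1 hr)] with k hk
    rintro ⟨h1, h2⟩
    linarith [hk h1]
  obtain ⟨K0, hK0⟩ := Filter.eventually_atTop.1 ((hev 0 (Or.inl rfl)).and (hev (1 / 3) (Or.inr rfl)))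
  obtain ⟨L, hL1, hL2⟩ := (hf.and_eventually (eventually_ge_atTop (8 * q * (K0 + 2)))).exists
  have hq' : (0 : ℝ) < q := by exact_mod_cast hq
  have hL2' : 8 * (q : ℝ) * (K0 + 2) ≤ L := by exact_mod_cast hL2
  set T : ℝ → ℕ → Finset ℕ := fun σ r =>
    (Finset.range L).filter (fun i => r + q * i < L ∧ GoodArc Γ D (bas σ (r + q * i) ξ) (r + q * i)) with hT
  -- the main step: no family is large
  have hsmall : ∀ σ : ℝ, (σ = 0 ∨ σ = 1 / 3) → ∀ r ∈ Finset.range q, ((T σ r).card : ℝ) < L / (8 * q) := by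
    intro σ hσ r hr
    by_contra hbig
    have hbig' := not_lt.1 hbig
    have hLq : (K0 : ℝ) + 2 ≤ L / (8 * q) := by
      rw [le_div_iff₀ (by positivity)]
      linarith
    have hne : (T σ r).Nonempty := by
      rw [← Finset.card_pos]
      have : (0 : ℝ) < (T σ r).card := by
        have h3 : (0 : ℝ) ≤ K0 := Nat.cast_nonneg _
        linarith
      exact_mod_cast this
    set k := (T σ r).max' hne with hk
    have hkT : k ∈ T σ r := Finset.max'_mem _ _
    have hkT' := (Finset.mem_filter.1 hkT).2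
    have hsub : T σ r ⊆ insert k ((Finset.range k).filter (fun i => GoodArc Γ D (bas σ (r + q * i) ξ) (r + q * i))) := by
      intro i hi
      have hik : i ≤ k := Finset.le_max' _ _ hi
      rw [Finset.mem_insert, Finset.mem_filter, Finset.mem_range]
      rcases hik.lt_or_eq with h4 | h4
      · exact Or.inr ⟨h4, ((Finset.mem_filter.1 hi).2).2⟩
      · exact Or.inl h4
    have hc1 : (T σ r).card ≤ NGood Γ D σ r q k ξ + 1 :=
      (Finset.card_le_card hsub).trans (Finset.card_insert_le _ _)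
    have hN : NGood Γ D σ r q k ξ ≤ k := by
      unfold NGood
      refine (Finset.card_filter_le _ _).trans ?_
      rw [Finset.card_range]
    have hc1' : ((T σ r).card : ℝ) ≤ NGood Γ D σ r q k ξ + 1 := by exact_mod_cast hc1
    have hN' : (NGood Γ D σ r q k ξ : ℝ) ≤ k := by exact_mod_cast hN
    have hkK : K0 ≤ k := by
      have : (K0 : ℝ) ≤ k := by linarith
      exact_mod_cast this
    have hkL : (q : ℝ) * k ≤ L := by
      have h4 : q * k ≤ L := by
        have := hkT'.1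
        omega
      exact_mod_cast h4
    have hk8 : (k : ℝ) / 8 ≤ L / (8 * q) := by
      rw [div_le_div_iff₀ (by norm_num) (by positivity)]
      nlinarith
    have hfin : (k : ℝ) / 8 - 1 ≤ NGood Γ D σ r q k ξ := by linarith
    have hKK := hK0 k hkK
    rcases hσ with hσ0 | hσ1
    · apply hKK.1 r hr
      rw [← hσ0]
      exact ⟨hkT'.2, hfin⟩
    · apply hKK.2 r hr
      rw [← hσ1]
      exact ⟨hkT'.2, hfin⟩
  -- covering
  have hcov : (Finset.range L).filter (fun j : ℕ => GoodLvl Γ D ξ j) ⊆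
      ((Finset.range q).biUnion fun r => (T 0 r).image fun i => r + q * i) ∪
        ((Finset.range q).biUnion fun r => (T (1 / 3) r).image fun i => r + q * i) := by
    intro l hl
    rw [Finset.mem_filter, Finset.mem_range] at hl
    have hdm : l % q + q * (l / q) = l := Nat.mod_add_div l q
    have hlq : l / q < L := (Nat.div_le_self l q).trans_lt hl.1
    have hmq : l % q ∈ Finset.range q := Finset.mem_range.2 (Nat.mod_lt _ hq)
    rw [Finset.mem_union, Finset.mem_biUnion, Finset.mem_biUnion]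
    rcases freqB_arc D ξ hξ l hl.2 with hg | hg
    · left
      refine ⟨l % q, hmq, Finset.mem_image.2 ⟨l / q, ?_, hdm⟩⟩
      rw [hT]
      dsimp only
      rw [Finset.mem_filter, Finset.mem_range, hdm]
      exact ⟨hlq, hl.1, hg⟩
    · right
      refine ⟨l % q, hmq, Finset.mem_image.2 ⟨l / q, ?_, hdm⟩⟩
      rw [hT]
      dsimp only
      rw [Finset.mem_filter, Finset.mem_range, hdm]
      exact ⟨hlq, hl.1, hg⟩
  have hcard : (((Finset.range L).filter (fun j : ℕ => GoodLvl Γ D ξ j)).card : ℝ) ≤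
      ∑ r ∈ Finset.range q, ((T 0 r).card : ℝ) + ∑ r ∈ Finset.range q, ((T (1 / 3) r).card : ℝ) := by
    have h1 := (Finset.card_le_card hcov).trans (Finset.card_union_le _ _)
    have h2 : ∀ σ : ℝ, ((Finset.range q).biUnion fun r => (T σ r).image fun i => r + q * i).card ≤
        ∑ r ∈ Finset.range q, (T σ r).card := fun σ =>
      Finset.card_biUnion_le.trans (Finset.sum_le_sum fun r _ => Finset.card_image_le)
    have h3 := h1.trans (Nat.add_le_add (h2 0) (h2 (1 / 3)))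
    exact_mod_cast h3
  have hne : (Finset.range q).Nonempty := Finset.nonempty_range_iff.2 hq.ne'
  have hs0 : ∑ r ∈ Finset.range q, ((T 0 r).card : ℝ) < ∑ r ∈ Finset.range q, (L : ℝ) / (8 * q) :=
    Finset.sum_lt_sum_of_nonempty hne (hsmall 0 (Or.inl rfl))
  have hs1 : ∑ r ∈ Finset.range q, ((T (1 / 3) r).card : ℝ) < ∑ r ∈ Finset.range q, (L : ℝ) / (8 * q) :=
    Finset.sum_lt_sum_of_nonempty hne (hsmall (1 / 3) (Or.inr rfl))
  rw [Finset.sum_const, Finset.card_range, nsmul_eq_mul] at hs0 hs1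
  have hq8 : (q : ℝ) * (L / (8 * q)) = L / 8 := by field_simp
  rw [hq8] at hs0 hs1
  linarith

/-- `freq`, `lim_full`, `freq_det` -/
theorem freq_ae (h : Fuchs Γ) (hL : (Lim Γ).Infinite) (W : Walk Γ ι) (hν : Stat W.toPreWalk ν) : ∃ D : ℝ, ∀ q : ℕ, 0 < q → ∀ᵐ ξ ∂ν,
    ‖ξ‖ = 1 ∧ ∃ σ : ℝ, (σ = 0 ∨ σ = 1 / 3) ∧ ∃ r < q, ∃ᶠ k : ℕ in atTop, GoodArc Γ D (bas σ (r + q * k) ξ) (r + q * k) ∧ (k : ℝ) / 8 - 1 ≤ NGood Γ D σ r q k ξ := by
  obtain ⟨D, hD⟩ := freq h hL W hν
  refine ⟨D, fun q hq => ?_⟩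
  have hlim : ∀ᵐ ξ ∂ν, ξ ∈ Lim Γ := by
    rw [ae_iff]
    exact lim_full h hL W hν
  filter_upwards [hD, hlim] with ξ h1 h2
  exact ⟨h1.1, freq_det D q hq ξ h2 h1.2⟩

end Pool.Agent.DD
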