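import Pool.Agent.Lib_MP_644907_full.Entr

/-!
# Piece GATE2: a gate has only finitely many entrance points
-/

set_option autoImplicit false

namespace Pool.Agent.DD

open MeasureTheory Filter Topology Metric

variable {Γ : Type} [Group Γ] [MulAction Γ ℂ] {ι : Type} [Fintype ι]

private theorem gate2_core {κ C d s p p' : ℝ} (hC : 0 < C) (hd : 0 < d) (hs : 0 < s) (hp : 0 ≤ p)
    (h1 : κ * s ≤ p ^ 2) (h2 : d / 2 ≤ p') (h3 : p * p' ≤ C * s) : κ * d ^ 2 / (4 * C ^ 2) ≤ s := by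
  have h4 : p * (d / 2) ≤ C * s := (mul_le_mul_of_nonneg_left h2 hp).trans h3
  have h5 : p * d ≤ 2 * C * s := by linarith
  have h6 : (p * d) ^ 2 ≤ (2 * C * s) ^ 2 := pow_le_pow_left₀ (mul_nonneg hp hd.le) h5 2
  have h7 : κ * s * d ^ 2 ≤ p ^ 2 * d ^ 2 := mul_le_mul_of_nonneg_right h1 (by positivity)
  have h8 : (κ * d ^ 2) * s ≤ (4 * C ^ 2 * s) * s := by
    calc (κ * d ^ 2) * s = κ * s * d ^ 2 := by ring
      _ ≤ p ^ 2 * d ^ 2 := h7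
      _ = (p * d) ^ 2 := by ring
      _ ≤ (2 * C * s) ^ 2 := h6
      _ = (4 * C ^ 2 * s) * s := by ring
  have h9 : κ * d ^ 2 ≤ 4 * C ^ 2 * s := le_of_mul_le_mul_right h8 hs
  rw [div_le_iff₀ (by positivity)]
  linarith

/-- Let `a, a', C` be from `entr` (for the ball `ball b t`), `d = |a - a'| > 0`, and let `κ` be the smaller one of the constants of `Horo` for `a` and `a'`. Let `z = x 0` be an entrance point, `|z - a| |z - a'| ≤ C (1 - |z|²)`. One of `|z - a|, |z - a'|` is `≥ d / 2`, say `|z - a'| ≥ d / 2`; then `|z - a| ≤ (2 C / d) (1 - |z|²)`, and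
`κ (1 - |z|²) ≤ |z - a|² ≤ (2 C / d)² (1 - |z|²)²`, so `1 - |z|² ≥ κ (d / (2 C))²`. `Fuchs.finite_one_sub`. -/
theorem gate_finite (h : Fuchs Γ) (W : PreWalk Γ ι) (b : ℂ) (hb : ‖b‖ = 1) (t : ℝ) (ht : 0 < t) (ht1 : t ≤ 1)
    (hg : ∀ z : ℂ, ‖z‖ = 1 → ‖z - b‖ = t → Horo Γ z) :
    {x : Γ | ‖x • (0 : ℂ) - b‖ < t ∧ ∃ (y : Γ) (i : ι), t ≤ ‖y • (0 : ℂ) - b‖ ∧ x = y * W.g i}.Finite := by
  obtain ⟨C, hC, hentr⟩ := entr h W
  obtain ⟨a, a', ha, ha', hne, hat, hat', -, hstep⟩ := hentr b t hb ht ht1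
  obtain ⟨κ, hκ, H⟩ := hg a ha hat
  obtain ⟨κ', hκ', H'⟩ := hg a' ha' hat'
  have hd : 0 < ‖a - a'‖ := norm_pos_iff.2 (sub_ne_zero.2 hne)
  have hm : 0 < min κ κ' := lt_min hκ hκ'
  refine (h.finite_one_sub (min κ κ' * ‖a - a'‖ ^ 2 / (4 * C ^ 2)) (by positivity)).subset ?_
  rintro x ⟨hx, y, i, hy, rfl⟩
  have h1 := hstep y i hy hx
  have hlt := h.norm0 (y * W.g i)
  have hs : 0 < 1 - ‖(y * W.g i) • (0 : ℂ)‖ ^ 2 := by
    have := pow_lt_one₀ (norm_nonneg ((y * W.g i) • (0 : ℂ))) hlt two_ne_zero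
    linarith
  have h2 : min κ κ' * (1 - ‖(y * W.g i) • (0 : ℂ)‖ ^ 2) ≤ ‖(y * W.g i) • (0 : ℂ) - a‖ ^ 2 :=
    (mul_le_mul_of_nonneg_right (min_le_left _ _) hs.le).trans (H (y * W.g i))
  have h2' : min κ κ' * (1 - ‖(y * W.g i) • (0 : ℂ)‖ ^ 2) ≤ ‖(y * W.g i) • (0 : ℂ) - a'‖ ^ 2 :=
    (mul_le_mul_of_nonneg_right (min_le_right _ _) hs.le).trans (H' (y * W.g i))
  have h3 : ‖a - a'‖ ≤ ‖(y * W.g i) • (0 : ℂ) - a‖ + ‖(y * W.g i) • (0 : ℂ) - a'‖ := by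
    have := norm_sub_le_norm_sub_add_norm_sub a ((y * W.g i) • (0 : ℂ)) a'
    rwa [norm_sub_rev a ((y * W.g i) • (0 : ℂ))] at this
  change min κ κ' * ‖a - a'‖ ^ 2 / (4 * C ^ 2) ≤ 1 - ‖(y * W.g i) • (0 : ℂ)‖ ^ 2
  rcases le_total (‖a - a'‖ / 2) ‖(y * W.g i) • (0 : ℂ) - a'‖ with h4 | h4
  · exact gate2_core hC hd hs (norm_nonneg _) h2 h4 h1
  · have h5 : ‖a - a'‖ / 2 ≤ ‖(y * W.g i) • (0 : ℂ) - a‖ := by linarith
    exact gate2_core hC hd hs (norm_nonneg _) h2' h5 ((mul_comm _ _).trans_le h1)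

end Pool.Agent.DD
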