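import Pool.Agent.Lib_MP_644907_full.Gate1
import Pool.Agent.Lib_MP_644907_full.Gate2
import Pool.Agent.Lib_MP_644907_full.FE
import Pool.Agent.Lib_MP_644907_full.NoAtom

/-!
# Piece GATE: the gate relation
-/

set_option autoImplicit false

namespace Pool.Agent.DD

open MeasureTheory Filter Topology Metric

variable {Γ : Type} [Group Γ] [MulAction Γ ℂ] {ι : Type} [Fintype ι] {ν : Measure ℂ}

/-- for `x` with `|x 0 - β| ≥ t` and `ξ ∈ ball β t'` we have `|ξ - x 0| ≥ t - t'`; `far_small` with `ρ = t - t'`, `A = ball β t'`; `Fuchs.finite_one_sub` -/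
theorem gate_vanish (h : Fuchs Γ) (hL : (Lim Γ).Infinite) (W : Walk Γ ι) (hν : Stat W.toPreWalk ν) (β : ℂ) (t t' : ℝ) (htt : t' < t)
    (ε : ℝ) (hε : 0 < ε) : {x : Γ | x ∉ {x : Γ | ‖x • (0 : ℂ) - β‖ < t} ∧ ε < hm ν x (ball β t')}.Finite := by
  obtain ⟨δ, hδ, hfar⟩ := far_small h hL W hν ε hε
  have hρ : 0 < t - t' := sub_pos.2 htt
  refine (h.finite_one_sub (δ * (t - t')) (mul_pos hδ hρ)).subset ?_
  rintro x ⟨hx1, hx2⟩
  show δ * (t - t') ≤ 1 - ‖x • (0 : ℂ)‖ ^ 2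
  by_contra hcon
  rw [not_le] at hcon
  have hx3 : t ≤ ‖x • (0 : ℂ) - β‖ := not_lt.1 hx1
  have h1 := hfar x (ball β t') (t - t') hρ hcon.le ?_
  · linarith
  · intro ξ hξ _
    rw [mem_ball, dist_eq_norm] at hξ
    have h2 : ‖x • (0 : ℂ) - β‖ ≤ ‖ξ - x • (0 : ℂ)‖ + ‖ξ - β‖ := by
      have h3 : x • (0 : ℂ) - β = (ξ - β) - (ξ - x • (0 : ℂ)) := by ring
      rw [h3]
      have := norm_sub_le (ξ - β) (ξ - x • (0 : ℂ))
      linarith
    linarith

/-- the gate relation: `E` = the finite set of `gate_finite`; `fe_eq` for `K = {x | |x 0 - β| < t}` and `u = hm ν · A ≤ hm ν · (ball β t')` (`hm_avg`, `gate_vanish`, `Fuchs.infinite`) -/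
theorem gate_rel (h : Fuchs Γ) (hL : (Lim Γ).Infinite) (W : Walk Γ ι) (hν : Stat W.toPreWalk ν) (β b₀ : ℂ) (t t' : ℝ) (hG : GateD Γ β b₀ t t') :
    ∃ E : Finset Γ, (∀ y ∈ E, ‖y • (0 : ℂ) - β‖ < t) ∧
      ∀ (x : Γ) (A : Set ℂ), t ≤ ‖x • (0 : ℂ) - β‖ → MeasurableSet A → A ⊆ ball β t' →
        hm ν x A = ∑ y ∈ E, hit W.toPreWalk {x : Γ | ‖x • (0 : ℂ) - β‖ < t} y x * hm ν y A := by
  have hfin := gate_finite h W.toPreWalk β hG.hβ t (hG.pos.trans hG.lt) hG.le_one hG.horo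
  have hinf : Infinite Γ := h.infinite hL.nonempty
  refine ⟨hfin.toFinset, ?_, ?_⟩
  · intro y hy
    rw [Set.Finite.mem_toFinset] at hy
    exact hy.1
  · intro x A hx hA hAs
    refine fe_eq W {x : Γ | ‖x • (0 : ℂ) - β‖ < t} hfin.toFinset ?_ (fun x => hm ν x A) (fun x => hm_nonneg ν x A) ?_ ?_ ?_ x ?_
    · intro z hz
      rw [Set.Finite.mem_toFinset] at hz
      exact hz.1
    · intro x
      exact hm_avg h W.toPreWalk hν x A hA
    · intro ε hε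
      refine (gate_vanish h hL W hν β t t' hG.lt ε hε).subset ?_
      rintro y ⟨hy1, hy2⟩
      exact ⟨hy1, lt_of_lt_of_le hy2 (hm_mono W.toPreWalk hν y hAs)⟩
    · rintro z hz ⟨y, hy, i, hi⟩
      rw [Set.Finite.mem_toFinset]
      exact ⟨hz, y, i, not_lt.1 hy, hi⟩
    · exact not_lt.2 hx

/-- each term is at most the left side (`hit_mul_le` for the harmonic function `hm ν · A`) -/
theorem gate_le (h : Fuchs Γ) (W : PreWalk Γ ι) (hν : Stat W ν) (K : Set Γ) (y : Γ) (hy : y ∈ K) (x : Γ) (A : Set ℂ) (hA : MeasurableSet A) :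
    hit W K y x * hm ν y A ≤ hm ν x A :=
  hit_mul_le W K y hy (fun x => hm ν x A) (fun x => hm_nonneg ν x A) (fun x _ => (hm_avg h W hν x A hA).ge) x

end Pool.Agent.DD
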