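import Pool.Agent.Lib_MP_644907_full.Geo

/-!
# Piece LAM0: the parametrisation `e` of the circle
-/

set_option autoImplicit false

namespace Pool.Agent.DD

open MeasureTheory Filter Topology Metric

theorem norm_e (t : ℝ) : ‖e t‖ = 1 := by
  have h : e t = Complex.exp ((2 * Real.pi * t : ℝ) * Complex.I) := by
    unfold e
    push_cast
    ring_nf
  rw [h, Complex.norm_exp_ofReal_mul_I]

theorem cont_e : Continuous e := by
  unfold e
  fun_prop

theorem e_add_int (t : ℝ) (k : ℤ) : e (t + k) = e t := by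
  unfold e
  have h : (2 * Real.pi * ((t + k : ℝ) : ℂ) * Complex.I : ℂ) = 2 * Real.pi * t * Complex.I + k * (2 * Real.pi * Complex.I) := by
    push_cast
    ring
  rw [h, Complex.exp_periodic.int_mul k]

private theorem e_eq_iff (s t : ℝ) : e s = e t ↔ ∃ n : ℤ, s = t + n := by
  unfold e
  rw [Complex.exp_eq_exp_iff_exists_int]
  have hpi : (2 * Real.pi * Complex.I : ℂ) ≠ 0 := by
    simp [Real.pi_ne_zero, Complex.I_ne_zero]
  constructor
  · rintro ⟨n, hn⟩
    refine ⟨n, ?_⟩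
    have h1 : (2 * Real.pi * Complex.I : ℂ) * s = (2 * Real.pi * Complex.I) * (t + n) := by
      linear_combination hn
    have h2 := mul_left_cancel₀ hpi h1
    exact_mod_cast h2
  · rintro ⟨n, hn⟩
    refine ⟨n, ?_⟩
    rw [hn]
    push_cast
    ring

/-- every point of the circle is `e t`, `t ∈ [0, 1)` (`Complex.arg`) -/
theorem exists_e (z : ℂ) (hz : ‖z‖ = 1) (a : ℝ) : ∃ t ∈ Set.Ico a (a + 1), e t = z := by
  set t₀ : ℝ := Complex.arg z / (2 * Real.pi) with ht₀
  have h0 : e t₀ = z := by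
    have h1 : (2 * Real.pi * (t₀ : ℂ) * Complex.I : ℂ) = (Complex.arg z : ℂ) * Complex.I := by
      rw [ht₀]
      push_cast
      have : (Real.pi : ℂ) ≠ 0 := by exact_mod_cast Real.pi_ne_zero
      field_simp
    unfold e
    rw [h1]
    have h2 := Complex.norm_mul_exp_arg_mul_I z
    rw [hz] at h2
    simpa using h2
  refine ⟨t₀ - ⌊t₀ - a⌋, ⟨?_, ?_⟩, ?_⟩
  · have := Int.floor_le (t₀ - a)
    linarith
  · have := Int.lt_floor_add_one (t₀ - a)
    linarith
  · have := e_add_int t₀ (-⌊t₀ - a⌋)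
    push_cast at this
    rw [← h0, ← this]
    rfl

theorem e_inj {a s t : ℝ} (hs : s ∈ Set.Ico a (a + 1)) (ht : t ∈ Set.Ico a (a + 1)) (h : e s = e t) : s = t := by
  obtain ⟨n, hn⟩ := (e_eq_iff s t).1 h
  have h1 : (n : ℝ) < 1 := by linarith [hs.2, ht.1]
  have h2 : (-1 : ℝ) < n := by linarith [hs.1, ht.2]
  have h3 : n < 1 := by exact_mod_cast h1
  have h4 : -1 < n := by exact_mod_cast h2
  have h5 : n = 0 := by omega
  rw [hn, h5]
  simp

private theorem dist_e (s t : ℝ) : ‖e s - e t‖ = 2 * |Real.sin (Real.pi * (s - t))| := by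
  have h1 : e s - e t = e t * (Complex.exp (Complex.I * (2 * (Real.pi * (s - t)) : ℝ)) - 1) := by
    unfold e
    rw [mul_sub, mul_one, ← Complex.exp_add]
    congr 2
    push_cast
    ring
  rw [h1, norm_mul, norm_e, one_mul]
  have h2 := Complex.norm_exp_I_mul_ofReal_sub_one (x := 2 * (Real.pi * (s - t)))
  rw [h2]
  rw [show 2 * (Real.pi * (s - t)) / 2 = Real.pi * (s - t) by ring]
  rw [norm_mul, Real.norm_eq_abs, Real.norm_eq_abs, abs_of_pos (by norm_num : (0:ℝ) < 2)]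

/-- `|e s - e t| = 2 |sin (π (s - t))| ≤ 2 π |s - t|` -/
theorem dist_e_le (s t : ℝ) : ‖e s - e t‖ ≤ 2 * Real.pi * |s - t| := by
  rw [dist_e]
  have h1 : |Real.sin (Real.pi * (s - t))| ≤ |Real.pi * (s - t)| := Real.abs_sin_le_abs
  rw [abs_mul, abs_of_pos Real.pi_pos] at h1
  linarith

/-- `|e s - e t| = 2 |sin (π (s - t))| ≥ 4 |s - t|` for `|s - t| ≤ 1 / 2` -/
theorem le_dist_e (s t : ℝ) (h : |s - t| ≤ 1 / 2) : 4 * |s - t| ≤ ‖e s - e t‖ := by
  rw [dist_e]
  have hx : |Real.pi * (s - t)| ≤ Real.pi / 2 := by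
    rw [abs_mul, abs_of_pos Real.pi_pos]
    have := mul_le_mul_of_nonneg_left h Real.pi_pos.le
    linarith
  have h1 := Real.mul_abs_le_abs_sin hx
  rw [abs_mul, abs_of_pos Real.pi_pos] at h1
  have h2 : 2 / Real.pi * (Real.pi * |s - t|) = 2 * |s - t| := by
    have := Real.pi_ne_zero
    field_simp
  rw [h2] at h1
  linarith

theorem meas_arc (a b : ℝ) (hab : b ≤ a + 1) : MeasurableSet (arc a b) := by
  unfold arc
  refine measurableSet_Ico.image_of_continuousOn_injOn cont_e.continuousOn ?_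
  intro s hs t ht hst
  exact e_inj (a := a) ⟨hs.1, lt_of_lt_of_le hs.2 hab⟩ ⟨ht.1, lt_of_lt_of_le ht.2 hab⟩ hst

end Pool.Agent.DD
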