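import Pool.Agent.Lib_MP_644907_full.Horo
import Pool.Agent.Lib_MP_644907_full.Minimal2
import Pool.Agent.Lib_MP_644907_full.Lam0

/-!
# Piece GATE1: small gates exist near every point of the limit set
-/

set_option autoImplicit false

namespace Pool.Agent.DD

open MeasureTheory Filter Topology Metric

variable {Γ : Type} [Group Γ] [MulAction Γ ℂ]

private theorem gate1_dist (s t : ℝ) : ‖e s - e t‖ = 2 * |Real.sin (Real.pi * (s - t))| := by
  have h1 : e s - e t = e t * (Complex.exp (Complex.I * ((2 * Real.pi * (s - t) : ℝ) : ℂ)) - 1) := by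
    unfold e
    rw [mul_sub, ← Complex.exp_add, mul_one]
    congr 2
    push_cast
    ring
  rw [h1, norm_mul, norm_e, one_mul, Complex.norm_exp_I_mul_ofReal_sub_one, norm_mul, Real.norm_eq_abs,
    Real.norm_eq_abs, abs_of_pos (by norm_num : (0 : ℝ) < 2)]
  congr 3
  ring

private theorem gate1_dist' (s t : ℝ) (h : |s - t| ≤ 1 / 2) : ‖e s - e t‖ = 2 * Real.sin (Real.pi * |s - t|) := by
  rw [gate1_dist]
  have hpi := Real.pi_pos
  rcases le_total 0 (s - t) with h0 | h0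
  · rw [abs_of_nonneg h0] at h ⊢
    rw [abs_of_nonneg]
    apply Real.sin_nonneg_of_nonneg_of_le_pi
    · positivity
    · nlinarith
  · rw [abs_of_nonpos h0] at h ⊢
    rw [mul_neg, Real.sin_neg, abs_of_nonpos]
    have h2 : Real.pi * (s - t) = - (Real.pi * (-(s - t))) := by ring
    rw [h2, Real.sin_neg, neg_nonpos]
    apply Real.sin_nonneg_of_nonneg_of_le_pi
    · exact mul_nonneg hpi.le (by linarith)
    · nlinarith

private theorem gate1_sin_lt {x y : ℝ} (hx : 0 ≤ x) (hxy : x < y) (hy : y ≤ 1 / 2) :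
    Real.sin (Real.pi * x) < Real.sin (Real.pi * y) := by
  have hpi := Real.pi_pos
  apply Real.sin_lt_sin_of_lt_of_le_pi_div_two
  · have : 0 ≤ Real.pi * x := mul_nonneg hpi.le hx
    linarith
  · nlinarith
  · exact mul_lt_mul_of_pos_left hxy hpi

private theorem gate1_triple (S : Set ℂ) (hS : S.Infinite) (hS1 : ∀ z ∈ S, ‖z‖ = 1) (a : ℝ) :
    ∃ u₁ u₂ u₃ : ℝ, u₁ < u₂ ∧ u₂ < u₃ ∧ u₁ ∈ Set.Ico a (a + 1) ∧ u₂ ∈ Set.Ico a (a + 1) ∧ u₃ ∈ Set.Ico a (a + 1) ∧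
      e u₁ ∈ S ∧ e u₂ ∈ S ∧ e u₃ ∈ S := by
  have hT : ({u : ℝ | u ∈ Set.Ico a (a + 1) ∧ e u ∈ S}).Infinite := by
    intro hf
    apply hS
    refine (hf.image e).subset ?_
    intro z hz
    obtain ⟨t, ht, rfl⟩ := exists_e z (hS1 z hz) a
    exact ⟨t, ⟨ht, hz⟩, rfl⟩
  obtain ⟨F, hF, hc⟩ := hT.exists_subset_card_eq 3
  refine ⟨F.orderEmbOfFin hc 0, F.orderEmbOfFin hc 1, F.orderEmbOfFin hc 2, ?_, ?_, ?_⟩
  · exact (F.orderEmbOfFin hc).strictMono (by decide)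
  · exact (F.orderEmbOfFin hc).strictMono (by decide)
  · have h0 := hF (Finset.mem_coe.2 (F.orderEmbOfFin_mem hc 0))
    have h1 := hF (Finset.mem_coe.2 (F.orderEmbOfFin_mem hc 1))
    have h2 := hF (Finset.mem_coe.2 (F.orderEmbOfFin_mem hc 2))
    exact ⟨h0.1, h1.1, h2.1, h0.2, h1.2, h2.2⟩

/-- a `Horo` point `e v` with `v` close to `u` -/
private theorem gate1_near (h : Fuchs Γ) (hL : (Lim Γ).Infinite) (hc : ¬ Cocpt Γ) (u : ℝ) (hu : e u ∈ Lim Γ) (η : ℝ)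
    (hη : 0 < η) : ∃ v : ℝ, |v - u| < η ∧ Horo Γ (e v) := by
  obtain ⟨ξ, hξ, hd, hh⟩ := horo_dense h hL hc (e u) hu (4 * η) (by positivity)
  obtain ⟨v, hv, rfl⟩ := exists_e ξ hξ (u - 1 / 2)
  refine ⟨v, ?_, hh⟩
  have h1 : |v - u| ≤ 1 / 2 := by
    rw [abs_le]
    constructor
    · linarith [hv.1]
    · linarith [hv.2]
  have h2 := le_dist_e v u h1
  linarith

/-- Write points of the circle as `e u`, `|e u - e v| = 2 |sin (π (u - v))|` (see `Lam1`). Let `b = e u₀`. By `perfect` there are three different points of `Lim Γ` in `ball b δ` (`δ` small), `e u₁, e u₂, e u₃` with `|u_i - u₀| ≤ δ`, and we can assume `u₁ < u₂ < u₃`. Let `η = min (u₂ - u₁) (u₃ - u₂) / 2`. By `horo_dense` there are `v₁, v₃` with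
`|v₁ - u₁| < η`, `|v₃ - u₃| < η` and `Horo Γ (e v₁)`, `Horo Γ (e v₃)`; so `v₁ < u₂ < v₃`. Put `β = e ((v₁ + v₃) / 2)`, `t = |e v₁ - β| = |e v₃ - β| = 2 sin (π (v₃ - v₁) / 2)`, `b₀ = e u₂`: `|b₀ - β| < t` as `|u₂ - (v₁ + v₃) / 2| < (v₃ - v₁) / 2`; take `t'` between. The points of the circle at distance `t` from `β` are
`e v₁` and `e v₃` only (a point `e (((v₁ + v₃) / 2) + w)` with `|w| ≤ 1/2` and `sin (π |w|) = sin (π (v₃ - v₁) / 2)`; both angles are in `[0, π/2]`). `‖β - b‖ + t < r` for `δ` small. -/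
theorem exists_gate (h : Fuchs Γ) (hL : (Lim Γ).Infinite) (hc : ¬ Cocpt Γ) (b : ℂ) (hb : b ∈ Lim Γ) (r : ℝ) (hr : 0 < r) :
    ∃ (β b₀ : ℂ) (t t' : ℝ), GateD Γ β b₀ t t' ∧ ‖β - b‖ + t < r := by
  have hpi := Real.pi_pos
  have hpi4 := Real.pi_lt_four
  have hnorm : ∀ z ∈ Lim Γ, ‖z‖ = 1 := fun z hz => mem_sphere_zero_iff_norm.1 hz.2
  obtain ⟨u₀, -, rfl⟩ := exists_e b (hnorm b hb) 0
  obtain ⟨δ, hδ, hδ1, hδr⟩ : ∃ δ : ℝ, 0 < δ ∧ δ ≤ 1 / 10 ∧ δ ≤ r / 10 :=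
    ⟨min (1 / 10) (r / 10), by positivity, min_le_left _ _, min_le_right _ _⟩
  obtain ⟨u₁, u₂, u₃, h12, h23, I1, I2, I3, E1, E2, E3⟩ :=
    gate1_triple (Lim Γ ∩ ball (e u₀) δ) (perfect h hL (e u₀) hb δ hδ) (fun z hz => hnorm z hz.1) (u₀ - 1 / 2)
  have hclose : ∀ u : ℝ, u ∈ Set.Ico (u₀ - 1 / 2) (u₀ - 1 / 2 + 1) → e u ∈ ball (e u₀) δ → |u - u₀| < δ / 4 := by
    intro u hu hb
    have h1 : |u - u₀| ≤ 1 / 2 := by
      rw [abs_le]
      constructor
      · linarith [hu.1]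
      · linarith [hu.2]
    have h2 := le_dist_e u u₀ h1
    rw [mem_ball, dist_eq_norm] at hb
    linarith
  have C1 := abs_lt.1 (hclose u₁ I1 E1.2)
  have C2 := abs_lt.1 (hclose u₂ I2 E2.2)
  have C3 := abs_lt.1 (hclose u₃ I3 E3.2)
  obtain ⟨v₁, hv₁, H1⟩ := gate1_near h hL hc u₁ E1.1 ((u₂ - u₁) / 2) (by linarith)
  obtain ⟨v₃, hv₃, H3⟩ := gate1_near h hL hc u₃ E3.1 ((u₃ - u₂) / 2) (by linarith)
  have V1 := abs_lt.1 hv₁
  have V3 := abs_lt.1 hv₃
  obtain ⟨m, hm⟩ : ∃ m : ℝ, m = (v₁ + v₃) / 2 := ⟨_, rfl⟩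
  obtain ⟨w, hw⟩ : ∃ w : ℝ, w = (v₃ - v₁) / 2 := ⟨_, rfl⟩
  have hw0 : 0 < w := by rw [hw]; linarith [V1.1, V1.2, V3.1, V3.2]
  have hwδ : w < δ / 2 := by rw [hw]; linarith [V1.1, V1.2, V3.1, V3.2]
  have hmδ : |m - u₀| < δ / 2 := by
    rw [hm, abs_lt]
    constructor
    · linarith [V1.1, V1.2, V3.1, V3.2]
    · linarith [V1.1, V1.2, V3.1, V3.2]
  have hu2m : |u₂ - m| < w := by
    rw [hm, hw, abs_lt]
    constructor
    · linarith [V1.1, V1.2, V3.1, V3.2]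
    · linarith [V1.1, V1.2, V3.1, V3.2]
  have hd2 : ‖e u₂ - e m‖ = 2 * Real.sin (Real.pi * |u₂ - m|) := gate1_dist' u₂ m (by linarith)
  have hlt : ‖e u₂ - e m‖ < 2 * Real.sin (Real.pi * w) := by
    rw [hd2]
    have := gate1_sin_lt (abs_nonneg (u₂ - m)) hu2m (by linarith)
    linarith
  have htle : 2 * Real.sin (Real.pi * w) ≤ 2 * (Real.pi * w) := by
    have : Real.sin (Real.pi * w) ≤ Real.pi * w := Real.sin_le (by positivity)
    linarith
  have hpw : Real.pi * w ≤ 4 * w := mul_le_mul_of_nonneg_right hpi4.le hw0.le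
  have hpw' : Real.pi * w ≤ 4 * (δ / 2) := by linarith
  refine ⟨e m, e u₂, 2 * Real.sin (Real.pi * w), (‖e u₂ - e m‖ + 2 * Real.sin (Real.pi * w)) / 2, ?_, ?_⟩
  · refine ⟨norm_e m, ?_, ?_, ?_, E2.1, ?_, ?_⟩
    · linarith [norm_nonneg (e u₂ - e m)]
    · linarith
    · linarith
    · linarith
    · intro z hz hzt
      obtain ⟨v, hv, rfl⟩ := exists_e z hz (m - 1 / 2)
      have h1 : |v - m| ≤ 1 / 2 := by
        rw [abs_le]
        constructor
        · linarith [hv.1]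
        · linarith [hv.2]
      rw [gate1_dist' v m h1] at hzt
      have h2 : |v - m| = w := by
        rcases lt_trichotomy |v - m| w with h3 | h3 | h3
        · have := gate1_sin_lt (abs_nonneg (v - m)) h3 (by linarith)
          linarith
        · exact h3
        · have := gate1_sin_lt hw0.le h3 h1
          linarith
      rcases abs_eq hw0.le |>.1 h2 with h3 | h3
      · have : v = v₃ := by rw [hm, hw] at h3; linarith
        rw [this]; exact H3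
      · have : v = v₁ := by rw [hm, hw] at h3; linarith
        rw [this]; exact H1
  · have h1 := dist_e_le m u₀
    have h2 : 2 * Real.pi * |m - u₀| ≤ 2 * 4 * (δ / 2) := by
      apply mul_le_mul _ hmδ.le (abs_nonneg _) (by norm_num)
      linarith
    have h3 : ‖e m - e u₀‖ ≤ 4 * δ := by linarith
    have h4 : Real.pi * w < Real.pi * (δ / 2) := mul_lt_mul_of_pos_left hwδ hpi
    have h5 : Real.pi ≤ 3.15 := Real.pi_lt_d2.le
    have h6 : 2 * Real.pi * |m - u₀| ≤ 2 * 3.15 * (δ / 2) := by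
      apply mul_le_mul _ hmδ.le (abs_nonneg _) (by norm_num)
      linarith
    have h7 : Real.pi * (δ / 2) ≤ 3.15 * (δ / 2) := mul_le_mul_of_nonneg_right h5 (by positivity)
    linarith

end Pool.Agent.DD
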