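import Pool.Agent.Lib_MP_644907_full.GeoA

/-!
# Piece GEOB: elementary inequalities for `qd` and `pk`
-/

set_option autoImplicit false

namespace Pool.Agent.DD

theorem norm_one_sub_sphere {a ξ : ℂ} (hξ : ‖ξ‖ = 1) : ‖1 - starRingEnd ℂ a * ξ‖ = ‖ξ - a‖ := by
  have h1 := dist_sq a ξ
  rw [hξ] at h1
  have h2 : ‖a - ξ‖ ^ 2 = ‖1 - starRingEnd ℂ a * ξ‖ ^ 2 := by
    rw [h1]
    ring
  rw [← norm_sub_rev a ξ]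
  exact ((pow_left_inj₀ (norm_nonneg _) (norm_nonneg _) two_ne_zero).1 h2).symm

/-- `dist_sq` -/
theorem dist_le_one_sub {a z : ℂ} (ha : ‖a‖ ≤ 1) (hz : ‖z‖ ≤ 1) : ‖z - a‖ ≤ ‖1 - starRingEnd ℂ a * z‖ := by
  have h1 := dist_sq a z
  rw [norm_sub_rev]
  apply le_of_sq_le_sq _ (norm_nonneg _)
  have h2 : 0 ≤ (1 - ‖a‖ ^ 2) * (1 - ‖z‖ ^ 2) := by
    apply mul_nonneg
    · nlinarith [norm_nonneg a]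
    · nlinarith [norm_nonneg z]
  linarith

/-- `1 - |z|² ≤ 2 (1 - |z|) ≤ 2 |z - b|` -/
theorem one_sub_le_dist {b z : ℂ} (hb : ‖b‖ = 1) (hz : ‖z‖ ≤ 1) : 1 - ‖z‖ ^ 2 ≤ 2 * ‖z - b‖ := by
  have h1 : ‖b‖ - ‖z‖ ≤ ‖b - z‖ := norm_sub_norm_le b z
  rw [norm_sub_rev, hb] at h1
  nlinarith [norm_nonneg z]

theorem pk_pos {z ξ : ℂ} (hz : ‖z‖ < 1) (hξ : ‖ξ‖ = 1) : 0 < pk z ξ := by
  unfold pk
  have h1 : ‖ξ‖ - ‖z‖ ≤ ‖ξ - z‖ := norm_sub_norm_le ξ z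
  rw [hξ] at h1
  have h2 : 0 < ‖ξ - z‖ := by linarith
  have h3 : 0 < 1 - ‖z‖ ^ 2 := by nlinarith [norm_nonneg z]
  positivity

/-- `|ξ - z| ≤ 2` -/
theorem le_pk {z ξ : ℂ} (hz : ‖z‖ < 1) (hξ : ‖ξ‖ = 1) : (1 - ‖z‖ ^ 2) / 4 ≤ pk z ξ := by
  unfold pk
  have h1 : ‖ξ‖ - ‖z‖ ≤ ‖ξ - z‖ := norm_sub_norm_le ξ z
  rw [hξ] at h1
  have h2 : 0 < ‖ξ - z‖ := by linarith
  have h3 : 0 < 1 - ‖z‖ ^ 2 := by nlinarith [norm_nonneg z]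
  have h4 : ‖ξ - z‖ ≤ 2 := by
    refine (norm_sub_le _ _).trans ?_
    rw [hξ]
    linarith
  apply div_le_div_of_nonneg_left h3.le (by positivity)
  nlinarith

theorem pk_le {z ξ : ℂ} {ρ : ℝ} (hz : ‖z‖ < 1) (hρ : 0 < ρ) (h : ρ ≤ ‖ξ - z‖) : pk z ξ ≤ (1 - ‖z‖ ^ 2) / ρ ^ 2 := by
  unfold pk
  have h3 : 0 < 1 - ‖z‖ ^ 2 := by nlinarith [norm_nonneg z]
  apply div_le_div_of_nonneg_left h3.le (by positivity)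
  nlinarith

/-- `|ξ - z| ≥ 1 - |z| ≥ (1 - |z|²) / 2` -/
theorem pk_le' {z ξ : ℂ} (hz : ‖z‖ < 1) (hξ : ‖ξ‖ = 1) : pk z ξ ≤ 4 / (1 - ‖z‖ ^ 2) := by
  have h1 : ‖ξ‖ - ‖z‖ ≤ ‖ξ - z‖ := norm_sub_norm_le ξ z
  rw [hξ] at h1
  have h3 : 0 < 1 - ‖z‖ ^ 2 := by nlinarith [norm_nonneg z]
  have h4 : (1 - ‖z‖ ^ 2) / 2 ≤ ‖ξ - z‖ := by nlinarith [norm_nonneg z]
  refine (pk_le hz (by positivity) h4).trans (le_of_eq ?_)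
  field_simp
  norm_num

theorem pk_zero {ξ : ℂ} (hξ : ‖ξ‖ = 1) : pk 0 ξ = 1 := by
  unfold pk
  rw [sub_zero, hξ, norm_zero]
  norm_num

end Pool.Agent.DD
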