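import Pool.Agent.Lib_MP_644907_full.Base

/-!
# Piece GEOA: elementary inequalities for `qd` and `pk`
-/

set_option autoImplicit false

namespace Pool.Agent.DD

/-- `|z - w|² = |1 - conj z w|² - (1 - |z|²) (1 - |w|²)` -/
theorem dist_sq (z w : ℂ) : ‖z - w‖ ^ 2 = ‖1 - starRingEnd ℂ z * w‖ ^ 2 - (1 - ‖z‖ ^ 2) * (1 - ‖w‖ ^ 2) := by
  simp only [Complex.sq_norm, Complex.normSq_apply, Complex.sub_re, Complex.sub_im, Complex.one_re,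
    Complex.one_im, Complex.mul_re, Complex.mul_im, Complex.conj_re, Complex.conj_im]
  ring

theorem qd_comm (z w : ℂ) : qd z w = qd w z := by
  have h : ‖1 - starRingEnd ℂ z * w‖ ^ 2 = ‖1 - starRingEnd ℂ w * z‖ ^ 2 := by
    simp only [Complex.sq_norm, Complex.normSq_apply, Complex.sub_re, Complex.sub_im, Complex.one_re,
      Complex.one_im, Complex.mul_re, Complex.mul_im, Complex.conj_re, Complex.conj_im]
    ring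
  unfold qd
  rw [h, mul_comm (1 - ‖z‖ ^ 2)]

theorem qd_zero (z : ℂ) : qd 0 z = (1 - ‖z‖ ^ 2)⁻¹ := by
  simp [qd]

theorem geoA_pos {z : ℂ} (hz : ‖z‖ < 1) : 0 < 1 - ‖z‖ ^ 2 := by
  have h0 := norm_nonneg z
  nlinarith only [h0, hz]

/-- from `dist_sq` -/
theorem one_le_qd {z w : ℂ} (hz : ‖z‖ < 1) (hw : ‖w‖ < 1) : 1 ≤ qd z w := by
  have h1 := geoA_pos hz
  have h2 := geoA_pos hw
  have h := dist_sq z w
  have h3 := sq_nonneg ‖z - w‖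
  unfold qd
  rw [one_le_div (mul_pos h1 h2)]
  linarith only [h, h3]

theorem geoA_norm_le {z w : ℂ} (hz : ‖z‖ < 1) (hw : ‖w‖ < 1) : ‖z - w‖ ≤ ‖1 - starRingEnd ℂ z * w‖ := by
  have h := dist_sq z w
  have h3 := mul_pos (geoA_pos hz) (geoA_pos hw)
  apply le_of_sq_le_sq _ (norm_nonneg _)
  linarith only [h, h3]

/-- `(1 - conj x z) (1 - |y|²) = (1 - conj x y) (1 - conj y z) - (conj x - conj y) (z - y)` and `|x - y| ≤ |1 - conj x y|` (`dist_sq`),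
so `|1 - conj x z| (1 - |y|²) ≤ 2 |1 - conj x y| |1 - conj y z|` -/
theorem qd_tri {x y z : ℂ} (hx : ‖x‖ < 1) (hy : ‖y‖ < 1) (hz : ‖z‖ < 1) : qd x z ≤ 4 * qd x y * qd y z := by
  have px := geoA_pos hx
  have py := geoA_pos hy
  have pz := geoA_pos hz
  have hid : (1 - starRingEnd ℂ x * z) * ((1 - ‖y‖ ^ 2 : ℝ) : ℂ) =
      (1 - starRingEnd ℂ x * y) * (1 - starRingEnd ℂ y * z) - starRingEnd ℂ (x - y) * (z - y) := by
    have hy2 : ((‖y‖ ^ 2 : ℝ) : ℂ) = starRingEnd ℂ y * y := by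
      rw [Complex.sq_norm, Complex.normSq_eq_conj_mul_self]
    push_cast at hy2 ⊢
    rw [hy2, map_sub]
    ring
  have hn : ‖1 - starRingEnd ℂ x * z‖ * (1 - ‖y‖ ^ 2) ≤
      2 * (‖1 - starRingEnd ℂ x * y‖ * ‖1 - starRingEnd ℂ y * z‖) := by
    have e1 : ‖1 - starRingEnd ℂ x * z‖ * (1 - ‖y‖ ^ 2) =
        ‖(1 - starRingEnd ℂ x * z) * ((1 - ‖y‖ ^ 2 : ℝ) : ℂ)‖ := by
      rw [norm_mul, Complex.norm_real, Real.norm_of_nonneg py.le]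
    rw [e1, hid]
    have e2 : ‖starRingEnd ℂ (x - y) * (z - y)‖ ≤ ‖1 - starRingEnd ℂ x * y‖ * ‖1 - starRingEnd ℂ y * z‖ := by
      rw [norm_mul, RCLike.norm_conj, norm_sub_rev z y]
      exact mul_le_mul (geoA_norm_le hx hy) (geoA_norm_le hy hz) (norm_nonneg _) (norm_nonneg _)
    calc ‖(1 - starRingEnd ℂ x * y) * (1 - starRingEnd ℂ y * z) - starRingEnd ℂ (x - y) * (z - y)‖
        ≤ ‖(1 - starRingEnd ℂ x * y) * (1 - starRingEnd ℂ y * z)‖ + ‖starRingEnd ℂ (x - y) * (z - y)‖ :=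
          norm_sub_le _ _
      _ ≤ ‖1 - starRingEnd ℂ x * y‖ * ‖1 - starRingEnd ℂ y * z‖ +
          ‖1 - starRingEnd ℂ x * y‖ * ‖1 - starRingEnd ℂ y * z‖ := by
          rw [norm_mul]
          exact add_le_add le_rfl e2
      _ = 2 * (‖1 - starRingEnd ℂ x * y‖ * ‖1 - starRingEnd ℂ y * z‖) := by ring
  have hsq : (‖1 - starRingEnd ℂ x * z‖ * (1 - ‖y‖ ^ 2)) ^ 2 ≤
      (2 * (‖1 - starRingEnd ℂ x * y‖ * ‖1 - starRingEnd ℂ y * z‖)) ^ 2 :=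
    pow_le_pow_left₀ (mul_nonneg (norm_nonneg _) py.le) hn 2
  unfold qd
  have e3 : 4 * (‖1 - starRingEnd ℂ x * y‖ ^ 2 / ((1 - ‖x‖ ^ 2) * (1 - ‖y‖ ^ 2))) *
      (‖1 - starRingEnd ℂ y * z‖ ^ 2 / ((1 - ‖y‖ ^ 2) * (1 - ‖z‖ ^ 2))) =
      ((2 * (‖1 - starRingEnd ℂ x * y‖ * ‖1 - starRingEnd ℂ y * z‖)) ^ 2 / (1 - ‖y‖ ^ 2) ^ 2) /
        ((1 - ‖x‖ ^ 2) * (1 - ‖z‖ ^ 2)) := by
    field_simp
    ring
  rw [e3]
  apply div_le_div_of_nonneg_right _ (mul_pos px pz).le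
  rw [le_div_iff₀ (pow_pos py 2), ← mul_pow]
  exact hsq

/-- from `dist_sq` -/
theorem dist_le_qd {z w : ℂ} (hz : ‖z‖ < 1) (hw : ‖w‖ < 1) :
    ‖z - w‖ ^ 2 ≤ qd z w * ((1 - ‖z‖ ^ 2) * (1 - ‖w‖ ^ 2)) := by
  have h3 := mul_pos (geoA_pos hz) (geoA_pos hw)
  unfold qd
  rw [div_mul_cancel₀ _ h3.ne', dist_sq z w]
  linarith only [h3]

/-- `qd_tri` for `0, z, w` -/
theorem one_sub_le {z w : ℂ} (hz : ‖z‖ < 1) (hw : ‖w‖ < 1) : 1 - ‖z‖ ^ 2 ≤ 4 * qd z w * (1 - ‖w‖ ^ 2) := by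
  have pz := geoA_pos hz
  have pw := geoA_pos hw
  have h := qd_tri (x := 0) (y := z) (z := w) (by simp) hz hw
  rw [qd_zero, qd_zero] at h
  have h2 := mul_le_mul_of_nonneg_right h (mul_pos pz pw).le
  have e1 : (1 - ‖w‖ ^ 2)⁻¹ * ((1 - ‖z‖ ^ 2) * (1 - ‖w‖ ^ 2)) = 1 - ‖z‖ ^ 2 := by
    field_simp
  have e2 : 4 * (1 - ‖z‖ ^ 2)⁻¹ * qd z w * ((1 - ‖z‖ ^ 2) * (1 - ‖w‖ ^ 2)) = 4 * qd z w * (1 - ‖w‖ ^ 2) := by
    field_simp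
  rw [e1, e2] at h2
  exact h2

/-- from `dist_le_qd` and `one_sub_le` -/
theorem dist_le_qd' {z w : ℂ} (hz : ‖z‖ < 1) (hw : ‖w‖ < 1) : ‖z - w‖ ≤ 2 * qd z w * (1 - ‖w‖ ^ 2) := by
  have pw := geoA_pos hw
  have h1 := one_le_qd hz hw
  have h2 := dist_le_qd hz hw
  have h3 := one_sub_le hz hw
  have h0 : 0 ≤ qd z w := zero_le_one.trans h1
  apply le_of_sq_le_sq _ (mul_nonneg (mul_nonneg zero_le_two h0) pw.le)
  calc ‖z - w‖ ^ 2 ≤ qd z w * ((1 - ‖z‖ ^ 2) * (1 - ‖w‖ ^ 2)) := h2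
    _ ≤ qd z w * ((4 * qd z w * (1 - ‖w‖ ^ 2)) * (1 - ‖w‖ ^ 2)) :=
        mul_le_mul_of_nonneg_left (mul_le_mul_of_nonneg_right h3 pw.le) h0
    _ = (2 * qd z w * (1 - ‖w‖ ^ 2)) ^ 2 := by ring

end Pool.Agent.DD
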