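import Pool.Agent.Lib_MP_644907_full.Grp1
import Pool.Agent.Lib_MP_644907_full.Lam0

/-!
# Piece GOODG1: geometry of good arcs
-/

set_option autoImplicit false

namespace Pool.Agent.DD

open MeasureTheory Filter Topology Metric

variable {Γ : Type} [Group Γ] [MulAction Γ ℂ] {m : Measure ℂ} {s : ℝ}

theorem GOODG1_sq {a b : ℝ} (h : a ^ 2 ≤ b ^ 2) (hb : 0 ≤ b) : a ≤ b :=
  le_of_not_gt fun hlt => absurd (pow_lt_pow_left₀ hlt hb two_ne_zero) (not_lt.mpr h)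

/-- points outside the arc are far from a point in the middle: `ξ = e t`, `η = e u` with `|u - t| ≤ 1/2` (choose the lift); `u` is not in `[θ, θ + δ)`, so `|u - t| ≥ δ / 6`; `le_dist_e` -/
theorem arc_far (θ t : ℝ) (k : ℕ) (h1 : θ + (1 / 6) * (1 / 2) ^ k ≤ t) (h2 : t ≤ θ + (5 / 6) * (1 / 2) ^ k) (η : ℂ) (hη : ‖η‖ = 1)
    (ho : η ∉ arc θ (θ + (1 / 2) ^ k)) : (2 / 3) * (1 / 2) ^ k ≤ ‖η - e t‖ := by
  obtain ⟨u, hu, hue⟩ := exists_e η hη (t - 1 / 2)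
  obtain ⟨hu1, hu2⟩ := hu
  have h3 : |u - t| ≤ 1 / 2 := by
    rw [abs_le]
    constructor <;> linarith
  have h4 := le_dist_e u t h3
  rw [hue] at h4
  have h5 : (1 / 6 : ℝ) * (1 / 2) ^ k ≤ |u - t| := by
    rcases lt_or_ge u θ with h6 | h6
    · have h7 := neg_le_abs (u - t)
      linarith
    · rcases lt_or_ge u (θ + (1 / 2) ^ k) with h7 | h7
      · exact absurd ⟨u, ⟨h6, h7⟩, hue⟩ ho
      · have h8 := le_abs_self (u - t)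
        linarith
  linarith

/-- Let `δ = 2^(-k)`, `z = (1 - δ) e t`. If `k ≥ 1`: `|γ 0 - z| ≤ 2 D (1 - |z|²) ≤ 4 D δ` (`dist_le_qd'`), and `1 - |γ 0|²`, `1 - |z|² ∈ [δ, 2 δ]` are comparable (`one_sub_le`); if `k = 0`, `z = 0`, `qd (γ 0) 0 = 1 / (1 - |γ 0|²) ≤ D`. So `|e t - γ 0| ≤ C δ`, for `η` in the arc `|η - γ 0| ≤ C δ` (`dist_e_le`). Let `x = γ⁻¹`,
`x⁻¹ 0 = γ 0`. (1), (2): comparability. (3) `|x ξ - x 0| |ξ - γ 0| = 1 - |γ 0|²` (`Fuchs.dist_smul` with `w = 0`, `norm_one_sub_sphere`). (4) same for `η` in the arc. (5) `|x η - x ξ|² = pk (γ 0) η pk (γ 0) ξ |η - ξ|²` (`Fuchs.two_pt`), `pk (γ 0) ξ ≥ c / δ`, `pk (γ 0) η ≥ c δ / (|η - ξ| + C δ)² ≥ c' δ / |η - ξ|²` by `arc_far`.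
(6) `pk (γ 0) η ≤ 4 / (1 - |γ 0|²) ≤ C / δ` (`pk_le'`). -/
theorem good_geo (h : Fuchs Γ) (D : ℝ) : ∃ (ρ C : ℝ), 0 < ρ ∧ 1 ≤ C ∧ ∀ (θ t : ℝ) (k : ℕ) (γ : Γ),
    θ + (1 / 6) * (1 / 2) ^ k ≤ t → t ≤ θ + (5 / 6) * (1 / 2) ^ k → qd (γ • (0 : ℂ)) ((1 - (1 / 2) ^ k : ℝ) * e t) ≤ D →
    (1 / 2) ^ k ≤ C * (1 - ‖γ • (0 : ℂ)‖ ^ 2) ∧ 1 - ‖γ • (0 : ℂ)‖ ^ 2 ≤ C * (1 / 2) ^ k ∧
    4 * ρ ≤ ‖γ⁻¹ • e t - γ⁻¹ • (0 : ℂ)‖ ∧
    (∀ η ∈ arc θ (θ + (1 / 2) ^ k), ρ ≤ ‖γ⁻¹ • η - γ⁻¹ • (0 : ℂ)‖) ∧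
    (∀ η : ℂ, ‖η‖ = 1 → η ∉ arc θ (θ + (1 / 2) ^ k) → 4 * ρ ≤ ‖γ⁻¹ • η - γ⁻¹ • e t‖) ∧
    (∀ η η' : ℂ, ‖η‖ = 1 → ‖η'‖ = 1 → ‖γ⁻¹ • η - γ⁻¹ • η'‖ ≤ C * 2 ^ k * ‖η - η'‖) := by
  have hD'1 : 1 ≤ max D 1 := le_max_right _ _
  have hDD' : D ≤ max D 1 := le_max_left _ _
  generalize max D 1 = D' at hD'1 hDD'
  have hD'0 : 0 < D' := by linarith
  set C1 : ℝ := 4 * D' + 9 with hC1
  have hC10 : 0 < C1 := by positivity
  have hC11 : 1 ≤ C1 := by linarith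
  set ρ : ℝ := 1 / (16 * D' * C1 * (1 + 3 / 2 * C1)) with hρ
  have hρ0 : 0 < ρ := by positivity
  refine ⟨ρ, 16 * D', hρ0, by linarith, fun θ t k γ ht1 ht2 hq => ?_⟩
  set δ : ℝ := (1 / 2) ^ k with hδ
  have hδ0 : 0 < δ := by positivity
  have hδ1 : δ ≤ 1 := pow_le_one₀ (by norm_num) (by norm_num)
  set w : ℂ := γ • (0 : ℂ) with hw
  have hw1 : ‖w‖ < 1 := h.norm0 γ
  set v : ℝ := 1 - ‖w‖ ^ 2 with hv
  have hv0 : 0 < v := by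
    have h1 : ‖w‖ ^ 2 < 1 := pow_lt_one₀ (norm_nonneg w) hw1 two_ne_zero
    linarith only [h1, hv]
  have het : ‖e t‖ = 1 := norm_e t
  have hznorm : ‖((1 - δ : ℝ) : ℂ) * e t‖ = 1 - δ := by
    rw [norm_mul, het, mul_one, Complex.norm_real, Real.norm_eq_abs, abs_of_nonneg (by linarith)]
  have hz1 : ‖((1 - δ : ℝ) : ℂ) * e t‖ < 1 := by rw [hznorm]; linarith
  set z : ℂ := ((1 - δ : ℝ) : ℂ) * e t with hz
  have hδδ : δ ^ 2 ≤ δ := by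
    have := mul_nonneg hδ0.le (sub_nonneg.mpr hδ1)
    linarith only [this]
  have hu1 : δ ≤ 1 - ‖z‖ ^ 2 := by
    rw [hznorm]
    linarith only [hδδ]
  have hu2 : 1 - ‖z‖ ^ 2 ≤ 2 * δ := by
    rw [hznorm]
    linarith only [sq_nonneg δ]
  have hq' : qd w z ≤ D' := hq.trans hDD'
  have hq0 : 0 ≤ qd w z := zero_le_one.trans (one_le_qd hw1 hz1)
  have hvd : v ≤ 8 * D' * δ := by
    have h1 := one_sub_le hw1 hz1
    have h2 : 4 * qd w z * (1 - ‖z‖ ^ 2) ≤ 4 * D' * (2 * δ) :=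
      mul_le_mul (by linarith) hu2 (by linarith) (by linarith)
    linarith
  have hdv : δ ≤ 4 * D' * v := by
    have h1 := one_sub_le hz1 hw1
    rw [qd_comm] at h1
    have h2 : 4 * qd w z * (1 - ‖w‖ ^ 2) ≤ 4 * D' * (1 - ‖w‖ ^ 2) :=
      mul_le_mul_of_nonneg_right (by linarith) hv0.le
    linarith
  have hwz : ‖w - z‖ ≤ 4 * D' * δ := by
    have h1 := dist_le_qd' hw1 hz1
    have h2 : 2 * qd w z * (1 - ‖z‖ ^ 2) ≤ 2 * D' * (2 * δ) :=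
      mul_le_mul (by linarith) hu2 (by linarith) (by linarith)
    linarith
  have hzt : ‖z - e t‖ ≤ δ := by
    have h1 : z - e t = ((-δ : ℝ) : ℂ) * e t := by
      rw [hz]
      push_cast
      ring
    rw [h1, norm_mul, het, mul_one, Complex.norm_real, Real.norm_eq_abs, abs_neg,
      abs_of_pos hδ0]
  have hpi : 2 * Real.pi ≤ 8 := by linarith [Real.pi_le_four]
  have hwt : ‖e t - w‖ ≤ (4 * D' + 1) * δ := by
    have h1 : ‖w - e t‖ ≤ ‖w - z‖ + ‖z - e t‖ := norm_sub_le_norm_sub_add_norm_sub _ _ _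
    rw [norm_sub_rev]
    linarith
  have harc : ∀ η ∈ arc θ (θ + δ), ‖η‖ = 1 ∧ ‖η - w‖ ≤ C1 * δ := by
    rintro _ ⟨u, ⟨hu1, hu2⟩, rfl⟩
    refine ⟨norm_e u, ?_⟩
    have h1 : ‖e u - w‖ ≤ ‖e u - e t‖ + ‖e t - w‖ := norm_sub_le_norm_sub_add_norm_sub _ _ _
    have h2 := dist_e_le u t
    have h3 : |u - t| ≤ δ := by
      rw [abs_le]
      constructor <;> linarith
    have h4 : 2 * Real.pi * |u - t| ≤ 8 * δ :=
      mul_le_mul hpi h3 (abs_nonneg _) (by norm_num)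
    rw [hC1]
    linarith
  have hwtC : ‖e t - w‖ ≤ C1 * δ := by
    refine hwt.trans ?_
    have : (4 * D' + 1) * δ ≤ C1 * δ := mul_le_mul_of_nonneg_right (by linarith) hδ0.le
    exact this
  have hinv : (γ⁻¹)⁻¹ • (0 : ℂ) = w := by rw [inv_inv]
  have hpos : ∀ η : ℂ, ‖η‖ = 1 → 0 < ‖η - w‖ := by
    intro η hη
    rw [norm_pos_iff, sub_ne_zero]
    rintro rfl
    linarith
  have h3 : ∀ η : ℂ, ‖η‖ = 1 → ‖γ⁻¹ • η - γ⁻¹ • (0 : ℂ)‖ * ‖η - w‖ = v := by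
    intro η hη
    have h1 := h.dist_smul γ⁻¹ (z := η) (w := 0) hη.le (by simp)
    rw [hinv, norm_one_sub_sphere hη, h.norm_inv γ] at h1
    simp only [mul_zero, sub_zero, norm_one, mul_one, hη] at h1
    exact h1
  have h4 : ∀ η : ℂ, ‖η‖ = 1 → ‖η - w‖ ≤ C1 * δ →
      4 * ρ ≤ ‖γ⁻¹ • η - γ⁻¹ • (0 : ℂ)‖ := by
    intro η hη hηw
    have h5 := h3 η hη
    have h6 : ‖γ⁻¹ • η - γ⁻¹ • (0 : ℂ)‖ * (C1 * δ) ≥ v := by
      rw [← h5]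
      exact mul_le_mul_of_nonneg_left hηw (norm_nonneg _)
    have h7 : 4 * ρ * (C1 * δ) ≤ v := by
      have h8 : 4 * ρ * (C1 * δ) = δ / (4 * D' * (1 + 3 / 2 * C1)) := by
        rw [hρ]
        field_simp
        ring
      rw [h8, div_le_iff₀ (by positivity)]
      have h9 : 0 ≤ v * D' * C1 := mul_nonneg (mul_nonneg hv0.le hD'0.le) hC10.le
      linarith only [hdv, h9]
    exact le_of_mul_le_mul_right (h7.trans h6) (by positivity)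
  have hpk : ∀ η : ℂ, pk w η = v / ‖η - w‖ ^ 2 := fun η => rfl
  have htwo : ∀ η η' : ℂ, ‖η‖ = 1 → ‖η'‖ = 1 →
      ‖γ⁻¹ • η - γ⁻¹ • η'‖ ^ 2 = pk w η * pk w η' * ‖η - η'‖ ^ 2 := by
    intro η η' hη hη'
    have h1 := h.two_pt γ⁻¹ hη hη'
    rw [hinv] at h1
    exact h1
  refine ⟨?_, ?_, h4 _ het hwtC, ?_, ?_, ?_⟩
  · linarith only [hdv, mul_pos hD'0 hv0]
  · linarith only [hvd, mul_pos hD'0 hδ0]
  · intro η hη
    obtain ⟨h5, h6⟩ := harc η hη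
    have := h4 η h5 h6
    linarith
  · intro η hη ho
    have hfar := arc_far θ t k ht1 ht2 η hη ho
    have hft : (2 / 3) * δ ≤ ‖η - e t‖ := hfar
    set r : ℝ := ‖η - e t‖ with hr
    have hr0 : 0 < r := by
      have : 0 < 2 / 3 * δ := by positivity
      linarith
    have h5 : ‖η - w‖ ≤ r * (1 + 3 / 2 * C1) := by
      have h1 : ‖η - w‖ ≤ ‖η - e t‖ + ‖e t - w‖ := norm_sub_le_norm_sub_add_norm_sub _ _ _
      have h2 : C1 * δ ≤ C1 * (3 / 2 * r) := mul_le_mul_of_nonneg_left (by linarith) hC10.le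
      linarith
    have h6 : 1 / (4 * D' * C1 ^ 2 * δ) ≤ pk w (e t) := by
      rw [hpk, div_le_div_iff₀ (by positivity) (by have := hpos _ het; positivity)]
      have h7 : ‖e t - w‖ ^ 2 ≤ (C1 * δ) ^ 2 := pow_le_pow_left₀ (norm_nonneg _) hwtC 2
      have h9 : δ * (C1 ^ 2 * δ) ≤ (4 * D' * v) * (C1 ^ 2 * δ) :=
        mul_le_mul_of_nonneg_right hdv (by positivity)
      linarith only [h7, h9]
    have h7 : δ / (4 * D' * (1 + 3 / 2 * C1) ^ 2) ≤ pk w η * r ^ 2 := by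
      have hηw := hpos η hη
      have e1 : v / ‖η - w‖ ^ 2 * r ^ 2 = v * r ^ 2 / ‖η - w‖ ^ 2 := by ring
      rw [hpk, e1, div_le_div_iff₀ (by positivity) (by positivity)]
      have h8 : ‖η - w‖ ^ 2 ≤ (r * (1 + 3 / 2 * C1)) ^ 2 :=
        pow_le_pow_left₀ (norm_nonneg _) h5 2
      calc δ * ‖η - w‖ ^ 2 ≤ (4 * D' * v) * (r * (1 + 3 / 2 * C1)) ^ 2 :=
            mul_le_mul hdv h8 (by positivity) (by positivity)
        _ = v * r ^ 2 * (4 * D' * (1 + 3 / 2 * C1) ^ 2) := by ring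
    have h8 : (4 * ρ) ^ 2 ≤ ‖γ⁻¹ • η - γ⁻¹ • e t‖ ^ 2 := by
      rw [htwo η (e t) hη het]
      have h9 : (4 * ρ) ^ 2 = 1 / (4 * D' * C1 ^ 2 * δ) * (δ / (4 * D' * (1 + 3 / 2 * C1) ^ 2)) := by
        rw [hρ]
        field_simp
        ring
      rw [h9]
      have h10 : pk w η * pk w (e t) * ‖η - e t‖ ^ 2 = pk w (e t) * (pk w η * r ^ 2) := by
        rw [← hr]
        ring
      rw [h10]
      refine mul_le_mul h6 h7 (by positivity) ?_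
      exact (pk_pos hw1 het).le
    exact GOODG1_sq h8 (norm_nonneg _)
  · intro η η' hη hη'
    have h5 : ∀ ζ : ℂ, ‖ζ‖ = 1 → pk w ζ ≤ 16 * D' * 2 ^ k := by
      intro ζ hζ
      refine (pk_le' hw1 hζ).trans ?_
      rw [div_le_iff₀ hv0]
      have h6 : (2 : ℝ) ^ k * δ = 1 := by
        rw [hδ, ← mul_pow]
        norm_num
      have h7 : (2 : ℝ) ^ k * δ ≤ 2 ^ k * (4 * D' * v) :=
        mul_le_mul_of_nonneg_left hdv (by positivity)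
      linarith only [h6, h7]
    have h6 : ‖γ⁻¹ • η - γ⁻¹ • η'‖ ^ 2 ≤ (16 * D' * 2 ^ k * ‖η - η'‖) ^ 2 := by
      rw [htwo η η' hη hη', mul_pow]
      refine mul_le_mul_of_nonneg_right ?_ (sq_nonneg _)
      rw [sq]
      exact mul_le_mul (h5 η hη) (h5 η' hη') (pk_pos hw1 hη').le (by positivity)
    exact GOODG1_sq h6 (by positivity)

end Pool.Agent.DD
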