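import Pool.Agent.Lib_MP_644907_full.Grp1

/-!
# Piece GROUPT: from functions on the closed disk to a group
-/

set_option autoImplicit false

namespace Pool.Agent.DD

open MeasureTheory Filter Topology Metric

theorem groupt_iso_congr {f h : ℂ → ℂ} (hf : DimDrop.IsoD f) (e : ∀ z : ℂ, ‖z‖ ≤ 1 → h z = f z) :
    DimDrop.IsoD h := by
  obtain ⟨α, β, h1, h2 | h2⟩ := hf
  · exact ⟨α, β, h1, Or.inl fun z hz => (e z hz).trans (h2 z hz)⟩
  · exact ⟨α, β, h1, Or.inr fun z hz => (e z hz).trans (h2 z hz)⟩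

/-- an isometry which is the identity on the open disk is the identity on the closed disk -/
theorem groupt_id {f : ℂ → ℂ} (hf : DimDrop.IsoD f) (h : ∀ z : ℂ, ‖z‖ < 1 → f z = z) {z : ℂ} (hz : ‖z‖ ≤ 1) :
    f z = z := by
  have h1 : Set.EqOn f id (ball (0 : ℂ) 1) := fun w hw => h w (by simpa using hw)
  have h2 : Set.EqOn f id (closedBall (0 : ℂ) 1) :=
    h1.of_subset_closure (iso_cont f hf) continuousOn_id ball_subset_closedBall
      (by rw [closure_ball (0 : ℂ) one_ne_zero])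
  exact h2 (by simpa using hz)

/-- Every `f ∈ S` is `IsoD` (`DimDrop.isoD_of_form`, `DimDrop.IsoD.comp`, minimality of `S`), maps the closed disk to itself, and is bijective there: `h ∘ f = id` with `h ∈ S`, and `h` has a left inverse too. `Γ` = the subgroup of `Equiv.Perm ℂ` of the permutations which are the identity outside the closed disk and agree on the closed disk with some
`f ∈ S` (identity: `h ∘ f ∈ S`). `W.g i` = the permutation of `g i` (different `i` may give the same element). Semigroup generation: the set of the `f ∈ S` whose permutation lies in the subsemigroup generated by the `W.g i` contains the `g i` and is closed under composition. `disc`: `γ ↦` its restriction to the closed ball is injective.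
Compare `exists_rw` in `Pool/Agent/Lib_MP_644907/Group.lean`. The stationarity, the limit set and cocompactness only involve the values on the closed disk. -/
theorem exists_group (n : ℕ) (p : Fin n → ℝ) (g : Fin n → ℂ → ℂ) (hp : ∀ i, 0 < p i) (hp1 : ∑ i, p i = 1)
    (hg : ∀ i, ∃ u a : ℂ, ‖u‖ = 1 ∧ ‖a‖ < 1 ∧
      (g i = (fun z : ℂ => u * (z - a) / (1 - starRingEnd ℂ a * z)) ∨
       g i = (fun z : ℂ => u * (starRingEnd ℂ z - a) / (1 - starRingEnd ℂ a * starRingEnd ℂ z))))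
    (S : Set (ℂ → ℂ)) (hS : S = ⋂₀ {T : Set (ℂ → ℂ) | Set.range g ⊆ T ∧ ∀ f ∈ T, ∀ h ∈ T, f ∘ h ∈ T})
    (hinv : ∀ f ∈ S, ∃ h ∈ S, ∀ z : ℂ, ‖z‖ ≤ 1 → h (f z) = z)
    (hdisc : ∀ r : ℝ, r < 1 →
        ((fun f : ℂ → ℂ => (Metric.closedBall (0:ℂ) 1).restrict f) ''
          {f : ℂ → ℂ | f ∈ S ∧ ‖f 0‖ ≤ r}).Finite)
    (ν : Measure ℂ) (hν : IsProbabilityMeasure ν) (hνs : ν (sphere (0:ℂ) 1)ᶜ = 0)
    (hstat : ∀ A : Set ℂ, MeasurableSet A → ν A = ∑ i, ENNReal.ofReal (p i) * ν (g i ⁻¹' A)) :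
    ∃ (Γ : Type) (_ : Group Γ) (_ : MulAction Γ ℂ) (W : Walk Γ (Fin n)), Fuchs Γ ∧ Stat W.toPreWalk ν ∧
      Lim Γ = closure ((fun f : ℂ → ℂ => f 0) '' S) ∩ sphere (0:ℂ) 1 ∧
      (Cocpt Γ → ∃ r : ℝ, r < 1 ∧ ∀ z : ℂ, ‖z‖ < 1 → ∃ f ∈ S, ‖f z‖ ≤ r) := by
  classical
  -- induction over S
  have hind : ∀ Q : (ℂ → ℂ) → Prop, (∀ i, Q (g i)) → (∀ f h, Q f → Q h → Q (f ∘ h)) →
      ∀ f ∈ S, Q f := by
    intro Q h1 h2 f hf
    rw [hS] at hf
    exact hf {f | Q f} ⟨by rintro _ ⟨i, rfl⟩; exact h1 i, fun f hf h hh => h2 f h hf hh⟩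
  have hgS : ∀ i, g i ∈ S := by
    intro i
    rw [hS]
    rintro T ⟨h1, _⟩
    exact h1 ⟨i, rfl⟩
  have hcomp : ∀ f ∈ S, ∀ h ∈ S, f ∘ h ∈ S := by
    intro f hf h hh
    rw [hS] at hf hh ⊢
    intro T hT
    exact hT.2 f (hf T hT) h (hh T hT)
  have hiso : ∀ f ∈ S, DimDrop.IsoD f :=
    hind DimDrop.IsoD (fun i => DimDrop.isoD_of_form (g i) (hg i)) (fun f h hf hh => hf.comp hh)
  have hle : ∀ f ∈ S, ∀ z : ℂ, ‖z‖ ≤ 1 → ‖f z‖ ≤ 1 := fun f hf z hz => (hiso f hf).norm_le z hz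
  have hinv2 : ∀ f ∈ S, ∃ h ∈ S, (∀ z : ℂ, ‖z‖ ≤ 1 → h (f z) = z) ∧ (∀ z : ℂ, ‖z‖ ≤ 1 → f (h z) = z) := by
    intro f hf
    obtain ⟨h, hh, hfh⟩ := hinv f hf
    obtain ⟨k, hk, hhk⟩ := hinv h hh
    refine ⟨h, hh, hfh, fun z hz => ?_⟩
    have e1 : k (h z) = z := hhk z hz
    have e2 : k (h (f (h z))) = f (h z) := hhk (f (h z)) (hle f hf _ (hle h hh z hz))
    have e3 : h (f (h z)) = h z := hfh (h z) (hle h hh z hz)
    rw [← e2, e3, e1]
  have hne : ∃ f, f ∈ S := by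
    have : Nonempty (Fin n) := by
      by_contra hno
      rw [not_nonempty_iff] at hno
      rw [Finset.univ_eq_empty, Finset.sum_empty] at hp1
      exact zero_ne_one hp1
    obtain ⟨i⟩ := this
    exact ⟨g i, hgS i⟩
  let Γ : Subgroup (Equiv.Perm ℂ) :=
    { carrier := {σ | (∀ z : ℂ, 1 < ‖z‖ → σ z = z) ∧ ∃ f ∈ S, ∀ z : ℂ, ‖z‖ ≤ 1 → σ z = f z}
      mul_mem' := by
        rintro σ τ ⟨h1, f, hf, hσ⟩ ⟨h2, h, hh, hτ⟩
        refine ⟨fun z hz => ?_, f ∘ h, hcomp f hf h hh, fun z hz => ?_⟩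
        · rw [Equiv.Perm.mul_apply, h2 z hz, h1 z hz]
        · rw [Equiv.Perm.mul_apply, hτ z hz, hσ _ (hle h hh z hz)]
          rfl
      one_mem' := by
        obtain ⟨f, hf⟩ := hne
        obtain ⟨h, hh, h1, _⟩ := hinv2 f hf
        refine ⟨fun z _ => rfl, h ∘ f, hcomp h hh f hf, fun z hz => ?_⟩
        rw [Equiv.Perm.one_apply]
        exact (h1 z hz).symm
      inv_mem' := by
        rintro σ ⟨h0, f, hf, hσ⟩
        obtain ⟨h, hh, h1, h2⟩ := hinv2 f hf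
        refine ⟨fun z hz => ?_, h, hh, fun z hz => ?_⟩
        · rw [Equiv.Perm.inv_eq_iff_eq]
          exact (h0 z hz).symm
        · rw [Equiv.Perm.inv_eq_iff_eq, hσ _ (hle h hh z hz), h2 z hz] }
  have hout : ∀ (γ : Γ) (z : ℂ), 1 < ‖z‖ → γ • z = z := fun γ => γ.2.1
  have hΓ : ∀ γ : Γ, ∃ f ∈ S, ∀ z : ℂ, ‖z‖ ≤ 1 → γ • z = f z := fun γ => γ.2.2
  have hext : ∀ γ γ' : Γ, (∀ z : ℂ, ‖z‖ ≤ 1 → γ • z = γ' • z) → γ = γ' := by
    intro γ γ' h
    refine Subtype.ext (Equiv.ext fun z => ?_)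
    rcases le_or_gt ‖z‖ 1 with hz | hz
    · exact h z hz
    · exact (hout γ z hz).trans (hout γ' z hz).symm
  have key : ∀ f : S, ∃ γ : Γ, ∀ z : ℂ, ‖z‖ ≤ 1 → γ • z = f.1 z := by
    rintro ⟨f, hf⟩
    obtain ⟨h, hh, h1, h2⟩ := hinv2 f hf
    let σ : Equiv.Perm ℂ :=
      { toFun := fun z => if ‖z‖ ≤ 1 then f z else z
        invFun := fun z => if ‖z‖ ≤ 1 then h z else z
        left_inv := fun z => by
          by_cases hz : ‖z‖ ≤ 1
          · simp only [if_pos hz, if_pos (hle f hf z hz), h1 z hz]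
          · simp only [if_neg hz]
        right_inv := fun z => by
          by_cases hz : ‖z‖ ≤ 1
          · simp only [if_pos hz, if_pos (hle h hh z hz), h2 z hz]
          · simp only [if_neg hz] }
    exact ⟨⟨σ, fun z hz => if_neg (not_le.2 hz), f, hf, fun z hz => if_pos hz⟩, fun z hz => if_pos hz⟩
  choose el hel using key
  have hW : ∀ γ : Γ, γ ∈ Subsemigroup.closure (Set.range fun i => el ⟨g i, hgS i⟩) := by
    have h1 : ∀ f ∈ S, f ∈ S ∧ ∀ γ : Γ, (∀ z : ℂ, ‖z‖ ≤ 1 → γ • z = f z) →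
        γ ∈ Subsemigroup.closure (Set.range fun i => el ⟨g i, hgS i⟩) := by
      refine hind _ (fun i => ⟨hgS i, fun γ hγ => ?_⟩) ?_
      · have e1 : γ = el ⟨g i, hgS i⟩ := hext _ _ fun z hz => by rw [hγ z hz, hel ⟨g i, hgS i⟩ z hz]
        rw [e1]
        exact Subsemigroup.subset_closure ⟨i, rfl⟩
      · rintro f h ⟨hf, hf'⟩ ⟨hh, hh'⟩
        refine ⟨hcomp f hf h hh, fun γ hγ => ?_⟩
        have e1 : γ = el ⟨f, hf⟩ * el ⟨h, hh⟩ := by
          refine hext _ _ fun z hz => ?_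
          rw [hγ z hz, mul_smul, hel ⟨h, hh⟩ z hz, hel ⟨f, hf⟩ _ (hle h hh z hz)]
          rfl
        rw [e1]
        exact mul_mem (hf' _ (hel ⟨f, hf⟩)) (hh' _ (hel ⟨h, hh⟩))
    intro γ
    obtain ⟨f, hf, h⟩ := hΓ γ
    exact (h1 f hf).2 γ h
  let W : Walk Γ (Fin n) :=
    { p := p
      g := fun i => el ⟨g i, hgS i⟩
      pos := hp
      sum := hp1
      gen := hW }
  refine ⟨Γ, inferInstance, inferInstance, W, ?_, ?_, ?_, ?_⟩
  · refine ⟨fun γ => ?_, hout, fun γ h => ?_, fun r hr => ?_⟩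
    · obtain ⟨f, hf, h⟩ := hΓ γ
      exact groupt_iso_congr (hiso f hf) h
    · obtain ⟨f, hf, hγ⟩ := hΓ γ
      refine hext _ _ fun z hz => ?_
      rw [one_smul]
      exact groupt_id (groupt_iso_congr (hiso f hf) hγ) h hz
    · refine Set.Finite.of_injOn (f := fun γ : Γ => (Metric.closedBall (0:ℂ) 1).restrict (fun z : ℂ => γ • z))
        ?_ ?_ (hdisc r hr)
      · intro γ hγ
        obtain ⟨f, hf, h⟩ := hΓ γ
        refine ⟨f, ⟨hf, ?_⟩, ?_⟩
        · rw [← h 0 (by simp)]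
          exact hγ
        · funext z
          have hz : ‖(z : ℂ)‖ ≤ 1 := mem_closedBall_zero_iff.1 z.2
          exact (h z hz).symm
      · intro γ _ γ' _ h
        refine hext _ _ fun z hz => ?_
        exact congrFun h ⟨z, by simpa using hz⟩
  · refine ⟨hν, hνs, fun A hA => ?_⟩
    rw [hstat A hA]
    refine Finset.sum_congr rfl fun i _ => ?_
    congr 1
    apply measure_congr
    have hae : ∀ᵐ z ∂ν, z ∈ sphere (0:ℂ) 1 := hνs
    filter_upwards [hae] with z hz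
    have hz1 : ‖z‖ ≤ 1 := by
      have : ‖z‖ = 1 := by simpa using hz
      exact this.le
    show (g i z ∈ A) = (el ⟨g i, hgS i⟩ • z ∈ A)
    rw [hel ⟨g i, hgS i⟩ z hz1]
  · unfold Lim
    congr 2
    ext w
    constructor
    · rintro ⟨γ, rfl⟩
      obtain ⟨f, hf, h⟩ := hΓ γ
      exact ⟨f, hf, (h 0 (by simp)).symm⟩
    · rintro ⟨f, hf, rfl⟩
      exact ⟨el ⟨f, hf⟩, hel ⟨f, hf⟩ 0 (by simp)⟩
  · rintro ⟨R, hR, h⟩
    refine ⟨R, hR, fun z hz => ?_⟩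
    obtain ⟨γ, hγ⟩ := h z hz
    obtain ⟨f, hf, hf'⟩ := hΓ γ
    refine ⟨f, hf, ?_⟩
    rw [← hf' z hz.le]
    exact hγ

end Pool.Agent.DD
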