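import Pool.Agent.Lib_MP_644907_full.GrpA

/-!
# Piece GRPB: the formulas for the action of the group
-/

set_option autoImplicit false

namespace Pool.Agent.DD

open MeasureTheory Filter Topology Metric

variable {Γ : Type} [Group Γ] [MulAction Γ ℂ]

namespace Fuchs

theorem contOn (h : Fuchs Γ) (γ : Γ) : ContinuousOn (fun z : ℂ => γ • z) (closedBall 0 1) :=
  iso_cont _ (h.iso γ)

/-- continuous on the closed ball, the identity outside -/
theorem meas (h : Fuchs Γ) (γ : Γ) : Measurable (fun z : ℂ => γ • z) := by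
  refine measurable_of_restrict_of_restrict_compl (s := closedBall (0 : ℂ) 1) isClosed_closedBall.measurableSet ?_ ?_
  · exact (continuousOn_iff_continuous_domRestrict.1 (h.contOn γ)).measurable
  · have e : (closedBall (0 : ℂ) 1)ᶜ.domRestrict (fun z : ℂ => γ • z) = fun z : ((closedBall (0 : ℂ) 1)ᶜ : Set ℂ) => (z : ℂ) := by
      funext z
      have hz : 1 < ‖(z : ℂ)‖ := by
        have := z.2
        rw [Set.mem_compl_iff, mem_closedBall_zero_iff, not_le] at this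
        exact this
      exact h.out γ z hz
    rw [e]
    exact measurable_subtype_coe

theorem smul_mem_ball (h : Fuchs Γ) (γ : Γ) {z : ℂ} : ‖γ • z‖ < 1 ↔ ‖z‖ < 1 := by
  constructor
  · intro hz
    have h1 := h.norm_lt γ⁻¹ hz
    rwa [inv_smul_smul] at h1
  · exact fun hz => h.norm_lt γ hz

theorem smul_mem_sphere (h : Fuchs Γ) (γ : Γ) {z : ℂ} : ‖γ • z‖ = 1 ↔ ‖z‖ = 1 := by
  constructor
  · intro hz
    have h1 := h.norm_eq γ⁻¹ hz
    rwa [inv_smul_smul] at h1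
  · exact fun hz => h.norm_eq γ hz

/-- union of the finite sets `{γ | ‖γ • 0‖ ≤ 1 - 1 / (n + 1)}` -/
theorem countable (h : Fuchs Γ) : Countable Γ := by
  rw [← Set.countable_univ_iff]
  have h1 : (Set.univ : Set Γ) ⊆ ⋃ n : ℕ, {γ : Γ | ‖γ • (0 : ℂ)‖ ≤ 1 - 1 / ((n : ℝ) + 1)} := by
    intro γ _
    obtain ⟨n, hn⟩ := exists_nat_one_div_lt (sub_pos.2 (h.norm0 γ))
    rw [Set.mem_iUnion]
    exact ⟨n, by show ‖γ • (0 : ℂ)‖ ≤ 1 - 1 / ((n : ℝ) + 1); linarith⟩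
  refine Set.Countable.mono h1 (Set.countable_iUnion fun n => (h.disc _ ?_).countable)
  have : (0 : ℝ) < 1 / ((n : ℝ) + 1) := by positivity
  linarith

private theorem grpb_fin (h : Fuchs Γ) (ε : ℝ) (hε : 0 < ε) : {γ : Γ | ε ≤ 1 - ‖γ • (0 : ℂ)‖ ^ 2}.Finite := by
  refine (h.disc (1 - ε / 2) (by linarith)).subset fun γ hγ => ?_
  have h1 : ε ≤ 1 - ‖γ • (0 : ℂ)‖ ^ 2 := hγ
  show ‖γ • (0 : ℂ)‖ ≤ 1 - ε / 2
  nlinarith [sq_nonneg (‖γ • (0 : ℂ)‖ - 1)]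

/-- the set is contained in a finite set of `Fuchs.disc` (`qd_smul`, `qd_tri`, `qd_zero`) -/
theorem finite_qd (h : Fuchs Γ) {z w : ℂ} (hz : ‖z‖ < 1) (hw : ‖w‖ < 1) (Q : ℝ) : {γ : Γ | qd z (γ • w) ≤ Q}.Finite := by
  have h0 : ‖(0 : ℂ)‖ < 1 := by rw [norm_zero]; exact zero_lt_one
  have h0z := one_le_qd h0 hz
  have hw0 := one_le_qd hw h0
  refine (grpb_fin h (1 / (16 * qd 0 z * (|Q| + 1) * qd w 0)) (by positivity)).subset fun γ hγ => ?_
  have hγ' : qd z (γ • w) ≤ |Q| + 1 := by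
    have h1 : qd z (γ • w) ≤ Q := hγ
    have := le_abs_self Q
    linarith
  have hγw := h.norm_lt γ hw
  have hγ0 := h.norm0 γ
  have h1 := qd_tri h0 hγw hγ0
  have h2 := qd_tri h0 hz hγw
  have h3 := h.qd_smul γ hw h0
  have h4 : qd 0 (γ • (0 : ℂ)) ≤ 16 * qd 0 z * (|Q| + 1) * qd w 0 := by
    rw [h3] at h1
    have h5 : qd 0 (γ • w) ≤ 4 * qd 0 z * (|Q| + 1) :=
      h2.trans (mul_le_mul_of_nonneg_left hγ' (by linarith))
    calc qd 0 (γ • (0 : ℂ)) ≤ 4 * qd 0 (γ • w) * qd w 0 := h1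
      _ ≤ 4 * (4 * qd 0 z * (|Q| + 1)) * qd w 0 := by
          apply mul_le_mul_of_nonneg_right _ (by linarith)
          linarith
      _ = 16 * qd 0 z * (|Q| + 1) * qd w 0 := by ring
  rw [qd_zero] at h4
  have h5 : 0 < 1 - ‖γ • (0 : ℂ)‖ ^ 2 := by nlinarith [norm_nonneg (γ • (0 : ℂ))]
  show 1 / (16 * qd 0 z * (|Q| + 1) * qd w 0) ≤ 1 - ‖γ • (0 : ℂ)‖ ^ 2
  rw [one_div]
  exact inv_le_of_inv_le₀ h5 h4

/-- the limit set is nonempty, so the orbit accumulates at a point of the circle -/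
theorem infinite (h : Fuchs Γ) (hL : (Lim Γ).Nonempty) : Infinite Γ := by
  rw [← not_finite_iff_infinite]
  intro hf
  obtain ⟨a, ha1, ha2⟩ := hL
  rw [(Set.finite_range (fun γ : Γ => γ • (0 : ℂ))).isClosed.closure_eq] at ha1
  obtain ⟨γ, rfl⟩ := ha1
  have h1 := h.norm0 γ
  rw [mem_sphere_zero_iff_norm] at ha2
  exact absurd ha2 h1.ne

theorem lim_closed : IsClosed (Lim Γ) := isClosed_closure.inter isClosed_sphere

private theorem grpb_inv (h : Fuchs Γ) (γ : Γ) {z : ℂ} (hz : z ∈ Lim Γ) : γ • z ∈ Lim Γ := by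
  obtain ⟨h1, h2⟩ := hz
  have h2' : ‖z‖ = 1 := mem_sphere_zero_iff_norm.1 h2
  refine ⟨?_, mem_sphere_zero_iff_norm.2 (h.norm_eq γ h2')⟩
  have hsub : (Set.range fun γ : Γ => γ • (0 : ℂ)) ⊆ closedBall 0 1 := by
    rintro _ ⟨x, rfl⟩
    exact mem_closedBall_zero_iff.2 (h.norm0 x).le
  have hc : ContinuousWithinAt (fun z : ℂ => γ • z) (Set.range fun γ : Γ => γ • (0 : ℂ)) z :=
    ((h.contOn γ) z (mem_closedBall_zero_iff.2 h2'.le)).mono hsub
  have h3 := hc.mem_closure_image h1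
  refine closure_mono ?_ h3
  rintro _ ⟨_, ⟨x, rfl⟩, rfl⟩
  exact ⟨γ * x, mul_smul _ _ _⟩

/-- `γ` permutes the orbit and is continuous on the closed disk -/
theorem lim_inv (h : Fuchs Γ) (γ : Γ) {z : ℂ} : γ • z ∈ Lim Γ ↔ z ∈ Lim Γ := by
  constructor
  · intro hz
    have h1 := grpb_inv h γ⁻¹ hz
    rwa [inv_smul_smul] at h1
  · exact fun hz => grpb_inv h γ hz

theorem exists_near (a : ℂ) (ha : a ∈ Lim Γ) (ε : ℝ) (hε : 0 < ε) : ∃ γ : Γ, ‖γ • (0 : ℂ) - a‖ < ε := by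
  obtain ⟨γ, hγ⟩ := Metric.mem_closure_range_iff.1 ha.1 ε hε
  refine ⟨γ, ?_⟩
  rwa [dist_comm, dist_eq_norm] at hγ

/-- only finitely many elements move `0` to a point with `1 - |γ 0|² ≥ ε` -/
theorem finite_one_sub (h : Fuchs Γ) (ε : ℝ) (hε : 0 < ε) : {γ : Γ | ε ≤ 1 - ‖γ • (0 : ℂ)‖ ^ 2}.Finite :=
  grpb_fin h ε hε

end Fuchs

end Pool.Agent.DD
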