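import Pool.Agent.Lib_MP_644907_full.Iso1
import Pool.Agent.Lib_MP_644907_full.Geo

/-!
# Piece GRPA: the formulas for the action of the group
-/

set_option autoImplicit false

namespace Pool.Agent.DD

open MeasureTheory Filter Topology Metric

variable {Γ : Type} [Group Γ] [MulAction Γ ℂ]

namespace GrpAAux

/-- all formulas of `iso_basic` for `γ` -/
theorem basic (h : Fuchs Γ) (γ : Γ) : ‖γ⁻¹ • (0 : ℂ)‖ < 1 ∧ ‖γ • (0 : ℂ)‖ = ‖γ⁻¹ • (0 : ℂ)‖ ∧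
    (∀ z w : ℂ, ‖z‖ ≤ 1 → ‖w‖ ≤ 1 →
      ‖γ • z - γ • w‖ * (‖1 - starRingEnd ℂ (γ⁻¹ • (0 : ℂ)) * z‖ * ‖1 - starRingEnd ℂ (γ⁻¹ • (0 : ℂ)) * w‖) =
        (1 - ‖γ⁻¹ • (0 : ℂ)‖ ^ 2) * ‖z - w‖ ∧
      ‖1 - starRingEnd ℂ (γ • z) * (γ • w)‖ *
        (‖1 - starRingEnd ℂ (γ⁻¹ • (0 : ℂ)) * z‖ * ‖1 - starRingEnd ℂ (γ⁻¹ • (0 : ℂ)) * w‖) =
        (1 - ‖γ⁻¹ • (0 : ℂ)‖ ^ 2) * ‖1 - starRingEnd ℂ z * w‖) ∧
    (∀ z : ℂ, ‖z‖ ≤ 1 →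
      (1 - ‖γ • z‖ ^ 2) * ‖1 - starRingEnd ℂ (γ⁻¹ • (0 : ℂ)) * z‖ ^ 2 =
        (1 - ‖γ⁻¹ • (0 : ℂ)‖ ^ 2) * (1 - ‖z‖ ^ 2)) := by
  obtain ⟨a, h1, h2, h3, h4, h5⟩ := iso_basic (fun z : ℂ => γ • z) (h.iso γ)
  have h6 : γ⁻¹ • (0 : ℂ) = a := by
    have h7 : γ • a = 0 := h2
    rw [← h7, inv_smul_smul]
  rw [h6]
  exact ⟨h1, h3, h4, h5⟩

/-- the denominators do not vanish -/
theorem den_pos {a z : ℂ} (ha : ‖a‖ < 1) (hz : ‖z‖ ≤ 1) : 0 < ‖1 - starRingEnd ℂ a * z‖ := by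
  rw [norm_pos_iff]
  intro h0
  have h1 : starRingEnd ℂ a * z = 1 := by linear_combination -h0
  have h2 : ‖starRingEnd ℂ a * z‖ = 1 := by rw [h1, norm_one]
  rw [norm_mul, Complex.norm_conj] at h2
  nlinarith [norm_nonneg a, norm_nonneg z]

theorem one_sub_sq_pos {a : ℂ} (ha : ‖a‖ < 1) : 0 < 1 - ‖a‖ ^ 2 := by nlinarith [norm_nonneg a]

end GrpAAux

open GrpAAux

namespace Fuchs

theorem norm_le (h : Fuchs Γ) (γ : Γ) {z : ℂ} (hz : ‖z‖ ≤ 1) : ‖γ • z‖ ≤ 1 := by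
  obtain ⟨h1, h2, h3, h4⟩ := basic h γ
  have h5 := h4 z hz
  have h6 := den_pos h1 hz
  have h7 := one_sub_sq_pos h1
  have h8 : 0 ≤ (1 - ‖γ • z‖ ^ 2) * ‖1 - starRingEnd ℂ (γ⁻¹ • (0 : ℂ)) * z‖ ^ 2 := by
    rw [h5]
    apply mul_nonneg h7.le
    nlinarith [norm_nonneg z]
  have h9 : 0 ≤ 1 - ‖γ • z‖ ^ 2 := nonneg_of_mul_nonneg_left h8 (by positivity)
  by_contra hc
  push Not at hc
  nlinarith [norm_nonneg (γ • z)]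

theorem norm_eq (h : Fuchs Γ) (γ : Γ) {z : ℂ} (hz : ‖z‖ = 1) : ‖γ • z‖ = 1 := by
  obtain ⟨h1, h2, h3, h4⟩ := basic h γ
  have h5 := h4 z hz.le
  have h6 := den_pos h1 hz.le
  rw [hz, one_pow, sub_self, mul_zero] at h5
  have h9 : 1 - ‖γ • z‖ ^ 2 = 0 := by
    rcases mul_eq_zero.1 h5 with h | h
    · exact h
    · exact absurd h (by positivity)
  have h10 : ‖γ • z‖ ^ 2 = 1 ^ 2 := by linarith
  exact (pow_left_inj₀ (norm_nonneg _) zero_le_one two_ne_zero).1 h10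

/-- third formula of `iso_basic` -/
theorem norm_lt (h : Fuchs Γ) (γ : Γ) {z : ℂ} (hz : ‖z‖ < 1) : ‖γ • z‖ < 1 := by
  obtain ⟨h1, h2, h3, h4⟩ := basic h γ
  have h5 := h4 z hz.le
  have h6 := den_pos h1 hz.le
  have h7 := one_sub_sq_pos h1
  have h7' := one_sub_sq_pos hz
  have h8 : 0 < (1 - ‖γ • z‖ ^ 2) * ‖1 - starRingEnd ℂ (γ⁻¹ • (0 : ℂ)) * z‖ ^ 2 := by
    rw [h5]
    positivity
  have h9 : 0 < 1 - ‖γ • z‖ ^ 2 := pos_of_mul_pos_left h8 (by positivity)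
  by_contra hc
  push Not at hc
  nlinarith [norm_nonneg (γ • z)]

theorem norm0 (h : Fuchs Γ) (γ : Γ) : ‖γ • (0 : ℂ)‖ < 1 := by
  apply norm_lt h
  rw [norm_zero]
  exact one_pos

/-- the point `a` of `iso_basic` for `γ` is `γ⁻¹ • 0` and `|γ • 0| = |a|` -/
theorem norm_inv (h : Fuchs Γ) (γ : Γ) : ‖γ⁻¹ • (0 : ℂ)‖ = ‖γ • (0 : ℂ)‖ :=
  (basic h γ).2.1.symm

/-- `iso_basic` (`a = γ⁻¹ • 0`) -/
theorem dist_smul (h : Fuchs Γ) (γ : Γ) {z w : ℂ} (hz : ‖z‖ ≤ 1) (hw : ‖w‖ ≤ 1) :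
    ‖γ • z - γ • w‖ * (‖1 - starRingEnd ℂ (γ⁻¹ • (0 : ℂ)) * z‖ * ‖1 - starRingEnd ℂ (γ⁻¹ • (0 : ℂ)) * w‖) =
      (1 - ‖γ • (0 : ℂ)‖ ^ 2) * ‖z - w‖ := by
  rw [(basic h γ).2.1]
  exact ((basic h γ).2.2.1 z w hz hw).1

/-- `iso_basic` (`a = γ⁻¹ • 0`) -/
theorem one_sub_smul (h : Fuchs Γ) (γ : Γ) {z : ℂ} (hz : ‖z‖ ≤ 1) :
    (1 - ‖γ • z‖ ^ 2) * ‖1 - starRingEnd ℂ (γ⁻¹ • (0 : ℂ)) * z‖ ^ 2 = (1 - ‖γ • (0 : ℂ)‖ ^ 2) * (1 - ‖z‖ ^ 2) := by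
  rw [(basic h γ).2.1]
  exact (basic h γ).2.2.2 z hz

/-- `iso_basic` -/
theorem qd_smul (h : Fuchs Γ) (γ : Γ) {z w : ℂ} (hz : ‖z‖ < 1) (hw : ‖w‖ < 1) : qd (γ • z) (γ • w) = qd z w := by
  obtain ⟨h1, h2, h3, h4⟩ := basic h γ
  have e1 := (h3 z w hz.le hw.le).2
  have e2 := h4 z hz.le
  have e3 := h4 w hw.le
  have p1 := den_pos h1 hz.le
  have p2 := den_pos h1 hw.le
  have p3 := one_sub_sq_pos h1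
  have p4 := one_sub_sq_pos (norm_lt h γ hz)
  have p5 := one_sub_sq_pos (norm_lt h γ hw)
  have p6 := one_sub_sq_pos hz
  have p7 := one_sub_sq_pos hw
  unfold qd
  generalize ‖1 - starRingEnd ℂ (γ⁻¹ • (0 : ℂ)) * z‖ = A at e1 e2 p1
  generalize ‖1 - starRingEnd ℂ (γ⁻¹ • (0 : ℂ)) * w‖ = B at e1 e3 p2
  generalize 1 - ‖γ⁻¹ • (0 : ℂ)‖ ^ 2 = K at e1 e2 e3 p3
  generalize ‖1 - starRingEnd ℂ (γ • z) * (γ • w)‖ = N at e1 ⊢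
  generalize ‖1 - starRingEnd ℂ z * w‖ = M at e1 ⊢
  generalize 1 - ‖γ • z‖ ^ 2 = P at e2 p4 ⊢
  generalize 1 - ‖γ • w‖ ^ 2 = Q at e3 p5 ⊢
  generalize 1 - ‖z‖ ^ 2 = R at e2 p6 ⊢
  generalize 1 - ‖w‖ ^ 2 = S at e3 p7 ⊢
  rw [div_eq_div_iff (by positivity) (by positivity)]
  have hAB : 0 < (A * B * K) ^ 2 := by positivity
  apply mul_left_cancel₀ hAB.ne'
  have f1 : (N * (A * B)) ^ 2 = (K * M) ^ 2 := by rw [e1]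
  have f2 : (P * A ^ 2) * (Q * B ^ 2) = (K * R) * (K * S) := by rw [e2, e3]
  calc (A * B * K) ^ 2 * (N ^ 2 * (R * S)) = (N * (A * B)) ^ 2 * ((K * R) * (K * S)) := by ring
    _ = (K * M) ^ 2 * ((P * A ^ 2) * (Q * B ^ 2)) := by rw [f1, f2]
    _ = (A * B * K) ^ 2 * (M ^ 2 * (P * Q)) := by ring

/-- `dist_smul`, `one_sub_smul` (with `norm_one_sub_sphere`) -/
theorem pk_smul (h : Fuchs Γ) (γ : Γ) {z ξ : ℂ} (hz : ‖z‖ < 1) (hξ : ‖ξ‖ = 1) :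
    pk (γ • z) (γ • ξ) * pk (γ⁻¹ • (0 : ℂ)) ξ = pk z ξ := by
  obtain ⟨h1, h2, h3, h4⟩ := basic h γ
  have e1 := (h3 ξ z hξ.le hz.le).1
  have e2 := h4 z hz.le
  have p1 := den_pos h1 hz.le
  have p2 := den_pos h1 hξ.le
  rw [norm_one_sub_sphere hξ] at e1 p2
  have p3 := one_sub_sq_pos h1
  have p6 := one_sub_sq_pos hz
  have p4 := one_sub_sq_pos (norm_lt h γ hz)
  have p8 : 0 < ‖ξ - z‖ := by
    have h9 : ‖ξ‖ - ‖z‖ ≤ ‖ξ - z‖ := norm_sub_norm_le ξ z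
    rw [hξ] at h9
    linarith
  have p9 : 0 < ‖γ • ξ - γ • z‖ := by
    have h9 : ‖γ • ξ‖ - ‖γ • z‖ ≤ ‖γ • ξ - γ • z‖ := norm_sub_norm_le _ _
    rw [norm_eq h γ hξ] at h9
    have h10 := norm_lt h γ hz
    linarith
  unfold pk
  generalize ‖1 - starRingEnd ℂ (γ⁻¹ • (0 : ℂ)) * z‖ = A at e1 e2 p1
  generalize ‖ξ - γ⁻¹ • (0 : ℂ)‖ = B at e1 p2 ⊢
  generalize 1 - ‖γ⁻¹ • (0 : ℂ)‖ ^ 2 = K at e1 e2 p3 ⊢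
  generalize ‖γ • ξ - γ • z‖ = N at e1 p9 ⊢
  generalize ‖ξ - z‖ = M at e1 p8 ⊢
  generalize 1 - ‖γ • z‖ ^ 2 = P at e2 p4 ⊢
  generalize 1 - ‖z‖ ^ 2 = R at e2 p6 ⊢
  rw [div_mul_div_comm, div_eq_div_iff (by positivity) (by positivity)]
  have hAK : 0 < A ^ 2 * K := by positivity
  apply mul_left_cancel₀ hAK.ne'
  have f1 : (N * (B * A)) ^ 2 = (K * M) ^ 2 := by rw [e1]
  calc A ^ 2 * K * (P * K * M ^ 2) = (P * A ^ 2) * (K * M) ^ 2 := by ring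
    _ = (K * R) * (N * (B * A)) ^ 2 := by rw [f1, e2]
    _ = A ^ 2 * K * (R * (N ^ 2 * B ^ 2)) := by ring

/-- `dist_smul`, `norm_one_sub_sphere` -/
theorem two_pt (h : Fuchs Γ) (γ : Γ) {ξ η : ℂ} (hξ : ‖ξ‖ = 1) (hη : ‖η‖ = 1) :
    ‖γ • ξ - γ • η‖ ^ 2 = pk (γ⁻¹ • (0 : ℂ)) ξ * pk (γ⁻¹ • (0 : ℂ)) η * ‖ξ - η‖ ^ 2 := by
  obtain ⟨h1, h2, h3, h4⟩ := basic h γ
  have e1 := (h3 ξ η hξ.le hη.le).1
  have p1 := den_pos h1 hξ.le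
  have p2 := den_pos h1 hη.le
  rw [norm_one_sub_sphere hξ, norm_one_sub_sphere hη] at e1
  rw [norm_one_sub_sphere hξ] at p1
  rw [norm_one_sub_sphere hη] at p2
  unfold pk
  generalize ‖ξ - γ⁻¹ • (0 : ℂ)‖ = A at e1 p1 ⊢
  generalize ‖η - γ⁻¹ • (0 : ℂ)‖ = B at e1 p2 ⊢
  generalize 1 - ‖γ⁻¹ • (0 : ℂ)‖ ^ 2 = K at e1 ⊢
  generalize ‖γ • ξ - γ • η‖ = N at e1 ⊢
  generalize ‖ξ - η‖ = M at e1 ⊢
  rw [div_mul_div_comm, div_mul_eq_mul_div, eq_div_iff (by positivity)]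
  calc N ^ 2 * (A ^ 2 * B ^ 2) = (N * (A * B)) ^ 2 := by ring
    _ = (K * M) ^ 2 := by rw [e1]
    _ = K * K * M ^ 2 := by ring

/-- `dist_smul`, `|1 - conj a z| ≥ |z - a| ≥ ρ` (`dist_le_one_sub`), and `|z - w| ≤ |z - a| + |w - a|` -/
theorem contract (h : Fuchs Γ) (γ : Γ) {z w : ℂ} (hz : ‖z‖ ≤ 1) (hw : ‖w‖ ≤ 1) {ρ : ℝ} (hρ : 0 < ρ)
    (h1 : ρ ≤ ‖z - γ⁻¹ • (0 : ℂ)‖) (h2 : ρ ≤ ‖w - γ⁻¹ • (0 : ℂ)‖) :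
    ‖γ • z - γ • w‖ ≤ 2 * (1 - ‖γ • (0 : ℂ)‖ ^ 2) / ρ := by
  have e1 := dist_smul h γ hz hw
  have h0 : ‖γ⁻¹ • (0 : ℂ)‖ < 1 := norm0 h γ⁻¹
  have d1 := dist_le_one_sub h0.le hz
  have d2 := dist_le_one_sub h0.le hw
  have p3 := one_sub_sq_pos (norm0 h γ)
  have d3 : ‖z - w‖ ≤ ‖z - γ⁻¹ • (0 : ℂ)‖ + ‖w - γ⁻¹ • (0 : ℂ)‖ := by
    have e2 : z - w = (z - γ⁻¹ • (0 : ℂ)) - (w - γ⁻¹ • (0 : ℂ)) := by ring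
    rw [e2]
    exact norm_sub_le _ _
  have p1 : 0 < ‖1 - starRingEnd ℂ (γ⁻¹ • (0 : ℂ)) * z‖ := den_pos h0 hz
  have p2 : 0 < ‖1 - starRingEnd ℂ (γ⁻¹ • (0 : ℂ)) * w‖ := den_pos h0 hw
  generalize ‖1 - starRingEnd ℂ (γ⁻¹ • (0 : ℂ)) * z‖ = A at e1 d1 p1
  generalize ‖1 - starRingEnd ℂ (γ⁻¹ • (0 : ℂ)) * w‖ = B at e1 d2 p2
  generalize 1 - ‖γ • (0 : ℂ)‖ ^ 2 = K at e1 p3 ⊢
  generalize ‖γ • z - γ • w‖ = N at e1 ⊢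
  generalize ‖z - w‖ = M at e1 d3
  generalize ‖z - γ⁻¹ • (0 : ℂ)‖ = C at h1 d1 d3
  generalize ‖w - γ⁻¹ • (0 : ℂ)‖ = D at h2 d2 d3
  rw [le_div_iff₀ hρ]
  have hAB : 0 < A * B := by positivity
  have g1 : M * ρ ≤ 2 * (A * B) := by
    have g2 : M ≤ A + B := by linarith
    have hA : ρ ≤ A := h1.trans d1
    have hB : ρ ≤ B := h2.trans d2
    nlinarith [mul_le_mul_of_nonneg_right g2 hρ.le, mul_le_mul_of_nonneg_left hB p1.le,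
      mul_le_mul_of_nonneg_left hA p2.le]
  have g3 : N * ρ * (A * B) ≤ 2 * K * (A * B) := by
    calc N * ρ * (A * B) = N * (A * B) * ρ := by ring
      _ = K * M * ρ := by rw [e1]
      _ = K * (M * ρ) := by ring
      _ ≤ K * (2 * (A * B)) := mul_le_mul_of_nonneg_left g1 p3.le
      _ = 2 * K * (A * B) := by ring
  exact le_of_mul_le_mul_right g3 hAB

end Fuchs

end Pool.Agent.DD
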