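import Pool.Agent.Lib_MP_644907_full.HellC
import Pool.Agent.Lib_MP_644907_full.Bas

/-!
# Piece HELLA: gain from the gap, almost everywhere
-/

set_option autoImplicit false

namespace Pool.Agent.DD

open MeasureTheory Filter Topology Metric

variable {Γ : Type} [Group Γ] [MulAction Γ ℂ] {ν m : Measure ℂ}

open Classical in
/-- number of good arcs among the levels `r, r + q, ..., r + (k - 1) q` -/
noncomputable def NGood (Γ : Type) [Group Γ] [MulAction Γ ℂ] (D σ : ℝ) (r q k : ℕ) (ξ : ℂ) : ℕ :=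
  ((Finset.range k).filter (fun i => GoodArc Γ D (bas σ (r + q * i) ξ) (r + q * i))).card

open Classical in
/-- the same number as a function of the number of the arc -/
private noncomputable def hellN (Γ : Type) [Group Γ] [MulAction Γ ℂ] (D σ : ℝ) (r q : ℕ) : ℕ → ℕ → ℕ
  | 0, _ => 0
  | k + 1, j => hellN Γ D σ r q k (j / 2 ^ q) +
      if GoodArc Γ D (σ + ((j / 2 ^ q : ℕ) : ℝ) * (1 / 2) ^ (r + q * k)) (r + q * k) then 1 else 0

private theorem hell_sum_mul (f : ℕ → ℝ) (b n : ℕ) :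
    ∑ j ∈ Finset.range (n * b), f j = ∑ j ∈ Finset.range n, ∑ i ∈ Finset.range b, f (b * j + i) := by
  induction n with
  | zero => simp
  | succ n ih =>
    rw [Finset.sum_range_succ, ← ih, Nat.succ_mul, Finset.sum_range_add]
    congr 1
    refine Finset.sum_congr rfl fun i _ => ?_
    rw [mul_comm b n]

private theorem hell_N_eq (D σ : ℝ) (r q k : ℕ) (ξ : ℂ) (j : ℕ)
    (hj : bas σ (r + q * k) ξ = σ + j * (1 / 2) ^ (r + q * k)) :
    NGood Γ D σ r q k ξ = hellN Γ D σ r q k j := by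
  classical
  induction k generalizing j with
  | zero => simp [NGood, hellN]
  | succ k ih =>
    obtain ⟨j', -, hj'⟩ := bas_mem σ (r + q * k) ξ
    obtain ⟨i, hi, hi'⟩ := bas_nested σ (r + q * k) q ξ
    have hl : r + q * (k + 1) = r + q * k + q := by ring
    rw [hl] at hj
    have hpos : (0 : ℝ) < (1 / 2) ^ (r + q * k + q) := by positivity
    have hp : (1 / 2 : ℝ) ^ (r + q * k) = 2 ^ q * (1 / 2) ^ (r + q * k + q) := by
      rw [pow_add (1 / 2 : ℝ) (r + q * k) q, mul_left_comm, ← mul_pow]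
      norm_num
    have h1 : (j : ℝ) = 2 ^ q * j' + i := by
      rw [hi', hj', hp] at hj
      have h2 : ((j : ℝ) - (2 ^ q * j' + i)) * (1 / 2) ^ (r + q * k + q) = 0 := by linarith
      rcases mul_eq_zero.mp h2 with h | h
      · linarith
      · exact absurd h hpos.ne'
    have h3 : j = 2 ^ q * j' + i := by exact_mod_cast h1
    have h4 : j / 2 ^ q = j' := by
      rw [h3, Nat.mul_add_div (by positivity), Nat.div_eq_of_lt hi, add_zero]
    have h5 : NGood Γ D σ r q (k + 1) ξ = NGood Γ D σ r q k ξ +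
        if GoodArc Γ D (bas σ (r + q * k) ξ) (r + q * k) then 1 else 0 := by
      unfold NGood
      rw [Finset.range_add_one, Finset.filter_insert]
      split_ifs with hg
      · rw [Finset.card_insert_of_notMem (by simp)]
      · rfl
    rw [h5, hellN, h4, ih j' hj', hj']

/-- Let `l = r + q k`, arcs `I_j = arc (σ + j 2^(-l)) (σ + (j+1) 2^(-l))`, `j < 2^l`; `N_k` is constant on `I_j` (`bas_congr`), and `a_k = ∑_j √(ν I_j m I_j) (1 - ε)^(-N_k (j))`. Going from `k` to `k + 1`: split `I_j` in `2^q` subarcs; if `I_j` is good then `aff q ≤ (1 - ε) aff 0` and `N_{k+1} = N_k + 1`; otherwise `aff q ≤ aff 0` (`aff_le`), `N_{k+1} = N_k`.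
So `a_{k+1} ≤ a_k ≤ ... ≤ a_0 ≤ C`. The set `{ξ | m (dya) > e^(η k) (1 - ε)^(2 N_k) ν (dya)}` is the union of the `I_j` with `√(m I_j / ν I_j) (1 - ε)^(-N_k) > e^(η k / 2)` (or `ν I_j = 0`), its measure is `∑ ν I_j ≤ e^(-η k / 2) a_k`, summable; Borel-Cantelli (`ae_eventually_notMem`). -/
theorem hell_ae [IsFiniteMeasure m] [IsFiniteMeasure ν] (hν : ν (sphere (0 : ℂ) 1)ᶜ = 0) (D σ ε η : ℝ) (r q : ℕ) (hq : 0 < q) (hε : 0 < ε) (hε1 : ε < 1) (hη : 0 < η)
    (hgap : ∀ (θ : ℝ) (k : ℕ), GoodArc Γ D θ k → aff ν m θ k q ≤ (1 - ε) * aff ν m θ k 0) :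
    ∀ᵐ ξ ∂ν, ∀ᶠ k : ℕ in atTop, m.real (dya σ (r + q * k) ξ) ≤
      Real.exp (η * k) * (1 - ε) ^ (2 * NGood Γ D σ r q k ξ) * ν.real (dya σ (r + q * k) ξ) := by
  classical
  obtain ⟨c, hc⟩ : ∃ c : ℝ, c = (1 - ε)⁻¹ := ⟨_, rfl⟩
  have hε' : 0 < 1 - ε := by linarith
  have hc0 : 0 < c := by rw [hc]; positivity
  have hc1 : c * (1 - ε) = 1 := by rw [hc]; field_simp
  -- the arcs
  obtain ⟨I, hI⟩ : ∃ I : ℕ → ℕ → Set ℂ, I = fun (l j : ℕ) =>
    arc (σ + (j : ℝ) * (1 / 2 : ℝ) ^ l) (σ + ((j : ℝ) + 1) * (1 / 2 : ℝ) ^ l) := ⟨_, rfl⟩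
  obtain ⟨a, ha⟩ : ∃ a : ℕ → ℝ, a = fun k => ∑ j ∈ Finset.range (2 ^ (r + q * k)),
    √(ν.real (I (r + q * k) j) * m.real (I (r + q * k) j)) * c ^ hellN Γ D σ r q k j := ⟨_, rfl⟩
  have hstep : ∀ k, a (k + 1) ≤ a k := by
    intro k
    have hl : r + q * (k + 1) = r + q * k + q := by ring
    have h2 : 2 ^ (r + q * k + q) = 2 ^ (r + q * k) * 2 ^ q := pow_add _ _ _
    rw [ha]
    simp only
    rw [hl, h2, hell_sum_mul]
    refine Finset.sum_le_sum fun j _ => ?_
    have hp : (1 / 2 : ℝ) ^ (r + q * k) = 2 ^ q * (1 / 2) ^ (r + q * k + q) := by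
      rw [pow_add (1 / 2 : ℝ) (r + q * k) q, mul_left_comm, ← mul_pow]
      norm_num
    have hsum : ∑ i ∈ Finset.range (2 ^ q), √(ν.real (I (r + q * k + q) (2 ^ q * j + i)) *
        m.real (I (r + q * k + q) (2 ^ q * j + i))) =
        aff ν m (σ + j * (1 / 2) ^ (r + q * k)) (r + q * k) q := by
      rw [aff]
      refine Finset.sum_congr rfl fun i _ => ?_
      have e1 : σ + ((2 ^ q * j + i : ℕ) : ℝ) * (1 / 2) ^ (r + q * k + q) =
          σ + j * (1 / 2) ^ (r + q * k) + i * (1 / 2) ^ (r + q * k + q) := by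
        rw [hp]; push_cast; ring
      have e2 : σ + (((2 ^ q * j + i : ℕ) : ℝ) + 1) * (1 / 2) ^ (r + q * k + q) =
          σ + j * (1 / 2) ^ (r + q * k) + (i + 1) * (1 / 2) ^ (r + q * k + q) := by
        rw [hp]; push_cast; ring
      rw [hI]
      simp only
      rw [e1, e2]
    have haff0 : aff ν m (σ + j * (1 / 2) ^ (r + q * k)) (r + q * k) 0 =
        √(ν.real (I (r + q * k) j) * m.real (I (r + q * k) j)) := by
      rw [aff, pow_zero, Finset.sum_range_one, hI]
      simp only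
      have e1 : σ + j * (1 / 2) ^ (r + q * k) + ((0 : ℕ) : ℝ) * (1 / 2) ^ (r + q * k + 0) =
          σ + j * (1 / 2) ^ (r + q * k) := by simp
      have e2 : σ + j * (1 / 2) ^ (r + q * k) + (((0 : ℕ) : ℝ) + 1) * (1 / 2) ^ (r + q * k + 0) =
          σ + (j + 1) * (1 / 2) ^ (r + q * k) := by
        rw [add_zero]; push_cast; ring
      rw [e1, e2]
    -- the exponent is constant on the subarcs
    have hN : ∀ i ∈ Finset.range (2 ^ q), hellN Γ D σ r q (k + 1) (2 ^ q * j + i) =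
        hellN Γ D σ r q k j + if GoodArc Γ D (σ + (j : ℝ) * (1 / 2) ^ (r + q * k)) (r + q * k) then 1 else 0 := by
      intro i hi
      have h4 : (2 ^ q * j + i) / 2 ^ q = j := by
        rw [Nat.mul_add_div (by positivity), Nat.div_eq_of_lt (Finset.mem_range.mp hi), add_zero]
      rw [hellN, h4]
    rw [Finset.sum_congr rfl fun i hi => by rw [hN i hi], ← Finset.sum_mul, hsum, ← haff0]
    have haff00 : 0 ≤ aff ν m (σ + j * (1 / 2) ^ (r + q * k)) (r + q * k) 0 := by
      rw [haff0]; exact Real.sqrt_nonneg _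
    split_ifs with hg
    · rw [pow_succ]
      have h5 := hgap _ _ hg
      have h6 : 0 < c ^ hellN Γ D σ r q k j := by positivity
      calc aff ν m (σ + j * (1 / 2) ^ (r + q * k)) (r + q * k) q * (c ^ hellN Γ D σ r q k j * c)
          ≤ ((1 - ε) * aff ν m (σ + j * (1 / 2) ^ (r + q * k)) (r + q * k) 0) *
            (c ^ hellN Γ D σ r q k j * c) := by gcongr
        _ = aff ν m (σ + j * (1 / 2) ^ (r + q * k)) (r + q * k) 0 * c ^ hellN Γ D σ r q k j *
            (c * (1 - ε)) := by ring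
        _ = aff ν m (σ + j * (1 / 2) ^ (r + q * k)) (r + q * k) 0 * c ^ hellN Γ D σ r q k j := by
            rw [hc1, mul_one]
    · rw [add_zero]
      exact mul_le_mul_of_nonneg_right (aff_le ν m _ _ _) (by positivity)
  have hanti : ∀ k, a k ≤ a 0 := by
    intro k
    induction k with
    | zero => exact le_rfl
    | succ k ih => exact (hstep k).trans ih
  have ha0 : 0 ≤ a 0 := by
    rw [ha]
    exact Finset.sum_nonneg fun j _ => by positivity
  -- the exceptional sets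
  obtain ⟨E, hE⟩ : ∃ E : ℕ → Set ℂ, E = fun k => {ξ | ¬ m.real (dya σ (r + q * k) ξ) ≤
      Real.exp (η * k) * (1 - ε) ^ (2 * NGood Γ D σ r q k ξ) * ν.real (dya σ (r + q * k) ξ)} := ⟨_, rfl⟩
  have hEk : ∀ k, ν (E k) ≤ ENNReal.ofReal (Real.exp (-(η / 2)) ^ k * a 0) := by
    intro k
    obtain ⟨B, hB⟩ : ∃ B : Finset ℕ, B = (Finset.range (2 ^ (r + q * k))).filter (fun j =>
      Real.exp (η * k) * (1 - ε) ^ (2 * hellN Γ D σ r q k j) * ν.real (I (r + q * k) j) <
        m.real (I (r + q * k) j)) := ⟨_, rfl⟩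
    have hsub : E k ⊆ (sphere (0 : ℂ) 1)ᶜ ∪ ⋃ j ∈ B, I (r + q * k) j := by
      intro ξ hξ
      by_cases hs : ξ ∈ sphere (0 : ℂ) 1
      · right
        have hξ1 : ‖ξ‖ = 1 := by simpa using hs
        obtain ⟨j, hj, hj'⟩ := bas_mem σ (r + q * k) ξ
        have hN := hell_N_eq (Γ := Γ) D σ r q k ξ j hj'
        have hd : dya σ (r + q * k) ξ = I (r + q * k) j := by
          rw [dya, hj', hI]
          simp only
          congr 1
          ring
        rw [hE] at hξ
        have hξ' : ¬ m.real (dya σ (r + q * k) ξ) ≤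
          Real.exp (η * k) * (1 - ε) ^ (2 * NGood Γ D σ r q k ξ) * ν.real (dya σ (r + q * k) ξ) := hξ
        rw [hN, hd, not_le] at hξ'
        refine Set.mem_biUnion (x := j) ?_ ?_
        · rw [hB]
          exact Finset.mem_coe.mpr (Finset.mem_filter.mpr ⟨Finset.mem_range.mpr hj, hξ'⟩)
        · rw [← hd]
          exact mem_dya σ _ ξ hξ1
      · exact Or.inl hs
    have h1 : ν (E k) ≤ ∑ j ∈ B, ν (I (r + q * k) j) := by
      refine (measure_mono hsub).trans ((measure_union_le _ _).trans ?_)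
      rw [hν, zero_add]
      exact measure_biUnion_finset_le _ _
    have h2 : ∀ j ∈ B, ν.real (I (r + q * k) j) ≤ Real.exp (-(η / 2)) ^ k *
        (√(ν.real (I (r + q * k) j) * m.real (I (r + q * k) j)) * c ^ hellN Γ D σ r q k j) := by
      intro j hj
      rw [hB] at hj
      have hj' := (Finset.mem_filter.mp hj).2
      obtain ⟨N, hN⟩ : ∃ N, N = hellN Γ D σ r q k j := ⟨_, rfl⟩
      rw [← hN] at hj' ⊢
      obtain ⟨u, hu⟩ : ∃ u, u = ν.real (I (r + q * k) j) := ⟨_, rfl⟩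
      obtain ⟨v, hv⟩ : ∃ v, v = m.real (I (r + q * k) j) := ⟨_, rfl⟩
      rw [← hu, ← hv] at hj' ⊢
      have hu0 : 0 ≤ u := by rw [hu]; exact measureReal_nonneg
      have hexp : Real.exp (η * k) = (Real.exp (η / 2) ^ k) ^ 2 := by
        rw [← Real.exp_nat_mul, ← Real.exp_nat_mul]
        congr 1
        push_cast; ring
      have h3 : Real.exp (η / 2) ^ k * (1 - ε) ^ N * u ≤ √(u * v) := by
        refine Real.le_sqrt_of_sq_le ?_
        have h4 : u * (Real.exp (η * k) * (1 - ε) ^ (2 * N) * u) ≤ u * v :=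
          mul_le_mul_of_nonneg_left hj'.le hu0
        calc (Real.exp (η / 2) ^ k * (1 - ε) ^ N * u) ^ 2
            = u * (Real.exp (η * k) * (1 - ε) ^ (2 * N) * u) := by
              rw [hexp, mul_comm 2 N, pow_mul]; ring
          _ ≤ u * v := h4
      have h5 : Real.exp (-(η / 2)) ^ k * Real.exp (η / 2) ^ k = 1 := by
        rw [← mul_pow, ← Real.exp_add]
        simp
      have h6 : c ^ N * (1 - ε) ^ N = 1 := by rw [← mul_pow, hc1, one_pow]
      have h7 : u = Real.exp (-(η / 2)) ^ k * ((Real.exp (η / 2) ^ k * (1 - ε) ^ N * u) * c ^ N) := by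
        calc u = (Real.exp (-(η / 2)) ^ k * Real.exp (η / 2) ^ k) * (c ^ N * (1 - ε) ^ N) * u := by
              rw [h5, h6]; ring
          _ = _ := by ring
      calc u = Real.exp (-(η / 2)) ^ k * ((Real.exp (η / 2) ^ k * (1 - ε) ^ N * u) * c ^ N) := h7
        _ ≤ Real.exp (-(η / 2)) ^ k * (√(u * v) * c ^ N) := by gcongr
    have h3 : ∑ j ∈ B, ν.real (I (r + q * k) j) ≤ Real.exp (-(η / 2)) ^ k * a 0 := by
      calc ∑ j ∈ B, ν.real (I (r + q * k) j)
          ≤ ∑ j ∈ B, Real.exp (-(η / 2)) ^ k *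
            (√(ν.real (I (r + q * k) j) * m.real (I (r + q * k) j)) * c ^ hellN Γ D σ r q k j) :=
              Finset.sum_le_sum h2
        _ = Real.exp (-(η / 2)) ^ k * ∑ j ∈ B,
            (√(ν.real (I (r + q * k) j) * m.real (I (r + q * k) j)) * c ^ hellN Γ D σ r q k j) := by
              rw [Finset.mul_sum]
        _ ≤ Real.exp (-(η / 2)) ^ k * a k := by
              refine mul_le_mul_of_nonneg_left ?_ (by positivity)
              rw [ha, hB]
              exact Finset.sum_le_sum_of_subset_of_nonneg (Finset.filter_subset _ _)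
                fun j _ _ => by positivity
        _ ≤ Real.exp (-(η / 2)) ^ k * a 0 := mul_le_mul_of_nonneg_left (hanti k) (by positivity)
    refine h1.trans ?_
    have h4 : ∑ j ∈ B, ν (I (r + q * k) j) = ENNReal.ofReal (∑ j ∈ B, ν.real (I (r + q * k) j)) := by
      rw [ENNReal.ofReal_sum_of_nonneg fun j _ => measureReal_nonneg]
      exact Finset.sum_congr rfl fun j _ => (ofReal_measureReal).symm
    rw [h4]
    exact ENNReal.ofReal_le_ofReal h3
  have hsummable : ∑' k, ν (E k) ≠ ⊤ := by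
    have h1 : Summable (fun k : ℕ => Real.exp (-(η / 2)) ^ k * a 0) :=
      (summable_geometric_of_lt_one (Real.exp_nonneg _)
        (by rw [Real.exp_lt_one_iff]; linarith)).mul_right _
    have h2 : ∑' k, ENNReal.ofReal (Real.exp (-(η / 2)) ^ k * a 0) ≠ ⊤ :=
      h1.tsum_ofReal_ne_top
    exact ne_top_of_le_ne_top h2 (ENNReal.tsum_le_tsum hEk)
  filter_upwards [ae_eventually_notMem hsummable] with ξ hξ
  filter_upwards [hξ] with k hk
  by_contra hcon
  exact hk (by rw [hE]; exact hcon)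

end Pool.Agent.DD
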