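import Pool.Agent.Lib_MP_644907_full.Lam0

/-!
# Piece HELLC: Hellinger affinity close to one
-/

set_option autoImplicit false

namespace Pool.Agent.DD

open MeasureTheory Filter Topology Metric

theorem le_of_sq_le_sq_hellc {x y : ℝ} (h : x ^ 2 ≤ y ^ 2) (hy : 0 ≤ y) : x ≤ y :=
  le_of_abs_le (abs_le_of_sq_le_sq h hy)

/-- `∑ (√a - √b)² = 2 - 2 ∑ √(a b) ≤ 2 ε`, `∑ |a - b| = ∑ |√a - √b| (√a + √b) ≤ √(2 ε) √(∑ (√a + √b)²) ≤ √(2 ε) · 2` -/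
theorem hell_tv {κ : Type*} (s : Finset κ) (a b : κ → ℝ) (ha : ∀ i ∈ s, 0 ≤ a i) (hb : ∀ i ∈ s, 0 ≤ b i) (h1 : ∑ i ∈ s, a i = 1) (h2 : ∑ i ∈ s, b i = 1)
    (ε : ℝ) (hε : 0 ≤ ε) (h : 1 - ε ≤ ∑ i ∈ s, √(a i * b i)) : ∑ i ∈ s, |a i - b i| ≤ 2 * √(2 * ε) := by
  have key : ∑ i ∈ s, |a i - b i| = ∑ i ∈ s, |√(a i) - √(b i)| * (√(a i) + √(b i)) := by
    refine Finset.sum_congr rfl fun i hi => ?_
    have e1 := Real.sq_sqrt (ha i hi)
    have e2 := Real.sq_sqrt (hb i hi)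
    have e3 : a i - b i = (√(a i) - √(b i)) * (√(a i) + √(b i)) := by nlinarith
    rw [e3, abs_mul, abs_of_nonneg (a := √(a i) + √(b i)) (by positivity)]
  have hm : ∑ i ∈ s, (√(a i) - √(b i)) ^ 2 = 2 - 2 * ∑ i ∈ s, √(a i * b i) := by
    have : ∀ i ∈ s, (√(a i) - √(b i)) ^ 2 = a i + b i - 2 * √(a i * b i) := by
      intro i hi
      rw [Real.sqrt_mul (ha i hi)]
      have e1 := Real.sq_sqrt (ha i hi)
      have e2 := Real.sq_sqrt (hb i hi)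
      nlinarith
    rw [Finset.sum_congr rfl this, Finset.sum_sub_distrib, Finset.sum_add_distrib, h1, h2, ← Finset.mul_sum]
    norm_num
  have hp : ∑ i ∈ s, (√(a i) + √(b i)) ^ 2 = 2 + 2 * ∑ i ∈ s, √(a i * b i) := by
    have : ∀ i ∈ s, (√(a i) + √(b i)) ^ 2 = a i + b i + 2 * √(a i * b i) := by
      intro i hi
      rw [Real.sqrt_mul (ha i hi)]
      have e1 := Real.sq_sqrt (ha i hi)
      have e2 := Real.sq_sqrt (hb i hi)
      nlinarith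
    rw [Finset.sum_congr rfl this, Finset.sum_add_distrib, Finset.sum_add_distrib, h1, h2, ← Finset.mul_sum]
    norm_num
  have hnn : 0 ≤ ∑ i ∈ s, (√(a i) - √(b i)) ^ 2 := Finset.sum_nonneg fun i _ => sq_nonneg _
  have hle1 : ∑ i ∈ s, √(a i * b i) ≤ 1 := by linarith
  have cs := Finset.sum_mul_sq_le_sq_mul_sq s (fun i => |√(a i) - √(b i)|) (fun i => √(a i) + √(b i))
  simp only [sq_abs] at cs
  rw [hm, hp, ← key] at cs
  have h4 : (∑ i ∈ s, |a i - b i|) ^ 2 ≤ (2 * ε) * 4 := by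
    refine cs.trans ?_
    have g1 : 2 - 2 * ∑ i ∈ s, √(a i * b i) ≤ 2 * ε := by linarith
    have g2 : 2 + 2 * ∑ i ∈ s, √(a i * b i) ≤ 4 := by linarith
    have g3 : 0 ≤ 2 - 2 * ∑ i ∈ s, √(a i * b i) := by linarith
    calc _ ≤ (2 - 2 * ∑ i ∈ s, √(a i * b i)) * 4 := mul_le_mul_of_nonneg_left g2 g3
      _ ≤ _ := by linarith
  have h5 : (2 * √(2 * ε)) ^ 2 = (2 * ε) * 4 := by
    rw [mul_pow, Real.sq_sqrt (by linarith)]; ring
  rw [← h5] at h4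
  exact le_of_sq_le_sq_hellc h4 (by positivity)

theorem hellc_arc_eq (θ : ℝ) (k q : ℕ) : arc θ (θ + (1 / 2) ^ k) =
    ⋃ j ∈ Finset.range (2 ^ q), arc (θ + j * (1 / 2) ^ (k + q)) (θ + (j + 1) * (1 / 2) ^ (k + q)) := by
  have hh : (0 : ℝ) < (1 / 2) ^ (k + q) := by positivity
  have hk : ((2 ^ q : ℕ) : ℝ) * (1 / 2) ^ (k + q) = (1 / 2) ^ k := by
    rw [pow_add]; push_cast
    have : (2 : ℝ) ^ q * (1 / 2) ^ q = 1 := by rw [← mul_pow]; norm_num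
    calc (2 : ℝ) ^ q * ((1 / 2) ^ k * (1 / 2) ^ q) = (1 / 2) ^ k * (2 ^ q * (1 / 2) ^ q) := by ring
      _ = _ := by rw [this, mul_one]
  ext z
  simp only [arc, Set.mem_image, Set.mem_Ico, Set.mem_iUnion, Finset.mem_range, exists_prop]
  constructor
  · rintro ⟨t, ⟨h1, h2⟩, rfl⟩
    set x : ℝ := (t - θ) / (1 / 2) ^ (k + q) with hx
    have hx0 : 0 ≤ x := div_nonneg (by linarith) hh.le
    have ht : t = θ + x * (1 / 2) ^ (k + q) := by rw [hx, div_mul_cancel₀ _ hh.ne']; ring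
    refine ⟨⌊x⌋₊, ?_, t, ⟨?_, ?_⟩, rfl⟩
    · rw [Nat.floor_lt hx0]
      by_contra hc
      have := mul_le_mul_of_nonneg_right (not_lt.1 hc) hh.le
      rw [hk] at this
      linarith
    · have := mul_le_mul_of_nonneg_right (Nat.floor_le hx0) hh.le
      linarith
    · have := mul_lt_mul_of_pos_right (Nat.lt_floor_add_one x) hh
      linarith
  · rintro ⟨j, hj, t, ⟨h1, h2⟩, rfl⟩
    refine ⟨t, ⟨?_, ?_⟩, rfl⟩
    · have : (0 : ℝ) ≤ j * (1 / 2) ^ (k + q) := by positivity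
      linarith
    · have hj' : (j : ℝ) + 1 ≤ ((2 ^ q : ℕ) : ℝ) := by exact_mod_cast hj
      have := mul_le_mul_of_nonneg_right hj' hh.le
      rw [hk] at this
      linarith

theorem hellc_disj (θ : ℝ) (k q : ℕ) : Set.PairwiseDisjoint (↑(Finset.range (2 ^ q)) : Set ℕ)
    (fun j : ℕ => arc (θ + j * (1 / 2) ^ (k + q)) (θ + (j + 1) * (1 / 2) ^ (k + q))) := by
  have hh : (0 : ℝ) < (1 / 2) ^ (k + q) := by positivity
  have hk : ((2 ^ q : ℕ) : ℝ) * (1 / 2) ^ (k + q) ≤ 1 := by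
    rw [pow_add]; push_cast
    have : (2 : ℝ) ^ q * (1 / 2) ^ q = 1 := by rw [← mul_pow]; norm_num
    have h1 : ((1 : ℝ) / 2) ^ k ≤ 1 := pow_le_one₀ (by norm_num) (by norm_num)
    calc (2 : ℝ) ^ q * ((1 / 2) ^ k * (1 / 2) ^ q) = (1 / 2) ^ k * (2 ^ q * (1 / 2) ^ q) := by ring
      _ ≤ 1 := by rw [this, mul_one]; exact h1
  have hmem : ∀ j : ℕ, j < 2 ^ q → ∀ t : ℝ, θ + j * (1 / 2) ^ (k + q) ≤ t → t < θ + (j + 1) * (1 / 2) ^ (k + q) →
      t ∈ Set.Ico θ (θ + 1) := by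
    intro j hj t h1 h2
    constructor
    · have : (0 : ℝ) ≤ j * (1 / 2) ^ (k + q) := by positivity
      linarith
    · have hj' : (j : ℝ) + 1 ≤ ((2 ^ q : ℕ) : ℝ) := by exact_mod_cast hj
      have := mul_le_mul_of_nonneg_right hj' hh.le
      linarith
  have aux : ∀ i j : ℕ, i < j → ∀ t : ℝ, t < θ + (i + 1) * (1 / 2) ^ (k + q) → θ + j * (1 / 2) ^ (k + q) ≤ t → False := by
    intro i j hij t h1 h2
    have hj' : (i : ℝ) + 1 ≤ (j : ℝ) := by exact_mod_cast hij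
    have := mul_le_mul_of_nonneg_right hj' hh.le
    linarith
  intro i hi j hj hij
  simp only [Finset.coe_range, Set.mem_Iio] at hi hj
  rw [Function.onFun, Set.disjoint_left]
  rintro z ⟨s, ⟨hs1, hs2⟩, rfl⟩ ⟨t, ⟨ht1, ht2⟩, hst⟩
  have : t = s := e_inj (hmem j hj t ht1 ht2) (hmem i hi s hs1 hs2) hst
  subst this
  rcases lt_or_gt_of_ne hij with h | h
  · exact aux i j h t hs2 ht1
  · exact aux j i h t ht2 hs1

theorem hellc_meas (θ : ℝ) (k q j : ℕ) :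
    MeasurableSet (arc (θ + j * (1 / 2) ^ (k + q)) (θ + (j + 1) * (1 / 2) ^ (k + q))) := by
  apply meas_arc
  have h1 : ((1 : ℝ) / 2) ^ (k + q) ≤ 1 := pow_le_one₀ (by norm_num) (by norm_num)
  linarith

/-- the `2^q` subarcs of `arc θ (θ + 2^(-k))` are a partition -/
theorem arc_split (μ : Measure ℂ) [IsFiniteMeasure μ] (θ : ℝ) (k q : ℕ) :
    μ.real (arc θ (θ + (1 / 2) ^ k)) =
      ∑ j ∈ Finset.range (2 ^ q), μ.real (arc (θ + j * (1 / 2) ^ (k + q)) (θ + (j + 1) * (1 / 2) ^ (k + q))) := by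
  rw [hellc_arc_eq θ k q]
  exact measureReal_biUnion_finset (hellc_disj θ k q) (fun j _ => hellc_meas θ k q j)

theorem hellc_aff_zero (μ m : Measure ℂ) (θ : ℝ) (k : ℕ) :
    aff μ m θ k 0 = √(μ.real (arc θ (θ + (1 / 2) ^ k)) * m.real (arc θ (θ + (1 / 2) ^ k))) := by
  simp [aff]

/-- Cauchy-Schwarz: affinities decrease -/
theorem aff_le (μ m : Measure ℂ) [IsFiniteMeasure μ] [IsFiniteMeasure m] (θ : ℝ) (k q : ℕ) : aff μ m θ k q ≤ aff μ m θ k 0 := by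
  rw [hellc_aff_zero, arc_split μ θ k q, arc_split m θ k q, aff]
  apply Real.le_sqrt_of_sq_le
  have cs := Finset.sum_mul_sq_le_sq_mul_sq (Finset.range (2 ^ q))
    (fun j => √(μ.real (arc (θ + j * (1 / 2) ^ (k + q)) (θ + (j + 1) * (1 / 2) ^ (k + q)))))
    (fun j => √(m.real (arc (θ + j * (1 / 2) ^ (k + q)) (θ + (j + 1) * (1 / 2) ^ (k + q)))))
  simp only [Real.sq_sqrt measureReal_nonneg] at cs
  refine le_trans (le_of_eq ?_) cs
  congr 1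
  exact Finset.sum_congr rfl fun j _ => Real.sqrt_mul measureReal_nonneg _

/-- Stronger form of `aff_int`: the oscillation hypothesis only for natural numbers `j < 2 ^ q`. Let `I` be the arc, `I_j` the subarcs, `a_j = μ I_j / μ I`, `b_j = m I_j / m I`; `hell_tv` (dividing the inequality by `√(μ I m I) = aff μ m θ k 0`). With points `z_j ∈ I_j` `|(1/μ I) ∫_I F dμ - ∑ a_j F(z_j)| ≤ ω`, same for `m`, and `|∑ (a_j - b_j) F z_j| ≤ M ∑ |a_j - b_j|`. -/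
theorem aff_int_nat (μ m : Measure ℂ) [IsFiniteMeasure μ] [IsFiniteMeasure m] (θ : ℝ) (k q : ℕ) (ε : ℝ) (hε : 0 ≤ ε)
    (hμ : 0 < μ.real (arc θ (θ + (1 / 2) ^ k))) (hm : 0 < m.real (arc θ (θ + (1 / 2) ^ k)))
    (haff : (1 - ε) * aff μ m θ k 0 ≤ aff μ m θ k q) (F : ℂ → ℝ) (hFm : Measurable F) (M ω : ℝ) (hM : ∀ z, ‖z‖ = 1 → |F z| ≤ M)
    (hω : ∀ j : ℕ, j < 2 ^ q → ∀ z ∈ arc (θ + j * (1 / 2) ^ (k + q)) (θ + (j + 1) * (1 / 2) ^ (k + q)),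
      ∀ w ∈ arc (θ + j * (1 / 2) ^ (k + q)) (θ + (j + 1) * (1 / 2) ^ (k + q)), |F z - F w| ≤ ω) :
    |(∫ z in arc θ (θ + (1 / 2) ^ k), F z ∂μ) / μ.real (arc θ (θ + (1 / 2) ^ k)) -
      (∫ z in arc θ (θ + (1 / 2) ^ k), F z ∂m) / m.real (arc θ (θ + (1 / 2) ^ k))| ≤ 2 * √(2 * ε) * M + 2 * ω := by
  have hh : (0 : ℝ) < (1 / 2) ^ (k + q) := by positivity
  have h00 : (0 : ℝ) ≤ M := (abs_nonneg _).trans (hM 1 (by simp))
  obtain ⟨z, hz⟩ : ∃ z : ℕ → ℂ, ∀ j : ℕ, z j ∈ arc (θ + j * (1 / 2) ^ (k + q)) (θ + (j + 1) * (1 / 2) ^ (k + q)) :=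
    ⟨fun j => e (θ + j * (1 / 2) ^ (k + q)), fun j => ⟨_, ⟨le_refl _, by linarith⟩, rfl⟩⟩
  have hz1 : ∀ j, ‖z j‖ = 1 := by
    intro j
    obtain ⟨t, -, ht⟩ := hz j
    rw [← ht]; exact norm_e t
  -- the estimate for one measure
  have main : ∀ (ρ : Measure ℂ) [IsFiniteMeasure ρ], 0 < ρ.real (arc θ (θ + (1 / 2) ^ k)) →
      |(∫ w in arc θ (θ + (1 / 2) ^ k), F w ∂ρ) / ρ.real (arc θ (θ + (1 / 2) ^ k)) -
        ∑ j ∈ Finset.range (2 ^ q), ρ.real (arc (θ + j * (1 / 2) ^ (k + q)) (θ + (j + 1) * (1 / 2) ^ (k + q))) /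
          ρ.real (arc θ (θ + (1 / 2) ^ k)) * F (z j)| ≤ ω := by
    intro ρ _ hρ
    have hsub : ∀ j, ∀ w ∈ arc (θ + j * (1 / 2) ^ (k + q)) (θ + (j + 1) * (1 / 2) ^ (k + q)), |F w| ≤ M := by
      rintro j w ⟨t, -, rfl⟩
      exact hM _ (norm_e t)
    have hint : ∀ j : ℕ, IntegrableOn F (arc (θ + j * (1 / 2) ^ (k + q)) (θ + (j + 1) * (1 / 2) ^ (k + q))) ρ := by
      intro j
      refine Integrable.of_bound (C := M) hFm.aestronglyMeasurable ?_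
      filter_upwards [ae_restrict_mem (hellc_meas θ k q j)] with w hw
      exact hsub j w hw
    have hsum : ∫ w in arc θ (θ + (1 / 2) ^ k), F w ∂ρ =
        ∑ j ∈ Finset.range (2 ^ q), ∫ w in arc (θ + j * (1 / 2) ^ (k + q)) (θ + (j + 1) * (1 / 2) ^ (k + q)), F w ∂ρ := by
      rw [hellc_arc_eq θ k q]
      exact integral_biUnion_finset _ (fun j _ => hellc_meas θ k q j) (hellc_disj θ k q) (fun j _ => hint j)
    have hone : ∀ j ∈ Finset.range (2 ^ q),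
        |(∫ w in arc (θ + j * (1 / 2) ^ (k + q)) (θ + (j + 1) * (1 / 2) ^ (k + q)), F w ∂ρ) -
          ρ.real (arc (θ + j * (1 / 2) ^ (k + q)) (θ + (j + 1) * (1 / 2) ^ (k + q))) * F (z j)| ≤
        ω * ρ.real (arc (θ + j * (1 / 2) ^ (k + q)) (θ + (j + 1) * (1 / 2) ^ (k + q))) := by
      intro j hj
      have hc : ρ.real (arc (θ + j * (1 / 2) ^ (k + q)) (θ + (j + 1) * (1 / 2) ^ (k + q))) * F (z j) =
          ∫ w in arc (θ + j * (1 / 2) ^ (k + q)) (θ + (j + 1) * (1 / 2) ^ (k + q)), F (z j) ∂ρ := by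
        rw [setIntegral_const, smul_eq_mul]
      rw [hc, ← integral_sub (hint j) (integrable_const _)]
      have := norm_setIntegral_le_of_norm_le_const (μ := ρ) (f := fun w => F w - F (z j))
        (s := arc (θ + j * (1 / 2) ^ (k + q)) (θ + (j + 1) * (1 / 2) ^ (k + q))) (C := ω) (measure_lt_top _ _)
        (fun w hw => by
          rw [Real.norm_eq_abs]
          exact hω j (Finset.mem_range.1 hj) w hw (z j) (hz j))
      rwa [Real.norm_eq_abs] at this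
    have hω0 : (∫ w in arc θ (θ + (1 / 2) ^ k), F w ∂ρ) / ρ.real (arc θ (θ + (1 / 2) ^ k)) -
        ∑ j ∈ Finset.range (2 ^ q), ρ.real (arc (θ + j * (1 / 2) ^ (k + q)) (θ + (j + 1) * (1 / 2) ^ (k + q))) /
          ρ.real (arc θ (θ + (1 / 2) ^ k)) * F (z j) =
        (∑ j ∈ Finset.range (2 ^ q), ((∫ w in arc (θ + j * (1 / 2) ^ (k + q)) (θ + (j + 1) * (1 / 2) ^ (k + q)), F w ∂ρ) -
          ρ.real (arc (θ + j * (1 / 2) ^ (k + q)) (θ + (j + 1) * (1 / 2) ^ (k + q))) * F (z j))) /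
          ρ.real (arc θ (θ + (1 / 2) ^ k)) := by
      rw [Finset.sum_sub_distrib, sub_div, hsum]
      congr 1
      rw [Finset.sum_div]
      exact Finset.sum_congr rfl fun j _ => by ring
    rw [hω0, abs_div, abs_of_pos hρ, div_le_iff₀ hρ]
    calc _ ≤ ∑ j ∈ Finset.range (2 ^ q), |(∫ w in arc (θ + j * (1 / 2) ^ (k + q)) (θ + (j + 1) * (1 / 2) ^ (k + q)), F w ∂ρ) -
          ρ.real (arc (θ + j * (1 / 2) ^ (k + q)) (θ + (j + 1) * (1 / 2) ^ (k + q))) * F (z j)| := Finset.abs_sum_le_sum_abs _ _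
      _ ≤ ∑ j ∈ Finset.range (2 ^ q), ω * ρ.real (arc (θ + j * (1 / 2) ^ (k + q)) (θ + (j + 1) * (1 / 2) ^ (k + q))) :=
        Finset.sum_le_sum hone
      _ = ω * ρ.real (arc θ (θ + (1 / 2) ^ k)) := by rw [← Finset.mul_sum, ← arc_split]
  have A := main μ hμ
  have B := main m hm
  have hab : ∀ (ρ : Measure ℂ) [IsFiniteMeasure ρ], 0 < ρ.real (arc θ (θ + (1 / 2) ^ k)) →
      ∑ j ∈ Finset.range (2 ^ q), ρ.real (arc (θ + j * (1 / 2) ^ (k + q)) (θ + (j + 1) * (1 / 2) ^ (k + q))) /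
          ρ.real (arc θ (θ + (1 / 2) ^ k)) = 1 := by
    intro ρ _ hρ
    rw [← Finset.sum_div, ← arc_split, div_self hρ.ne']
  have tv := hell_tv (Finset.range (2 ^ q))
    (fun j => μ.real (arc (θ + j * (1 / 2) ^ (k + q)) (θ + (j + 1) * (1 / 2) ^ (k + q))) / μ.real (arc θ (θ + (1 / 2) ^ k)))
    (fun j => m.real (arc (θ + j * (1 / 2) ^ (k + q)) (θ + (j + 1) * (1 / 2) ^ (k + q))) / m.real (arc θ (θ + (1 / 2) ^ k)))
    (fun j _ => div_nonneg measureReal_nonneg measureReal_nonneg)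
    (fun j _ => div_nonneg measureReal_nonneg measureReal_nonneg) (hab μ hμ) (hab m hm) ε hε (by
      have h0 : 0 < aff μ m θ k 0 := by rw [hellc_aff_zero]; exact Real.sqrt_pos.2 (mul_pos hμ hm)
      have h1 : 1 - ε ≤ aff μ m θ k q / aff μ m θ k 0 := by rw [le_div_iff₀ h0]; exact haff
      refine h1.trans (le_of_eq ?_)
      rw [hellc_aff_zero, aff, Finset.sum_div]
      refine Finset.sum_congr rfl fun j _ => ?_
      rw [div_mul_div_comm, Real.sqrt_div (mul_nonneg measureReal_nonneg measureReal_nonneg)])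
  have C : |∑ j ∈ Finset.range (2 ^ q), μ.real (arc (θ + j * (1 / 2) ^ (k + q)) (θ + (j + 1) * (1 / 2) ^ (k + q))) /
          μ.real (arc θ (θ + (1 / 2) ^ k)) * F (z j) -
        ∑ j ∈ Finset.range (2 ^ q), m.real (arc (θ + j * (1 / 2) ^ (k + q)) (θ + (j + 1) * (1 / 2) ^ (k + q))) /
          m.real (arc θ (θ + (1 / 2) ^ k)) * F (z j)| ≤ 2 * √(2 * ε) * M := by
    rw [← Finset.sum_sub_distrib]
    refine (Finset.abs_sum_le_sum_abs _ _).trans ?_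
    refine le_trans ?_ (mul_le_mul_of_nonneg_right tv h00)
    rw [Finset.sum_mul]
    refine Finset.sum_le_sum fun j _ => ?_
    rw [← sub_mul, abs_mul]
    exact mul_le_mul_of_nonneg_left (hM _ (hz1 j)) (abs_nonneg _)
  rw [abs_le] at A B C ⊢
  constructor <;> linarith [A.1, A.2, B.1, B.2, C.1, C.2]

/-- Let `I` be the arc, `I_j` the subarcs, `a_j = μ I_j / μ I`, `b_j = m I_j / m I`; `hell_tv` (dividing the inequality by `√(μ I m I) = aff μ m θ k 0`). With points `z_j ∈ I_j` `|(1/μ I) ∫_I F dμ - ∑ a_j F(z_j)| ≤ ω`, same for `m`, and `|∑ (a_j - b_j) F z_j| ≤ M ∑ |a_j - b_j|`. -/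
theorem aff_int (μ m : Measure ℂ) [IsFiniteMeasure μ] [IsFiniteMeasure m] (θ : ℝ) (k q : ℕ) (ε : ℝ) (hε : 0 ≤ ε)
    (hμ : 0 < μ.real (arc θ (θ + (1 / 2) ^ k))) (hm : 0 < m.real (arc θ (θ + (1 / 2) ^ k)))
    (haff : (1 - ε) * aff μ m θ k 0 ≤ aff μ m θ k q) (F : ℂ → ℝ) (hFm : Measurable F) (M ω : ℝ) (hM : ∀ z, ‖z‖ = 1 → |F z| ≤ M)
    (hω : ∀ j < 2 ^ q, ∀ z ∈ arc (θ + j * (1 / 2) ^ (k + q)) (θ + (j + 1) * (1 / 2) ^ (k + q)),
      ∀ w ∈ arc (θ + j * (1 / 2) ^ (k + q)) (θ + (j + 1) * (1 / 2) ^ (k + q)), |F z - F w| ≤ ω) :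
    |(∫ z in arc θ (θ + (1 / 2) ^ k), F z ∂μ) / μ.real (arc θ (θ + (1 / 2) ^ k)) -
      (∫ z in arc θ (θ + (1 / 2) ^ k), F z ∂m) / m.real (arc θ (θ + (1 / 2) ^ k))| ≤ 2 * √(2 * ε) * M + 2 * ω := by
  refine aff_int_nat μ m θ k q ε hε hμ hm haff F hFm M ω hM fun j hj => ?_
  exact hω (j : ℝ) (by exact_mod_cast hj)

end Pool.Agent.DD
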