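import Pool.Agent.Lib_MP_644907_full.Minimal

/-!
# Piece HORO: horoballs without orbit points
-/

set_option autoImplicit false

namespace Pool.Agent.DD

open MeasureTheory Filter Topology Metric

variable {Γ : Type} [Group Γ] [MulAction Γ ℂ]

/-- large disks without orbit points: `¬ Cocpt` (with `R < 1` such that `Q ≤ 1 / (1 - R²)`) gives `z` with `|γ z| > R` for all `γ`, i.e. `qd z (γ 0) = qd (γ⁻¹ z) 0 = 1 / (1 - |γ⁻¹ z|²) ≥ Q` for all `γ`; the minimum over `γ` is attained at some `γ₀`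
(`Fuchs.finite_qd`); replace `z` by `γ₀⁻¹ z` (`Fuchs.qd_smul`) -/
theorem empty_disk (h : Fuchs Γ) (hc : ¬ Cocpt Γ) (Q : ℝ) : ∃ z : ℂ, ‖z‖ < 1 ∧ Q ≤ qd z 0 ∧ ∀ γ : Γ, qd z 0 ≤ qd z (γ • (0 : ℂ)) := by
  obtain ⟨M, hM1, hMQ⟩ : ∃ M : ℝ, 1 ≤ M ∧ Q ≤ M := ⟨max 1 Q, le_max_left _ _, le_max_right _ _⟩
  have hM0 : 0 < M := lt_of_lt_of_le one_pos hM1
  have hR0 : 0 ≤ 1 - 1 / M := by
    have : 1 / M ≤ 1 := by rw [div_le_one hM0]; exact hM1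
    linarith
  have hRsq : √(1 - 1 / M) ^ 2 = 1 - 1 / M := Real.sq_sqrt hR0
  have hR1 : √(1 - 1 / M) < 1 := by
    rw [Real.sqrt_lt' one_pos]
    have : 0 < 1 / M := by positivity
    linarith
  have hex : ∃ z : ℂ, ‖z‖ < 1 ∧ ∀ γ : Γ, √(1 - 1 / M) < ‖γ • z‖ := by
    by_contra hcon
    push Not at hcon
    exact hc ⟨√(1 - 1 / M), hR1, fun z hz => hcon z hz⟩
  obtain ⟨z, hz, hzR⟩ := hex
  have h0 : ‖(0 : ℂ)‖ < 1 := by rw [norm_zero]; exact one_pos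
  have hqd0 : ∀ w : ℂ, qd w 0 = (1 - ‖w‖ ^ 2)⁻¹ := fun w => by rw [qd_comm, qd_zero]
  have hQ : ∀ γ : Γ, Q ≤ qd (γ • z) 0 := by
    intro γ
    have h1 := h.norm_lt γ hz
    have h2 := hzR γ
    have h3 : 0 < 1 - ‖γ • z‖ ^ 2 := geoA_pos h1
    have h4 : 1 - ‖γ • z‖ ^ 2 ≤ 1 / M := by
      have h5 : √(1 - 1 / M) ^ 2 ≤ ‖γ • z‖ ^ 2 := pow_le_pow_left₀ (Real.sqrt_nonneg _) h2.le 2
      rw [hRsq] at h5
      linarith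
    rw [hqd0]
    refine hMQ.trans ?_
    rw [le_inv_comm₀ hM0 h3, ← one_div]
    exact h4
  have hfin : {γ : Γ | qd z (γ • (0 : ℂ)) ≤ qd z ((1 : Γ) • (0 : ℂ))}.Finite := h.finite_qd hz h0 _
  have hne : {γ : Γ | qd z (γ • (0 : ℂ)) ≤ qd z ((1 : Γ) • (0 : ℂ))}.Nonempty :=
    ⟨1, le_refl (qd z ((1 : Γ) • (0 : ℂ)))⟩
  obtain ⟨γ₀, hγ₀, hmin⟩ := Set.exists_min_image _ (fun γ : Γ => qd z (γ • (0 : ℂ))) hfin hne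
  have hmin' : ∀ γ : Γ, qd z (γ₀ • (0 : ℂ)) ≤ qd z (γ • (0 : ℂ)) := by
    intro γ
    by_cases hγ : γ ∈ {γ : Γ | qd z (γ • (0 : ℂ)) ≤ qd z ((1 : Γ) • (0 : ℂ))}
    · exact hmin γ hγ
    · have h1 : qd z ((1 : Γ) • (0 : ℂ)) < qd z (γ • (0 : ℂ)) := not_le.1 hγ
      exact le_trans hγ₀ h1.le
  have hkey : ∀ γ : Γ, qd (γ₀⁻¹ • z) (γ • (0 : ℂ)) = qd z ((γ₀ * γ) • (0 : ℂ)) := by
    intro γ
    have h1 := h.qd_smul γ₀⁻¹ hz (h.norm0 (γ₀ * γ))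
    rw [← mul_smul γ₀⁻¹ (γ₀ * γ) (0 : ℂ), inv_mul_cancel_left] at h1
    exact h1
  have hkey0 : qd (γ₀⁻¹ • z) 0 = qd z (γ₀ • (0 : ℂ)) := by
    have h1 := hkey 1
    rw [one_smul, mul_one] at h1
    exact h1
  refine ⟨γ₀⁻¹ • z, h.norm_lt _ hz, hQ _, fun γ => ?_⟩
  rw [hkey, hkey0]
  exact hmin' _

/-- Let `z_n` be the points of `empty_disk` for `Q = n`; `1 / (1 - |z_n|²) = qd z_n 0 ≥ n` so `|z_n| → 1`; a subsequence converges to `ξ`, `|ξ| = 1`. For `γ ∈ Γ`, `w = γ 0`: `qd z_n 0 ≤ qd z_n w` says `1 - |w|² ≤ |1 - conj z_n w|²`, and the right side tends to `|1 - conj ξ w|² = |ξ - w|²`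
(`norm_one_sub_sphere`). So `κ = 1`. -/
theorem horo_exists (h : Fuchs Γ) (hc : ¬ Cocpt Γ) : ∃ ξ : ℂ, ‖ξ‖ = 1 ∧ Horo Γ ξ := by
  choose z hz1 hz2 hz3 using fun n : ℕ => empty_disk h hc (n : ℝ)
  have hball : ∀ n, z n ∈ closedBall (0 : ℂ) 1 := fun n => mem_closedBall_zero_iff.2 (hz1 n).le
  obtain ⟨ξ, hξ, φ, hφ, hlim⟩ := (isCompact_closedBall (0 : ℂ) 1).tendsto_subseq hball
  have hqd0 : ∀ w : ℂ, qd w 0 = (1 - ‖w‖ ^ 2)⁻¹ := fun w => by rw [qd_comm, qd_zero]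
  have hξ1 : ‖ξ‖ ≤ 1 := mem_closedBall_zero_iff.1 hξ
  have hlimn : Tendsto (fun n => 1 - ‖(z ∘ φ) n‖ ^ 2) atTop (𝓝 (1 - ‖ξ‖ ^ 2)) :=
    tendsto_const_nhds.sub ((hlim.norm).pow 2)
  have hinv : Tendsto (fun n : ℕ => ((φ n : ℕ) : ℝ)⁻¹) atTop (𝓝 0) :=
    (tendsto_inv_atTop_nhds_zero_nat (𝕜 := ℝ)).comp hφ.tendsto_atTop
  have hle : 1 - ‖ξ‖ ^ 2 ≤ 0 := by
    refine le_of_tendsto_of_tendsto hlimn hinv ?_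
    filter_upwards [eventually_ge_atTop 1] with n hn
    have hφn : 1 ≤ φ n := hn.trans (hφ.id_le n)
    have hφ0 : (0 : ℝ) < (φ n : ℝ) := by exact_mod_cast hφn
    have h1 := hz2 (φ n)
    rw [hqd0] at h1
    have h3 : 0 < 1 - ‖z (φ n)‖ ^ 2 := geoA_pos (hz1 _)
    rw [le_inv_comm₀ hφ0 h3] at h1
    exact h1
  have hξn : ‖ξ‖ = 1 := by
    refine le_antisymm hξ1 ?_
    by_contra hcon
    push Not at hcon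
    have := geoA_pos hcon
    linarith
  refine ⟨ξ, hξn, 1, one_pos, fun γ => ?_⟩
  have hw := h.norm0 γ
  have hwp : 0 < 1 - ‖γ • (0 : ℂ)‖ ^ 2 := geoA_pos hw
  have hlim2 : Tendsto (fun n => ‖1 - starRingEnd ℂ (γ • (0 : ℂ)) * (z ∘ φ) n‖ ^ 2) atTop
      (𝓝 (‖1 - starRingEnd ℂ (γ • (0 : ℂ)) * ξ‖ ^ 2)) :=
    ((tendsto_const_nhds.sub (tendsto_const_nhds.mul hlim)).norm).pow 2
  have hge : 1 - ‖γ • (0 : ℂ)‖ ^ 2 ≤ ‖1 - starRingEnd ℂ (γ • (0 : ℂ)) * ξ‖ ^ 2 := by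
    refine ge_of_tendsto' hlim2 fun n => ?_
    have h1 := hz3 (φ n) γ
    have h3 : 0 < 1 - ‖z (φ n)‖ ^ 2 := geoA_pos (hz1 _)
    rw [hqd0, qd_comm] at h1
    unfold qd at h1
    rw [inv_le_iff_one_le_mul₀' h3, ← mul_div_assoc, one_le_div (mul_pos hwp h3), mul_comm (1 - ‖z (φ n)‖ ^ 2)] at h1
    exact le_of_mul_le_mul_right h1 h3
  rw [norm_one_sub_sphere hξn, norm_sub_rev] at hge
  rw [one_mul]
  exact hge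

/-- `Horo Γ z` says that `pk (γ 0) z ≤ 1 / κ` for all `γ`; `pk (γ 0) (x z) * pk (x⁻¹ 0) z = pk (x⁻¹ γ 0) z` (`Fuchs.pk_smul` for `x` and the point `x⁻¹ γ 0`), `pk (x⁻¹ 0) z > 0` fixed -/
theorem horo_smul (h : Fuchs Γ) (z : ℂ) (hz : ‖z‖ = 1) (x : Γ) (hh : Horo Γ z) : Horo Γ (x • z) := by
  obtain ⟨κ, hκ, hH⟩ := hh
  have hp : 0 < pk (x⁻¹ • (0 : ℂ)) z := pk_pos (h.norm0 _) hz
  refine ⟨κ * pk (x⁻¹ • (0 : ℂ)) z, mul_pos hκ hp, fun γ => ?_⟩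
  have h1 := h.pk_smul x (h.norm0 (x⁻¹ * γ)) hz
  rw [← mul_smul x (x⁻¹ * γ) (0 : ℂ), mul_inv_cancel_left] at h1
  have h2 := hH (x⁻¹ * γ)
  have hxz : ‖x • z‖ = 1 := h.norm_eq x hz
  have hn : 0 < ‖x • z - γ • (0 : ℂ)‖ := by
    have h3 := norm_sub_norm_le (x • z) (γ • (0 : ℂ))
    have h4 := h.norm0 γ
    linarith
  have hn2 : 0 < ‖z - (x⁻¹ * γ) • (0 : ℂ)‖ := by
    have h3 := norm_sub_norm_le z ((x⁻¹ * γ) • (0 : ℂ))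
    have h4 := h.norm0 (x⁻¹ * γ)
    linarith
  have h5 : κ * pk ((x⁻¹ * γ) • (0 : ℂ)) z ≤ 1 := by
    unfold pk
    rw [← mul_div_assoc, div_le_one (pow_pos hn2 2), norm_sub_rev]
    exact h2
  rw [← h1] at h5
  have h6 : pk (γ • (0 : ℂ)) (x • z) * ‖x • z - γ • (0 : ℂ)‖ ^ 2 = 1 - ‖γ • (0 : ℂ)‖ ^ 2 := by
    unfold pk
    rw [div_mul_cancel₀ _ (pow_pos hn 2).ne']
  rw [norm_sub_rev (γ • (0 : ℂ)), ← h6]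
  have h7 := mul_le_mul_of_nonneg_right h5 (pow_pos hn 2).le
  rw [one_mul] at h7
  linarith only [h7]

/-- `horo_exists`, `horo_smul`, `orbit_dense` -/
theorem horo_dense (h : Fuchs Γ) (hL : (Lim Γ).Infinite) (hc : ¬ Cocpt Γ) (a : ℂ) (ha : a ∈ Lim Γ) (ε : ℝ) (hε : 0 < ε) :
    ∃ ξ : ℂ, ‖ξ‖ = 1 ∧ ‖ξ - a‖ < ε ∧ Horo Γ ξ := by
  obtain ⟨ξ₀, hξ₀, hH⟩ := horo_exists h hc
  obtain ⟨γ, hγ⟩ := orbit_dense h hL a ξ₀ ha hξ₀ ε hε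
  exact ⟨γ • ξ₀, h.norm_eq γ hξ₀, hγ, horo_smul h ξ₀ hξ₀ γ hH⟩

end Pool.Agent.DD
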