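import Pool.Agent.Lib_MP_644907_full.Base

/-!
# Piece ISO1: the basic formulas for isometries of the disk
-/

set_option autoImplicit false

namespace Pool.Agent.DD

namespace Iso1Aux

open DimDrop.IsoDAux

theorem alpha_pos {α β : ℂ} (h : ‖α‖ ^ 2 - ‖β‖ ^ 2 = 1) : 0 < ‖α‖ := by
  rcases (norm_nonneg α).lt_or_eq with h1 | h1
  · exact h1
  · exfalso
    rw [← h1] at h
    nlinarith [sq_nonneg ‖β‖]

theorem hab {α β : ℂ} (h : ‖α‖ ^ 2 - ‖β‖ ^ 2 = 1) : α * starRingEnd ℂ α - β * starRingEnd ℂ β = 1 := by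
  rw [Complex.mul_conj, Complex.mul_conj, Complex.normSq_eq_norm_sq, Complex.normSq_eq_norm_sq]
  exact_mod_cast h

theorem one_sub_norm {α β : ℂ} (h : ‖α‖ ^ 2 - ‖β‖ ^ 2 = 1) (z : ℂ) :
    ‖1 - starRingEnd ℂ (-β / α) * z‖ = ‖starRingEnd ℂ β * z + starRingEnd ℂ α‖ / ‖α‖ := by
  have hα := alpha_pos h
  have hα0 : α ≠ 0 := norm_pos_iff.1 hα
  have hα1 : starRingEnd ℂ α ≠ 0 := (map_ne_zero _).2 hα0
  have e1 : 1 - starRingEnd ℂ (-β / α) * z = (starRingEnd ℂ β * z + starRingEnd ℂ α) / starRingEnd ℂ α := by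
    rw [map_div₀, map_neg]
    field_simp
    ring
  rw [e1, norm_div, Complex.norm_conj]

theorem one_sub_a {α β : ℂ} (h : ‖α‖ ^ 2 - ‖β‖ ^ 2 = 1) : 1 - ‖-β / α‖ ^ 2 = 1 / ‖α‖ ^ 2 := by
  have hα := alpha_pos h
  rw [norm_div, norm_neg, div_pow]
  field_simp
  linarith

theorem norm_a {α β : ℂ} (h : ‖α‖ ^ 2 - ‖β‖ ^ 2 = 1) : ‖-β / α‖ < 1 := by
  have hα := alpha_pos h
  rw [norm_div, norm_neg, div_lt_one hα]
  nlinarith [norm_nonneg β]

theorem phi_a {α β : ℂ} (h : ‖α‖ ^ 2 - ‖β‖ ^ 2 = 1) : phi α β (-β / α) = 0 := by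
  have hα := alpha_pos h
  have hα0 : α ≠ 0 := norm_pos_iff.1 hα
  unfold phi
  rw [mul_div_cancel₀ _ hα0, neg_add_cancel, zero_div]

theorem phi_zero {α β : ℂ} : ‖phi α β 0‖ = ‖-β / α‖ := by
  unfold phi
  rw [mul_zero, mul_zero, zero_add, zero_add, norm_div, norm_div, Complex.norm_conj, norm_neg]

theorem phi_sub {α β : ℂ} (h : ‖α‖ ^ 2 - ‖β‖ ^ 2 = 1) {z w : ℂ} (hz : ‖z‖ ≤ 1) (hw : ‖w‖ ≤ 1) :
    ‖phi α β z - phi α β w‖ * (‖1 - starRingEnd ℂ (-β / α) * z‖ * ‖1 - starRingEnd ℂ (-β / α) * w‖) =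
      (1 - ‖-β / α‖ ^ 2) * ‖z - w‖ := by
  have hdz := den_ne h hz
  have hdw := den_ne h hw
  have hα := alpha_pos h
  have e2 : phi α β z - phi α β w = (z - w) / ((starRingEnd ℂ β * z + starRingEnd ℂ α) *
      (starRingEnd ℂ β * w + starRingEnd ℂ α)) := by
    unfold phi
    rw [div_sub_div _ _ hdz hdw]
    congr 1
    linear_combination (z - w) * hab h
  have hdz0 : 0 < ‖starRingEnd ℂ β * z + starRingEnd ℂ α‖ := norm_pos_iff.2 hdz
  have hdw0 : 0 < ‖starRingEnd ℂ β * w + starRingEnd ℂ α‖ := norm_pos_iff.2 hdw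
  rw [e2, one_sub_norm h, one_sub_norm h, one_sub_a h, norm_div, norm_mul]
  generalize ‖starRingEnd ℂ β * z + starRingEnd ℂ α‖ = A at hdz0 ⊢
  generalize ‖starRingEnd ℂ β * w + starRingEnd ℂ α‖ = B at hdw0 ⊢
  field_simp

theorem phi_one_sub {α β : ℂ} (h : ‖α‖ ^ 2 - ‖β‖ ^ 2 = 1) {z w : ℂ} (hz : ‖z‖ ≤ 1) (hw : ‖w‖ ≤ 1) :
    ‖1 - starRingEnd ℂ (phi α β z) * phi α β w‖ *
      (‖1 - starRingEnd ℂ (-β / α) * z‖ * ‖1 - starRingEnd ℂ (-β / α) * w‖) =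
      (1 - ‖-β / α‖ ^ 2) * ‖1 - starRingEnd ℂ z * w‖ := by
  have hdz := den_ne h hz
  have hdw := den_ne h hw
  have hα := alpha_pos h
  have hdz' : starRingEnd ℂ (starRingEnd ℂ β * z + starRingEnd ℂ α) ≠ 0 := (map_ne_zero _).2 hdz
  have e2 : 1 - starRingEnd ℂ (phi α β z) * phi α β w = (1 - starRingEnd ℂ z * w) /
      (starRingEnd ℂ (starRingEnd ℂ β * z + starRingEnd ℂ α) * (starRingEnd ℂ β * w + starRingEnd ℂ α)) := by
    unfold phi
    rw [map_div₀, div_mul_div_comm, one_sub_div (mul_ne_zero hdz' hdw)]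
    congr 1
    simp only [map_add, map_mul, Complex.conj_conj]
    linear_combination (1 - starRingEnd ℂ z * w) * hab h
  have hdz0 : 0 < ‖starRingEnd ℂ β * z + starRingEnd ℂ α‖ := norm_pos_iff.2 hdz
  have hdw0 : 0 < ‖starRingEnd ℂ β * w + starRingEnd ℂ α‖ := norm_pos_iff.2 hdw
  rw [e2, one_sub_norm h, one_sub_norm h, one_sub_a h, norm_div, norm_mul, Complex.norm_conj]
  generalize ‖starRingEnd ℂ β * z + starRingEnd ℂ α‖ = A at hdz0 ⊢
  generalize ‖starRingEnd ℂ β * w + starRingEnd ℂ α‖ = B at hdw0 ⊢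
  field_simp

theorem phi_norm {α β : ℂ} (h : ‖α‖ ^ 2 - ‖β‖ ^ 2 = 1) {z : ℂ} (hz : ‖z‖ ≤ 1) :
    (1 - ‖phi α β z‖ ^ 2) * ‖1 - starRingEnd ℂ (-β / α) * z‖ ^ 2 = (1 - ‖-β / α‖ ^ 2) * (1 - ‖z‖ ^ 2) := by
  have hdz := den_ne h hz
  have hα := alpha_pos h
  have hdz0 : 0 < ‖starRingEnd ℂ β * z + starRingEnd ℂ α‖ := norm_pos_iff.2 hdz
  have h1 := key α β z
  rw [h, one_mul] at h1
  rw [one_sub_norm h, one_sub_a h, ← h1]
  unfold phi
  rw [norm_div]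
  generalize ‖starRingEnd ℂ β * z + starRingEnd ℂ α‖ = A at hdz0 ⊢
  field_simp

end Iso1Aux

open DimDrop.IsoDAux in
/-- `f z = φ z` or `φ (conj z)` on the closed disk, `φ w = (α w + β) / (conj β w + conj α)`, `|α|² - |β|² = 1`
(`DimDrop.IsoD`, see `Pool/Agent/Lib_MP_644907/IsoA.lean`: `den_ne`, `key`, ... in `DimDrop.IsoDAux`).
First case: `a = -β / α`, `1 - |a|² = 1 / |α|²`, `|1 - conj a z| = |conj β z + conj α| / |α|`,
`φ z - φ w = (z - w) / ((conj β z + conj α) (conj β w + conj α))`,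
`1 - conj (φ z) (φ w) = (1 - conj z w) / (conj (conj β z + conj α) (conj β w + conj α))` (multiply out, use `|α|² - |β|² = 1`),
`1 - |φ z|² = (1 - |z|²) / |conj β z + conj α|²` (`key`). Second case: `a = conj (-β / α)` and the same with `conj z`, `conj w`
(norms do not change under conjugation). -/
theorem iso_basic (f : ℂ → ℂ) (hf : DimDrop.IsoD f) : ∃ a : ℂ, ‖a‖ < 1 ∧ f a = 0 ∧ ‖f 0‖ = ‖a‖ ∧
    (∀ z w : ℂ, ‖z‖ ≤ 1 → ‖w‖ ≤ 1 →
      ‖f z - f w‖ * (‖1 - starRingEnd ℂ a * z‖ * ‖1 - starRingEnd ℂ a * w‖) = (1 - ‖a‖ ^ 2) * ‖z - w‖ ∧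
      ‖1 - starRingEnd ℂ (f z) * f w‖ * (‖1 - starRingEnd ℂ a * z‖ * ‖1 - starRingEnd ℂ a * w‖) =
        (1 - ‖a‖ ^ 2) * ‖1 - starRingEnd ℂ z * w‖) ∧
    (∀ z : ℂ, ‖z‖ ≤ 1 →
      (1 - ‖f z‖ ^ 2) * ‖1 - starRingEnd ℂ a * z‖ ^ 2 = (1 - ‖a‖ ^ 2) * (1 - ‖z‖ ^ 2)) := by
  obtain ⟨α, β, h, h1 | h1⟩ := hf
  · have hf1 : ∀ z : ℂ, ‖z‖ ≤ 1 → f z = phi α β z := h1
    refine ⟨-β / α, Iso1Aux.norm_a h, ?_, ?_, ?_, ?_⟩
    · rw [hf1 _ (Iso1Aux.norm_a h).le]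
      exact Iso1Aux.phi_a h
    · rw [hf1 0 (by simp)]
      exact Iso1Aux.phi_zero
    · intro z w hz hw
      rw [hf1 z hz, hf1 w hw]
      exact ⟨Iso1Aux.phi_sub h hz hw, Iso1Aux.phi_one_sub h hz hw⟩
    · intro z hz
      rw [hf1 z hz]
      exact Iso1Aux.phi_norm h hz
  · have hf1 : ∀ z : ℂ, ‖z‖ ≤ 1 → f z = phi α β (starRingEnd ℂ z) := h1
    have hn : ∀ z : ℂ, ‖1 - starRingEnd ℂ (starRingEnd ℂ (-β / α)) * z‖ =
        ‖1 - starRingEnd ℂ (-β / α) * starRingEnd ℂ z‖ := by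
      intro z
      rw [← Complex.norm_conj]
      congr 1
      simp only [map_sub, map_one, map_mul, Complex.conj_conj]
    have hc : ∀ z : ℂ, ‖z‖ ≤ 1 → ‖starRingEnd ℂ z‖ ≤ 1 := by
      intro z hz
      rw [Complex.norm_conj]
      exact hz
    refine ⟨starRingEnd ℂ (-β / α), ?_, ?_, ?_, ?_, ?_⟩
    · rw [Complex.norm_conj]
      exact Iso1Aux.norm_a h
    · rw [hf1 _ (hc _ (Iso1Aux.norm_a h).le), Complex.conj_conj]
      exact Iso1Aux.phi_a h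
    · rw [hf1 0 (by simp), map_zero, Complex.norm_conj]
      exact Iso1Aux.phi_zero
    · intro z w hz hw
      rw [hf1 z hz, hf1 w hw, hn, hn, Complex.norm_conj]
      have hn1 : ‖z - w‖ = ‖starRingEnd ℂ z - starRingEnd ℂ w‖ := by
        rw [← map_sub, Complex.norm_conj]
      have hn2 : ‖1 - starRingEnd ℂ z * w‖ = ‖1 - starRingEnd ℂ (starRingEnd ℂ z) * starRingEnd ℂ w‖ := by
        rw [← Complex.norm_conj]
        congr 1
        simp only [map_sub, map_one, map_mul, Complex.conj_conj]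
      rw [hn1, hn2]
      exact ⟨Iso1Aux.phi_sub h (hc z hz) (hc w hw), Iso1Aux.phi_one_sub h (hc z hz) (hc w hw)⟩
    · intro z hz
      rw [hf1 z hz, hn, Complex.norm_conj, ← Complex.norm_conj z]
      exact Iso1Aux.phi_norm h (hc z hz)

open DimDrop.IsoDAux in
/-- isometries are continuous on the closed disk (`den_ne`) -/
theorem iso_cont (f : ℂ → ℂ) (hf : DimDrop.IsoD f) : ContinuousOn f (Metric.closedBall 0 1) := by
  obtain ⟨α, β, h, h1 | h1⟩ := hf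
  · have hc : ContinuousOn (fun z : ℂ => (α * z + β) / (starRingEnd ℂ β * z + starRingEnd ℂ α))
        (Metric.closedBall 0 1) := by
      apply ContinuousOn.div (by fun_prop) (by fun_prop)
      intro z hz
      rw [mem_closedBall_zero_iff] at hz
      exact den_ne h hz
    refine hc.congr ?_
    intro z hz
    rw [mem_closedBall_zero_iff] at hz
    exact h1 z hz
  · have hcc : Continuous (fun z : ℂ => starRingEnd ℂ z) := Complex.continuous_conj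
    have hc : ContinuousOn (fun z : ℂ => (α * starRingEnd ℂ z + β) /
        (starRingEnd ℂ β * starRingEnd ℂ z + starRingEnd ℂ α))
        (Metric.closedBall 0 1) := by
      apply ContinuousOn.div (by fun_prop) (by fun_prop)
      intro z hz
      rw [mem_closedBall_zero_iff] at hz
      apply den_ne h
      rw [Complex.norm_conj]
      exact hz
    refine hc.congr ?_
    intro z hz
    rw [mem_closedBall_zero_iff] at hz
    exact h1 z hz

end Pool.Agent.DD
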