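import Mathlib

/-!
# Piece LININDR: linear independence of the functions `|ξ - ζ_j|^(-2 s)` near a point
-/

set_option autoImplicit false

namespace Pool.Agent.DD

open Filter Topology Metric

private theorem linindr_an (s y x : ℝ) (hxy : x ≠ y) :
    AnalyticAt ℝ (fun x : ℝ => ((x - y) ^ 2) ^ (-s)) x := by
  have h1 : AnalyticAt ℝ (fun x : ℝ => (x - y) ^ 2) x := by fun_prop
  have h2 : 0 < (x - y) ^ 2 := by
    have : x - y ≠ 0 := sub_ne_zero.2 hxy
    positivity
  have h3 : AnalyticAt ℝ (fun t : ℝ => t ^ (-s)) ((fun x : ℝ => (x - y) ^ 2) x) :=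
    (Real.contDiffAt_rpow_const_of_ne (n := ⊤) (p := -s) h2.ne').analyticAt
  exact AnalyticAt.comp (g := fun t : ℝ => t ^ (-s)) (f := fun x : ℝ => (x - y) ^ 2) h3 h1

/-- real line version: `x_j` distinct reals, `β_j` reals; if `∑ β_j |x - x_j|^(-2 s) = 0` for infinitely many `x` accumulating at a point `x₀` different from all `x_j`, then all `β_j = 0`. The function is real analytic on the component of `ℝ \ {x_j}` containing `x₀` (`|x - x_j|^(-2 s) = ((x - x_j)²)^(-s) = exp (-s log ((x - x_j)²))`), so it vanishes there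
(`AnalyticOnNhd.eqOn_zero_of_preconnected_of_frequently_eq_zero`); at an end point `x_j` of the component the term `j` is unbounded and the others are bounded, so `β_j = 0`. Remove `j` and use induction on the number of terms (if there is no end point, there are no terms). -/
theorem lin_ind_real (s : ℝ) (hs : 0 < s) (F : Finset ℝ) (β : ℝ → ℝ) (x₀ : ℝ) (hx : x₀ ∉ F)
    (hfr : ∃ᶠ x in 𝓝[≠] x₀, ∑ y ∈ F, β y * ((x - y) ^ 2) ^ (-s) = 0) : ∀ y ∈ F, β y = 0 := by
  induction F using Finset.strongInduction with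
  | H F ih =>
    rcases F.eq_empty_or_nonempty with hF | hF
    · subst hF
      simp
    obtain ⟨y₀, hy₀, hmin⟩ := F.exists_min_image (fun y => |y - x₀|) hF
    have hr : 0 < |y₀ - x₀| := abs_pos.2 (sub_ne_zero.2 (fun h => hx (h ▸ hy₀)))
    set r := |y₀ - x₀| with hrdef
    have hB : ∀ x ∈ ball x₀ r, ∀ y ∈ F, x ≠ y := by
      rintro x hxB y hy rfl
      have := hmin x hy
      rw [mem_ball, Real.dist_eq] at hxB
      linarith
    have hzero : Set.EqOn (fun x : ℝ => ∑ y ∈ F, β y * ((x - y) ^ 2) ^ (-s)) 0 (ball x₀ r) := by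
      refine AnalyticOnNhd.eqOn_zero_of_preconnected_of_frequently_eq_zero ?_
        (convex_ball x₀ r).isPreconnected (mem_ball_self hr) hfr
      intro x hxB
      refine Finset.analyticAt_fun_sum _ fun y hy => ?_
      exact analyticAt_const.mul (linindr_an s y x (hB x hxB y hy))
    have hβ : β y₀ = 0 := by
      have hne : (𝓝[ball x₀ r] y₀).NeBot := by
        rw [← mem_closure_iff_nhdsWithin_neBot, closure_ball x₀ hr.ne', mem_closedBall,
          Real.dist_eq]
      have h1 : Tendsto (fun x : ℝ => β y₀ + ((x - y₀) ^ 2) ^ s *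
          ∑ y ∈ F.erase y₀, β y * ((x - y) ^ 2) ^ (-s)) (𝓝[ball x₀ r] y₀)
          (𝓝 (β y₀ + ((y₀ - y₀) ^ 2) ^ s *
            ∑ y ∈ F.erase y₀, β y * ((y₀ - y) ^ 2) ^ (-s))) := by
        refine Tendsto.mono_left ?_ nhdsWithin_le_nhds
        refine tendsto_const_nhds.add (Tendsto.mul ?_ ?_)
        · have hc : ContinuousAt (fun x : ℝ => (x - y₀) ^ 2) y₀ := by fun_prop
          exact hc.rpow_const (Or.inr hs.le)
        · refine tendsto_finsetSum _ fun y hy => ?_
          refine tendsto_const_nhds.mul ?_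
          exact (linindr_an s y y₀ (Finset.ne_of_mem_erase hy).symm).continuousAt
      have h2 : Tendsto (fun x : ℝ => β y₀ + ((x - y₀) ^ 2) ^ s *
          ∑ y ∈ F.erase y₀, β y * ((x - y) ^ 2) ^ (-s)) (𝓝[ball x₀ r] y₀) (𝓝 0) := by
        refine tendsto_const_nhds.congr' ?_
        filter_upwards [self_mem_nhdsWithin] with x hxB
        have e := hzero hxB
        simp only [Pi.zero_apply] at e
        rw [← Finset.add_sum_erase F _ hy₀] at e
        have hpos : 0 < (x - y₀) ^ 2 := by
          have : x - y₀ ≠ 0 := sub_ne_zero.2 (hB x hxB y₀ hy₀)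
          positivity
        have e2 : ((x - y₀) ^ 2) ^ s * ((x - y₀) ^ 2) ^ (-s) = 1 := by
          rw [← Real.rpow_add hpos, add_neg_cancel, Real.rpow_zero]
        have e3 : ((x - y₀) ^ 2) ^ s * (β y₀ * ((x - y₀) ^ 2) ^ (-s) +
            ∑ y ∈ F.erase y₀, β y * ((x - y) ^ 2) ^ (-s)) = 0 := by rw [e, mul_zero]
        linear_combination β y₀ * e2 - e3
      have h3 := tendsto_nhds_unique h1 h2
      simpa [Real.zero_rpow hs.ne'] using h3
    intro y hy
    by_cases hyy : y = y₀
    · rw [hyy, hβ]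
    refine ih (F.erase y₀) (Finset.erase_ssubset hy₀) (fun h => hx (Finset.mem_of_mem_erase h)) ?_
      y (Finset.mem_erase.2 ⟨hyy, hy⟩)
    refine hfr.mono fun x e => ?_
    rw [← Finset.add_sum_erase F _ hy₀, hβ, zero_mul, zero_add] at e
    exact e

end Pool.Agent.DD
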