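import Pool.Agent.Lib_MP_644907_full.Minimal1

/-!
# Piece MINIMAL: minimality of the action on the limit set
-/

set_option autoImplicit false

namespace Pool.Agent.DD

open MeasureTheory Filter Topology Metric

variable {Γ : Type} [Group Γ] [MulAction Γ ℂ]

/-- every orbit is dense: apply `minimal` to the closure of the orbit -/
theorem orbit_dense (h : Fuchs Γ) (hL : (Lim Γ).Infinite) (a c : ℂ) (ha : a ∈ Lim Γ) (hc : ‖c‖ = 1) (ε : ℝ) (hε : 0 < ε) :
    ∃ γ : Γ, ‖γ • c - a‖ < ε := by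
  have hsub : closure (Set.range fun γ : Γ => γ • c) ⊆ sphere (0 : ℂ) 1 := by
    refine closure_minimal ?_ isClosed_sphere
    rintro _ ⟨γ, rfl⟩
    rw [mem_sphere_zero_iff_norm]
    exact h.norm_eq γ hc
  have hball : closure (Set.range fun γ : Γ => γ • c) ⊆ closedBall (0 : ℂ) 1 :=
    hsub.trans sphere_subset_closedBall
  have hinv : ∀ (γ : Γ), ∀ z ∈ closure (Set.range fun γ : Γ => γ • c),
      γ • z ∈ closure (Set.range fun γ : Γ => γ • c) := by
    intro γ z hz
    have hcont : ContinuousOn (fun z : ℂ => γ • z) (closure (Set.range fun γ : Γ => γ • c)) :=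
      (h.contOn γ).mono hball
    have h1 := hcont.image_closure (Set.mem_image_of_mem (fun z : ℂ => γ • z) hz)
    refine closure_mono ?_ h1
    rintro _ ⟨_, ⟨δ, rfl⟩, rfl⟩
    exact ⟨γ * δ, mul_smul γ δ c⟩
  have hmem := minimal h hL _ isClosed_closure
    ⟨(1 : Γ) • c, subset_closure (Set.mem_range_self (1 : Γ))⟩ hsub hinv ha
  obtain ⟨b, ⟨γ, rfl⟩, hb⟩ := Metric.mem_closure_iff.mp hmem ε hε
  refine ⟨γ, ?_⟩
  rw [← dist_eq_norm, dist_comm]
  exact hb

end Pool.Agent.DD
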