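import Pool.Agent.Lib_MP_644907_full.NoFin2

/-!
# Piece MINIMAL1: minimality of the action on the limit set
-/

set_option autoImplicit false

namespace Pool.Agent.DD

open MeasureTheory Filter Topology Metric

variable {Γ : Type} [Group Γ] [MulAction Γ ℂ]

/-- `C` is infinite by `no_fin`, so it has two points `c₁, c₂` with `|c₁ - c₂| = 2 ρ > 0`. Let `a ∈ Lim Γ`, `γ` with `|γ 0 - a| < ε` (`exists_near`), so `1 - |γ 0|² ≤ 2 ε`. One of the `c_i` has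
`|c_i - γ⁻¹ 0| ≥ ρ`, and `|0 - γ⁻¹ 0| = |γ 0| ≥ 1/2`, so `|γ c_i - γ 0| ≤ 4 ε / min ρ (1/2)` (`Fuchs.contract`). So `a` is in the closure of `C`. -/
theorem minimal (h : Fuchs Γ) (hL : (Lim Γ).Infinite) (C : Set ℂ) (hC : IsClosed C) (hne : C.Nonempty)
    (hs : C ⊆ sphere 0 1) (hinv : ∀ (γ : Γ), ∀ z ∈ C, γ • z ∈ C) : Lim Γ ⊆ C := by
  have hCinf : C.Infinite := fun hfin => no_fin h hL C hfin hne hs hinv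
  obtain ⟨c₁, h1, c₂, h2, hne'⟩ := hCinf.nontrivial
  intro a ha
  by_contra haF
  obtain ⟨ε₀, hε₀, hball⟩ := Metric.isOpen_iff.1 hC.isOpen_compl a haF
  have ha1 : ‖a‖ = 1 := by simpa using ha.2
  have hρ : 0 < ‖c₁ - c₂‖ / 2 := by
    have : 0 < ‖c₁ - c₂‖ := norm_pos_iff.2 (sub_ne_zero.2 hne')
    linarith
  set ρ := ‖c₁ - c₂‖ / 2 with hρdef
  have hK : 0 < 2 / ρ + 1 := by positivity
  obtain ⟨γ, hγ⟩ := Fuchs.exists_near (Γ := Γ) a ha (ε₀ / (2 / ρ + 1)) (by positivity)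
  have hone : 1 - ‖γ • (0 : ℂ)‖ ^ 2 ≤ 2 * ‖γ • (0 : ℂ) - a‖ := one_sub_le_dist ha1 (h.norm0 γ).le
  have hex : ∃ c ∈ C, ρ ≤ ‖c - γ⁻¹ • (0 : ℂ)‖ := by
    by_contra hcon
    push Not at hcon
    have e1 := hcon c₁ h1
    have e2 := hcon c₂ h2
    have e3 : ‖c₁ - c₂‖ ≤ ‖c₁ - γ⁻¹ • (0 : ℂ)‖ + ‖c₂ - γ⁻¹ • (0 : ℂ)‖ := by
      calc ‖c₁ - c₂‖ = ‖(c₁ - γ⁻¹ • (0 : ℂ)) - (c₂ - γ⁻¹ • (0 : ℂ))‖ := by congr 1; ring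
        _ ≤ _ := norm_sub_le _ _
    linarith
  obtain ⟨c, hc, hcρ⟩ := hex
  have hc1 : ‖c‖ = 1 := by simpa using hs hc
  have hkey := nofin_key h γ hc1
  have e1 : ‖γ • c - γ • (0 : ℂ)‖ * ρ ≤ 2 * ‖γ • (0 : ℂ) - a‖ := by
    calc ‖γ • c - γ • (0 : ℂ)‖ * ρ ≤ ‖γ • c - γ • (0 : ℂ)‖ * ‖c - γ⁻¹ • (0 : ℂ)‖ :=
          mul_le_mul_of_nonneg_left hcρ (norm_nonneg _)
      _ = 1 - ‖γ • (0 : ℂ)‖ ^ 2 := hkey
      _ ≤ _ := hone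
  have e2 : ‖γ • c - γ • (0 : ℂ)‖ ≤ 2 / ρ * ‖γ • (0 : ℂ) - a‖ := by
    rw [div_mul_eq_mul_div, le_div_iff₀ hρ]
    exact e1
  have e3 : ‖γ • c - a‖ < ε₀ := by
    calc ‖γ • c - a‖ = ‖(γ • c - γ • (0 : ℂ)) + (γ • (0 : ℂ) - a)‖ := by congr 1; ring
      _ ≤ ‖γ • c - γ • (0 : ℂ)‖ + ‖γ • (0 : ℂ) - a‖ := norm_add_le _ _
      _ ≤ (2 / ρ + 1) * ‖γ • (0 : ℂ) - a‖ := by linarith
      _ < (2 / ρ + 1) * (ε₀ / (2 / ρ + 1)) := mul_lt_mul_of_pos_left hγ hK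
      _ = ε₀ := by field_simp
  exact hball (mem_ball_iff_norm.2 e3) (hinv γ c hc)

end Pool.Agent.DD
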