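import Pool.Agent.Lib_MP_644907_full.ConfL

/-!
# Piece NTG0: two lemmas about measures
-/

set_option autoImplicit false

namespace Pool.Agent.DD

open MeasureTheory Filter Topology Metric

variable {Γ : Type} [Group Γ] [MulAction Γ ℂ] {m : Measure ℂ} {s : ℝ}

/-- the continuous functions which approximate the indicator function of an open set -/
theorem ntg0_tendsto (μ : Measure ℂ) [IsFiniteMeasure μ] (V : Set ℂ) (hV : IsOpen V)
    (hne : (Vᶜ).Nonempty) :
    Tendsto (fun n : ℕ => ∫ z, min 1 ((n : ℝ) * infDist z Vᶜ) ∂μ) atTop (𝓝 (μ.real V)) := by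
  rw [← integral_indicator_one hV.measurableSet]
  refine tendsto_integral_of_dominated_convergence (fun _ => (1 : ℝ)) (fun n => ?_)
    (integrable_const _) (fun n => ?_) ?_
  · exact (continuous_const.min
      (continuous_const.mul (continuous_infDist_pt _))).aestronglyMeasurable
  · refine Eventually.of_forall fun z => ?_
    rw [Real.norm_of_nonneg (le_min zero_le_one (mul_nonneg (Nat.cast_nonneg n) infDist_nonneg))]
    exact min_le_left _ _
  · refine Eventually.of_forall fun z => ?_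
    by_cases hz : z ∈ V
    · have hpos : 0 < infDist z Vᶜ := by
        refine (hV.isClosed_compl.notMem_iff_infDist_pos hne).1 ?_
        simpa using hz
      rw [Set.indicator_of_mem hz]
      refine tendsto_const_nhds.congr' ?_
      obtain ⟨N, hN⟩ := exists_nat_gt (1 / infDist z Vᶜ)
      filter_upwards [eventually_ge_atTop N] with n hn
      have h1 : 1 / infDist z Vᶜ < n := lt_of_lt_of_le hN (by exact_mod_cast hn)
      have h2 : 1 < (n : ℝ) * infDist z Vᶜ := by
        rwa [div_lt_iff₀ hpos] at h1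
      simp [min_eq_left h2.le]
    · rw [Set.indicator_of_notMem hz]
      have h0 : infDist z Vᶜ = 0 := infDist_zero_of_mem (by simpa using hz)
      simp [h0]

theorem ntg0_open (μ μ' : Measure ℂ) [IsFiniteMeasure μ] [IsFiniteMeasure μ'] (B : Set ℂ)
    (hf : ∀ f : ℂ → ℝ, Continuous f → (∀ z, 0 ≤ f z ∧ f z ≤ 1) → (∀ z, z ∉ B → f z = 0) →
      ∫ z, f z ∂μ = ∫ z, f z ∂μ')
    (V : Set ℂ) (hV : IsOpen V) (hVB : V ⊆ B) : μ V = μ' V := by
  have key : μ.real V = μ'.real V := by
    rcases (Vᶜ).eq_empty_or_nonempty with h | hne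
    · have hV' : V = Set.univ := Set.compl_empty_iff.1 h
      subst hV'
      have := hf (fun _ => 1) continuous_const (fun _ => ⟨zero_le_one, le_rfl⟩)
        (fun z hz => absurd (hVB (Set.mem_univ z)) hz)
      simpa using this
    · refine tendsto_nhds_unique (ntg0_tendsto μ V hV hne) ?_
      have h2 := ntg0_tendsto μ' V hV hne
      refine h2.congr fun n => ?_
      refine (hf _ (continuous_const.min (continuous_const.mul (continuous_infDist_pt _)))
        (fun z => ⟨le_min zero_le_one (mul_nonneg (Nat.cast_nonneg n) infDist_nonneg),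
          min_le_left _ _⟩) (fun z hz => ?_)).symm
      have h0 : infDist z Vᶜ = 0 := infDist_zero_of_mem (fun h => hz (hVB h))
      simp [h0]
  exact (ENNReal.toReal_eq_toReal_iff' (measure_ne_top _ _) (measure_ne_top _ _)).1 key

/-- two finite measures with the same integrals over all continuous functions `0 ≤ f ≤ 1` which vanish off an open set `B` agree on the subsets of `B`: for `g` continuous, `0 ≤ g ≤ 1`, apply the hypothesis to `g * min 1 (k dist(·, Bᶜ))` and let `k → ∞` (dominated convergence): `∫_B g dμ = ∫_B g dμ'`;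
so `μ.restrict B = μ'.restrict B` (`ext_of_forall_lintegral_eq_of_IsFiniteMeasure` or `ext_of_forall_integral_eq_of_IsFiniteMeasure`). -/
theorem restrict_eq (μ μ' : Measure ℂ) [IsFiniteMeasure μ] [IsFiniteMeasure μ'] (B : Set ℂ) (hB : IsOpen B)
    (hf : ∀ f : ℂ → ℝ, Continuous f → (∀ z, 0 ≤ f z ∧ f z ≤ 1) → (∀ z, z ∉ B → f z = 0) → ∫ z, f z ∂μ = ∫ z, f z ∂μ')
    (A : Set ℂ) (hA : MeasurableSet A) (hAB : A ⊆ B) : μ A = μ' A := by
  have h : μ.restrict B = μ'.restrict B := by
    refine ext_of_generate_finite {V : Set ℂ | IsOpen V} BorelSpace.measurable_eq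
      isPiSystem_isOpen (fun V hV => ?_) ?_
    · rw [Measure.restrict_apply' hB.measurableSet, Measure.restrict_apply' hB.measurableSet]
      exact ntg0_open μ μ' B hf _ (IsOpen.inter hV hB) Set.inter_subset_right
    · rw [Measure.restrict_apply_univ, Measure.restrict_apply_univ]
      exact ntg0_open μ μ' B hf _ hB subset_rfl
  have h1 := congrArg (fun ρ : Measure ℂ => ρ A) h
  simp only [Measure.restrict_apply hA, Set.inter_eq_left.2 hAB] at h1
  exact h1

theorem ntg0_pos (h : Fuchs Γ) (hL : (Lim Γ).Infinite) (hcf : Conf Γ m s) (β : ℂ) (t' : ℝ)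
    (φ : ℂ → ℝ) (hφ : ContinuousOn φ (ball β t'))
    (h0 : ∀ A : Set ℂ, MeasurableSet A → A ⊆ ball β t' → ∫ ξ in A, φ ξ ∂m = 0) (ξ : ℂ)
    (hξ : ξ ∈ Lim Γ) (hξ' : ξ ∈ ball β t') (hpos : 0 < φ ξ) : False := by
  have := hcf.fin
  have hc : ContinuousAt φ ξ := hφ.continuousAt (isOpen_ball.mem_nhds hξ')
  have h1 : ∀ᶠ z in 𝓝 ξ, φ z ∈ Set.Ioo (φ ξ / 2) (2 * φ ξ) :=
    hc.eventually (Ioo_mem_nhds (by linarith) (by linarith))
  have h2 : ∀ᶠ z in 𝓝 ξ, z ∈ ball β t' := isOpen_ball.mem_nhds hξ'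
  obtain ⟨δ, hδ, hb⟩ := Metric.eventually_nhds_iff_ball.1 (h1.and h2)
  have hm : 0 < m (ball ξ δ) := conf_pos h hL hcf _ isOpen_ball ⟨ξ, mem_ball_self hδ, hξ⟩
  have hm' : 0 < m.real (ball ξ δ) := ENNReal.toReal_pos hm.ne' (measure_ne_top _ _)
  have hsub : ball ξ δ ⊆ ball β t' := fun z hz => (hb z hz).2
  have hint : IntegrableOn φ (ball ξ δ) m := by
    refine Integrable.of_bound ((hφ.mono hsub).aestronglyMeasurable measurableSet_ball)
      (2 * φ ξ) ?_
    refine ae_restrict_of_forall_mem measurableSet_ball fun z hz => ?_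
    have h3 := (hb z hz).1
    rw [Real.norm_of_nonneg (by linarith [h3.1])]
    exact h3.2.le
  have h3 := setIntegral_ge_of_const_le_real (μ := m) (s := ball ξ δ) (f := φ) (c := φ ξ / 2)
    measurableSet_ball (measure_ne_top _ _) (fun z hz => (hb z hz).1.1.le) hint
  rw [h0 _ measurableSet_ball hsub] at h3
  have : 0 < φ ξ / 2 * m.real (ball ξ δ) := by positivity
  linarith

/-- if `φ ξ₀ > 0`, `ξ₀ ∈ Lim Γ ∩ ball β t'`, there is a small ball `B ⊆ ball β t'` at `ξ₀` where `φ ξ₀ / 2 ≤ φ ≤ 2 φ ξ₀`, so `∫_B φ dm ≥ φ ξ₀ / 2 * m B > 0` (`conf_pos`); same for `φ ξ₀ < 0` -/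
theorem vanish_on (h : Fuchs Γ) (hL : (Lim Γ).Infinite) (hcf : Conf Γ m s) (β : ℂ) (t' : ℝ) (φ : ℂ → ℝ) (hφ : ContinuousOn φ (ball β t'))
    (h0 : ∀ A : Set ℂ, MeasurableSet A → A ⊆ ball β t' → ∫ ξ in A, φ ξ ∂m = 0) (ξ : ℂ) (hξ : ξ ∈ Lim Γ) (hξ' : ξ ∈ ball β t') : φ ξ = 0 := by
  rcases lt_trichotomy (φ ξ) 0 with h1 | h1 | h1
  · refine (ntg0_pos h hL hcf β t' (fun z => - φ z) hφ.neg (fun A hA hAB => ?_) ξ hξ hξ'
      (by simpa using h1)).elim
    rw [integral_neg, h0 A hA hAB, neg_zero]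
  · exact h1
  · exact (ntg0_pos h hL hcf β t' φ hφ h0 ξ hξ hξ' h1).elim

end Pool.Agent.DD
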