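import Pool.Agent.Lib_MP_644907_full.Gate
import Pool.Agent.Lib_MP_644907_full.NTg0
import Pool.Agent.Lib_MP_644907_full.LimFull

/-!
# Piece NTG1: the tangent measure is a linear combination of finitely many `ν_y` near a point
-/

set_option autoImplicit false

namespace Pool.Agent.DD

open MeasureTheory Filter Topology Metric

variable {Γ : Type} [Group Γ] [MulAction Γ ℂ] {ι : Type} [Fintype ι] {ν m : Measure ℂ} {s : ℝ}

private theorem ntg1_ofReal_hm [IsProbabilityMeasure ν] (x : Γ) (A : Set ℂ) : ENNReal.ofReal (hm ν x A) = ν ((fun z : ℂ => x • z) ⁻¹' A) := by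
  unfold hm
  rw [measureReal_def, ENNReal.ofReal_toReal (measure_ne_top _ _)]

/-- `U ν f x` as an integral over the image measure -/
private theorem ntg1_U_map (h : Fuchs Γ) (x : Γ) (f : ℂ → ℝ) (hf : Measurable f) :
    U ν f x = ∫ z, f z ∂(ν.map (fun z : ℂ => x • z)) := by
  unfold U
  rw [integral_map (h.meas x).aemeasurable hf.aestronglyMeasurable]

private theorem ntg1_sum_int (h : Fuchs Γ) [IsProbabilityMeasure ν] (E : Finset Γ) (w : Γ → ℝ) (hw : ∀ y ∈ E, 0 ≤ w y)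
    (f : ℂ → ℝ) (hf : Measurable f) (hb : ∀ z, |f z| ≤ 1) :
    ∫ z, f z ∂(∑ y ∈ E, ENNReal.ofReal (w y) • ν.map (fun z : ℂ => y • z)) = ∑ y ∈ E, w y * U ν f y := by
  rw [integral_finsetSum_measure]
  · refine Finset.sum_congr rfl fun y hy => ?_
    rw [integral_smul_measure, ENNReal.toReal_ofReal (hw y hy), smul_eq_mul, ntg1_U_map h y f hf]
  · intro y _
    have hp : IsProbabilityMeasure (ν.map (fun z : ℂ => y • z)) := Measure.isProbabilityMeasure_map (h.meas y).aemeasurable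
    refine Integrable.smul_measure ?_ ENNReal.ofReal_ne_top
    refine Integrable.of_bound hf.aestronglyMeasurable 1 (Eventually.of_forall fun z => ?_)
    rw [Real.norm_eq_abs]
    exact hb z

private theorem ntg1_sum_meas (h : Fuchs Γ) [IsProbabilityMeasure ν] (E : Finset Γ) (w : Γ → ℝ) (hw : ∀ y ∈ E, 0 ≤ w y)
    (A : Set ℂ) (hA : MeasurableSet A) :
    (∑ y ∈ E, ENNReal.ofReal (w y) • ν.map (fun z : ℂ => y • z)) A = ENNReal.ofReal (∑ y ∈ E, w y * hm ν y A) := by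
  rw [Measure.finsetSum_apply, ENNReal.ofReal_sum_of_nonneg (fun y hy => mul_nonneg (hw y hy) (hm_nonneg ν y A))]
  refine Finset.sum_congr rfl fun y hy => ?_
  rw [Measure.smul_apply, Measure.map_apply (h.meas y) hA, smul_eq_mul, ENNReal.ofReal_mul (hw y hy), ntg1_ofReal_hm]

private theorem ntg1_rel (h : Fuchs Γ) [IsProbabilityMeasure ν] (E : Finset Γ) (B : Set ℂ) (hB : MeasurableSet B) (x : Γ)
    (w : Γ → ℝ) (hw : ∀ y ∈ E, 0 ≤ w y)
    (hrel : ∀ A, MeasurableSet A → A ⊆ B → hm ν x A = ∑ y ∈ E, w y * hm ν y A) (f : ℂ → ℝ) (hf : Measurable f)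
    (hb : ∀ z, |f z| ≤ 1) (h0 : ∀ z, z ∉ B → f z = 0) : U ν f x = ∑ y ∈ E, w y * U ν f y := by
  rw [ntg1_U_map h x f hf, ← ntg1_sum_int h E w hw f hf hb,
    ← setIntegral_eq_integral_of_forall_compl_eq_zero h0,
    ← setIntegral_eq_integral_of_forall_compl_eq_zero
      (μ := ∑ y ∈ E, ENNReal.ofReal (w y) • ν.map (fun z : ℂ => y • z)) h0]
  have hm : (ν.map (fun z : ℂ => x • z)).restrict B =
      (∑ y ∈ E, ENNReal.ofReal (w y) • ν.map (fun z : ℂ => y • z)).restrict B := by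
    ext A hA
    rw [Measure.restrict_apply hA, Measure.restrict_apply hA, ntg1_sum_meas h E w hw _ (hA.inter hB),
      ← hrel _ (hA.inter hB) Set.inter_subset_right, Measure.map_apply (h.meas x) (hA.inter hB), ntg1_ofReal_hm]
  rw [hm]

/-- positivity of the integral of a bump function -/
private theorem ntg1_pos (h : Fuchs Γ) (hL : (Lim Γ).Infinite) (W : Walk Γ ι) (hν : Stat W.toPreWalk ν) (β b₀ : ℂ) (t' : ℝ)
    (hb₀ : b₀ ∈ Lim Γ) (hb : ‖b₀ - β‖ < t') (y : Γ) : 0 < U ν (fun z => max 0 (t' - ‖z - β‖)) y := by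
  have := hν.prob
  have h1 : 0 < hm ν y (ball β t') := by
    apply stat_pos h hL W hν (lim_full h hL W hν) (ball β t') isOpen_ball
    exact ⟨b₀, by rw [mem_ball, dist_eq_norm]; exact hb, hb₀⟩
  unfold U
  have hint : Integrable (fun z : ℂ => max 0 (t' - ‖y • z - β‖)) ν := by
    have hm : Measurable (fun z : ℂ => max 0 (t' - ‖z - β‖)) := by fun_prop
    refine Integrable.of_bound (hm.comp (h.meas y)).aestronglyMeasurable |t'| (Eventually.of_forall fun z => ?_)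
    rw [Real.norm_eq_abs]
    show |max 0 (t' - ‖y • z - β‖)| ≤ |t'|
    rw [abs_of_nonneg (le_max_left _ _)]
    refine max_le (abs_nonneg _) ?_
    have := norm_nonneg (y • z - β)
    have := le_abs_self t'
    linarith
  show 0 < ∫ z : ℂ, max 0 (t' - ‖y • z - β‖) ∂ν
  have hnn : ∀ z : ℂ, 0 ≤ max 0 (t' - ‖y • z - β‖) := fun z => le_max_left _ _
  rw [integral_pos_iff_support_of_nonneg hnn hint]
  have h2 : (fun z : ℂ => y • z) ⁻¹' (ball β t') ⊆ Function.support (fun z : ℂ => max 0 (t' - ‖y • z - β‖)) := by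
    intro z hz
    rw [Set.mem_preimage, mem_ball, dist_eq_norm] at hz
    rw [Function.mem_support]
    have : 0 < max 0 (t' - ‖y • z - β‖) := lt_max_of_lt_right (by linarith)
    exact this.ne'
  refine lt_of_lt_of_le ?_ (measure_mono h2)
  rw [← ntg1_ofReal_hm, ENNReal.ofReal_pos]
  exact h1

/-- Let `b, ζ, r, x n, c n` be as in `Tangent`, the gate from `exists_gate` for `b` and `min r 1`, `E` from `gate_rel`, `K = {x | |x 0 - β| < t}`. `|ζ - β| ≥ |ζ - b| - |β - b| > 2 r - r > t`. For `n` large `x n ∉ K`. For `f` continuous, `0 ≤ f ≤ 1`, zero off `ball β t'`: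
`U ν f (x n) = ∑_{y ∈ E} hit K y (x n) U ν f y` (`gate_rel` says that the measures `A ↦ hm ν (x n) (A ∩ ball β t')` and `∑ hit hm ν y (A ∩ ball β t')` agree). The numbers `c n hit K y (x n)` are bounded: for `χ z = max 0 (t' - |z - β|)`: `c n hit K y (x n) U ν χ y ≤ c n U ν χ (x n)` (`hit_mul_le`) converges (`Tangent`), and
`U ν χ y > 0` (`stat_pos` with `lim_full` for the open set `ball β t'` which contains `b₀`, and `χ > 0` on it). Pass to a subsequence: `c n hit K y (x n) → w y ≥ 0` for `y ∈ E` (finite set). So `∫ f |ξ - ζ|^(-2s) dm = ∑_y w y U ν f y` for all such `f` (`Tangent`). Apply `restrict_eq` to `μ` = the measure `m` restricted to `ball β t'` with density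
`|ξ - ζ|^(-2s)` (bounded there) and `μ' = ∑ ofReal (w y) • ν.map (y •)`. `ζ ∈ Lim Γ` as the limit of `x n 0`. -/
theorem gate_meas (h : Fuchs Γ) (hL : (Lim Γ).Infinite) (hc : ¬ Cocpt Γ) (W : Walk Γ ι) (hν : Stat W.toPreWalk ν) (hcf : Conf Γ m s)
    (hT : Tangent Γ ν m s) : ∃ (β b₀ ζ : ℂ) (t t' : ℝ) (E : Finset Γ) (w : Γ → ℝ), GateD Γ β b₀ t t' ∧ ζ ∈ Lim Γ ∧ t < ‖ζ - β‖ ∧
      (∀ y ∈ E, ‖y • (0 : ℂ) - β‖ < t) ∧
      (∀ (x : Γ) (A : Set ℂ), t ≤ ‖x • (0 : ℂ) - β‖ → MeasurableSet A → A ⊆ ball β t' →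
        hm ν x A = ∑ y ∈ E, hit W.toPreWalk {x : Γ | ‖x • (0 : ℂ) - β‖ < t} y x * hm ν y A) ∧
      ∀ A : Set ℂ, MeasurableSet A → A ⊆ ball β t' → ∫ ξ in A, (‖ξ - ζ‖ ^ 2) ^ (-s) ∂m = ∑ y ∈ E, w y * hm ν y A := by
  obtain ⟨b, ζ, r, x, c, hb, hζ, hr, hrζ, hc0, hx, hconv⟩ := hT
  obtain ⟨β, b₀, t, t', hG, hβt⟩ := exists_gate h hL hc b hb (min r 1) (lt_min hr one_pos)
  obtain ⟨E, hE, hrel⟩ := gate_rel h hL W hν β b₀ t t' hG
  have := hν.prob
  have := hcf.fin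
  have hβr : ‖β - b‖ + t < r := lt_of_lt_of_le hβt (min_le_left _ _)
  have hβ0 : 0 ≤ ‖β - b‖ := norm_nonneg _
  have ht' := hG.pos
  have htt := hG.lt
  have hζβ : r + t < ‖ζ - β‖ := by
    have h1 : ‖ζ - b‖ ≤ ‖ζ - β‖ + ‖β - b‖ := by
      have := norm_add_le (ζ - β) (β - b)
      rwa [sub_add_sub_cancel] at this
    linarith
  have hζL : ζ ∈ Lim Γ := by
    refine ⟨?_, mem_sphere_zero_iff_norm.2 hζ⟩
    exact mem_closure_of_tendsto hx (Eventually.of_forall fun n => ⟨x n, rfl⟩)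
  have hBζ : ∀ ξ ∈ ball β t', r ≤ ‖ξ - ζ‖ := by
    intro ξ hξ
    rw [mem_ball, dist_eq_norm] at hξ
    have h1 : ‖ζ - β‖ ≤ ‖ξ - ζ‖ + ‖ξ - β‖ := by
      have := norm_add_le (ζ - ξ) (ξ - β)
      rw [sub_add_sub_cancel, norm_sub_rev ζ ξ] at this
      exact this
    linarith
  have hBb : ∀ z : ℂ, r ≤ ‖z - b‖ → z ∉ ball β t' := by
    intro z hz hzB
    rw [mem_ball, dist_eq_norm] at hzB
    have h1 : ‖z - b‖ ≤ ‖z - β‖ + ‖β - b‖ := by
      have := norm_add_le (z - β) (β - b)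
      rwa [sub_add_sub_cancel] at this
    linarith
  obtain ⟨K, hK⟩ : ∃ K : Set Γ, K = {x : Γ | ‖x • (0 : ℂ) - β‖ < t} := ⟨_, rfl⟩
  rw [← hK] at hrel
  have hEK : ∀ y ∈ E, y ∈ K := by
    intro y hy
    rw [hK]
    exact hE y hy
  have hfar : ∀ᶠ n in atTop, t ≤ ‖x n • (0 : ℂ) - β‖ := by
    have h1 : Tendsto (fun n => ‖x n • (0 : ℂ) - β‖) atTop (𝓝 ‖ζ - β‖) := (hx.sub_const β).norm
    have h2 : t < ‖ζ - β‖ := by linarith
    exact (h1.eventually_const_lt h2).mono fun n hn => hn.le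
  -- the relation for functions
  have hrelf : ∀ f : ℂ → ℝ, Measurable f → (∀ z, |f z| ≤ 1) → (∀ z, z ∉ ball β t' → f z = 0) → ∀ n,
      t ≤ ‖x n • (0 : ℂ) - β‖ → U ν f (x n) = ∑ y ∈ E, hit W.toPreWalk K y (x n) * U ν f y := by
    intro f hf hf1 hf0 n hn
    refine ntg1_rel h E (ball β t') measurableSet_ball (x n) (fun y => hit W.toPreWalk K y (x n))
      (fun y hy => hit_nonneg W.toPreWalk K y (hEK y hy) (x n)) (fun A hA hAB => hrel (x n) A hn hA hAB) f hf hf1 hf0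
  -- boundedness
  have hχc : Continuous (fun z : ℂ => max 0 (t' - ‖z - β‖)) := by fun_prop
  have hχ0 : ∀ z : ℂ, z ∉ ball β t' → max 0 (t' - ‖z - β‖) = 0 := by
    intro z hz
    rw [mem_ball, dist_eq_norm, not_lt] at hz
    exact max_eq_left (by linarith)
  have hχ1 : ∀ z : ℂ, |max 0 (t' - ‖z - β‖)| ≤ 1 := by
    intro z
    rw [abs_of_nonneg (le_max_left _ _)]
    refine max_le zero_le_one ?_
    have := norm_nonneg (z - β)
    have := hG.le_one
    linarith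
  have hχlim := hconv (fun z => max 0 (t' - ‖z - β‖)) hχc.continuousOn (fun z _ hz => hχ0 z (hBb z hz))
  obtain ⟨L, hL'⟩ : ∃ L : ℝ, L = ∫ ξ, max 0 (t' - ‖ξ - β‖) * (‖ξ - ζ‖ ^ 2) ^ (-s) ∂m := ⟨_, rfl⟩
  rw [← hL'] at hχlim
  have hbd : ∀ᶠ n in atTop, ∀ y ∈ E, c n * hit W.toPreWalk K y (x n) ≤ (L + 1) / U ν (fun z => max 0 (t' - ‖z - β‖)) y := by
    filter_upwards [hfar, hχlim.eventually_le_const (lt_add_one L)] with n hn1 hn2 y hy
    rw [le_div_iff₀ (ntg1_pos h hL W hν β b₀ t' hG.mem hG.near y)]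
    refine le_trans ?_ hn2
    rw [hrelf _ hχc.measurable hχ1 hχ0 n hn1, mul_assoc]
    refine mul_le_mul_of_nonneg_left ?_ (hc0 n).le
    refine Finset.single_le_sum (f := fun y => hit W.toPreWalk K y (x n) * U ν (fun z => max 0 (t' - ‖z - β‖)) y)
      (fun y' hy' => mul_nonneg (hit_nonneg W.toPreWalk K y' (hEK y' hy') (x n))
        (ntg1_pos h hL W hν β b₀ t' hG.mem hG.near y').le) hy
  -- the subsequence
  have hcomp : IsCompact (Set.Icc (0 : E → ℝ) (fun y => (L + 1) / U ν (fun z => max 0 (t' - ‖z - β‖)) (y : Γ))) := isCompact_Icc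
  have hmem : ∃ᶠ n in atTop, (fun y : E => c n * hit W.toPreWalk K y (x n)) ∈
      Set.Icc (0 : E → ℝ) (fun y => (L + 1) / U ν (fun z => max 0 (t' - ‖z - β‖)) (y : Γ)) := by
    refine (hbd.mono fun n hn => ?_).frequently
    refine ⟨fun y => mul_nonneg (hc0 n).le (hit_nonneg W.toPreWalk K y (hEK y y.2) (x n)), fun y => hn y y.2⟩
  obtain ⟨a, ha, φ, hφ, hlim⟩ := hcomp.tendsto_subseq' hmem
  classical
  obtain ⟨w, hw⟩ : ∃ w : Γ → ℝ, w = fun y => if hy : y ∈ E then a ⟨y, hy⟩ else 0 := ⟨_, rfl⟩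
  have hwE : ∀ y (hy : y ∈ E), w y = a ⟨y, hy⟩ := by
    intro y hy
    rw [hw]
    exact dif_pos hy
  have hw0 : ∀ y ∈ E, 0 ≤ w y := by
    intro y hy
    rw [hwE y hy]
    exact ha.1 ⟨y, hy⟩
  have hwlim : ∀ y ∈ E, Tendsto (fun k => c (φ k) * hit W.toPreWalk K y (x (φ k))) atTop (𝓝 (w y)) := by
    intro y hy
    rw [hwE y hy]
    exact (tendsto_pi_nhds.1 hlim) ⟨y, hy⟩
  -- the identity for functions
  have hfun : ∀ f : ℂ → ℝ, Continuous f → (∀ z, 0 ≤ f z ∧ f z ≤ 1) → (∀ z, z ∉ ball β t' → f z = 0) →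
      ∫ ξ, f ξ * (‖ξ - ζ‖ ^ 2) ^ (-s) ∂m = ∑ y ∈ E, w y * U ν f y := by
    intro f hf hf1 hf0
    have hf1' : ∀ z, |f z| ≤ 1 := by
      intro z
      rw [abs_of_nonneg (hf1 z).1]
      exact (hf1 z).2
    have h1 := (hconv f hf.continuousOn (fun z _ hz => hf0 z (hBb z hz))).comp hφ.tendsto_atTop
    have h2 : Tendsto (fun k => ∑ y ∈ E, (c (φ k) * hit W.toPreWalk K y (x (φ k))) * U ν f y) atTop
        (𝓝 (∑ y ∈ E, w y * U ν f y)) := by
      refine tendsto_finsetSum E fun y hy => ?_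
      exact (hwlim y hy).mul_const _
    refine tendsto_nhds_unique h1 (h2.congr' ?_)
    filter_upwards [hφ.tendsto_atTop.eventually hfar] with k hk
    show _ = c (φ k) * U ν f (x (φ k))
    rw [hrelf f hf.measurable hf1' hf0 (φ k) hk, Finset.mul_sum]
    exact Finset.sum_congr rfl fun y _ => by ring
  -- the measures
  have hdm : Measurable (fun ξ : ℂ => (‖ξ - ζ‖ ^ 2) ^ (-s)) := by fun_prop
  have hd0 : ∀ ξ : ℂ, 0 ≤ (‖ξ - ζ‖ ^ 2) ^ (-s) := fun ξ => Real.rpow_nonneg (sq_nonneg _) _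
  have hdB : ∀ ξ ∈ ball β t', (‖ξ - ζ‖ ^ 2) ^ (-s) ≤ (r ^ 2) ^ (-s) := by
    intro ξ hξ
    refine Real.rpow_le_rpow_of_nonpos (by positivity) ?_ (by linarith [hcf.pos])
    have := hBζ ξ hξ
    exact pow_le_pow_left₀ hr.le this 2
  obtain ⟨μ, hμ⟩ : ∃ μ : Measure ℂ, μ = (m.restrict (ball β t')).withDensity (fun ξ => ENNReal.ofReal ((‖ξ - ζ‖ ^ 2) ^ (-s))) :=
    ⟨_, rfl⟩
  have hμfin : IsFiniteMeasure μ := by
    rw [hμ]
    refine isFiniteMeasure_withDensity ?_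
    refine ne_of_lt (lt_of_le_of_lt (setLIntegral_mono measurable_const
      (fun ξ hξ => ENNReal.ofReal_le_ofReal (hdB ξ hξ))) ?_)
    rw [setLIntegral_const]
    exact ENNReal.mul_lt_top ENNReal.ofReal_lt_top (measure_lt_top _ _)
  obtain ⟨μ', hμ'⟩ : ∃ μ' : Measure ℂ, μ' = ∑ y ∈ E, ENNReal.ofReal (w y) • ν.map (fun z : ℂ => y • z) := ⟨_, rfl⟩
  have hμ'fin : IsFiniteMeasure μ' := by
    constructor
    rw [hμ', ntg1_sum_meas h E w hw0 _ MeasurableSet.univ]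
    exact ENNReal.ofReal_lt_top
  refine ⟨β, b₀, ζ, t, t', E, w, hG, hζL, by linarith, hE, ?_, ?_⟩
  · intro y A hy hA hAB
    rw [← hK]
    exact hrel y A hy hA hAB
  · intro A hA hAB
    have heq := restrict_eq μ μ' (ball β t') isOpen_ball (fun f hf hf1 hf0 => ?_) A hA hAB
    · rw [hμ, hμ', ntg1_sum_meas h E w hw0 A hA, withDensity_apply _ hA, Measure.restrict_restrict hA,
        Set.inter_eq_left.2 hAB] at heq
      rw [integral_eq_lintegral_of_nonneg_ae (Eventually.of_forall hd0) hdm.aestronglyMeasurable, heq,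
        ENNReal.toReal_ofReal]
      exact Finset.sum_nonneg fun y hy => mul_nonneg (hw0 y hy) (hm_nonneg ν y A)
    · have hf1' : ∀ z, |f z| ≤ 1 := by
        intro z
        rw [abs_of_nonneg (hf1 z).1]
        exact (hf1 z).2
      rw [hμ', ntg1_sum_int h E w hw0 f hf.measurable hf1', ← hfun f hf hf1 hf0, hμ,
        integral_withDensity_eq_integral_toReal_smul hdm.ennreal_ofReal (Eventually.of_forall fun ξ => ENNReal.ofReal_lt_top)]
      rw [← setIntegral_eq_integral_of_forall_compl_eq_zero (s := ball β t') (μ := m)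
        (f := fun ξ => f ξ * (‖ξ - ζ‖ ^ 2) ^ (-s)) (fun z hz => by rw [hf0 z hz, zero_mul])]
      refine integral_congr_ae (Eventually.of_forall fun ξ => ?_)
      show (ENNReal.ofReal ((‖ξ - ζ‖ ^ 2) ^ (-s))).toReal • f ξ = f ξ * (‖ξ - ζ‖ ^ 2) ^ (-s)
      rw [ENNReal.toReal_ofReal (hd0 ξ), smul_eq_mul, mul_comm]

end Pool.Agent.DD
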