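import Pool.Agent.Lib_MP_644907_full.Grp1

/-!
# Piece NOFIN2: no finite orbit on the circle
-/

set_option autoImplicit false

namespace Pool.Agent.DD

open MeasureTheory Filter Topology Metric

variable {Γ : Type} [Group Γ] [MulAction Γ ℂ]

/-- the distance formula with `w = 0` -/
theorem nofin_key (h : Fuchs Γ) (γ : Γ) {ξ : ℂ} (hξ : ‖ξ‖ = 1) :
    ‖γ • ξ - γ • (0 : ℂ)‖ * ‖ξ - γ⁻¹ • (0 : ℂ)‖ = 1 - ‖γ • (0 : ℂ)‖ ^ 2 := by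
  have h1 := h.dist_smul γ (z := ξ) (w := 0) hξ.le (by simp)
  rw [norm_one_sub_sphere hξ] at h1
  simpa [hξ] using h1

/-- a finite invariant set of the circle with two points contains the limit set -/
theorem nofin_two (h : Fuchs Γ) (F : Set ℂ) (hF : F.Finite) (c₁ c₂ : ℂ) (h1 : c₁ ∈ F) (h2 : c₂ ∈ F)
    (hne : c₁ ≠ c₂) (hs : F ⊆ sphere 0 1) (hinv : ∀ (γ : Γ), ∀ z ∈ F, γ • z ∈ F) : Lim Γ ⊆ F := by
  intro a ha
  by_contra haF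
  have hFc : IsClosed F := hF.isClosed
  obtain ⟨ε₀, hε₀, hball⟩ := Metric.isOpen_iff.1 hFc.isOpen_compl a haF
  have ha1 : ‖a‖ = 1 := by simpa using ha.2
  have hρ : 0 < ‖c₁ - c₂‖ / 2 := by
    have : 0 < ‖c₁ - c₂‖ := norm_pos_iff.2 (sub_ne_zero.2 hne)
    linarith
  set ρ := ‖c₁ - c₂‖ / 2 with hρdef
  have hK : 0 < 2 / ρ + 1 := by positivity
  obtain ⟨γ, hγ⟩ := Fuchs.exists_near (Γ := Γ) a ha (ε₀ / (2 / ρ + 1)) (by positivity)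
  have hone : 1 - ‖γ • (0 : ℂ)‖ ^ 2 ≤ 2 * ‖γ • (0 : ℂ) - a‖ := one_sub_le_dist ha1 (h.norm0 γ).le
  have hex : ∃ c ∈ F, ρ ≤ ‖c - γ⁻¹ • (0 : ℂ)‖ := by
    by_contra hcon
    push Not at hcon
    have e1 := hcon c₁ h1
    have e2 := hcon c₂ h2
    have e3 : ‖c₁ - c₂‖ ≤ ‖c₁ - γ⁻¹ • (0 : ℂ)‖ + ‖c₂ - γ⁻¹ • (0 : ℂ)‖ := by
      calc ‖c₁ - c₂‖ = ‖(c₁ - γ⁻¹ • (0 : ℂ)) - (c₂ - γ⁻¹ • (0 : ℂ))‖ := by congr 1; ring
        _ ≤ _ := norm_sub_le _ _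
    linarith
  obtain ⟨c, hc, hcρ⟩ := hex
  have hc1 : ‖c‖ = 1 := by simpa using hs hc
  have hkey := nofin_key h γ hc1
  have e1 : ‖γ • c - γ • (0 : ℂ)‖ * ρ ≤ 2 * ‖γ • (0 : ℂ) - a‖ := by
    calc ‖γ • c - γ • (0 : ℂ)‖ * ρ ≤ ‖γ • c - γ • (0 : ℂ)‖ * ‖c - γ⁻¹ • (0 : ℂ)‖ :=
          mul_le_mul_of_nonneg_left hcρ (norm_nonneg _)
      _ = 1 - ‖γ • (0 : ℂ)‖ ^ 2 := hkey
      _ ≤ _ := hone
  have e2 : ‖γ • c - γ • (0 : ℂ)‖ ≤ 2 / ρ * ‖γ • (0 : ℂ) - a‖ := by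
    rw [div_mul_eq_mul_div, le_div_iff₀ hρ]
    exact e1
  have e3 : ‖γ • c - a‖ < ε₀ := by
    calc ‖γ • c - a‖ = ‖(γ • c - γ • (0 : ℂ)) + (γ • (0 : ℂ) - a)‖ := by congr 1; ring
      _ ≤ ‖γ • c - γ • (0 : ℂ)‖ + ‖γ • (0 : ℂ) - a‖ := norm_add_le _ _
      _ ≤ (2 / ρ + 1) * ‖γ • (0 : ℂ) - a‖ := by linarith
      _ < (2 / ρ + 1) * (ε₀ / (2 / ρ + 1)) := mul_lt_mul_of_pos_left hγ hK
      _ = ε₀ := by field_simp
  exact hball (mem_ball_iff_norm.2 e3) (hinv γ c hc)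

/-- the elements `h` displace the points which tend to a fixed point nontangentially by a bounded amount -/
theorem nofin_bdd (hF : Fuchs Γ) (ξ : ℂ) (hξ : ‖ξ‖ = 1) (h : Γ) (hfix : h • ξ = ξ) (c : ℝ) (hc : 0 < c) :
    ∃ Q : ℝ, ∀ u : ℂ, ‖u‖ < 1 → ‖ξ - u‖ ≤ (1 - ‖u‖ ^ 2) / c → qd u (h • u) ≤ Q := by
  set a : ℂ := h⁻¹ • (0 : ℂ) with ha
  have haA : ‖a‖ = ‖h • (0 : ℂ)‖ := hF.norm_inv h
  have hA1 : ‖h • (0 : ℂ)‖ < 1 := hF.norm0 h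
  have hA0 : 0 ≤ ‖h • (0 : ℂ)‖ := norm_nonneg _
  set A : ℝ := ‖h • (0 : ℂ)‖ with hA
  have hA2 : 0 < 1 - A ^ 2 := by nlinarith
  set L : ℝ := (1 - A ^ 2) / (1 - A) ^ 2 with hL
  have hA3 : 0 < 1 - A := by linarith
  have hL0 : 0 ≤ L := by positivity
  refine ⟨(1 + (1 + L) / c) ^ 2 * (4 / (1 - A ^ 2)), fun u hu hun => ?_⟩
  have hu2 : 0 < 1 - ‖u‖ ^ 2 := by nlinarith [norm_nonneg u]
  have hlow : ∀ z : ℂ, ‖z‖ ≤ 1 → 1 - A ≤ ‖1 - starRingEnd ℂ a * z‖ := by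
    intro z hz
    have e1 : ‖starRingEnd ℂ a * z‖ ≤ A := by
      rw [norm_mul, Complex.norm_conj, haA]
      exact mul_le_of_le_one_right hA0 hz
    have e2 : ‖(1 : ℂ)‖ - ‖starRingEnd ℂ a * z‖ ≤ ‖1 - starRingEnd ℂ a * z‖ := norm_sub_norm_le _ _
    rw [norm_one] at e2
    linarith
  have hupp : ∀ z : ℂ, ‖z‖ ≤ 1 → ‖1 - starRingEnd ℂ a * z‖ ≤ 2 := by
    intro z hz
    have e1 : ‖starRingEnd ℂ a * z‖ ≤ 1 := by
      rw [norm_mul, Complex.norm_conj, haA]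
      exact (mul_le_of_le_one_right hA0 hz).trans hA1.le
    have e2 : ‖1 - starRingEnd ℂ a * z‖ ≤ ‖(1 : ℂ)‖ + ‖starRingEnd ℂ a * z‖ := norm_sub_le _ _
    rw [norm_one] at e2
    linarith
  -- Lipschitz bound
  have h1 : ‖h • u - ξ‖ ≤ L * ‖ξ - u‖ := by
    have e1 := hF.dist_smul h (z := u) (w := ξ) hu.le hξ.le
    rw [hfix] at e1
    have e2 : (1 - A) ^ 2 ≤ ‖1 - starRingEnd ℂ a * u‖ * ‖1 - starRingEnd ℂ a * ξ‖ := by
      rw [sq]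
      exact mul_le_mul (hlow u hu.le) (hlow ξ hξ.le) hA3.le (norm_nonneg _)
    have e3 : ‖h • u - ξ‖ * (1 - A) ^ 2 ≤ (1 - A ^ 2) * ‖ξ - u‖ := by
      calc ‖h • u - ξ‖ * (1 - A) ^ 2 ≤ ‖h • u - ξ‖ * (‖1 - starRingEnd ℂ a * u‖ * ‖1 - starRingEnd ℂ a * ξ‖) :=
            mul_le_mul_of_nonneg_left e2 (norm_nonneg _)
        _ = (1 - A ^ 2) * ‖u - ξ‖ := e1
        _ = (1 - A ^ 2) * ‖ξ - u‖ := by rw [norm_sub_rev]
    rw [hL, div_mul_eq_mul_div, le_div_iff₀ (by positivity)]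
    exact e3
  -- the height of `h u`
  have h2 : (1 - A ^ 2) / 4 * (1 - ‖u‖ ^ 2) ≤ 1 - ‖h • u‖ ^ 2 := by
    have e1 := hF.one_sub_smul h (z := u) hu.le
    have e2 : ‖1 - starRingEnd ℂ a * u‖ ^ 2 ≤ 4 := by
      have := hupp u hu.le
      nlinarith [norm_nonneg (1 - starRingEnd ℂ a * u)]
    have e3 : 0 ≤ 1 - ‖h • u‖ ^ 2 := by
      have := hF.norm_lt h hu
      nlinarith [norm_nonneg (h • u)]
    have e4 : (1 - ‖h • u‖ ^ 2) * ‖1 - starRingEnd ℂ a * u‖ ^ 2 ≤ (1 - ‖h • u‖ ^ 2) * 4 :=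
      mul_le_mul_of_nonneg_left e2 e3
    have e5 : (1 - ‖h • u‖ ^ 2) * ‖1 - starRingEnd ℂ a * u‖ ^ 2 = (1 - A ^ 2) * (1 - ‖u‖ ^ 2) := e1
    linarith
  have h3 : 0 < 1 - ‖h • u‖ ^ 2 := lt_of_lt_of_le (by positivity) h2
  -- the numerator
  have h4 : ‖1 - starRingEnd ℂ u * (h • u)‖ ≤ (1 + (1 + L) / c) * (1 - ‖u‖ ^ 2) := by
    have e1 : (1 : ℂ) - starRingEnd ℂ u * (h • u) = ((1 - ‖u‖ ^ 2 : ℝ) : ℂ) + starRingEnd ℂ u * ((u - ξ) + (ξ - h • u)) := by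
      have e2 : starRingEnd ℂ u * u = ((‖u‖ ^ 2 : ℝ) : ℂ) := by
        rw [mul_comm, Complex.mul_conj, Complex.normSq_eq_norm_sq]
      push_cast at e2 ⊢
      linear_combination -e2
    have e3 : ‖u - ξ‖ = ‖ξ - u‖ := norm_sub_rev _ _
    have e4 : ‖ξ - h • u‖ = ‖h • u - ξ‖ := norm_sub_rev _ _
    calc ‖1 - starRingEnd ℂ u * (h • u)‖
        ≤ ‖((1 - ‖u‖ ^ 2 : ℝ) : ℂ)‖ + ‖starRingEnd ℂ u * ((u - ξ) + (ξ - h • u))‖ := by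
          rw [e1]; exact norm_add_le _ _
      _ ≤ (1 - ‖u‖ ^ 2) + 1 * (‖u - ξ‖ + ‖ξ - h • u‖) := by
          rw [Complex.norm_real, Real.norm_of_nonneg hu2.le, norm_mul, Complex.norm_conj]
          gcongr
          exact norm_add_le _ _
      _ ≤ (1 - ‖u‖ ^ 2) + (1 + L) * ((1 - ‖u‖ ^ 2) / c) := by
          rw [e3, e4]
          have : ‖ξ - u‖ + ‖h • u - ξ‖ ≤ (1 + L) * ‖ξ - u‖ := by linarith
          have e5 : (1 + L) * ‖ξ - u‖ ≤ (1 + L) * ((1 - ‖u‖ ^ 2) / c) :=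
            mul_le_mul_of_nonneg_left hun (by positivity)
          linarith
      _ = (1 + (1 + L) / c) * (1 - ‖u‖ ^ 2) := by ring
  unfold qd
  rw [div_le_iff₀ (by positivity)]
  have e6 : ‖1 - starRingEnd ℂ u * (h • u)‖ ^ 2 ≤ ((1 + (1 + L) / c) * (1 - ‖u‖ ^ 2)) ^ 2 := by
    gcongr
  calc ‖1 - starRingEnd ℂ u * (h • u)‖ ^ 2 ≤ ((1 + (1 + L) / c) * (1 - ‖u‖ ^ 2)) ^ 2 := e6
    _ = (1 + (1 + L) / c) ^ 2 * (4 / (1 - A ^ 2)) * ((1 - ‖u‖ ^ 2) * ((1 - A ^ 2) / 4 * (1 - ‖u‖ ^ 2))) := by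
        field_simp
    _ ≤ _ := by gcongr

/-- The only use of discreteness: `x n 0 → lam ≠ ξ`, `ξ` is fixed by the group, then `x n h (x n)⁻¹` fixes `lam` for large `n`. -/
theorem nofin_conj (hF : Fuchs Γ) (ξ lam : ℂ) (hξ : ‖ξ‖ = 1) (hlam : ‖lam‖ = 1) (hne : ξ ≠ lam)
    (hfix : ∀ γ : Γ, γ • ξ = ξ) (x : ℕ → Γ) (hx : Tendsto (fun n => x n • (0 : ℂ)) atTop (𝓝 lam)) (h : Γ) :
    ∀ᶠ n in atTop, (x n * h * (x n)⁻¹) • lam = lam := by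
  have hc : 0 < ‖ξ - lam‖ / 2 := by
    have : 0 < ‖ξ - lam‖ := norm_pos_iff.2 (sub_ne_zero.2 hne)
    linarith
  set c := ‖ξ - lam‖ / 2 with hcdef
  obtain ⟨Q, hQ⟩ := nofin_bdd hF ξ hξ h (hfix h) c hc
  have hnear : ∀ᶠ n in atTop, c ≤ ‖ξ - x n • (0 : ℂ)‖ := by
    have h1 : Tendsto (fun n => ‖ξ - x n • (0 : ℂ)‖) atTop (𝓝 ‖ξ - lam‖) := (tendsto_const_nhds.sub hx).norm
    exact (h1.eventually (lt_mem_nhds (show c < ‖ξ - lam‖ by linarith))).mono fun n hn => hn.le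
  have hmem : ∀ᶠ n in atTop, (x n * h * (x n)⁻¹) ∈ {γ : Γ | qd 0 (γ • (0 : ℂ)) ≤ Q} := by
    filter_upwards [hnear] with n hn
    have h1 : qd ((x n)⁻¹ • (0 : ℂ)) ((x n)⁻¹ • ((x n * h * (x n)⁻¹) • (0 : ℂ))) = qd 0 ((x n * h * (x n)⁻¹) • (0 : ℂ)) :=
      hF.qd_smul (x n)⁻¹ (by simp) (hF.norm0 _)
    have h2 : (x n)⁻¹ • ((x n * h * (x n)⁻¹) • (0 : ℂ)) = h • ((x n)⁻¹ • (0 : ℂ)) := by
      rw [smul_smul, smul_smul]
      congr 1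
      group
    rw [h2] at h1
    show qd 0 ((x n * h * (x n)⁻¹) • (0 : ℂ)) ≤ Q
    rw [← h1]
    refine hQ _ (hF.norm0 _) ?_
    have h3 := nofin_key hF (x n) hξ
    rw [hfix, ← hF.norm_inv (x n)] at h3
    rw [le_div_iff₀ hc, ← h3, mul_comm]
    exact mul_le_mul_of_nonneg_right hn (norm_nonneg _)
  have hfin : {γ : Γ | qd 0 (γ • (0 : ℂ)) ≤ Q ∧ γ • lam ≠ lam}.Finite :=
    (hF.finite_qd (z := 0) (w := 0) (by simp) (by simp) Q).subset fun γ hγ => hγ.1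
  -- each of the finitely many bad elements occurs only finitely often
  have hbad : ∀ f ∈ {γ : Γ | qd 0 (γ • (0 : ℂ)) ≤ Q ∧ γ • lam ≠ lam}, ∀ᶠ n in atTop, x n * h * (x n)⁻¹ ≠ f := by
    rintro f ⟨-, hf⟩
    have h1 : Tendsto (fun n => f • (x n • (0 : ℂ))) atTop (𝓝 (f • lam)) := by
      have hcont := hF.contOn f lam (by simp [hlam])
      have h2 : Tendsto (fun n => x n • (0 : ℂ)) atTop (𝓝[closedBall 0 1] lam) :=
        tendsto_nhdsWithin_iff.2 ⟨hx, Eventually.of_forall fun n => by simpa using (hF.norm0 (x n)).le⟩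
      exact hcont.tendsto.comp h2
    have h2 : Tendsto (fun n => x n • (h • (0 : ℂ))) atTop (𝓝 lam) := by
      have h3 : Tendsto (fun n => 1 - ‖x n • (0 : ℂ)‖ ^ 2) atTop (𝓝 0) := by
        have := (hx.norm.pow 2).const_sub 1
        simpa [hlam] using this
      have h4 : Tendsto (fun n => x n • (h • (0 : ℂ)) - x n • (0 : ℂ)) atTop (𝓝 0) := by
        rw [tendsto_zero_iff_norm_tendsto_zero]
        have h5 : Tendsto (fun n => √(qd (h • (0 : ℂ)) 0 * (1 - ‖x n • (0 : ℂ)‖ ^ 2))) atTop (𝓝 0) := by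
          have := (h3.const_mul (qd (h • (0 : ℂ)) 0)).sqrt
          simpa using this
        refine squeeze_zero (fun n => norm_nonneg _) (fun n => ?_) h5
        apply Real.le_sqrt_of_sq_le
        have h6 := dist_le_qd (hF.norm_lt (x n) (hF.norm0 h)) (hF.norm0 (x n))
        rw [hF.qd_smul (x n) (hF.norm0 h) (by simp)] at h6
        have h7 : 0 ≤ qd (h • (0 : ℂ)) 0 := le_trans zero_le_one (one_le_qd (hF.norm0 h) (by simp))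
        have h8 : 0 ≤ 1 - ‖x n • (0 : ℂ)‖ ^ 2 := by
          have := hF.norm0 (x n)
          nlinarith [norm_nonneg (x n • (0 : ℂ))]
        have h9 : 1 - ‖x n • (h • (0 : ℂ))‖ ^ 2 ≤ 1 := by nlinarith [norm_nonneg (x n • (h • (0 : ℂ)))]
        calc ‖x n • (h • (0 : ℂ)) - x n • (0 : ℂ)‖ ^ 2
            ≤ qd (h • (0 : ℂ)) 0 * ((1 - ‖x n • (h • (0 : ℂ))‖ ^ 2) * (1 - ‖x n • (0 : ℂ)‖ ^ 2)) := h6
          _ ≤ qd (h • (0 : ℂ)) 0 * (1 * (1 - ‖x n • (0 : ℂ)‖ ^ 2)) := by gcongr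
          _ = qd (h • (0 : ℂ)) 0 * (1 - ‖x n • (0 : ℂ)‖ ^ 2) := by rw [one_mul]
      have := h4.add hx
      simpa using this
    have h3 : Tendsto (fun n => f • (x n • (0 : ℂ)) - x n • (h • (0 : ℂ))) atTop (𝓝 (f • lam - lam)) := h1.sub h2
    have h4 : ∀ᶠ n in atTop, f • (x n • (0 : ℂ)) - x n • (h • (0 : ℂ)) ≠ 0 :=
      h3.eventually_ne (sub_ne_zero.2 hf)
    filter_upwards [h4] with n hn he
    apply hn
    rw [← he, smul_smul, smul_smul, sub_eq_zero]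
    congr 1
    group
  have hall := (eventually_all_finite hfin).2 hbad
  filter_upwards [hmem, hall] with n h1 h2
  by_contra h3
  exact h2 _ ⟨h1, h3⟩ rfl

/-- No finite orbit on the circle. If `F` has two points, `nofin_two`. If `F = {ξ}`: take `x n • 0 → lam ∈ Lim Γ`, `lam ≠ ξ`. By `nofin_conj` every `h` fixes `q n = (x n)⁻¹ lam` for large `n`; `g = x N` with
`pk (g⁻¹ 0) ξ ≠ 1` has at most one fixed point different from `ξ` (`Fuchs.two_pt`), so `q n = q` for large `n`, and `{ξ, q}` is invariant: `nofin_two`. -/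
theorem no_fin (h : Fuchs Γ) (hL : (Lim Γ).Infinite) (F : Set ℂ) (hF : F.Finite) (hne : F.Nonempty)
    (hs : F ⊆ sphere 0 1) (hinv : ∀ (γ : Γ), ∀ z ∈ F, γ • z ∈ F) : False := by
  obtain ⟨ξ, hξF⟩ := hne
  have hξ : ‖ξ‖ = 1 := by simpa using hs hξF
  by_cases h2 : ∃ c ∈ F, c ≠ ξ
  · obtain ⟨c, hc, hcξ⟩ := h2
    exact hL (hF.subset (nofin_two h F hF c ξ hc hξF hcξ hs hinv))
  push Not at h2
  have hfix : ∀ γ : Γ, γ • ξ = ξ := fun γ => h2 _ (hinv γ ξ hξF)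
  obtain ⟨lam, hlamL, hlamne⟩ : ∃ lam ∈ Lim Γ, lam ≠ ξ := by
    by_contra hcon
    push Not at hcon
    exact hL ((Set.finite_singleton ξ).subset fun z hz => hcon z hz)
  have hlam : ‖lam‖ = 1 := by simpa using hlamL.2
  have hseq : ∀ n : ℕ, ∃ γ : Γ, ‖γ • (0 : ℂ) - lam‖ < 1 / ((n : ℝ) + 1) := fun n =>
    Fuchs.exists_near lam hlamL _ (by positivity)
  choose x hx using hseq
  have hxt : Tendsto (fun n => x n • (0 : ℂ)) atTop (𝓝 lam) := by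
    rw [tendsto_iff_norm_sub_tendsto_zero]
    exact squeeze_zero (fun n => norm_nonneg _) (fun n => (hx n).le) tendsto_one_div_add_atTop_nhds_zero_nat
  have hconj := nofin_conj h ξ lam hξ hlam hlamne.symm hfix x hxt
  -- an element with derivative different from one at `ξ`
  obtain ⟨g, hg⟩ : ∃ g : Γ, pk (g⁻¹ • (0 : ℂ)) ξ ≠ 1 := by
    have h3 : Tendsto (fun n => ‖ξ - x n • (0 : ℂ)‖ ^ 2 - (1 - ‖x n • (0 : ℂ)‖ ^ 2)) atTop (𝓝 (‖ξ - lam‖ ^ 2 - (1 - ‖lam‖ ^ 2))) :=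
      ((tendsto_const_nhds.sub hxt).norm.pow 2).sub ((hxt.norm.pow 2).const_sub 1)
    have h4 : 0 < ‖ξ - lam‖ ^ 2 - (1 - ‖lam‖ ^ 2) := by
      have : 0 < ‖ξ - lam‖ := norm_pos_iff.2 (sub_ne_zero.2 hlamne.symm)
      rw [hlam]
      nlinarith
    obtain ⟨n, hn⟩ := (h3.eventually (lt_mem_nhds h4)).exists
    refine ⟨x n, fun h5 => ?_⟩
    have h6 := nofin_key h (x n) hξ
    rw [hfix] at h6
    unfold pk at h5
    rw [h.norm_inv] at h5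
    have h7 : 0 < 1 - ‖x n • (0 : ℂ)‖ ^ 2 := by
      have := h.norm0 (x n)
      nlinarith [norm_nonneg (x n • (0 : ℂ))]
    have h8 : ‖ξ - (x n)⁻¹ • (0 : ℂ)‖ ≠ 0 := by
      intro h9
      rw [h9, mul_zero] at h6
      linarith
    rw [div_eq_one_iff_eq (pow_ne_zero 2 h8)] at h5
    rw [h5] at h6
    have h9 : ‖ξ - x n • (0 : ℂ)‖ = ‖ξ - (x n)⁻¹ • (0 : ℂ)‖ := by
      apply mul_right_cancel₀ h8
      rw [h6, sq]
    rw [h5, h9] at hn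
    linarith
  -- uniqueness of the second fixed point of `g`
  have huniq : ∀ η η' : ℂ, ‖η‖ = 1 → ‖η'‖ = 1 → η ≠ ξ → η' ≠ ξ → g • η = η → g • η' = η' → η = η' := by
    intro η η' hη hη' hne1 hne2 hfη hfη'
    by_contra hneq
    have e1 := h.two_pt g hη hξ
    have e2 := h.two_pt g hη' hξ
    have e3 := h.two_pt g hη hη'
    rw [hfη, hfix] at e1
    rw [hfη', hfix] at e2
    rw [hfη, hfη'] at e3
    have d1 : ‖η - ξ‖ ^ 2 ≠ 0 := pow_ne_zero 2 (norm_ne_zero_iff.2 (sub_ne_zero.2 hne1))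
    have d2 : ‖η' - ξ‖ ^ 2 ≠ 0 := pow_ne_zero 2 (norm_ne_zero_iff.2 (sub_ne_zero.2 hne2))
    have d3 : ‖η - η'‖ ^ 2 ≠ 0 := pow_ne_zero 2 (norm_ne_zero_iff.2 (sub_ne_zero.2 hneq))
    have f1 : pk (g⁻¹ • (0 : ℂ)) η * pk (g⁻¹ • (0 : ℂ)) ξ = 1 := by
      apply mul_right_cancel₀ d1; rw [one_mul]; exact e1.symm
    have f2 : pk (g⁻¹ • (0 : ℂ)) η' * pk (g⁻¹ • (0 : ℂ)) ξ = 1 := by
      apply mul_right_cancel₀ d2; rw [one_mul]; exact e2.symm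
    have f3 : pk (g⁻¹ • (0 : ℂ)) η * pk (g⁻¹ • (0 : ℂ)) η' = 1 := by
      apply mul_right_cancel₀ d3; rw [one_mul]; exact e3.symm
    have p0 : 0 < pk (g⁻¹ • (0 : ℂ)) ξ := pk_pos (h.norm0 _) hξ
    apply hg
    have f4 : pk (g⁻¹ • (0 : ℂ)) ξ ^ 2 = 1 := by
      calc pk (g⁻¹ • (0 : ℂ)) ξ ^ 2 = pk (g⁻¹ • (0 : ℂ)) ξ ^ 2 * (pk (g⁻¹ • (0 : ℂ)) η * pk (g⁻¹ • (0 : ℂ)) η') := by rw [f3, mul_one]
        _ = (pk (g⁻¹ • (0 : ℂ)) η * pk (g⁻¹ • (0 : ℂ)) ξ) * (pk (g⁻¹ • (0 : ℂ)) η' * pk (g⁻¹ • (0 : ℂ)) ξ) := by ring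
        _ = 1 := by rw [f1, f2, one_mul]
    nlinarith
  have hq1 : ∀ n, ‖(x n)⁻¹ • lam‖ = 1 := fun n => h.norm_eq _ hlam
  have hqne : ∀ n, (x n)⁻¹ • lam ≠ ξ := by
    intro n h3
    apply hlamne
    rw [inv_smul_eq_iff] at h3
    rw [h3, hfix]
  have hqfix : ∀ k : Γ, ∀ᶠ n in atTop, k • ((x n)⁻¹ • lam) = (x n)⁻¹ • lam := by
    intro k
    filter_upwards [hconj k] with n hn
    rw [mul_smul, mul_smul] at hn
    rw [eq_inv_smul_iff]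
    exact hn
  obtain ⟨N, hN⟩ := eventually_atTop.1 (hqfix g)
  set q : ℂ := (x N)⁻¹ • lam with hq
  have hconst : ∀ n ≥ N, (x n)⁻¹ • lam = q := fun n hn =>
    huniq _ _ (hq1 n) (hq1 N) (hqne n) (hqne N) (hN n hn) (hN N le_rfl)
  have hkq : ∀ k : Γ, k • q = q := by
    intro k
    obtain ⟨M, hM⟩ := eventually_atTop.1 (hqfix k)
    have h3 := hM (max M N) (le_max_left _ _)
    rw [hconst _ (le_max_right _ _)] at h3
    exact h3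
  refine hL (((Set.finite_singleton q).insert ξ).subset (nofin_two h {ξ, q} ((Set.finite_singleton q).insert ξ) ξ q
    (by simp) (by simp) (hqne N).symm ?_ ?_))
  · rintro z (rfl | rfl)
    · simpa using hξ
    · simpa using hq1 N
  · rintro γ z (rfl | rfl)
    · rw [hfix]; simp
    · rw [hkq]; simp

end Pool.Agent.DD
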