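import Pool.Agent.Lib_MP_644907_full.Meas1
import Pool.Agent.Lib_MP_644907_full.NoFin2

/-!
# Piece NOATOM1: stationary measures have no atoms and are carried by the limit set
-/

set_option autoImplicit false

namespace Pool.Agent.DD

open MeasureTheory Filter Topology Metric

variable {Γ : Type} [Group Γ] [MulAction Γ ℂ] {ι : Type} [Fintype ι] {ν : Measure ℂ}

/-- Suppose `ν {ξ} > 0`; then `ξ` is on the circle. The set of atoms of mass `≥ t > 0` is finite, so the maximal mass `M` of an atom is attained, on a finite nonempty set `F` of the circle. For `ξ ∈ F`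
`M = ν {ξ} = ∑ p_i ν {g_i⁻¹ ξ} ≤ M` (`Stat.stat`; the preimage of `{ξ}` under `g_i •` is `{g_i⁻¹ • ξ}`), so `g_i⁻¹ • ξ ∈ F` for all `i`. As `F` is finite and `g_i⁻¹` injective, `g_i⁻¹ F = F`, so `g_i F = F`; the set of `γ`
with `γ F = F` is closed under products and contains all `g_i`, so it is everything (`Walk.gen`, `Subsemigroup.closure_induction`). Contradiction to `no_fin`. -/
theorem no_atom (h : Fuchs Γ) (hL : (Lim Γ).Infinite) (W : Walk Γ ι) (hν : Stat W.toPreWalk ν) (ξ : ℂ) : ν {ξ} = 0 := by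
  have hprob := hν.prob
  by_contra hpos
  -- the masses of the points
  obtain ⟨a, ha⟩ : ∃ a : ℂ → ℝ, a = fun z => ν.real {z} := ⟨_, rfl⟩
  have ha' : ∀ z, a z = ν.real {z} := fun z => by rw [ha]
  have hξpos : 0 < a ξ := by
    rw [ha', Measure.real]
    exact ENNReal.toReal_pos hpos (measure_ne_top _ _)
  have hfin : {z : ℂ | ν {ξ} ≤ ν {z}}.Finite := by
    apply MeasureTheory.Measure.finite_const_le_meas_of_disjoint_iUnion ν (pos_iff_ne_zero.2 hpos)
      (As := fun z : ℂ => {z}) (fun z => measurableSet_singleton z)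
    · intro x y hxy
      simpa using hxy
    · exact measure_ne_top _ _
  have hfin' : {z : ℂ | a ξ ≤ a z}.Finite := by
    refine hfin.subset fun z hz => ?_
    have hz' : a ξ ≤ a z := hz
    rw [ha', ha', Measure.real, Measure.real, ENNReal.toReal_le_toReal (measure_ne_top _ _)
      (measure_ne_top _ _)] at hz'
    exact hz'
  obtain ⟨ξ₀, hξ₀, hmax⟩ := hfin'.exists_maximalFor a _ ⟨ξ, le_refl (a ξ)⟩
  have hmax' : ∀ z, a z ≤ a ξ₀ := by
    intro z
    by_cases hz : a ξ ≤ a z
    · rcases le_total (a z) (a ξ₀) with h1 | h1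
      · exact h1
      · exact hmax hz h1
    · push Not at hz
      exact hz.le.trans hξ₀
  obtain ⟨M, hM⟩ : ∃ M, M = a ξ₀ := ⟨_, rfl⟩
  rw [← hM] at hmax'
  have hMpos : 0 < M := by rw [hM]; exact lt_of_lt_of_le hξpos hξ₀
  have hMξ : a ξ ≤ M := by rw [hM]; exact hξ₀
  -- stationarity
  have hst : ∀ z, a z = ∑ i, W.p i * a ((W.g i)⁻¹ • z) := by
    intro z
    have h1 := hν.stat {z} (measurableSet_singleton z)
    have h2 : ∀ i, (fun w : ℂ => W.g i • w) ⁻¹' {z} = {(W.g i)⁻¹ • z} := by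
      intro i
      ext w
      simp only [Set.mem_preimage, Set.mem_singleton_iff]
      exact smul_eq_iff_eq_inv_smul _
    simp only [h2] at h1
    rw [ha', Measure.real, h1, ENNReal.toReal_sum]
    · refine Finset.sum_congr rfl fun i _ => ?_
      rw [ENNReal.toReal_mul, ENNReal.toReal_ofReal (W.pos i).le, ha', Measure.real]
    · intro i _
      exact ENNReal.mul_ne_top ENNReal.ofReal_ne_top (measure_ne_top _ _)
  -- the set of the points of maximal mass
  obtain ⟨F, hF⟩ : ∃ F : Set ℂ, F = {z | a z = M} := ⟨_, rfl⟩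
  have memF : ∀ z, z ∈ F ↔ a z = M := fun z => by rw [hF]; rfl
  have hFfin : F.Finite := by
    refine hfin'.subset fun z hz => ?_
    rw [memF] at hz
    show a ξ ≤ a z
    rw [hz]; exact hMξ
  have hFne : F.Nonempty := ⟨ξ₀, (memF _).2 hM.symm⟩
  have hFs : F ⊆ sphere 0 1 := by
    intro z hz
    by_contra hzs
    rw [memF] at hz
    have h1 : ν {z} = 0 := measure_mono_null (Set.singleton_subset_iff.2 hzs) hν.supp
    rw [ha', Measure.real, h1, ENNReal.toReal_zero] at hz
    linarith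
  have hinv1 : ∀ i, ∀ z ∈ F, (W.g i)⁻¹ • z ∈ F := by
    intro i z hz
    rw [memF] at hz ⊢
    have h1 : ∑ i, W.p i * (M - a ((W.g i)⁻¹ • z)) = 0 := by
      simp only [mul_sub, Finset.sum_sub_distrib, ← Finset.sum_mul, W.sum, one_mul]
      rw [← hst z, hz, sub_self]
    have hnn : ∀ i ∈ Finset.univ, 0 ≤ W.p i * (M - a ((W.g i)⁻¹ • z)) := fun i _ =>
      mul_nonneg (W.pos i).le (sub_nonneg.2 (hmax' _))
    have h2 := (Finset.sum_eq_zero_iff_of_nonneg hnn).1 h1 i (Finset.mem_univ i)
    rcases mul_eq_zero.1 h2 with h3 | h3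
    · exact absurd h3 (W.pos i).ne'
    · linarith
  have hinv2 : ∀ i, ∀ z ∈ F, W.g i • z ∈ F := by
    intro i z hz
    have hmaps : Set.MapsTo (fun w : ℂ => (W.g i)⁻¹ • w) F F := fun w hw => hinv1 i w hw
    have hinj : Set.InjOn (fun w : ℂ => (W.g i)⁻¹ • w) F := fun w _ w' _ hww =>
      (MulAction.injective ((W.g i)⁻¹)) hww
    have himg : (fun w : ℂ => (W.g i)⁻¹ • w) '' F = F :=
      Set.eq_of_subset_of_ncard_le hmaps.image_subset (Set.InjOn.ncard_image hinj).ge hFfin
    rw [← himg] at hz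
    obtain ⟨w, hw, hwz⟩ := hz
    have hwz' : (W.g i)⁻¹ • w = z := hwz
    rw [← hwz', smul_inv_smul]
    exact hw
  have hinv : ∀ γ : Γ, ∀ z ∈ F, γ • z ∈ F := by
    intro γ
    induction W.gen γ using Subsemigroup.closure_induction with
    | mem x hx =>
      obtain ⟨i, rfl⟩ := hx
      exact hinv2 i
    | mul x y _ _ hx hy =>
      intro z hz
      rw [mul_smul]
      exact hx _ (hy _ hz)
  exact no_fin h hL F hFfin hFne hFs hinv

end Pool.Agent.DD
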