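import Pool.Agent.Lib_MP_644907_full.Window

/-!
# Piece PSM1: the Patterson-Sullivan measure
-/

set_option autoImplicit false

namespace Pool.Agent.DD

open MeasureTheory Filter Topology Metric

variable {Γ : Type} [Group Γ] [MulAction Γ ℂ]

/-- the normalised weighted orbit measure -/
noncomputable def orb (h : Fuchs Γ) (t N : ℝ) : Measure ℂ :=
  ∑ γ ∈ trunc h N, ENNReal.ofReal ((1 - ‖γ • (0 : ℂ)‖ ^ 2) ^ t / psum h t N) • Measure.dirac (γ • (0 : ℂ))

private theorem psm1_pos (h : Fuchs Γ) (γ : Γ) : 0 < 1 - ‖γ • (0 : ℂ)‖ ^ 2 := by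
  have h1 := h.norm0 γ
  have h0 := norm_nonneg (γ • (0 : ℂ))
  nlinarith only [h1, h0]

private theorem psm1_psum_pos (h : Fuchs Γ) (t N : ℝ) (hN : 0 ≤ N) : 0 < psum h t N := by
  unfold psum
  refine Finset.sum_pos (fun γ _ => Real.rpow_pos_of_pos (psm1_pos h γ) t) ?_
  refine ⟨1, ?_⟩
  unfold trunc
  rw [Set.Finite.mem_toFinset, Set.mem_ofPred_eq, one_smul, norm_zero]
  have h1 : Real.exp (-N) ≤ 1 := Real.exp_le_one_iff.2 (by linarith)
  simpa using h1

theorem orb_int (h : Fuchs Γ) (t N : ℝ) (hN : 0 ≤ N) (f : ℂ → ℝ) :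
    ∫ z, f z ∂(orb h t N) = (∑ γ ∈ trunc h N, (1 - ‖γ • (0 : ℂ)‖ ^ 2) ^ t * f (γ • (0 : ℂ))) / psum h t N := by
  have hp := psm1_psum_pos h t N hN
  unfold orb
  rw [integral_finsetSum_measure]
  · rw [Finset.sum_div]
    refine Finset.sum_congr rfl fun γ _ => ?_
    rw [integral_smul_measure, integral_dirac, ENNReal.toReal_ofReal, smul_eq_mul]
    · ring
    · exact div_nonneg (Real.rpow_nonneg (psm1_pos h γ).le t) hp.le
  · intro γ _
    refine Integrable.smul_measure ?_ ENNReal.ofReal_ne_top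
    exact integrable_dirac enorm_lt_top

theorem orb_prob (h : Fuchs Γ) (t N : ℝ) (hN : 0 ≤ N) : IsProbabilityMeasure (orb h t N) := by
  have hp := psm1_psum_pos h t N hN
  constructor
  unfold orb
  rw [Measure.finsetSum_apply]
  have h1 : ∀ γ ∈ trunc h N, (ENNReal.ofReal ((1 - ‖γ • (0 : ℂ)‖ ^ 2) ^ t / psum h t N) • Measure.dirac (γ • (0 : ℂ))) Set.univ =
      ENNReal.ofReal ((1 - ‖γ • (0 : ℂ)‖ ^ 2) ^ t / psum h t N) := by
    intro γ _
    rw [Measure.smul_apply, measure_univ, smul_eq_mul, mul_one]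
  rw [Finset.sum_congr rfl h1, ← ENNReal.ofReal_sum_of_nonneg, ← Finset.sum_div]
  · have h2 : (∑ γ ∈ trunc h N, (1 - ‖γ • (0 : ℂ)‖ ^ 2) ^ t) / psum h t N = 1 := by
      unfold psum
      exact div_self hp.ne'
    rw [h2, ENNReal.ofReal_one]
  · intro γ _
    exact div_nonneg (Real.rpow_nonneg (psm1_pos h γ).le t) hp.le

end Pool.Agent.DD
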