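import Pool.Agent.Lib_MP_644907_full.PSm1

/-!
# Piece PSM2: the Patterson-Sullivan measure
-/

set_option autoImplicit false

namespace Pool.Agent.DD

open MeasureTheory Filter Topology Metric

variable {Γ : Type} [Group Γ] [MulAction Γ ℂ]

theorem PSM2_mem (h : Fuchs Γ) (N : ℝ) (γ : Γ) :
    γ ∈ trunc h N ↔ Real.exp (-N) ≤ 1 - ‖γ • (0 : ℂ)‖ ^ 2 := by
  unfold trunc
  rw [Set.Finite.mem_toFinset]
  rfl

theorem PSM2_mono (h : Fuchs Γ) {N N' : ℝ} (hN : N ≤ N') : trunc h N ⊆ trunc h N' := by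
  intro γ hγ
  rw [PSM2_mem] at hγ ⊢
  exact (Real.exp_le_exp.mpr (by linarith)).trans hγ

theorem PSM2_v (h : Fuchs Γ) (γ : Γ) : 0 < 1 - ‖γ • (0 : ℂ)‖ ^ 2 := by
  have h1 := h.norm0 γ
  have h2 := norm_nonneg (γ • (0 : ℂ))
  nlinarith

/-- the difference of two sums over sets between `A` and `B` -/
theorem PSM2_sum [DecidableEq Γ] {A B S T : Finset Γ} (h1 : A ⊆ S) (h2 : A ⊆ T) (h3 : S ⊆ B)
    (h4 : T ⊆ B) (g G : Γ → ℝ) (hg : ∀ γ, |g γ| ≤ G γ) :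
    |∑ γ ∈ S, g γ - ∑ γ ∈ T, g γ| ≤ 2 * (∑ γ ∈ B, G γ - ∑ γ ∈ A, G γ) := by
  have hG : ∀ γ, 0 ≤ G γ := fun γ => (abs_nonneg _).trans (hg γ)
  have e1 : ∑ γ ∈ S, g γ = ∑ γ ∈ S \ A, g γ + ∑ γ ∈ A, g γ := (Finset.sum_sdiff h1).symm
  have e2 : ∑ γ ∈ T, g γ = ∑ γ ∈ T \ A, g γ + ∑ γ ∈ A, g γ := (Finset.sum_sdiff h2).symm
  have e3 : ∑ γ ∈ B, G γ = ∑ γ ∈ B \ A, G γ + ∑ γ ∈ A, G γ :=
    (Finset.sum_sdiff (h1.trans h3)).symm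
  have b : ∀ U : Finset Γ, U ⊆ B → |∑ γ ∈ U \ A, g γ| ≤ ∑ γ ∈ B \ A, G γ := by
    intro U hU
    refine (Finset.abs_sum_le_sum_abs _ _).trans ((Finset.sum_le_sum fun γ _ => hg γ).trans ?_)
    exact Finset.sum_le_sum_of_subset_of_nonneg (Finset.sdiff_subset_sdiff hU le_rfl)
      fun γ _ _ => hG γ
  have b1 := abs_le.mp (b S h3)
  have b2 := abs_le.mp (b T h4)
  rw [e1, e2, e3, abs_le]
  constructor <;> linarith

/-- `κ z = (1 - |x 0|²) / |1 - conj (x 0) z|²`. Substituting `γ → x⁻¹ γ`: `∑_{γ ∈ trunc N} (1 - |γ 0|²)^t f (x γ 0) = ∑_{x⁻¹ γ ∈ trunc N} (1 - |x⁻¹ γ 0|²)^t f (γ 0)`, and `1 - |x⁻¹ γ 0|² = κ (γ 0) (1 - |γ 0|²)` (`Fuchs.one_sub_smul` for `x⁻¹`). The condition `x⁻¹ γ ∈ trunc N` differs from `γ ∈ trunc N` only for `γ` with `e^(-N-L) ≤ 1 - |γ 0|² ≤ e^(-N + L)`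
where `e^L ≥ sup κ, sup 1/κ` on the disk, i.e. `γ ∈ trunc (N + L) \ trunc (N - L)` up to the boundary case; the difference of the two sums is at most `sup κ^t · sup |f| · (psum (N + L) - psum (N - L))` (replace `L` by a slightly larger number for the boundary case). -/
theorem orb_conf (h : Fuchs Γ) (x : Γ) : ∃ L₀ C : ℝ, 0 < L₀ ∧ 0 < C ∧ ∀ (t N L M : ℝ) (f : ℂ → ℝ), 0 < t → t ≤ 2 → L₀ ≤ L → L ≤ N → (∀ z, ‖z‖ ≤ 1 → |f z| ≤ M) →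
    |∫ z, f (x • z) ∂(orb h t N) - ∫ z, f z * ((1 - ‖x • (0 : ℂ)‖ ^ 2) / ‖1 - starRingEnd ℂ (x • (0 : ℂ)) * z‖ ^ 2) ^ t ∂(orb h t N)| ≤
      C * M * ((psum h t (N + L) - psum h t (N - L)) / psum h t N) := by
  classical
  set a : ℂ := x • (0 : ℂ) with ha
  have ha1 : ‖a‖ < 1 := h.norm0 x
  have ha0 : 0 ≤ ‖a‖ := norm_nonneg a
  set K : ℝ := (1 + ‖a‖) / (1 - ‖a‖) with hK
  have hK1 : 1 ≤ K := by
    rw [hK, le_div_iff₀ (by linarith)]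
    linarith
  have hK0 : 0 < K := by linarith
  set κ : ℂ → ℝ := fun z => (1 - ‖a‖ ^ 2) / ‖1 - starRingEnd ℂ a * z‖ ^ 2 with hκ
  have hnorm : ∀ z : ℂ, ‖z‖ ≤ 1 → 1 - ‖a‖ ≤ ‖1 - starRingEnd ℂ a * z‖ ∧
      ‖1 - starRingEnd ℂ a * z‖ ≤ 1 + ‖a‖ := by
    intro z hz
    have h1 : ‖starRingEnd ℂ a * z‖ ≤ ‖a‖ := by
      rw [norm_mul, Complex.norm_conj]
      nlinarith
    constructor
    · have h2 := norm_sub_norm_le (1 : ℂ) (starRingEnd ℂ a * z)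
      rw [norm_one] at h2
      linarith
    · have h2 := norm_sub_le (1 : ℂ) (starRingEnd ℂ a * z)
      rw [norm_one] at h2
      linarith
  have hκle : ∀ z : ℂ, ‖z‖ ≤ 1 → κ z ≤ K := by
    intro z hz
    obtain ⟨h1, _⟩ := hnorm z hz
    have h2 : 0 < 1 - ‖a‖ := by linarith
    show (1 - ‖a‖ ^ 2) / ‖1 - starRingEnd ℂ a * z‖ ^ 2 ≤ (1 + ‖a‖) / (1 - ‖a‖)
    have h4 : 0 < ‖1 - starRingEnd ℂ a * z‖ := by linarith
    rw [div_le_div_iff₀ (by positivity) h2]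
    have h3 : (1 - ‖a‖) ^ 2 ≤ ‖1 - starRingEnd ℂ a * z‖ ^ 2 := pow_le_pow_left₀ h2.le h1 2
    nlinarith
  have hκge : ∀ z : ℂ, ‖z‖ ≤ 1 → 1 ≤ K * κ z := by
    intro z hz
    obtain ⟨h1, h1'⟩ := hnorm z hz
    have h2 : 0 < 1 - ‖a‖ := by linarith
    show 1 ≤ (1 + ‖a‖) / (1 - ‖a‖) * ((1 - ‖a‖ ^ 2) / ‖1 - starRingEnd ℂ a * z‖ ^ 2)
    have h4 : 0 < ‖1 - starRingEnd ℂ a * z‖ := by linarith
    rw [div_mul_div_comm, le_div_iff₀ (by positivity), one_mul]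
    have h3 : ‖1 - starRingEnd ℂ a * z‖ ^ 2 ≤ (1 + ‖a‖) ^ 2 := pow_le_pow_left₀ h4.le h1' 2
    have h5 : (1 - ‖a‖) * ‖1 - starRingEnd ℂ a * z‖ ^ 2 ≤ (1 - ‖a‖) * (1 + ‖a‖) ^ 2 :=
      mul_le_mul_of_nonneg_left h3 h2.le
    nlinarith
  have hκpos : ∀ z : ℂ, ‖z‖ ≤ 1 → 0 < κ z := by
    intro z hz
    have h1 := hκge z hz
    by_contra h2
    rw [not_lt] at h2
    nlinarith
  have hvκ : ∀ γ : Γ, 1 - ‖(x⁻¹ * γ) • (0 : ℂ)‖ ^ 2 = κ (γ • (0 : ℂ)) * (1 - ‖γ • (0 : ℂ)‖ ^ 2) := by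
    intro γ
    have hγ1 : ‖γ • (0 : ℂ)‖ ≤ 1 := (h.norm0 γ).le
    have h1 := h.one_sub_smul x⁻¹ hγ1
    rw [inv_inv, h.norm_inv, ← mul_smul, ← ha] at h1
    obtain ⟨h2, _⟩ := hnorm _ hγ1
    have h3 : 0 < ‖1 - starRingEnd ℂ a * (γ • (0 : ℂ))‖ ^ 2 := by
      have : 0 < ‖1 - starRingEnd ℂ a * (γ • (0 : ℂ))‖ := by linarith
      positivity
    show _ = (1 - ‖a‖ ^ 2) / ‖1 - starRingEnd ℂ a * (γ • (0 : ℂ))‖ ^ 2 * _
    rw [div_mul_eq_mul_div, eq_div_iff h3.ne']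
    exact h1
  refine ⟨Real.log K + 1, 2 * K ^ 2, by have := Real.log_nonneg hK1; linarith, by positivity,
    fun t N L M f ht ht2 hL hLN hf => ?_⟩
  have hN0 : 0 ≤ N := by
    have := Real.log_nonneg hK1
    linarith
  have hM : 0 ≤ M := (abs_nonneg _).trans (hf 0 (by simp))
  have hKL : K ≤ Real.exp L := by
    calc K = Real.exp (Real.log K) := (Real.exp_log hK0).symm
      _ ≤ Real.exp L := Real.exp_le_exp.mpr (by linarith)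
  have hL0 : 0 ≤ L := by
    have := Real.log_nonneg hK1
    linarith
  set g : Γ → ℝ := fun γ => (1 - ‖γ • (0 : ℂ)‖ ^ 2) ^ t * (f (γ • (0 : ℂ)) * κ (γ • (0 : ℂ)) ^ t)
    with hg
  set S : Finset Γ := (trunc h N).image (fun γ => x * γ) with hS
  have hmemS : ∀ γ, γ ∈ S ↔ x⁻¹ * γ ∈ trunc h N := by
    intro γ
    rw [hS, Finset.mem_image]
    constructor
    · rintro ⟨γ', hγ', rfl⟩
      rwa [inv_mul_cancel_left]
    · intro hγ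
      exact ⟨x⁻¹ * γ, hγ, mul_inv_cancel_left _ _⟩
  have e1 : ∑ γ ∈ trunc h N, (1 - ‖γ • (0 : ℂ)‖ ^ 2) ^ t * f (x • (γ • (0 : ℂ))) =
      ∑ γ ∈ S, g γ := by
    rw [hS, Finset.sum_image (fun γ _ γ' _ e => mul_left_cancel e)]
    refine Finset.sum_congr rfl fun γ _ => ?_
    have h1 := hvκ (x * γ)
    rw [inv_mul_cancel_left] at h1
    show _ = (1 - ‖(x * γ) • (0 : ℂ)‖ ^ 2) ^ t * (f ((x * γ) • (0 : ℂ)) * κ ((x * γ) • (0 : ℂ)) ^ t)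
    have hk := hκpos ((x * γ) • (0 : ℂ)) (h.norm0 _).le
    rw [h1, Real.mul_rpow hk.le (PSM2_v h _).le, mul_smul]
    ring
  rw [orb_int h t N hN0, orb_int h t N hN0, e1]
  have hp : 0 ≤ psum h t N := Finset.sum_nonneg fun γ _ =>
    Real.rpow_nonneg (PSM2_v h γ).le t
  rw [← sub_div, abs_div, abs_of_nonneg hp, ← mul_div_assoc]
  refine div_le_div_of_nonneg_right ?_ hp
  have hA1 : trunc h (N - L) ⊆ S := by
    intro γ hγ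
    rw [hmemS, PSM2_mem, hvκ]
    rw [PSM2_mem] at hγ
    have hk := hκge (γ • (0 : ℂ)) (h.norm0 γ).le
    have hk0 := hκpos (γ • (0 : ℂ)) (h.norm0 γ).le
    have h1 : Real.exp (-(N - L)) = Real.exp (-N) * Real.exp L := by
      rw [← Real.exp_add]
      ring_nf
    rw [h1] at hγ
    calc Real.exp (-N) ≤ Real.exp (-N) * (K * κ (γ • (0 : ℂ))) :=
          le_mul_of_one_le_right (Real.exp_pos _).le hk
      _ ≤ Real.exp (-N) * (Real.exp L * κ (γ • (0 : ℂ))) := by gcongr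
      _ = κ (γ • (0 : ℂ)) * (Real.exp (-N) * Real.exp L) := by ring
      _ ≤ κ (γ • (0 : ℂ)) * (1 - ‖γ • (0 : ℂ)‖ ^ 2) := by gcongr
  have hB1 : S ⊆ trunc h (N + L) := by
    intro γ hγ
    rw [hmemS, PSM2_mem, hvκ] at hγ
    rw [PSM2_mem]
    have hk := hκle (γ • (0 : ℂ)) (h.norm0 γ).le
    have h1 : Real.exp (-(N + L)) * Real.exp L = Real.exp (-N) := by
      rw [← Real.exp_add]
      ring_nf
    have hv := PSM2_v h γ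
    have h2 : κ (γ • (0 : ℂ)) * (1 - ‖γ • (0 : ℂ)‖ ^ 2) ≤
        Real.exp L * (1 - ‖γ • (0 : ℂ)‖ ^ 2) :=
      mul_le_mul_of_nonneg_right (hk.trans hKL) hv.le
    rw [← h1, mul_comm] at hγ
    exact le_of_mul_le_mul_left (hγ.trans h2) (Real.exp_pos L)
  have hmain := PSM2_sum (A := trunc h (N - L)) (B := trunc h (N + L)) (S := S) (T := trunc h N)
    hA1 (PSM2_mono h (by linarith)) hB1 (PSM2_mono h (by linarith)) g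
    (fun γ => K ^ 2 * M * (1 - ‖γ • (0 : ℂ)‖ ^ 2) ^ t) ?_
  · refine hmain.trans (le_of_eq ?_)
    unfold psum
    rw [← Finset.mul_sum, ← Finset.mul_sum]
    ring
  · intro γ
    have hk := hκle (γ • (0 : ℂ)) (h.norm0 γ).le
    have hk0 := hκpos (γ • (0 : ℂ)) (h.norm0 γ).le
    have hv := PSM2_v h γ
    have hvt : 0 ≤ (1 - ‖γ • (0 : ℂ)‖ ^ 2) ^ t := Real.rpow_nonneg hv.le t
    have hkt : κ (γ • (0 : ℂ)) ^ t ≤ K ^ 2 := by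
      calc κ (γ • (0 : ℂ)) ^ t ≤ K ^ t := Real.rpow_le_rpow hk0.le hk ht.le
        _ ≤ K ^ (2 : ℝ) := Real.rpow_le_rpow_of_exponent_le hK1 ht2
        _ = K ^ 2 := Real.rpow_two K
    have hkt0 : 0 ≤ κ (γ • (0 : ℂ)) ^ t := Real.rpow_nonneg hk0.le t
    have hfγ := hf (γ • (0 : ℂ)) (h.norm0 γ).le
    show |(1 - ‖γ • (0 : ℂ)‖ ^ 2) ^ t * (f (γ • (0 : ℂ)) * κ (γ • (0 : ℂ)) ^ t)| ≤ _
    rw [abs_mul, abs_mul, abs_of_nonneg hvt, abs_of_nonneg hkt0]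
    have h1 : |f (γ • (0 : ℂ))| * κ (γ • (0 : ℂ)) ^ t ≤ M * K ^ 2 :=
      mul_le_mul hfγ hkt hkt0 hM
    calc (1 - ‖γ • (0 : ℂ)‖ ^ 2) ^ t * (|f (γ • (0 : ℂ))| * κ (γ • (0 : ℂ)) ^ t) ≤
        (1 - ‖γ • (0 : ℂ)‖ ^ 2) ^ t * (M * K ^ 2) := mul_le_mul_of_nonneg_left h1 hvt
      _ = K ^ 2 * M * (1 - ‖γ • (0 : ℂ)‖ ^ 2) ^ t := by ring

end Pool.Agent.DD
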