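import Pool.Agent.Lib_MP_644907_full.Pairs
import Pool.Agent.Lib_MP_644907_full.Minimal2

/-!
# Piece PING: ping pong elements
-/

set_option autoImplicit false

namespace Pool.Agent.DD

open MeasureTheory Filter Topology Metric

variable {Γ : Type} [Group Γ] [MulAction Γ ℂ]

/-- four distinct points `a₁, b₁, a₂, b₂` of the limit set, `ε` less than half of their mutual distances, `k_i` from `dynamics` for `(a_i, b_i)`; `A_i = ball a_i ε`, `B_i = ball b_i ε` -/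
theorem ping (h : Fuchs Γ) (hL : (Lim Γ).Infinite) : ∃ (k₁ k₂ : Γ) (A₁ B₁ A₂ B₂ : Set ℂ),
    Disjoint A₁ B₁ ∧ Disjoint A₁ A₂ ∧ Disjoint A₁ B₂ ∧ Disjoint B₁ A₂ ∧ Disjoint B₁ B₂ ∧ Disjoint A₂ B₂ ∧
    (∀ z : ℂ, ‖z‖ ≤ 1 → z ∉ B₁ → k₁ • z ∈ A₁) ∧ (∀ z : ℂ, ‖z‖ ≤ 1 → z ∉ B₂ → k₂ • z ∈ A₂) := by
  obtain ⟨a₁, ha₁, _⟩ := hL.exists_notMem_finset ∅
  obtain ⟨b₁, hb₁, hb₁n⟩ := hL.exists_notMem_finset {a₁}
  obtain ⟨a₂, ha₂, ha₂n⟩ := hL.exists_notMem_finset {a₁, b₁}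
  obtain ⟨b₂, hb₂, hb₂n⟩ := hL.exists_notMem_finset {a₁, b₁, a₂}
  simp only [Finset.mem_insert, Finset.mem_singleton, not_or] at hb₁n ha₂n hb₂n
  have d1 : 0 < dist a₁ b₁ := dist_pos.2 (Ne.symm hb₁n)
  have d2 : 0 < dist a₁ a₂ := dist_pos.2 (Ne.symm ha₂n.1)
  have d3 : 0 < dist a₁ b₂ := dist_pos.2 (Ne.symm hb₂n.1)
  have d4 : 0 < dist b₁ a₂ := dist_pos.2 (Ne.symm ha₂n.2)
  have d5 : 0 < dist b₁ b₂ := dist_pos.2 (Ne.symm hb₂n.2.1)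
  have d6 : 0 < dist a₂ b₂ := dist_pos.2 (Ne.symm hb₂n.2.2)
  obtain ⟨ε, hε, e1, e2, e3, e4, e5, e6⟩ : ∃ ε : ℝ, 0 < ε ∧ ε + ε ≤ dist a₁ b₁ ∧ ε + ε ≤ dist a₁ a₂ ∧ ε + ε ≤ dist a₁ b₂ ∧
      ε + ε ≤ dist b₁ a₂ ∧ ε + ε ≤ dist b₁ b₂ ∧ ε + ε ≤ dist a₂ b₂ := by
    obtain ⟨D, hD⟩ : ∃ D : ℝ, D = min (dist a₁ b₁) (min (dist a₁ a₂) (min (dist a₁ b₂) (min (dist b₁ a₂) (min (dist b₁ b₂) (dist a₂ b₂))))) := ⟨_, rfl⟩
    have hDpos : 0 < D := by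
      rw [hD]
      exact lt_min d1 (lt_min d2 (lt_min d3 (lt_min d4 (lt_min d5 d6))))
    have hle := hD.le
    simp only [le_min_iff] at hle
    refine ⟨D / 2, by linarith, ?_⟩
    rw [add_halves]
    exact hle
  obtain ⟨k₁, _, _, h1, _⟩ := dynamics h hL a₁ b₁ ha₁ hb₁ ε hε
  obtain ⟨k₂, _, _, h2, _⟩ := dynamics h hL a₂ b₂ ha₂ hb₂ ε hε
  refine ⟨k₁, k₂, ball a₁ ε, ball b₁ ε, ball a₂ ε, ball b₂ ε, ball_disjoint_ball e1, ball_disjoint_ball e2, ball_disjoint_ball e3,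
    ball_disjoint_ball e4, ball_disjoint_ball e5, ball_disjoint_ball e6, ?_, ?_⟩
  · intro z hz hzB
    rw [mem_ball, dist_eq_norm]
    apply h1 z hz
    rw [mem_ball, dist_eq_norm] at hzB
    exact not_lt.1 hzB
  · intro z hz hzB
    rw [mem_ball, dist_eq_norm]
    apply h2 z hz
    rw [mem_ball, dist_eq_norm] at hzB
    exact not_lt.1 hzB

end Pool.Agent.DD
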