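import Pool.Agent.Lib_MP_644907_full.Grp1

/-!
# Piece SPEC1A: contraction of the `ℓ²` norm
-/

set_option autoImplicit false

namespace Pool.Agent.DD

open MeasureTheory Filter Topology Metric

variable {Γ : Type} [Group Γ] [MulAction Γ ℂ] {ι : Type} [Fintype ι]

private theorem spec1a_norm (h : Fuchs Γ) (x : Γ) : ‖x • (0 : ℂ)‖ ≤ 1 := by
  exact (h.iso x).norm_le 0 (by simp)

open Classical in
private theorem spec1a_key (h : Fuchs Γ) (k : Γ) (A B : Set ℂ)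
    (h1 : ∀ z : ℂ, ‖z‖ ≤ 1 → z ∉ B → k • z ∈ A)
    (a : Γ → ℝ) (hfin : (Function.support a).Finite) :
    (∑' y, a y ^ 2) ≤ (∑' y : Γ, (if y⁻¹ • (0 : ℂ) ∈ A then a y ^ 2 else 0)) +
      (∑' y : Γ, (if y⁻¹ • (0 : ℂ) ∈ B then a y ^ 2 else 0)) + ∑' y, |a (y * k) ^ 2 - a y ^ 2| := by
  have hs : ∀ f : Γ → ℝ, (∀ y, a y = 0 → f y = 0) → Summable f := fun f hf =>
    summable_of_finite_support (hfin.subset fun y hy hay => hy (hf y hay))
  have hfin' : (Function.support fun y => a (y * k)).Finite := by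
    have : (Function.support fun y => a (y * k)) = (fun y => y * k) ⁻¹' (Function.support a) := rfl
    rw [this]
    exact hfin.preimage (mul_left_injective k).injOn
  have hs' : ∀ f : Γ → ℝ, (∀ y, a (y * k) = 0 → f y = 0) → Summable f := fun f hf =>
    summable_of_finite_support (hfin'.subset fun y hy hay => hy (hf y hay))
  have hsA : Summable fun y : Γ => (if y⁻¹ • (0 : ℂ) ∈ A then a y ^ 2 else 0) :=
    hs _ fun y hy => by simp [hy]
  have hsB : Summable fun y : Γ => (if y⁻¹ • (0 : ℂ) ∈ B then a y ^ 2 else 0) :=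
    hs _ fun y hy => by simp [hy]
  have hsD : Summable fun y : Γ => |a (y * k) ^ 2 - a y ^ 2| := by
    apply summable_of_finite_support ((hfin.union hfin').subset ?_)
    intro y hy
    by_contra hn
    simp only [Set.mem_union, Function.mem_support, not_or, not_not] at hn
    apply hy
    simp [hn.1, hn.2]
  have hsk : Summable fun z : Γ => (if k • (z⁻¹ • (0 : ℂ)) ∈ A then a z ^ 2 else 0) :=
    hs _ fun y hy => by simp [hy]
  have e1 : (∑' y, a y ^ 2) ≤ (∑' z : Γ, (if k • (z⁻¹ • (0 : ℂ)) ∈ A then a z ^ 2 else 0)) +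
      (∑' y : Γ, (if y⁻¹ • (0 : ℂ) ∈ B then a y ^ 2 else 0)) := by
    rw [← hsk.tsum_add hsB]
    refine Summable.tsum_le_tsum (fun y => ?_) (hs _ fun y hy => by simp [hy]) (hsk.add hsB)
    by_cases hB : y⁻¹ • (0 : ℂ) ∈ B
    · simp only [hB, if_true]
      have : 0 ≤ (if k • (y⁻¹ • (0 : ℂ)) ∈ A then a y ^ 2 else 0) := by
        split_ifs <;> positivity
      linarith
    · have hA := h1 _ (spec1a_norm h y⁻¹) hB
      simp only [hB, hA, if_true, if_false, add_zero, le_refl]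
  have e2 : (∑' z : Γ, (if k • (z⁻¹ • (0 : ℂ)) ∈ A then a z ^ 2 else 0)) =
      ∑' y : Γ, (if y⁻¹ • (0 : ℂ) ∈ A then a (y * k) ^ 2 else 0) := by
    rw [← Equiv.tsum_eq (Equiv.mulRight k)]
    refine tsum_congr fun y => ?_
    have : k • ((Equiv.mulRight k y)⁻¹ • (0 : ℂ)) = y⁻¹ • (0 : ℂ) := by
      rw [Equiv.coe_mulRight, ← mul_smul, mul_inv_rev, mul_inv_cancel_left]
    rw [this, Equiv.coe_mulRight]
  have e3 : (∑' y : Γ, (if y⁻¹ • (0 : ℂ) ∈ A then a (y * k) ^ 2 else 0)) ≤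
      (∑' y : Γ, (if y⁻¹ • (0 : ℂ) ∈ A then a y ^ 2 else 0)) + ∑' y, |a (y * k) ^ 2 - a y ^ 2| := by
    rw [← hsA.tsum_add hsD]
    refine Summable.tsum_le_tsum (fun y => ?_) (hs' _ fun y hy => by simp [hy]) (hsA.add hsD)
    have := le_abs_self (a (y * k) ^ 2 - a y ^ 2)
    by_cases hA : y⁻¹ • (0 : ℂ) ∈ A
    · simp only [hA, if_true]; linarith
    · simp only [hA, if_false, zero_add]; positivity
  linarith

private theorem spec1a_cs (k : Γ) (a : Γ → ℝ) (hfin : (Function.support a).Finite)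
    (h : (∑' y, a y ^ 2) / 2 ≤ ∑' y, |a (y * k) ^ 2 - a y ^ 2|) :
    (∑' y, a y ^ 2) / 16 ≤ ∑' y, (a (y * k) - a y) ^ 2 := by
  classical
  have hfin' : (Function.support fun y => a (y * k)).Finite := by
    have : (Function.support fun y => a (y * k)) = (fun y => y * k) ⁻¹' (Function.support a) := rfl
    rw [this]
    exact hfin.preimage (mul_left_injective k).injOn
  obtain ⟨T, hT⟩ : ∃ T : Finset Γ, ∀ y, y ∉ T → a y = 0 ∧ a (y * k) = 0 := by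
    refine ⟨(hfin.union hfin').toFinset, fun y hy => ?_⟩
    simp only [Set.Finite.mem_toFinset, Set.mem_union, Function.mem_support, not_or, not_not] at hy
    exact hy
  have s1 : (∑' y, a y ^ 2) = ∑ y ∈ T, a y ^ 2 := tsum_eq_sum fun y hy => by simp [(hT y hy).1]
  have s2 : (∑' y, a y ^ 2) = ∑ y ∈ T, a (y * k) ^ 2 := by
    rw [← Equiv.tsum_eq (Equiv.mulRight k)]
    simp only [Equiv.coe_mulRight]
    exact tsum_eq_sum fun y hy => by simp [(hT y hy).2]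
  have s3 : (∑' y, |a (y * k) ^ 2 - a y ^ 2|) = ∑ y ∈ T, |a (y * k) - a y| * |a (y * k) + a y| := by
    rw [tsum_eq_sum (s := T) fun y hy => by simp [(hT y hy).1, (hT y hy).2]]
    refine Finset.sum_congr rfl fun y _ => ?_
    rw [← abs_mul]; congr 1; ring
  have s4 : (∑' y, (a (y * k) - a y) ^ 2) = ∑ y ∈ T, (a (y * k) - a y) ^ 2 :=
    tsum_eq_sum fun y hy => by simp [(hT y hy).1, (hT y hy).2]
  have cs := Finset.sum_mul_sq_le_sq_mul_sq T (fun y => |a (y * k) - a y|) (fun y => |a (y * k) + a y|)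
  simp only [sq_abs] at cs
  have s5 : ∑ y ∈ T, (a (y * k) + a y) ^ 2 ≤ 4 * ∑' y, a y ^ 2 := by
    have : ∑ y ∈ T, (a (y * k) + a y) ^ 2 ≤ ∑ y ∈ T, (2 * a (y * k) ^ 2 + 2 * a y ^ 2) := by
      refine Finset.sum_le_sum fun y _ => ?_
      nlinarith [sq_nonneg (a (y * k) - a y)]
    rw [Finset.sum_add_distrib, ← Finset.mul_sum, ← Finset.mul_sum, ← s1, ← s2] at this
    linarith
  rw [s4]
  set S := ∑' y, a y ^ 2
  set E := ∑ y ∈ T, (a (y * k) - a y) ^ 2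
  have hS : 0 ≤ S := by rw [s1]; positivity
  have hE : 0 ≤ E := by positivity
  rw [← s3] at cs
  have h2 : (S / 2) ^ 2 ≤ E * (4 * S) := by
    calc (S / 2) ^ 2 ≤ (∑' y, |a (y * k) ^ 2 - a y ^ 2|) ^ 2 := by gcongr
      _ ≤ _ := cs
      _ ≤ _ := by gcongr
  rcases hS.eq_or_lt with h0 | h0
  · rw [← h0]; simpa using hE
  · by_contra hlt
    push Not at hlt
    have : E * (4 * S) < (S / 16) * (4 * S) := by gcongr
    nlinarith

/-- Let `a ≥ 0`, `∑ a² = 1` (scaling), `κ(A) = ∑_{y : y⁻¹ 0 ∈ A} a(y)²` a probability on subsets of the disk, and for `k = k_l`, `b y = a (y k)` (`k⁻¹ = g`, so `y g⁻¹ = y k`), `∑ b² = 1` and `∑_{y : y⁻¹ 0 ∈ A} b(y)² = ∑_z a(z)² [k z⁻¹ 0 ∈ A]` (substitute `z = y k`, `y⁻¹ = k z⁻¹`).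
For `A = A_l` this is `≥ 1 - κ(B_l)` by the ping pong property. So `κ(A_l) + κ(B_l) ≥ 1 - ∑ |a² - b²|`; if both `∑ |a² - b²| < 1/2` then the sum of the four disjoint sets is `> 1`, contradiction. So for `l = 1` or `2`: `1/2 ≤ ∑ |a² - b²| ≤ ‖a - b‖ ‖a + b‖ ≤ 2 ‖a - b‖`. (In particular `‖a - b‖² ≥ 1/16`.) -/
theorem l2_move (h : Fuchs Γ) (k₁ k₂ : Γ) (A₁ B₁ A₂ B₂ : Set ℂ)
    (hd : Disjoint A₁ B₁ ∧ Disjoint A₁ A₂ ∧ Disjoint A₁ B₂ ∧ Disjoint B₁ A₂ ∧ Disjoint B₁ B₂ ∧ Disjoint A₂ B₂)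
    (h1 : ∀ z : ℂ, ‖z‖ ≤ 1 → z ∉ B₁ → k₁ • z ∈ A₁) (h2 : ∀ z : ℂ, ‖z‖ ≤ 1 → z ∉ B₂ → k₂ • z ∈ A₂)
    (a : Γ → ℝ) (ha0 : ∀ x, 0 ≤ a x) (hfin : (Function.support a).Finite) :
    (∑' y, a y ^ 2) / 16 ≤ ∑' y, (a (y * k₁) - a y) ^ 2 ∨ (∑' y, a y ^ 2) / 16 ≤ ∑' y, (a (y * k₂) - a y) ^ 2 := by
  classical
  by_contra hcon
  push Not at hcon
  have d1 : (∑' y, |a (y * k₁) ^ 2 - a y ^ 2|) < (∑' y, a y ^ 2) / 2 := by
    by_contra hn; exact absurd (spec1a_cs k₁ a hfin (not_lt.1 hn)) (not_le.2 hcon.1)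
  have d2 : (∑' y, |a (y * k₂) ^ 2 - a y ^ 2|) < (∑' y, a y ^ 2) / 2 := by
    by_contra hn; exact absurd (spec1a_cs k₂ a hfin (not_lt.1 hn)) (not_le.2 hcon.2)
  have e1 := spec1a_key h k₁ A₁ B₁ h1 a hfin
  have e2 := spec1a_key h k₂ A₂ B₂ h2 a hfin
  have hs : ∀ C : Set ℂ, Summable fun y : Γ => (if y⁻¹ • (0 : ℂ) ∈ C then a y ^ 2 else 0) := fun C =>
    summable_of_finite_support (hfin.subset fun y hy hay => hy (by simp [show a y = 0 from hay]))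
  have e3 : (∑' y : Γ, (if y⁻¹ • (0 : ℂ) ∈ A₁ then a y ^ 2 else 0)) +
      (∑' y : Γ, (if y⁻¹ • (0 : ℂ) ∈ B₁ then a y ^ 2 else 0)) +
      ((∑' y : Γ, (if y⁻¹ • (0 : ℂ) ∈ A₂ then a y ^ 2 else 0)) +
      (∑' y : Γ, (if y⁻¹ • (0 : ℂ) ∈ B₂ then a y ^ 2 else 0))) ≤ ∑' y, a y ^ 2 := by
    rw [← (hs A₁).tsum_add (hs B₁), ← (hs A₂).tsum_add (hs B₂),
      ← ((hs A₁).add (hs B₁)).tsum_add ((hs A₂).add (hs B₂))]
    refine Summable.tsum_le_tsum (fun y => ?_) (((hs A₁).add (hs B₁)).add ((hs A₂).add (hs B₂)))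
      (summable_of_finite_support (hfin.subset fun y hy hay => hy (by simp [show a y = 0 from hay])))
    obtain ⟨q1, q2, q3, q4, q5, q6⟩ := hd
    have hy : 0 ≤ a y ^ 2 := sq_nonneg _
    by_cases c1 : y⁻¹ • (0 : ℂ) ∈ A₁
    · have n1 := Set.disjoint_left.1 q1 c1
      have n2 := Set.disjoint_left.1 q2 c1
      have n3 := Set.disjoint_left.1 q3 c1
      simp [c1, n1, n2, n3]
    · by_cases c2 : y⁻¹ • (0 : ℂ) ∈ B₁
      · have n2 := Set.disjoint_left.1 q4 c2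
        have n3 := Set.disjoint_left.1 q5 c2
        simp [c1, c2, n2, n3]
      · by_cases c3 : y⁻¹ • (0 : ℂ) ∈ A₂
        · have n3 := Set.disjoint_left.1 q6 c3
          simp [c1, c2, c3, n3]
        · by_cases c4 : y⁻¹ • (0 : ℂ) ∈ B₂
          · simp [c1, c2, c3, c4]
          · simp [c1, c2, c3, c4, hy]
  linarith

end Pool.Agent.DD
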