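import Pool.Agent.Lib_MP_644907_full.Tang1a

/-!
# Piece TANG1: no gap implies a tangent situation (pole in the closed disk)
-/

set_option autoImplicit false

namespace Pool.Agent.DD

open MeasureTheory Filter Topology Metric

variable {Γ : Type} [Group Γ] [MulAction Γ ℂ] {ι : Type} [Fintype ι] {ν m : Measure ℂ} {s : ℝ}

/-- If `Gap` fails: for every `n` there is a good arc with `aff ν m θ k (n+1) > (1 - 1/(n+2)) aff ν m θ k 0`; `one_arc` gives `x_n, b_n, c_n`. By compactness pass to a subsequence with `b_n → b ∈ Lim Γ`, `x_n 0 → ζ` in the closed disk, `|ζ - b| ≥ 4 ρ`. Let `r = ρ`. For `f` as in the statement with `|f| ≤ M`: for `n` large `|b_n - b| ≤ ρ`, so `f` vanishes off `ball b_n (4 ρ)`,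
and `f` is uniformly continuous on the circle, so `c_n U ν f (x_n) - ∫ f |ξ - x_n 0|^(-2 s) dm → 0`, and `|ξ - x_n 0|^(-2s) → |ξ - ζ|^(-2s)` uniformly on `ball b ρ` (where `|ξ - x_n 0| ≥ ρ`). -/
theorem tangent0 (h : Fuchs Γ) (hL : (Lim Γ).Infinite) (W : Walk Γ ι) (hν : Stat W.toPreWalk ν) (hcf : Conf Γ m s) (D : ℝ) (hg : ¬ Gap Γ ν m D) :
    ∃ (b ζ : ℂ) (r : ℝ) (x : ℕ → Γ) (c : ℕ → ℝ), b ∈ Lim Γ ∧ ‖ζ‖ ≤ 1 ∧ 0 < r ∧ 2 * r < ‖ζ - b‖ ∧
      (∀ n, 0 < c n) ∧ Tendsto (fun n => x n • (0 : ℂ)) atTop (𝓝 ζ) ∧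
      ∀ f : ℂ → ℝ, ContinuousOn f (sphere 0 1) → (∀ z : ℂ, ‖z‖ = 1 → r ≤ ‖z - b‖ → f z = 0) →
        Tendsto (fun n => c n * U ν f (x n)) atTop (𝓝 (∫ ξ, f ξ * (‖ξ - ζ‖ ^ 2) ^ (-s) ∂m)) := by
  have hfin := hcf.fin
  have hprob := hν.prob
  obtain ⟨ρ, C, hρ, hC, hone⟩ := one_arc h hL W hν hcf D
  have hex : ∀ n : ℕ, ∃ (x : Γ) (b : ℂ) (c : ℝ), b ∈ Lim Γ ∧ 0 < c ∧ 4 * ρ ≤ ‖b - x • (0 : ℂ)‖ ∧
      ∀ (f : ℂ → ℝ) (M ω : ℝ), ContinuousOn f (sphere 0 1) → (∀ z, ‖z‖ = 1 → 4 * ρ ≤ ‖z - b‖ → f z = 0) →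
        (∀ z, ‖z‖ = 1 → |f z| ≤ M) →
        (∀ z w : ℂ, ‖z‖ = 1 → ‖w‖ = 1 → ‖z - w‖ ≤ C * (1 / 2) ^ (n + 1) → |f z - f w| ≤ ω) →
        |c * U ν f x - ∫ ξ, f ξ * (‖ξ - x • (0 : ℂ)‖ ^ 2) ^ (-s) ∂m| ≤ C * (√(1 / ((n : ℝ) + 2)) * M + ω) := by
    intro n
    have h1 : ∃ (θ : ℝ) (k : ℕ), GoodArc Γ D θ k ∧
        (1 - 1 / ((n : ℝ) + 2)) * aff ν m θ k 0 < aff ν m θ k (n + 1) := by
      by_contra hcon
      push Not at hcon
      refine hg ⟨n + 1, 1 / ((n : ℝ) + 2), Nat.succ_pos n, by positivity, ?_, hcon⟩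
      rw [div_lt_one (by positivity)]
      have : (0 : ℝ) ≤ n := Nat.cast_nonneg n
      linarith
    obtain ⟨θ, k, hga, haf⟩ := h1
    exact hone θ k (n + 1) _ (by positivity) hga haf.le
  choose x b c hb hc hbx hf using hex
  have hcomp : IsCompact ((closedBall (0 : ℂ) 1) ×ˢ (closedBall (0 : ℂ) 1)) :=
    (isCompact_closedBall _ _).prod (isCompact_closedBall _ _)
  have hmem : ∀ n, (b n, x n • (0 : ℂ)) ∈ (closedBall (0 : ℂ) 1) ×ˢ (closedBall (0 : ℂ) 1) := fun n =>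
    ⟨sphere_subset_closedBall (hb n).2, by simpa using (h.norm0 (x n)).le⟩
  obtain ⟨⟨b₀, ζ⟩, hbζ, φ, hφ, hlim⟩ := hcomp.tendsto_subseq hmem
  have hlb : Tendsto (fun n => b (φ n)) atTop (𝓝 b₀) := (continuous_fst.tendsto _).comp hlim
  have hlz : Tendsto (fun n => x (φ n) • (0 : ℂ)) atTop (𝓝 ζ) := (continuous_snd.tendsto _).comp hlim
  have hb₀ : b₀ ∈ Lim Γ := Fuchs.lim_closed.mem_of_tendsto hlb (Eventually.of_forall fun n => hb _)
  have hζ : ‖ζ‖ ≤ 1 := by simpa using hbζ.2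
  have hζb : 4 * ρ ≤ ‖ζ - b₀‖ := by
    rw [norm_sub_rev]
    exact ge_of_tendsto (hlb.sub hlz).norm (Eventually.of_forall fun n => hbx _)
  have hφt : Tendsto φ atTop atTop := hφ.tendsto_atTop
  refine ⟨b₀, ζ, ρ, fun n => x (φ n), fun n => c (φ n), hb₀, hζ, hρ, by linarith, fun n => hc _, hlz, ?_⟩
  intro f hfc hf0
  have hsph : IsCompact (sphere (0 : ℂ) 1) := isCompact_sphere _ _
  obtain ⟨M, hM⟩ := hsph.exists_bound_of_continuousOn hfc
  have hM' : ∀ z : ℂ, ‖z‖ = 1 → |f z| ≤ M := fun z hz => hM z (by simpa using hz)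
  have hM0 : 0 ≤ M := (abs_nonneg _).trans (hM' 1 (by simp))
  have huc := hsph.uniformContinuousOn_of_continuous hfc
  rw [Metric.uniformContinuousOn_iff] at huc
  have hbn : ∀ᶠ n in atTop, ‖b (φ n) - b₀‖ < ρ := by
    have := (Metric.tendsto_nhds.1 hlb) ρ hρ
    simpa [dist_eq_norm] using this
  have hzn : ∀ᶠ n in atTop, ‖x (φ n) • (0 : ℂ) - ζ‖ < ρ := by
    have := (Metric.tendsto_nhds.1 hlz) ρ hρ
    simpa [dist_eq_norm] using this
  -- first step: comparison with the integrals for the poles `x n • 0`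
  have hstep1 : Tendsto (fun n => c (φ n) * U ν f (x (φ n)) - ∫ ξ, f ξ * (‖ξ - x (φ n) • (0 : ℂ)‖ ^ 2) ^ (-s) ∂m)
      atTop (𝓝 0) := by
    rw [Metric.tendsto_nhds]
    intro η hη
    obtain ⟨δ, hδ, hδ'⟩ := huc (η / (4 * C)) (by positivity)
    have t1 : Tendsto (fun n : ℕ => C * (√(1 / ((n : ℝ) + 2)) * M)) atTop (𝓝 0) := by
      have a1 : Tendsto (fun n : ℕ => 1 / ((n : ℝ) + 2)) atTop (𝓝 0) := by
        have a2 : Tendsto (fun n : ℕ => (n : ℝ) + 2) atTop atTop :=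
          tendsto_atTop_add_const_right _ _ tendsto_natCast_atTop_atTop
        simpa using a2.const_div_atTop 1
      have a3 := (a1.sqrt.mul_const M).const_mul C
      simpa using a3
    have t2 : Tendsto (fun n : ℕ => C * (1 / 2 : ℝ) ^ (n + 1)) atTop (𝓝 0) := by
      have a1 := ((tendsto_pow_atTop_nhds_zero_of_lt_one (by norm_num : (0 : ℝ) ≤ 1 / 2)
        (by norm_num)).comp (tendsto_add_atTop_nat 1)).const_mul C
      simpa using a1
    filter_upwards [hbn, (t1.comp hφt).eventually (gt_mem_nhds (show (0 : ℝ) < η / 2 by positivity)),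
      (t2.comp hφt).eventually (gt_mem_nhds hδ)] with n hn1 hn2 hn3
    have h1 := hf (φ n) f M (η / (4 * C)) hfc
      (fun z hz hz2 => hf0 z hz (by
        have e1 : ‖z - b (φ n)‖ ≤ ‖z - b₀‖ + ‖b (φ n) - b₀‖ := by
          calc ‖z - b (φ n)‖ = ‖(z - b₀) - (b (φ n) - b₀)‖ := by congr 1; ring
            _ ≤ _ := norm_sub_le _ _
        linarith)) hM'
      (fun z w hz hw hzw => by
        have e1 := hδ' z (by simpa using hz) w (by simpa using hw) (by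
          rw [dist_eq_norm]
          exact lt_of_le_of_lt hzw hn3)
        rw [Real.dist_eq] at e1
        exact e1.le)
    rw [dist_zero_right, Real.norm_eq_abs]
    refine lt_of_le_of_lt h1 ?_
    have e2 : C * (η / (4 * C)) = η / 4 := by
      field_simp
    have e3 : C * (√(1 / ((φ n : ℝ) + 2)) * M) < η / 2 := hn2
    rw [mul_add, e2]
    linarith
  -- second step: dominated convergence
  have hae : ∀ᵐ ξ ∂m, ξ ∈ Lim Γ := by
    rw [ae_iff]
    exact hcf.supp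
  have hae' : ∀ᵐ ξ ∂m, ξ ∈ sphere (0 : ℂ) 1 := hae.mono fun ξ hξ => hξ.2
  have hfm : AEStronglyMeasurable f m := by
    have h1 : AEStronglyMeasurable f (m.restrict (sphere (0 : ℂ) 1)) :=
      hfc.aestronglyMeasurable isClosed_sphere.measurableSet
    rwa [Measure.restrict_eq_self_of_ae_mem hae'] at h1
  have hstep2 : Tendsto (fun n => ∫ ξ, f ξ * (‖ξ - x (φ n) • (0 : ℂ)‖ ^ 2) ^ (-s) ∂m) atTop
      (𝓝 (∫ ξ, f ξ * (‖ξ - ζ‖ ^ 2) ^ (-s) ∂m)) := by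
    refine tendsto_integral_filter_of_dominated_convergence (fun _ => M * (ρ ^ 2) ^ (-s)) ?_ ?_ (integrable_const _) ?_
    · refine Eventually.of_forall fun n => hfm.mul ?_
      refine Measurable.aestronglyMeasurable ?_
      exact ((measurable_id.sub_const _).norm.pow_const 2).pow_const _
    · filter_upwards [hzn] with n hn
      filter_upwards [hae'] with ξ hξ
      have hξ1 : ‖ξ‖ = 1 := by simpa using hξ
      by_cases hc1 : ρ ≤ ‖ξ - b₀‖
      · rw [hf0 ξ hξ1 hc1, zero_mul, norm_zero]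
        positivity
      · have e1 : ρ ≤ ‖ξ - x (φ n) • (0 : ℂ)‖ := by
          have e2 : ‖ζ - b₀‖ ≤ ‖ξ - b₀‖ + ‖ξ - x (φ n) • (0 : ℂ)‖ + ‖x (φ n) • (0 : ℂ) - ζ‖ := by
            calc ‖ζ - b₀‖ = ‖(ξ - b₀) - (ξ - x (φ n) • (0 : ℂ)) - (x (φ n) • (0 : ℂ) - ζ)‖ := by congr 1; ring
              _ ≤ ‖(ξ - b₀) - (ξ - x (φ n) • (0 : ℂ))‖ + ‖x (φ n) • (0 : ℂ) - ζ‖ := norm_sub_le _ _
              _ ≤ _ := by gcongr; exact norm_sub_le _ _
          linarith [not_le.1 hc1]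
        rw [norm_mul, Real.norm_eq_abs, Real.norm_of_nonneg (Real.rpow_nonneg (sq_nonneg _) _)]
        refine mul_le_mul (hM' ξ hξ1) ?_ (Real.rpow_nonneg (sq_nonneg _) _) hM0
        exact Real.rpow_le_rpow_of_nonpos (by positivity) (pow_le_pow_left₀ hρ.le e1 2) (by linarith [hcf.pos])
    · filter_upwards [hae'] with ξ hξ
      have hξ1 : ‖ξ‖ = 1 := by simpa using hξ
      by_cases hc1 : ρ ≤ ‖ξ - b₀‖
      · simp only [hf0 ξ hξ1 hc1, zero_mul]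
        exact tendsto_const_nhds
      · have e1 : ‖ξ - ζ‖ ≠ 0 := by
          have e2 : ‖ζ - b₀‖ ≤ ‖ξ - b₀‖ + ‖ξ - ζ‖ := by
            calc ‖ζ - b₀‖ = ‖(ξ - b₀) - (ξ - ζ)‖ := by congr 1; ring
              _ ≤ _ := norm_sub_le _ _
          have := not_le.1 hc1
          intro h0
          linarith
        refine Tendsto.const_mul _ ?_
        refine Tendsto.rpow_const ?_ (Or.inl (pow_ne_zero 2 e1))
        exact ((tendsto_const_nhds.sub hlz).norm.pow 2)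
  have := hstep1.add hstep2
  simpa using this

end Pool.Agent.DD
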