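import Pool.Agent.Lib_MP_644907_full.GoodG
import Pool.Agent.Lib_MP_644907_full.HellC
import Pool.Agent.Lib_MP_644907_full.LimFull

/-!
# Piece TANG1A: no gap implies a tangent situation (pole in the closed disk)
-/

set_option autoImplicit false

namespace Pool.Agent.DD

open MeasureTheory Filter Topology Metric

variable {Γ : Type} [Group Γ] [MulAction Γ ℂ] {ι : Type} [Fintype ι] {ν m : Measure ℂ} {s : ℝ}

private theorem tang1a_rpow {r d s : ℝ} (hr : 0 ≤ r) (hd : 0 ≤ d) : (r / d) ^ s = r ^ s * d ^ (-s) := by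
  rw [Real.div_rpow hr hd, Real.rpow_neg hd, div_eq_mul_inv]

/-- the integral over the arc is the whole integral -/
private theorem tang1a_setInt (μ : Measure ℂ) (hμ : μ (sphere (0 : ℂ) 1)ᶜ = 0) (I : Set ℂ) (hI : MeasurableSet I)
    (F G : ℂ → ℝ) (h1 : ∀ z, ‖z‖ = 1 → F z = G z) (h2 : ∀ z, ‖z‖ = 1 → z ∉ I → F z = 0) :
    ∫ z in I, F z ∂μ = ∫ z, G z ∂μ := by
  rw [← integral_indicator hI]
  apply integral_congr_ae
  have h3 : ∀ᵐ z ∂μ, z ∈ sphere (0 : ℂ) 1 := by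
    rw [ae_iff]
    exact hμ
  filter_upwards [h3] with z hz
  have hz1 : ‖z‖ = 1 := by simpa using hz
  by_cases hzI : z ∈ I
  · rw [Set.indicator_of_mem hzI]
    exact h1 z hz1
  · rw [Set.indicator_of_notMem hzI, ← h1 z hz1, h2 z hz1 hzI]

private theorem tang1a_arc_sub {a b : ℝ} {z w : ℂ} (hz : z ∈ arc a b) (hw : w ∈ arc a b) :
    ‖z‖ = 1 ∧ ‖w‖ = 1 ∧ ‖z - w‖ ≤ 2 * Real.pi * (b - a) := by
  obtain ⟨u, hu, rfl⟩ := hz
  obtain ⟨v, hv, rfl⟩ := hw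
  refine ⟨norm_e u, norm_e v, (dist_e_le u v).trans ?_⟩
  apply mul_le_mul_of_nonneg_left _ (by positivity)
  rw [abs_le]
  constructor
  · linarith [hu.1, hv.2]
  · linarith [hu.2, hv.1]

private theorem tang1a_final {a r C0 C1 p s K X Y : ℝ} (hr : 0 < r) (hp : 0 < p) (hC0 : 1 ≤ C0)
    (hs : 0 < s) (hC1 : 0 < C1) (ha0 : 0 < a) (ha : a ≤ C1 * p ^ s) (hpr : p ≤ C0 * r) (h : |X - Y| ≤ K) :
    |a / r ^ s * X - a / r ^ s * Y| ≤ C1 * C0 ^ s * K := by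
  have h1 : 0 < r ^ s := Real.rpow_pos_of_pos hr s
  have h2 : a / r ^ s ≤ C1 * C0 ^ s := by
    rw [div_le_iff₀ h1]
    refine ha.trans ?_
    rw [mul_assoc, ← Real.mul_rpow (by linarith) hr.le]
    exact mul_le_mul_of_nonneg_left (Real.rpow_le_rpow hp.le hpr hs.le) hC1.le
  have h3 : 0 < a / r ^ s := div_pos ha0 h1
  rw [← mul_sub, abs_mul, abs_of_pos h3]
  exact mul_le_mul h2 h (abs_nonneg _) (h3.le.trans h2)

/-- the estimate for one good arc with affinity `> (1 - ε) aff_0` and `q` generations. `x = γ⁻¹`, `b = x • e t ∈ Lim Γ`, `I` the arc, `F z = f (x z)`, `f` supported (on the circle) in `ball b (4 ρ)`, so `f (x η) = 0` for `η` in the circle outside `I` (`good_geo`), `∫_I F dν = U ν f x`, `∫_I F dm = ∫ f (x z) dm = (1 - |x 0|²)^s ∫ f |ξ - x 0|^(-2 s) dm` (`conf_int`).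
Put `c = (m I / (1 - |x 0|²)^s) / ν I`. `aff_int` (replace `f` by a measurable function with the same values on the circle; on a subarc of level `k + q` `|x η - x η'| ≤ C 2^k · 2 π 2^(-k-q)` by `good_geo`, `dist_e_le`, so the oscillation is at most `ω`), multiplied by `m I / (1 - |x 0|²)^s ≤ C'` (`mass_good`, `good_geo`). -/
theorem one_arc (h : Fuchs Γ) (hL : (Lim Γ).Infinite) (W : Walk Γ ι) (hν : Stat W.toPreWalk ν) (hcf : Conf Γ m s) (D : ℝ) :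
    ∃ (ρ C : ℝ), 0 < ρ ∧ 0 < C ∧ ∀ (θ : ℝ) (k q : ℕ) (ε : ℝ), 0 < ε → GoodArc Γ D θ k → (1 - ε) * aff ν m θ k 0 ≤ aff ν m θ k q →
      ∃ (x : Γ) (b : ℂ) (c : ℝ), b ∈ Lim Γ ∧ 0 < c ∧ 4 * ρ ≤ ‖b - x • (0 : ℂ)‖ ∧
        ∀ (f : ℂ → ℝ) (M ω : ℝ), ContinuousOn f (sphere 0 1) → (∀ z, ‖z‖ = 1 → 4 * ρ ≤ ‖z - b‖ → f z = 0) → (∀ z, ‖z‖ = 1 → |f z| ≤ M) →
          (∀ z w : ℂ, ‖z‖ = 1 → ‖w‖ = 1 → ‖z - w‖ ≤ C * (1 / 2) ^ q → |f z - f w| ≤ ω) →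
          |c * U ν f x - ∫ ξ, f ξ * (‖ξ - x • (0 : ℂ)‖ ^ 2) ^ (-s) ∂m| ≤ C * (√ε * M + ω) := by
  classical
  have hνp := hν.prob
  have hmf := hcf.fin
  obtain ⟨ρ, C0, hρ, hC0, hgeo⟩ := good_geo h D
  obtain ⟨c1, C1, hc1, hC1, hmass⟩ := mass_good h hL hcf D
  have hs := hcf.pos
  have hC0s : 0 < C0 ^ s := Real.rpow_pos_of_pos (by linarith) s
  have hpi := Real.pi_pos
  have hCa : 0 < 2 * Real.pi * C0 := by positivity
  have hCb : 0 < C1 * C0 ^ s := by positivity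
  refine ⟨ρ, 2 * Real.pi * C0 + 3 * (C1 * C0 ^ s), hρ, by positivity, fun θ k q ε hε hg haff => ?_⟩
  obtain ⟨t, γ, ht1, ht2, htL, hqd⟩ := id hg
  obtain ⟨g1, g2, g3, g4, g5, g6⟩ := hgeo θ t k γ ht1 ht2 hqd
  have hνI : 0 < ν.real (arc θ (θ + (1 / 2) ^ k)) :=
    stat_good h hL W hν (lim_full h hL W hν) D θ k hg
  obtain ⟨m1, m2⟩ := hmass θ k hg
  have hp : (0 : ℝ) < (1 / 2) ^ k := by positivity
  have hmI : 0 < m.real (arc θ (θ + (1 / 2) ^ k)) :=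
    lt_of_lt_of_le (mul_pos hc1 (Real.rpow_pos_of_pos hp s)) m1
  have hr : 0 < 1 - ‖γ⁻¹ • (0 : ℂ)‖ ^ 2 := by
    have := h.norm0 γ⁻¹
    nlinarith [norm_nonneg (γ⁻¹ • (0 : ℂ))]
  have hIm : MeasurableSet (arc θ (θ + (1 / 2) ^ k)) := meas_arc _ _ (by
    have : ((1 : ℝ) / 2) ^ k ≤ 1 := pow_le_one₀ (by norm_num) (by norm_num)
    linarith)
  have hms : m (sphere (0 : ℂ) 1)ᶜ = 0 := by
    refine measure_mono_null ?_ hcf.supp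
    apply Set.compl_subset_compl.2
    exact fun z hz => hz.2
  refine ⟨γ⁻¹, γ⁻¹ • e t, m.real (arc θ (θ + (1 / 2) ^ k)) / (1 - ‖γ⁻¹ • (0 : ℂ)‖ ^ 2) ^ s /
    ν.real (arc θ (θ + (1 / 2) ^ k)), (h.lim_inv γ⁻¹).2 htL, div_pos (div_pos hmI
    (Real.rpow_pos_of_pos hr s)) hνI, g3, ?_⟩
  intro f M ω hf hf0 hfM hfω
  -- the measurable version of `f`
  have hFm0 : Measurable ((sphere (0 : ℂ) 1).piecewise f (fun _ => 0)) :=
    ContinuousOn.measurable_piecewise hf continuousOn_const isClosed_sphere.measurableSet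
  obtain ⟨g, hg'⟩ : ∃ g : ℂ → ℝ, g = (sphere (0 : ℂ) 1).piecewise f (fun _ => 0) := ⟨_, rfl⟩
  rw [← hg'] at hFm0
  have hgf : ∀ z, ‖z‖ = 1 → g z = f z := by
    intro z hz
    rw [hg', Set.piecewise_eq_of_mem]
    simpa using hz
  have hFm : Measurable (fun z => g (γ⁻¹ • z)) := hFm0.comp (h.meas γ⁻¹)
  have hM0 : 0 ≤ M := (abs_nonneg _).trans (hfM 1 (by simp))
  have hω0 : 0 ≤ ω := by
    have := hfω 1 1 (by simp) (by simp) (by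
      rw [sub_self, norm_zero]
      positivity)
    exact (abs_nonneg _).trans this
  have hFM : ∀ z, ‖z‖ = 1 → |g (γ⁻¹ • z)| ≤ M := by
    intro z hz
    have h1 := h.norm_eq γ⁻¹ hz
    rw [hgf _ h1]
    exact hfM _ h1
  have hosc : ∀ j : ℝ, j < 2 ^ q → ∀ z ∈ arc (θ + j * (1 / 2) ^ (k + q)) (θ + (j + 1) * (1 / 2) ^ (k + q)),
      ∀ w ∈ arc (θ + j * (1 / 2) ^ (k + q)) (θ + (j + 1) * (1 / 2) ^ (k + q)),
        |g (γ⁻¹ • z) - g (γ⁻¹ • w)| ≤ ω := by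
    intro j _ z hz w hw
    obtain ⟨hz1, hw1, hzw⟩ := tang1a_arc_sub hz hw
    rw [hgf _ (h.norm_eq γ⁻¹ hz1), hgf _ (h.norm_eq γ⁻¹ hw1)]
    apply hfω _ _ (h.norm_eq γ⁻¹ hz1) (h.norm_eq γ⁻¹ hw1)
    refine (g6 z w hz1 hw1).trans ?_
    have e1 : θ + (j + 1) * (1 / 2) ^ (k + q) - (θ + j * (1 / 2) ^ (k + q)) = (1 / 2) ^ (k + q) := by
      ring
    rw [e1] at hzw
    calc C0 * 2 ^ k * ‖z - w‖ ≤ C0 * 2 ^ k * (2 * Real.pi * (1 / 2) ^ (k + q)) :=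
          mul_le_mul_of_nonneg_left hzw (by positivity)
      _ = 2 * Real.pi * C0 * (1 / 2) ^ q * (2 ^ k * (1 / 2) ^ k) := by
          rw [pow_add]
          ring
      _ = 2 * Real.pi * C0 * (1 / 2) ^ q := by
          rw [← mul_pow]
          norm_num
      _ ≤ (2 * Real.pi * C0 + 3 * (C1 * C0 ^ s)) * (1 / 2) ^ q :=
          mul_le_mul_of_nonneg_right (by linarith) (by positivity)
  have key := aff_int ν m θ k q ε hε.le hνI hmI haff (fun z => g (γ⁻¹ • z)) hFm M ω hFM hosc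
  have hout : ∀ z, ‖z‖ = 1 → z ∉ arc θ (θ + (1 / 2) ^ k) → g (γ⁻¹ • z) = 0 := by
    intro z hz hzI
    rw [hgf _ (h.norm_eq γ⁻¹ hz)]
    exact hf0 _ (h.norm_eq γ⁻¹ hz) (g5 z hz hzI)
  have e1 : ∫ z in arc θ (θ + (1 / 2) ^ k), g (γ⁻¹ • z) ∂ν = U ν f γ⁻¹ :=
    tang1a_setInt ν hν.supp _ hIm _ (fun z => f (γ⁻¹ • z)) (fun z hz => hgf _ (h.norm_eq γ⁻¹ hz)) hout
  have e2 : ∫ z in arc θ (θ + (1 / 2) ^ k), g (γ⁻¹ • z) ∂m = ∫ z, f (γ⁻¹ • z) ∂m :=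
    tang1a_setInt m hms _ hIm _ (fun z => f (γ⁻¹ • z)) (fun z hz => hgf _ (h.norm_eq γ⁻¹ hz)) hout
  have e3 : ∫ z, f (γ⁻¹ • z) ∂m = (1 - ‖γ⁻¹ • (0 : ℂ)‖ ^ 2) ^ s *
      ∫ ξ, f ξ * (‖ξ - γ⁻¹ • (0 : ℂ)‖ ^ 2) ^ (-s) ∂m := by
    rw [conf_int h hcf γ⁻¹ f hf, ← integral_const_mul]
    congr 1
    funext ξ
    unfold pk
    rw [tang1a_rpow hr.le (sq_nonneg _)]
    ring
  rw [e1, e2, e3] at key
  have hrs : 0 < (1 - ‖γ⁻¹ • (0 : ℂ)‖ ^ 2) ^ s := Real.rpow_pos_of_pos hr s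
  have hrr : 1 - ‖γ⁻¹ • (0 : ℂ)‖ ^ 2 = 1 - ‖γ • (0 : ℂ)‖ ^ 2 := by rw [h.norm_inv]
  have fin := tang1a_final (s := s) hr hp hC0 hs hC1 hmI m2 (by rw [hrr]; exact g1) key
  generalize m.real (arc θ (θ + (1 / 2) ^ k)) = a at *
  generalize ν.real (arc θ (θ + (1 / 2) ^ k)) = b at *
  generalize (1 - ‖γ⁻¹ • (0 : ℂ)‖ ^ 2) ^ s = R at *
  generalize U ν f γ⁻¹ = X at *
  generalize (∫ ξ, f ξ * (‖ξ - γ⁻¹ • (0 : ℂ)‖ ^ 2) ^ (-s) ∂m) = Y at *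
  have e4 : a / R / b * X - Y = a / R * (X / b) - a / R * (R * Y / a) := by
    have ha := hmI.ne'
    have hb := hνI.ne'
    have hR := hrs.ne'
    field_simp
  rw [e4]
  refine fin.trans ?_
  have e5 : √(2 * ε) ≤ 3 / 2 * √ε := by
    rw [Real.sqrt_le_left (by positivity), mul_pow, Real.sq_sqrt hε.le]
    linarith
  have e6 : 2 * √(2 * ε) * M ≤ 3 * √ε * M := mul_le_mul_of_nonneg_right (by linarith) hM0
  have e7 : 0 ≤ √ε * M := mul_nonneg (Real.sqrt_nonneg _) hM0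
  calc C1 * C0 ^ s * (2 * √(2 * ε) * M + 2 * ω) ≤ C1 * C0 ^ s * (3 * (√ε * M + ω)) :=
        mul_le_mul_of_nonneg_left (by linarith) hCb.le
    _ = 3 * (C1 * C0 ^ s) * (√ε * M + ω) := by ring
    _ ≤ (2 * Real.pi * C0 + 3 * (C1 * C0 ^ s)) * (√ε * M + ω) :=
        mul_le_mul_of_nonneg_right (by linarith) (by linarith)

end Pool.Agent.DD
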