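import Pool.Agent.Lib_MP_644907_full.Crit1

/-!
# Piece WINDOW: truncated Poincare series
-/

set_option autoImplicit false

namespace Pool.Agent.DD

open MeasureTheory Filter Topology Metric

variable {Γ : Type} [Group Γ] [MulAction Γ ℂ]

/-- the finite set of the `γ` with `1 - |γ 0|² ≥ e^(-N)` -/
noncomputable def trunc (h : Fuchs Γ) (N : ℝ) : Finset Γ :=
  (h.finite_one_sub (Real.exp (-N)) (Real.exp_pos _)).toFinset

/-- the truncated series `S_t (N) = ∑_{1 - |γ 0|² ≥ e^(-N)} (1 - |γ 0|²)^t` -/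
noncomputable def psum (h : Fuchs Γ) (t N : ℝ) : ℝ := ∑ γ ∈ trunc h N, (1 - ‖γ • (0 : ℂ)‖ ^ 2) ^ t

theorem mem_trunc (h : Fuchs Γ) (N : ℝ) (γ : Γ) :
    γ ∈ trunc h N ↔ Real.exp (-N) ≤ 1 - ‖γ • (0 : ℂ)‖ ^ 2 := by
  simp [trunc]

theorem one_sub_pos (h : Fuchs Γ) (γ : Γ) : 0 < 1 - ‖γ • (0 : ℂ)‖ ^ 2 := by
  have h0 := h.norm0 γ
  have h1 := norm_nonneg (γ • (0 : ℂ))
  nlinarith

theorem trunc_mono (h : Fuchs Γ) {N N' : ℝ} (hN : N ≤ N') : trunc h N ⊆ trunc h N' := by
  intro γ hγ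
  rw [mem_trunc] at hγ ⊢
  exact (Real.exp_le_exp.2 (neg_le_neg hN)).trans hγ

theorem psum_mono (h : Fuchs Γ) (t : ℝ) {N N' : ℝ} (hN : N ≤ N') : psum h t N ≤ psum h t N' :=
  Finset.sum_le_sum_of_subset_of_nonneg (trunc_mono h hN) fun γ _ _ =>
    Real.rpow_nonneg (one_sub_pos h γ).le t

theorem psum_unbdd (h : Fuchs Γ) (t : ℝ) (hc : ¬ Conv Γ t) (M : ℝ) : ∃ N : ℝ, M ≤ psum h t N := by
  by_contra hcon
  push Not at hcon
  apply hc
  refine summable_of_sum_le (c := M) (fun γ => Real.rpow_nonneg (one_sub_pos h γ).le t) fun u => ?_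
  obtain ⟨N, hN⟩ : ∃ N : ℝ, u ⊆ trunc h N := by
    induction u using Finset.cons_induction with
    | empty => exact ⟨0, by simp⟩
    | cons γ u hγ ih =>
      obtain ⟨N, hN⟩ := ih
      refine ⟨max N (-Real.log (1 - ‖γ • (0 : ℂ)‖ ^ 2)), fun x hx => ?_⟩
      rw [Finset.mem_cons] at hx
      rcases hx with rfl | hx
      · rw [mem_trunc]
        have h1 := one_sub_pos h x
        have h2 : -max N (-Real.log (1 - ‖x • (0 : ℂ)‖ ^ 2)) ≤ Real.log (1 - ‖x • (0 : ℂ)‖ ^ 2) := by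
          have := le_max_right N (-Real.log (1 - ‖x • (0 : ℂ)‖ ^ 2))
          linarith
        exact (Real.exp_le_exp.2 h2).trans (Real.exp_log h1).le
      · exact trunc_mono h (le_max_left _ _) (hN hx)
  exact (Finset.sum_le_sum_of_subset_of_nonneg hN fun γ _ _ =>
    Real.rpow_nonneg (one_sub_pos h γ).le t).trans (hcon N).le

theorem psum_le (h : Fuchs Γ) (t t' : ℝ) (htt : t ≤ t') (hc : Conv Γ t') (N : ℝ) :
    psum h t N ≤ Real.exp ((t' - t) * N) * ∑' γ : Γ, (1 - ‖γ • (0 : ℂ)‖ ^ 2) ^ t' := by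
  have h1 : psum h t N ≤ Real.exp ((t' - t) * N) * psum h t' N := by
    rw [psum, psum, Finset.mul_sum]
    refine Finset.sum_le_sum fun γ hγ => ?_
    rw [mem_trunc] at hγ
    have ha := one_sub_pos h γ
    set a := 1 - ‖γ • (0 : ℂ)‖ ^ 2 with hadef
    have e1 : a ^ t = a ^ (-(t' - t)) * a ^ t' := by
      rw [← Real.rpow_add ha]; congr 1; ring
    rw [e1]
    refine mul_le_mul_of_nonneg_right ?_ (Real.rpow_nonneg ha.le _)
    have e2 : a ^ (-(t' - t)) ≤ (Real.exp (-N)) ^ (-(t' - t)) :=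
      Real.rpow_le_rpow_of_nonpos (Real.exp_pos _) hγ (by linarith)
    refine e2.trans (le_of_eq ?_)
    rw [← Real.exp_mul]
    congr 1; ring
  refine h1.trans (mul_le_mul_of_nonneg_left ?_ (Real.exp_pos _).le)
  exact hc.sum_le_tsum _ fun γ _ => Real.rpow_nonneg (one_sub_pos h γ).le t'

/-- Let `η = 2 (δ - t)` where `t < δ` is so close to `δ` that `e^(2 L η) ≤ 1 + ε`. Suppose `S_t (n + 2 L) > e^(2 L η) S_t (n)` for all large `n`: then `S_t (n₀ + 2 L k) ≥ c e^(2 L η k)`, `c > 0`. But for `t' ∈ (δ, t + η)` (`δ = t + η / 2`) `S_t (n) ≤ e^((t' - t) n) ∑_γ (1 - |γ 0|²)^t'` (each term with `1 - |γ 0|² ≥ e^(-n)`), `t' - t < η`: contradiction for large `k`.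
So there are arbitrarily large `n` with `S_t (n + 2 L) ≤ e^(2 L η) S_t (n)`, and `S_t (n) → ∞` (`¬ Conv`); `N = n + L`. -/
theorem window (h : Fuchs Γ) (δ : ℝ) (hδ : 0 < δ) (h1 : ∀ t < δ, ¬ Conv Γ t) (h2 : ∀ t > δ, Conv Γ t) (ε L M : ℝ) (hε : 0 < ε) (hL : 0 < L) :
    ∃ t N : ℝ, 0 < t ∧ δ - ε < t ∧ t < δ ∧ M ≤ psum h t (N - L) ∧ psum h t (N + L) ≤ (1 + ε) * psum h t (N - L) := by
  have hlog : 0 < Real.log (1 + ε) := Real.log_pos (by linarith)
  obtain ⟨s, hs, hs1, hs2, hs3⟩ : ∃ s : ℝ, 0 < s ∧ s < ε ∧ s < δ ∧ 4 * L * s ≤ Real.log (1 + ε) := by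
    refine ⟨min (min (ε / 2) (δ / 2)) (Real.log (1 + ε) / (4 * L)), ?_, ?_, ?_, ?_⟩
    · exact lt_min (lt_min (by linarith) (by linarith)) (div_pos hlog (by linarith))
    · exact lt_of_le_of_lt ((min_le_left _ _).trans (min_le_left _ _)) (by linarith)
    · exact lt_of_le_of_lt ((min_le_left _ _).trans (min_le_right _ _)) (by linarith)
    · have h4 : (0 : ℝ) < 4 * L := by linarith
      calc 4 * L * min (min (ε / 2) (δ / 2)) (Real.log (1 + ε) / (4 * L))
          ≤ 4 * L * (Real.log (1 + ε) / (4 * L)) :=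
            mul_le_mul_of_nonneg_left (min_le_right _ _) h4.le
        _ = Real.log (1 + ε) := by field_simp
  by_contra hcon
  have key : ∀ N : ℝ, M ≤ psum h (δ - s) (N - L) →
      (1 + ε) * psum h (δ - s) (N - L) < psum h (δ - s) (N + L) := by
    intro N hN
    by_contra h3
    rw [not_lt] at h3
    exact hcon ⟨δ - s, N, by linarith, by linarith, by linarith, hN, h3⟩
  obtain ⟨n0, hn0⟩ := psum_unbdd h (δ - s) (h1 _ (by linarith)) (max M 1)
  have grow : ∀ k : ℕ, (1 + ε) ^ k ≤ psum h (δ - s) (n0 + 2 * L * k) ∧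
      M ≤ psum h (δ - s) (n0 + 2 * L * k) := by
    intro k
    constructor
    · induction k with
      | zero =>
        simp only [pow_zero, Nat.cast_zero, mul_zero, add_zero]
        exact (le_max_right _ _).trans hn0
      | succ k ih =>
        have hM : M ≤ psum h (δ - s) (n0 + 2 * L * k) :=
          ((le_max_left _ _).trans hn0).trans (psum_mono h _ (by
            have : (0 : ℝ) ≤ 2 * L * k := by positivity
            linarith))
        have h3 := key (n0 + 2 * L * k + L) (by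
          rw [add_sub_cancel_right]; exact hM)
        rw [add_sub_cancel_right] at h3
        have e : n0 + 2 * L * k + L + L = n0 + 2 * L * ((k + 1 : ℕ) : ℝ) := by push_cast; ring
        rw [e] at h3
        calc (1 + ε) ^ (k + 1) = (1 + ε) * (1 + ε) ^ k := by ring
          _ ≤ (1 + ε) * psum h (δ - s) (n0 + 2 * L * k) :=
            mul_le_mul_of_nonneg_left ih (by linarith)
          _ ≤ _ := h3.le
    · exact ((le_max_left _ _).trans hn0).trans (psum_mono h _ (by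
        have : (0 : ℝ) ≤ 2 * L * k := by positivity
        linarith))
  have hconv := h2 (δ + s / 2) (by linarith)
  set S := ∑' γ : Γ, (1 - ‖γ • (0 : ℂ)‖ ^ 2) ^ (δ + s / 2) with hS
  have bd : ∀ k : ℕ, Real.exp (L * s * k) ≤ Real.exp (3 * s / 2 * n0) * S := by
    intro k
    have e1 := (grow k).1.trans (psum_le h (δ - s) (δ + s / 2) (by linarith) hconv (n0 + 2 * L * k))
    have e2 : Real.exp (4 * L * s * k) ≤ (1 + ε) ^ k := by
      have : Real.exp (4 * L * s * k) = (Real.exp (4 * L * s)) ^ k := by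
        rw [← Real.exp_nat_mul]; congr 1; ring
      rw [this]
      refine pow_le_pow_left₀ (Real.exp_pos _).le ?_ k
      calc Real.exp (4 * L * s) ≤ Real.exp (Real.log (1 + ε)) := Real.exp_le_exp.2 hs3
        _ = 1 + ε := Real.exp_log (by linarith)
    have e3 : Real.exp ((δ + s / 2 - (δ - s)) * (n0 + 2 * L * k)) =
        Real.exp (3 * L * s * k) * Real.exp (3 * s / 2 * n0) := by
      rw [← Real.exp_add]; congr 1; ring
    rw [e3, ← hS] at e1
    have e4 : Real.exp (4 * L * s * k) = Real.exp (3 * L * s * k) * Real.exp (L * s * k) := by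
      rw [← Real.exp_add]; congr 1; ring
    have e5 := e2.trans e1
    rw [e4] at e5
    have e6 : Real.exp (3 * L * s * k) * Real.exp (L * s * k) ≤
        Real.exp (3 * L * s * k) * (Real.exp (3 * s / 2 * n0) * S) := by
      rw [← mul_assoc]; exact e5
    exact le_of_mul_le_mul_left e6 (Real.exp_pos _)
  obtain ⟨k, hk⟩ := exists_nat_gt (Real.exp (3 * s / 2 * n0) * S / (L * s))
  have h3 : Real.exp (3 * s / 2 * n0) * S < L * s * k := by
    rw [div_lt_iff₀ (by positivity)] at hk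
    linarith
  have h4 := bd k
  have h5 := Real.add_one_le_exp (L * s * k)
  linarith

end Pool.Agent.DD
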