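import Pool.Agent.Lib_MP_644907_full.Base

/-!
# Piece WORDS: words and transition probabilities
-/

set_option autoImplicit false

namespace Pool.Agent.DD

variable {Γ : Type} [Group Γ] {ι : Type} [Fintype ι]

/-- probability of a word -/
noncomputable def wp (W : PreWalk Γ ι) {k : ℕ} (w : Fin k → ι) : ℝ := ∏ j, W.p (w j)

/-- product of a word -/
def wg (W : PreWalk Γ ι) {k : ℕ} (w : Fin k → ι) : Γ := (List.ofFn fun j => W.g (w j)).prod

theorem wp_pos (W : PreWalk Γ ι) {k : ℕ} (w : Fin k → ι) : 0 < wp W w :=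
  Finset.prod_pos fun j _ => W.pos (w j)

private theorem words_sum_cons {k : ℕ} (f : (Fin (k + 1) → ι) → ℝ) :
    ∑ w : Fin (k + 1) → ι, f w = ∑ i : ι, ∑ w : Fin k → ι, f (Fin.cons i w) := by
  rw [← Fintype.sum_prod_type']
  exact (Fintype.sum_equiv (Fin.consEquiv fun _ : Fin (k + 1) => ι) (fun x => f (Fin.cons x.1 x.2)) f (fun x => rfl)).symm

private theorem words_wp_cons (W : PreWalk Γ ι) {k : ℕ} (i : ι) (w : Fin k → ι) :
    wp W (Fin.cons i w : Fin (k + 1) → ι) = W.p i * wp W w := by
  unfold wp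
  rw [Fin.prod_univ_succ]
  simp only [Fin.cons_zero, Fin.cons_succ]

private theorem words_wg_cons (W : PreWalk Γ ι) {k : ℕ} (i : ι) (w : Fin k → ι) :
    wg W (Fin.cons i w : Fin (k + 1) → ι) = W.g i * wg W w := by
  unfold wg
  rw [List.ofFn_succ, List.prod_cons]
  simp only [Fin.cons_zero, Fin.cons_succ]

private theorem words_wg_zero (W : PreWalk Γ ι) (w : Fin 0 → ι) : wg W w = 1 := by
  unfold wg
  rw [List.ofFn_zero, List.prod_nil]

private theorem words_wp_zero (W : PreWalk Γ ι) (w : Fin 0 → ι) : wp W w = 1 := by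
  unfold wp
  rw [Fin.prod_univ_zero]

/-- `Finset.prod_univ_sum` / `Fintype.sum_pow` -/
theorem sum_wp (W : PreWalk Γ ι) (k : ℕ) : ∑ w : Fin k → ι, wp W w = 1 := by
  induction k with
  | zero =>
    rw [Fintype.sum_unique]
    exact words_wp_zero W _
  | succ k ih =>
    rw [words_sum_cons]
    simp only [words_wp_cons]
    rw [← W.sum]
    refine Finset.sum_congr rfl fun i _ => ?_
    rw [← Finset.mul_sum, ih, mul_one]

/-- induction on `k` (`Fin.consEquiv`/`Fin.cons`, `List.ofFn_succ`) -/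
theorem word_avg (W : PreWalk Γ ι) (u : Γ → ℝ) (hu : ∀ x, u x = avg W u x) (k : ℕ) (x : Γ) :
    u x = ∑ w : Fin k → ι, wp W w * u (x * wg W w) := by
  induction k generalizing x with
  | zero =>
    rw [Fintype.sum_unique, words_wp_zero, words_wg_zero, mul_one, one_mul]
  | succ k ih =>
    rw [words_sum_cons, hu x]
    unfold avg
    refine Finset.sum_congr rfl fun i _ => ?_
    rw [ih (x * W.g i), Finset.mul_sum]
    refine Finset.sum_congr rfl fun w _ => ?_
    rw [words_wp_cons, words_wg_cons, mul_assoc, mul_assoc]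

open Classical in
/-- induction on `k` -/
theorem pn_eq (W : PreWalk Γ ι) (k : ℕ) (x y : Γ) :
    pn W y k x = ∑ w : Fin k → ι, if x * wg W w = y then wp W w else 0 := by
  induction k generalizing x with
  | zero =>
    rw [Fintype.sum_unique, words_wp_zero, words_wg_zero, mul_one]
    rfl
  | succ k ih =>
    rw [words_sum_cons]
    change avg W (pn W y k) x = _
    unfold avg
    refine Finset.sum_congr rfl fun i _ => ?_
    rw [ih (x * W.g i), Finset.mul_sum]
    refine Finset.sum_congr rfl fun w _ => ?_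
    rw [words_wp_cons, words_wg_cons, mul_assoc, mul_ite, mul_zero]

/-- the sequence of the partial products (constant after time `k`) -/
theorem exists_path (W : PreWalk Γ ι) (k : ℕ) (w : Fin k → ι) (x : Γ) : ∃ y : ℕ → Γ, y 0 = x ∧ y k = x * wg W w ∧
    (∀ j < k, ∃ i, y (j + 1) = y j * W.g i) := by
  induction k generalizing x with
  | zero =>
    refine ⟨fun _ => x, rfl, ?_, fun j hj => absurd hj (Nat.not_lt_zero j)⟩
    rw [words_wg_zero, mul_one]
  | succ k ih =>
    obtain ⟨y, hy0, hyk, hy⟩ := ih (Fin.tail w) (x * W.g (w 0))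
    refine ⟨fun n => match n with
      | 0 => x
      | n + 1 => y n, rfl, ?_, ?_⟩
    · change y k = _
      rw [hyk]
      have hw : w = Fin.cons (w 0) (Fin.tail w) := (Fin.cons_self_tail w).symm
      conv_rhs => rw [hw]
      rw [words_wg_cons, mul_assoc]
    · intro j hj
      cases j with
      | zero => exact ⟨w 0, hy0⟩
      | succ j =>
        obtain ⟨i, hi⟩ := hy j (Nat.lt_of_succ_lt_succ hj)
        exact ⟨i, hi⟩

/-- every element of the semigroup generated by the `g_i` is a word -/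
theorem exists_word (W : Walk Γ ι) (γ : Γ) : ∃ (k : ℕ) (w : Fin k → ι), wg W.toPreWalk w = γ := by
  have h : ∀ γ ∈ Subsemigroup.closure (Set.range W.g), ∃ l : List ι, (l.map W.g).prod = γ := by
    intro γ hγ
    induction hγ using Subsemigroup.closure_induction with
    | mem x hx =>
      obtain ⟨i, rfl⟩ := hx
      exact ⟨[i], by simp⟩
    | mul x y _ _ hx hy =>
      obtain ⟨l, hl⟩ := hx
      obtain ⟨l', hl'⟩ := hy
      exact ⟨l ++ l', by rw [List.map_append, List.prod_append, hl, hl']⟩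
  obtain ⟨l, hl⟩ := h γ (W.gen γ)
  refine ⟨l.length, l.get, ?_⟩
  unfold wg
  rw [← hl]
  congr 1
  have e : List.map W.g (List.ofFn l.get) = List.ofFn fun j => W.g (l.get j) := List.map_ofFn
  rw [← e, List.ofFn_get]

open Classical in
/-- group the words by their product, `pn_eq` -/
theorem tail_finset (W : PreWalk Γ ι) (C ρ : ℝ) (hd : Decay W C ρ) (k : ℕ) (S : Finset Γ) :
    ∑ w : Fin k → ι, (if wg W w ∈ S then wp W w else 0) ≤ S.card * (C * ρ ^ k) := by
  have h1 : ∀ w : Fin k → ι, (if wg W w ∈ S then wp W w else 0) = ∑ y ∈ S, (if 1 * wg W w = y then wp W w else 0) := by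
    intro w
    rw [one_mul, Finset.sum_ite_eq]
  calc ∑ w : Fin k → ι, (if wg W w ∈ S then wp W w else 0) = ∑ w : Fin k → ι, ∑ y ∈ S, (if 1 * wg W w = y then wp W w else 0) :=
        Finset.sum_congr rfl fun w _ => h1 w
    _ = ∑ y ∈ S, ∑ w : Fin k → ι, (if 1 * wg W w = y then wp W w else 0) := Finset.sum_comm
    _ = ∑ y ∈ S, pn W y k 1 := Finset.sum_congr rfl fun y _ => (pn_eq W k 1 y).symm
    _ ≤ ∑ _y ∈ S, C * ρ ^ k := Finset.sum_le_sum fun y _ => hd.2.2.2 k 1 y
    _ = S.card * (C * ρ ^ k) := by rw [Finset.sum_const, nsmul_eq_mul]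

end Pool.Agent.DD
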